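import Pool.Agent.H212.MB.Stm3

/-! MB BL (helper292 for helper212): basic facts on Blaschke products. -/

set_option autoImplicit false

open Filter Metric Set Topology MeasureTheory Polynomial
open scoped ContDiff ComplexConjugate ENNReal

namespace Pool.Agent.H212.MB

namespace BLaux

theorem key (a z : ℂ) :
    ‖1 - conj a * z‖ ^ 2 - ‖z - a‖ ^ 2 = (1 - ‖a‖ ^ 2) * (1 - ‖z‖ ^ 2) := by
  simp only [Complex.sq_norm, Complex.normSq_apply, Complex.sub_re, Complex.sub_im, Complex.mul_re,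
    Complex.mul_im, Complex.one_re, Complex.one_im, Complex.conj_re, Complex.conj_im]
  ring

theorem den_ne {a z : ℂ} (ha : ‖a‖ < 1) (hz : ‖z‖ ≤ 1) : 1 - conj a * z ≠ 0 := by
  intro h
  have h1 : conj a * z = 1 := (sub_eq_zero.1 h).symm
  have h2 : ‖conj a * z‖ = 1 := by rw [h1, norm_one]
  rw [norm_mul, Complex.norm_conj] at h2
  nlinarith [norm_nonneg a, norm_nonneg z]

theorem fac_le {a z : ℂ} (ha : ‖a‖ < 1) (hz : ‖z‖ ≤ 1) : ‖(z - a) / (1 - conj a * z)‖ ≤ 1 := by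
  have hd : 0 < ‖1 - conj a * z‖ := norm_pos_iff.2 (den_ne ha hz)
  rw [norm_div, div_le_one hd]
  have h := key a z
  have h1 : 0 ≤ (1 - ‖a‖ ^ 2) * (1 - ‖z‖ ^ 2) := by
    apply mul_nonneg <;> nlinarith [norm_nonneg a, norm_nonneg z]
  exact le_of_sq_le_sq (by linarith) hd.le

theorem fac_eq {a z : ℂ} (ha : ‖a‖ < 1) (hz : ‖z‖ = 1) : ‖(z - a) / (1 - conj a * z)‖ = 1 := by
  have hd : 0 < ‖1 - conj a * z‖ := norm_pos_iff.2 (den_ne ha hz.le)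
  rw [norm_div, div_eq_one_iff_eq hd.ne']
  have h := key a z
  rw [hz] at h
  have h2 : ‖z - a‖ ^ 2 = ‖1 - conj a * z‖ ^ 2 := by linarith
  exact (sq_eq_sq₀ (norm_nonneg _) (norm_nonneg _)).1 h2

theorem fac_lt {a : ℂ} (ha : ‖a‖ < 1) {r : ℝ} (hr0 : 0 ≤ r) (hr : r < 1) :
    ∃ q : ℝ, 0 < q ∧ q < 1 ∧ ∀ z : ℂ, ‖z‖ ≤ r → ‖(z - a) / (1 - conj a * z)‖ ≤ q := by
  set s : ℝ := (1 - ‖a‖ ^ 2) * (1 - r ^ 2) / 4 with hs
  have ha2 : 0 < 1 - ‖a‖ ^ 2 := by nlinarith [norm_nonneg a]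
  have ha3 : 1 - ‖a‖ ^ 2 ≤ 1 := by nlinarith [norm_nonneg a]
  have hr2 : 0 < 1 - r ^ 2 := by nlinarith
  have hr3 : 1 - r ^ 2 ≤ 1 := by nlinarith
  have hs0 : 0 < s := by positivity
  have hs1 : s < 1 := by
    rw [hs]; nlinarith
  refine ⟨Real.sqrt (1 - s), Real.sqrt_pos.2 (by linarith), ?_, fun z hz => ?_⟩
  · rw [Real.sqrt_lt' one_pos]; linarith
  · have hz1 : ‖z‖ ≤ 1 := hz.trans hr.le
    have hd : 0 < ‖1 - conj a * z‖ := norm_pos_iff.2 (den_ne ha hz1)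
    apply Real.le_sqrt_of_sq_le
    rw [norm_div, div_pow, div_le_iff₀ (by positivity)]
    have h := key a z
    have h1 : ‖1 - conj a * z‖ ≤ 2 := by
      refine (norm_sub_le _ _).trans ?_
      rw [norm_one, norm_mul, Complex.norm_conj]
      nlinarith [norm_nonneg a, norm_nonneg z]
    have h2 : ‖1 - conj a * z‖ ^ 2 ≤ 4 := by nlinarith
    have h3 : (1 - ‖a‖ ^ 2) * (1 - r ^ 2) ≤ (1 - ‖a‖ ^ 2) * (1 - ‖z‖ ^ 2) := by
      apply mul_le_mul_of_nonneg_left _ ha2.le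
      nlinarith [norm_nonneg z]
    have h4 : s * ‖1 - conj a * z‖ ^ 2 ≤ s * 4 := mul_le_mul_of_nonneg_left h2 hs0.le
    have h5 : s * 4 = (1 - ‖a‖ ^ 2) * (1 - r ^ 2) := by rw [hs]; ring
    nlinarith

variable {n : ℕ} (A : Blaschke n)

theorem ev_eq (z : ℂ) :
    A.ev z = A.c * z * ∏ i, ((z - A.a i) / (1 - conj (A.a i) * z)) := by
  unfold Blaschke.ev Blaschke.num Blaschke.den
  rw [Finset.prod_div_distrib]
  ring

theorem norm_ev (z : ℂ) :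
    ‖A.ev z‖ = ‖z‖ * ∏ i, ‖(z - A.a i) / (1 - conj (A.a i) * z)‖ := by
  rw [ev_eq, norm_mul, norm_mul, A.norm_c, one_mul, norm_prod]

theorem c_ne : A.c ≠ 0 := by
  intro h
  have := A.norm_c
  rw [h, norm_zero] at this
  exact zero_ne_one this

theorem den_ne' (z : ℂ) (hz : ‖z‖ ≤ 1) : A.den z ≠ 0 := by
  unfold Blaschke.den
  exact Finset.prod_ne_zero_iff.2 fun i _ => den_ne (A.norm_a i) hz

theorem ev_le (z : ℂ) (hz : ‖z‖ ≤ 1) : ‖A.ev z‖ ≤ ‖z‖ := by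
  rw [norm_ev]
  have : ∏ i, ‖(z - A.a i) / (1 - conj (A.a i) * z)‖ ≤ 1 :=
    Finset.prod_le_one (fun i _ => norm_nonneg _) (fun i _ => fac_le (A.norm_a i) hz)
  nlinarith [norm_nonneg z]

theorem ev_one (z : ℂ) (hz : ‖z‖ = 1) : ‖A.ev z‖ = 1 := by
  rw [norm_ev, hz, one_mul]
  exact Finset.prod_eq_one fun i _ => fac_eq (A.norm_a i) hz

theorem den_fin : {z | A.den z = 0}.Finite := by
  apply (Set.finite_range fun i => (conj (A.a i))⁻¹).subset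
  intro z hz
  have h1 : ∏ i, (1 - conj (A.a i) * z) = 0 := hz
  obtain ⟨i, _, hi⟩ := Finset.prod_eq_zero_iff.1 h1
  refine ⟨i, ?_⟩
  have h2 : conj (A.a i) * z = 1 := (sub_eq_zero.1 hi).symm
  exact (eq_inv_of_mul_eq_one_right h2).symm

theorem num_ne (z : ℂ) (hz : z ∈ Ext) : A.num z ≠ 0 := by
  have hz1 : 1 < ‖z‖ := hz
  unfold Blaschke.num
  refine mul_ne_zero (mul_ne_zero (c_ne A) ?_) (Finset.prod_ne_zero_iff.2 fun i _ => ?_)
  · rintro rfl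
    rw [norm_zero] at hz1
    linarith
  · intro h
    have h1 : z = A.a i := sub_eq_zero.1 h
    have h2 := A.norm_a i
    rw [← h1] at h2
    linarith

theorem refl (z : ℂ) (hz : z ≠ 0) (hd : A.den z ≠ 0) (hn : A.num z ≠ 0) :
    A.den (conj z)⁻¹ ≠ 0 ∧ A.ev (conj z)⁻¹ = (conj (A.ev z))⁻¹ := by
  have hcz : conj z ≠ 0 := (_root_.map_ne_zero _).2 hz
  have hza : ∀ i, z - A.a i ≠ 0 := by
    unfold Blaschke.num at hn
    intro i
    exact Finset.prod_ne_zero_iff.1 (right_ne_zero_of_mul hn) i (Finset.mem_univ i)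
  have hzd : ∀ i, 1 - conj (A.a i) * z ≠ 0 := by
    unfold Blaschke.den at hd
    intro i
    exact Finset.prod_ne_zero_iff.1 hd i (Finset.mem_univ i)
  have hza' : ∀ i, conj z - conj (A.a i) ≠ 0 := fun i => by
    rw [← map_sub]; exact (_root_.map_ne_zero _).2 (hza i)
  have hzd' : ∀ i, 1 - A.a i * conj z ≠ 0 := fun i => by
    have h := (_root_.map_ne_zero (starRingEnd ℂ)).2 (hzd i)
    simpa using h
  have e1 : ∀ i, 1 - conj (A.a i) * (conj z)⁻¹ = (conj z - conj (A.a i)) / conj z := fun i => by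
    field_simp
  refine ⟨?_, ?_⟩
  · unfold Blaschke.den
    refine Finset.prod_ne_zero_iff.2 fun i _ => ?_
    rw [e1]
    exact div_ne_zero (hza' i) hcz
  · rw [ev_eq, ev_eq, map_mul, map_mul, map_prod, mul_inv, mul_inv, ← Finset.prod_inv_distrib]
    have hc : (conj A.c)⁻¹ = A.c := by
      have h1 : A.c * conj A.c = 1 := by
        rw [Complex.mul_conj, Complex.normSq_eq_norm_sq, A.norm_c]; simp
      exact (eq_inv_of_mul_eq_one_left h1).symm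
    rw [hc]
    congr 1
    refine Finset.prod_congr rfl fun i _ => ?_
    rw [e1, map_div₀, map_sub, map_sub, map_one, map_mul, Complex.conj_conj]
    have h1 := hza' i
    have h2 := hzd' i
    field_simp

theorem ev_ne (z : ℂ) (hd : A.den z ≠ 0) (hn : A.num z ≠ 0) : A.ev z ≠ 0 :=
  div_ne_zero hn hd

theorem ev_ge (z : ℂ) (hz : z ∈ Ext) (hd : A.den z ≠ 0) : ‖z‖ ≤ ‖A.ev z‖ := by
  have hz1 : 1 < ‖z‖ := hz
  have hz0 : z ≠ 0 := by rintro rfl; rw [norm_zero] at hz1; linarith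
  have hn := num_ne A z hz
  obtain ⟨h1, h2⟩ := refl A z hz0 hd hn
  have h3 : ‖(conj z)⁻¹‖ ≤ 1 := by
    rw [norm_inv, Complex.norm_conj]
    exact inv_le_one_of_one_le₀ hz1.le
  have h4 := ev_le A _ h3
  rw [h2, norm_inv, norm_inv, Complex.norm_conj, Complex.norm_conj] at h4
  have h5 : 0 < ‖A.ev z‖ := norm_pos_iff.2 (ev_ne A z hd hn)
  exact (inv_le_inv₀ h5 (by linarith)).1 h4

theorem ev_lt (hn2 : 2 ≤ n) (r : ℝ) (hr : r < 1) :
    ∃ q : ℝ, 0 < q ∧ q < 1 ∧ ∀ z : ℂ, ‖z‖ ≤ r → ‖A.ev z‖ ≤ q * ‖z‖ := by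
  by_cases hr0 : 0 ≤ r
  swap
  · exact ⟨1 / 2, by norm_num, by norm_num, fun z hz => absurd ((norm_nonneg z).trans hz) hr0⟩
  have i₀ : Fin (n - 1) := ⟨0, by omega⟩
  obtain ⟨q, hq0, hq1, hq⟩ := fac_lt (A.norm_a i₀) hr0 hr
  refine ⟨q, hq0, hq1, fun z hz => ?_⟩
  rw [norm_ev, mul_comm]
  apply mul_le_mul_of_nonneg_right _ (norm_nonneg z)
  rw [← Finset.mul_prod_erase _ _ (Finset.mem_univ i₀)]
  have h1 : ∏ i ∈ Finset.univ.erase i₀, ‖(z - A.a i) / (1 - conj (A.a i) * z)‖ ≤ 1 :=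
    Finset.prod_le_one (fun i _ => norm_nonneg _) (fun i _ => fac_le (A.norm_a i) (hz.trans hr.le))
  have h0 : 0 ≤ ∏ i ∈ Finset.univ.erase i₀, ‖(z - A.a i) / (1 - conj (A.a i) * z)‖ :=
    Finset.prod_nonneg fun i _ => norm_nonneg _
  calc _ ≤ q * 1 := mul_le_mul (hq z hz) h1 h0 hq0.le
    _ = q := mul_one q

theorem ev_gt (hn2 : 2 ≤ n) (r : ℝ) (hr : 1 < r) :
    ∃ q : ℝ, 1 < q ∧ ∀ z : ℂ, r ≤ ‖z‖ → A.den z ≠ 0 → q * ‖z‖ ≤ ‖A.ev z‖ := by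
  obtain ⟨q, hq0, hq1, hq⟩ := ev_lt A hn2 r⁻¹ (inv_lt_one_of_one_lt₀ hr)
  refine ⟨q⁻¹, (one_lt_inv₀ hq0).2 hq1, fun z hz hd => ?_⟩
  have hz1 : 1 < ‖z‖ := lt_of_lt_of_le hr hz
  have hz0 : z ≠ 0 := by rintro rfl; rw [norm_zero] at hz1; linarith
  have hn := num_ne A z hz1
  obtain ⟨h1, h2⟩ := refl A z hz0 hd hn
  have h3 : ‖(conj z)⁻¹‖ ≤ r⁻¹ := by
    rw [norm_inv, Complex.norm_conj]
    exact inv_anti₀ (by linarith) hz
  have h4 := hq _ h3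
  rw [h2, norm_inv, norm_inv, Complex.norm_conj, Complex.norm_conj] at h4
  have h5 : 0 < ‖A.ev z‖ := norm_pos_iff.2 (ev_ne A z hd hn)
  have h6 : 0 < ‖z‖ := by linarith
  rw [inv_mul_le_iff₀ hq0]
  rw [inv_le_iff_one_le_mul₀ h5] at h4
  have h7 : ‖z‖ * 1 ≤ ‖z‖ * (q * ‖z‖⁻¹ * ‖A.ev z‖) := mul_le_mul_of_nonneg_left h4 h6.le
  calc ‖z‖ = ‖z‖ * 1 := (mul_one _).symm
    _ ≤ ‖z‖ * (q * ‖z‖⁻¹ * ‖A.ev z‖) := h7
    _ = q * ‖A.ev z‖ := by field_simp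

end BLaux

open BLaux in
theorem t_BL : S_BL := by
  intro n hn A
  refine ⟨den_ne' A, ev_le A, ev_one A, ev_ge A, den_fin A, num_ne A, refl A,
    fun hn2 => ⟨fun r hr => ?_, ev_gt A hn2⟩, fun z => ?_⟩
  · obtain ⟨q, _, hq1, hq⟩ := ev_lt A hn2 r hr
    exact ⟨q, hq1, hq⟩
  · have hd : (zn n).den z = 1 := by simp [Blaschke.den, zn]
    refine ⟨hd, ?_⟩
    unfold Blaschke.ev
    rw [hd, div_one]
    simp only [Blaschke.num, zn, one_mul, sub_zero, Finset.prod_const, Finset.card_univ,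
      Fintype.card_fin]
    rw [← pow_succ']
    congr 1
    omega

end Pool.Agent.H212.MB
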