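import Pool.Agent.H212.MB.Stm3

/-!
# Project MB, job CIRC (helper282 for helper212)
-/

set_option autoImplicit false

open Filter Metric Set Topology

namespace Pool.Agent.H212.MB

namespace CIRCaux

theorem lift_unique (h h' : C(ℝ, ℝ)) (hh : ∀ x, Circle.exp (h x) = Circle.exp (h' x)) :
    ∃ m : ℤ, ∀ x, h x = h' x + m * (2 * Real.pi) := by
  obtain ⟨m, hm⟩ := Circle.exp_eq_exp.1 (hh 0)
  refine ⟨m, ?_⟩
  obtain ⟨F, hF, huniq⟩ := Circle.isCoveringMap_exp.existsUnique_continuousMap_lifts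
    (⟨fun x => Circle.exp (h x), by fun_prop⟩ : C(ℝ, Circle)) 0 (h 0) rfl
  have h1 := huniq h ⟨rfl, rfl⟩
  have h2 := huniq ⟨fun x => h' x + m * (2 * Real.pi), by fun_prop⟩
    ⟨hm.symm, funext fun x => (Circle.exp_eq_exp.2 ⟨m, rfl⟩).trans (hh x).symm⟩
  intro x
  exact DFunLike.congr_fun (h1.trans h2.symm) x

theorem per_int {s : ℝ → ℝ} (hp : ∀ x, s (x + 2 * Real.pi) = s x + 2 * Real.pi) (x : ℝ) (m : ℤ) :
    s (x + m * (2 * Real.pi)) = s x + m * (2 * Real.pi) := by
  have h1 : Function.Periodic (fun x => s x - x) (2 * Real.pi) := by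
    intro x
    show s (x + 2 * Real.pi) - (x + 2 * Real.pi) = s x - x
    rw [hp]
    ring
  have h2 : s (x + m * (2 * Real.pi)) - (x + m * (2 * Real.pi)) = s x - x := h1.int_mul m x
  linarith

theorem surj {s : ℝ → ℝ} (hc : Continuous s)
    (hp : ∀ x, s (x + 2 * Real.pi) = s x + 2 * Real.pi) : Function.Surjective s := by
  intro y
  have hpi := Real.pi_pos
  have h1 : y ∈ Set.range s := by
    apply mem_range_of_exists_le_of_exists_ge hc
    · obtain ⟨m, hm⟩ := exists_int_gt ((s 0 - y) / (2 * Real.pi))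
      refine ⟨0 + ((-m : ℤ) : ℝ) * (2 * Real.pi), ?_⟩
      rw [per_int hp]
      rw [div_lt_iff₀ (by positivity)] at hm
      push_cast
      linarith
    · obtain ⟨m, hm⟩ := exists_int_gt ((y - s 0) / (2 * Real.pi))
      refine ⟨0 + (m : ℝ) * (2 * Real.pi), ?_⟩
      rw [per_int hp]
      rw [div_lt_iff₀ (by positivity)] at hm
      linarith
  exact h1

/-- uniqueness when the conjugacies agree at `0` -/
theorem eq_of (n : ℕ) (hn : 2 ≤ n) (s s' : ℝ → ℝ) (hc : Continuous s) (hm : StrictMono s)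
    (hp : ∀ x, s (x + 2 * Real.pi) = s x + 2 * Real.pi) (hc' : Continuous s') (hm' : StrictMono s')
    (hp' : ∀ x, s' (x + 2 * Real.pi) = s' x + 2 * Real.pi) (B : Circle → Circle)
    (h : ∀ x : ℝ, Circle.exp (s (n * x)) = B (Circle.exp (s x)))
    (h' : ∀ x : ℝ, Circle.exp (s' (n * x)) = B (Circle.exp (s' x))) (h0 : s 0 = s' 0) : s = s' := by
  let e : ℝ ≃o ℝ := StrictMono.orderIsoOfSurjective s hm (surj hc hp)
  let e' : ℝ ≃o ℝ := StrictMono.orderIsoOfSurjective s' hm' (surj hc' hp')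
  have he : ∀ x, e x = s x := fun _ => rfl
  have he' : ∀ x, e' x = s' x := fun _ => rfl
  have hes : ∀ y, s (e.symm y) = y := fun y => e.apply_symm_apply y
  have hes' : ∀ y, s' (e'.symm y) = y := fun y => e'.apply_symm_apply y
  have hse : ∀ x, e.symm (s x) = x := fun x => e.symm_apply_apply x
  have hse' : ∀ x, e'.symm (s' x) = x := fun x => e'.symm_apply_apply x
  obtain ⟨m, hmm⟩ := lift_unique
    ⟨fun y => s (n * e.symm y), hc.comp (continuous_const.mul e.symm.continuous)⟩
    ⟨fun y => s' (n * e'.symm y), hc'.comp (continuous_const.mul e'.symm.continuous)⟩ (fun y => by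
      show Circle.exp (s (n * e.symm y)) = Circle.exp (s' (n * e'.symm y))
      rw [h, h', hes, hes'])
  have hmm' : ∀ y, s (n * e.symm y) = s' (n * e'.symm y) + m * (2 * Real.pi) := hmm
  have hγ : ∀ y, s (n * e.symm y) = s' (n * e'.symm y) := by
    have h1 := hmm' (s 0)
    rw [hse] at h1
    rw [h0, hse', mul_zero, ← h0] at h1
    have h2 : (m : ℝ) * (2 * Real.pi) = 0 := by linarith
    intro y
    rw [hmm' y, h2, add_zero]
  -- `u = s⁻¹ ∘ s'`
  have hu : ∀ x, e.symm (s' (n * x)) = n * e.symm (s' x) := by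
    intro x
    have h1 := hγ (s' x)
    rw [hse'] at h1
    rw [← h1, hse]
  have huk : ∀ (k : ℕ) x, e.symm (s' ((n : ℝ) ^ k * x)) = (n : ℝ) ^ k * e.symm (s' x) := by
    intro k
    induction k with
    | zero => intro x; simp
    | succ k ih =>
      intro x
      have e1 : (n : ℝ) ^ (k + 1) * x = n * ((n : ℝ) ^ k * x) := by ring
      rw [e1, hu, ih]
      ring
  have hup : Function.Periodic (fun x => e.symm (s' x) - x) (2 * Real.pi) := by
    intro x
    show e.symm (s' (x + 2 * Real.pi)) - (x + 2 * Real.pi) = e.symm (s' x) - x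
    have h1 : e.symm (s' x + 2 * Real.pi) = e.symm (s' x) + 2 * Real.pi := by
      have h2 := hp (e.symm (s' x))
      rw [hes] at h2
      rw [← h2, hse]
    rw [hp', h1]
    ring
  have huc : Continuous (fun x => e.symm (s' x) - x) :=
    (e.symm.continuous.comp hc').sub continuous_id
  obtain ⟨M, hM⟩ : ∃ M : ℝ, ∀ x, |e.symm (s' x) - x| ≤ M := by
    have hpi := Real.pi_pos
    obtain ⟨M, hM⟩ := (isCompact_Icc (a := (0 : ℝ)) (b := 2 * Real.pi)).exists_bound_of_continuousOn
      huc.continuousOn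
    refine ⟨M, fun x => ?_⟩
    obtain ⟨y, hy, hxy⟩ := hup.exists_mem_Ico₀ (by positivity) x
    have h1 := hM y ⟨hy.1, hy.2.le⟩
    have h2 : e.symm (s' x) - x = e.symm (s' y) - y := hxy
    rw [h2]
    exact h1
  funext x
  have hx : e.symm (s' x) = x := by
    by_contra hne
    have hpos : 0 < |e.symm (s' x) - x| := abs_pos.2 (sub_ne_zero.2 hne)
    have hn1 : (1 : ℝ) < n := by
      have : (2 : ℝ) ≤ n := by exact_mod_cast hn
      linarith
    obtain ⟨k, hk⟩ := pow_unbounded_of_one_lt (M / |e.symm (s' x) - x|) hn1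
    rw [div_lt_iff₀ hpos] at hk
    have h1 := hM ((n : ℝ) ^ k * x)
    rw [huk, ← mul_sub, abs_mul, abs_of_nonneg (by positivity)] at h1
    linarith
  have h3 := hes (s' x)
  rw [hx] at h3
  exact h3

end CIRCaux

open CIRCaux in
theorem t_CIRC : S_CIRC := by
  intro n hn B s s' hc hm hp hc' hm' hp' h h' h0 x
  have hco : ∀ t : ℝ, ((Circle.exp t : Circle) : ℂ) = Complex.exp (t * Complex.I) :=
    fun t => Circle.coe_exp t
  obtain ⟨j, hj⟩ := Circle.exp_eq_exp.1 (Circle.coe_injective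
    (by rw [hco, hco]; exact h0) : Circle.exp (s 0) = Circle.exp (s' 0))
  -- `s'' = s' + j 2π`
  have hexp : ∀ t : ℝ, Circle.exp (t + j * (2 * Real.pi)) = Circle.exp t :=
    fun t => Circle.exp_eq_exp.2 ⟨j, rfl⟩
  -- the map on the circle
  have hsB : ∀ w : Circle, ∃ v : Circle, (v : ℂ) = B w := by
    intro w
    obtain ⟨y, hy⟩ := surj hc hp (Complex.arg w)
    refine ⟨Circle.exp (s (n * y)), ?_⟩
    rw [hco, h, hy, ← hco, Circle.exp_arg]
  choose B' hB' using hsB
  have key := eq_of n hn s (fun x => s' x + j * (2 * Real.pi)) hc hm hp (by fun_prop)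
    (fun a b hab => by
      have := hm' hab
      show s' a + _ < s' b + _
      linarith) (fun x => by
      show s' (x + 2 * Real.pi) + _ = s' x + _ + _
      rw [hp']
      ring) B' (fun x => by
      apply Circle.coe_injective
      rw [hB', hco, hco, h]) (fun x => by
      apply Circle.coe_injective
      show ((Circle.exp (s' (n * x) + j * (2 * Real.pi)) : Circle) : ℂ) =
        (B' (Circle.exp (s' x + j * (2 * Real.pi))) : ℂ)
      rw [hexp, hexp, hB', hco, hco, h']) hj
  have h1 : s x = s' x + j * (2 * Real.pi) := congrFun key x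
  rw [← hco, ← hco, h1, hexp]

end Pool.Agent.H212.MB
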