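import Pool.Agent.H212.MB.Stm3

/-!
# Project MB (helper212), job CLOS: the closure of the graph. helper551.
-/

set_option autoImplicit false

open Filter Metric Set Topology MeasureTheory Polynomial
open scoped ContDiff ComplexConjugate ENNReal

namespace Pool.Agent.H212.MB

/-- the inverse of a holomorphic homeomorphism -/
theorem CLOS_symm (H : ℂ ≃ₜ ℂ) (V : Set ℂ) (hV : IsOpen V) (hd : DifferentiableOn ℂ H V) :
    ∀ z ∈ V, DifferentiableAt ℂ H.symm (H z) := by
  have key : ∀ z ∈ V, deriv H z ≠ 0 → DifferentiableAt ℂ H.symm (H z) := by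
    intro z hz h0
    have h1 : HasDerivAt H (deriv H z) z :=
      ((hd z hz).differentiableAt (hV.mem_nhds hz)).hasDerivAt
    have h2 : HasDerivAt H (deriv H z) (H.symm (H z)) := by rw [H.symm_apply_apply]; exact h1
    exact (HasDerivAt.of_local_left_inverse H.symm.continuous.continuousAt h2 h0
      (Eventually.of_forall fun y => H.apply_symm_apply y)).differentiableAt
  intro z hz
  by_cases h0 : deriv H z = 0
  · have han : AnalyticAt ℂ (deriv H) z := (hd.analyticAt (hV.mem_nhds hz)).deriv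
    rcases han.eventually_eq_zero_or_eventually_ne_zero with h1 | h1
    · exfalso
      obtain ⟨r, hr, hball⟩ := Metric.eventually_nhds_iff_ball.1 (h1.and (hV.mem_nhds hz))
      have hc : H z = H (z + (r / 2 : ℝ)) := by
        refine IsOpen.is_const_of_deriv_eq_zero (s := ball z r) isOpen_ball
          (convex_ball z r).isPreconnected (hd.mono fun y hy => (hball y hy).2)
          (fun y hy => (hball y hy).1) (mem_ball_self hr) ?_
        rw [mem_ball_iff_norm, add_sub_cancel_left, Complex.norm_real, Real.norm_eq_abs,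
          abs_of_pos (by positivity)]
        linarith
      have h2 := H.injective hc
      have h3 : ((r / 2 : ℝ) : ℂ) = 0 := by linear_combination -h2
      rw [Complex.ofReal_eq_zero] at h3
      linarith
    · have ht : Tendsto H.symm (𝓝[≠] (H z)) (𝓝[≠] z) := by
        refine tendsto_nhdsWithin_iff.2 ⟨?_, ?_⟩
        · have := H.symm.continuous.tendsto (H z)
          rw [H.symm_apply_apply] at this
          exact this.mono_left nhdsWithin_le_nhds
        · filter_upwards [self_mem_nhdsWithin] with w hw h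
          apply hw
          rw [mem_singleton_iff] at h ⊢
          rw [← h, H.apply_symm_apply]
      have h3 : ∀ᶠ y in 𝓝[≠] z, y ∈ V ∧ deriv H y ≠ 0 :=
        Filter.Eventually.and (nhdsWithin_le_nhds (hV.mem_nhds hz)) h1
      have h2 : ∀ᶠ w in 𝓝[≠] (H z), DifferentiableAt ℂ H.symm w := by
        filter_upwards [ht.eventually h3] with w hw
        have := key _ hw.1 hw.2
        rwa [H.apply_symm_apply] at this
      exact (Complex.analyticAt_of_differentiable_on_punctured_nhds_of_continuousAt h2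
        H.symm.continuous.continuousAt).differentiableAt
  · exact key z hz h0

/-! ### the denominator of a polynomial is one -/

theorem CLOS_inv : Tendsto (fun y : ℂ => y⁻¹) (cocompact ℂ) (𝓝 0) := by
  rw [← Metric.cobounded_eq_cocompact]
  exact tendsto_inv₀_cobounded

theorem CLOS_ne : ∀ᶠ y : ℂ in cocompact ℂ, y ≠ 0 := by
  have h : ({0} : Set ℂ)ᶜ ∈ cocompact ℂ := isCompact_singleton.compl_mem_cocompact
  filter_upwards [h] with y hy
  exact hy

theorem CLOS_monic {n : ℕ} (P : ℂ[X]) (hP : P.Monic) (hn : P.natDegree = n) :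
    Tendsto (fun y : ℂ => P.eval y / y ^ n) (cocompact ℂ) (𝓝 1) := by
  have h1 : Tendsto (fun y : ℂ => ∑ i ∈ Finset.range (n + 1), P.coeff i * (y⁻¹) ^ (n - i))
      (cocompact ℂ) (𝓝 (∑ i ∈ Finset.range (n + 1), P.coeff i * 0 ^ (n - i))) :=
    tendsto_finsetSum _ fun i _ => (CLOS_inv.pow (n - i)).const_mul _
  have h2 : ∑ i ∈ Finset.range (n + 1), P.coeff i * (0 : ℂ) ^ (n - i) = 1 := by
    rw [Finset.sum_range_succ, Finset.sum_eq_zero]
    · have h3 : P.coeff n = 1 := by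
        rw [← hn]
        exact hP.coeff_natDegree
      rw [h3]
      simp
    · intro i hi
      rw [Finset.mem_range] at hi
      rw [zero_pow (by omega), mul_zero]
  rw [h2] at h1
  refine h1.congr' ?_
  filter_upwards [CLOS_ne] with y hy
  rw [eval_eq_sum_range, hn, Finset.sum_div]
  refine Finset.sum_congr rfl fun i hi => ?_
  rw [Finset.mem_range] at hi
  have h4 : y ^ n = y ^ i * y ^ (n - i) := by
    rw [← pow_add]
    congr 1
    omega
  rw [h4, inv_pow]
  field_simp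

theorem CLOS_Q1 {n : ℕ} (hn : 1 ≤ n) (g : RMap n) (φ : ℂ → ℂ) (h : IsExt (zn n) g φ) :
    g.Q = 1 := by
  have hden : ∀ z, (zn n).den z = 1 := fun z => by simp [Blaschke.den, zn]
  have hev : ∀ z, (zn n).ev z = z ^ n := fun z => by
    have : z * z ^ (n - 1) = z ^ n := by
      rw [← pow_succ']
      congr 1
      omega
    rw [Blaschke.ev, hden, div_one]
    simp [Blaschke.num, zn, this]
  have hExt : ∀ᶠ z : ℂ in cocompact ℂ, z ∈ Ext := by
    have h1 : (closedBall (0 : ℂ) 1)ᶜ ∈ cocompact ℂ :=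
      (isCompact_closedBall (0 : ℂ) 1).compl_mem_cocompact
    filter_upwards [h1] with z hz
    simp only [mem_compl_iff, mem_closedBall_zero_iff, not_le] at hz
    exact hz
  have hid : Tendsto (fun z : ℂ => ‖z‖) (cocompact ℂ) atTop := tendsto_norm_cocompact_atTop
  have hφ : Tendsto φ (cocompact ℂ) (cocompact ℂ) := by
    rw [← Metric.cobounded_eq_cocompact, ← tendsto_norm_atTop_iff_cobounded,
      Metric.cobounded_eq_cocompact]
    have h1 : Tendsto (fun z => ‖z‖ - ‖φ z - z‖) (cocompact ℂ) atTop := by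
      have h2 : Tendsto (fun z => -‖φ z - z‖) (cocompact ℂ) (𝓝 (-‖(0 : ℂ)‖)) := h.norm.norm.neg
      exact hid.atTop_add h2
    refine tendsto_atTop_mono (fun z => ?_) h1
    have h3 := norm_sub_le (φ z) (φ z - z)
    rw [sub_sub_cancel] at h3
    linarith
  have hr : ∀ ψ : ℂ → ℂ, Tendsto (fun z => ψ z - z) (cocompact ℂ) (𝓝 0) →
      Tendsto (fun z => ψ z / z) (cocompact ℂ) (𝓝 1) := by
    intro ψ hψ
    have h1 : Tendsto (fun z => 1 + (ψ z - z) * z⁻¹) (cocompact ℂ) (𝓝 (1 + 0 * 0)) :=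
      (hψ.mul CLOS_inv).const_add 1
    rw [mul_zero, add_zero] at h1
    refine h1.congr' ?_
    filter_upwards [CLOS_ne] with z hz
    field_simp
    ring
  have hpow : Tendsto (fun z : ℂ => z ^ n) (cocompact ℂ) (cocompact ℂ) := by
    rw [← Metric.cobounded_eq_cocompact, ← tendsto_norm_atTop_iff_cobounded,
      Metric.cobounded_eq_cocompact]
    simp only [norm_pow]
    exact (tendsto_pow_atTop (by omega)).comp hid
  have q1 : Tendsto (fun z => g.P.eval (φ z) / (φ z) ^ n) (cocompact ℂ) (𝓝 1) :=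
    (CLOS_monic g.P g.monic g.natDegree).comp hφ
  have q2 : Tendsto (fun z => (φ z / z) ^ n) (cocompact ℂ) (𝓝 (1 ^ n)) := (hr φ h.norm).pow n
  have q3 : Tendsto (fun z => (φ (z ^ n) / z ^ n)⁻¹) (cocompact ℂ) (𝓝 (1⁻¹)) :=
    ((hr φ h.norm).comp hpow).inv₀ one_ne_zero
  have q4 : Tendsto (fun z => g.Q.eval (φ z)) (cocompact ℂ) (𝓝 1) := by
    have h1 := (q1.mul q2).mul q3
    rw [one_pow, inv_one, mul_one, mul_one] at h1
    refine h1.congr' ?_
    filter_upwards [CLOS_ne, hφ.eventually CLOS_ne, (hφ.comp hpow).eventually CLOS_ne, hExt]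
      with z h2 h3 h4 h5
    obtain ⟨h6, h7⟩ := h.semi z h5 (by rw [hden]; exact one_ne_zero)
    rw [hev, RMap.ev] at h7
    have h8 : g.P.eval (φ z) = φ (z ^ n) * g.Q.eval (φ z) := by
      rw [← h7]
      field_simp
    simp only [Function.comp_apply] at h4
    rw [h8, div_pow]
    field_simp
  by_cases hd : 0 < g.Q.degree
  · exfalso
    have h1 : Tendsto (fun z => ‖g.Q.eval (φ z)‖) (cocompact ℂ) atTop :=
      Polynomial.tendsto_norm_atTop g.Q hd (by
        rw [← Metric.cobounded_eq_cocompact, ← tendsto_norm_atTop_iff_cobounded,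
          Metric.cobounded_eq_cocompact] at hφ
        exact hφ)
    exact not_tendsto_nhds_of_tendsto_atTop h1 _ q4.norm
  · rw [not_lt] at hd
    have h1 := eq_C_of_degree_le_zero hd
    have h2 : Tendsto (fun z : ℂ => g.Q.eval (φ z)) (cocompact ℂ) (𝓝 (g.Q.coeff 0)) := by
      have : (fun z : ℂ => g.Q.eval (φ z)) = fun _ => g.Q.coeff 0 := by
        funext z
        rw [h1]
        simp
      rw [this]
      exact tendsto_const_nhds
    have h3 := tendsto_nhds_unique h2 q4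
    rw [h1, h3, C_1]

theorem CLOS_cpt (h3 : S_CPT) {n : ℕ} (hn : 1 ≤ n) (A : Blaschke n) :
    IsCompact {f : RMap n | ∃ φ, IsExt A f φ} := by
  classical
  rw [isCompact_iff_ultrafilter_le_nhds]
  intro u hu
  have hch : ∀ f : RMap n, ∃ φ : ℂ → ℂ, f ∈ {f : RMap n | ∃ φ, IsExt A f φ} → IsExt A f φ := by
    intro f
    by_cases hf : ∃ φ, IsExt A f φ
    · obtain ⟨φ, hφ⟩ := hf
      exact ⟨φ, fun _ => hφ⟩
    · exact ⟨fun _ => 0, fun h => absurd h hf⟩
  choose φ hφ using hch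
  have hev : ∀ᶠ f in (u : Filter (RMap n)), IsExt A f (φ f) := by
    have : {f : RMap n | ∃ φ, IsExt A f φ} ∈ (u : Filter (RMap n)) := le_principal_iff.1 hu
    filter_upwards [this] with f hf
    exact hφ f hf
  obtain ⟨F, Φ, hF, ht, -⟩ := h3 n hn A (RMap n) u (fun f => f) φ hev
  exact ⟨F, ⟨Φ, hF⟩, ht⟩

theorem CLOS_BB {n : ℕ} (A : Blaschke n) : BB A ⊆ {f : RMap n | ∃ φ, IsExt A f φ} := by
  rintro f ⟨B, φ, ψ, h, hd⟩
  exact ⟨φ, hd.ext⟩

/-- the links of the points of the closure, with the approximations -/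
theorem CLOS_link (h7 : S_LIM) {n : ℕ} (hn : 2 ≤ n) (A : Blaschke n) (k C : ℝ) (T : ℂ ≃ₜ ℂ)
    (hT : IsTr (zn n) A k T)
    (hrel : ∀ g f, Rel A g f → ∃ (H : ℂ ≃ₜ ℂ) (φ φ' : ℂ → ℂ), Link A T C g f H φ φ' ∧
      DifferentiableOn ℂ H (interior (φ '' Ext)ᶜ)) (g f : RMap n) (hgf : (g, f) ∈ EE A) :
    ∃ (u : Ultrafilter (RMap n × RMap n)) (H : RMap n × RMap n → ℂ ≃ₜ ℂ)
      (φ φ' : RMap n × RMap n → ℂ → ℂ) (K : ℂ ≃ₜ ℂ) (Φ Φ' : ℂ → ℂ),
      (∀ᶠ p in (u : Filter (RMap n × RMap n)), Link A T C p.1 p.2 (H p) (φ p) (φ' p) ∧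
        DifferentiableOn ℂ (H p) (interior (φ p '' Ext)ᶜ)) ∧
      Tendsto (fun p : RMap n × RMap n => p.1) u (𝓝 g) ∧
      Tendsto (fun p : RMap n × RMap n => p.2) u (𝓝 f) ∧ Link A T C g f K Φ Φ' ∧
      TendstoLocallyUniformly (fun i z => H i z) (fun z => K z) (u : Filter (RMap n × RMap n)) ∧
      TendstoLocallyUniformly (fun i z => (H i).symm z) (fun z => K.symm z)
        (u : Filter (RMap n × RMap n)) := by
  classical
  obtain ⟨u, hu, hle⟩ := mem_closure_iff_ultrafilter.1 hgf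
  have hch : ∀ p : RMap n × RMap n, ∃ (H : ℂ ≃ₜ ℂ) (φ φ' : ℂ → ℂ), Rel A p.1 p.2 →
      Link A T C p.1 p.2 H φ φ' ∧ DifferentiableOn ℂ H (interior (φ '' Ext)ᶜ) := by
    intro p
    by_cases hp : Rel A p.1 p.2
    · obtain ⟨H, φ, φ', h⟩ := hrel p.1 p.2 hp
      exact ⟨H, φ, φ', fun _ => h⟩
    · exact ⟨Homeomorph.refl ℂ, id, id, fun h => absurd h hp⟩
  choose H φ φ' hH using hch
  have hev : ∀ᶠ p in (u : Filter (RMap n × RMap n)), Link A T C p.1 p.2 (H p) (φ p) (φ' p) ∧
        DifferentiableOn ℂ (H p) (interior (φ p '' Ext)ᶜ) := by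
    filter_upwards [hu] with p hp
    exact hH p hp
  have t1 : Tendsto (fun p : RMap n × RMap n => p.1) u (𝓝 g) :=
    (continuous_fst.tendsto (g, f)).mono_left hle
  have t2 : Tendsto (fun p : RMap n × RMap n => p.2) u (𝓝 f) :=
    (continuous_snd.tendsto (g, f)).mono_left hle
  obtain ⟨K, Φ, Φ', hK, c1, c2⟩ := h7 n hn A k C T hT (RMap n × RMap n) u (fun p => p.1)
    (fun p => p.2) H φ φ' g f (hev.mono fun p hp => hp.1) t1 t2
  exact ⟨u, H, φ, φ', K, Φ, Φ', hev, t1, t2, hK, c1, c2⟩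

/-- a limit of homeomorphisms, holomorphic on larger and larger sets -/
theorem CLOS_hol {ι : Type} (u : Filter ι) [u.NeBot] (F : ι → ℂ → ℂ) (K : ℂ → ℂ) (U : Set ℂ)
    (hU : IsOpen U) (hF : TendstoLocallyUniformly F K u)
    (hd : ∀ L : Set ℂ, IsCompact L → L ⊆ U → ∀ᶠ i in u, ∀ z ∈ interior L,
      DifferentiableAt ℂ (F i) z) : DifferentiableOn ℂ K U := by
  intro y hy
  obtain ⟨r, hr, hball⟩ := Metric.isOpen_iff.1 hU y hy
  have h1 : closedBall y (r / 2) ⊆ U := (closedBall_subset_ball (by linarith)).trans hball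
  have h2 := hd _ (isCompact_closedBall y (r / 2)) h1
  have h3 : ∀ᶠ i in u, DifferentiableOn ℂ (F i) (ball y (r / 2)) := by
    filter_upwards [h2] with i hi z hz
    exact (hi z (interior_mono ball_subset_closedBall (by rwa [isOpen_ball.interior_eq]))
      ).differentiableWithinAt
  have h4 : DifferentiableOn ℂ K (ball y (r / 2)) :=
    (hF.tendstoLocallyUniformlyOn (s := ball y (r / 2))).differentiableOn h3 isOpen_ball
  exact ((h4 y (mem_ball_self (by linarith))).differentiableAt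
    (isOpen_ball.mem_nhds (mem_ball_self (by linarith)))).differentiableWithinAt

theorem CLOS_open {n : ℕ} {A B : Blaschke n} {f : RMap n} {φ ψ : ℂ → ℂ} {h : ℝ → ℝ}
    (hd : IsMatingData A B f φ ψ h) : IsOpen (ψ '' ball 0 1) := by
  have han : AnalyticOnNhd ℂ ψ (ball 0 1) := hd.diffψ.analyticOnNhd isOpen_ball
  rcases han.is_constant_or_isOpen (convex_ball (0 : ℂ) 1).isPreconnected with hc | ho
  · exfalso
    obtain ⟨w, hw⟩ := hc
    have h0 : (0 : ℂ) ∈ ball (0 : ℂ) 1 := mem_ball_self one_pos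
    have h1 : (1 / 2 : ℂ) ∈ ball (0 : ℂ) 1 := by
      rw [mem_ball_zero_iff]
      norm_num
    have h2 := hd.injψ (ball_subset_closedBall h0) (ball_subset_closedBall h1)
      ((hw _ h0).trans (hw _ h1).symm)
    norm_num at h2
  · exact ho _ le_rfl isOpen_ball

theorem CLOS_Ext {n : ℕ} {A₁ A₂ : Blaschke n} {k : ℝ} {T : ℂ ≃ₜ ℂ} (hT : IsTr A₁ A₂ k T) (z : ℂ) :
    T z ∈ Ext ↔ z ∈ Ext := hT.out z

theorem CLOS_img {n : ℕ} {A : Blaschke n} {k C : ℝ} {T : ℂ ≃ₜ ℂ} (hT : IsTr (zn n) A k T)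
    {g f : RMap n} {H : ℂ ≃ₜ ℂ} {φ φ' : ℂ → ℂ} (hL : Link A T C g f H φ φ') (x : ℂ) :
    H x ∈ φ' '' Ext ↔ x ∈ φ '' Ext := by
  constructor
  · rintro ⟨w, hw, he⟩
    refine ⟨T.symm w, ?_, ?_⟩
    · rw [← CLOS_Ext hT, T.apply_symm_apply]
      exact hw
    · have h1 := hL.out (T.symm w) (by
        rw [← CLOS_Ext hT, T.apply_symm_apply]
        exact hw)
      rw [T.apply_symm_apply, he] at h1
      exact H.injective h1
  · rintro ⟨w, hw, rfl⟩
    exact ⟨T w, (CLOS_Ext hT w).2 hw, (hL.out w hw).symm⟩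

theorem t_CLOS (h1 : S_RTOP) (h2 : S_EXTU) (h3 : S_CPT) (h4 : S_TRALG) (h5 : S_MATE)
    (h6 : S_STAB) (h7 : S_LIM) (h8 : S_REL) : S_CLOS := by
  intro n hn A
  have hn1 : 1 ≤ n := by omega
  obtain ⟨hT2, -⟩ := h1 n
  obtain ⟨-, hgtot, hftot, -, -, k, C, T, hk0, hk1, hT, hrel⟩ := h8 n hn A
  have cA := CLOS_cpt h3 hn1 A
  have cz := CLOS_cpt h3 hn1 (zn n)
  have hRelX : {p : RMap n × RMap n | Rel A p.1 p.2} ⊆
      {f : RMap n | ∃ φ, IsExt (zn n) f φ} ×ˢ {f : RMap n | ∃ φ, IsExt A f φ} := by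
    rintro ⟨g, f⟩ ⟨B, hg, hf⟩
    exact ⟨CLOS_BB _ ⟨B, hg⟩, CLOS_BB _ ⟨B, hf⟩⟩
  have hsub : closure (BB A) ⊆ {f : RMap n | ∃ φ, IsExt A f φ} :=
    closure_minimal (CLOS_BB A) cA.isClosed
  refine ⟨(cz.prod cA).closure_of_subset hRelX, cA.closure_of_subset (CLOS_BB A),
    fun f hf => hsub hf, ?_, ?_, ?_, ?_, ?_, k, C, T, hk0, hk1, hT, ?_⟩
  · intro g f hgf
    constructor
    · exact map_mem_closure continuous_fst hgf (fun p hp => by
        obtain ⟨B, hg, hf⟩ := hp
        exact ⟨B, hg⟩)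
    · exact map_mem_closure continuous_snd hgf (fun p hp => by
        obtain ⟨B, hg, hf⟩ := hp
        exact ⟨B, hf⟩)
  · intro g hg
    classical
    obtain ⟨u, hu, hle⟩ := mem_closure_iff_ultrafilter.1 hg
    have hch : ∀ g : RMap n, ∃ (f : RMap n) (φ : ℂ → ℂ), g ∈ BB (zn n) → Rel A g f ∧
        IsExt A f φ := by
      intro g
      by_cases hg : g ∈ BB (zn n)
      · obtain ⟨f, hf⟩ := hgtot g hg
        obtain ⟨φ, hφ⟩ := CLOS_BB A (show f ∈ BB A from by
          obtain ⟨B, _, hB⟩ := hf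
          exact ⟨B, hB⟩)
        exact ⟨f, φ, fun _ => ⟨hf, hφ⟩⟩
      · exact ⟨g, id, fun h => absurd h hg⟩
    choose F φ hF using hch
    obtain ⟨F₀, Φ, -, ht, -⟩ := h3 n hn1 A (RMap n) u F φ (by
      filter_upwards [hu] with g hg
      exact (hF g hg).2)
    refine ⟨F₀, ?_⟩
    refine mem_closure_of_tendsto (f := fun g => (g, F g)) (b := (u : Filter (RMap n)))
      (Tendsto.prodMk_nhds hle ht) ?_
    filter_upwards [hu] with g hg
    exact (hF g hg).1
  · intro f hf
    classical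
    obtain ⟨u, hu, hle⟩ := mem_closure_iff_ultrafilter.1 hf
    have hch : ∀ f : RMap n, ∃ (g : RMap n) (φ : ℂ → ℂ), f ∈ BB A → Rel A g f ∧
        IsExt (zn n) g φ := by
      intro f
      by_cases hf : f ∈ BB A
      · obtain ⟨g, hg⟩ := hftot f hf
        obtain ⟨φ, hφ⟩ := CLOS_BB (zn n) (show g ∈ BB (zn n) from by
          obtain ⟨B, hB, _⟩ := hg
          exact ⟨B, hB⟩)
        exact ⟨g, φ, fun _ => ⟨hg, hφ⟩⟩
      · exact ⟨f, id, fun h => absurd h hf⟩
    choose G φ hG using hch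
    obtain ⟨G₀, Φ, -, ht, -⟩ := h3 n hn1 (zn n) (RMap n) u G φ (by
      filter_upwards [hu] with f hf
      exact (hG f hf).2)
    refine ⟨G₀, ?_⟩
    refine mem_closure_of_tendsto (f := fun f => (G f, f)) (b := (u : Filter (RMap n)))
      (Tendsto.prodMk_nhds ht hle) ?_
    filter_upwards [hu] with f hf
    exact (hG f hf).1
  · rintro g f hgf ⟨B, φ, ψ, h, hd⟩
    refine ⟨B, ⟨φ, ψ, h, hd⟩, ?_⟩
    obtain ⟨u, H, φi, φi', K, Φ, Φ', hev, t1, t2, hK, c1, c2⟩ :=
      CLOS_link h7 hn A k C T hT hrel g f hgf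
    have hΦ : EqOn φ Φ Ext := h2 n hn (zn n) g φ Φ hd.ext hK.extg
    have himg : φ '' Ext = Φ '' Ext := hΦ.image_eq
    have hol : DifferentiableOn ℂ K (ψ '' ball 0 1) := by
      refine CLOS_hol (u : Filter (RMap n × RMap n)) (fun i z => H i z) (fun z => K z) _
        (CLOS_open hd) c1 fun L hL hLs => ?_
      have h9 := h6 n hn (zn n) B g φ ψ h hd (RMap n × RMap n) u (fun p => p.1) φi L t1
        (hev.mono fun p hp => hp.1.extg) hL hLs
      filter_upwards [h9, hev] with p hp1 hp2 z hz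
      have h10 : z ∈ interior (φi p '' Ext)ᶜ :=
        interior_mono (fun x hx => disjoint_left.1 hp1 hx) hz
      exact (hp2.2 z h10).differentiableAt (isOpen_interior.mem_nhds h10)
    refine h5 n hn (zn n) A B g f φ ψ Φ' h k T K hd hT hK.extf ?_ hol ?_
    · intro z hz
      rw [hΦ hz]
      exact hK.out z hz
    · intro z hz
      rw [himg] at hz
      exact hK.inn z hz
  · rintro g f hgf ⟨B, φ, ψ, h, hd⟩
    refine ⟨B, ?_, ⟨φ, ψ, h, hd⟩⟩
    obtain ⟨u, H, φi, φi', K, Φ, Φ', hev, t1, t2, hK, c1, c2⟩ :=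
      CLOS_link h7 hn A k C T hT hrel g f hgf
    have hΦ : EqOn φ Φ' Ext := h2 n hn A f φ Φ' hd.ext hK.extf
    have himg : φ '' Ext = Φ' '' Ext := hΦ.image_eq
    have hol : DifferentiableOn ℂ K.symm (ψ '' ball 0 1) := by
      refine CLOS_hol (u : Filter (RMap n × RMap n)) (fun i z => (H i).symm z)
        (fun z => K.symm z) _ (CLOS_open hd) c2 fun L hL hLs => ?_
      have h9 := h6 n hn A B f φ ψ h hd (RMap n × RMap n) u (fun p => p.2) φi' L t2
        (hev.mono fun p hp => hp.1.extf) hL hLs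
      filter_upwards [h9, hev] with p hp1 hp2 z hz
      have h10 : z ∈ interior (φi' p '' Ext)ᶜ :=
        interior_mono (fun x hx => disjoint_left.1 hp1 hx) hz
      have h11 : (H p).symm z ∈ interior (φi p '' Ext)ᶜ := by
        rw [mem_interior_iff_mem_nhds] at h10 ⊢
        have h12 : ((H p) ⁻¹' (φi' p '' Ext)ᶜ) ∈ 𝓝 ((H p).symm z) := by
          refine (H p).continuous.continuousAt.preimage_mem_nhds ?_
          rw [(H p).apply_symm_apply]
          exact h10
        filter_upwards [h12] with x hx hx'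
        exact hx ((CLOS_img hT hp2.1 x).2 hx')
      have h13 := CLOS_symm (H p) _ isOpen_interior hp2.2 _ h11
      rw [(H p).apply_symm_apply] at h13
      exact h13
    have hTs := (h4 n hn1).2.1 (zn n) A k T hk1 hT
    refine h5 n hn A (zn n) B f g φ ψ Φ h k T.symm K.symm hd hTs hK.extg ?_ hol ?_
    · intro z hz
      rw [hΦ hz]
      have h9 : T.symm z ∈ Ext := (CLOS_Ext hTs z).2 hz
      have h10 := hK.out _ h9
      rw [T.apply_symm_apply] at h10
      rw [← h10, K.symm_apply_apply]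
    · intro z hz
      rw [himg] at hz
      have h9 : K.symm z ∉ Φ '' Ext := by
        intro h10
        apply hz
        have := (CLOS_img hT hK (K.symm z)).2 h10
        rwa [K.apply_symm_apply] at this
      obtain ⟨-, h11⟩ := hK.inn _ h9
      rw [K.apply_symm_apply] at h11
      refine ⟨?_, ?_⟩
      · rw [CLOS_Q1 hn1 g Φ hK.extg, eval_one]
        exact one_ne_zero
      · rw [h11, K.symm_apply_apply]
  · intro g f hgf
    obtain ⟨u, H, φi, φi', K, Φ, Φ', hev, t1, t2, hK, c1, c2⟩ :=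
      CLOS_link h7 hn A k C T hT hrel g f hgf
    exact ⟨K, Φ, Φ', hK⟩

end Pool.Agent.H212.MB
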