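import Pool.Agent.H212.MB.Stm3

set_option autoImplicit false

open Filter Metric Set Topology MeasureTheory Polynomial
open scoped ContDiff ComplexConjugate ENNReal

namespace Pool.Agent.H212.MB

namespace CPTaux

/-- coefficientwise convergence -/
def Cv {ι : Type} (l : Filter ι) (f : ι → ℂ[X]) (F : ℂ[X]) : Prop :=
  ∀ j, Tendsto (fun i => (f i).coeff j) l (𝓝 (F.coeff j))

theorem Cv.mul {ι : Type} {l : Filter ι} {f g : ι → ℂ[X]} {F G : ℂ[X]} (hf : Cv l f F)
    (hg : Cv l g G) : Cv l (fun i => f i * g i) (F * G) := by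
  intro j
  simp only [Polynomial.coeff_mul]
  exact tendsto_finsetSum _ fun x _ => (hf x.1).mul (hg x.2)

theorem Cv.sub {ι : Type} {l : Filter ι} {f g : ι → ℂ[X]} {F G : ℂ[X]} (hf : Cv l f F)
    (hg : Cv l g G) : Cv l (fun i => f i - g i) (F - G) := by
  intro j
  simp only [Polynomial.coeff_sub]
  exact (hf j).sub (hg j)

theorem Cv.const {ι : Type} {l : Filter ι} (F : ℂ[X]) : Cv l (fun _ => F) F :=
  fun _ => tendsto_const_nhds

theorem Cv.C {ι : Type} {l : Filter ι} {c : ι → ℂ} {c0 : ℂ} (h : Tendsto c l (𝓝 c0)) :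
    Cv l (fun i => Polynomial.C (c i)) (Polynomial.C c0) := by
  intro j
  simp only [Polynomial.coeff_C]
  split_ifs
  · exact h
  · exact tendsto_const_nhds

theorem Cv.prod {ι : Type} {l : Filter ι} {κ : Type} (s : Finset κ) {f : κ → ι → ℂ[X]}
    {F : κ → ℂ[X]} (h : ∀ k ∈ s, Cv l (f k) (F k)) :
    Cv l (fun i => ∏ k ∈ s, f k i) (∏ k ∈ s, F k) := by
  classical
  induction s using Finset.induction_on with
  | empty => simpa using Cv.const (l := l) (1 : ℂ[X])
  | insert a s ha ih =>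
    simp only [Finset.prod_insert ha]
    exact (h a (Finset.mem_insert_self _ _)).mul
      (ih fun k hk => h k (Finset.mem_insert_of_mem hk))

theorem qpol_cv {n : ℕ} (A : Blaschke n) {ι : Type} {l : Filter ι} {φ : ι → ℂ → ℂ} {Φ : ℂ → ℂ}
    (h : ∀ z ∈ Ext, Tendsto (fun i => φ i z) l (𝓝 (Φ z))) :
    Cv l (fun i => qpol A (φ i)) (qpol A Φ) := by
  unfold qpol
  refine (Cv.const _).mul (Cv.prod _ fun k _ => ?_)
  by_cases hk : A.a k = 0
  · simp only [hk, if_true]
    exact Cv.const _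
  · simp only [hk, if_false]
    refine (Cv.const _).mul ((Cv.const _).sub (Cv.C (h _ ?_)))
    show 1 < ‖(conj (A.a k))⁻¹‖
    rw [norm_inv, RCLike.norm_conj]
    exact (one_lt_inv₀ (norm_pos_iff.2 hk)).2 (A.norm_a k)

theorem isOpen_Ext : IsOpen Ext := isOpen_lt continuous_const continuous_norm

/-- the roots of the numerators are bounded -/
theorem roots_bound (h1 : S_BL) (h2 : S_SIG) {n : ℕ} (hn : 1 ≤ n) (A : Blaschke n) :
    ∃ B : ℝ, 0 ≤ B ∧ ∀ (f : RMap n) (φ : ℂ → ℂ), IsExt A f φ → ∀ y, f.P.eval y = 0 → ‖y‖ ≤ B := by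
  obtain ⟨-, -, -, h4, h5, -⟩ := h1 n hn A
  obtain ⟨R0, hR0⟩ := h5.isBounded.subset_closedBall (0 : ℂ)
  set R := max 4 (R0 + 1) with hR
  refine ⟨R + 3, by positivity, ?_⟩
  intro f φ hf y hy
  by_contra hlt
  push Not at hlt
  obtain ⟨s1, s2, -⟩ := h2 φ hf.sig
  have hR4 : 4 ≤ R := le_max_left _ _
  obtain ⟨z, hz2, rfl⟩ := s2 y (by linarith)
  have hzn : ‖φ z - z‖ ≤ 1 := by
    refine (s1 z hz2.le).trans ?_
    rw [div_le_one (by linarith)]
    exact hz2.le
  have hz : R + 2 < ‖z‖ := by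
    have := norm_le_norm_add_norm_sub' (φ z) z
    have h' : ‖φ z‖ ≤ ‖z‖ + ‖φ z - z‖ := by
      have := norm_add_le z (φ z - z)
      simpa using this
    linarith
  have hden : A.den z ≠ 0 := by
    intro h0
    have h' := hR0 (show z ∈ {z | A.den z = 0} from h0)
    rw [mem_closedBall_zero_iff] at h'
    have : R0 + 1 ≤ R := le_max_right _ _
    linarith
  have hzE : z ∈ Ext := show 1 < ‖z‖ by linarith
  have hw : R + 2 < ‖A.ev z‖ := hz.trans_le (h4 z hzE hden)
  have hφw : φ (A.ev z) ≠ 0 := by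
    intro h0
    have h' := s1 (A.ev z) (by linarith)
    rw [h0, zero_sub, norm_neg, le_div_iff₀ (by linarith)] at h'
    nlinarith
  obtain ⟨a1, a2⟩ := hf.semi z hzE hden
  rw [RMap.ev, hy, zero_div] at a2
  exact hφw a2.symm

end CPTaux

open CPTaux

theorem t_CPT (h1 : S_BL) (h2 : S_SIG) (h3 : S_SIGLIM) (h4 : S_RTOP) (h5 : S_POLE)
    (h6 : S_QFORM) : S_CPT := by
  intro n hn A ι u f φ hext
  obtain ⟨Φ, hΦ, hlim⟩ := h3 ι u φ (hext.mono fun i hi => hi.sig)
  have hpt : ∀ z ∈ Ext, Tendsto (fun i => φ i z) (u : Filter ι) (𝓝 (Φ z)) :=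
    fun z hz => hlim.tendsto_at hz
  obtain ⟨bl1, bl2, bl3, bl4, bl5, -⟩ := h1 n hn A
  obtain ⟨p1, p2, p3, v, v1, v2, v3, v4⟩ := h5 n hn A Φ hΦ
  -- the denominators
  have hQ : Cv (u : Filter ι) (fun i => (f i).Q) (qpol A Φ) := by
    intro j
    refine (qpol_cv A hpt j).congr' ?_
    filter_upwards [hext] with i hi
    rw [(h6 n hn A (f i) (φ i) hi).1]
  -- the numerators
  obtain ⟨B, hB0, hB⟩ := roots_bound h1 h2 hn A
  have hbd : ∀ j, ∀ᶠ i in (u : Filter ι), ‖(f i).P.coeff j‖ ≤ B ^ (n - j) * (n.choose j : ℝ) := by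
    intro j
    filter_upwards [hext] with i hi
    have h := Polynomial.coeff_le_of_roots_le (p := (f i).P) (f := RingHom.id ℂ) (B := B) j
      (f i).monic (IsAlgClosed.splits _) (by
        intro z hz
        rw [Polynomial.map_id] at hz
        exact hB (f i) (φ i) hi z (Polynomial.isRoot_of_mem_roots hz))
    rw [Polynomial.map_id, (f i).natDegree] at h
    exact h
  have hconv : ∀ j, ∃ p : ℂ, Tendsto (fun i => (f i).P.coeff j) (u : Filter ι) (𝓝 p) := by
    intro j
    have hc := isCompact_closedBall (0 : ℂ) (B ^ (n - j) * (n.choose j : ℝ))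
    obtain ⟨p, -, hp⟩ := hc.ultrafilter_le_nhds (u.map fun i => (f i).P.coeff j) (by
      rw [le_principal_iff]
      show _ ∈ Filter.map _ (u : Filter ι)
      rw [Filter.mem_map]
      filter_upwards [hbd j] with i hi
      simpa using hi)
    exact ⟨p, hp⟩
  choose p hp using hconv
  have hpn : p n = 1 := by
    refine tendsto_nhds_unique (hp n) ?_
    refine tendsto_const_nhds.congr fun i => ?_
    have h := (f i).monic.coeff_natDegree
    rw [(f i).natDegree] at h
    exact h.symm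
  have hpgt : ∀ j, n < j → p j = 0 := by
    intro j hj
    refine tendsto_nhds_unique (hp j) ?_
    refine tendsto_const_nhds.congr fun i => ?_
    rw [Polynomial.coeff_eq_zero_of_natDegree_lt]
    rw [(f i).natDegree]
    exact hj
  set P : ℂ[X] := ∑ j ∈ Finset.range (n + 1), Polynomial.C (p j) * Polynomial.X ^ j with hPdef
  have hPc : ∀ j, P.coeff j = p j := by
    intro j
    rw [hPdef, Polynomial.finsetSum_coeff]
    simp only [Polynomial.coeff_C_mul_X_pow]
    rw [Finset.sum_ite_eq]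
    split_ifs with h
    · rfl
    · rw [hpgt j (by simpa using h)]
  have hPdeg : P.natDegree ≤ n := by
    rw [Polynomial.natDegree_le_iff_coeff_eq_zero]
    intro N hN
    rw [hPc, hpgt N hN]
  have hPm : P.Monic := Polynomial.monic_of_natDegree_le_of_coeff_eq_one n hPdeg (by rw [hPc, hpn])
  have hPnd : P.natDegree = n := by
    refine le_antisymm hPdeg (Polynomial.le_natDegree_of_ne_zero ?_)
    rw [hPc, hpn]; exact one_ne_zero
  have hPcv : Cv (u : Filter ι) (fun i => (f i).P) P := by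
    intro j; rw [hPc]; exact hp j
  -- evaluation of limits
  have hevP : ∀ (z : ι → ℂ) (x : ℂ), Tendsto z (u : Filter ι) (𝓝 x) →
      Tendsto (fun i => (f i).P.eval (z i)) (u : Filter ι) (𝓝 (P.eval x)) := by
    intro z x hz
    have e1 : ∀ i, (f i).P.eval (z i) = ∑ k ∈ Finset.range (n + 1), (f i).P.coeff k * (z i) ^ k :=
      fun i => Polynomial.eval_eq_sum_range' (by rw [(f i).natDegree]; exact Nat.lt_succ_self n) _
    have e2 : P.eval x = ∑ k ∈ Finset.range (n + 1), P.coeff k * x ^ k :=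
      Polynomial.eval_eq_sum_range' (Nat.lt_succ_of_le hPdeg) _
    simp only [e1, e2]
    exact tendsto_finsetSum _ fun k _ => (hPcv k).mul (hz.pow k)
  have hQdeg : (qpol A Φ).natDegree ≤ n := Polynomial.natDegree_le_of_degree_le p1.le
  have hevQ : ∀ (z : ι → ℂ) (x : ℂ), Tendsto z (u : Filter ι) (𝓝 x) →
      Tendsto (fun i => (f i).Q.eval (z i)) (u : Filter ι) (𝓝 ((qpol A Φ).eval x)) := by
    intro z x hz
    have e1 : ∀ i, (f i).Q.eval (z i) = ∑ k ∈ Finset.range (n + 1), (f i).Q.coeff k * (z i) ^ k :=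
      fun i => Polynomial.eval_eq_sum_range' (Nat.lt_succ_of_le
        (Polynomial.natDegree_le_of_degree_le (f i).degree_lt.le)) _
    have e2 : (qpol A Φ).eval x = ∑ k ∈ Finset.range (n + 1), (qpol A Φ).coeff k * x ^ k :=
      Polynomial.eval_eq_sum_range' (Nat.lt_succ_of_le hQdeg) _
    simp only [e1, e2]
    exact tendsto_finsetSum _ fun k _ => (hQ k).mul (hz.pow k)
  -- the functional equation
  have hmapE : ∀ z ∈ Ext, A.den z ≠ 0 → A.ev z ∈ Ext := fun z hz hd =>
    lt_of_lt_of_le (show 1 < ‖z‖ from hz) (bl4 z hz hd)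
  have hfe : ∀ z ∈ Ext, A.den z ≠ 0 → P.eval (Φ z) = (qpol A Φ).eval (Φ z) * Φ (A.ev z) := by
    intro z hz hd
    have l1 := hevP (fun i => φ i z) (Φ z) (hpt z hz)
    have l2 := (hevQ (fun i => φ i z) (Φ z) (hpt z hz)).mul (hpt (A.ev z) (hmapE z hz hd))
    refine tendsto_nhds_unique l1 (l2.congr' ?_)
    filter_upwards [hext] with i hi
    obtain ⟨a1, a2⟩ := hi.semi z hz hd
    rw [← a2, RMap.ev]
    field_simp
  -- `P (Φ z) = v z` on `Ext`
  have hPv : ∀ z ∈ Ext, P.eval (Φ z) = v z := by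
    intro z hz
    by_cases hd : A.den z = 0
    · have hcl : z ∈ closure (Ext \ {z | A.den z = 0}) := by
        have hdense : Dense ({z | A.den z = 0}ᶜ : Set ℂ) := bl5.countable.dense_compl ℝ
        have := hdense.open_subset_closure_inter isOpen_Ext hz
        simpa [Set.sdiff_eq] using this
      have hne : (𝓝[Ext \ {z | A.den z = 0}] z).NeBot := mem_closure_iff_nhdsWithin_neBot.1 hcl
      have c1 : Tendsto (fun z => P.eval (Φ z)) (𝓝[Ext \ {z | A.den z = 0}] z) (𝓝 (P.eval (Φ z))) := by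
        have hcΦ : ContinuousWithinAt Φ Ext z := (hΦ.diff z hz).continuousWithinAt
        have := (P.continuous.continuousAt (x := Φ z)).comp_continuousWithinAt hcΦ
        exact (this.mono Set.sdiff_subset).tendsto
      have c2 : Tendsto v (𝓝[Ext \ {z | A.den z = 0}] z) (𝓝 (v z)) :=
        ((v1 z hz).continuousWithinAt.mono Set.sdiff_subset).tendsto
      refine tendsto_nhds_unique c1 (c2.congr' ?_)
      filter_upwards [self_mem_nhdsWithin] with w hw
      rw [v2 w hw.1 hw.2, hfe w hw.1 hw.2]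
    · rw [v2 z hz hd, hfe z hz hd]
  have hcop : IsCoprime P (qpol A Φ) := by
    rw [Polynomial.isCoprime_iff_aeval_ne_zero_of_isAlgClosed (k := ℂ) ℂ P (qpol A Φ)]
    intro y
    rw [Polynomial.coe_aeval_eq_eval]
    by_contra hcon
    push Not at hcon
    obtain ⟨c1, c2⟩ := hcon
    obtain ⟨z, hz, rfl⟩ := p3 y c2
    have hd : A.den z = 0 := (p2 z hz).1 c2
    rw [hPv z hz] at c1
    exact v3 z hz hd c1
  let F : RMap n := ⟨P, qpol A Φ, hPm, hPnd, p1, hcop⟩
  refine ⟨F, Φ, ⟨hΦ.diff, hΦ.inj, hΦ.norm, ?_⟩, ?_, hlim⟩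
  · intro z hz hd
    have hq : (qpol A Φ).eval (Φ z) ≠ 0 := fun h0 => hd ((p2 z hz).1 h0)
    refine ⟨hq, ?_⟩
    show P.eval (Φ z) / (qpol A Φ).eval (Φ z) = Φ (A.ev z)
    rw [hfe z hz hd, mul_div_cancel_left₀ _ hq]
  · exact (((h4 n).2 ι u f F).1).2 ⟨hPcv, hQ⟩

end Pool.Agent.H212.MB
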