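import Pool.Agent.H212.MB.Stm2

/-! JOB DISC: the transition map of the plane. -/

set_option autoImplicit false

open Filter Metric Set Topology MeasureTheory
open scoped ContDiff ComplexConjugate

namespace Pool.Agent.H212.MB

namespace DISCaux

/-- the extension of `T` to the plane -/
noncomputable def SS (T : ℂ → ℂ) (h : ℝ → ℝ) (w : ℂ) : ℂ :=
  if 0 < w.im then T w else if w.im < 0 then conj (T (conj w)) else (h w.re : ℂ)

/-- the map of the plane in the coordinate `z = exp (i w)` -/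
noncomputable def FF (T : ℂ → ℂ) (h : ℝ → ℝ) (z : ℂ) : ℂ :=
  if z = 0 then 0 else Complex.exp (Complex.I * SS T h (-Complex.I * Complex.log z))

section
variable {n : ℕ} {η₀ : ℝ} {α : ℂ → ℂ} {η k : ℝ} {T : ℂ → ℂ} {h : ℝ → ℝ}

theorem SS_pos {w : ℂ} (hw : 0 < w.im) : SS T h w = T w := by
  rw [SS, if_pos hw]

theorem SS_neg {w : ℂ} (hw : w.im < 0) : SS T h w = conj (T (conj w)) := by
  rw [SS, if_neg (not_lt.2 hw.le), if_pos hw]

theorem SS_zero {w : ℂ} (hw : w.im = 0) : SS T h w = (h w.re : ℂ) := by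
  rw [SS, if_neg (by rw [hw]; exact lt_irrefl _), if_neg (by rw [hw]; exact lt_irrefl _)]

theorem SS_conj (w : ℂ) : SS T h (conj w) = conj (SS T h w) := by
  rcases lt_trichotomy w.im 0 with hw | hw | hw
  · rw [SS_neg hw, SS_pos (by simpa using hw), Complex.conj_conj]
  · rw [SS_zero hw, SS_zero (by simpa using hw), Complex.conj_re, Complex.conj_ofReal]
  · rw [SS_pos hw, SS_neg (by simpa using hw), Complex.conj_conj]

theorem im_add_two_pi (w : ℂ) : (w + 2 * Real.pi).im = w.im := by simp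

theorem re_add_two_pi (w : ℂ) : (w + 2 * Real.pi).re = w.re + 2 * Real.pi := by simp

theorem SS_per (H : Half n η₀ α η k T h) (w : ℂ) :
    SS T h (w + 2 * Real.pi) = SS T h w + 2 * Real.pi := by
  rcases lt_trichotomy w.im 0 with hw | hw | hw
  · rw [SS_neg hw, SS_neg (by rw [im_add_two_pi]; exact hw)]
    have h1 : conj (w + 2 * Real.pi) = conj w + 2 * Real.pi := by
      simp [map_ofNat]
    rw [h1, H.per _ (by simpa using hw)]
    simp [map_ofNat]
  · rw [SS_zero hw, SS_zero (by rw [im_add_two_pi]; exact hw), re_add_two_pi, H.perh]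
    push_cast
    ring
  · rw [SS_pos hw, SS_pos (by rw [im_add_two_pi]; exact hw), H.per _ hw]

theorem SS_per_nat (H : Half n η₀ α η k T h) (m : ℕ) (w : ℂ) :
    SS T h (w + m * (2 * Real.pi)) = SS T h w + m * (2 * Real.pi) := by
  induction m with
  | zero => simp
  | succ m ih =>
    have h1 : w + ((m + 1 : ℕ) : ℂ) * (2 * Real.pi) = (w + m * (2 * Real.pi)) + 2 * Real.pi := by
      push_cast
      ring
    rw [h1, SS_per H, ih]
    push_cast
    ring

theorem SS_per_int (H : Half n η₀ α η k T h) (m : ℤ) (w : ℂ) :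
    SS T h (w + m * (2 * Real.pi)) = SS T h w + m * (2 * Real.pi) := by
  rcases Int.eq_nat_or_neg m with ⟨j, rfl | rfl⟩
  · simpa using SS_per_nat H j w
  · have h1 := SS_per_nat H j (w + ((-(j : ℤ) : ℤ) : ℂ) * (2 * Real.pi))
    have h2 : w + ((-(j : ℤ) : ℤ) : ℂ) * (2 * Real.pi) + j * (2 * Real.pi) = w := by
      push_cast
      ring
    rw [h2] at h1
    rw [h1]
    push_cast
    ring

theorem FF_exp (H : Half n η₀ α η k T h) (w : ℂ) :
    FF T h (Complex.exp (Complex.I * w)) = Complex.exp (Complex.I * SS T h w) := by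
  rw [FF, if_neg (Complex.exp_ne_zero _)]
  have h1 : Complex.exp (Complex.log (Complex.exp (Complex.I * w))) = Complex.exp (Complex.I * w) :=
    Complex.exp_log (Complex.exp_ne_zero _)
  obtain ⟨m, hm⟩ := Complex.exp_eq_exp_iff_exists_int.1 h1
  have h2 : -Complex.I * Complex.log (Complex.exp (Complex.I * w)) = w + m * (2 * Real.pi) := by
    rw [hm]
    linear_combination (-w - m * (2 * Real.pi)) * Complex.I_mul_I
  rw [h2, SS_per_int H]
  rw [mul_add, Complex.exp_add]
  have h3 : Complex.I * (m * (2 * Real.pi)) = m * (2 * Real.pi * Complex.I) := by ring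
  rw [h3, Complex.exp_int_mul_two_pi_mul_I, mul_one]

theorem FF_zero : FF T h 0 = 0 := by rw [FF, if_pos rfl]

theorem exists_w {z : ℂ} (hz : z ≠ 0) : ∃ w : ℂ, z = Complex.exp (Complex.I * w) := by
  refine ⟨-Complex.I * Complex.log z, ?_⟩
  have h1 : Complex.I * (-Complex.I * Complex.log z) = Complex.log z := by
    linear_combination (-Complex.log z) * Complex.I_mul_I
  rw [h1, Complex.exp_log hz]

theorem norm_exp_I (w : ℂ) : ‖Complex.exp (Complex.I * w)‖ = Real.exp (-w.im) := by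
  rw [Complex.norm_exp]
  simp

theorem conj_exp_I (w : ℂ) : (conj (Complex.exp (Complex.I * w)))⁻¹ =
    Complex.exp (Complex.I * conj w) := by
  rw [← Complex.exp_conj, ← Complex.exp_neg]
  congr 1
  simp

theorem FF_inv (H : Half n η₀ α η k T h) (z : ℂ) : FF T h (conj z)⁻¹ = (conj (FF T h z))⁻¹ := by
  by_cases hz : z = 0
  · rw [hz]
    simp [FF_zero]
  · obtain ⟨w, rfl⟩ := exists_w hz
    rw [conj_exp_I, FF_exp H, FF_exp H, conj_exp_I, SS_conj]

theorem SS_continuous (H : Half n η₀ α η k T h) : Continuous (SS T h) := by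
  have hTc : ∀ w : ℂ, 0 < w.im → ContinuousAt T w := by
    intro w hw
    exact (H.smooth.continuousOn).continuousAt
      ((isOpen_lt continuous_const Complex.continuous_im).mem_nhds hw)
  rw [continuous_iff_continuousAt]
  intro w
  rcases lt_trichotomy w.im 0 with hw | hw | hw
  · have h1 : (fun w => conj (T (conj w))) =ᶠ[𝓝 w] SS T h := by
      filter_upwards [(isOpen_lt Complex.continuous_im continuous_const).mem_nhds hw] with v hv
      exact (SS_neg hv).symm
    refine ContinuousAt.congr ?_ h1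
    have h2 : ContinuousAt T (conj w) := hTc _ (by simpa using hw)
    exact Complex.continuous_conj.continuousAt.comp
      (ContinuousAt.comp (f := fun v : ℂ => conj v) h2 Complex.continuous_conj.continuousAt)
  · rw [Metric.continuousAt_iff]
    intro ε hε
    obtain ⟨δ₁, hδ₁, h1⟩ := H.bdry (ε / 2) (by positivity)
    have h2 : ContinuousAt h w.re := H.conth.continuousAt
    rw [Metric.continuousAt_iff] at h2
    obtain ⟨δ₂, hδ₂, h2⟩ := h2 (ε / 2) (by positivity)
    refine ⟨min δ₁ δ₂, lt_min hδ₁ hδ₂, ?_⟩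
    intro v hv
    rw [dist_eq_norm] at hv
    have him : |v.im| < δ₁ := by
      have := Complex.abs_im_le_norm (v - w)
      rw [Complex.sub_im, hw, sub_zero] at this
      exact this.trans_lt (hv.trans_le (min_le_left _ _))
    have hre : |v.re - w.re| < δ₂ := by
      have := Complex.abs_re_le_norm (v - w)
      rw [Complex.sub_re] at this
      exact this.trans_lt (hv.trans_le (min_le_right _ _))
    have h3 : ‖(h v.re : ℂ) - h w.re‖ < ε / 2 := by
      have := h2 (x := v.re) (by rw [Real.dist_eq]; exact hre)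
      rw [Real.dist_eq] at this
      rw [← Complex.ofReal_sub, Complex.norm_real, Real.norm_eq_abs]
      exact this
    rw [SS_zero hw, dist_eq_norm]
    have h4 : ‖SS T h v - h v.re‖ < ε / 2 := by
      rcases lt_trichotomy v.im 0 with hv0 | hv0 | hv0
      · rw [SS_neg hv0]
        have h5 := h1 (conj v) (by simpa using hv0) (by
          rw [Complex.conj_im]
          exact (neg_le_abs _).trans_lt him)
        rw [Complex.conj_re] at h5
        rw [← Complex.norm_conj, map_sub, Complex.conj_conj, Complex.conj_ofReal]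
        exact h5
      · rw [SS_zero hv0, sub_self, norm_zero]
        positivity
      · rw [SS_pos hv0]
        exact h1 v hv0 ((le_abs_self _).trans_lt him)
    calc ‖SS T h v - h w.re‖ = ‖(SS T h v - h v.re) + ((h v.re : ℂ) - h w.re)‖ := by ring_nf
      _ ≤ ‖SS T h v - h v.re‖ + ‖(h v.re : ℂ) - h w.re‖ := norm_add_le _ _
      _ < ε / 2 + ε / 2 := add_lt_add h4 h3
      _ = ε := by ring
  · have h1 : T =ᶠ[𝓝 w] SS T h := by
      filter_upwards [(isOpen_lt continuous_const Complex.continuous_im).mem_nhds hw] with v hv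
      exact (SS_pos hv).symm
    exact ContinuousAt.congr (hTc w hw) h1

/-- the local inverse of `w ↦ exp (i w)` -/
noncomputable def gg (w₀ z : ℂ) : ℂ :=
  w₀ - Complex.I * Complex.log (z / Complex.exp (Complex.I * w₀))

theorem gg_self (w₀ : ℂ) : gg w₀ (Complex.exp (Complex.I * w₀)) = w₀ := by
  rw [gg, div_self (Complex.exp_ne_zero _), Complex.log_one, mul_zero, sub_zero]

theorem exp_gg (w₀ z : ℂ) (hz : z ≠ 0) : Complex.exp (Complex.I * gg w₀ z) = z := by
  have h1 : Complex.I * gg w₀ z =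
      Complex.I * w₀ + Complex.log (z / Complex.exp (Complex.I * w₀)) := by
    rw [gg]
    linear_combination (-Complex.log (z / Complex.exp (Complex.I * w₀))) * Complex.I_mul_I
  rw [h1, Complex.exp_add, Complex.exp_log (div_ne_zero hz (Complex.exp_ne_zero _)),
    mul_div_cancel₀ _ (Complex.exp_ne_zero _)]

theorem gg_hasDerivAt (w₀ : ℂ) : HasDerivAt (gg w₀)
    (-Complex.I / Complex.exp (Complex.I * w₀)) (Complex.exp (Complex.I * w₀)) := by
  have h0 : Complex.exp (Complex.I * w₀) ≠ 0 := Complex.exp_ne_zero _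
  have h1 : HasDerivAt (fun z : ℂ => z / Complex.exp (Complex.I * w₀))
      (1 / Complex.exp (Complex.I * w₀)) (Complex.exp (Complex.I * w₀)) :=
    (hasDerivAt_id _).div_const _
  have h2 : HasDerivAt (fun z : ℂ => Complex.log (z / Complex.exp (Complex.I * w₀)))
      ((1 / Complex.exp (Complex.I * w₀)) /
        (Complex.exp (Complex.I * w₀) / Complex.exp (Complex.I * w₀)))
      (Complex.exp (Complex.I * w₀)) := by
    apply HasDerivAt.clog h1
    rw [div_self h0]
    exact Complex.one_mem_slitPlane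
  have h3 := (h2.const_mul Complex.I).const_sub w₀
  refine HasDerivAt.congr_deriv h3 ?_
  rw [div_self h0]
  ring

theorem gg_contDiffAt (w₀ : ℂ) : ContDiffAt ℝ ∞ (gg w₀) (Complex.exp (Complex.I * w₀)) := by
  have h0 : Complex.exp (Complex.I * w₀) ≠ 0 := Complex.exp_ne_zero _
  have h1 : ContDiffAt ℂ ∞ (fun z : ℂ => z / Complex.exp (Complex.I * w₀))
      (Complex.exp (Complex.I * w₀)) := contDiffAt_id.div_const _
  have h2 : ContDiffAt ℂ ∞ (fun z : ℂ => Complex.log (z / Complex.exp (Complex.I * w₀)))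
      (Complex.exp (Complex.I * w₀)) := by
    refine ContDiffAt.comp (g := Complex.log) _ (Complex.contDiffAt_log ?_) h1
    rw [div_self h0]
    exact Complex.one_mem_slitPlane
  have h3 : ContDiffAt ℂ ∞ (gg w₀) (Complex.exp (Complex.I * w₀)) :=
    contDiffAt_const.sub (contDiffAt_const.mul h2)
  exact h3.restrict_scalars ℝ

theorem FF_eventuallyEq (H : Half n η₀ α η k T h) (w₀ : ℂ) :
    FF T h =ᶠ[𝓝 (Complex.exp (Complex.I * w₀))]
      ((fun w => Complex.exp (Complex.I * w)) ∘ SS T h ∘ gg w₀) := by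
  filter_upwards [isOpen_ne.mem_nhds (Complex.exp_ne_zero (Complex.I * w₀))] with z hz
  have h1 := FF_exp H (gg w₀ z)
  rw [exp_gg w₀ z hz] at h1
  exact h1

theorem FF_small (hn : 2 ≤ n) (H : Half n η₀ α η k T h) (z : ℂ) (hz : ‖z‖ ≤ Real.exp (-(n * η))) :
    FF T h z = z := by
  by_cases h0 : z = 0
  · rw [h0, FF_zero]
  · obtain ⟨w, rfl⟩ := exists_w h0
    rw [norm_exp_I, Real.exp_le_exp] at hz
    have h1 : n * η ≤ w.im := by linarith
    have h3 : (0 : ℝ) < n * η := mul_pos (by positivity) H.ηpos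
    rw [FF_exp H, SS_pos (h3.trans_le h1), H.top w h1]

theorem FF_big (hn : 2 ≤ n) (H : Half n η₀ α η k T h) (z : ℂ) (hz : Real.exp (n * η) ≤ ‖z‖) :
    FF T h z = z := by
  have h1 := FF_inv H z
  have h0 : 0 < ‖z‖ := (Real.exp_pos _).trans_le hz
  rw [FF_small hn H (conj z)⁻¹ (by
    rw [norm_inv, Complex.norm_conj, Real.exp_neg]
    exact inv_anti₀ (Real.exp_pos _) hz)] at h1
  have h2 := inv_injective h1
  exact ((starRingEnd ℂ).injective h2).symm

theorem norm_FF_exp (H : Half n η₀ α η k T h) (w : ℂ) :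
    ‖FF T h (Complex.exp (Complex.I * w))‖ = Real.exp (-(SS T h w).im) := by
  rw [FF_exp H, norm_exp_I]

theorem SS_im_pos (H : Half n η₀ α η k T h) (w : ℂ) : 0 < (SS T h w).im ↔ 0 < w.im := by
  rcases lt_trichotomy w.im 0 with hw | hw | hw
  · rw [SS_neg hw, Complex.conj_im]
    have h1 := H.imp (conj w) (by simpa using hw)
    constructor <;> intro h2 <;> linarith
  · rw [SS_zero hw, Complex.ofReal_im, hw]
  · rw [SS_pos hw]
    exact ⟨fun _ => hw, fun _ => H.imp w hw⟩

theorem SS_im_neg (H : Half n η₀ α η k T h) (w : ℂ) : (SS T h w).im < 0 ↔ w.im < 0 := by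
  have h1 := SS_im_pos H (conj w)
  rw [SS_conj, Complex.conj_im, Complex.conj_im] at h1
  constructor
  · intro h2
    linarith [h1.1 (by linarith)]
  · intro h2
    linarith [h1.2 (by linarith)]

theorem FF_inn (H : Half n η₀ α η k T h) (z : ℂ) : ‖FF T h z‖ < 1 ↔ ‖z‖ < 1 := by
  by_cases h0 : z = 0
  · rw [h0, FF_zero]
  · obtain ⟨w, rfl⟩ := exists_w h0
    rw [norm_FF_exp H, norm_exp_I, Real.exp_lt_one_iff, Real.exp_lt_one_iff, neg_lt_zero,
      neg_lt_zero]
    exact SS_im_pos H w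

theorem FF_out (H : Half n η₀ α η k T h) (z : ℂ) : 1 < ‖FF T h z‖ ↔ 1 < ‖z‖ := by
  by_cases h0 : z = 0
  · rw [h0, FF_zero]
  · obtain ⟨w, rfl⟩ := exists_w h0
    rw [norm_FF_exp H, norm_exp_I, Real.one_lt_exp_iff, Real.one_lt_exp_iff, neg_pos,
      neg_pos]
    exact SS_im_neg H w

theorem FF_continuous (hn : 2 ≤ n) (H : Half n η₀ α η k T h) : Continuous (FF T h) := by
  rw [continuous_iff_continuousAt]
  intro z
  by_cases h0 : z = 0
  · have h1 : (fun z : ℂ => z) =ᶠ[𝓝 z] FF T h := by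
      have h2 : ball (0 : ℂ) (Real.exp (-(n * η))) ∈ 𝓝 z := by
        rw [h0]
        exact ball_mem_nhds _ (Real.exp_pos _)
      filter_upwards [h2] with v hv
      rw [mem_ball_zero_iff] at hv
      exact (FF_small hn H v hv.le).symm
    exact ContinuousAt.congr continuousAt_id h1
  · obtain ⟨w, rfl⟩ := exists_w h0
    refine ContinuousAt.congr ?_ (FF_eventuallyEq H w).symm
    have h1 : ContinuousAt (gg w) (Complex.exp (Complex.I * w)) := (gg_hasDerivAt w).continuousAt
    have h2 : Continuous (fun w : ℂ => Complex.exp (Complex.I * w)) := by fun_prop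
    exact h2.continuousAt.comp ((SS_continuous H).continuousAt.comp h1)

/-- smoothness of `SS` off the real axis, with the derivatives -/
theorem SS_smooth (H : Half n η₀ α η k T h) (w : ℂ) (hw : w.im ≠ 0) :
    ContDiffAt ℝ ∞ (SS T h) w ∧ dz (SS T h) w ≠ 0 ∧
      ‖dzb (SS T h) w‖ ≤ k * ‖dz (SS T h) w‖ := by
  have hTs : ∀ w : ℂ, 0 < w.im → ContDiffAt ℝ ∞ T w := by
    intro w hw
    exact H.smooth.contDiffAt ((isOpen_lt continuous_const Complex.continuous_im).mem_nhds hw)
  rcases lt_or_gt_of_ne hw with hw | hw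
  · have h1 : SS T h =ᶠ[𝓝 w] ((fun v => conj v) ∘ T ∘ (fun v => conj v)) := by
      filter_upwards [(isOpen_lt Complex.continuous_im continuous_const).mem_nhds hw] with v hv
      exact SS_neg hv
    have hc : ∀ v : ℂ, HasFDerivAt (fun v : ℂ => conj v) (LL 0 1) v := by
      intro v
      have : LL 0 1 = (Complex.conjCLE : ℂ →L[ℝ] ℂ) := by
        ext v
        simp
      rw [this]
      exact (Complex.conjCLE : ℂ →L[ℝ] ℂ).hasFDerivAt
    have hcs : ContDiff ℝ ∞ (fun v : ℂ => conj v) :=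
      (Complex.conjCLE : ℂ →L[ℝ] ℂ).contDiff
    have hw' : 0 < (conj w).im := by simpa using hw
    have hT := hTs (conj w) hw'
    have hTd : DifferentiableAt ℝ T (conj w) := hT.differentiableAt (by simp)
    have h2 : ContDiffAt ℝ ∞ (T ∘ (fun v => conj v)) w :=
      ContDiffAt.comp w hT hcs.contDiffAt
    have h3 : ContDiffAt ℝ ∞ ((fun v => conj v) ∘ T ∘ (fun v => conj v)) w :=
      ContDiffAt.comp w hcs.contDiffAt h2
    have h4 := dz_comp (f := fun v : ℂ => conj v) (g := T) (z := w) hTd (hc w).differentiableAt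
    rw [(dz_of (hc w)).1, (dz_of (hc w)).2] at h4
    have h5 := dz_comp (f := T ∘ (fun v : ℂ => conj v)) (g := fun v : ℂ => conj v) (z := w)
      (hc _).differentiableAt (h2.differentiableAt (by simp))
    rw [(dz_of (hc _)).1, (dz_of (hc _)).2, h4.1, h4.2] at h5
    rw [(dz_congr h1).1, (dz_congr h1).2, h5.1, h5.2]
    simp only [mul_zero, mul_one, zero_mul, zero_add, map_zero, map_one, one_mul,
      Complex.norm_conj]
    refine ⟨h3.congr_of_eventuallyEq h1, ?_, ?_⟩
    · simp only [add_zero, ne_eq, map_eq_zero]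
      exact H.nd _ hw'
    · simp only [add_zero]
      exact H.dil _ hw'
  · have h1 : SS T h =ᶠ[𝓝 w] T := by
      filter_upwards [(isOpen_lt continuous_const Complex.continuous_im).mem_nhds hw] with v hv
      exact SS_pos hv
    rw [(dz_congr h1).1, (dz_congr h1).2]
    exact ⟨(hTs w hw).congr_of_eventuallyEq h1, H.nd w hw, H.dil w hw⟩

theorem FF_smooth (hn : 2 ≤ n) (H : Half n η₀ α η k T h) (z : ℂ) (hz : z ∈ Off) :
    ContDiffAt ℝ ∞ (FF T h) z ∧ dz (FF T h) z ≠ 0 ∧
      ‖dzb (FF T h) z‖ ≤ k * ‖dz (FF T h) z‖ := by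
  by_cases h0 : z = 0
  · have h1 : FF T h =ᶠ[𝓝 z] (fun z : ℂ => z) := by
      have h2 : ball (0 : ℂ) (Real.exp (-(n * η))) ∈ 𝓝 z := by
        rw [h0]
        exact ball_mem_nhds _ (Real.exp_pos _)
      filter_upwards [h2] with v hv
      rw [mem_ball_zero_iff] at hv
      exact FF_small hn H v hv.le
    have h2 := dz_of_hasDerivAt (hasDerivAt_id z)
    have h3 : dz (fun z : ℂ => z) z = 1 := h2.1
    have h4 : dzb (fun z : ℂ => z) z = 0 := h2.2
    rw [(dz_congr h1).1, (dz_congr h1).2, h3, h4]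
    refine ⟨contDiffAt_id.congr_of_eventuallyEq h1, one_ne_zero, ?_⟩
    rw [norm_zero, norm_one, mul_one]
    exact H.k0
  · obtain ⟨w, rfl⟩ := exists_w h0
    have hw : w.im ≠ 0 := by
      intro hw
      apply hz
      rw [norm_exp_I, hw, neg_zero, Real.exp_zero]
    obtain ⟨h1, h2, h3⟩ := SS_smooth H w hw
    have h4 := FF_eventuallyEq H w
    have hg := gg_self w
    have h1' : ContDiffAt ℝ ∞ (SS T h) (gg w (Complex.exp (Complex.I * w))) := by
      rw [hg]
      exact h1
    have h5 : ContDiffAt ℝ ∞ (SS T h ∘ gg w) (Complex.exp (Complex.I * w)) :=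
      ContDiffAt.comp _ h1' (gg_contDiffAt w)
    have h6 : ContDiff ℂ ∞ (fun w : ℂ => Complex.exp (Complex.I * w)) := by fun_prop
    have h7 : ContDiffAt ℝ ∞ ((fun w : ℂ => Complex.exp (Complex.I * w)) ∘ (SS T h ∘ gg w))
        (Complex.exp (Complex.I * w)) :=
      ContDiffAt.comp _ (h6.restrict_scalars ℝ).contDiffAt h5
    have h8 := dz_comp_right (f := gg w) (g := SS T h) (h1'.differentiableAt (by simp))
      (gg_hasDerivAt w)
    rw [hg] at h8
    have hE : ∀ v : ℂ, HasDerivAt (fun w : ℂ => Complex.exp (Complex.I * w))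
        (Complex.exp (Complex.I * v) * Complex.I) v := by
      intro v
      have := ((hasDerivAt_id v).const_mul Complex.I).cexp
      simpa using this
    have h9 := dz_comp_left (f := SS T h ∘ gg w) (g := fun w : ℂ => Complex.exp (Complex.I * w))
      (hE _) (h5.differentiableAt (by simp))
    rw [h8.1, h8.2] at h9
    have hA : Complex.exp (Complex.I * (SS T h ∘ gg w) (Complex.exp (Complex.I * w))) * Complex.I
        ≠ 0 := mul_ne_zero (Complex.exp_ne_zero _) Complex.I_ne_zero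
    have hB : -Complex.I / Complex.exp (Complex.I * w) ≠ 0 :=
      div_ne_zero (neg_ne_zero.2 Complex.I_ne_zero) (Complex.exp_ne_zero _)
    rw [(dz_congr h4).1, (dz_congr h4).2, h9.1, h9.2]
    refine ⟨h7.congr_of_eventuallyEq h4, mul_ne_zero hA (mul_ne_zero h2 hB), ?_⟩
    generalize Complex.exp (Complex.I * (SS T h ∘ gg w) (Complex.exp (Complex.I * w))) * Complex.I
      = a at *
    generalize -Complex.I / Complex.exp (Complex.I * w) = b at *
    rw [norm_mul, norm_mul, norm_mul, norm_mul, Complex.norm_conj]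
    calc ‖a‖ * (‖dzb (SS T h) w‖ * ‖b‖) ≤ ‖a‖ * (k * ‖dz (SS T h) w‖ * ‖b‖) := by gcongr
      _ = _ := by ring

theorem FF_strict (hn : 2 ≤ n) (H : Half n η₀ α η k T h) (z : ℂ) (hz : z ∈ Off) :
    ∃ L : ℂ ≃L[ℝ] ℂ, HasStrictFDerivAt (FF T h) (L : ℂ →L[ℝ] ℂ) z := by
  obtain ⟨h1, h2, h3⟩ := FF_smooth hn H z hz
  have h4 : ‖dzb (FF T h) z‖ < ‖dz (FF T h) z‖ := norm_dzb_lt H.k1 h2 h3
  refine ⟨LLe h4, ?_⟩
  rw [LLe_coe, ← fderiv_eq]
  exact h1.hasStrictFDerivAt (by simp)

theorem FF_proper (H : Half n η₀ α η k T h) (r : ℝ) (hr : r < 1) :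
    ∃ r' : ℝ, r' < 1 ∧ ∀ z ∈ ball (0 : ℂ) 1, ‖FF T h z‖ ≤ r → ‖z‖ ≤ r' := by
  set r₁ := max r (1 / 2) with hr₁
  have h1 : r₁ < 1 := max_lt hr (by norm_num)
  have h2 : 0 < r₁ := lt_of_lt_of_le (by norm_num) (le_max_right _ _)
  have h3 : 0 < -Real.log r₁ := by
    have := Real.log_neg h2 h1
    linarith
  obtain ⟨δ, hδ, hb⟩ := H.bdry _ h3
  refine ⟨Real.exp (-δ), by rw [Real.exp_lt_one_iff]; linarith, ?_⟩
  intro z hz hFz
  by_cases h0 : z = 0
  · rw [h0, norm_zero]
    exact (Real.exp_pos _).le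
  · obtain ⟨w, rfl⟩ := exists_w h0
    rw [mem_ball_zero_iff, norm_exp_I, Real.exp_lt_one_iff, neg_lt_zero] at hz
    rw [norm_exp_I, Real.exp_le_exp, neg_le_neg_iff]
    by_contra h4
    push Not at h4
    have h5 := hb w hz h4
    have h6 : (T w).im < -Real.log r₁ := by
      have h7 := Complex.abs_im_le_norm (T w - h w.re)
      rw [Complex.sub_im, Complex.ofReal_im, sub_zero] at h7
      exact (le_abs_self _).trans_lt (h7.trans_lt h5)
    rw [norm_FF_exp H, SS_pos hz] at hFz
    have h7 : Real.exp (-(T w).im) ≤ r₁ := hFz.trans (le_max_left _ _)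
    have h8 : -(T w).im ≤ Real.log r₁ := (Real.le_log_iff_exp_le h2).2 h7
    linarith

theorem FF_ne_zero {z : ℂ} (hz : z ≠ 0) : FF T h z ≠ 0 := by
  rw [FF, if_neg hz]
  exact Complex.exp_ne_zero _

theorem FF_bijOn_ball (hP : S_PROP) (hn : 2 ≤ n) (H : Half n η₀ α η k T h) :
    BijOn (FF T h) (ball 0 1) (ball 0 1) := by
  apply hP
  · intro z hz
    rw [mem_ball_zero_iff] at hz ⊢
    exact (FF_inn H z).2 hz
  · exact (FF_continuous hn H).continuousOn
  · intro U hU hUo
    rw [isOpen_iff_mem_nhds]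
    rintro _ ⟨z, hz, rfl⟩
    obtain ⟨L, hL⟩ := FF_strict hn H z (ball_subset_Off (hU hz))
    rw [← hL.map_nhds_eq_of_equiv]
    exact image_mem_map (hUo.mem_nhds hz)
  · intro z hz
    obtain ⟨L, hL⟩ := FF_strict hn H z (ball_subset_Off hz)
    refine ⟨(hL.toOpenPartialHomeomorph (FF T h)).source, ?_, ?_⟩
    · exact (hL.toOpenPartialHomeomorph (FF T h)).open_source.mem_nhds
        hL.mem_toOpenPartialHomeomorph_source
    · have := (hL.toOpenPartialHomeomorph (FF T h)).injOn
      rwa [hL.toOpenPartialHomeomorph_coe] at this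
  · exact FF_proper H
  · refine ⟨0, by simp, 0, ⟨by simp, FF_zero⟩, ?_⟩
    rintro z ⟨_, hz⟩
    by_contra h0
    exact FF_ne_zero h0 hz

theorem FF_circle (H : Half n η₀ α η k T h) (x : ℝ) :
    FF T h (Complex.exp (x * Complex.I)) = Complex.exp (h x * Complex.I) := by
  have h1 : (x : ℂ) * Complex.I = Complex.I * x := mul_comm _ _
  rw [h1, FF_exp H, SS_zero (Complex.ofReal_im x), Complex.ofReal_re, mul_comm]

theorem exists_x {z : ℂ} (hz : ‖z‖ = 1) : ∃ x : ℝ, z = Complex.exp (x * Complex.I) := by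
  refine ⟨z.arg, ?_⟩
  have := Complex.norm_mul_exp_arg_mul_I z
  rw [hz, Complex.ofReal_one, one_mul] at this
  exact this.symm

theorem h_per_int (H : Half n η₀ α η k T h) (m : ℤ) (x : ℝ) :
    h (x + m * (2 * Real.pi)) = h x + m * (2 * Real.pi) := by
  have h1 := SS_per_int H m (x : ℂ)
  rw [SS_zero (Complex.ofReal_im x)] at h1
  have h2 : (x : ℂ) + m * (2 * Real.pi) = ((x + m * (2 * Real.pi) : ℝ) : ℂ) := by push_cast; ring
  rw [h2, SS_zero (Complex.ofReal_im _), Complex.ofReal_re, Complex.ofReal_re] at h1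
  exact_mod_cast h1

theorem h_surj (H : Half n η₀ α η k T h) : Function.Surjective h := by
  have hpi : 0 < 2 * Real.pi := by positivity
  intro y
  obtain ⟨m, hm⟩ := exists_int_gt ((y - h 0) / (2 * Real.pi))
  obtain ⟨m', hm'⟩ := exists_int_lt ((y - h 0) / (2 * Real.pi))
  have h1 := h_per_int H m 0
  have h2 := h_per_int H m' 0
  rw [div_lt_iff₀ hpi] at hm
  rw [lt_div_iff₀ hpi] at hm'
  have h3 : y ≤ h (0 + m * (2 * Real.pi)) := by rw [h1]; linarith
  have h4 : h (0 + m' * (2 * Real.pi)) ≤ y := by rw [h2]; linarith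
  exact mem_range_of_exists_le_of_exists_ge H.conth ⟨_, h4⟩ ⟨_, h3⟩

theorem FF_injective (hP : S_PROP) (hn : 2 ≤ n) (H : Half n η₀ α η k T h) :
    Function.Injective (FF T h) := by
  have hb := FF_bijOn_ball hP hn H
  intro z z' hzz
  rcases lt_trichotomy ‖z‖ 1 with hz | hz | hz
  · have hz' : ‖z'‖ < 1 := by rw [← FF_inn H, ← hzz, FF_inn H]; exact hz
    exact hb.injOn (mem_ball_zero_iff.2 hz) (mem_ball_zero_iff.2 hz') hzz
  · have hz' : ‖z'‖ = 1 := by
      apply le_antisymm
      · by_contra h1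
        push Not at h1
        rw [← FF_out H, ← hzz, FF_out H] at h1
        linarith
      · by_contra h1
        push Not at h1
        rw [← FF_inn H, ← hzz, FF_inn H] at h1
        linarith
    obtain ⟨x, rfl⟩ := exists_x hz
    obtain ⟨x', rfl⟩ := exists_x hz'
    rw [FF_circle H, FF_circle H] at hzz
    obtain ⟨m, hm⟩ := Complex.exp_eq_exp_iff_exists_int.1 hzz
    have h1 : (h x : ℂ) = h x' + m * (2 * Real.pi) := by
      have h2 : ((h x : ℂ) - (h x' + m * (2 * Real.pi))) * Complex.I = 0 := by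
        linear_combination hm
      have h3 := (mul_eq_zero.1 h2).resolve_right Complex.I_ne_zero
      linear_combination h3
    have h2 : h x = h x' + m * (2 * Real.pi) := by exact_mod_cast h1
    rw [← h_per_int H m x'] at h2
    have h3 := H.monoh.injective h2
    rw [h3]
    push_cast
    rw [add_mul, Complex.exp_add]
    have h4 : (m : ℂ) * (2 * Real.pi) * Complex.I = m * (2 * Real.pi * Complex.I) := by ring
    rw [h4, Complex.exp_int_mul_two_pi_mul_I, mul_one]
  · have hz' : 1 < ‖z'‖ := by rw [← FF_out H, ← hzz, FF_out H]; exact hz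
    have h1 : FF T h (conj z)⁻¹ = FF T h (conj z')⁻¹ := by
      rw [FF_inv H, FF_inv H, hzz]
    have h2 : ∀ v : ℂ, 1 < ‖v‖ → (conj v)⁻¹ ∈ ball (0 : ℂ) 1 := by
      intro v hv
      rw [mem_ball_zero_iff, norm_inv, Complex.norm_conj]
      exact inv_lt_one_of_one_lt₀ hv
    have h3 := hb.injOn (h2 z hz) (h2 z' hz') h1
    exact (starRingEnd ℂ).injective (inv_injective h3)

theorem FF_surjective (hP : S_PROP) (hn : 2 ≤ n) (H : Half n η₀ α η k T h) :
    Function.Surjective (FF T h) := by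
  have hb := FF_bijOn_ball hP hn H
  intro y
  rcases lt_trichotomy ‖y‖ 1 with hy | hy | hy
  · obtain ⟨z, _, hz⟩ := hb.surjOn (mem_ball_zero_iff.2 hy)
    exact ⟨z, hz⟩
  · obtain ⟨x, rfl⟩ := exists_x hy
    obtain ⟨x', rfl⟩ := h_surj H x
    exact ⟨_, FF_circle H x'⟩
  · have h2 : (conj y)⁻¹ ∈ ball (0 : ℂ) 1 := by
      rw [mem_ball_zero_iff, norm_inv, Complex.norm_conj]
      exact inv_lt_one_of_one_lt₀ hy
    obtain ⟨z, _, hz⟩ := hb.surjOn h2
    refine ⟨(conj z)⁻¹, ?_⟩
    rw [FF_inv H, hz]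
    simp

theorem FF_closed (hn : 2 ≤ n) (H : Half n η₀ α η k T h) : IsClosedMap (FF T h) := by
  have hc := FF_continuous hn H
  have h1 : IsProperMap (FF T h) := by
    rw [isProperMap_iff_tendsto_cocompact]
    refine ⟨hc, ?_⟩
    refine Tendsto.congr' ?_ tendsto_id
    have h2 : (closedBall (0 : ℂ) (Real.exp (n * η)))ᶜ ∈ cocompact ℂ :=
      (isCompact_closedBall _ _).compl_mem_cocompact
    filter_upwards [h2] with z hz
    rw [mem_compl_iff, mem_closedBall_zero_iff, not_le] at hz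
    exact (FF_big hn H z hz.le).symm
  exact h1.isClosedMap

/-- the homeomorphism -/
noncomputable def FH (hP : S_PROP) (hn : 2 ≤ n) (H : Half n η₀ α η k T h) : ℂ ≃ₜ ℂ :=
  (Equiv.ofBijective (FF T h) ⟨FF_injective hP hn H, FF_surjective hP hn H⟩).toHomeomorphOfContinuousClosed
    (FF_continuous hn H) (FF_closed hn H)

theorem FH_apply (hP : S_PROP) (hn : 2 ≤ n) (H : Half n η₀ α η k T h) (z : ℂ) :
    FH hP hn H z = FF T h z := rfl

end

section blaschke
variable {n : ℕ} (A : Blaschke n)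

theorem zn_den (z : ℂ) : (zn n).den z = 1 := by
  simp [Blaschke.den, zn]

theorem zn_ev (hn : 1 ≤ n) (z : ℂ) : (zn n).ev z = z ^ n := by
  rw [Blaschke.ev, zn_den, div_one, Blaschke.num]
  obtain ⟨m, rfl⟩ := Nat.exists_eq_add_of_le hn
  simp [zn]
  ring

theorem den_inv (v : ℂ) (hv : v ≠ 0) (h0 : A.num v ≠ 0) : A.den (conj v)⁻¹ ≠ 0 := by
  rw [Blaschke.den, Finset.prod_ne_zero_iff]
  intro i _ h1
  have hv' : conj v ≠ 0 := by simpa using hv
  have h2 : conj v - conj (A.a i) = 0 := by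
    have h3 : (1 - conj (A.a i) * (conj v)⁻¹) * conj v = 0 := by rw [h1, zero_mul]
    rw [sub_mul, one_mul, mul_assoc, inv_mul_cancel₀ hv', mul_one] at h3
    exact h3
  have h3 : v - A.a i = 0 := by
    rw [← map_sub] at h2
    exact (map_eq_zero (starRingEnd ℂ)).1 h2
  apply h0
  rw [Blaschke.num, Finset.prod_eq_zero (Finset.mem_univ i) h3, mul_zero]

theorem ev_inv (v : ℂ) (hv : v ≠ 0) (h0 : A.num v ≠ 0) :
    A.ev (conj v)⁻¹ = (conj (A.ev v))⁻¹ := by
  have hv' : conj v ≠ 0 := by simpa using hv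
  have hd' := den_inv A v hv h0
  rw [Blaschke.ev, Blaschke.ev, map_div₀, inv_div]
  have hn' : conj (A.num v) ≠ 0 := by simpa using h0
  rw [div_eq_div_iff hd' hn']
  simp only [Blaschke.num, Blaschke.den, map_mul, map_prod, map_sub, map_one, Complex.conj_conj]
  have hc : A.c * conj A.c = 1 := by
    rw [Complex.mul_conj, Complex.normSq_eq_norm_sq, A.norm_c]
    simp
  have h1 : (∏ i, ((conj v)⁻¹ - A.a i)) * (∏ i, (conj v - conj (A.a i))) =
      (∏ i, (1 - A.a i * conj v)) * ∏ i, (1 - conj (A.a i) * (conj v)⁻¹) := by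
    rw [← Finset.prod_mul_distrib, ← Finset.prod_mul_distrib]
    apply Finset.prod_congr rfl
    intro i _
    field_simp
  calc (A.c * (conj v)⁻¹ * ∏ i, ((conj v)⁻¹ - A.a i)) *
        (conj A.c * conj v * ∏ i, (conj v - conj (A.a i)))
      = (A.c * conj A.c) * ((conj v)⁻¹ * conj v) *
        ((∏ i, ((conj v)⁻¹ - A.a i)) * (∏ i, (conj v - conj (A.a i)))) := by ring
    _ = (∏ i, (1 - A.a i * conj v)) * ∏ i, (1 - conj (A.a i) * (conj v)⁻¹) := by
      rw [hc, inv_mul_cancel₀ hv', h1, one_mul, one_mul]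

end blaschke

section
variable {n : ℕ} {η₀ : ℝ} {α : ℂ → ℂ} {η k : ℝ} {T : ℂ → ℂ} {h : ℝ → ℝ} {A : Blaschke n} {x₀ : ℝ}

theorem exp_pow (w : ℂ) : Complex.exp (Complex.I * w) ^ n = Complex.exp (Complex.I * (n * w)) := by
  rw [← Complex.exp_nat_mul]
  congr 1
  ring

theorem FF_semi_le (H : Half n η₀ α η k T h) (hA : LiftOf A η₀ α x₀) (w : ℂ) (hw : 0 ≤ w.im)
    (hw' : w.im < η) (hn : 2 ≤ n) : A.den (FF T h (Complex.exp (Complex.I * w))) ≠ 0 ∧
      FF T h (Complex.exp (Complex.I * w) ^ n) = A.ev (FF T h (Complex.exp (Complex.I * w))) := by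
  rw [exp_pow, FF_exp H, FF_exp H]
  rcases hw.lt_or_eq with hw | hw
  · have hn' : (0 : ℝ) < n := by positivity
    have h1 : 0 < ((n : ℂ) * w).im := by
      simpa using mul_pos hn' hw
    rw [SS_pos h1, SS_pos hw]
    obtain ⟨h2, h3⟩ := H.semi w hw hw'
    obtain ⟨h4, h5⟩ := hA.ev _ h2
    rw [h3]
    exact ⟨h4, h5⟩
  · have h1 : ((n : ℂ) * w).im = 0 := by
      simp [← hw]
    rw [SS_zero h1, SS_zero hw.symm]
    have h2 : ((n : ℂ) * w).re = n * w.re := by simp
    rw [h2, H.semih]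
    have h3 : (h w.re : ℂ) ∈ SH η₀ := by
      simp only [SH, mem_ofPred_eq, Complex.ofReal_im, abs_zero]
      exact hA.lift.pos
    exact hA.ev _ h3

theorem FF_semi (hn : 2 ≤ n) (H : Half n η₀ α η k T h) (hA : LiftOf A η₀ α x₀) (z : ℂ)
    (h1 : (Real.exp η)⁻¹ < ‖z‖) (h2 : ‖z‖ < Real.exp η) : A.den (FF T h z) ≠ 0 ∧
      FF T h (z ^ n) = A.ev (FF T h z) := by
  have h0 : z ≠ 0 := norm_pos_iff.1 ((inv_pos.2 (Real.exp_pos _)).trans h1)
  obtain ⟨w, rfl⟩ := exists_w h0
  rw [norm_exp_I] at h1 h2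
  rw [← Real.exp_neg, Real.exp_lt_exp] at h1
  rw [Real.exp_lt_exp] at h2
  by_cases hw : 0 ≤ w.im
  · exact FF_semi_le H hA w hw (by linarith) hn
  · push Not at hw
    have h3 := FF_semi_le H hA (conj w) (by simpa using hw.le) (by simpa using h2) hn
    set v := FF T h (Complex.exp (Complex.I * conj w)) with hv
    have h4 : FF T h (Complex.exp (Complex.I * w)) = (conj v)⁻¹ := by
      rw [hv, ← FF_inv H, conj_exp_I, Complex.conj_conj]
    have hv0 : v ≠ 0 := FF_ne_zero (Complex.exp_ne_zero _)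
    have h5 : FF T h (Complex.exp (Complex.I * w) ^ n) = (conj (A.ev v))⁻¹ := by
      rw [← h3.2, ← FF_inv H, map_pow, ← inv_pow, conj_exp_I, Complex.conj_conj]
    have h6 : A.ev v ≠ 0 := by
      rw [← h3.2]
      exact FF_ne_zero (pow_ne_zero _ (Complex.exp_ne_zero _))
    have h7 : A.num v ≠ 0 := by
      intro h8
      apply h6
      rw [Blaschke.ev, h8, zero_div]
    rw [h4, h5]
    exact ⟨den_inv A v hv0 h7, (ev_inv A v hv0 h7).symm⟩

/-- the fixed point of the lift on the real axis -/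
theorem fix_unique (hA : LiftOf A η₀ α x₀) (y : ℝ) (hy : α y = y) : y = x₀ := by
  have hL := hA.lift
  have hmem : ∀ x : ℝ, (x : ℂ) ∈ SH η₀ := by
    intro x
    simp only [SH, mem_ofPred_eq, Complex.ofReal_im, abs_zero]
    exact hL.pos
  have hopen : IsOpen (SH η₀) := by
    have : SH η₀ = (fun w : ℂ => |w.im|) ⁻¹' (Iio η₀) := rfl
    rw [this]
    exact isOpen_Iio.preimage (by fun_prop)
  have hd : ∀ x : ℝ, HasDerivAt (fun x : ℝ => (α x).re - x) ((deriv α x).re - 1) x := by
    intro x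
    have h1 : HasDerivAt α (deriv α x) (x : ℂ) :=
      (hL.diff.differentiableAt (hopen.mem_nhds (hmem x))).hasDerivAt
    have h2 := h1.real_of_complex
    exact h2.sub (hasDerivAt_id x)
  have hm : StrictMono (fun x : ℝ => (α x).re - x) := by
    apply strictMono_of_deriv_pos
    intro x
    rw [(hd x).deriv]
    linarith [hL.expd x]
  apply hm.injective
  simp only
  rw [hy, hA.fix]
  simp

end

end DISCaux

open DISCaux in
theorem t_DISC (hP : S_PROP) : S_DISC := by
  intro n hn A η₀ α x₀ hA η k T h H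
  refine ⟨FH hP hn H, ?_⟩
  have hη : 0 < η := H.ηpos
  refine ⟨?_, ?_, ?_, ?_, ?_, ?_, ?_, ?_, ?_⟩
  · exact FF_out H
  · exact FF_inn H
  · intro z hz
    exact (FF_smooth hn H z hz).1.contDiffWithinAt
  · intro z hz
    exact (FF_smooth hn H z hz).2.1
  · intro z hz
    exact (FF_smooth hn H z hz).2.2
  · refine ⟨Real.exp (n * η), ?_, ?_, ?_⟩
    · rw [Real.one_lt_exp_iff]
      positivity
    · intro z hz
      exact FF_big hn H z hz
    · intro z hz
      rw [← Real.exp_neg] at hz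
      exact FF_small hn H z hz
  · refine ⟨Real.exp η, by rw [Real.one_lt_exp_iff]; exact hη, ?_⟩
    intro z h1 h2
    rw [zn_den, zn_ev (by omega)]
    exact ⟨one_ne_zero, FF_semi hn H hA z h1 h2⟩
  · have h1 : h 0 = x₀ := by
      apply fix_unique hA
      have := H.semih 0
      rw [mul_zero] at this
      exact this.symm
    have h2 := FF_circle H 0
    rw [Complex.ofReal_zero, zero_mul, Complex.exp_zero, h1, mul_comm, hA.mark] at h2
    exact h2
  · exact ⟨h, H.conth, H.monoh, H.perh, FF_circle H⟩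

end Pool.Agent.H212.MB
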