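import Pool.Agent.H212.MB.Stm3

/-!
# DISP: bounded displacement (helper249)
-/

set_option autoImplicit false

open Filter Metric Set Topology MeasureTheory
open scoped ContDiff ComplexConjugate

namespace Pool.Agent.H212.MB

namespace DISPaux

/-- neighbourhoods of the circle contain rings -/
theorem ring_subset {O : Set ℂ} (hO : IsOpen O) (h : ∀ z : ℂ, ‖z‖ = 1 → z ∈ O) :
    ∃ ρ : ℝ, 1 < ρ ∧ ∀ z : ℂ, 1 < ‖z‖ → ‖z‖ < ρ → z ∈ O := by
  have hsub : sphere (0 : ℂ) 1 ⊆ O := fun z hz => h z (mem_sphere_zero_iff_norm.1 hz)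
  obtain ⟨δ, hδ, hδ'⟩ := (isCompact_sphere (0 : ℂ) 1).exists_thickening_subset_open hO hsub
  refine ⟨1 + δ, by linarith, fun z h1 h2 => ?_⟩
  apply hδ'
  have hz0 : 0 < ‖z‖ := lt_trans one_pos h1
  rw [mem_thickening_iff]
  refine ⟨((‖z‖⁻¹ : ℝ) : ℂ) * z, ?_, ?_⟩
  · rw [mem_sphere_zero_iff_norm, norm_mul, Complex.norm_real, norm_inv, norm_norm,
      inv_mul_cancel₀ hz0.ne']
  · rw [dist_eq_norm]
    have h4 : z - ((‖z‖⁻¹ : ℝ) : ℂ) * z = ((1 - ‖z‖⁻¹ : ℝ) : ℂ) * z := by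
      push_cast
      ring
    rw [h4, norm_mul, Complex.norm_real, Real.norm_eq_abs]
    have h5 : |1 - ‖z‖⁻¹| * ‖z‖ = |‖z‖ - 1| := by
      rw [← abs_of_pos hz0, ← abs_mul, abs_of_pos hz0, sub_mul, inv_mul_cancel₀ hz0.ne', one_mul]
    rw [h5, abs_lt]
    constructor <;> linarith

theorem unif {η : ℂ → ℂ} (hb : ∀ ζ : ℂ, ‖ζ‖ = 1 → Tendsto η (𝓝[Ext] ζ) (𝓝 ζ)) {ε : ℝ}
    (hε : 0 < ε) : ∃ ρ : ℝ, 1 < ρ ∧ ∀ z : ℂ, 1 < ‖z‖ → ‖z‖ < ρ → ‖η z - z‖ < ε := by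
  have h1 : ∀ ζ : ℂ, ‖ζ‖ = 1 → ∃ r : ℝ, 0 < r ∧ ∀ z ∈ ball ζ r, z ∈ Ext → ‖η z - z‖ < ε := by
    intro ζ hζ
    have h2 : ∀ᶠ z in 𝓝[Ext] ζ, η z ∈ ball ζ (ε / 2) :=
      hb ζ hζ (ball_mem_nhds ζ (by linarith))
    rw [eventually_nhdsWithin_iff] at h2
    obtain ⟨r, hr, hr'⟩ := Metric.eventually_nhds_iff_ball.1 h2
    refine ⟨min r (ε / 2), lt_min hr (by linarith), fun z hz hzE => ?_⟩
    have h3 := hr' z (ball_subset_ball (min_le_left _ _) hz) hzE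
    have h4 := ball_subset_ball (min_le_right r (ε / 2)) hz
    rw [mem_ball, dist_eq_norm] at h3 h4
    have h5 : η z - z = (η z - ζ) - (z - ζ) := by ring
    rw [h5]
    refine (norm_sub_le _ _).trans_lt ?_
    linarith
  choose! r hr hr' using h1
  have hO : IsOpen (⋃ ζ ∈ sphere (0 : ℂ) 1, ball ζ (r ζ)) :=
    isOpen_biUnion fun ζ _ => isOpen_ball
  obtain ⟨ρ, h2, h3⟩ := ring_subset hO fun ζ hζ =>
    mem_biUnion (mem_sphere_zero_iff_norm.2 hζ) (mem_ball_self (hr ζ hζ))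
  refine ⟨ρ, h2, fun z hz hz' => ?_⟩
  obtain ⟨ζ, hζ, hzζ⟩ := mem_iUnion₂.1 (h3 z hz hz')
  exact hr' ζ (mem_sphere_zero_iff_norm.1 hζ) z hzζ hz

/-- two small logarithms of the same number are equal -/
theorem log_unique {a b : ℂ} (h : Complex.exp a = Complex.exp b) (hab : ‖a - b‖ < 2 * Real.pi) :
    a = b := by
  obtain ⟨k, hk⟩ := Complex.exp_eq_exp_iff_exists_int.1 h
  have h1 : a - b = (k : ℂ) * (2 * Real.pi * Complex.I) := by
    rw [hk]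
    ring
  have h2 : ‖a - b‖ = |(k : ℝ)| * (2 * Real.pi) := by
    rw [h1, norm_mul, norm_mul, norm_mul, Complex.norm_I, mul_one]
    rw [Complex.norm_real, Real.norm_of_nonneg Real.pi_pos.le, Complex.norm_ofNat]
    congr 1
    exact Complex.norm_intCast k
  rw [h2] at hab
  have h3 : |(k : ℝ)| < 1 := by
    have := Real.pi_pos
    by_contra hcon
    push Not at hcon
    nlinarith
  have h4 : k = 0 := by
    have h5 : |k| < 1 := by exact_mod_cast h3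
    exact Int.abs_lt_one_iff.1 h5
  rw [hk, h4]
  push_cast
  ring

theorem exists_pow {n : ℕ} (hn : 2 ≤ n) {s s1 : ℝ} (hs : 0 < s) (hs1 : s ≤ s1) :
    ∃ j : ℕ, (n : ℝ) ^ j * s ≤ s1 ∧ s1 < n * ((n : ℝ) ^ j * s) := by
  have h1 : (1 : ℝ) ≤ s1 / s := by
    rw [le_div_iff₀ hs]
    linarith
  have h2 : (1 : ℝ) < n := by exact_mod_cast (by omega : 1 < n)
  obtain ⟨j, hj1, hj2⟩ := exists_nat_pow_near h1 h2
  rw [le_div_iff₀ hs] at hj1
  rw [div_lt_iff₀ hs] at hj2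
  refine ⟨j, hj1, ?_⟩
  rw [pow_succ] at hj2
  linarith

end DISPaux

open DISPaux in
/-- **DISP** -/
theorem t_DISP : S_DISP := by
  intro n hn η ρ hρ hmaps hcont hsemi hb
  have hn0 : (0 : ℝ) < n := by exact_mod_cast (by omega : 0 < n)
  have hn1 : (1 : ℝ) < n := by exact_mod_cast (by omega : 1 < n)
  obtain ⟨ε, hεe⟩ : ∃ ε : ℝ, ε = 1 / (2 * (n + 1)) := ⟨_, rfl⟩
  have hε : 0 < ε := by rw [hεe]; positivity
  have hε2 : (n + 1) * ε = 1 / 2 := by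
    rw [hεe]
    field_simp
  have hε1 : ε ≤ 1 / 2 := by nlinarith
  obtain ⟨ρ₁, hρ₁, hun⟩ := unif hb hε
  obtain ⟨R, hR1, hR2⟩ := exists_between (lt_min hρ hρ₁)
  have hRρ : R < ρ := hR2.trans_le (min_le_left _ _)
  have hRρ₁ : R < ρ₁ := hR2.trans_le (min_le_right _ _)
  -- the logarithm
  obtain ⟨ℓ, hℓ⟩ : ∃ ℓ : ℂ → ℂ, ∀ z, ℓ z = Complex.log (1 + (η z / z - 1)) := ⟨_, fun _ => rfl⟩
  have hw : ∀ z : ℂ, 1 < ‖z‖ → ‖z‖ ≤ R → ‖η z / z - 1‖ ≤ ε := by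
    intro z h1 h2
    have hz0 : z ≠ 0 := norm_pos_iff.1 (lt_trans one_pos h1)
    have h3 : η z / z - 1 = (η z - z) / z := by
      field_simp
    rw [h3, norm_div]
    have h4 := (hun z h1 (h2.trans_lt hRρ₁)).le
    calc ‖η z - z‖ / ‖z‖ ≤ ‖η z - z‖ / 1 :=
          div_le_div_of_nonneg_left (norm_nonneg _) one_pos h1.le
      _ ≤ ε := by rwa [div_one]
  have hexp : ∀ z : ℂ, 1 < ‖z‖ → ‖z‖ ≤ R → Complex.exp (ℓ z) = η z / z := by
    intro z h1 h2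
    have h3 : (1 : ℂ) + (η z / z - 1) = η z / z := by ring
    have hz0 : z ≠ 0 := norm_pos_iff.1 (lt_trans one_pos h1)
    have h4 : η z ≠ 0 := by
      have := hmaps (show z ∈ Ext from h1)
      exact norm_pos_iff.1 (lt_trans one_pos this)
    rw [hℓ, h3, Complex.exp_log (div_ne_zero h4 hz0)]
  have hsmall : ∀ z : ℂ, 1 < ‖z‖ → ‖z‖ ≤ R → ‖ℓ z‖ ≤ 3 / 2 * ε := by
    intro z h1 h2
    have h3 := hw z h1 h2
    rw [hℓ]
    refine (Complex.norm_log_one_add_half_le_self (h3.trans hε1)).trans ?_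
    linarith
  have hstep : ∀ z : ℂ, 1 < ‖z‖ → ‖z ^ n‖ ≤ R → ℓ (z ^ n) = n * ℓ z := by
    intro z h1 h2
    have h3 : ‖z‖ ≤ ‖z ^ n‖ := by
      rw [norm_pow]
      exact le_self_pow₀ h1.le (by omega)
    have h4 : 1 < ‖z ^ n‖ := lt_of_lt_of_le h1 h3
    have h5 : ‖z‖ ≤ R := h3.trans h2
    apply log_unique
    · rw [Complex.exp_nat_mul, hexp _ h4 h2, hexp z h1 h5, hsemi z h1 (h5.trans_lt hRρ), div_pow]
    · have h6 := hsmall _ h4 h2
      have h7 := hsmall z h1 h5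
      have h8 : ‖ℓ (z ^ n) - n * ℓ z‖ ≤ 3 / 2 * ε + n * (3 / 2 * ε) := by
        refine (norm_sub_le _ _).trans ?_
        rw [norm_mul, Complex.norm_natCast]
        gcongr
      have h9 := Real.pi_gt_three
      have h10 : 3 / 2 * ε + n * (3 / 2 * ε) = 3 / 4 := by
        linear_combination (3 / 2 : ℝ) * hε2
      linarith
  have hiter : ∀ (j : ℕ) (z : ℂ), 1 < ‖z‖ → ‖z ^ (n ^ j)‖ ≤ R →
      ℓ (z ^ (n ^ j)) = (n : ℂ) ^ j * ℓ z ∧ ‖η (z ^ (n ^ j))‖ = ‖η z‖ ^ (n ^ j) := by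
    intro j
    induction j with
    | zero => intro z _ _; simp
    | succ j ih =>
      intro z h1 h2
      have e : z ^ (n ^ (j + 1)) = (z ^ (n ^ j)) ^ n := by
        rw [← pow_mul, pow_succ]
      rw [e] at h2 ⊢
      have h3 : 1 < ‖z ^ (n ^ j)‖ := by
        rw [norm_pow]
        exact one_lt_pow₀ h1 (pow_ne_zero _ (by omega))
      have h4 : ‖z ^ (n ^ j)‖ ≤ R := by
        refine le_trans ?_ h2
        rw [norm_pow (z ^ (n ^ j))]
        exact le_self_pow₀ h3.le (by omega)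
      obtain ⟨h5, h6⟩ := ih z h1 h4
      constructor
      · rw [hstep _ h3 h2, h5]
        ring
      · rw [hsemi _ h3 (h4.trans_lt hRρ), norm_pow, h6, ← pow_mul, pow_succ]
  -- the fundamental annulus
  have hs1 : 0 < Real.log R := Real.log_pos hR1
  obtain ⟨r0, hr0e⟩ : ∃ r0 : ℝ, r0 = Real.exp (Real.log R / n) := ⟨_, rfl⟩
  have hr0 : 1 < r0 := by
    rw [hr0e]
    exact Real.one_lt_exp_iff.2 (by positivity)
  obtain ⟨c₁, hc₁, hc₁'⟩ : ∃ c₁ : ℝ, 0 < c₁ ∧ ∀ w : ℂ, r0 ≤ ‖w‖ → ‖w‖ ≤ R →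
      c₁ ≤ Real.log ‖η w‖ := by
    have hK : IsCompact {w : ℂ | r0 ≤ ‖w‖ ∧ ‖w‖ ≤ R} := by
      have e : {w : ℂ | r0 ≤ ‖w‖ ∧ ‖w‖ ≤ R} = closedBall 0 R ∩ {w : ℂ | r0 ≤ ‖w‖} := by
        ext w
        rw [mem_inter_iff, mem_closedBall_zero_iff]
        exact and_comm
      rw [e]
      exact (isCompact_closedBall _ _).inter_right (isClosed_le continuous_const continuous_norm)
    have hsub : {w : ℂ | r0 ≤ ‖w‖ ∧ ‖w‖ ≤ R} ⊆ Ext := fun w hw => lt_of_lt_of_le hr0 hw.1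
    have hpos : ∀ w ∈ {w : ℂ | r0 ≤ ‖w‖ ∧ ‖w‖ ≤ R}, 0 < Real.log ‖η w‖ := fun w hw =>
      Real.log_pos (hmaps (hsub hw))
    have hc : ContinuousOn (fun w => Real.log ‖η w‖) {w : ℂ | r0 ≤ ‖w‖ ∧ ‖w‖ ≤ R} := by
      refine ContinuousOn.log (hcont.mono hsub).norm fun w hw => ?_
      have := hmaps (hsub hw)
      exact (lt_trans one_pos this).ne'
    rcases eq_empty_or_nonempty {w : ℂ | r0 ≤ ‖w‖ ∧ ‖w‖ ≤ R} with he | hne
    · refine ⟨1, one_pos, fun w hw hw' => ?_⟩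
      have : w ∈ {w : ℂ | r0 ≤ ‖w‖ ∧ ‖w‖ ≤ R} := ⟨hw, hw'⟩
      rw [he] at this
      exact absurd this (notMem_empty w)
    · obtain ⟨w0, hw0, hmin⟩ := hK.exists_isMinOn hne hc
      exact ⟨_, hpos w0 hw0, fun w hw hw' => hmin ⟨hw, hw'⟩⟩
  refine ⟨R, c₁ / Real.log R / R, R * (2 * (3 / 4 * (n / Real.log R))), hR1, by positivity,
    fun z h1 h2 => ?_⟩
  have hz0 : z ≠ 0 := norm_pos_iff.1 (lt_trans one_pos h1)
  have hzp : 0 < ‖z‖ := norm_pos_iff.2 hz0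
  have hs : 0 < Real.log ‖z‖ := Real.log_pos h1
  have hs' : Real.log ‖z‖ ≤ Real.log R := Real.log_le_log hzp h2.le
  have hlogle : Real.log ‖z‖ ≤ ‖z‖ - 1 := Real.log_le_sub_one_of_pos hzp
  obtain ⟨j, hj1, hj2⟩ := exists_pow hn hs hs'
  have hnj : (0 : ℝ) < (n : ℝ) ^ j := by positivity
  have hzj : ‖z ^ (n ^ j)‖ ≤ R := by
    rw [← Real.log_le_log_iff (norm_pos_iff.2 (pow_ne_zero _ hz0)) (by linarith), norm_pow,
      Real.log_pow]
    push_cast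
    exact hj1
  have hzj' : r0 ≤ ‖z ^ (n ^ j)‖ := by
    rw [hr0e, ← Real.le_log_iff_exp_le (norm_pos_iff.2 (pow_ne_zero _ hz0)), norm_pow,
      Real.log_pow, div_le_iff₀ hn0]
    push_cast
    linarith
  have hz1j : 1 < ‖z ^ (n ^ j)‖ := lt_of_lt_of_le hr0 hzj'
  obtain ⟨a1, a2⟩ := hiter j z h1 hzj
  constructor
  · -- the upper bound
    have b1 : (n : ℝ) ^ j * ‖ℓ z‖ ≤ 3 / 4 := by
      have h3 := hsmall _ hz1j hzj
      rw [a1, norm_mul, norm_pow, Complex.norm_natCast] at h3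
      nlinarith
    have b2 : ‖ℓ z‖ ≤ 3 / 4 * (n / Real.log R) * Real.log ‖z‖ := by
      have h3 : ‖ℓ z‖ ≤ 3 / 4 / (n : ℝ) ^ j := by
        rw [le_div_iff₀ hnj]
        linarith
      have h4 : 3 / 4 / (n : ℝ) ^ j ≤ 3 / 4 * (n / Real.log R) * Real.log ‖z‖ := by
        rw [div_le_iff₀ hnj]
        have h5 : 3 / 4 * (n / Real.log R) * Real.log ‖z‖ * (n : ℝ) ^ j =
          3 / 4 * ((n * ((n : ℝ) ^ j * Real.log ‖z‖)) / Real.log R) := by ring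
        rw [h5]
        have h6 : (1 : ℝ) ≤ (n * ((n : ℝ) ^ j * Real.log ‖z‖)) / Real.log R := by
          rw [le_div_iff₀ hs1]
          linarith
        linarith
      exact h3.trans h4
    have b3 : ‖ℓ z‖ ≤ 1 := by
      have h3 := hsmall z h1 h2.le
      linarith
    have b4 : η z - z = z * (Complex.exp (ℓ z) - 1) := by
      rw [hexp z h1 h2.le]
      field_simp
    rw [b4, norm_mul]
    have b5 := Complex.norm_exp_sub_one_le b3
    have hCpos : 0 ≤ 3 / 4 * (n / Real.log R) := by positivity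
    calc ‖z‖ * ‖Complex.exp (ℓ z) - 1‖ ≤ R * (2 * ‖ℓ z‖) :=
          mul_le_mul h2.le b5 (norm_nonneg _) (by linarith)
      _ ≤ R * (2 * (3 / 4 * (n / Real.log R) * (‖z‖ - 1))) := by
          have h7 : 3 / 4 * (n / Real.log R) * Real.log ‖z‖ ≤
            3 / 4 * (n / Real.log R) * (‖z‖ - 1) := mul_le_mul_of_nonneg_left hlogle hCpos
          have h8 : 0 ≤ R := by linarith
          have h9 : 2 * ‖ℓ z‖ ≤ 2 * (3 / 4 * (n / Real.log R) * (‖z‖ - 1)) := by linarith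
          exact mul_le_mul_of_nonneg_left h9 h8
      _ = R * (2 * (3 / 4 * (n / Real.log R))) * (‖z‖ - 1) := by ring
  · -- the lower bound
    have hη : 1 < ‖η z‖ := hmaps (show z ∈ Ext from h1)
    have b1 := hc₁' _ hzj' hzj
    rw [a2, Real.log_pow] at b1
    push_cast at b1
    have b2 : c₁ / Real.log R * Real.log ‖z‖ ≤ Real.log ‖η z‖ := by
      rw [div_mul_eq_mul_div, div_le_iff₀ hs1]
      have h3 : c₁ * Real.log ‖z‖ ≤ (n : ℝ) ^ j * Real.log ‖η z‖ * Real.log ‖z‖ :=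
        mul_le_mul_of_nonneg_right b1 hs.le
      have h4 : Real.log ‖η z‖ * ((n : ℝ) ^ j * Real.log ‖z‖) ≤ Real.log ‖η z‖ * Real.log R :=
        mul_le_mul_of_nonneg_left hj1 (Real.log_pos hη).le
      linarith
    have b3 : Real.log ‖η z‖ ≤ ‖η z‖ - 1 := Real.log_le_sub_one_of_pos (by linarith)
    have b4 : (‖z‖ - 1) / R ≤ Real.log ‖z‖ := by
      have h3 := Real.one_sub_inv_le_log_of_pos hzp
      refine le_trans ?_ h3
      have h4 : 1 - ‖z‖⁻¹ = (‖z‖ - 1) / ‖z‖ := by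
        field_simp
      rw [h4]
      exact div_le_div_of_nonneg_left (by linarith) hzp h2.le
    have b5 : 0 ≤ c₁ / Real.log R := by positivity
    calc c₁ / Real.log R / R * (‖z‖ - 1) = c₁ / Real.log R * ((‖z‖ - 1) / R) := by ring
      _ ≤ c₁ / Real.log R * Real.log ‖z‖ := mul_le_mul_of_nonneg_left b4 b5
      _ ≤ ‖η z‖ - 1 := b2.trans b3

end Pool.Agent.H212.MB
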