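import Pool.Agent.H212.MB.Stm

/-!
# MB, EN: energy and area (by helper784)
-/

set_option autoImplicit false

open Filter Metric Set Topology MeasureTheory
open scoped ContDiff ComplexConjugate ENNReal

namespace Pool.Agent.H212.MB

namespace ENaux

theorem enorm_sq_le {k : ℝ} (hk0 : 0 ≤ k) (hk1 : k < 1) {f : ℂ → ℂ} {z : ℂ}
    (h : ‖dzb f z‖ ≤ k * ‖dz f z‖) :
    ‖fderiv ℝ f z‖ₑ ^ 2 ≤
      ENNReal.ofReal ((1 + k) / (1 - k)) * ENNReal.ofReal |(fderiv ℝ f z).det| := by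
  have hK : 0 ≤ (1 + k) / (1 - k) := div_nonneg (by linarith) (by linarith)
  have h1 := sq_norm_le_det hk1 h
  rw [← ENNReal.ofReal_mul hK, ← ofReal_norm, ← ENNReal.ofReal_pow (norm_nonneg _)]
  apply ENNReal.ofReal_le_ofReal
  exact h1.trans (mul_le_mul_of_nonneg_left (le_abs_self _) hK)

theorem enorm_comp_le {Q V : ℂ → ℂ} {z : ℂ} (hQ : DifferentiableAt ℝ Q z)
    (hV : DifferentiableAt ℂ V (Q z)) :
    ‖fderiv ℝ (V ∘ Q) z‖ₑ ^ 2 ≤ ‖fderiv ℝ Q z‖ₑ ^ 2 * ‖deriv V (Q z)‖ₑ ^ 2 := by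
  have h1 : fderiv ℝ (V ∘ Q) z = (fderiv ℝ V (Q z)).comp (fderiv ℝ Q z) :=
    fderiv_comp z (hV.restrictScalars ℝ) hQ
  have h2 : ‖fderiv ℝ V (Q z)‖ ≤ ‖deriv V (Q z)‖ := by
    obtain ⟨h3, h4⟩ := dz_of_hasDerivAt hV.hasDerivAt
    have h5 := norm_fderiv_le V (Q z)
    rw [h3, h4, norm_zero, add_zero] at h5
    exact h5
  have h3 : ‖fderiv ℝ (V ∘ Q) z‖ ≤ ‖fderiv ℝ Q z‖ * ‖deriv V (Q z)‖ := by
    rw [h1, mul_comm]
    exact (ContinuousLinearMap.opNorm_comp_le _ _).trans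
      (mul_le_mul_of_nonneg_right h2 (norm_nonneg _))
  rw [← mul_pow, ← ofReal_norm, ← ofReal_norm, ← ofReal_norm,
    ← ENNReal.ofReal_mul (norm_nonneg _)]
  exact pow_le_pow_left' (ENNReal.ofReal_le_ofReal h3) 2

end ENaux

open ENaux in
theorem t_EN : S_EN := by
  intro k Q U hk0 hk1 hinj hQ hU hUO
  have hd : ∀ z ∈ U, DifferentiableAt ℝ Q z := fun z hz =>
    (hQ.smooth.differentiableOn (by norm_num)).differentiableAt (isOpen_Off.mem_nhds (hUO hz))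
  have hfd : ∀ z ∈ U, HasFDerivWithinAt Q (fderiv ℝ Q z) U z := fun z hz =>
    (hd z hz).hasFDerivAt.hasFDerivWithinAt
  refine ⟨?_, fun V hV => ?_⟩
  · rw [← lintegral_abs_det_fderiv_eq_addHaar_image volume hU hfd hinj.injOn,
      ← lintegral_const_mul' _ _ ENNReal.ofReal_ne_top]
    exact setLIntegral_mono' hU fun z hz => enorm_sq_le hk0 hk1 (hQ.dil z (hUO hz))
  · rw [lintegral_image_eq_lintegral_abs_det_fderiv_mul volume hU hfd hinj.injOn,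
      ← lintegral_const_mul' _ _ ENNReal.ofReal_ne_top]
    refine setLIntegral_mono' hU fun z hz => ?_
    refine (enorm_comp_le (hd z hz) (hV z hz)).trans ?_
    rw [← mul_assoc]
    exact mul_le_mul_left (enorm_sq_le hk0 hk1 (hQ.dil z (hUO hz))) _

end Pool.Agent.H212.MB
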