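import Pool.Agent.H212.MB.Stm3

/-!
# Project MB: quasiconformal conjugacy is an equivalence relation (job EQV, helper278)
-/

set_option autoImplicit false

open Filter Metric Set Topology MeasureTheory Polynomial
open scoped ContDiff ComplexConjugate ENNReal

namespace Pool.Agent.H212.MB

namespace EQVaux

theorem refl_qc : IsQC (fun z : ℂ => z) := ⟨1, fun x a b h => by rw [one_mul]; exact h⟩

theorem rfl' {n : ℕ} (A : Blaschke n) (f : RMap n) (φ : ℂ → ℂ) (h : IsExt A f φ) : QCConj A f f := by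
  refine ⟨Homeomorph.refl ℂ, φ, φ, fun z => z, refl_qc, h, h, fun z => ⟨Iff.rfl, fun _ => rfl⟩,
    fun z hz => hz, fun z _ => rfl, fun ζ _ => ?_⟩
  exact tendsto_id.mono_left nhdsWithin_le_nhds

theorem symm' (h2 : S_INV) (h6 : S_ONTO) {n : ℕ} (A : Blaschke n) (f f' : RMap n)
    (h : QCConj A f f') : QCConj A f' f := by
  obtain ⟨k, φ, φ', η, ⟨C, hC⟩, hφ, hφ', hc, hm, hk, ht⟩ := h
  obtain ⟨hb, _, _, h7⟩ := h6 φ φ' η k hφ.sig hφ'.sig hm hk ht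
  obtain ⟨hm', hk', ht'⟩ := h7 (Function.invFunOn η Ext)
    (fun z hz => hb.injOn.leftInvOn_invFunOn hz)
  obtain ⟨C', _, hC'⟩ := h2 C
  refine ⟨k.symm, φ', φ, Function.invFunOn η Ext, ⟨C', hC' k.toEquiv hC⟩, hφ', hφ, fun z => ?_,
    hm', hk', ht'⟩
  have h8 := hc (k.symm z)
  rw [k.apply_symm_apply] at h8
  refine ⟨h8.1.symm, fun hz => ?_⟩
  have h9 : f.Q.eval (k.symm z) ≠ 0 := fun h0 => hz (h8.1.2 h0)
  rw [h8.2 h9, k.symm_apply_apply]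

theorem trans' (h3 : S_COMP) (h5 : S_EXTU) {n : ℕ} (hn : 2 ≤ n) (A : Blaschke n) (f f' f'' : RMap n)
    (h : QCConj A f f') (h' : QCConj A f' f'') : QCConj A f f'' := by
  obtain ⟨k, φ, φ', η, ⟨C, hC⟩, hφ, hφ', hc, hm, hk, ht⟩ := h
  obtain ⟨k₂, φ₂, φ₂', η₂, ⟨C₂, hC₂⟩, hφ₂, hφ₂', hc₂, hm₂, hk₂, ht₂⟩ := h'
  have heq : EqOn φ' φ₂ Ext := h5 n hn A f' φ' φ₂ hφ' hφ₂
  obtain ⟨C₃, _, hC₃⟩ := h3 C C₂
  refine ⟨k.trans k₂, φ, φ₂', fun z => η₂ (η z), ⟨C₃, ?_⟩, hφ, hφ₂', fun z => ?_, ?_, ?_, ?_⟩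
  · exact hC₃ k k₂ hC hC₂
  · obtain ⟨h8, h9⟩ := hc z
    obtain ⟨h10, h11⟩ := hc₂ (k z)
    refine ⟨?_, fun hz => ?_⟩
    · rw [← h8, ← h10]
      rfl
    · have h12 : f'.Q.eval (k z) ≠ 0 := fun h0 => hz (h8.1 h0)
      have h13 := h11 h12
      rw [h9 hz] at h13
      exact h13
  · exact fun z hz => hm₂ (hm hz)
  · intro z hz
    show k₂ (k (φ z)) = φ₂' (η₂ (η z))
    rw [hk z hz, heq (hm hz), hk₂ _ (hm hz)]
  · intro ζ hζ
    refine (ht₂ ζ hζ).comp ?_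
    rw [tendsto_nhdsWithin_iff]
    exact ⟨ht ζ hζ, eventually_nhdsWithin_of_forall fun z hz => hm hz⟩

end EQVaux

open EQVaux in
theorem t_EQV (_h1 : S_BL) (h2 : S_INV) (h3 : S_COMP) (_h4 : S_QFORM) (h5 : S_EXTU)
    (h6 : S_ONTO) : S_EQV := fun _ hn A =>
  ⟨fun f φ h => rfl' A f φ h, fun f f' h => symm' h2 h6 A f f' h,
    fun f f' f'' h h' => trans' h3 h5 hn A f f' f'' h h'⟩

end Pool.Agent.H212.MB
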