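import Pool.Agent.H212.MB.Stm3

/-!
# Project MB (MP_c3607d_an), job EXTU: the exterior map is unique

The difference `δ = φ - φ'` satisfies `δ z * z ^ m → a ≠ 0` at infinity, if it does not vanish near infinity.  Comparing the
growth of both sides of `δ (A z) Q(φ z) Q(φ' z) = P(φ z) Q(φ' z) - P(φ' z) Q(φ z)` gives a contradiction.
-/

set_option autoImplicit false

open Filter Metric Set Topology MeasureTheory Polynomial
open scoped ContDiff ComplexConjugate ENNReal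

namespace Pool.Agent.H212.MB

namespace EXTUaux

theorem inv_tendsto {ι : Type} {l : Filter ι} {z : ι → ℂ} (hz : Tendsto z l (cocompact ℂ)) :
    Tendsto (fun i => (z i)⁻¹) l (𝓝 0) := by
  have h1 : Tendsto (fun w : ℂ => w⁻¹) (cocompact ℂ) (𝓝 0) := by
    have h2 : Tendsto (fun w : ℂ => w⁻¹) (Bornology.cobounded ℂ) (𝓝 0) := tendsto_inv₀_cobounded
    rwa [Metric.cobounded_eq_cocompact] at h2
  exact h1.comp hz

theorem ne_zero_ev {ι : Type} {l : Filter ι} {z : ι → ℂ} (hz : Tendsto z l (cocompact ℂ)) :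
    ∀ᶠ i in l, z i ≠ 0 := by
  have h1 : ∀ᶠ w : ℂ in cocompact ℂ, w ≠ 0 := by
    have : ({0} : Set ℂ)ᶜ ∈ cocompact ℂ := isCompact_singleton.compl_mem_cocompact
    exact this
  exact hz.eventually h1

theorem polyLim {ι : Type} {l : Filter ι} (R : ℂ[X]) (k : ℕ) (hk : R.natDegree ≤ k) {y z : ι → ℂ}
    (hz : Tendsto z l (cocompact ℂ)) (hy : Tendsto (fun i => y i / z i) l (𝓝 1)) :
    Tendsto (fun i => R.eval (y i) / z i ^ k) l (𝓝 (R.coeff k)) := by
  have h0 : Tendsto (fun i => ∑ j ∈ Finset.range (k + 1), R.coeff j * (y i / z i) ^ j * ((z i)⁻¹) ^ (k - j)) l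
      (𝓝 (∑ j ∈ Finset.range (k + 1), R.coeff j * 1 ^ j * 0 ^ (k - j))) := by
    apply tendsto_finsetSum
    intro j _
    exact (tendsto_const_nhds.mul (hy.pow j)).mul ((inv_tendsto hz).pow (k - j))
  have h1 : ∑ j ∈ Finset.range (k + 1), R.coeff j * 1 ^ j * 0 ^ (k - j) = R.coeff k := by
    rw [Finset.sum_range_succ, Finset.sum_eq_zero]
    · simp
    · intro j hj
      rw [Finset.mem_range] at hj
      rw [zero_pow (by omega), mul_zero]
  rw [h1] at h0
  refine h0.congr' ?_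
  filter_upwards [ne_zero_ev hz] with i hi
  rw [Polynomial.eval_eq_sum_range' (Nat.lt_succ_of_le hk), Finset.sum_div]
  apply Finset.sum_congr rfl
  intro j hj
  have hj' : j ≤ k := Nat.lt_succ_iff.1 (Finset.mem_range.1 hj)
  have h2 : z i ^ k = z i ^ j * z i ^ (k - j) := by rw [← pow_add]; congr 1; omega
  rw [h2, div_pow, inv_pow]
  field_simp

/-- the difference quotient of a polynomial -/
noncomputable def dq (R : ℂ[X]) (k : ℕ) (x y : ℂ) : ℂ :=
  ∑ j ∈ Finset.range (k + 1), R.coeff j * ∑ i ∈ Finset.range j, x ^ i * y ^ (j - 1 - i)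

theorem dq_mul (R : ℂ[X]) (k : ℕ) (hk : R.natDegree ≤ k) (x y : ℂ) :
    dq R k x y * (x - y) = R.eval x - R.eval y := by
  rw [Polynomial.eval_eq_sum_range' (Nat.lt_succ_of_le hk), Polynomial.eval_eq_sum_range' (Nat.lt_succ_of_le hk),
    ← Finset.sum_sub_distrib, dq, Finset.sum_mul]
  apply Finset.sum_congr rfl
  intro j _
  rw [mul_assoc, (Commute.all x y).geom_sum₂_mul, mul_sub]

theorem dqLim {ι : Type} {l : Filter ι} (R : ℂ[X]) (k : ℕ) {x y z : ι → ℂ}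
    (hz : Tendsto z l (cocompact ℂ)) (hx : Tendsto (fun i => x i / z i) l (𝓝 1))
    (hy : Tendsto (fun i => y i / z i) l (𝓝 1)) :
    Tendsto (fun i => dq R k (x i) (y i) * z i / z i ^ k) l (𝓝 (k * R.coeff k)) := by
  have h0 : Tendsto (fun i => ∑ j ∈ Finset.range (k + 1), R.coeff j *
      (∑ s ∈ Finset.range j, (x i / z i) ^ s * (y i / z i) ^ (j - 1 - s)) * ((z i)⁻¹) ^ (k - j)) l
      (𝓝 (∑ j ∈ Finset.range (k + 1), R.coeff j *
        (∑ s ∈ Finset.range j, (1 : ℂ) ^ s * 1 ^ (j - 1 - s)) * 0 ^ (k - j))) := by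
    apply tendsto_finsetSum
    intro j _
    refine (tendsto_const_nhds.mul ?_).mul ((inv_tendsto hz).pow (k - j))
    apply tendsto_finsetSum
    intro s _
    exact (hx.pow s).mul (hy.pow _)
  have h1 : (∑ j ∈ Finset.range (k + 1), R.coeff j *
        (∑ s ∈ Finset.range j, (1 : ℂ) ^ s * 1 ^ (j - 1 - s)) * 0 ^ (k - j)) = k * R.coeff k := by
    rw [Finset.sum_range_succ, Finset.sum_eq_zero]
    · simp [mul_comm]
    · intro j hj
      rw [Finset.mem_range] at hj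
      rw [zero_pow (by omega), mul_zero]
  rw [h1] at h0
  refine h0.congr' ?_
  filter_upwards [ne_zero_ev hz] with i hi
  rw [dq, Finset.sum_mul, Finset.sum_div]
  apply Finset.sum_congr rfl
  intro j hj
  have hj' : j ≤ k := Nat.lt_succ_iff.1 (Finset.mem_range.1 hj)
  have h2 : z i ^ k = z i ^ j * z i ^ (k - j) := by rw [← pow_add]; congr 1; omega
  have h3 : (∑ s ∈ Finset.range j, (x i / z i) ^ s * (y i / z i) ^ (j - 1 - s)) =
      (∑ s ∈ Finset.range j, x i ^ s * y i ^ (j - 1 - s)) * z i / z i ^ j := by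
    rw [Finset.sum_mul, Finset.sum_div]
    apply Finset.sum_congr rfl
    intro s hs
    rw [Finset.mem_range] at hs
    have h4 : z i ^ j = z i ^ s * z i ^ (j - 1 - s) * z i := by
      rw [← pow_add, ← pow_succ]; congr 1; omega
    rw [h4, div_pow, div_pow]
    field_simp
  rw [h3, h2, inv_pow]
  field_simp

theorem isPreconnected_Ext : IsPreconnected Ext := by
  have h1 : Ext = Complex.exp '' {w | 0 < w.re} := by
    ext z
    constructor
    · intro hz
      have h0 : z ≠ 0 := by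
        rintro rfl
        simp only [Ext, mem_ofPred_eq, norm_zero] at hz
        linarith
      refine ⟨Complex.log z, ?_, Complex.exp_log h0⟩
      rw [mem_ofPred_eq, Complex.log_re]
      exact Real.log_pos hz
    · rintro ⟨w, hw, rfl⟩
      rw [Ext, mem_ofPred_eq, Complex.norm_exp]
      exact Real.one_lt_exp_iff.2 hw
  rw [h1]
  apply IsPreconnected.image
  · exact (convex_halfSpace_re_gt 0).isPreconnected
  · exact Complex.continuous_exp.continuousOn

theorem ratio {φ : ℂ → ℂ} (h : Tendsto (fun z => φ z - z) (cocompact ℂ) (𝓝 0)) :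
    Tendsto (fun z => φ z / z) (cocompact ℂ) (𝓝 1) := by
  have h1 : Tendsto (fun z => (φ z - z) * z⁻¹ + 1) (cocompact ℂ) (𝓝 (0 * 0 + 1)) :=
    (h.mul (inv_tendsto tendsto_id)).add tendsto_const_nhds
  rw [mul_zero, zero_add] at h1
  refine h1.congr' ?_
  filter_upwards [ne_zero_ev (tendsto_id : Tendsto id (cocompact ℂ) (cocompact ℂ))] with z hz
  simp only [id] at hz
  field_simp
  ring

/-- the leading behaviour at infinity of a function which tends to `0` there -/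
theorem leading {δ : ℂ → ℂ} (hd : DifferentiableOn ℂ δ Ext) (h0 : Tendsto δ (cocompact ℂ) (𝓝 0))
    (hne : ¬ ∃ z₀ ∈ Ext, ∀ᶠ z in 𝓝 z₀, δ z = 0) :
    ∃ (m : ℕ) (a : ℂ), a ≠ 0 ∧ Tendsto (fun z => δ z * z ^ m) (cocompact ℂ) (𝓝 a) := by
  have hinv : Tendsto (fun w : ℂ => w⁻¹) (𝓝[≠] 0) (cocompact ℂ) := by
    have h2 : Tendsto (fun w : ℂ => w⁻¹) (𝓝[≠] 0) (Bornology.cobounded ℂ) := tendsto_inv₀_nhdsNE_zero
    rwa [Metric.cobounded_eq_cocompact] at h2
  have hext : ∀ w : ℂ, w ≠ 0 → w ∈ ball (0 : ℂ) 1 → w⁻¹ ∈ Ext := by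
    intro w hw hw1
    rw [mem_ball_zero_iff] at hw1
    rw [Ext, mem_ofPred_eq, norm_inv]
    exact (one_lt_inv₀ (norm_pos_iff.2 hw)).2 hw1
  set D : ℂ → ℂ := Function.update (fun w => δ w⁻¹) 0 0 with hD
  have hDw : ∀ w : ℂ, w ≠ 0 → D w = δ w⁻¹ := fun w hw => by
    rw [hD, Function.update_of_ne hw]
  have hcont : ContinuousAt D 0 := by
    rw [hD, continuousAt_update_same]
    exact h0.comp hinv
  have hball : ∀ᶠ w : ℂ in 𝓝[≠] 0, w ∈ ball (0 : ℂ) 1 :=
    mem_nhdsWithin_of_mem_nhds (ball_mem_nhds (0 : ℂ) one_pos)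
  have hdiff : ∀ᶠ w in 𝓝[≠] (0 : ℂ), DifferentiableAt ℂ D w := by
    filter_upwards [self_mem_nhdsWithin, hball] with w hw hw1
    have h3 : DifferentiableAt ℂ (fun w => δ w⁻¹) w :=
      DifferentiableAt.comp w ((hd _ (hext w hw hw1)).differentiableAt (isOpen_Ext.mem_nhds (hext w hw hw1)))
        (differentiableAt_inv hw)
    refine h3.congr_of_eventuallyEq ?_
    filter_upwards [isOpen_ne.mem_nhds hw] with v hv
    exact hDw v hv
  have han : AnalyticAt ℂ D 0 :=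
    Complex.analyticAt_of_differentiable_on_punctured_nhds_of_continuousAt hdiff hcont
  have hnz : ¬ ∀ᶠ w in 𝓝 (0 : ℂ), D w = 0 := by
    intro hz
    obtain ⟨w, ⟨hw1, hw2⟩, hw3⟩ :=
      (((hz.eventually_nhds.filter_mono nhdsWithin_le_nhds).and hball).and
        (self_mem_nhdsWithin : ∀ᶠ w in 𝓝[≠] (0 : ℂ), w ∈ ({0} : Set ℂ)ᶜ)).exists
    have hw0 : w ≠ 0 := hw3
    apply hne
    refine ⟨w⁻¹, hext w hw0 hw2, ?_⟩
    have hci : Tendsto (fun z : ℂ => z⁻¹) (𝓝 w⁻¹) (𝓝 w) := by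
      have h5 := (continuousAt_inv₀ (inv_ne_zero hw0)).tendsto
      rwa [inv_inv] at h5
    filter_upwards [hci.eventually hw1, isOpen_ne.mem_nhds (inv_ne_zero hw0)] with z hz1 hz2
    rw [hDw _ (inv_ne_zero hz2), inv_inv] at hz1
    exact hz1
  obtain ⟨m, g, hg1, hg2, hg3⟩ := han.exists_eventuallyEq_pow_smul_nonzero_iff.2 hnz
  refine ⟨m, g 0, hg2, ?_⟩
  have hi := inv_tendsto (tendsto_id : Tendsto id (cocompact ℂ) (cocompact ℂ))
  have h6 : Tendsto (fun z : ℂ => g z⁻¹) (cocompact ℂ) (𝓝 (g 0)) := hg1.continuousAt.tendsto.comp hi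
  refine h6.congr' ?_
  filter_upwards [hi.eventually hg3, ne_zero_ev (tendsto_id : Tendsto id (cocompact ℂ) (cocompact ℂ))] with z hz1 hz2
  simp only [id] at hz1 hz2
  rw [hDw _ (inv_ne_zero hz2), inv_inv, sub_zero, smul_eq_mul] at hz1
  rw [hz1, inv_pow]
  have := pow_ne_zero m hz2
  field_simp

end EXTUaux

open EXTUaux in
theorem t_EXTU (h1 : S_BL) (_h2 : S_SIG) (_h3 : S_QFORM) : S_EXTU := by
  intro n hn A f φ φ' hφ hφ'
  by_contra hcon
  have hδd : DifferentiableOn ℂ (fun z => φ z - φ' z) Ext := hφ.diff.sub hφ'.diff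
  have hδ0 : Tendsto (fun z => φ z - φ' z) (cocompact ℂ) (𝓝 0) := by
    have h := hφ.norm.sub hφ'.norm
    rw [sub_zero] at h
    refine h.congr (fun z => ?_)
    ring
  have hne : ¬ ∃ z₀ ∈ Ext, ∀ᶠ z in 𝓝 z₀, φ z - φ' z = 0 := by
    rintro ⟨z₀, hz₀, hz⟩
    apply hcon
    refine AnalyticOnNhd.eqOn_of_preconnected_of_eventuallyEq (hφ.diff.analyticOnNhd isOpen_Ext)
      (hφ'.diff.analyticOnNhd isOpen_Ext) isPreconnected_Ext hz₀ ?_
    filter_upwards [hz] with z hz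
    exact sub_eq_zero.1 hz
  obtain ⟨m, a, ha, hm⟩ := leading hδd hδ0 hne
  obtain ⟨-, -, -, hgr, hfin, -, -, hgr2, -⟩ := h1 n (by omega) A
  obtain ⟨q₀, hq₀, hgr3⟩ := (hgr2 hn).2 2 (by norm_num)
  have hid : Tendsto (fun z : ℂ => z) (cocompact ℂ) (cocompact ℂ) := tendsto_id
  have hnorm : Tendsto (fun z : ℂ => ‖z‖) (cocompact ℂ) atTop := tendsto_norm_cocompact_atTop
  have hz0 : ∀ᶠ z : ℂ in cocompact ℂ, z ≠ 0 := ne_zero_ev hid
  have hz2 : ∀ᶠ z : ℂ in cocompact ℂ, 2 ≤ ‖z‖ := hnorm.eventually_ge_atTop 2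
  have hzd : ∀ᶠ z : ℂ in cocompact ℂ, A.den z ≠ 0 := hfin.isCompact.compl_mem_cocompact
  have hAinf : Tendsto A.ev (cocompact ℂ) (cocompact ℂ) := by
    rw [← Metric.cobounded_eq_cocompact, ← tendsto_norm_atTop_iff_cobounded, Metric.cobounded_eq_cocompact]
    refine tendsto_atTop_mono' _ ?_ hnorm
    filter_upwards [hz2, hzd] with z hz hz'
    exact hgr z (by rw [Ext, mem_ofPred_eq]; linarith) hz'
  have hQ0 : f.Q ≠ 0 := by
    intro h0
    have h4 := f.coprime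
    rw [h0, isCoprime_zero_right] at h4
    have h5 := Polynomial.natDegree_eq_zero_of_isUnit h4
    rw [f.natDegree] at h5
    omega
  set e := f.Q.natDegree with he
  set q := f.Q.coeff e with hq
  have hq0 : q ≠ 0 := by
    rw [hq, he]
    exact Polynomial.leadingCoeff_ne_zero.2 hQ0
  have hen : e < n := (Polynomial.natDegree_lt_iff_degree_lt hQ0).2 f.degree_lt
  obtain ⟨d, hd⟩ : ∃ d, n = e + (d + 1) := ⟨n - e - 1, by omega⟩
  have hPn : f.P.coeff n = 1 := by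
    have h4 := f.monic.coeff_natDegree
    rwa [f.natDegree] at h4
  have ry := ratio hφ.norm
  have ry' := ratio hφ'.norm
  have lP : Tendsto (fun z => f.P.eval (φ z) / z ^ n) (cocompact ℂ) (𝓝 1) := by
    have h := polyLim f.P n f.natDegree.le hid ry
    rwa [hPn] at h
  have lP' : Tendsto (fun z => f.P.eval (φ' z) / z ^ n) (cocompact ℂ) (𝓝 1) := by
    have h := polyLim f.P n f.natDegree.le hid ry'
    rwa [hPn] at h
  have lQ : Tendsto (fun z => f.Q.eval (φ z) / z ^ e) (cocompact ℂ) (𝓝 q) := polyLim f.Q e le_rfl hid ry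
  have lQ' : Tendsto (fun z => f.Q.eval (φ' z) / z ^ e) (cocompact ℂ) (𝓝 q) := polyLim f.Q e le_rfl hid ry'
  have lDP : Tendsto (fun z => dq f.P n (φ z) (φ' z) * z / z ^ n) (cocompact ℂ) (𝓝 (n * 1)) := by
    have h := dqLim f.P n hid ry ry'
    rwa [hPn] at h
  have lDQ : Tendsto (fun z => dq f.Q e (φ z) (φ' z) * z / z ^ e) (cocompact ℂ) (𝓝 (e * q)) :=
    dqLim f.Q e hid ry ry'
  have hsemi : ∀ᶠ z in cocompact ℂ, f.Q.eval (φ z) ≠ 0 ∧ f.Q.eval (φ' z) ≠ 0 ∧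
      φ (A.ev z) * f.Q.eval (φ z) = f.P.eval (φ z) ∧ φ' (A.ev z) * f.Q.eval (φ' z) = f.P.eval (φ' z) := by
    filter_upwards [hz2, hzd] with z hz hz'
    have hzE : z ∈ Ext := by rw [Ext, mem_ofPred_eq]; linarith
    obtain ⟨h4, h5⟩ := hφ.semi z hzE hz'
    obtain ⟨h6, h7⟩ := hφ'.semi z hzE hz'
    refine ⟨h4, h6, ?_, ?_⟩
    · rw [← h5, RMap.ev, div_mul_cancel₀ _ h4]
    · rw [← h7, RMap.ev, div_mul_cancel₀ _ h6]
  have rA := ry.comp hAinf
  have hφA0 : ∀ᶠ z in cocompact ℂ, φ (A.ev z) / A.ev z ≠ 0 := rA.eventually_ne one_ne_zero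
  have lA : Tendsto (fun z => A.ev z / z ^ (d + 1)) (cocompact ℂ) (𝓝 q⁻¹) := by
    have h4 := (lP.div lQ hq0).mul (rA.inv₀ one_ne_zero)
    rw [inv_one, mul_one, one_div] at h4
    refine h4.congr' ?_
    filter_upwards [hz0, hsemi, hφA0] with z hz hz' hz''
    have h5 : A.ev z ≠ 0 := fun h => hz'' (by rw [h, div_zero])
    have h6 : φ (A.ev z) ≠ 0 := fun h => hz'' (by rw [h, zero_div])
    have h7 : z ^ n = z ^ e * z ^ (d + 1) := by rw [← pow_add, hd]
    simp only [Pi.div_apply, Function.comp_apply]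
    rw [← hz'.2.2.1, h7]
    have h8 := hz'.1
    have h9 := pow_ne_zero e hz
    have h10 := pow_ne_zero (d + 1) hz
    field_simp
  have l1 : Tendsto (fun z => ((φ (A.ev z) - φ' (A.ev z)) * A.ev z ^ m) * (f.Q.eval (φ z) / z ^ e) *
      (f.Q.eval (φ' z) / z ^ e)) (cocompact ℂ) (𝓝 (a * q * q)) := ((hm.comp hAinf).mul lQ).mul lQ'
  have l2 : Tendsto (fun z => ((dq f.P n (φ z) (φ' z) * z / z ^ n) * (f.Q.eval (φ' z) / z ^ e) -
      (f.P.eval (φ' z) / z ^ n) * (dq f.Q e (φ z) (φ' z) * z / z ^ e)) * ((φ z - φ' z) * z ^ m) *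
      (A.ev z / z ^ (d + 1)) ^ m) (cocompact ℂ) (𝓝 ((n * 1 * q - 1 * (e * q)) * a * q⁻¹ ^ m)) :=
    (((lDP.mul lQ').sub (lP'.mul lDQ)).mul hm).mul (lA.pow m)
  have l3 : (n * 1 * q - 1 * (e * q)) * a * q⁻¹ ^ m = (d + 1) * q * a * q⁻¹ ^ m := by
    rw [hd]
    push_cast
    ring
  rw [l3] at l2
  have l4 : Tendsto (fun z => (((φ (A.ev z) - φ' (A.ev z)) * A.ev z ^ m) * (f.Q.eval (φ z) / z ^ e) *
      (f.Q.eval (φ' z) / z ^ e)) * z⁻¹ ^ (d * (m + 1))) (cocompact ℂ) (𝓝 ((d + 1) * q * a * q⁻¹ ^ m)) := by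
    refine l2.congr' ?_
    filter_upwards [hz0, hsemi] with z hz hz'
    obtain ⟨h4, h5, h6, h7⟩ := hz'
    have h8 : (φ (A.ev z) - φ' (A.ev z)) * (f.Q.eval (φ z) * f.Q.eval (φ' z)) =
        (dq f.P n (φ z) (φ' z) * f.Q.eval (φ' z) - f.P.eval (φ' z) * dq f.Q e (φ z) (φ' z)) * (φ z - φ' z) := by
      have h9 := dq_mul f.P n f.natDegree.le (φ z) (φ' z)
      have h10 := dq_mul f.Q e le_rfl (φ z) (φ' z)
      linear_combination (f.Q.eval (φ' z)) * h6 - (f.Q.eval (φ z)) * h7 - (f.Q.eval (φ' z)) * h9 +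
        (f.P.eval (φ' z)) * h10
    have h11 : ((φ (A.ev z) - φ' (A.ev z)) * A.ev z ^ m) * (f.Q.eval (φ z) / z ^ e) *
      (f.Q.eval (φ' z) / z ^ e) * z⁻¹ ^ (d * (m + 1)) =
      (φ (A.ev z) - φ' (A.ev z)) * (f.Q.eval (φ z) * f.Q.eval (φ' z)) * A.ev z ^ m * z⁻¹ ^ (d * (m + 1)) /
        (z ^ e * z ^ e) := by
      have := pow_ne_zero e hz
      field_simp
    rw [h11, h8, inv_pow, div_pow]
    have k1 : z ^ n = z ^ e * z ^ d * z := by
      have : z ^ n = z ^ (e + (d + 1)) := congrArg (fun k => z ^ k) hd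
      rw [this]
      ring
    have k3 : (z ^ (d + 1)) ^ m = z ^ (d * (m + 1)) * z ^ m / z ^ d := by
      have := pow_ne_zero d hz
      rw [eq_div_iff this]
      ring
    rw [k1, k3]
    have := pow_ne_zero d hz
    have := pow_ne_zero e hz
    have := pow_ne_zero m hz
    have := pow_ne_zero (d * (m + 1)) hz
    field_simp
  rcases Nat.eq_zero_or_pos d with hd0 | hd0
  · subst hd0
    simp only [zero_mul, pow_zero, mul_one, Nat.cast_zero, zero_add, one_mul] at l4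
    have h4 := tendsto_nhds_unique l1 l4
    have h5 : q ^ (m + 1) = 1 := by
      have h6 : q ^ m * q⁻¹ ^ m = 1 := by rw [← mul_pow, mul_inv_cancel₀ hq0, one_pow]
      have h7 : q * a ≠ 0 := mul_ne_zero hq0 ha
      apply mul_left_cancel₀ h7
      linear_combination (q ^ m) * h4 + (q * a) * h6
    have h6 : ‖q‖ = 1 := by
      have h7 : ‖q‖ ^ (m + 1) = 1 := by rw [← norm_pow, h5, norm_one]
      exact (pow_eq_one_iff_of_nonneg (norm_nonneg _) (by omega)).1 h7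
    have h7 : Tendsto (fun z => ‖A.ev z / z ^ (0 + 1)‖) (cocompact ℂ) (𝓝 ‖q⁻¹‖) := lA.norm
    have h8 : q₀ ≤ ‖q⁻¹‖ := by
      refine ge_of_tendsto h7 ?_
      filter_upwards [hz2, hzd, hz0] with z k1 k2 k3
      have k4 := hgr3 z k1 k2
      rw [zero_add, pow_one, norm_div, le_div_iff₀ (norm_pos_iff.2 k3)]
      exact k4
    rw [norm_inv, h6, inv_one] at h8
    linarith
  · have h4 := l1.mul ((inv_tendsto hid).pow (d * (m + 1)))
    have h5 : d * (m + 1) ≠ 0 := by positivity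
    rw [zero_pow h5, mul_zero] at h4
    have h6 := tendsto_nhds_unique h4 l4
    have h7 : ((d : ℂ) + 1) * q * a * q⁻¹ ^ m ≠ 0 := by
      have : (d : ℂ) + 1 ≠ 0 := by exact_mod_cast Nat.succ_ne_zero d
      exact mul_ne_zero (mul_ne_zero (mul_ne_zero this hq0) ha) (pow_ne_zero _ (inv_ne_zero hq0))
    exact h7 h6.symm

end Pool.Agent.H212.MB
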