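import Pool.Agent.H212.MB.Stm3

/-!
# Job FINAL: final assembly
-/

set_option autoImplicit false

open Filter Metric Set Topology MeasureTheory Polynomial
open scoped ContDiff ComplexConjugate ENNReal

namespace Pool.Agent.H212.MB

namespace FINALaux

/-- the quotient by the equality -/
def quotEq (X : Type) [TopologicalSpace X] : Quot (Eq : X → X → Prop) ≃ₜ X where
  toFun := Quot.lift id (fun _ _ h => h)
  invFun := Quot.mk _
  left_inv := by
    intro q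
    induction q using Quot.ind with
    | mk x => rfl
  right_inv := fun x => rfl
  continuous_toFun := continuous_quot_lift _ continuous_id
  continuous_invFun := continuous_quot_mk

theorem exact {X : Type} {r : X → X → Prop} (hr : Equivalence r) {x y : X}
    (h : Quot.mk r x = Quot.mk r y) : r x y :=
  (hr.eqvGen_iff).1 (Quot.eqvGen_exact h)

end FINALaux

open FINALaux in
theorem t_FINAL (h1 : S_RTOP) (h2 : S_UNIQ) (h3 : S_REL) (h4 : S_CLOS) (h5 : S_EQV) (h6 : S_TRANS)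
    (h7 : S_ASM) : Final := by
  intro n hn A
  have : T2Space (RMap n) := (h1 n).1
  obtain ⟨r1, r2, r3, r4, r5, -⟩ := h3 n hn A
  obtain ⟨c1, c2, c3, c4, c5, c6, c7, c8, k, C, T, -, -, hT, c9⟩ := h4 n hn A
  obtain ⟨-, c2', c3', -⟩ := h4 n hn (zn n)
  obtain ⟨e1, e2, e3⟩ := h5 n hn A
  obtain ⟨z1, z2, z3⟩ := h5 n hn (zn n)
  have cc3' : ∀ f ∈ closure (BB (zn n)), ∃ φ, IsExt (zn n) f φ := c3'
  -- equivalence relations
  have hbd : ∀ A' : Blaschke n, (∀ f ∈ closure (BB A'), ∃ φ, IsExt A' f φ) →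
      (∀ f φ, IsExt A' f φ → QCConj A' f f) → (∀ f f', QCConj A' f f' → QCConj A' f' f) →
      (∀ f f' f'', QCConj A' f f' → QCConj A' f' f'' → QCConj A' f f'') →
      Equivalence (bdRel A') ∧ Equivalence (clRel A') := by
    intro A' a0 a1 a2 a3
    refine ⟨⟨?_, ?_, ?_⟩, ⟨?_, ?_, ?_⟩⟩
    · intro f
      obtain ⟨φ, hφ⟩ := a0 f f.2.1
      exact a1 f φ hφ
    · intro f f' h
      exact a2 _ _ h
    · intro f f' f'' h h'
      exact a3 _ _ _ h h'
    · intro f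
      exact Or.inl rfl
    · rintro f f' (h | ⟨h, h', h''⟩)
      · exact Or.inl h.symm
      · exact Or.inr ⟨h', h, a2 _ _ h''⟩
    · rintro f f' f'' (h | ⟨h, h', h''⟩) (g | ⟨g, g', g''⟩)
      · exact Or.inl (h.trans g)
      · subst h
        exact Or.inr ⟨g, g', g''⟩
      · subst g
        exact Or.inr ⟨h, h', h''⟩
      · exact Or.inr ⟨h, g', a3 _ _ _ h'' g''⟩
  obtain ⟨hbA, hcA⟩ := hbd A c3 e1 e2 e3
  obtain ⟨hbz, hcz⟩ := hbd (zn n) cc3' z1 z2 z3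
  -- membership
  have mB : ∀ p ∈ EE A, (p.1 ∈ BB (zn n) ↔ p.2 ∈ BB A) := by
    rintro ⟨g, f⟩ hp
    constructor
    · intro hg
      obtain ⟨B, _, hB⟩ := c7 g f hp hg
      exact ⟨B, hB⟩
    · intro hf
      obtain ⟨B, hB, _⟩ := c8 g f hp hf
      exact ⟨B, hB⟩
  have mC : ∀ p ∈ EE A, (p.1 ∈ closure (BB (zn n)) ↔ p.2 ∈ closure (BB A)) := by
    rintro ⟨g, f⟩ hp
    have := c4 g f hp
    exact ⟨fun _ => this.2, fun _ => this.1⟩
  have mD : ∀ p ∈ EE A, (p.1 ∈ bd (zn n) ↔ p.2 ∈ bd A) := by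
    intro p hp
    have h := mB p hp
    have h' := mC p hp
    unfold bd
    rw [Set.mem_sdiff, Set.mem_sdiff, h, h']
  -- uniqueness
  have uB : ∀ g f g' f', (g, f) ∈ EE A → (g', f') ∈ EE A → g ∈ BB (zn n) → (g = g' ↔ f = f') := by
    intro g f g' f' h h' hg
    have hR := c7 g f h hg
    have hf : f ∈ BB A := (mB _ h).1 hg
    constructor
    · intro e
      subst e
      exact r4 g f f' hR (c7 g f' h' hg)
    · intro e
      subst e
      exact r5 g g' f hR (c8 g' f h' hf)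
  have uD : ∀ g f g' f', (g, f) ∈ EE A → (g', f') ∈ EE A → (QCConj (zn n) g g' ↔ QCConj A f f') := by
    intro g f g' f' h h'
    obtain ⟨H, φ, φ', hL⟩ := c9 g f h
    obtain ⟨H', φ₁, φ₁', hL'⟩ := c9 g' f' h'
    exact h6 n hn A k C T hT g f g' f' H H' φ φ' φ₁ φ₁' hL hL'
  have uC : ∀ (x x' : closure (BB (zn n))) (y y' : closure (BB A)), ((x : RMap n), (y : RMap n)) ∈ EE A →
      ((x' : RMap n), (y' : RMap n)) ∈ EE A → (clRel (zn n) x x' ↔ clRel A y y') := by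
    intro x x' y y' h h'
    constructor
    · rintro (e | ⟨a, b, c⟩)
      · subst e
        by_cases hx : (x : RMap n) ∈ BB (zn n)
        · exact Or.inl (Subtype.ext ((uB _ _ _ _ h h' hx).1 rfl))
        · have hx' : (x : RMap n) ∈ bd (zn n) := ⟨x.2, hx⟩
          refine Or.inr ⟨(mD _ h).1 hx', (mD _ h').1 hx', (uD _ _ _ _ h h').1 ?_⟩
          exact hbz.refl ⟨x, hx'⟩
      · exact Or.inr ⟨(mD _ h).1 a, (mD _ h').1 b, (uD _ _ _ _ h h').1 c⟩
    · rintro (e | ⟨a, b, c⟩)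
      · subst e
        by_cases hx : (x : RMap n) ∈ BB (zn n)
        · exact Or.inl (Subtype.ext ((uB _ _ _ _ h h' hx).2 rfl))
        · have hx' : (x : RMap n) ∈ bd (zn n) := ⟨x.2, hx⟩
          have hy' : (y : RMap n) ∈ bd A := (mD _ h).1 hx'
          refine Or.inr ⟨hx', (mD _ h').2 hy', (uD _ _ _ _ h h').2 ?_⟩
          exact hbA.refl ⟨y, hy'⟩
      · exact Or.inr ⟨(mD _ h).2 a, (mD _ h').2 b, (uD _ _ _ _ h h').2 c⟩
  -- the three homeomorphisms
  obtain ⟨F₀, hF₀⟩ := h7 (RMap n) (RMap n) (EE A) (BB (zn n)) (BB A) Eq Eq c1 mB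
    (fun x hx => c5 x (subset_closure hx)) (fun y hy => c6 y (subset_closure hy))
    eq_equivalence eq_equivalence
    (fun x x' y y' h h' => by
      rw [Subtype.ext_iff, Subtype.ext_iff]
      exact uB _ _ _ _ h h' x.2)
  obtain ⟨Φ, hΦ⟩ := h7 (RMap n) (RMap n) (EE A) (bd (zn n)) (bd A) (bdRel (zn n)) (bdRel A) c1 mD
    (fun x hx => c5 x hx.1) (fun y hy => c6 y hy.1) hbz hbA
    (fun x x' y y' h h' => uD _ _ _ _ h h')
  obtain ⟨Ψ, hΨ⟩ := h7 (RMap n) (RMap n) (EE A) (closure (BB (zn n))) (closure (BB A)) (clRel (zn n))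
    (clRel A) c1 mC c5 c6 hcz hcA uC
  let F : BB (zn n) ≃ₜ BB A := (quotEq (BB (zn n))).symm.trans (F₀.trans (quotEq (BB A)))
  have hF : ∀ (x : BB (zn n)) (y : BB A), ((x : RMap n), (y : RMap n)) ∈ EE A → F x = y := by
    intro x y hxy
    have := hF₀ x y hxy
    change (quotEq (BB A)) (F₀ (Quot.mk _ x)) = y
    rw [this]
    rfl
  have hFE : ∀ x : BB (zn n), ((x : RMap n), (F x : RMap n)) ∈ EE A := by
    intro x
    obtain ⟨y, hy⟩ := c5 x (subset_closure x.2)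
    have hy0 : y ∈ BB A := (mB _ hy).1 x.2
    rw [hF x ⟨y, hy0⟩ hy]
    exact hy
  refine ⟨?_, hbA, hcA, c2, F, Φ, Ψ, ?_, ?_, ?_⟩
  · intro B
    obtain ⟨f, hf⟩ := r1 B
    exact ⟨f, hf, fun f' hf' => h2 n hn A B f' f hf' hf⟩
  · intro g B hg
    obtain ⟨f, hf⟩ := r1 B
    have hE : ((g : RMap n), f) ∈ EE A := subset_closure ⟨B, hg, hf⟩
    rw [hF g ⟨f, B, hf⟩ hE]
    exact hf
  · intro g
    exact hΨ ⟨g, subset_closure g.2⟩ ⟨F g, subset_closure (F g).2⟩ (hFE g)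
  · intro g f h
    obtain ⟨f', hf'⟩ := c5 g g.2.1
    have hf0 : f' ∈ bd A := (mD _ hf').1 g.2
    have e4 := hΦ g ⟨f', hf0⟩ hf'
    rw [h] at e4
    have e5 : bdRel A f ⟨f', hf0⟩ := exact hbA e4
    have e6 : ofBd A f = ofBd A ⟨f', hf0⟩ := Quot.sound (Or.inr ⟨f.2, hf0, e5⟩)
    rw [e6]
    exact hΨ ⟨g, g.2.1⟩ ⟨f', hf0.1⟩ hf'

end Pool.Agent.H212.MB
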