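import Pool.Agent.H212.MB.Stm2

/-!
# MB FUND: the transition map on the fundamental domain
-/

set_option autoImplicit false

open Filter Metric Set Topology MeasureTheory
open scoped ContDiff ComplexConjugate

namespace Pool.Agent.H212.MB

namespace FUNDaux

/-- primitives of smooth functions of one variable -/
theorem prim1 {h : ℝ → ℝ} (hh : ContDiff ℝ ∞ h) (a : ℝ) :
    ContDiff ℝ ∞ (fun x => ∫ t in a..x, h t) ∧
      ∀ x, HasDerivAt (fun x => ∫ t in a..x, h t) (h x) x := by
  have h1 : ∀ x, HasDerivAt (fun x => ∫ t in a..x, h t) (h x) x := fun x =>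
    (hh.continuous.integral_hasStrictDerivAt a x).hasDerivAt
  refine ⟨?_, h1⟩
  rw [contDiff_infty_iff_deriv]
  refine ⟨fun x => (h1 x).differentiableAt, ?_⟩
  have : deriv (fun x => ∫ t in a..x, h t) = h := funext fun x => (h1 x).deriv
  rw [this]
  exact hh

end FUNDaux

open FUNDaux

theorem t_STEP : S_STEP := by
  intro a b κ hab hκ
  have hL : 0 < b - a := by linarith
  have hκ0 : 0 < κ := by
    by_contra h
    push Not at h
    nlinarith
  have h1κ : 1 / κ < b - a := by rw [div_lt_iff₀ hκ0]; linarith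
  have hκi : 0 < 1 / κ := by positivity
  obtain ⟨δ, hδ⟩ : ∃ δ, δ = (b - a - 1 / κ) / 2 := ⟨_, rfl⟩
  have hδ0 : 0 < δ := by rw [hδ]; linarith
  obtain ⟨χ, hχ⟩ : ∃ χ : ℝ → ℝ, χ = fun u => Real.smoothTransition ((u - a) / δ) *
    Real.smoothTransition ((b - u) / δ) := ⟨_, rfl⟩
  have hχs : ContDiff ℝ ∞ χ := by
    rw [hχ]
    exact (Real.smoothTransition.contDiff.comp ((contDiff_id.sub contDiff_const).div_const δ)).mul
      (Real.smoothTransition.contDiff.comp ((contDiff_const.sub contDiff_id).div_const δ))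
  have hχ0 : ∀ y, 0 ≤ χ y := fun y => by
    rw [hχ]
    exact mul_nonneg (Real.smoothTransition.nonneg _) (Real.smoothTransition.nonneg _)
  have hχ1 : ∀ y, χ y ≤ 1 := fun y => by
    rw [hχ]
    exact mul_le_one₀ (Real.smoothTransition.le_one _) (Real.smoothTransition.nonneg _)
      (Real.smoothTransition.le_one _)
  have hχl : ∀ y, y ≤ a → χ y = 0 := fun y hy => by
    rw [hχ]
    have : Real.smoothTransition ((y - a) / δ) = 0 :=
      Real.smoothTransition.zero_of_nonpos (div_nonpos_of_nonpos_of_nonneg (by linarith) hδ0.le)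
    simp only [this, zero_mul]
  have hχr : ∀ y, b ≤ y → χ y = 0 := fun y hy => by
    rw [hχ]
    have : Real.smoothTransition ((b - y) / δ) = 0 :=
      Real.smoothTransition.zero_of_nonpos (div_nonpos_of_nonpos_of_nonneg (by linarith) hδ0.le)
    simp only [this, mul_zero]
  have hχm : ∀ y, a + δ ≤ y → y ≤ b - δ → χ y = 1 := fun y h2 h3 => by
    rw [hχ]
    have e1 : Real.smoothTransition ((y - a) / δ) = 1 :=
      Real.smoothTransition.one_of_one_le (by rw [le_div_iff₀ hδ0]; linarith)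
    have e2 : Real.smoothTransition ((b - y) / δ) = 1 :=
      Real.smoothTransition.one_of_one_le (by rw [le_div_iff₀ hδ0]; linarith)
    simp only [e1, e2, mul_one]
  have hint : ∀ x y : ℝ, IntervalIntegrable χ volume x y := fun x y =>
    hχs.continuous.intervalIntegrable x y
  have hI : 1 / κ ≤ ∫ y in a..b, χ y := by
    have e1 := intervalIntegral.integral_add_adjacent_intervals (hint a (a + δ))
      (hint (a + δ) (b - δ))
    have e2 := intervalIntegral.integral_add_adjacent_intervals (hint a (b - δ))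
      (hint (b - δ) b)
    have e3 : 0 ≤ ∫ y in a..(a + δ), χ y :=
      intervalIntegral.integral_nonneg (by linarith) (fun y _ => hχ0 y)
    have e4 : 0 ≤ ∫ y in (b - δ)..b, χ y :=
      intervalIntegral.integral_nonneg (by linarith) (fun y _ => hχ0 y)
    have e5 : ∫ y in (a + δ)..(b - δ), χ y = (b - δ) - (a + δ) := by
      have : ∫ y in (a + δ)..(b - δ), χ y = ∫ y in (a + δ)..(b - δ), (1 : ℝ) := by
        refine intervalIntegral.integral_congr fun y hy => ?_
        rw [uIcc_of_le (by linarith)] at hy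
        exact hχm y hy.1 hy.2
      rw [this]
      simp
    rw [e5] at e1
    linarith
  obtain ⟨I, hIdef⟩ : ∃ I, I = ∫ y in a..b, χ y := ⟨_, rfl⟩
  rw [← hIdef] at hI
  have hI0 : 0 < I := by linarith
  obtain ⟨hN, hNd⟩ := prim1 hχs a
  obtain ⟨N, hNdef⟩ : ∃ N : ℝ → ℝ, N = fun x => ∫ t in a..x, χ t := ⟨_, rfl⟩
  rw [← hNdef] at hN hNd
  have hmono : Monotone N := by
    apply monotone_of_deriv_nonneg (fun x => (hNd x).differentiableAt)
    intro x
    rw [(hNd x).deriv]
    exact hχ0 x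
  have hNl : ∀ t, t ≤ a → N t = 0 := by
    intro t ht
    rw [hNdef]
    have : ∫ u in a..t, χ u = ∫ u in a..t, (0 : ℝ) := by
      refine intervalIntegral.integral_congr fun u hu => ?_
      have hu2 : u ≤ a := hu.2.trans (max_le le_rfl ht)
      exact hχl u hu2
    simp only [this]; simp
  have hNr : ∀ t, b ≤ t → N t = I := by
    intro t ht
    rw [hNdef]
    simp only
    rw [← intervalIntegral.integral_add_adjacent_intervals (hint a b) (hint b t), ← hIdef]
    have : ∫ u in b..t, χ u = ∫ u in b..t, (0 : ℝ) := by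
      refine intervalIntegral.integral_congr fun u hu => ?_
      have hu2 : b ≤ u := (le_min le_rfl ht).trans hu.1
      exact hχr u hu2
    rw [this]; simp
  refine ⟨fun t => N t / I, hN.div_const I, fun t ht => by
    show N t / I = 0
    rw [hNl t ht, zero_div], fun t ht => by
    show N t / I = 1
    rw [hNr t ht, div_self hI0.ne'], fun t => ⟨?_, ?_⟩, fun t => ?_⟩
  · show 0 ≤ N t / I
    apply div_nonneg _ hI0.le
    have h1 := hmono (min_le_left t a)
    rw [hNl _ (min_le_right t a)] at h1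
    exact h1
  · show N t / I ≤ 1
    rw [div_le_one hI0]
    have h1 := hmono (le_max_left t b)
    rw [hNr _ (le_max_right t b)] at h1
    exact h1
  · have h1 : deriv (fun t => N t / I) t = χ t / I := ((hNd t).div_const I).deriv
    rw [h1]
    refine ⟨div_nonneg (hχ0 t) hI0.le, ?_⟩
    rw [div_le_iff₀ hI0]
    have h2 := hχ1 t
    have h3 : 1 ≤ κ * I := by
      rw [div_le_iff₀ hκ0] at hI
      linarith
    linarith

namespace FUNDaux

/-- reduction modulo a real period -/
theorem red {β : Type} (S : Set ℝ) {c : ℝ} (hc : 0 < c) (f : ℂ → β)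
    (hf : ∀ w : ℂ, w.im ∈ S → f (w + c) = f w) (w : ℂ) (hw : w.im ∈ S) :
    ∃ w' : ℂ, 0 ≤ w'.re ∧ w'.re ≤ c ∧ w'.im = w.im ∧ f w' = f w := by
  classical
  obtain ⟨g, hg⟩ : ∃ g : ℂ → Option β, g = fun w => if w.im ∈ S then some (f w) else none :=
    ⟨_, rfl⟩
  have hper : Function.Periodic g (c : ℂ) := by
    intro w
    have him : (w + (c : ℂ)).im = w.im := by simp
    rw [hg]
    simp only [him]
    split_ifs with h
    · rw [hf w h]
    · rfl
  obtain ⟨k, hk⟩ : ∃ k : ℤ, k = ⌊w.re / c⌋ := ⟨_, rfl⟩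
  have h1 := hper.sub_int_mul_eq (x := w) k
  have him : (w - (k : ℂ) * (c : ℂ)).im = w.im := by simp
  have hre : (w - (k : ℂ) * (c : ℂ)).re = w.re - k * c := by simp
  refine ⟨w - k * c, ?_, ?_, him, ?_⟩
  · rw [hre, hk]
    have := Int.floor_le (w.re / c)
    rw [le_div_iff₀ hc] at this
    linarith
  · rw [hre, hk]
    have := Int.lt_floor_add_one (w.re / c)
    rw [div_lt_iff₀ hc] at this
    linarith
  · rw [hg] at h1
    simp only [him, hw, if_true] at h1
    exact Option.some_inj.1 h1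

theorem jac {X Y : ℂ → ℝ} {X' Y' : ℂ →L[ℝ] ℝ} {w : ℂ} (hX : HasFDerivAt X X' w)
    (hY : HasFDerivAt Y Y' w) :
    ‖dz (fun w => (X w : ℂ) + (Y w : ℂ) * Complex.I) w‖ ^ 2 -
      ‖dzb (fun w => (X w : ℂ) + (Y w : ℂ) * Complex.I) w‖ ^ 2 =
      X' 1 * Y' Complex.I - X' Complex.I * Y' 1 := by
  have h1 : HasFDerivAt (fun w => (X w : ℂ)) (Complex.ofRealCLM.comp X') w :=
    Complex.ofRealCLM.hasFDerivAt.comp w hX
  have h2 : HasFDerivAt (fun w => (Y w : ℂ)) (Complex.ofRealCLM.comp Y') w :=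
    Complex.ofRealCLM.hasFDerivAt.comp w hY
  have h : HasFDerivAt (fun w => (X w : ℂ) + (Y w : ℂ) * Complex.I)
      (Complex.ofRealCLM.comp X' + (Complex.ofRealCLM.comp Y').smulRight Complex.I) w := by
    have h3 := h2.mul_const Complex.I
    refine (h1.add h3).congr_fderiv ?_
    ext v
    simp [mul_comm]
  unfold dz dzb
  rw [h.fderiv, ← Complex.normSq_eq_norm_sq, ← Complex.normSq_eq_norm_sq, Complex.normSq_apply,
    Complex.normSq_apply]
  simp
  ring

theorem alg {A B q y μ s s' δ E : ℝ} (hA : 0 < A) (hq : 0 < q) (hy : 0 < y)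
    (hs0 : 0 ≤ s) (hs1 : s ≤ 1) (h1 : δ ≤ 1 - s' * μ) (hδ : 0 < δ) (h2 : (1 - δ / 2) * q ≤ y * A)
    (hE : 0 < E) :
    0 < A * (E * (1 - s' * μ + (1 - s) * (y * A / q - 1))) + B * (y * E * (1 - s) * B / q) := by
  have h3 : 1 - δ / 2 ≤ y * A / q := by rwa [le_div_iff₀ hq]
  have h4 : -(δ / 2) ≤ (1 - s) * (y * A / q - 1) := by
    nlinarith
  have h5 : 0 < 1 - s' * μ + (1 - s) * (y * A / q - 1) := by linarith
  have h6 : 0 ≤ B * (y * E * (1 - s) * B / q) := by
    have : B * (y * E * (1 - s) * B / q) = (B * B) * (y * E * (1 - s)) / q := by ring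
    rw [this]
    have h7 : 0 ≤ 1 - s := by linarith
    have h8 : 0 ≤ B * B := mul_self_nonneg B
    positivity
  have h7 : 0 < A * (E * (1 - s' * μ + (1 - s) * (y * A / q - 1))) := by positivity
  linarith

/-- the formula -/
noncomputable def XX (G : ℂ → ℂ) (n : ℕ) (η : ℝ) (σ : ℝ → ℝ) (w : ℂ) : ℝ :=
  (1 - σ (Real.log (w.im / η))) * (G (n * w)).re + σ (Real.log (w.im / η)) * w.re

noncomputable def YY (G : ℂ → ℂ) (n : ℕ) (η : ℝ) (s : ℝ → ℝ) (w : ℂ) : ℝ :=
  w.im * Real.exp ((1 - s (Real.log (w.im / η))) * Real.log ((G (n * w)).im / w.im))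

noncomputable def TT (G : ℂ → ℂ) (n : ℕ) (η : ℝ) (s σ : ℝ → ℝ) (w : ℂ) : ℂ :=
  (XX G n η σ w : ℂ) + (YY G n η s w : ℂ) * Complex.I

theorem TT_im (G : ℂ → ℂ) (n : ℕ) (η : ℝ) (s σ : ℝ → ℝ) (w : ℂ) :
    (TT G n η s σ w).im = YY G n η s w := by
  simp [TT]

theorem TT_of_one {G : ℂ → ℂ} {n : ℕ} {η : ℝ} {s σ : ℝ → ℝ} {w : ℂ}
    (h1 : s (Real.log (w.im / η)) = 1) (h2 : σ (Real.log (w.im / η)) = 1) :
    TT G n η s σ w = w := by
  unfold TT XX YY
  rw [h1, h2]
  simp [Complex.re_add_im]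

theorem TT_of_zero {G : ℂ → ℂ} {n : ℕ} {η : ℝ} {s σ : ℝ → ℝ} {w : ℂ}
    (h1 : s (Real.log (w.im / η)) = 0) (h2 : σ (Real.log (w.im / η)) = 0) (h3 : 0 < w.im)
    (h4 : 0 < (G (n * w)).im) : TT G n η s σ w = G (n * w) := by
  unfold TT XX YY
  rw [h1, h2]
  have h5 : w.im * Real.exp ((1 - 0) * Real.log ((G (n * w)).im / w.im)) = (G (n * w)).im := by
    rw [sub_zero, one_mul, Real.exp_log (by positivity)]
    field_simp
  rw [h5]
  simp [Complex.re_add_im]

theorem hasDeriv_X {G : ℂ → ℂ} {n : ℕ} {η : ℝ} {σ : ℝ → ℝ} {w D : ℂ} (hη : 0 < η)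
    (hσ : ContDiff ℝ ∞ σ) (hD : HasDerivAt G D (n * w)) (hw : 0 < w.im) :
    ∃ X' : ℂ →L[ℝ] ℝ, HasFDerivAt (XX G n η σ) X' w ∧
      X' 1 = (1 - σ (Real.log (w.im / η))) * (D * n).re + σ (Real.log (w.im / η)) ∧
      X' Complex.I = -(1 - σ (Real.log (w.im / η))) * (D * n).im +
        deriv σ (Real.log (w.im / η)) / w.im * (w.re - (G (n * w)).re) := by
  have hGn : HasDerivAt (fun w : ℂ => G (n * w)) (D * n) w := by
    have h1 : HasDerivAt (fun w : ℂ => (n : ℂ) * w) (n : ℂ) w := by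
      simpa using (hasDerivAt_id' w).const_mul (n : ℂ)
    exact HasDerivAt.comp w hD h1
  have hG : HasFDerivAt (fun w : ℂ => G (n * w)) (LL (D * n) 0) w := by
    have := hasFDerivAt_LL (hGn.differentiableAt.restrictScalars ℝ)
    rwa [(dz_of_hasDerivAt hGn).1, (dz_of_hasDerivAt hGn).2] at this
  have hp : HasFDerivAt (fun w : ℂ => (G (n * w)).re) (Complex.reCLM.comp (LL (D * n) 0)) w :=
    Complex.reCLM.hasFDerivAt.comp w hG
  have ht : HasFDerivAt (fun w : ℂ => Real.log (w.im / η))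
      ((w.im / η)⁻¹ • (η⁻¹ • Complex.imCLM)) w := by
    refine HasFDerivAt.log (f := fun w : ℂ => w.im / η) ?_ (by positivity)
    have h1 := (Complex.imCLM.hasFDerivAt (x := w)).mul_const η⁻¹
    exact h1
  have hs : HasFDerivAt (fun w : ℂ => σ (Real.log (w.im / η)))
      (deriv σ (Real.log (w.im / η)) • ((w.im / η)⁻¹ • (η⁻¹ • Complex.imCLM))) w :=
    ((hσ.differentiable (by simp) (Real.log (w.im / η))).hasDerivAt).comp_hasFDerivAt w ht
  have hr : HasFDerivAt (fun w : ℂ => w.re) Complex.reCLM w := Complex.reCLM.hasFDerivAt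
  have h := ((hs.const_sub 1).mul hp).add (hs.mul hr)
  refine ⟨_, h, ?_, ?_⟩
  · simp
  · simp
    field_simp
    ring

theorem hasDeriv_Y {G : ℂ → ℂ} {n : ℕ} {η : ℝ} {s : ℝ → ℝ} {w D : ℂ} (hη : 0 < η)
    (hs : ContDiff ℝ ∞ s) (hD : HasDerivAt G D (n * w)) (hw : 0 < w.im)
    (hq : 0 < (G (n * w)).im) :
    ∃ Y' : ℂ →L[ℝ] ℝ, HasFDerivAt (YY G n η s) Y' w ∧
      Y' 1 = w.im * Real.exp ((1 - s (Real.log (w.im / η))) *
        Real.log ((G (n * w)).im / w.im)) * (1 - s (Real.log (w.im / η))) * (D * n).im /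
        (G (n * w)).im ∧
      Y' Complex.I = Real.exp ((1 - s (Real.log (w.im / η))) *
        Real.log ((G (n * w)).im / w.im)) * (1 - deriv s (Real.log (w.im / η)) *
        Real.log ((G (n * w)).im / w.im) + (1 - s (Real.log (w.im / η))) *
        (w.im * (D * n).re / (G (n * w)).im - 1)) := by
  have hGn : HasDerivAt (fun w : ℂ => G (n * w)) (D * n) w := by
    have h1 : HasDerivAt (fun w : ℂ => (n : ℂ) * w) (n : ℂ) w := by
      simpa using (hasDerivAt_id' w).const_mul (n : ℂ)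
    exact HasDerivAt.comp w hD h1
  have hG : HasFDerivAt (fun w : ℂ => G (n * w)) (LL (D * n) 0) w := by
    have := hasFDerivAt_LL (hGn.differentiableAt.restrictScalars ℝ)
    rwa [(dz_of_hasDerivAt hGn).1, (dz_of_hasDerivAt hGn).2] at this
  have hp : HasFDerivAt (fun w : ℂ => (G (n * w)).im) (Complex.imCLM.comp (LL (D * n) 0)) w :=
    Complex.imCLM.hasFDerivAt.comp w hG
  have ht : HasFDerivAt (fun w : ℂ => Real.log (w.im / η))
      ((w.im / η)⁻¹ • (η⁻¹ • Complex.imCLM)) w := by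
    refine HasFDerivAt.log (f := fun w : ℂ => w.im / η) ?_ (by positivity)
    have h1 := (Complex.imCLM.hasFDerivAt (x := w)).mul_const η⁻¹
    exact h1
  have hs' : HasFDerivAt (fun w : ℂ => s (Real.log (w.im / η)))
      (deriv s (Real.log (w.im / η)) • ((w.im / η)⁻¹ • (η⁻¹ • Complex.imCLM))) w :=
    ((hs.differentiable (by simp) (Real.log (w.im / η))).hasDerivAt).comp_hasFDerivAt w ht
  have hi : HasFDerivAt (fun w : ℂ => w.im) Complex.imCLM w := Complex.imCLM.hasFDerivAt
  have hlq := HasFDerivAt.log hp hq.ne'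
  have hli := HasFDerivAt.log hi hw.ne'
  have hμ := hlq.sub hli
  have h := hi.mul (((hs'.const_sub 1).mul hμ).exp)
  have hopen : ∀ᶠ v in 𝓝 w, 0 < v.im ∧ 0 < (G (n * v)).im :=
    (Complex.continuous_im.continuousAt.eventually (lt_mem_nhds hw)).and
      (hp.continuousAt.eventually (lt_mem_nhds hq))
  have hEq : YY G n η s =ᶠ[𝓝 w] fun w => w.im * Real.exp ((1 - s (Real.log (w.im / η))) *
      (Real.log (G (n * w)).im - Real.log w.im)) := by
    filter_upwards [hopen] with v hv
    unfold YY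
    rw [Real.log_div hv.2.ne' hv.1.ne']
  have hlog : Real.log ((G (n * w)).im / w.im) = Real.log (G (n * w)).im - Real.log w.im :=
    Real.log_div hq.ne' hw.ne'
  refine ⟨_, h.congr_of_eventuallyEq hEq, ?_, ?_⟩
  · rw [hlog]
    simp
    ring
  · rw [hlog]
    simp
    field_simp
    ring

theorem isOpen_SH (η : ℝ) : IsOpen (SH η) :=
  isOpen_lt (continuous_abs.comp Complex.continuous_im) continuous_const

theorem smooth_TT {G : ℂ → ℂ} {n : ℕ} {η : ℝ} {s σ : ℝ → ℝ} {w : ℂ} (hη : 0 < η)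
    (hs : ContDiff ℝ ∞ s) (hσ : ContDiff ℝ ∞ σ) (hG : ContDiffAt ℝ ∞ G (n * w)) (hw : 0 < w.im)
    (hq : 0 < (G (n * w)).im) : ContDiffAt ℝ ∞ (TT G n η s σ) w := by
  have hGn : ContDiffAt ℝ ∞ (fun w : ℂ => G (n * w)) w :=
    ContDiffAt.comp (g := G) (f := fun w : ℂ => (n : ℂ) * w) w hG
      (contDiff_const.mul contDiff_id).contDiffAt
  have ht : ContDiffAt ℝ ∞ (fun w : ℂ => Real.log (w.im / η)) w :=
    ((Complex.imCLM.contDiff.div_const η).contDiffAt).log (by
      show w.im / η ≠ 0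
      positivity)
  have hre : ContDiffAt ℝ ∞ (fun w : ℂ => (G (n * w)).re) w :=
    Complex.reCLM.contDiff.contDiffAt.comp w hGn
  have him : ContDiffAt ℝ ∞ (fun w : ℂ => (G (n * w)).im) w :=
    Complex.imCLM.contDiff.contDiffAt.comp w hGn
  have hst : ContDiffAt ℝ ∞ (fun w : ℂ => s (Real.log (w.im / η))) w :=
    hs.contDiffAt.comp w ht
  have hσt : ContDiffAt ℝ ∞ (fun w : ℂ => σ (Real.log (w.im / η))) w :=
    hσ.contDiffAt.comp w ht
  have hr : ContDiffAt ℝ ∞ (fun w : ℂ => w.re) w := Complex.reCLM.contDiff.contDiffAt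
  have hi : ContDiffAt ℝ ∞ (fun w : ℂ => w.im) w := Complex.imCLM.contDiff.contDiffAt
  have hX : ContDiffAt ℝ ∞ (XX G n η σ) w :=
    ((contDiffAt_const.sub hσt).mul hre).add (hσt.mul hr)
  have hμ : ContDiffAt ℝ ∞ (fun w : ℂ => Real.log ((G (n * w)).im / w.im)) w :=
    (him.div hi hw.ne').log (div_pos hq hw).ne'
  have hY : ContDiffAt ℝ ∞ (YY G n η s) w :=
    hi.mul (((contDiffAt_const.sub hst).mul hμ).exp)
  exact (Complex.ofRealCLM.contDiff.contDiffAt.comp w hX).add
    ((Complex.ofRealCLM.contDiff.contDiffAt.comp w hY).mul contDiffAt_const)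

/-- uniform bounds for the derivative of `G` near the real axis -/
theorem bounds {n : ℕ} (hn : 2 ≤ n) {η₀ : ℝ} {α G : ℂ → ℂ} {η₁ m c : ℝ}
    (hG : InvBr n η₀ α G η₁ m c) {δ : ℝ} (hδ : 0 < δ) (hδ1 : δ ≤ 1) :
    ∃ y0 : ℝ, 0 < y0 ∧ y0 < η₁ ∧ ∀ v : ℂ, 0 < v.im → v.im ≤ y0 →
      0 < (deriv G v).re ∧ (1 - δ / 2) * (G v).im ≤ v.im * (deriv G v).re := by
  have hn0 : (0 : ℝ) < n := by
    have : 0 < n := by omega
    exact_mod_cast this
  have hpos := hG.pos
  have hper0 : 0 < 2 * Real.pi * n := by positivity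
  have hdiff : ∀ v ∈ SH η₁, DifferentiableAt ℂ G v := fun v hv =>
    hG.diff.differentiableAt ((isOpen_SH η₁).mem_nhds hv)
  have hcont : ContinuousOn (deriv G) (SH η₁) :=
    (hG.diff.deriv (isOpen_SH η₁)).continuousOn
  have hperD : ∀ v : ℂ, |v.im| < η₁ → deriv G (v + ((2 * Real.pi * n : ℝ) : ℂ)) = deriv G v := by
    intro v hv
    have h1 : (fun v : ℂ => G (v + ((2 * Real.pi * n : ℝ) : ℂ))) =ᶠ[𝓝 v]
        fun v => G v + 2 * Real.pi := by
      filter_upwards [(isOpen_SH η₁).mem_nhds hv] with u hu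
      have := hG.per u hu
      push_cast
      exact this
    have h2 := h1.deriv_eq
    rw [deriv_comp_add_const, deriv_add_const] at h2
    exact h2
  -- lower bound on the real axis
  obtain ⟨c1, hc1, hc1'⟩ : ∃ c1 : ℝ, 0 < c1 ∧ ∀ x : ℝ, c1 ≤ (deriv G x).re := by
    have hc : ContinuousOn (fun x : ℝ => (deriv G x).re) (Icc 0 (2 * Real.pi * n)) := by
      refine Complex.continuous_re.comp_continuousOn (hcont.comp
        Complex.continuous_ofReal.continuousOn fun x _ => ?_)
      show |(x : ℂ).im| < η₁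
      simpa using hpos
    obtain ⟨x0, -, hx0⟩ := isCompact_Icc.exists_isMinOn (nonempty_Icc.2 hper0.le) hc
    refine ⟨(deriv G x0).re, (hG.der x0).1, fun x => ?_⟩
    obtain ⟨w', h1, h2, h3, h4⟩ := red {y | |y| < η₁} hper0 (deriv G) hperD (x : ℂ) (by
      show |(x : ℂ).im| < η₁
      simpa using hpos)
    have h5 : w' = (w'.re : ℂ) := by
      apply Complex.ext
      · simp
      · rw [h3]; simp
    rw [← h4, h5]
    exact hx0 ⟨h1, h2⟩
  obtain ⟨ε, hε⟩ : ∃ ε, ε = c1 * δ / 4 := ⟨_, rfl⟩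
  have hε0 : 0 < ε := by rw [hε]; positivity
  -- uniform continuity
  obtain ⟨y0, hy0, hy1, hy2⟩ : ∃ y0 : ℝ, 0 < y0 ∧ y0 < η₁ ∧ ∀ v : ℂ, |v.im| ≤ y0 →
      ‖deriv G v - deriv G v.re‖ ≤ ε := by
    obtain ⟨K, hK⟩ : ∃ K : Set ℂ, K = Icc 0 (2 * Real.pi * n) ×ℂ Icc (-(η₁ / 2)) (η₁ / 2) :=
      ⟨_, rfl⟩
    have hKc : IsCompact K := by rw [hK]; exact isCompact_Icc.reProdIm isCompact_Icc
    have hKs : K ⊆ SH η₁ := by
      intro v hv
      rw [hK] at hv
      have h1 := (Complex.mem_reProdIm.1 hv).2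
      show |v.im| < η₁
      rw [abs_lt]
      constructor <;> linarith [h1.1, h1.2]
    have huc := hKc.uniformContinuousOn_of_continuous (hcont.mono hKs)
    rw [Metric.uniformContinuousOn_iff] at huc
    obtain ⟨r, hr, hr'⟩ := huc ε hε0
    refine ⟨min (r / 2) (η₁ / 2), by positivity, (min_le_right _ _).trans_lt (by linarith),
      fun v hv => ?_⟩
    have hv1 : |v.im| ≤ η₁ / 2 := hv.trans (min_le_right _ _)
    have hv2 : |v.im| ≤ r / 2 := hv.trans (min_le_left _ _)
    obtain ⟨w', h1, h2, h3, h4⟩ := red {y | |y| < η₁} hper0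
      (fun v : ℂ => (deriv G v, deriv G (v.re : ℂ))) (by
        intro w hw
        have e1 := hperD w hw
        have e2 := hperD (w.re : ℂ) (by simpa using hpos)
        have e3 : ((w + ((2 * Real.pi * n : ℝ) : ℂ)).re : ℂ) =
            (w.re : ℂ) + ((2 * Real.pi * n : ℝ) : ℂ) := by
          apply Complex.ext <;> simp
        rw [e1, e3, e2]) v (by
        show |v.im| < η₁
        linarith)
    have h5 := congrArg Prod.fst h4
    have h6 := congrArg Prod.snd h4
    simp only at h5 h6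
    rw [← h5, ← h6, ← dist_eq_norm]
    refine (hr' w' ?_ (w'.re : ℂ) ?_ ?_).le
    · rw [hK]
      rw [← h3] at hv1
      exact Complex.mem_reProdIm.2 ⟨⟨h1, h2⟩, abs_le.1 hv1⟩
    · rw [hK]
      refine Complex.mem_reProdIm.2 ⟨⟨by simpa using h1, by simpa using h2⟩, ?_⟩
      simp only [Complex.ofReal_im, mem_Icc]
      constructor <;> linarith
    · rw [dist_eq_norm]
      have h7 : w' - (w'.re : ℂ) = (w'.im : ℂ) * Complex.I := by
        apply Complex.ext <;> simp
      rw [h7, norm_mul, Complex.norm_I, mul_one, Complex.norm_real, h3, Real.norm_eq_abs]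
      linarith
  refine ⟨y0, hy0, hy1, fun v hv0 hv1 => ?_⟩
  have hvabs : |v.im| ≤ y0 := by rwa [abs_of_pos hv0]
  have h1 := hy2 v hvabs
  have h2 := hc1' v.re
  have h3 : |(deriv G v).re - (deriv G v.re).re| ≤ ε := by
    have := Complex.abs_re_le_norm (deriv G v - deriv G v.re)
    rw [Complex.sub_re] at this
    linarith
  rw [abs_le] at h3
  have hεc : ε ≤ c1 / 4 := by
    rw [hε]
    nlinarith
  have h4 : 0 < (deriv G v).re := by linarith [h3.1]
  refine ⟨h4, ?_⟩
  -- the mean value inequality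
  have h5 : (G v).im ≤ ((deriv G v.re).re + ε) * v.im := by
    have hd : ∀ y : ℝ, |y| ≤ y0 → HasDerivAt (fun y : ℝ => (G (v.re + y * Complex.I)).im)
        (deriv G (v.re + y * Complex.I)).re y := by
      intro y hy
      have hmem : (v.re : ℂ) + y * Complex.I ∈ SH η₁ := by
        show |((v.re : ℂ) + y * Complex.I).im| < η₁
        simp only [Complex.add_im, Complex.ofReal_im, Complex.mul_im, Complex.ofReal_re,
          Complex.I_im, Complex.I_re]
        simp only [mul_one, mul_zero, zero_add, add_zero]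
        linarith
      have e1 := (hdiff _ hmem).hasDerivAt
      have e2 : HasDerivAt (fun y : ℝ => (v.re : ℂ) + y * Complex.I) Complex.I y := by
        have := (((hasDerivAt_id' y).ofReal_comp).mul_const Complex.I).const_add (v.re : ℂ)
        simpa using this
      have e3 := (e1.scomp y e2)
      have e4 : HasDerivAt (fun y : ℝ => (G (v.re + y * Complex.I)).im)
          (Complex.imCLM (Complex.I • deriv G (v.re + y * Complex.I))) y :=
        (Complex.imCLM.hasFDerivAt).comp_hasDerivAt y e3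
      refine e4.congr_deriv ?_
      simp
    have habs : ∀ y ∈ Icc (0 : ℝ) v.im, |y| ≤ y0 := by
      intro y hy
      rw [abs_of_nonneg hy.1]
      exact hy.2.trans hv1
    have hmvt := Convex.image_sub_le_mul_sub_of_deriv_le (convex_Icc (0 : ℝ) v.im)
      (f := fun y : ℝ => (G (v.re + y * Complex.I)).im) (C := (deriv G v.re).re + ε)
      (fun y hy => (hd y (habs y hy)).continuousAt.continuousWithinAt)
      (fun y hy => (hd y (habs y (interior_subset hy))).differentiableAt.differentiableWithinAt)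
      (fun y hy => by
        have hy' := habs y (interior_subset hy)
        rw [(hd y hy').deriv]
        have e1 := hy2 (v.re + y * Complex.I) (by simpa using hy')
        have e2 := Complex.abs_re_le_norm (deriv G (v.re + y * Complex.I) -
          deriv G ((v.re + y * Complex.I : ℂ).re : ℂ))
        have e3 : (((v.re : ℂ) + y * Complex.I).re : ℂ) = (v.re : ℂ) := by simp
        rw [e3] at e1 e2
        rw [Complex.sub_re] at e2
        have e4 := (abs_le.1 (e2.trans e1)).2
        linarith) 0 ⟨le_rfl, hv0.le⟩ v.im ⟨hv0.le, le_rfl⟩ hv0.le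
    have hG0 : (G ((v.re : ℂ) + ((0 : ℝ) : ℂ) * Complex.I)).im = 0 := by
      have := hG.real v.re
      simpa using this
    have hGv : (v.re : ℂ) + ((v.im : ℝ) : ℂ) * Complex.I = v := Complex.re_add_im v
    simp only [hG0, hGv, sub_zero] at hmvt
    exact hmvt
  have h6 : (1 - δ / 2) * ((deriv G v.re).re + ε) ≤ (deriv G v.re).re - ε := by
    have e1 : c1 * δ ≤ (deriv G v.re).re * δ := mul_le_mul_of_nonneg_right h2 hδ.le
    have e2 : 0 ≤ δ * ε := by positivity
    nlinarith
  have h7 : (1 - δ / 2) * (G v).im ≤ (1 - δ / 2) * (((deriv G v.re).re + ε) * v.im) :=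
    mul_le_mul_of_nonneg_left h5 (by linarith)
  have h8 : (1 - δ / 2) * ((deriv G v.re).re + ε) * v.im ≤ ((deriv G v.re).re - ε) * v.im :=
    mul_le_mul_of_nonneg_right h6 hv0.le
  have h9 : ((deriv G v.re).re - ε) * v.im ≤ (deriv G v).re * v.im :=
    mul_le_mul_of_nonneg_right (by linarith [h3.1]) hv0.le
  linarith

end FUNDaux

theorem t_FUND (h : S_STEP) : S_FUND := by
  intro n hn η₀ α G η₁ m c hG
  have hn2 : (2 : ℝ) ≤ n := by exact_mod_cast hn
  have hn0 : (0 : ℝ) < n := by linarith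
  have hm := hG.m1
  have hmn := hG.mn
  have hm0 : 0 < m := by linarith
  obtain ⟨Λ, hΛ⟩ : ∃ Λ, Λ = Real.log (n / m) := ⟨_, rfl⟩
  obtain ⟨g, hg⟩ : ∃ g, g = Real.log m := ⟨_, rfl⟩
  have hΛ0 : 0 < Λ := by rw [hΛ]; exact Real.log_pos (by rw [lt_div_iff₀ hm0]; linarith)
  have hg0 : 0 < g := by rw [hg]; exact Real.log_pos hm
  have hsum : Real.log n = Λ + g := by rw [hΛ, hg, Real.log_div hn0.ne' hm0.ne']; ring
  have hden : 0 < Λ + g / 8 := by linarith
  obtain ⟨s, hs, hs0, hs1, hs01, hsd⟩ := h 0 (Λ + g / 4) (1 / (Λ + g / 8)) (by linarith) (by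
    rw [sub_zero, one_div_mul_eq_div, lt_div_iff₀ hden]; linarith)
  obtain ⟨σ, hσ, hσ0, hσ1, hσ01, hσd⟩ := h (Λ + g / 2) (Λ + 3 * g / 4) (8 / g) (by linarith) (by
    have : 8 / g * (Λ + 3 * g / 4 - (Λ + g / 2)) = 2 := by field_simp; ring
    rw [this]; norm_num)
  obtain ⟨δ, hδ⟩ : ∃ δ, δ = 1 - 1 / (Λ + g / 8) * Λ := ⟨_, rfl⟩
  have hκΛ : 1 / (Λ + g / 8) * Λ < 1 := by
    rw [one_div_mul_eq_div, div_lt_one hden]; linarith
  have hκΛ0 : 0 < 1 / (Λ + g / 8) * Λ := by positivity
  have hδ0 : 0 < δ := by linarith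
  have hδ1 : δ ≤ 1 := by linarith
  obtain ⟨y0, hy0, hy1, hb⟩ := bounds hn hG hδ0 hδ1
  obtain ⟨η, hη⟩ : ∃ η : ℝ, η = y0 / n ^ 2 := ⟨_, rfl⟩
  have hη0 : 0 < η := by rw [hη]; positivity
  have hnn : (n : ℝ) * (n * η) = y0 := by rw [hη]; field_simp
  have hnη : n * η < η₁ := by nlinarith
  have hηn : η ≤ n * η := by nlinarith
  obtain ⟨θ, hθ⟩ : ∃ θ, θ = Real.exp (-(g / 4)) := ⟨_, rfl⟩
  have hθ0 : 0 < θ := by rw [hθ]; exact Real.exp_pos _
  have hθ1 : θ < 1 := by
    rw [hθ]
    have := Real.exp_lt_exp.2 (show -(g / 4) < 0 by linarith)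
    rwa [Real.exp_zero] at this
  have hθη : 0 < θ * η := by positivity
  have hθη1 : θ * η < η := by nlinarith
  have hθn : θ * (n * η) < n * η := by
    have : 0 < n * η := by positivity
    nlinarith
  have hlog_top : ∀ y : ℝ, θ * (n * η) < y → Λ + 3 * g / 4 < Real.log (y / η) := by
    intro y hy
    have h1 : Λ + 3 * g / 4 = Real.log (θ * n) := by
      rw [Real.log_mul hθ0.ne' hn0.ne', hsum, hθ, Real.log_exp]; ring
    rw [h1]
    apply Real.log_lt_log (by positivity)
    rw [lt_div_iff₀ hη0]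
    linarith
  have hlog_bot : ∀ y : ℝ, 0 < y → y ≤ η → Real.log (y / η) ≤ 0 := by
    intro y hy hy'
    apply Real.log_nonpos (by positivity)
    rw [div_le_one hη0]
    exact hy'
  have hmem : ∀ w : ℂ, 0 < w.im → n * w.im < η₁ → (n : ℂ) * w ∈ SH η₁ := by
    intro w hw hw'
    show |((n : ℂ) * w).im| < η₁
    have : ((n : ℂ) * w).im = n * w.im := by simp
    rw [this, abs_of_pos (by positivity)]
    exact hw'
  have hnim : ∀ w : ℂ, ((n : ℂ) * w).im = n * w.im := fun w => by simp
  have himG : ∀ w : ℂ, 0 < w.im → n * w.im < η₁ → 0 < (G (n * w)).im := by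
    intro w hw hw'
    have h1 := hG.im_ge _ (hmem w hw hw') (by rw [hnim]; positivity)
    rw [hnim] at h1
    have h2 := hG.cpos
    have h3 : 0 < c * (n * w.im) := by positivity
    linarith
  have hμ : ∀ w : ℂ, 0 < w.im → n * w.im < η₁ → Real.log ((G (n * w)).im / w.im) ≤ Λ := by
    intro w hw hw'
    rw [hΛ]
    apply Real.log_le_log (div_pos (himG w hw hw') hw)
    rw [div_le_div_iff₀ hw hm0]
    have hre : (((n : ℂ) * w).re : ℂ) ∈ SH η₁ := by
      show |((((n : ℂ) * w).re : ℂ)).im| < η₁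
      rw [Complex.ofReal_im, abs_zero]
      exact hG.pos
    have h1 := hG.contr _ (hmem w hw hw') _ hre
    have h2 := hG.real ((n : ℂ) * w).re
    have h3 := Complex.abs_im_le_norm (G (n * w) - G (((n : ℂ) * w).re : ℂ))
    rw [Complex.sub_im, h2, sub_zero, abs_of_pos (himG w hw hw')] at h3
    have h4 : (n : ℂ) * w - (((n : ℂ) * w).re : ℂ) = ((n * w.im : ℝ) : ℂ) * Complex.I := by
      apply Complex.ext <;> simp
    rw [h4, norm_mul, Complex.norm_I, mul_one, Complex.norm_real, Real.norm_eq_abs,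
      abs_of_pos (by positivity)] at h1
    have h5 := h3.trans h1
    rw [le_div_iff₀ hm0] at h5
    linarith
  obtain ⟨T, hT⟩ : ∃ T : ℂ → ℂ, T = TT G n η s σ := ⟨_, rfl⟩
  have hid : ∀ w : ℂ, θ * (n * η) < w.im → T w = w := by
    intro w hw
    have h1 := hlog_top _ hw
    rw [hT]
    exact TT_of_one (hs1 _ (by linarith)) (hσ1 _ (by linarith))
  have hlt : ∀ w : ℂ, w.im ≤ n * η → n * w.im < η₁ := by
    intro w hw
    have : n * w.im ≤ n * (n * η) := mul_le_mul_of_nonneg_left hw hn0.le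
    linarith
  have hlow : ∀ w : ℂ, 0 < w.im → w.im ≤ η → T w = G (n * w) := by
    intro w hw hw'
    have h1 := hlog_bot _ hw hw'
    rw [hT]
    exact TT_of_zero (hs0 _ h1) (hσ0 _ (by linarith)) hw (himG w hw (hlt w (hw'.trans hηn)))
  have hbig : ∀ w : ℂ, ¬ n * w.im < η₁ → n * η < w.im := by
    intro w hw
    by_contra hcon
    push Not at hcon
    exact hw (hlt w hcon)
  have himc : Continuous fun w : ℂ => w.im := Complex.continuous_im
  have hidev : ∀ w : ℂ, θ * (n * η) < w.im → T =ᶠ[𝓝 w] fun w => w := by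
    intro w hw
    filter_upwards [(isOpen_lt continuous_const himc).mem_nhds hw] with v hv
    exact hid v hv
  have hsm : ∀ w : ℂ, 0 < w.im → ContDiffAt ℝ ∞ T w := by
    intro w hw
    by_cases hc : n * w.im < η₁
    · rw [hT]
      refine smooth_TT hη0 hs hσ ?_ hw (himG w hw hc)
      exact ((hG.diff.contDiffOn (isOpen_SH η₁)).contDiffAt
        ((isOpen_SH η₁).mem_nhds (hmem w hw hc))).restrict_scalars ℝ
    · exact contDiffAt_id.congr_of_eventuallyEq (hidev w (hθn.trans (hbig w hc)))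
  have hper : ∀ w : ℂ, 0 < w.im → T (w + 2 * Real.pi) = T w + 2 * Real.pi := by
    intro w hw
    have him : (w + 2 * (Real.pi : ℂ)).im = w.im := by simp
    have hre : (w + 2 * (Real.pi : ℂ)).re = w.re + 2 * Real.pi := by simp
    by_cases hc : n * w.im < η₁
    · have h1 : G (n * (w + 2 * Real.pi)) = G (n * w) + 2 * Real.pi := by
        have := hG.per _ (hmem w hw hc)
        rw [← this]
        congr 1
        ring
      have h2 : (G (n * w) + 2 * (Real.pi : ℂ)).im = (G (n * w)).im := by simp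
      have h3 : (G (n * w) + 2 * (Real.pi : ℂ)).re = (G (n * w)).re + 2 * Real.pi := by simp
      rw [hT]
      unfold TT XX YY
      rw [h1, him, hre, h2, h3]
      push_cast
      ring
    · have h1 := hθn.trans (hbig w hc)
      rw [hid w h1, hid _ (by rw [him]; exact h1)]
  have hpos : ∀ w : ℂ, 0 < w.im → w.im ≤ n * η → ‖dzb T w‖ < ‖dz T w‖ := by
    intro w hw hw'
    have hc := hlt w hw'
    have hq := himG w hw hc
    obtain ⟨b1, b2⟩ := hb (n * w) (by rw [hnim]; positivity) (by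
      rw [hnim, ← hnn]
      exact mul_le_mul_of_nonneg_left hw' hn0.le)
    have hD : HasDerivAt G (deriv G (n * w)) (n * w) :=
      (hG.diff.differentiableAt ((isOpen_SH η₁).mem_nhds (hmem w hw hc))).hasDerivAt
    obtain ⟨X', hX, hX1, hXI⟩ := hasDeriv_X hη0 hσ hD hw
    obtain ⟨Y', hY, hY1, hYI⟩ := hasDeriv_Y hη0 hs hD hw hq
    have hJ := jac hX hY
    have hTT : (fun w => (XX G n η σ w : ℂ) + (YY G n η s w : ℂ) * Complex.I) = T := by
      rw [hT]; rfl
    rw [hTT] at hJ
    have hA : (deriv G (n * w) * n).re = n * (deriv G (n * w)).re := by simp [mul_comm]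
    have hA0 : 0 < (deriv G (n * w) * n).re := by rw [hA]; positivity
    obtain ⟨t, ht⟩ : ∃ t, t = Real.log (w.im / η) := ⟨_, rfl⟩
    rw [← ht] at hX1 hXI hY1 hYI
    have hJpos : 0 < X' 1 * Y' Complex.I - X' Complex.I * Y' 1 := by
      rcases lt_or_ge t (Λ + g / 2) with hlt' | hge
      · have e1 : σ t = 0 := hσ0 t hlt'.le
        have e2 : deriv σ t = 0 := by
          have : σ =ᶠ[𝓝 t] fun _ => (0 : ℝ) := by
            filter_upwards [gt_mem_nhds hlt'] with u hu
            exact hσ0 u (le_of_lt hu)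
          rw [this.deriv_eq]
          simp
        rw [e1] at hX1 hXI
        rw [e2] at hXI
        have hδs : δ ≤ 1 - deriv s t * Real.log ((G (n * w)).im / w.im) := by
          have hsd0 := (hsd t).1
          have hsd1 := (hsd t).2
          have hμw := hμ w hw hc
          rcases le_or_gt (Real.log ((G (n * w)).im / w.im)) 0 with hneg | hpos'
          · have := mul_nonpos_of_nonneg_of_nonpos hsd0 hneg
            linarith
          · have h1 : deriv s t * Real.log ((G (n * w)).im / w.im) ≤ 1 / (Λ + g / 8) * Λ :=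
              mul_le_mul hsd1 hμw hpos'.le (by positivity)
            linarith
        have hal := alg (A := (deriv G (n * w) * n).re) (B := (deriv G (n * w) * n).im)
          (q := (G (n * w)).im) (y := w.im) (μ := Real.log ((G (n * w)).im / w.im))
          (s := s t) (s' := deriv s t) (δ := δ)
          (E := Real.exp ((1 - s t) * Real.log ((G (n * w)).im / w.im))) hA0 hq hw (hs01 t).1
          (hs01 t).2 hδs hδ0 (by
            rw [hA]
            rw [hnim] at b2
            linarith) (Real.exp_pos _)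
        have hX1' : X' 1 = (deriv G (n * w) * n).re := by rw [hX1]; ring
        have hXI' : X' Complex.I = -(deriv G (n * w) * n).im := by
          rw [hXI, zero_div, zero_mul]; ring
        rw [hX1', hXI', hY1, hYI, neg_mul, sub_neg_eq_add]
        exact hal
      · have hgt : Λ + g / 4 < t := by linarith
        have e1 : s t = 1 := hs1 t hgt.le
        have e2 : deriv s t = 0 := by
          have : s =ᶠ[𝓝 t] fun _ => (1 : ℝ) := by
            filter_upwards [lt_mem_nhds hgt] with u hu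
            exact hs1 u (le_of_lt hu)
          rw [this.deriv_eq]
          simp
        rw [e1] at hY1 hYI
        rw [e2] at hYI
        have e3 : Y' 1 = 0 := by rw [hY1]; ring
        have e4 : Y' Complex.I = 1 := by rw [hYI]; simp
        rw [e3, e4, hX1]
        have e5 := (hσ01 t).1
        have e6 := (hσ01 t).2
        rcases e5.eq_or_lt with e7 | e7
        · rw [← e7]
          linarith
        · have : 0 ≤ (1 - σ t) * (deriv G (n * w) * n).re := mul_nonneg (by linarith) hA0.le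
          linarith
    rw [← hJ] at hJpos
    exact lt_of_pow_lt_pow_left₀ 2 (norm_nonneg _) (by linarith)
  have hdzid : ∀ w : ℂ, n * η < w.im → dz T w = 1 ∧ dzb T w = 0 := by
    intro w hw
    obtain ⟨e1, e2⟩ := dz_congr (hidev w (hθn.trans hw))
    rw [e1, e2]
    exact dz_of_hasDerivAt (hasDerivAt_id' w)
  have hdzlow : ∀ w : ℂ, 0 < w.im → w.im < η → dzb T w = 0 := by
    intro w hw hw'
    have hev : T =ᶠ[𝓝 w] fun w => G (n * w) := by
      filter_upwards [(isOpen_lt continuous_const himc).mem_nhds hw,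
        (isOpen_lt himc continuous_const).mem_nhds hw'] with v hv1 hv2
      exact hlow v hv1 (le_of_lt hv2)
    rw [(dz_congr hev).2]
    have hD : HasDerivAt G (deriv G (n * w)) (n * w) :=
      (hG.diff.differentiableAt ((isOpen_SH η₁).mem_nhds
        (hmem w hw (hlt w (hw'.le.trans hηn))))).hasDerivAt
    have hGn : HasDerivAt (fun w : ℂ => G (n * w)) (deriv G (n * w) * n) w := by
      have h1 : HasDerivAt (fun w : ℂ => (n : ℂ) * w) (n : ℂ) w := by
        simpa using (hasDerivAt_id' w).const_mul (n : ℂ)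
      exact HasDerivAt.comp w hD h1
    exact (dz_of_hasDerivAt hGn).2
  have hfper : ∀ w : ℂ, 0 < w.im → fderiv ℝ T (w + ((2 * Real.pi : ℝ) : ℂ)) = fderiv ℝ T w := by
    intro w hw
    have hev : (fun w : ℂ => T (w + ((2 * Real.pi : ℝ) : ℂ))) =ᶠ[𝓝 w]
        fun w => T w + 2 * Real.pi := by
      filter_upwards [(isOpen_lt continuous_const himc).mem_nhds hw] with v hv
      have := hper v hv
      push_cast
      exact this
    have h1 := hev.fderiv_eq (𝕜 := ℝ)
    rw [fderiv_comp_add_right, fderiv_add_const] at h1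
    exact h1
  have h2π : 0 < 2 * Real.pi := by positivity
  have hfc : ∀ w : ℂ, 0 < w.im → ContinuousAt (fderiv ℝ T) w := fun w hw =>
    ((hsm w hw).fderiv_right (m := 0) (by simp)).continuousAt
  obtain ⟨K, hK⟩ : ∃ K : Set ℂ, K = Icc 0 (2 * Real.pi) ×ℂ Icc (θ * η) (n * η) := ⟨_, rfl⟩
  have hKc : IsCompact K := by rw [hK]; exact isCompact_Icc.reProdIm isCompact_Icc
  have hKpos : ∀ w ∈ K, 0 < w.im ∧ w.im ≤ n * η := by
    intro w hw
    rw [hK] at hw
    have h1 := (Complex.mem_reProdIm.1 hw).2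
    exact ⟨hθη.trans_le h1.1, h1.2⟩
  have hKne : K.Nonempty := by
    refine ⟨⟨0, η⟩, ?_⟩
    rw [hK]
    exact Complex.mem_reProdIm.2 ⟨⟨le_rfl, h2π.le⟩, hθη1.le, hηn⟩
  have hdzc : ContinuousOn (fun w => ‖dz T w‖) K := by
    intro w hw
    have h1 := hfc w (hKpos w hw).1
    refine ContinuousAt.continuousWithinAt ?_
    unfold dz
    exact (((h1.clm_apply continuousAt_const).sub (continuousAt_const.mul
      (h1.clm_apply continuousAt_const))).div_const 2).norm
  have hdzbc : ContinuousOn (fun w => ‖dzb T w‖) K := by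
    intro w hw
    have h1 := hfc w (hKpos w hw).1
    refine ContinuousAt.continuousWithinAt ?_
    unfold dzb
    exact (((h1.clm_apply continuousAt_const).add (continuousAt_const.mul
      (h1.clm_apply continuousAt_const))).div_const 2).norm
  have hKd : ∀ w ∈ K, 0 < ‖dz T w‖ := fun w hw =>
    (norm_nonneg _).trans_lt (hpos w (hKpos w hw).1 (hKpos w hw).2)
  obtain ⟨w0, hw0, hmax⟩ := hKc.exists_isMaxOn hKne
    (hdzbc.div hdzc fun w hw => (hKd w hw).ne')
  obtain ⟨k, hk⟩ : ∃ k, k = ‖dzb T w0‖ / ‖dz T w0‖ := ⟨_, rfl⟩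
  have hk0 : 0 ≤ k := by rw [hk]; positivity
  have hk1 : k < 1 := by
    rw [hk, div_lt_one (hKd w0 hw0)]
    exact hpos w0 (hKpos w0 hw0).1 (hKpos w0 hw0).2
  have hKk : ∀ w ∈ K, ‖dzb T w‖ ≤ k * ‖dz T w‖ := by
    intro w hw
    have h1 : ‖dzb T w‖ / ‖dz T w‖ ≤ k := by rw [hk]; exact hmax hw
    rwa [div_le_iff₀ (hKd w hw)] at h1
  have hcK : ContinuousOn (fun w => T w - w) K := fun w hw =>
    ((hsm w (hKpos w hw).1).continuousAt.sub continuousAt_id).continuousWithinAt
  obtain ⟨C, hC⟩ := hKc.exists_bound_of_continuousOn hcK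
  have hC0 : 0 ≤ C := (norm_nonneg _).trans (hC w0 hw0)
  refine ⟨η, θ, k, C, T, hη0, hθ0, hθ1, hk0, hk1, hnη, ?_, ?_, ?_, ?_, ?_, ?_, ?_, ?_, ?_⟩
  · intro w hw
    exact (hsm w (hθη.trans hw)).contDiffWithinAt
  · intro w hw
    exact hper w (hθη.trans hw)
  · exact hid
  · intro w hw hw'
    exact hlow w (hθη.trans hw) hw'
  · intro w hw
    rw [hT, TT_im]
    have := hθη.trans hw
    unfold YY
    positivity
  · intro w hw hw'
    have hw0' := hθη.trans hw
    rw [hT, TT_im]
    unfold YY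
    obtain ⟨t, ht⟩ : ∃ t, t = Real.log (w.im / η) := ⟨_, rfl⟩
    rw [← ht]
    have h1 := hμ w hw0' (hlt w hw')
    have h2 := (hs01 t).1
    have h3 := (hs01 t).2
    have h4 : (1 - s t) * Real.log ((G (n * w)).im / w.im) ≤ Λ := by
      rcases le_or_gt (Real.log ((G (n * w)).im / w.im)) 0 with hneg | hpos'
      · have := mul_nonpos_of_nonneg_of_nonpos (show 0 ≤ 1 - s t by linarith) hneg
        linarith
      · nlinarith
    have h5 : Real.exp ((1 - s t) * Real.log ((G (n * w)).im / w.im)) ≤ n / m := by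
      refine (Real.exp_le_exp.2 h4).trans ?_
      rw [hΛ, Real.exp_log (by positivity)]
    have h6 : (n : ℝ) / m ≤ n := div_le_self hn0.le hm.le
    have h7 : w.im * Real.exp ((1 - s t) * Real.log ((G (n * w)).im / w.im)) ≤ (n * η) * n :=
      mul_le_mul hw' (h5.trans h6) (Real.exp_pos _).le (by positivity)
    linarith
  · intro w hw
    rcases le_or_gt w.im (n * η) with h1 | h1
    · have := hpos w (hθη.trans hw) h1
      intro h0
      rw [h0, norm_zero] at this
      exact absurd this (not_lt.2 (norm_nonneg _))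
    · rw [(hdzid w h1).1]
      exact one_ne_zero
  · intro w hw
    rcases le_or_gt w.im (n * η) with h1 | h1
    · obtain ⟨w', g1, g2, g3, g4⟩ := red (Ioi 0) h2π (fderiv ℝ T) (fun w hw => hfper w hw) w
        (hθη.trans hw)
      have hw'K : w' ∈ K := by
        rw [hK]
        exact Complex.mem_reProdIm.2 ⟨⟨g1, g2⟩, by rw [g3]; exact hw.le, by rw [g3]; exact h1⟩
      have e1 : dz T w' = dz T w := by unfold dz; rw [g4]
      have e2 : dzb T w' = dzb T w := by unfold dzb; rw [g4]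
      have := hKk w' hw'K
      rwa [e1, e2] at this
    · rw [(hdzid w h1).2, norm_zero]
      positivity
  · intro w hw
    rcases le_or_gt w.im (n * η) with h1 | h1
    · obtain ⟨w', g1, g2, g3, g4⟩ := red (Ioi 0) h2π (fun w => T w - w) (fun w hw => by
        have := hper w hw
        push_cast
        rw [this]
        ring) w (hθη.trans hw)
      have hw'K : w' ∈ K := by
        rw [hK]
        exact Complex.mem_reProdIm.2 ⟨⟨g1, g2⟩, by rw [g3]; exact hw.le, by rw [g3]; exact h1⟩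
      have := hC w' hw'K
      have g4' : T w' - w' = T w - w := g4
      rwa [g4'] at this
    · rw [hid w (hθn.trans h1), sub_self, norm_zero]
      exact hC0

end Pool.Agent.H212.MB
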