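import Pool.Agent.H212.MB.Stm3

/-!
# JOB GLUE: gluing
-/

set_option autoImplicit false

open Filter Metric Set Topology

namespace Pool.Agent.H212.MB

namespace GLUEaux

theorem isOpen_Ext : IsOpen Ext := isOpen_lt continuous_const continuous_norm

/-- near the circle `η` stays near the circle -/
theorem near {η : ℂ → ℂ} {ρ : ℝ} (hρ : 1 < ρ)
    (hb : ∀ ζ : ℂ, ‖ζ‖ = 1 → Tendsto η (𝓝[Ext] ζ) (𝓝 ζ)) :
    ∃ ρ' : ℝ, 1 < ρ' ∧ ∀ z : ℂ, 1 < ‖z‖ → ‖z‖ < ρ' → ‖η z‖ < ρ := by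
  by_contra hne
  push Not at hne
  have h1 : ∀ j : ℕ, ∃ z : ℂ, 1 < ‖z‖ ∧ ‖z‖ < 1 + 1 / ((j : ℝ) + 1) ∧ ρ ≤ ‖η z‖ := by
    intro j
    refine hne (1 + 1 / ((j : ℝ) + 1)) ?_
    have : (0 : ℝ) < 1 / ((j : ℝ) + 1) := by positivity
    linarith
  choose z hz1 hz2 hz3 using h1
  have hbd : ∀ j, z j ∈ closedBall (0 : ℂ) 2 := by
    intro j
    rw [mem_closedBall_zero_iff]
    have h2 := hz2 j
    have h3 : 1 / ((j : ℝ) + 1) ≤ 1 := by
      rw [div_le_one (by positivity)]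
      have : (0 : ℝ) ≤ j := Nat.cast_nonneg j
      linarith
    linarith
  obtain ⟨ζ, -, s, hs, hlim⟩ := (isCompact_closedBall (0 : ℂ) 2).tendsto_subseq hbd
  have hn0 : Tendsto (fun j => ‖z j‖) atTop (𝓝 1) := by
    have h4 : Tendsto (fun j : ℕ => 1 + 1 / ((j : ℝ) + 1)) atTop (𝓝 (1 + 0)) :=
      tendsto_const_nhds.add tendsto_one_div_add_atTop_nhds_zero_nat
    rw [add_zero] at h4
    exact tendsto_of_tendsto_of_tendsto_of_le_of_le tendsto_const_nhds h4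
      (fun j => (hz1 j).le) (fun j => (hz2 j).le)
  have hn : ‖ζ‖ = 1 := tendsto_nhds_unique hlim.norm (hn0.comp hs.tendsto_atTop)
  have h2 : Tendsto (z ∘ s) atTop (𝓝[Ext] ζ) :=
    tendsto_nhdsWithin_iff.2 ⟨hlim, Eventually.of_forall fun j => hz1 _⟩
  have h3 := ((hb ζ hn).comp h2).norm
  have h4 : ρ ≤ ‖ζ‖ := ge_of_tendsto h3 (Eventually.of_forall fun j => hz3 _)
  linarith

/-- the displacement in terms of the distance to the complement of the image -/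
theorem dk (h1 : S_SIG) (h2 : S_NE) (h4 : S_DISP) (h5 : S_KOE) {n : ℕ} (hn : 2 ≤ n)
    {ψ η : ℂ → ℂ} {ρ : ℝ} (hψ : Sig ψ) (hρ : 1 < ρ) (hm : MapsTo η Ext Ext)
    (hc : ContinuousOn η Ext) (hp : ∀ z : ℂ, 1 < ‖z‖ → ‖z‖ < ρ → η (z ^ n) = η z ^ n)
    (hb : ∀ ζ : ℂ, ‖ζ‖ = 1 → Tendsto η (𝓝[Ext] ζ) (𝓝 ζ)) (R : ℝ) :
    ∃ C₀ : ℝ, ∀ z ∈ Ext, ‖z‖ ≤ R → ‖ψ (η z) - ψ z‖ ≤ C₀ * infDist (ψ z) (ψ '' Ext)ᶜ := by
  obtain ⟨ρ', c, C, hρ', hc0, hd⟩ := h4 n hn η ρ hρ hm hc hp hb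
  obtain ⟨C', hC'⟩ := h5 ψ hψ c C hc0
  have hK : IsClosed (ψ '' Ext)ᶜ := (h1 ψ hψ).2.2.2.2.2.isClosed
  have hpos : ∀ z ∈ Ext, 0 < infDist (ψ z) (ψ '' Ext)ᶜ := by
    intro z hz
    rw [← hK.notMem_iff_infDist_pos (h2 ψ hψ)]
    intro h
    exact h (mem_image_of_mem _ hz)
  set L : Set ℂ := {z | min ρ' 2 ≤ ‖z‖} ∩ closedBall 0 R with hL
  have hLc : IsCompact L :=
    (isCompact_closedBall _ _).inter_left (isClosed_le continuous_const continuous_norm)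
  have hLE : L ⊆ Ext := by
    intro z hz
    have h3 : min ρ' 2 ≤ ‖z‖ := hz.1
    have h4 : 1 < min ρ' 2 := lt_min hρ' (by norm_num)
    exact h4.trans_le h3
  have hψc : ContinuousOn ψ Ext := hψ.diff.continuousOn
  have hcont : ContinuousOn (fun z => ‖ψ (η z) - ψ z‖ / infDist (ψ z) (ψ '' Ext)ᶜ) L := by
    refine ContinuousOn.div ?_ ?_ ?_
    · exact (((hψc.comp hc hm).sub hψc).norm).mono hLE
    · exact ((continuous_infDist_pt _).comp_continuousOn hψc).mono hLE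
    · intro z hz
      exact (hpos z (hLE hz)).ne'
  obtain ⟨C₁, hC₁⟩ := hLc.exists_bound_of_continuousOn hcont
  refine ⟨max C' C₁, fun z hz hzR => ?_⟩
  by_cases hz2 : ‖z‖ < min ρ' 2
  · have h6 := hd z hz (hz2.trans_le (min_le_left _ _))
    refine (hC' z (η z) hz (hz2.le.trans (min_le_right _ _)) h6.1 h6.2).trans ?_
    exact mul_le_mul_of_nonneg_right (le_max_left _ _) infDist_nonneg
  · have h6 := hC₁ z ⟨not_lt.1 hz2, by rwa [mem_closedBall_zero_iff]⟩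
    rw [Real.norm_of_nonneg (div_nonneg (norm_nonneg _) infDist_nonneg),
      div_le_iff₀ (hpos z hz)] at h6
    exact h6.trans (mul_le_mul_of_nonneg_right (le_max_right _ _) infDist_nonneg)

open Classical in
/-- the glued map -/
noncomputable def glu (φ φ' M : ℂ → ℂ) (y : ℂ) : ℂ :=
  if y ∈ φ '' Ext then φ' (Function.invFunOn φ Ext y) else M y

theorem glu_img {φ : ℂ → ℂ} (φ' M : ℂ → ℂ) (hi : InjOn φ Ext) {z : ℂ} (hz : z ∈ Ext) :
    glu φ φ' M (φ z) = φ' z := by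
  unfold glu
  rw [if_pos (mem_image_of_mem _ hz), hi.leftInvOn_invFunOn hz]

theorem glu_not {φ φ' M : ℂ → ℂ} {y : ℂ} (hy : y ∉ φ '' Ext) : glu φ φ' M y = M y := by
  unfold glu
  rw [if_neg hy]

theorem inv_cont {φ : ℂ → ℂ} (hop : ∀ U ⊆ Ext, IsOpen U → IsOpen (φ '' U)) (hi : InjOn φ Ext)
    {z : ℂ} (hz : z ∈ Ext) : ContinuousAt (Function.invFunOn φ Ext) (φ z) := by
  have hl := hi.leftInvOn_invFunOn
  intro U hU
  rw [hl hz] at hU
  obtain ⟨V, hVU, hV, hzV⟩ := _root_.mem_nhds_iff.1 hU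
  rw [Filter.mem_map, _root_.mem_nhds_iff]
  refine ⟨φ '' (V ∩ Ext), ?_, hop _ inter_subset_right (hV.inter isOpen_Ext),
    mem_image_of_mem _ ⟨hzV, hz⟩⟩
  rintro _ ⟨w, hw, rfl⟩
  show Function.invFunOn φ Ext (φ w) ∈ U
  rw [hl hw.2]
  exact hVU hw.1

theorem glu_diff (h1 : S_SIG) {φ φ' : ℂ → ℂ} (hφ : Sig φ) (hφ' : Sig φ') (M : ℂ → ℂ) {z : ℂ}
    (hz : z ∈ Ext) : DifferentiableAt ℂ (glu φ φ' M) (φ z) := by
  have hs := h1 φ hφ
  have hl := hφ.inj.leftInvOn_invFunOn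
  have hnh : φ '' Ext ∈ 𝓝 (φ z) :=
    (hs.2.2.2.2.1 Ext subset_rfl isOpen_Ext).mem_nhds (mem_image_of_mem _ hz)
  have h3 : HasDerivAt (Function.invFunOn φ Ext) (deriv φ z)⁻¹ (φ z) := by
    refine HasDerivAt.of_local_left_inverse (f := φ) (inv_cont hs.2.2.2.2.1 hφ.inj hz) ?_
      (hs.2.2.2.1 z hz) ?_
    · rw [hl hz]
      exact (hφ.diff.differentiableAt (isOpen_Ext.mem_nhds hz)).hasDerivAt
    · filter_upwards [hnh] with y hy
      obtain ⟨w, hw, rfl⟩ := hy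
      rw [hl hw]
  have h4 : DifferentiableAt ℂ φ' (Function.invFunOn φ Ext (φ z)) := by
    rw [hl hz]
    exact hφ'.diff.differentiableAt (isOpen_Ext.mem_nhds hz)
  have h5 := h4.comp (φ z) h3.differentiableAt
  refine h5.congr_of_eventuallyEq ?_
  filter_upwards [hnh] with y hy
  unfold glu
  rw [if_pos hy]
  rfl

theorem norm_le_of {φ : ℂ → ℂ} (h1 : S_SIG) (hφ : Sig φ) {z : ℂ} {R : ℝ} (hR : ‖φ z‖ ≤ R) :
    ‖z‖ ≤ max 2 (R + 1) := by
  rcases le_total ‖z‖ 2 with h | h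
  · exact h.trans (le_max_left _ _)
  · refine le_trans ?_ (le_max_right _ _)
    have h2 := (h1 φ hφ).1 z h
    have h3 : 2 / ‖z‖ ≤ 1 := by
      rw [div_le_one (by linarith)]
      exact h
    have h4 := norm_sub_norm_le z (φ z)
    rw [norm_sub_rev] at h4
    linarith

/-- the bound for the map `M⁻¹ ∘ Θ` -/
theorem bdy (h1 : S_SIG) {φ φ' η' : ℂ → ℂ} (hφ : Sig φ) (M : ℂ ≃ₜ ℂ)
    (hM : ∀ z ∈ Ext, M.symm (φ' z) = φ (η' z))
    (hbd : ∀ R : ℝ, ∃ C₀ : ℝ, ∀ z ∈ Ext, ‖z‖ ≤ R →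
      ‖φ (η' z) - φ z‖ ≤ C₀ * infDist (φ z) (φ '' Ext)ᶜ) (R : ℝ) :
    ∃ C₀ : ℝ, 0 ≤ C₀ ∧ ∀ y : ℂ, ‖y‖ ≤ R →
      ‖M.symm (glu φ φ' M y) - y‖ ≤ C₀ * infDist y (φ '' Ext)ᶜ := by
  obtain ⟨C₀, hC₀⟩ := hbd (max 2 (R + 1))
  refine ⟨max C₀ 0, le_max_right _ _, fun y hy => ?_⟩
  by_cases hy2 : y ∈ φ '' Ext
  · obtain ⟨z, hz, rfl⟩ := hy2
    rw [glu_img _ _ hφ.inj hz, hM z hz]
    exact (hC₀ z hz (norm_le_of h1 hφ hy)).trans
      (mul_le_mul_of_nonneg_right (le_max_left _ _) infDist_nonneg)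
  · rw [glu_not hy2, M.symm_apply_apply, sub_self, norm_zero]
    exact mul_nonneg (le_max_right _ _) infDist_nonneg

theorem glu_cont (h1 : S_SIG) {φ φ' η' : ℂ → ℂ} (hφ : Sig φ) (hφ' : Sig φ') (M : ℂ ≃ₜ ℂ)
    (hM : ∀ z ∈ Ext, M.symm (φ' z) = φ (η' z))
    (hbd : ∀ R : ℝ, ∃ C₀ : ℝ, ∀ z ∈ Ext, ‖z‖ ≤ R →
      ‖φ (η' z) - φ z‖ ≤ C₀ * infDist (φ z) (φ '' Ext)ᶜ) : Continuous (glu φ φ' M) := by
  rw [continuous_iff_continuousAt]
  intro y
  by_cases hy : y ∈ φ '' Ext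
  · obtain ⟨z, hz, rfl⟩ := hy
    exact (glu_diff h1 hφ hφ' M hz).continuousAt
  · obtain ⟨C₀, hC0, hC₀⟩ := bdy h1 hφ M hM hbd (‖y‖ + 1)
    have h2 : Tendsto (fun x => M.symm (glu φ φ' M x) - x) (𝓝 y) (𝓝 0) := by
      rw [tendsto_zero_iff_norm_tendsto_zero]
      have h3 : Tendsto (fun x => C₀ * dist x y) (𝓝 y) (𝓝 (C₀ * dist y y)) :=
        tendsto_const_nhds.mul ((continuous_id.dist continuous_const).tendsto y)
      rw [dist_self, mul_zero] at h3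
      refine squeeze_zero' (Eventually.of_forall fun x => norm_nonneg _) ?_ h3
      filter_upwards [ball_mem_nhds y one_pos] with x hx
      have hx1 : ‖x‖ ≤ ‖y‖ + 1 := by
        rw [mem_ball, dist_eq_norm] at hx
        have := norm_sub_norm_le x y
        linarith
      refine (hC₀ x hx1).trans ?_
      exact mul_le_mul_of_nonneg_left (infDist_le_dist_of_mem hy) hC0
    have h3 : Tendsto (fun x => M.symm (glu φ φ' M x)) (𝓝 y) (𝓝 y) := by
      have h4 := h2.add (tendsto_id (x := 𝓝 y))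
      rw [zero_add] at h4
      refine h4.congr fun x => ?_
      simp
    have h4 : Tendsto (fun x => M (M.symm (glu φ φ' M x))) (𝓝 y) (𝓝 (M y)) :=
      (M.continuous.tendsto y).comp h3
    show Tendsto (glu φ φ' M) (𝓝 y) (𝓝 (glu φ φ' M y))
    rw [glu_not hy]
    refine h4.congr fun x => ?_
    exact M.apply_symm_apply _

end GLUEaux

open GLUEaux in
theorem t_GLUE (h1 : S_SIG) (h2 : S_NE) (h3 : S_ONTO) (h4 : S_DISP) (h5 : S_KOE) (h6 : S_GQS) :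
    S_GLUE := by
  intro n hn φ φ' η M ρ hφ hφ' hM hρ hm hsemi hp hb
  obtain ⟨hbij, hc, hiff, hinv⟩ := h3 φ φ' η M hφ hφ' hm hsemi hb
  set η' : ℂ → ℂ := Function.invFunOn η Ext with hη'
  have hleft : ∀ z ∈ Ext, η' (η z) = z := fun z hz => hbij.injOn.leftInvOn_invFunOn hz
  obtain ⟨hm', hsemi', hb'⟩ := hinv η' hleft
  have hright : ∀ z ∈ Ext, η (η' z) = z := by
    intro z hz
    obtain ⟨w, hw, rfl⟩ := hbij.surjOn hz
    rw [hleft w hw]
  obtain ⟨_, hc', _, _⟩ := h3 φ' φ η' M.symm hφ' hφ hm' hsemi' hb'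
  obtain ⟨ρ₁, hρ₁, hρ₁'⟩ := near hρ hb'
  have hp' : ∀ z : ℂ, 1 < ‖z‖ → ‖z‖ < ρ₁ → η' (z ^ n) = η' z ^ n := by
    intro z hz hz2
    have hw : η' z ∈ Ext := hm' hz
    have h7 := hp (η' z) hw (hρ₁' z hz hz2)
    rw [hright z hz] at h7
    rw [← h7]
    refine hleft _ ?_
    show 1 < ‖η' z ^ n‖
    rw [norm_pow]
    exact one_lt_pow₀ hw (by omega)
  have hb1 := fun R => dk h1 h2 h4 h5 hn hφ hρ₁ hm' hc' hp' hb' R
  have hb2 := fun R => dk h1 h2 h4 h5 hn hφ' hρ hm hc hp hb R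
  have hb3 := fun R => dk h1 h2 h4 h5 hn hφ hρ hm hc hp hb R
  have hcont1 : Continuous (glu φ φ' M) := glu_cont h1 hφ hφ' M hsemi' hb1
  have hcont2 : Continuous (glu φ' φ M.symm) := by
    refine glu_cont (η' := η) h1 hφ' hφ M.symm ?_ hb2
    intro z hz
    rw [Homeomorph.symm_symm]
    exact hsemi z hz
  have hli : ∀ y, glu φ' φ M.symm (glu φ φ' M y) = y := by
    intro y
    by_cases hy : y ∈ φ '' Ext
    · obtain ⟨z, hz, rfl⟩ := hy
      rw [glu_img _ _ hφ.inj hz, glu_img _ _ hφ'.inj hz]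
    · rw [glu_not hy, glu_not (fun h => hy ((hiff y).1 h)), M.symm_apply_apply]
  have hri : ∀ y, glu φ φ' M (glu φ' φ M.symm y) = y := by
    intro y
    by_cases hy : y ∈ φ' '' Ext
    · obtain ⟨z, hz, rfl⟩ := hy
      rw [glu_img _ _ hφ'.inj hz, glu_img _ _ hφ.inj hz]
    · have hy2 : M.symm y ∉ φ '' Ext := by
        intro h
        apply hy
        have := (hiff (M.symm y)).2 h
        rwa [M.apply_symm_apply] at this
      rw [glu_not hy, glu_not hy2, M.apply_symm_apply]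
  let Θ : ℂ ≃ₜ ℂ :=
    { toFun := glu φ φ' M
      invFun := glu φ' φ M.symm
      left_inv := hli
      right_inv := hri
      continuous_toFun := hcont1
      continuous_invFun := hcont2 }
  have hΘ : ∀ y, Θ y = glu φ φ' M y := fun y => rfl
  have hΘs : ∀ y, Θ.symm y = glu φ' φ M.symm y := fun y => rfl
  have hs := h1 φ hφ
  have hs' := h1 φ' hφ'
  have hKc : IsCompact (φ '' Ext)ᶜ := hs.2.2.2.2.2
  have hopen : IsOpen (φ '' Ext) := hs.2.2.2.2.1 Ext subset_rfl isOpen_Ext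
  -- bounded displacement of `Θ`
  obtain ⟨C₁, hC₁⟩ := hKc.exists_bound_of_continuousOn
    (f := fun z => M z - z) ((M.continuous.sub continuous_id).continuousOn)
  refine ⟨Θ, ?_, ?_, ?_⟩
  · refine h6 (φ '' Ext)ᶜ (φ' '' Ext)ᶜ M Θ (max C₁ 6) hKc (h2 φ hφ) ?_ hM ?_ ?_ ?_ ?_
    · ext y
      constructor
      · rintro ⟨x, hx, rfl⟩ h
        exact hx ((hiff x).1 h)
      · intro hy
        refine ⟨M.symm y, ?_, M.apply_symm_apply y⟩
        intro h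
        apply hy
        have := (hiff (M.symm y)).2 h
        rwa [M.apply_symm_apply] at this
    · intro z hz
      rw [hΘ, glu_not hz]
    · intro y hy
      rw [compl_compl] at hy
      obtain ⟨z, hz, rfl⟩ := hy
      exact (glu_diff h1 hφ hφ' M hz).differentiableWithinAt
    · intro y
      rw [hΘ]
      by_cases hy : y ∈ φ '' Ext
      · obtain ⟨z, hz, rfl⟩ := hy
        rw [glu_img _ _ hφ.inj hz]
        refine le_trans ?_ (le_max_right _ _)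
        rcases le_total ‖z‖ 2 with h | h
        · have h7 := hs.2.2.1 z hz h
          have h8 := hs'.2.2.1 z hz h
          have := norm_sub_le (φ' z) (φ z)
          linarith
        · have h7 := hs.1 z h
          have h8 := hs'.1 z h
          have h9 : 2 / ‖z‖ ≤ 1 := by
            rw [div_le_one (by linarith)]
            exact h
          have h10 : φ' z - φ z = (φ' z - z) - (φ z - z) := by ring
          rw [h10]
          have := norm_sub_le (φ' z - z) (φ z - z)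
          linarith
      · rw [glu_not hy]
        exact (hC₁ y hy).trans (le_max_left _ _)
    · intro R
      obtain ⟨C₂, hC20, hC₂⟩ := bdy h1 hφ M hsemi' hb1 R
      obtain ⟨C₃, hC₃⟩ := hb3 (max 2 (R + 1))
      refine ⟨max C₂ C₃, fun y hy => ⟨?_, ?_⟩⟩
      · rw [hΘ]
        exact (hC₂ y hy).trans (mul_le_mul_of_nonneg_right (le_max_left _ _) infDist_nonneg)
      · rw [hΘs]
        by_cases hy2 : y ∈ φ '' Ext
        · obtain ⟨z, hz, rfl⟩ := hy2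
          rw [hsemi z hz, glu_img _ _ hφ'.inj (hm hz)]
          exact (hC₃ z hz (norm_le_of h1 hφ hy)).trans
            (mul_le_mul_of_nonneg_right (le_max_right _ _) infDist_nonneg)
        · rw [glu_not (fun h => hy2 ((hiff y).1 h)), M.symm_apply_apply, sub_self, norm_zero]
          exact mul_nonneg (hC20.trans (le_max_left _ _)) infDist_nonneg
  · intro z hz
    rw [hΘ, glu_img _ _ hφ.inj hz]
  · intro z hz
    rw [hΘ, glu_not hz]

end Pool.Agent.H212.MB
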