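import Pool.Agent.H212.MB.Stm3
import Pool.Graph.R_seed8.W746.LD.Koebe

/-!
# Quasisymmetry of the glued map
-/

set_option autoImplicit false

open Filter Metric Set Topology

namespace Pool.Agent.H212.MB

namespace GQSaux

open Pool.Agent.W746.LD

theorem deriv_ne {C0 c0 : ℝ} (kc : KC C0 c0) {Θ : ℂ → ℂ} {U : Set ℂ} (hU : IsOpen U)
    (hd : DifferentiableOn ℂ Θ U) (hi : InjOn Θ U) {w : ℂ} (hw : w ∈ U) : deriv Θ w ≠ 0 := by
  intro h0
  obtain ⟨ρ, hρ, hball⟩ := Metric.isOpen_iff.1 hU w hw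
  have h1 : ∀ z ∈ ball w (ρ / 8), deriv Θ z = 0 := by
    intro z hz
    have hz' : dist z w < ρ / 8 := hz
    have hsub : ball z (ρ / 2) ⊆ U := (ball_subset_ball' (by linarith)).trans hball
    have h2 := (kc.kdist Θ z (ρ / 2) (by linarith) ⟨hd.mono hsub, hi.mono hsub⟩ w
      (by rw [← dist_eq_norm, dist_comm]; linarith)).2
    rw [h0, norm_zero, mul_zero] at h2
    exact norm_le_zero_iff.1 h2
  have hsub : ball w (ρ / 8) ⊆ U := (ball_subset_ball (by linarith)).trans hball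
  have hw' : w ∈ ball w (ρ / 8) := mem_ball_self (by linarith)
  have hy : w + ((ρ / 16 : ℝ) : ℂ) ∈ ball w (ρ / 8) := by
    rw [mem_ball, dist_eq_norm, add_sub_cancel_left, Complex.norm_real, Real.norm_of_nonneg (by linarith)]
    linarith
  have h3 := isOpen_ball.is_const_of_deriv_eq_zero (convex_ball w (ρ / 8)).isPreconnected
    (hd.mono hsub) (fun z hz => h1 z hz) hw' hy
  have h4 := hi (hsub hw') (hsub hy) h3
  have h5 : ((ρ / 16 : ℝ) : ℂ) = 0 := by linear_combination -h4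
  rw [Complex.ofReal_eq_zero] at h5
  linarith

theorem ball_sub {K : Set ℂ} (p : ℂ) {s : ℝ} (hs : s ≤ infDist p K) : ball p s ⊆ Kᶜ := fun _ hz hzK =>
  (disjoint_ball_infDist (x := p) (s := K)).le_bot ⟨ball_subset_ball hs hz, hzK⟩

/-- lower bound -/
theorem low {C0 c0 : ℝ} (kc : KC C0 c0) {K : Set ℂ} {Θ : ℂ ≃ₜ ℂ} (hd : DifferentiableOn ℂ Θ Kᶜ)
    {p q : ℂ} {s : ℝ} (hs : 0 < s) (hsp : s ≤ infDist p K) (hq : s ≤ ‖q - p‖) :
    c0 * s * ‖deriv Θ p‖ ≤ ‖Θ p - Θ q‖ := by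
  refine kc.komit Θ p s hs ⟨hd.mono (ball_sub p hsp), Θ.injective.injOn⟩ _ ?_
  intro w hw hwq
  rw [Θ.injective hwq, mem_ball, dist_eq_norm] at hw
  linarith

/-- upper bound -/
theorem upp {C0 c0 : ℝ} (kc : KC C0 c0) {K : Set ℂ} {Θ : ℂ ≃ₜ ℂ} (hd : DifferentiableOn ℂ Θ Kᶜ)
    {x a : ℂ} (hx : 0 < infDist x K) (ha : ‖a - x‖ ≤ infDist x K / 4) :
    ‖Θ a - Θ x‖ ≤ C0 * ‖deriv Θ x‖ * ‖a - x‖ :=
  kc.lip hx ⟨hd.mono (ball_sub x le_rfl), Θ.injective.injOn⟩ ha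

theorem inv_deriv {C0 c0 : ℝ} (kc : KC C0 c0) {K : Set ℂ} (hK : IsClosed K) {Θ : ℂ ≃ₜ ℂ}
    (hd : DifferentiableOn ℂ Θ Kᶜ) {p : ℂ} (hp : p ∉ K) :
    HasDerivAt Θ.symm (deriv Θ p)⁻¹ (Θ p) := by
  have h1 : HasDerivAt Θ (deriv Θ p) (Θ.symm (Θ p)) := by
    rw [Θ.symm_apply_apply]
    exact (hd.differentiableAt (hK.isOpen_compl.mem_nhds hp)).hasDerivAt
  exact HasDerivAt.of_local_left_inverse Θ.symm.continuous.continuousAt h1
    (deriv_ne kc hK.isOpen_compl hd Θ.injective.injOn hp)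
    (Eventually.of_forall fun y => Θ.apply_symm_apply y)

/-- the distance of the image -/
theorem img {C0 c0 : ℝ} (kc : KC C0 c0) {K : Set ℂ} (hK : IsCompact K) (hKne : K.Nonempty)
    {Θ : ℂ ≃ₜ ℂ} (hd : DifferentiableOn ℂ Θ Kᶜ) {p : ℂ} (hp : p ∉ K) :
    c0 * infDist (Θ p) (Θ '' K) ≤ infDist p K * ‖deriv Θ p‖ := by
  rcases (infDist_nonneg (x := Θ p) (s := Θ '' K)).eq_or_lt with h0 | h0
  · rw [← h0, mul_zero]
    exact mul_nonneg infDist_nonneg (norm_nonneg _)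
  obtain ⟨k₀, hk₀, hdk⟩ := hK.exists_infDist_eq_dist hKne p
  have hu : Univ Θ.symm (Θ p) (infDist (Θ p) (Θ '' K)) := by
    refine ⟨fun y hy => ?_, Θ.symm.injective.injOn⟩
    have hy1 := ball_sub (Θ p) le_rfl hy
    have hy2 : Θ.symm y ∉ K := fun h => hy1 ⟨_, h, Θ.apply_symm_apply y⟩
    have h3 := inv_deriv kc hK.isClosed hd hy2
    rw [Θ.apply_symm_apply] at h3
    exact h3.differentiableAt.differentiableWithinAt
  have h1 := kc.komit Θ.symm (Θ p) _ h0 hu k₀ (by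
    intro w hw hwk
    apply ball_sub (Θ p) le_rfl hw
    exact ⟨k₀, hk₀, by rw [← hwk, Θ.apply_symm_apply]⟩)
  rw [Θ.symm_apply_apply, (inv_deriv kc hK.isClosed hd hp).deriv, norm_inv, ← dist_eq_norm, ← hdk] at h1
  have h2 : 0 < ‖deriv Θ p‖ :=
    norm_pos_iff.2 (deriv_ne kc hK.isClosed.isOpen_compl hd Θ.injective.injOn hp)
  calc c0 * infDist (Θ p) (Θ '' K) = c0 * infDist (Θ p) (Θ '' K) * ‖deriv Θ p‖⁻¹ * ‖deriv Θ p‖ := by
        field_simp
    _ ≤ infDist p K * ‖deriv Θ p‖ := by gcongr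

/-- the lower bound for `N = M.symm ∘ Θ` at a point `p` with `r ≤ 4 E d(p)`, `d(p) ≤ 11 r` -/
theorem lowN {C0 c0 : ℝ} (kc : KC C0 c0) {K : Set ℂ} (hK : IsCompact K) (hKne : K.Nonempty)
    {M Θ : ℂ ≃ₜ ℂ} (hMΘ : ∀ z ∈ K, Θ z = M z) (hd : DifferentiableOn ℂ Θ Kᶜ) {C5 E r : ℝ}
    (_hC5 : 0 < C5)
    (h5 : ∀ x a b : ℂ, ‖a - x‖ ≤ 11 / c0 ^ 2 * ‖b - x‖ → ‖M.symm a - M.symm x‖ ≤ C5 * ‖M.symm b - M.symm x‖)
    {p q : ℂ} (hr : 0 < r) (hE : 1 ≤ E) (hpq : ‖q - p‖ = r) (hp1 : r ≤ 4 * E * infDist p K)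
    (hp2 : infDist p K ≤ 11 * r)
    (hE2 : ‖Θ.symm (M (M.symm (Θ p))) - M.symm (Θ p)‖ ≤ E * infDist (M.symm (Θ p)) K) :
    r ≤ 4 * E * (1 + E) * C5 * ‖M.symm (Θ q) - M.symm (Θ p)‖ := by
  have hdp : 0 < infDist p K := by
    by_contra h
    push Not at h
    have : 4 * E * infDist p K ≤ 0 := mul_nonpos_of_nonneg_of_nonpos (by linarith) h
    linarith
  have hpK : p ∉ K := fun h => by
    rw [infDist_zero_of_mem h] at hdp
    exact lt_irrefl _ hdp
  have h1 : c0 * (infDist p K / 11) * ‖deriv Θ p‖ ≤ ‖Θ p - Θ q‖ :=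
    low kc hd (by positivity) (by linarith) (by rw [hpq]; linarith)
  have h2 := img kc hK hKne hd hpK
  have hc0 := kc.pos
  have himg : Θ '' K = M '' K := image_congr hMΘ
  obtain ⟨y, hy, hyd⟩ := (hK.image Θ.continuous).exists_infDist_eq_dist (hKne.image _) (Θ p)
  have h3 : ‖y - Θ p‖ ≤ 11 / c0 ^ 2 * ‖Θ q - Θ p‖ := by
    rw [← dist_eq_norm, dist_comm, ← hyd, div_mul_eq_mul_div, le_div_iff₀ (by positivity)]
    have h4 : c0 * (c0 * infDist (Θ p) (Θ '' K)) ≤ c0 * (infDist p K * ‖deriv Θ p‖) := by gcongr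
    rw [norm_sub_rev] at h1
    nlinarith
  have h4 := h5 _ _ _ h3
  have h6 : M.symm y ∈ K := by
    rw [himg] at hy
    obtain ⟨k, hk, rfl⟩ := hy
    rwa [M.symm_apply_apply]
  have h7 : infDist (M.symm (Θ p)) K ≤ ‖M.symm y - M.symm (Θ p)‖ := by
    rw [← dist_eq_norm, dist_comm]
    exact infDist_le_dist_of_mem h6
  have h8 : infDist p K ≤ (1 + E) * infDist (M.symm (Θ p)) K := by
    have h9 := infDist_le_infDist_add_dist (x := p) (y := M.symm (Θ p)) (s := K)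
    rw [M.apply_symm_apply, Θ.symm_apply_apply, ← dist_eq_norm] at hE2
    linarith
  calc r ≤ 4 * E * infDist p K := hp1
    _ ≤ 4 * E * ((1 + E) * (C5 * ‖M.symm (Θ q) - M.symm (Θ p)‖)) := by
        gcongr
        refine h8.trans ?_
        gcongr
        exact h7.trans h4
    _ = _ := by ring

end GQSaux

open GQSaux Pool.Agent.W746.LD in
theorem t_GQS (h1 : S_RATIO) (h2 : S_INV) : S_GQS := by
  intro K K' M Θ C₂ hK hKne _ hM hMΘ hd hΘ hloc
  obtain ⟨C0, c0, kc⟩ := exists_KC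
  have hC0 := kc.one_le
  have hc0 := kc.pos
  obtain ⟨CM, hM⟩ := hM
  obtain ⟨CI, hCI, hI⟩ := h2 CM
  have hMi : WQS CI M.symm := hI M.toEquiv hM
  obtain ⟨C5, hC5, h5⟩ := h1 CI (11 / c0 ^ 2)
  have h5' := h5 M.symm hMi
  obtain ⟨RK, hRK⟩ := hK.isBounded.subset_closedBall (0 : ℂ)
  have hRK' : ∀ z ∈ K, ‖z‖ ≤ RK := fun z hz => by simpa using hRK hz
  have hC₂ : 0 ≤ C₂ := (norm_nonneg _).trans (hΘ 0)
  set B : ℝ := 4 * C₂ + 1 with hB
  have hB0 : 0 < B := by positivity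
  obtain ⟨C₀, hC₀⟩ := hloc (RK + 11 * B)
  set E₁ : ℝ := max C₀ 1 with hE₁
  have hE₁1 : 1 ≤ E₁ := le_max_right _ _
  obtain ⟨C₀', hC₀'⟩ := hloc (RK + 11 * B + E₁ * (11 * B))
  set E : ℝ := max C₀' E₁ with hE
  have hE1 : 1 ≤ E := hE₁1.trans (le_max_right _ _)
  have hN1 : ∀ z, ‖z‖ ≤ RK + 11 * B → ‖M.symm (Θ z) - z‖ ≤ E₁ * infDist z K := fun z hz =>
    (hC₀ z hz).1.trans (by gcongr; exacts [infDist_nonneg, le_max_left _ _])
  have hN2 : ∀ z, ‖z‖ ≤ RK + 11 * B → ‖M.symm (Θ z) - z‖ ≤ E * infDist z K := fun z hz =>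
    (hN1 z hz).trans (by gcongr; exacts [infDist_nonneg, le_max_right _ _])
  have hN3 : ∀ z, ‖z‖ ≤ RK + 11 * B → infDist z K ≤ 11 * B →
      ‖Θ.symm (M (M.symm (Θ z))) - M.symm (Θ z)‖ ≤ E * infDist (M.symm (Θ z)) K := by
    intro z hz hz2
    have h3 : ‖M.symm (Θ z)‖ ≤ RK + 11 * B + E₁ * (11 * B) := by
      calc ‖M.symm (Θ z)‖ = ‖z + (M.symm (Θ z) - z)‖ := by congr 1; ring
        _ ≤ ‖z‖ + ‖M.symm (Θ z) - z‖ := norm_add_le _ _
        _ ≤ (RK + 11 * B) + E₁ * (11 * B) := by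
            gcongr
            exact (hN1 z hz).trans (by gcongr)
    refine (hC₀' _ h3).2.trans ?_
    gcongr
    exacts [infDist_nonneg, le_max_left _ _]
  obtain ⟨C6, hC6, h6⟩ := h1 CM ((1 + 21 * E) * (2 + 4 * E * (1 + E) * C5))
  have h6' := h6 M hM
  refine ⟨max (max 4 (C0 / c0)) C6, ?_⟩
  intro x a b hab
  rcases (norm_nonneg (b - x)).eq_or_lt with hr0 | hr0
  · rw [← hr0] at hab
    have hax : a = x := sub_eq_zero.1 (norm_le_zero_iff.1 hab)
    rw [hax, sub_self, norm_zero]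
    positivity
  rcases le_or_gt B ‖b - x‖ with hbig | hsmall
  · -- far points
    have ha : ‖Θ a - Θ x‖ ≤ 2 * ‖b - x‖ := by
      calc ‖Θ a - Θ x‖ = ‖(Θ a - a) + (a - x) - (Θ x - x)‖ := by congr 1; ring
        _ ≤ ‖Θ a - a‖ + ‖a - x‖ + ‖Θ x - x‖ := (norm_sub_le _ _).trans (by gcongr; exact norm_add_le _ _)
        _ ≤ C₂ + ‖b - x‖ + C₂ := by gcongr; exacts [hΘ a, hΘ x]
        _ ≤ 2 * ‖b - x‖ := by linarith
    have hb : ‖b - x‖ ≤ 2 * ‖Θ b - Θ x‖ := by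
      have : ‖b - x‖ ≤ C₂ + ‖Θ b - Θ x‖ + C₂ := by
        calc ‖b - x‖ = ‖(Θ b - Θ x) - (Θ b - b) + (Θ x - x)‖ := by congr 1; ring
          _ ≤ ‖Θ b - Θ x‖ + ‖Θ b - b‖ + ‖Θ x - x‖ := (norm_add_le _ _).trans (by gcongr; exact norm_sub_le _ _)
          _ ≤ ‖Θ b - Θ x‖ + C₂ + C₂ := by gcongr; exacts [hΘ b, hΘ x]
          _ = _ := by ring
      linarith
    calc ‖Θ a - Θ x‖ ≤ 4 * ‖Θ b - Θ x‖ := by linarith
      _ ≤ max (max 4 (C0 / c0)) C6 * ‖Θ b - Θ x‖ := by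
          gcongr
          exact (le_max_left _ _).trans (le_max_left _ _)
  rcases le_or_gt (10 * ‖b - x‖) (infDist x K) with hin | hout
  · -- inside of a disc
    have hdx : 0 < infDist x K := by linarith
    have hup := upp kc hd hdx (a := a) (by linarith)
    have hlo := low kc hd hr0 (by linarith : ‖b - x‖ ≤ infDist x K) (le_refl _)
    rw [norm_sub_rev (Θ x)] at hlo
    calc ‖Θ a - Θ x‖ ≤ C0 * ‖deriv Θ x‖ * ‖a - x‖ := hup
      _ ≤ C0 * ‖deriv Θ x‖ * ‖b - x‖ := by gcongr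
      _ = C0 / c0 * (c0 * ‖b - x‖ * ‖deriv Θ x‖) := by field_simp
      _ ≤ C0 / c0 * ‖Θ b - Θ x‖ := by gcongr
      _ ≤ max (max 4 (C0 / c0)) C6 * ‖Θ b - Θ x‖ := by
          gcongr
          exact (le_max_right _ _).trans (le_max_left _ _)
  · -- the main case
    set r := ‖b - x‖ with hr
    have hda : infDist a K ≤ 11 * r := by
      have h := infDist_le_infDist_add_dist (x := a) (y := x) (s := K)
      rw [dist_eq_norm] at h
      linarith
    have hdb : infDist b K ≤ 11 * r := by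
      have h := infDist_le_infDist_add_dist (x := b) (y := x) (s := K)
      rw [dist_eq_norm] at h
      linarith
    have hnorm : ∀ z, infDist z K ≤ 11 * r → ‖z‖ ≤ RK + 11 * B := by
      intro z hz
      obtain ⟨k, hk, hkd⟩ := hK.exists_infDist_eq_dist hKne z
      rw [hkd, dist_eq_norm] at hz
      calc ‖z‖ = ‖k + (z - k)‖ := by congr 1; ring
        _ ≤ ‖k‖ + ‖z - k‖ := norm_add_le _ _
        _ ≤ RK + 11 * B := add_le_add (hRK' k hk) (by linarith)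
    have hdx : infDist x K ≤ 11 * r := by linarith
    have hxn := hnorm x hdx
    have han := hnorm a hda
    have hbn := hnorm b hdb
    have hNx := hN2 x hxn
    have hNa := hN2 a han
    have hNb := hN2 b hbn
    have hup : ‖M.symm (Θ a) - M.symm (Θ x)‖ ≤ (1 + 21 * E) * r := by
      calc ‖M.symm (Θ a) - M.symm (Θ x)‖ =
          ‖(M.symm (Θ a) - a) + (a - x) - (M.symm (Θ x) - x)‖ := by congr 1; ring
        _ ≤ ‖M.symm (Θ a) - a‖ + ‖a - x‖ + ‖M.symm (Θ x) - x‖ :=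
            (norm_sub_le _ _).trans (by gcongr; exact norm_add_le _ _)
        _ ≤ E * (11 * r) + r + E * (10 * r) := by
            gcongr
            · exact hNa.trans (by gcongr)
            · exact hNx.trans (by gcongr)
        _ = (1 + 21 * E) * r := by ring
    have hlo : r ≤ (2 + 4 * E * (1 + E) * C5) * ‖M.symm (Θ b) - M.symm (Θ x)‖ := by
      have hpos : 0 ≤ 4 * E * (1 + E) * C5 := by positivity
      have hnn := norm_nonneg (M.symm (Θ b) - M.symm (Θ x))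
      by_cases hcase : E * (infDist x K + infDist b K) ≤ r / 2
      · have h7 : r ≤ ‖M.symm (Θ b) - M.symm (Θ x)‖ + E * (infDist x K + infDist b K) := by
          calc r = ‖(M.symm (Θ b) - M.symm (Θ x)) - (M.symm (Θ b) - b) + (M.symm (Θ x) - x)‖ := by
                rw [hr]; congr 1; ring
            _ ≤ ‖M.symm (Θ b) - M.symm (Θ x)‖ + ‖M.symm (Θ b) - b‖ + ‖M.symm (Θ x) - x‖ :=
                (norm_add_le _ _).trans (by gcongr; exact norm_sub_le _ _)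
            _ ≤ ‖M.symm (Θ b) - M.symm (Θ x)‖ + E * infDist b K + E * infDist x K := by gcongr
            _ = _ := by ring
        nlinarith
      · push Not at hcase
        have h8 : r ≤ 4 * E * infDist x K ∨ r ≤ 4 * E * infDist b K := by
          by_contra h9
          push Not at h9
          nlinarith [h9.1, h9.2]
        have h10 : r ≤ 4 * E * (1 + E) * C5 * ‖M.symm (Θ b) - M.symm (Θ x)‖ := by
          rcases h8 with h8 | h8
          · exact lowN kc hK hKne hMΘ hd hC5 h5' hr0 hE1 rfl h8 hdx (hN3 x hxn (by linarith))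
          · have := lowN kc hK hKne hMΘ hd hC5 h5' hr0 hE1 (norm_sub_rev x b) h8 hdb
              (hN3 b hbn (by linarith))
            rwa [norm_sub_rev (M.symm (Θ x))] at this
        linarith
    have h11 : ‖M.symm (Θ a) - M.symm (Θ x)‖ ≤
        (1 + 21 * E) * (2 + 4 * E * (1 + E) * C5) * ‖M.symm (Θ b) - M.symm (Θ x)‖ := by
      refine hup.trans ?_
      rw [mul_assoc]
      gcongr
    have h12 := h6' _ _ _ h11
    simp only [Homeomorph.apply_symm_apply] at h12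
    refine h12.trans ?_
    gcongr
    exact le_max_right _ _

end Pool.Agent.H212.MB
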