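import Pool.Agent.H212.MB.Stm2
import Pool.Graph.R_pool_sql_team_e98a72b3.H28.Univalent

/-!
# Project MB, JOB HALF: the transition map of the half plane by the functional equation
-/

set_option autoImplicit false

open Filter Metric Set Topology MeasureTheory
open scoped ContDiff ComplexConjugate ENNReal

namespace Pool.Agent.H212.MB

namespace HALFaux

/-- the number of steps -/
noncomputable def jx (n : ℕ) (r : ℝ) (w : ℂ) : ℕ := sInf {j : ℕ | r < (n : ℝ) ^ j * w.im}

/-- the transition map -/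
noncomputable def TT (n : ℕ) (G T₁ : ℂ → ℂ) (r : ℝ) (w : ℂ) : ℂ :=
  G^[jx n r w] (T₁ ((n : ℂ) ^ (jx n r w) * w))

theorem im_nmul (n : ℕ) (w : ℂ) : ((n : ℂ) * w).im = n * w.im := by
  rw [Complex.mul_im]
  simp

theorem re_nmul (n : ℕ) (w : ℂ) : ((n : ℂ) * w).re = n * w.re := by
  rw [Complex.mul_re]
  simp

theorem exists_j {n : ℕ} (hn : 2 ≤ n) {y : ℝ} (hy : 0 < y) (r : ℝ) : ∃ j : ℕ, r < (n : ℝ) ^ j * y := by
  have h1 : (1 : ℝ) < n := by exact_mod_cast (by omega : 1 < n)
  obtain ⟨j, hj⟩ := pow_unbounded_of_one_lt (r / y) h1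
  exact ⟨j, by rwa [div_lt_iff₀ hy] at hj⟩

theorem TT_up {n : ℕ} {G T₁ : ℂ → ℂ} {r : ℝ} {w : ℂ} (h : r < w.im) : TT n G T₁ r w = T₁ w := by
  have h1 : jx n r w = 0 := by
    unfold jx
    rw [Nat.sInf_eq_zero]
    left
    simpa using h
  unfold TT
  rw [h1]
  simp

theorem TT_step {n : ℕ} (hn : 2 ≤ n) {G T₁ : ℂ → ℂ} {r : ℝ} {w : ℂ} (h0 : 0 < w.im) (h : w.im ≤ r) :
    TT n G T₁ r w = G (TT n G T₁ r (n * w)) := by
  have h1 : jx n r w = jx n r (n * w) + 1 := by
    unfold jx
    have h2 : 1 ≤ sInf {j : ℕ | r < (n : ℝ) ^ j * w.im} := by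
      rw [Nat.one_le_iff_ne_zero]
      intro h3
      rw [Nat.sInf_eq_zero] at h3
      rcases h3 with h3 | h3
      · have : r < w.im := by simpa using h3
        linarith
      · obtain ⟨j, hj⟩ := exists_j hn h0 r
        have : j ∈ {j : ℕ | r < (n : ℝ) ^ j * w.im} := hj
        rw [h3] at this
        exact this
    rw [← Nat.sInf_add h2]
    congr 2
    ext j
    simp only [Set.mem_ofPred_eq, im_nmul]
    rw [pow_succ, mul_assoc]
  unfold TT
  rw [h1, Function.iterate_succ_apply']
  congr 3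
  rw [pow_succ, mul_assoc]

theorem isOpen_SH (η : ℝ) : IsOpen (SH η) :=
  isOpen_lt (Complex.continuous_im.abs) continuous_const

theorem real_mem_SH {η : ℝ} (h : 0 < η) (x : ℝ) : (x : ℂ) ∈ SH η := by
  change |(x : ℂ).im| < η
  simpa using h

section

variable {n : ℕ} {η₀ : ℝ} {α G : ℂ → ℂ} {η₁ m c η θ k C : ℝ} {T₁ : ℂ → ℂ}

theorem G_im_lt (hG : InvBr n η₀ α G η₁ m c) {u : ℂ} (hu : u ∈ SH η₁) : |(G u).im| ≤ |u.im| / m := by
  have h1 := hG.contr u hu (u.re : ℂ) (real_mem_SH hG.pos u.re)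
  have h2 : u - (u.re : ℂ) = (u.im : ℂ) * Complex.I := by
    apply Complex.ext <;> simp
  rw [h2, norm_mul, Complex.norm_I, mul_one, Complex.norm_real, Real.norm_eq_abs] at h1
  have h3 : |(G u).im| ≤ ‖G u - G (u.re : ℂ)‖ := by
    have := Complex.abs_im_le_norm (G u - G (u.re : ℂ))
    rw [Complex.sub_im, hG.real, sub_zero] at this
    exact this
  exact h3.trans h1

theorem G_good (hG : InvBr n η₀ α G η₁ m c) {u : ℂ} (h0 : 0 < u.im) (h1 : u.im < η₁) :
    0 < (G u).im ∧ (G u).im < η₁ ∧ c * u.im ≤ (G u).im := by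
  have hu : u ∈ SH η₁ := by
    change |u.im| < η₁
    rw [abs_of_pos h0]
    exact h1
  have h2 := hG.im_ge u hu h0.le
  have h3 : 0 < c * u.im := mul_pos hG.cpos h0
  have h4 := G_im_lt hG hu
  rw [abs_of_pos h0] at h4
  have h5 : u.im / m ≤ u.im := div_le_self h0.le hG.m1.le
  have h6 := le_abs_self (G u).im
  exact ⟨by linarith, by linarith, h2⟩

theorem G_deriv_ne (hG : InvBr n η₀ α G η₁ m c) {u : ℂ} (hu : u ∈ SH η₁) : deriv G u ≠ 0 := by
  apply Pool.Agent.H28.Univalent.deriv_ne_zero (isOpen_SH η₁) hG.diff _ hu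
  intro a ha b hb hab
  rw [← hG.inv a ha, ← hG.inv b hb, hab]

variable (hn : 2 ≤ n) (hG : InvBr n η₀ α G η₁ m c) (hF : Fund n G η₁ η θ k C T₁)

include hF in
theorem θη_lt : θ * η < η := by
  have := hF.ηpos
  nlinarith [hF.θ1]

include hF in
theorem θη_pos : 0 < θ * η := mul_pos hF.θpos hF.ηpos

include hn in
theorem n_gt : (2 : ℝ) ≤ n := by exact_mod_cast hn

include hn hF in
theorem TT_eq {w : ℂ} (h0 : 0 < w.im) (h : w.im ≤ η) :
    TT n G T₁ (θ * η) w = G (TT n G T₁ (θ * η) (n * w)) := by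
  have hn' := n_gt hn
  rcases le_or_gt w.im (θ * η) with h1 | h1
  · exact TT_step hn h0 h1
  · have h2 : θ * η < ((n : ℂ) * w).im := by
      rw [im_nmul]
      nlinarith
    rw [TT_up h1, TT_up h2, hF.bot w h1 h, hF.top]
    rw [im_nmul]
    nlinarith

include hn hG hF in
theorem TT_mem {w : ℂ} (h0 : 0 < w.im) (h : w.im ≤ n * η) :
    0 < (TT n G T₁ (θ * η) w).im ∧ (TT n G T₁ (θ * η) w).im < η₁ := by
  have hn' := n_gt hn
  have key : ∀ j : ℕ, ∀ w : ℂ, 0 < w.im → w.im ≤ n * η → θ * η < (n : ℝ) ^ j * w.im →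
      0 < (TT n G T₁ (θ * η) w).im ∧ (TT n G T₁ (θ * η) w).im < η₁ := by
    intro j
    induction j with
    | zero =>
      intro w h0 h h1
      rw [pow_zero, one_mul] at h1
      rw [TT_up h1]
      exact ⟨hF.imp w h1, hF.iml w h1 h⟩
    | succ j ih =>
      intro w h0 h h1
      rcases le_or_gt w.im (θ * η) with h2 | h2
      · rw [TT_step hn h0 h2]
        have h3 := ih (n * w) (by rw [im_nmul]; positivity) (by
          rw [im_nmul]
          have := θη_lt hF
          nlinarith) (by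
          rw [im_nmul, ← mul_assoc, ← pow_succ]
          exact h1)
        have h4 := G_good hG h3.1 h3.2
        exact ⟨h4.1, h4.2.1⟩
      · rw [TT_up h2]
        exact ⟨hF.imp w h2, hF.iml w h2 h⟩
  obtain ⟨j, hj⟩ := exists_j hn h0 (θ * η)
  exact key j w h0 h hj

include hn hG hF in
theorem TT_SH {w : ℂ} (h0 : 0 < w.im) (h : w.im ≤ n * η) : TT n G T₁ (θ * η) w ∈ SH η₁ := by
  obtain ⟨h1, h2⟩ := TT_mem hn hG hF h0 h
  change |_| < η₁
  rwa [abs_of_pos h1]

include hn in
/-- induction over the levels -/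
theorem level_ind {P : ℂ → Prop} {r : ℝ} (hbase : ∀ w : ℂ, r < w.im → P w)
    (hstep : ∀ w : ℂ, 0 < w.im → w.im ≤ r → P (n * w) → P w) {w : ℂ} (h0 : 0 < w.im) : P w := by
  have hn' := n_gt hn
  have key : ∀ j : ℕ, ∀ w : ℂ, 0 < w.im → r < (n : ℝ) ^ j * w.im → P w := by
    intro j
    induction j with
    | zero =>
      intro w h0 h1
      rw [pow_zero, one_mul] at h1
      exact hbase w h1
    | succ j ih =>
      intro w h0 h1
      rcases le_or_gt w.im r with h2 | h2
      · apply hstep w h0 h2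
        apply ih
        · rw [im_nmul]; positivity
        · rw [im_nmul, ← mul_assoc, ← pow_succ]
          exact h1
      · exact hbase w h2
  obtain ⟨j, hj⟩ := exists_j hn h0 r
  exact key j w h0 hj

include hn hG hF in
theorem TT_smooth {w : ℂ} (h0 : 0 < w.im) : ContDiffAt ℝ ∞ (TT n G T₁ (θ * η)) w ∧
    dz (TT n G T₁ (θ * η)) w ≠ 0 ∧
    ‖dzb (TT n G T₁ (θ * η)) w‖ ≤ k * ‖dz (TT n G T₁ (θ * η)) w‖ := by
  have hn' := n_gt hn
  have hθη := θη_lt hF
  refine level_ind (P := fun w => ContDiffAt ℝ ∞ (TT n G T₁ (θ * η)) w ∧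
    dz (TT n G T₁ (θ * η)) w ≠ 0 ∧
    ‖dzb (TT n G T₁ (θ * η)) w‖ ≤ k * ‖dz (TT n G T₁ (θ * η)) w‖) hn (r := θ * η) ?_ ?_ h0
  · intro w hw
    have hop : {w : ℂ | θ * η < w.im} ∈ 𝓝 w :=
      (isOpen_lt continuous_const Complex.continuous_im).mem_nhds hw
    have he : TT n G T₁ (θ * η) =ᶠ[𝓝 w] T₁ := by
      filter_upwards [hop] with v hv
      exact TT_up hv
    obtain ⟨d1, d2⟩ := dz_congr he
    rw [d1, d2]
    exact ⟨(hF.smooth.contDiffAt hop).congr_of_eventuallyEq he, hF.nd w hw, hF.dil w hw⟩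
  · intro w hw0 hw ⟨i1, i2, i3⟩
    have hop : {w : ℂ | 0 < w.im ∧ w.im < η} ∈ 𝓝 w :=
      ((isOpen_lt continuous_const Complex.continuous_im).inter
        (isOpen_lt Complex.continuous_im continuous_const)).mem_nhds ⟨hw0, lt_of_le_of_lt hw hθη⟩
    set T := TT n G T₁ (θ * η) with hT
    have he : T =ᶠ[𝓝 w] G ∘ (T ∘ fun v => (n : ℂ) * v) := by
      filter_upwards [hop] with v hv
      exact TT_eq hn hF hv.1 hv.2.le
    have hmem : T (n * w) ∈ SH η₁ := by
      apply TT_SH hn hG hF
      · rw [im_nmul]; positivity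
      · rw [im_nmul]
        exact mul_le_mul_of_nonneg_left (by linarith) (by positivity)
    have hGa : AnalyticAt ℂ G (T (n * w)) := hG.diff.analyticAt ((isOpen_SH η₁).mem_nhds hmem)
    have hlin : HasDerivAt (fun v : ℂ => (n : ℂ) * v) (n : ℂ) w := by
      simpa using (hasDerivAt_id w).const_mul (n : ℂ)
    have hTd : DifferentiableAt ℝ T (n * w) := i1.differentiableAt (by simp)
    have hd1 : DifferentiableAt ℝ (T ∘ fun v => (n : ℂ) * v) w :=
      DifferentiableAt.comp w hTd (hlin.differentiableAt.restrictScalars ℝ)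
    obtain ⟨d1, d2⟩ := dz_congr he
    obtain ⟨d3, d4⟩ := dz_comp_left (f := T ∘ fun v => (n : ℂ) * v) (g := G) (z := w)
      (d := deriv G (T (n * w))) hGa.differentiableAt.hasDerivAt hd1
    obtain ⟨d5, d6⟩ := dz_comp_right (g := T) (f := fun v => (n : ℂ) * v) (z := w) hTd hlin
    have hne := G_deriv_ne hG hmem
    have hnC : (n : ℂ) ≠ 0 := by
      have : n ≠ 0 := by omega
      exact_mod_cast this
    refine ⟨?_, ?_, ?_⟩
    · refine ContDiffAt.congr_of_eventuallyEq ?_ he
      have hGr : ContDiffAt ℝ ∞ G (T (n * w)) := (hGa.contDiffAt (n := ∞)).restrict_scalars ℝ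
      refine ContDiffAt.comp w hGr (ContDiffAt.comp w i1 ?_)
      exact (contDiffAt_const.mul contDiffAt_id)
    · rw [d1, d3, d5]
      exact mul_ne_zero hne (mul_ne_zero i2 hnC)
    · rw [d1, d2, d3, d4, d5, d6]
      simp only [norm_mul, Complex.norm_conj]
      have h1 : ‖dzb T (↑n * w)‖ * ‖(n : ℂ)‖ ≤ k * ‖dz T (↑n * w)‖ * ‖(n : ℂ)‖ :=
        mul_le_mul_of_nonneg_right i3 (norm_nonneg _)
      calc ‖deriv G (T (↑n * w))‖ * (‖dzb T (↑n * w)‖ * ‖(n : ℂ)‖)
          ≤ ‖deriv G (T (↑n * w))‖ * (k * ‖dz T (↑n * w)‖ * ‖(n : ℂ)‖) :=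
            mul_le_mul_of_nonneg_left h1 (norm_nonneg _)
        _ = _ := by ring


include hF in
theorem T1_per {w : ℂ} (h : θ * η < w.im) (j : ℕ) :
    T₁ (w + 2 * Real.pi * j) = T₁ w + 2 * Real.pi * j := by
  induction j with
  | zero => simp
  | succ j ih =>
    have h1 : w + 2 * Real.pi * ((j + 1 : ℕ) : ℂ) = (w + 2 * Real.pi * j) + 2 * Real.pi := by
      push_cast; ring
    rw [h1, hF.per, ih]
    · push_cast; ring
    · have : (w + 2 * Real.pi * (j : ℂ)).im = w.im := by simp
      rw [this]; exact h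

include hG in
theorem G_per {w : ℂ} (h : w ∈ SH η₁) (j : ℕ) :
    G (w + 2 * Real.pi * n * j) = G w + 2 * Real.pi * j := by
  induction j with
  | zero => simp
  | succ j ih =>
    have h1 : w + 2 * Real.pi * n * ((j + 1 : ℕ) : ℂ) = (w + 2 * Real.pi * n * j) + 2 * Real.pi * n := by
      push_cast; ring
    rw [h1, hG.per, ih]
    · push_cast; ring
    · have : (w + 2 * Real.pi * (n : ℂ) * (j : ℂ)).im = w.im := by simp
      change |(w + 2 * Real.pi * (n : ℂ) * (j : ℂ)).im| < η₁
      rw [this]; exact h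

include hn hG hF in
theorem TT_per' {w : ℂ} (h0 : 0 < w.im) : ∀ j : ℕ,
    TT n G T₁ (θ * η) (w + 2 * Real.pi * j) = TT n G T₁ (θ * η) w + 2 * Real.pi * j := by
  have hθη := θη_lt hF
  have hn' := n_gt hn
  refine level_ind (P := fun w => ∀ j : ℕ,
    TT n G T₁ (θ * η) (w + 2 * Real.pi * j) = TT n G T₁ (θ * η) w + 2 * Real.pi * j) hn
    (r := θ * η) ?_ ?_ h0
  · intro w hw j
    have : (w + 2 * Real.pi * (j : ℂ)).im = w.im := by simp
    rw [TT_up hw, TT_up (by rw [this]; exact hw), T1_per hF hw]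
  · intro w hw0 hw ih j
    have h1 : (w + 2 * Real.pi * (j : ℂ)).im = w.im := by simp
    rw [TT_step hn (by rw [h1]; exact hw0) (by rw [h1]; exact hw), TT_step hn hw0 hw]
    have h2 : (n : ℂ) * (w + 2 * Real.pi * j) = n * w + 2 * Real.pi * ((n * j : ℕ) : ℂ) := by
      push_cast; ring
    rw [h2, ih (n * j)]
    have h3 : TT n G T₁ (θ * η) (n * w) + 2 * Real.pi * ((n * j : ℕ) : ℂ) =
      TT n G T₁ (θ * η) (n * w) + 2 * Real.pi * n * j := by push_cast; ring
    rw [h3, G_per hG]
    apply TT_SH hn hG hF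
    · rw [im_nmul]; positivity
    · rw [im_nmul]
      exact mul_le_mul_of_nonneg_left (by linarith) (by positivity)

include hn hG hF in
theorem TT_per {w : ℂ} (h0 : 0 < w.im) :
    TT n G T₁ (θ * η) (w + 2 * Real.pi) = TT n G T₁ (θ * η) w + 2 * Real.pi := by
  simpa using TT_per' hn hG hF h0 1

include hn hG hF in
theorem T1_lower : ∃ δ₀ : ℝ, 0 < δ₀ ∧ ∀ w : ℂ, θ * η < w.im → δ₀ ≤ (T₁ w).im := by
  have hθη := θη_lt hF
  have hθp := θη_pos hF
  have hηp := hF.ηpos
  have hn' := n_gt hn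
  have hc := hG.cpos
  -- the compact part
  obtain ⟨δ₁, hδ₁, hK⟩ : ∃ δ₁ : ℝ, 0 < δ₁ ∧ ∀ x y : ℝ, x ∈ Icc 0 (2 * Real.pi) → y ∈ Icc η (n * η) →
      δ₁ ≤ (T₁ (x + y * Complex.I)).im := by
    have hcomp : IsCompact (Icc (0 : ℝ) (2 * Real.pi) ×ˢ Icc η (n * η)) := isCompact_Icc.prod isCompact_Icc
    have hne : (Icc (0 : ℝ) (2 * Real.pi) ×ˢ Icc η (n * η)).Nonempty := by
      refine ⟨(0, η), ⟨le_refl _, by positivity⟩, ⟨le_refl _, ?_⟩⟩
      nlinarith
    have hcont : ContinuousOn (fun p : ℝ × ℝ => (T₁ (p.1 + p.2 * Complex.I)).im)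
        (Icc (0 : ℝ) (2 * Real.pi) ×ˢ Icc η (n * η)) := by
      refine Complex.continuous_im.comp_continuousOn ?_
      refine hF.smooth.continuousOn.comp (by fun_prop) ?_
      rintro ⟨x, y⟩ ⟨_, hy⟩
      change θ * η < ((x : ℂ) + y * Complex.I).im
      have : ((x : ℂ) + y * Complex.I).im = y := by simp
      rw [this]
      exact lt_of_lt_of_le hθη hy.1
    obtain ⟨p, hp, hmin⟩ := hcomp.exists_isMinOn hne hcont
    refine ⟨(T₁ (p.1 + p.2 * Complex.I)).im, ?_, ?_⟩
    · apply hF.imp
      have : ((p.1 : ℂ) + p.2 * Complex.I).im = p.2 := by simp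
      rw [this]
      exact lt_of_lt_of_le hθη hp.2.1
    · intro x y hx hy
      exact hmin (show (x, y) ∈ Icc (0 : ℝ) (2 * Real.pi) ×ˢ Icc η (n * η) from ⟨hx, hy⟩)
  refine ⟨min (c * (n * (θ * η))) (min δ₁ (n * η)), by positivity, ?_⟩
  intro w hw
  rcases le_or_gt w.im η with h1 | h1
  · refine (min_le_left _ _).trans ?_
    rw [hF.bot w hw h1]
    have hnw : (n : ℝ) * w.im ≤ n * η := mul_le_mul_of_nonneg_left h1 (by positivity)
    have hmem : (n : ℂ) * w ∈ SH η₁ := by
      change |((n : ℂ) * w).im| < η₁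
      rw [im_nmul, abs_of_pos (by have : 0 < w.im := by linarith
                                  positivity)]
      linarith [hF.small]
    have h2 := hG.im_ge _ hmem (by
      rw [im_nmul]
      have : 0 < w.im := by linarith
      positivity)
    refine le_trans ?_ h2
    rw [im_nmul]
    have : (n : ℝ) * (θ * η) ≤ n * w.im := mul_le_mul_of_nonneg_left hw.le (by positivity)
    exact mul_le_mul_of_nonneg_left this hc.le
  · rcases le_or_gt w.im (n * η) with h2 | h2
    · refine (min_le_right _ _).trans ((min_le_left _ _).trans ?_)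
      have hper : Function.Periodic (fun x : ℝ => (T₁ (x + w.im * Complex.I)).im) (2 * Real.pi) := by
        intro x
        have e1 : (((x + 2 * Real.pi : ℝ) : ℂ) + w.im * Complex.I) = (x + w.im * Complex.I) + 2 * Real.pi := by
          push_cast; ring
        have e2 : ((x : ℂ) + w.im * Complex.I).im = w.im := by simp
        change (T₁ (((x + 2 * Real.pi : ℝ) : ℂ) + w.im * Complex.I)).im = (T₁ (x + w.im * Complex.I)).im
        rw [e1, hF.per _ (by rw [e2]; exact hw)]
        simp
      obtain ⟨y, hy, hxy⟩ := hper.exists_mem_Ico₀ Real.two_pi_pos w.re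
      have e3 : ((w.re : ℂ) + w.im * Complex.I) = w := Complex.re_add_im w
      rw [e3] at hxy
      rw [hxy]
      exact hK y w.im ⟨hy.1, hy.2.le⟩ ⟨h1.le, h2⟩
    · refine (min_le_right _ _).trans ((min_le_right _ _).trans ?_)
      rw [hF.top w ?_]
      · exact h2.le
      · refine lt_trans ?_ h2
        have : 0 < (n : ℝ) * η := by positivity
        nlinarith [hF.θ1]

include hn hG hF in
theorem TT_proper (ε : ℝ) (hε : 0 < ε) : ∃ δ : ℝ, 0 < δ ∧ ∀ w : ℂ, ε ≤ w.im →
    δ ≤ (TT n G T₁ (θ * η) w).im := by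
  have hn' := n_gt hn
  have hθη := θη_lt hF
  obtain ⟨δ₀, hδ₀, h1⟩ := T1_lower hn hG hF
  have key : ∀ j : ℕ, ∃ δ : ℝ, 0 < δ ∧ ∀ w : ℂ, 0 < w.im → θ * η < (n : ℝ) ^ j * w.im →
      δ ≤ (TT n G T₁ (θ * η) w).im := by
    intro j
    induction j with
    | zero =>
      refine ⟨δ₀, hδ₀, fun w _ hw => ?_⟩
      rw [pow_zero, one_mul] at hw
      rw [TT_up hw]
      exact h1 w hw
    | succ j ih =>
      obtain ⟨δ, hδ, h2⟩ := ih
      refine ⟨min δ₀ (c * δ), lt_min hδ₀ (mul_pos hG.cpos hδ), fun w hw0 hw => ?_⟩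
      rcases le_or_gt w.im (θ * η) with h3 | h3
      · refine (min_le_right _ _).trans ?_
        rw [TT_step hn hw0 h3]
        have h4 := h2 (n * w) (by rw [im_nmul]; positivity) (by
          rw [im_nmul, ← mul_assoc, ← pow_succ]; exact hw)
        have h5 := TT_mem hn hG hF (w := n * w) (by rw [im_nmul]; positivity) (by
          rw [im_nmul]
          exact mul_le_mul_of_nonneg_left (by linarith) (by positivity))
        have h6 := (G_good hG h5.1 h5.2).2.2
        exact le_trans (mul_le_mul_of_nonneg_left h4 hG.cpos.le) h6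
      · refine (min_le_left _ _).trans ?_
        rw [TT_up h3]
        exact h1 w h3
  obtain ⟨j, hj⟩ := exists_j hn hε (θ * η)
  obtain ⟨δ, hδ, h2⟩ := key j
  refine ⟨δ, hδ, fun w hw => h2 w (by linarith) ?_⟩
  exact lt_of_lt_of_le hj (mul_le_mul_of_nonneg_left hw (by positivity))

/-- the real inverse branch -/
noncomputable def gR (G : ℂ → ℂ) (x : ℝ) : ℝ := (G x).re

include hG in
theorem gR_eq (x : ℝ) : ((gR G x : ℝ) : ℂ) = G x := by
  apply Complex.ext
  · simp [gR]
  · simp [hG.real x]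

include hG in
theorem gR_lip (x y : ℝ) : |gR G x - gR G y| ≤ |x - y| / m := by
  have h1 := hG.contr x (real_mem_SH hG.pos x) y (real_mem_SH hG.pos y)
  rw [← gR_eq hG, ← gR_eq hG, ← Complex.ofReal_sub, ← Complex.ofReal_sub, Complex.norm_real,
    Complex.norm_real] at h1
  exact h1

include hG in
theorem gR_mono : StrictMono (gR G) := by
  apply strictMono_of_deriv_pos
  intro x
  have h1 : HasDerivAt G (deriv G x) (x : ℂ) :=
    (hG.diff.differentiableAt ((isOpen_SH η₁).mem_nhds (real_mem_SH hG.pos x))).hasDerivAt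
  have h2 := h1.real_of_complex
  have h3 : HasDerivAt (gR G) (deriv G x).re x := h2
  rw [h3.deriv]
  exact (hG.der x).1

include hG in
theorem gR_cont : Continuous (gR G) := by
  have hm := hG.m1
  have : LipschitzWith 1 (gR G) := by
    apply LipschitzWith.of_dist_le_mul
    intro x y
    rw [Real.dist_eq, Real.dist_eq]
    refine (gR_lip hG x y).trans ?_
    simp only [NNReal.coe_one, one_mul]
    exact div_le_self (abs_nonneg _) hm.le
  exact this.continuous

include hG in
theorem gR_per (x : ℝ) (j : ℕ) : gR G (x + 2 * Real.pi * n * j) = gR G x + 2 * Real.pi * j := by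
  have h1 := G_per hG (real_mem_SH hG.pos x) j
  have h2 : ((gR G (x + 2 * Real.pi * n * j) : ℝ) : ℂ) = ((gR G x + 2 * Real.pi * j : ℝ) : ℂ) := by
    rw [gR_eq hG]
    push_cast
    rw [gR_eq hG, h1]
  exact_mod_cast h2

include hG in
theorem gR_bdd : ∃ B : ℝ, ∀ x : ℝ, |gR G (n * x) - x| ≤ B := by
  have hper : Function.Periodic (fun x : ℝ => gR G (n * x) - x) (2 * Real.pi) := by
    intro x
    change gR G (n * (x + 2 * Real.pi)) - (x + 2 * Real.pi) = gR G (n * x) - x
    have h1 := gR_per hG (n * x) 1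
    have h2 : (n : ℝ) * (x + 2 * Real.pi) = n * x + 2 * Real.pi * n * (1 : ℕ) := by
      push_cast; ring
    rw [h2, h1]
    push_cast; ring
  have hcont : ContinuousOn (fun x : ℝ => gR G (n * x) - x) (Icc 0 (2 * Real.pi)) := by
    have := gR_cont hG
    fun_prop
  obtain ⟨B, hB⟩ := isCompact_Icc.exists_bound_of_continuousOn hcont
  refine ⟨B, fun x => ?_⟩
  obtain ⟨y, hy, hxy⟩ := hper.exists_mem_Ico₀ Real.two_pi_pos x
  have := hB y ⟨hy.1, hy.2.le⟩
  rw [← hxy] at this
  exact this

include hG in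
/-- the boundary function -/
theorem exists_u : ∃ (u : ℝ → ℝ) (U : ℝ), Continuous u ∧ (∀ x, |u x| ≤ U) ∧
    ∀ x, x + u x = gR G (n * x + u (n * x)) := by
  obtain ⟨B, hB⟩ := gR_bdd hG
  have hm := hG.m1
  have hm0 : 0 < m := by linarith
  have hgc := gR_cont hG
  let Φ : BoundedContinuousFunction ℝ ℝ → BoundedContinuousFunction ℝ ℝ := fun u =>
    BoundedContinuousFunction.ofNormedAddCommGroup (fun x => gR G (n * x + u (n * x)) - x)
      (by
        have := u.continuous
        fun_prop) (‖u‖ / m + B) (by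
        intro x
        have h1 := gR_lip hG (n * x + u (n * x)) (n * x)
        have h2 : |(n : ℝ) * x + u (n * x) - n * x| ≤ ‖u‖ := by
          rw [add_sub_cancel_left]
          exact u.norm_coe_le_norm (n * x)
        have h3 : |(n : ℝ) * x + u (n * x) - n * x| / m ≤ ‖u‖ / m := by gcongr
        have h4 := hB x
        rw [Real.norm_eq_abs]
        have h5 : gR G (n * x + u (n * x)) - x =
          (gR G (n * x + u (n * x)) - gR G (n * x)) + (gR G (n * x) - x) := by ring
        rw [h5]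
        exact (abs_add_le _ _).trans (by linarith))
  have hΦ : ∀ u x, Φ u x = gR G (n * x + u (n * x)) - x := fun u x => rfl
  have hK : ContractingWith (Real.toNNReal (1 / m)) Φ := by
    constructor
    · rw [← NNReal.coe_lt_coe, Real.coe_toNNReal _ (by positivity)]
      simp only [NNReal.coe_one]
      rw [div_lt_one hm0]
      exact hm
    · apply LipschitzWith.of_dist_le_mul
      intro u v
      rw [Real.coe_toNNReal _ (by positivity)]
      rw [BoundedContinuousFunction.dist_le (by positivity)]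
      intro x
      rw [hΦ, hΦ, Real.dist_eq]
      have h1 := gR_lip hG (n * x + u (n * x)) (n * x + v (n * x))
      have h2 : |(n : ℝ) * x + u (n * x) - (n * x + v (n * x))| ≤ dist u v := by
        have := BoundedContinuousFunction.dist_coe_le_dist (f := u) (g := v) (n * x)
        rw [Real.dist_eq] at this
        convert this using 2
        ring
      have h3 : gR G (n * x + u (n * x)) - x - (gR G (n * x + v (n * x)) - x) =
        gR G (n * x + u (n * x)) - gR G (n * x + v (n * x)) := by ring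
      rw [h3]
      refine h1.trans ?_
      rw [div_eq_mul_inv, mul_comm, one_div]
      exact mul_le_mul_of_nonneg_left h2 (by positivity)
  obtain ⟨u, hu⟩ : ∃ u, Φ u = u := ⟨_, hK.fixedPoint_isFixedPt⟩
  refine ⟨u, ‖u‖, u.continuous, fun x => u.norm_coe_le_norm x, fun x => ?_⟩
  have := hΦ u x
  rw [hu] at this
  linarith

end

end HALFaux

open HALFaux in
theorem t_HALF : S_HALF := by
  intro n hn η₀ α G η₁ m c hG η θ k C T₁ hF
  have hn' := n_gt hn
  have hθη := θη_lt hF
  have hθp := θη_pos hF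
  have hηp := hF.ηpos
  have hm := hG.m1
  have hm0 : 0 < m := by linarith
  obtain ⟨u, U, huc, huU, hu⟩ := exists_u hG
  have hU0 : 0 ≤ U := (abs_nonneg _).trans (huU 0)
  set T := TT n G T₁ (θ * η) with hT
  set h : ℝ → ℝ := fun x => x + u x with hh
  have hhe : ∀ x, h x = gR G (h (n * x)) := fun x => hu x
  have hhc : ∀ x : ℝ, ((h x : ℝ) : ℂ) = G (h (n * x) : ℝ) := by
    intro x
    rw [← gR_eq hG, ← hhe x]
  -- Claim A
  have hA : ∀ w : ℂ, 0 < w.im → w.im ≤ n * η → ‖T w - h w.re‖ ≤ C + n * η + U := by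
    intro w h0
    refine level_ind (P := fun w => w.im ≤ n * η → ‖T w - h w.re‖ ≤ C + n * η + U) hn
      (r := θ * η) ?_ ?_ h0
    · intro w hw hw2
      have h1 := hF.bdd w hw
      have h2 : ‖w - h w.re‖ ≤ n * η + U := by
        have h3 : w - h w.re = (w.im : ℂ) * Complex.I - (u w.re : ℂ) := by
          apply Complex.ext
          · simp [hh]
          · simp [hh]
        rw [h3]
        refine (norm_sub_le _ _).trans ?_
        rw [norm_mul, Complex.norm_I, mul_one, Complex.norm_real, Complex.norm_real]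
        have h4 : ‖w.im‖ ≤ n * η := by
          rw [Real.norm_eq_abs, abs_of_pos (by linarith)]
          exact hw2
        have h5 := huU w.re
        rw [Real.norm_eq_abs (u w.re)]
        linarith
      have h3 : T w - h w.re = (T₁ w - w) + (w - h w.re) := by
        rw [hT, TT_up hw]; ring
      rw [h3]
      refine (norm_add_le _ _).trans ?_
      linarith
    · intro w hw0 hw ih _
      have h1 : 0 < ((n : ℂ) * w).im := by rw [im_nmul]; positivity
      have h2 : ((n : ℂ) * w).im ≤ n * η := by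
        rw [im_nmul]
        exact mul_le_mul_of_nonneg_left (by linarith) (by positivity)
      have h3 := ih h2
      have h4 : T w = G (T (n * w)) := TT_step hn hw0 hw
      rw [h4, hhc w.re]
      have h5 := hG.contr (T (n * w)) (TT_SH hn hG hF h1 h2) (h (n * w.re) : ℝ) (real_mem_SH hG.pos _)
      refine h5.trans ?_
      rw [re_nmul] at h3
      exact (div_le_self (norm_nonneg _) hm.le).trans h3
  have hB : ∀ j : ℕ, ∀ w : ℂ, 0 < w.im → (n : ℝ) ^ j * w.im ≤ n * η →
      ‖T w - h w.re‖ ≤ (C + n * η + U) / m ^ j := by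
    intro j
    induction j with
    | zero =>
      intro w h0 h1
      rw [pow_zero, one_mul] at h1
      rw [pow_zero, div_one]
      exact hA w h0 h1
    | succ j ih =>
      intro w h0 h1
      have h2 : w.im ≤ η := by
        have h3 : (n : ℝ) * ((n : ℝ) ^ j * w.im) ≤ n * η := by
          rw [pow_succ] at h1
          linarith
        have h4 : (n : ℝ) ^ j * w.im ≤ η := le_of_mul_le_mul_left h3 (by positivity)
        have h5 : (1 : ℝ) ≤ (n : ℝ) ^ j := one_le_pow₀ (by linarith)
        nlinarith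
      have h3 : 0 < ((n : ℂ) * w).im := by rw [im_nmul]; positivity
      have h4 : ((n : ℂ) * w).im ≤ n * η := by
        rw [im_nmul]
        exact mul_le_mul_of_nonneg_left h2 (by positivity)
      have h5 := ih (n * w) h3 (by
        rw [im_nmul, ← mul_assoc, ← pow_succ]; exact h1)
      have h6 : T w = G (T (n * w)) := TT_eq hn hF h0 h2
      rw [h6, hhc w.re]
      have h7 := hG.contr (T (n * w)) (TT_SH hn hG hF h3 h4) (h (n * w.re) : ℝ) (real_mem_SH hG.pos _)
      refine h7.trans ?_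
      rw [re_nmul] at h5
      rw [pow_succ, ← div_div]
      gcongr
  refine ⟨T, h, ⟨hηp, hF.k0, hF.k1, ?_, ?_, ?_, ?_, ?_, ?_, ?_, ?_, ?_, ?_, ?_, ?_, ?_, ?_⟩⟩
  · -- smooth
    intro w hw
    exact (TT_smooth hn hG hF hw).1.contDiffWithinAt
  · intro w hw
    exact TT_per hn hG hF hw
  · -- top
    intro w hw
    have h1 : θ * η < w.im := by nlinarith
    rw [hT, TT_up h1, hF.top w]
    have : 0 < (n : ℝ) * η := by positivity
    nlinarith [hF.θ1]
  · -- imp
    intro w hw
    rcases le_or_gt w.im (n * η) with h1 | h1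
    · exact (TT_mem hn hG hF hw h1).1
    · have h2 : θ * η < w.im := by nlinarith
      rw [hT, TT_up h2]
      exact hF.imp w h2
  · intro w hw
    exact (TT_smooth hn hG hF hw).2.1
  · intro w hw
    exact (TT_smooth hn hG hF hw).2.2
  · -- semi
    intro w hw0 hw
    have h3 : 0 < ((n : ℂ) * w).im := by rw [im_nmul]; positivity
    have h4 : ((n : ℂ) * w).im ≤ n * η := by
      rw [im_nmul]
      exact mul_le_mul_of_nonneg_left hw.le (by positivity)
    have h5 := TT_SH hn hG hF h3 h4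
    have h6 : T w = G (T (n * w)) := TT_eq hn hF hw0 hw.le
    rw [h6]
    exact ⟨hG.maps _ h5, (hG.inv _ h5).symm⟩
  · exact TT_proper hn hG hF
  · -- high
    refine ⟨η₁, fun w hw0 hw => ?_⟩
    by_contra hlt
    push Not at hlt
    have := (TT_mem hn hG hF hw0 hlt.le).2
    linarith
  · -- bdry
    intro ε hε
    have hC2 : 0 ≤ C + n * η + U := by
      have h1 := hA ((n * η : ℝ) * Complex.I) (by simp; positivity) (by simp)
      exact (norm_nonneg _).trans h1
    obtain ⟨j, hj⟩ := pow_unbounded_of_one_lt ((C + n * η + U) / ε) hm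
    refine ⟨n * η / (n : ℝ) ^ j, by positivity, fun w hw0 hw => ?_⟩
    rw [lt_div_iff₀ (by positivity)] at hw
    refine lt_of_le_of_lt (hB j w hw0 (by rw [mul_comm]; exact hw.le)) ?_
    rw [div_lt_iff₀ hε] at hj
    rw [div_lt_iff₀ (by positivity), mul_comm ε]
    exact hj
  · exact continuous_id.add huc
  · -- strictly monotone
    intro x y hxy
    by_contra hle
    push Not at hle
    have key : ∀ j : ℕ, h ((n : ℝ) ^ j * y) ≤ h ((n : ℝ) ^ j * x) := by
      intro j
      induction j with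
      | zero => simpa using hle
      | succ j ih =>
        by_contra hlt
        push Not at hlt
        have h1 := gR_mono hG hlt
        rw [pow_succ, mul_comm ((n : ℝ) ^ j), mul_assoc, mul_assoc, ← hhe, ← hhe] at h1
        linarith
    obtain ⟨j, hj⟩ := exists_j hn (sub_pos.mpr hxy) (2 * U)
    have h1 := key j
    have h2 := abs_le.mp (huU ((n : ℝ) ^ j * y))
    have h3 := abs_le.mp (huU ((n : ℝ) ^ j * x))
    simp only [hh] at h1
    nlinarith
  · -- perh
    intro x
    have key : ∀ i : ℕ, ∀ (j : ℕ) (x : ℝ), |h (x + 2 * Real.pi * j) - (h x + 2 * Real.pi * j)| ≤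
        2 * U / m ^ i := by
      intro i
      induction i with
      | zero =>
        intro j x
        rw [pow_zero, div_one]
        have h2 := abs_le.mp (huU (x + 2 * Real.pi * j))
        have h3 := abs_le.mp (huU x)
        simp only [hh]
        rw [abs_le]
        constructor <;> linarith
      | succ i ih =>
        intro j x
        have h1 : h x + 2 * Real.pi * j = gR G (h (n * x) + 2 * Real.pi * n * j) := by
          rw [gR_per hG, ← hhe]
        have h2 := ih (n * j) (n * x)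
        rw [hhe (x + 2 * Real.pi * j), h1]
        refine (gR_lip hG _ _).trans ?_
        rw [pow_succ, ← div_div]
        have h3 : (n : ℝ) * (x + 2 * Real.pi * j) = n * x + 2 * Real.pi * ((n * j : ℕ) : ℝ) := by
          push_cast; ring
        have h4 : h (n * x) + 2 * Real.pi * n * j = h (n * x) + 2 * Real.pi * ((n * j : ℕ) : ℝ) := by
          push_cast; ring
        rw [h3, h4]
        gcongr
    have h0 : |h (x + 2 * Real.pi) - (h x + 2 * Real.pi)| ≤ 0 := by
      apply le_of_forall_pos_lt_add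
      intro ε hε
      rw [zero_add]
      obtain ⟨i, hi⟩ := pow_unbounded_of_one_lt (2 * U / ε) hm
      have h1 := key i 1 x
      rw [Nat.cast_one, mul_one] at h1
      refine lt_of_le_of_lt h1 ?_
      rw [div_lt_iff₀ hε] at hi
      rw [div_lt_iff₀ (by positivity), mul_comm ε]
      exact hi
    have h1 := abs_nonpos_iff.mp h0
    linarith
  · -- semih
    intro x
    have h1 := hG.inv (h (n * x) : ℝ) (real_mem_SH hG.pos _)
    rw [← hhc] at h1
    exact h1.symm

end Pool.Agent.H212.MB
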