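import Pool.Agent.H212.MB.Stm2

set_option autoImplicit false

open Filter Metric Set Topology MeasureTheory
open scoped ContDiff ComplexConjugate ENNReal NNReal

namespace Pool.Agent.H212.MB

namespace INVBaux

theorem isOpen_SH (η : ℝ) : IsOpen (SH η) :=
  isOpen_lt (Complex.continuous_im.abs) continuous_const

theorem SH_mono {η η' : ℝ} (h : η ≤ η') : SH η ⊆ SH η' := fun _ hw => lt_of_lt_of_le hw h

/-- the closed strip -/
def CS (η : ℝ) : Set ℂ := {w | |w.im| ≤ η}

theorem isClosed_CS (η : ℝ) : IsClosed (CS η) :=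
  isClosed_le (Complex.continuous_im.abs) continuous_const

theorem convex_CS (η : ℝ) : Convex ℝ (CS η) := by
  have : CS η = Complex.imLm ⁻¹' (Icc (-η) η) := by
    ext w
    simp only [CS, mem_ofPred_eq, mem_preimage, mem_Icc, abs_le]
    rfl
  rw [this]
  exact (convex_Icc _ _).linear_preimage _

theorem convex_SH (η : ℝ) : Convex ℝ (SH η) := by
  have : SH η = Complex.imLm ⁻¹' (Ioo (-η) η) := by
    ext w
    simp only [SH, mem_ofPred_eq, mem_preimage, mem_Ioo, abs_lt]
    rfl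
  rw [this]
  exact (convex_Ioo _ _).linear_preimage _

variable {n : ℕ} {η₀ : ℝ} {α : ℂ → ℂ}

theorem shift_im (w : ℂ) : (w + 2 * Real.pi).im = w.im := by
  simp [Complex.add_im, Complex.mul_im]

theorem deriv_per (h : Lift n η₀ α) {w : ℂ} (hw : w ∈ SH η₀) :
    deriv α (w + 2 * Real.pi) = deriv α w := by
  rw [← deriv_comp_add_const]
  have h1 : (fun z => α (z + 2 * Real.pi)) =ᶠ[𝓝 w] fun z => α z + 2 * Real.pi * n := by
    filter_upwards [(isOpen_SH η₀).mem_nhds hw] with z hz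
    exact h.per z hz
  rw [h1.deriv_eq, deriv_add_const]

theorem reduce (h : Lift n η₀ α) {w : ℂ} (hw : w ∈ SH η₀) :
    ∃ w' : ℂ, w'.im = w.im ∧ 0 ≤ w'.re ∧ w'.re ≤ 2 * Real.pi ∧ deriv α w' = deriv α w := by
  have hper : Function.Periodic (fun x : ℝ => deriv α (x + w.im * Complex.I)) (2 * Real.pi) := by
    intro x
    have h1 : ((x : ℂ) + w.im * Complex.I) ∈ SH η₀ := by
      have hw' : |w.im| < η₀ := hw
      show |((x : ℂ) + w.im * Complex.I).im| < η₀
      simpa using hw'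
    have h2 := deriv_per h h1
    simp only
    rw [← h2]
    congr 1
    push_cast
    ring
  obtain ⟨y, hy, hxy⟩ := hper.exists_mem_Ico₀ (by positivity) w.re
  refine ⟨y + w.im * Complex.I, by simp, ?_, ?_, ?_⟩
  · simpa using hy.1
  · simpa using hy.2.le
  · rw [← hxy, Complex.re_add_im]

theorem diffAt (h : Lift n η₀ α) {w : ℂ} (hw : w ∈ SH η₀) : DifferentiableAt ℂ α w :=
  h.diff.differentiableAt ((isOpen_SH η₀).mem_nhds hw)

/-- the derivative is real on the real axis -/
theorem deriv_real (h : Lift n η₀ α) (x : ℝ) : (deriv α x).im = 0 := by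
  have hx : (x : ℂ) ∈ SH η₀ := by
    show |((x : ℂ)).im| < η₀
    simpa using h.pos
  have h1 : HasDerivAt α (deriv α x) (x : ℂ) := (diffAt h hx).hasDerivAt
  have h2 : HasDerivAt (fun y : ℝ => α y) (deriv α x) x := h1.comp_ofReal
  have h3 : HasDerivAt (fun y : ℝ => (α y).im) (deriv α x).im x := by
    have := Complex.imCLM.hasFDerivAt.comp_hasDerivAt x h2
    exact this
  have h4 : (fun y : ℝ => (α y).im) = fun _ => 0 := funext h.real
  rw [h4] at h3
  exact h3.unique (hasDerivAt_const x 0)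

/-- the constants -/
theorem consts (hn : 2 ≤ n) (h : Lift n η₀ α) :
    ∃ m M η₂ : ℝ, 1 < m ∧ m < n ∧ 0 < M ∧ 0 < η₂ ∧ η₂ < η₀ ∧
      ∀ w ∈ CS η₂, m ≤ (deriv α w).re ∧ ‖deriv α w‖ ≤ M := by
  have hcd : ContinuousOn (deriv α) (SH η₀) := (h.diff.deriv (isOpen_SH η₀)).continuousOn
  have hreal : ∀ x : ℝ, (x : ℂ) ∈ SH η₀ := fun x => by
    show |((x : ℂ)).im| < η₀
    simpa using h.pos
  let K : Set ℂ := (fun x : ℝ => (x : ℂ)) '' Icc 0 (2 * Real.pi)
  have hK : IsCompact K := isCompact_Icc.image Complex.continuous_ofReal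
  have hKne : K.Nonempty := ⟨((0 : ℝ) : ℂ), 0, ⟨le_rfl, by positivity⟩, rfl⟩
  have hKS : K ⊆ SH η₀ := by
    rintro _ ⟨x, -, rfl⟩
    exact hreal x
  obtain ⟨z₀, hz₀, hmin⟩ := hK.exists_isMinOn hKne
    (Complex.continuous_re.comp_continuousOn (hcd.mono hKS))
  have hm₀ : 1 < (deriv α z₀).re := by
    obtain ⟨x, -, rfl⟩ := hz₀
    exact h.expd x
  set m₀ : ℝ := (deriv α z₀).re with hm₀d
  have hn' : (2 : ℝ) ≤ n := by exact_mod_cast hn
  have hmin1 : 1 < min m₀ n := lt_min hm₀ (by linarith)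
  set m : ℝ := (1 + min m₀ n) / 2 with hm
  have h1m : 1 < m := by rw [hm]; linarith
  have hmm : m < min m₀ n := by rw [hm]; linarith
  have hmn : m < n := hmm.trans_le (min_le_right _ _)
  have hmm₀ : m < m₀ := hmm.trans_le (min_le_left _ _)
  have hVo : IsOpen (SH η₀ ∩ (fun w => (deriv α w).re) ⁻¹' (Ioi m)) :=
    (Complex.continuous_re.comp_continuousOn hcd).isOpen_inter_preimage (isOpen_SH η₀) isOpen_Ioi
  have hKV : K ⊆ SH η₀ ∩ (fun w => (deriv α w).re) ⁻¹' (Ioi m) := by
    intro z hz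
    exact ⟨hKS hz, hmm₀.trans_le (hmin hz)⟩
  obtain ⟨δ, hδ, hδV⟩ := hK.exists_cthickening_subset_open hVo hKV
  have hη := h.pos
  let η₂ : ℝ := min δ (η₀ / 2)
  have hη₂ : 0 < η₂ := lt_min hδ (by linarith)
  have hη₂' : η₂ < η₀ := (min_le_right _ _).trans_lt (by linarith)
  have hB : IsCompact (Icc 0 (2 * Real.pi) ×ℂ Icc (-η₂) η₂) := isCompact_Icc.reProdIm isCompact_Icc
  have hBS : (Icc 0 (2 * Real.pi) ×ℂ Icc (-η₂) η₂) ⊆ SH η₀ := by
    intro w hw
    rw [Complex.mem_reProdIm] at hw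
    exact (abs_le.2 hw.2).trans_lt hη₂'
  obtain ⟨M, hM⟩ := hB.exists_bound_of_continuousOn (hcd.mono hBS)
  refine ⟨m, max M 1, η₂, h1m, hmn, by positivity, hη₂, hη₂', fun w hw => ?_⟩
  have hwS : w ∈ SH η₀ := lt_of_le_of_lt hw hη₂'
  obtain ⟨w', hw1, hw2, hw3, hw4⟩ := reduce h hwS
  have hw' : |w'.im| ≤ η₂ := by rw [hw1]; exact hw
  rw [← hw4]
  constructor
  · have h1 : w' ∈ cthickening δ K := by
      refine mem_cthickening_of_dist_le w' (w'.re : ℂ) δ K ⟨w'.re, ⟨hw2, hw3⟩, rfl⟩ ?_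
      rw [dist_eq_norm]
      have h2 : w' - (w'.re : ℂ) = w'.im * Complex.I := by
        apply Complex.ext <;> simp
      rw [h2, norm_mul, Complex.norm_I, mul_one, Complex.norm_real, Real.norm_eq_abs]
      exact hw'.trans (min_le_left _ _)
    exact (hδV h1).2.le
  · refine (hM w' ?_).trans (le_max_left _ _)
    rw [Complex.mem_reProdIm]
    exact ⟨⟨hw2, hw3⟩, abs_le.1 hw'⟩

/-- expansion -/
theorem expand {m η₂ : ℝ} (hη : η₂ < η₀) (h : Lift n η₀ α)
    (hm : ∀ w ∈ CS η₂, m ≤ (deriv α w).re) {w w' : ℂ} (hw : w ∈ CS η₂) (hw' : w' ∈ CS η₂)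
    (hne : w ≠ w') : m ≤ ((α w - α w') / (w - w')).re := by
  have hd : w - w' ≠ 0 := sub_ne_zero.2 hne
  have hseg : ∀ t ∈ Icc (0 : ℝ) 1, w' + t * (w - w') ∈ CS η₂ := by
    intro t ht
    have := convex_CS η₂ hw' hw (sub_nonneg.2 ht.2) ht.1 (by ring)
    convert this using 1
    simp only [Complex.real_smul]
    push_cast
    ring
  have hder : ∀ t ∈ Icc (0 : ℝ) 1, HasDerivAt (fun t : ℝ => (α (w' + t * (w - w')) / (w - w')).re)
      (deriv α (w' + t * (w - w'))).re t := by
    intro t ht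
    have h1 : HasDerivAt (fun t : ℂ => w' + t * (w - w')) (w - w') (t : ℂ) := by
      simpa using ((hasDerivAt_id (t : ℂ)).mul_const (w - w')).const_add w'
    have h2 : HasDerivAt α (deriv α (w' + t * (w - w'))) (w' + t * (w - w')) :=
      (diffAt h (lt_of_le_of_lt (hseg t ht) hη)).hasDerivAt
    have h3 := ((h2.comp (t : ℂ) h1).div_const (w - w')).comp_ofReal
    have h4 := Complex.reCLM.hasFDerivAt.comp_hasDerivAt t h3
    have h5 : deriv α (w' + t * (w - w')) * (w - w') / (w - w') = deriv α (w' + t * (w - w')) :=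
      mul_div_cancel_right₀ _ hd
    rw [h5] at h4
    exact h4
  have hmv := (convex_Icc (0 : ℝ) 1).mul_sub_le_image_sub_of_le_deriv
    (f := fun t : ℝ => (α (w' + t * (w - w')) / (w - w')).re) (C := m)
    (fun t ht => (hder t ht).continuousAt.continuousWithinAt)
    (fun t ht => (hder t (interior_subset ht)).differentiableAt.differentiableWithinAt)
    (fun t ht => by
      rw [(hder t (interior_subset ht)).deriv]
      exact hm _ (hseg t (interior_subset ht)))
    0 ⟨le_rfl, zero_le_one⟩ 1 ⟨zero_le_one, le_rfl⟩ zero_le_one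
  simp only [Complex.ofReal_one, Complex.ofReal_zero, one_mul, zero_mul, add_zero, sub_zero,
    mul_one, add_sub_cancel] at hmv
  rw [sub_div, Complex.sub_re]
  exact hmv

theorem expand' {m η₂ : ℝ} (hη : η₂ < η₀) (h : Lift n η₀ α)
    (hm : ∀ w ∈ CS η₂, m ≤ (deriv α w).re) {w w' : ℂ} (hw : w ∈ CS η₂) (hw' : w' ∈ CS η₂) :
    m * ‖w - w'‖ ≤ ‖α w - α w'‖ := by
  by_cases hne : w = w'
  · rw [hne]; simp
  have h1 := expand hη h hm hw hw' hne
  have h2 : 0 < ‖w - w'‖ := norm_pos_iff.2 (sub_ne_zero.2 hne)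
  have h3 := h1.trans (Complex.re_le_norm _)
  rw [norm_div, le_div_iff₀ h2] at h3
  exact h3

theorem im_sign {m η₂ : ℝ} (hη : η₂ < η₀) (h : Lift n η₀ α)
    (hm : ∀ w ∈ CS η₂, m ≤ (deriv α w).re) {w : ℂ} (hw : w ∈ CS η₂) (hne : w.im ≠ 0) :
    m ≤ (α w).im / w.im := by
  have hη₂ : 0 ≤ η₂ := (abs_nonneg _).trans hw
  have h1 : (w.re : ℂ) ∈ CS η₂ := by
    show |((w.re : ℂ)).im| ≤ η₂
    simpa using hη₂
  have h2 : w ≠ (w.re : ℂ) := by
    intro hcon
    apply hne
    rw [hcon, Complex.ofReal_im]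
  have h3 := expand hη h hm hw h1 h2
  have h4 : w - (w.re : ℂ) = w.im * Complex.I := by
    apply Complex.ext <;> simp
  rw [h4] at h3
  have h5 : ((α w - α w.re) / (w.im * Complex.I)).re = (α w).im / w.im := by
    have h6 : (α w - α w.re) / (w.im * Complex.I) = ((w.im⁻¹ : ℝ) : ℂ) * (-Complex.I * (α w - α w.re)) := by
      have h7 : (w.im : ℂ) ≠ 0 := by exact_mod_cast hne
      push_cast
      field_simp
      rw [Complex.I_sq]
      ring
    rw [h6, Complex.re_ofReal_mul]
    simp only [Complex.mul_re, Complex.neg_re, Complex.neg_im, Complex.I_re, Complex.I_im,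
      Complex.sub_re, Complex.sub_im, h.real w.re]
    field_simp
    ring
  rw [h5] at h3
  exact h3

theorem lip {M η₂ : ℝ} (hη : η₂ < η₀) (h : Lift n η₀ α)
    (hM : ∀ w ∈ CS η₂, ‖deriv α w‖ ≤ M) {w w' : ℂ} (hw : w ∈ CS η₂) (hw' : w' ∈ CS η₂) :
    ‖α w - α w'‖ ≤ M * ‖w - w'‖ :=
  (convex_CS η₂).norm_image_sub_le_of_norm_deriv_le
    (fun _ hx => diffAt h (lt_of_le_of_lt hx hη)) hM hw' hw

theorem onto {m M η₂ : ℝ} (hm0 : 1 < m) (hM0 : 0 < M) (hη₂ : 0 < η₂) (hη : η₂ < η₀)
    (h : Lift n η₀ α) (hm : ∀ w ∈ CS η₂, m ≤ (deriv α w).re)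
    (hM : ∀ w ∈ CS η₂, ‖deriv α w‖ ≤ M) : SH (m * η₂) ⊆ α '' SH η₂ := by
  have hopen : IsOpen (α '' SH η₂) := by
    rw [isOpen_iff_mem_nhds]
    rintro _ ⟨w, hw, rfl⟩
    have h1 : AnalyticAt ℂ α w := h.diff.analyticAt ((isOpen_SH η₀).mem_nhds (SH_mono hη.le hw))
    have h2 := h1.hasStrictDerivAt
    have h3 : deriv α w ≠ 0 := by
      intro hcon
      have := hm w (show |w.im| < η₂ from hw).le
      rw [hcon, Complex.zero_re] at this
      linarith
    rw [← h2.map_nhds_eq h3]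
    exact image_mem_map ((isOpen_SH η₂).mem_nhds hw)
  have hclosed : IsClosed (α '' CS η₂) := by
    have h1 : AntilipschitzWith (Real.toNNReal m)⁻¹ ((CS η₂).domRestrict α) := by
      refine AntilipschitzWith.of_le_mul_dist fun x y => ?_
      have h2 := expand' hη h hm x.2 y.2
      rw [NNReal.coe_inv, Real.coe_toNNReal _ (by linarith), Subtype.dist_eq, dist_eq_norm,
        dist_eq_norm, domRestrict_apply, domRestrict_apply]
      rw [← div_eq_inv_mul, le_div_iff₀ (by linarith), mul_comm]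
      exact h2
    have h2 : LipschitzWith (Real.toNNReal M) ((CS η₂).domRestrict α) := by
      refine LipschitzWith.of_dist_le_mul fun x y => ?_
      have h2 := lip hη h hM x.2 y.2
      rw [Real.coe_toNNReal _ hM0.le, Subtype.dist_eq, dist_eq_norm, dist_eq_norm, domRestrict_apply,
        domRestrict_apply]
      exact h2
    have : CompleteSpace (CS η₂) := (isClosed_CS η₂).completeSpace_coe
    have h3 := h1.isClosed_range h2.uniformContinuous
    rwa [range_domRestrict] at h3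
  refine IsPreconnected.subset_of_closure_inter_subset (convex_SH _).isPreconnected hopen ?_ ?_
  · refine ⟨α (0 : ℝ), ?_, (0 : ℝ), ?_, rfl⟩
    · show |(α (0 : ℝ)).im| < m * η₂
      rw [h.real 0, abs_zero]
      positivity
    · show |((0 : ℝ) : ℂ).im| < η₂
      simpa using hη₂
  · rintro v ⟨hv, hv2⟩
    have h1 : v ∈ α '' CS η₂ := by
      have h2 : closure (α '' SH η₂) ⊆ α '' CS η₂ :=
        closure_minimal (image_mono fun w hw => (show |w.im| < η₂ from hw).le) hclosed
      exact h2 hv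
    obtain ⟨w, hw, rfl⟩ := h1
    refine ⟨w, ?_, rfl⟩
    show |w.im| < η₂
    by_contra hcon
    push Not at hcon
    have hne : w.im ≠ 0 := by
      intro h0
      rw [h0, abs_zero] at hcon
      linarith
    have h3 := im_sign hη h hm hw hne
    have h4 : m * |w.im| ≤ |(α w).im| := by
      have h5 : m ≤ |(α w).im| / |w.im| := by
        rw [← abs_div]
        exact h3.trans (le_abs_self _)
      rwa [le_div_iff₀ (abs_pos.2 hne)] at h5
    have h6 : |(α w).im| < m * η₂ := hv2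
    nlinarith

end INVBaux

open INVBaux in
theorem t_INVB : S_INVB := by
  intro n hn η₀ α h
  obtain ⟨m, M, η₂, hm1, hmn, hM0, hη₂, hη, hc⟩ := consts hn h
  have hm := fun w hw => (hc w hw).1
  have hM := fun w hw => (hc w hw).2
  have honto := onto hm1 hM0 hη₂ hη h hm hM
  let G : ℂ → ℂ := Function.invFunOn α (SH η₂)
  have hG1 : ∀ v ∈ SH (m * η₂), G v ∈ SH η₂ := fun v hv => Function.invFunOn_mem (honto hv)
  have hG2 : ∀ v ∈ SH (m * η₂), α (G v) = v := fun v hv => Function.invFunOn_eq (honto hv)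
  have hSC : ∀ w ∈ SH η₂, w ∈ CS η₂ := fun w hw => (show |w.im| < η₂ from hw).le
  have hinj : ∀ w ∈ SH η₂, ∀ w' ∈ SH η₂, α w = α w' → w = w' := by
    intro w hw w' hw' he
    have h1 := expand' hη h hm (hSC w hw) (hSC w' hw')
    rw [he, sub_self, norm_zero] at h1
    have h2 : ‖w - w'‖ ≤ 0 := by
      by_contra hcon
      push Not at hcon
      nlinarith
    exact sub_eq_zero.1 (norm_le_zero_iff.1 h2)
  have hcontr : ∀ w ∈ SH (m * η₂), ∀ w' ∈ SH (m * η₂), ‖G w - G w'‖ ≤ ‖w - w'‖ / m := by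
    intro w hw w' hw'
    have h1 := expand' hη h hm (hSC _ (hG1 w hw)) (hSC _ (hG1 w' hw'))
    rw [hG2 w hw, hG2 w' hw'] at h1
    rw [le_div_iff₀ (by linarith), mul_comm]
    exact h1
  have hGcont : ∀ w ∈ SH (m * η₂), ContinuousAt G w := by
    intro w hw
    have h1 : LipschitzOnWith (Real.toNNReal m)⁻¹ G (SH (m * η₂)) := by
      refine LipschitzOnWith.of_dist_le_mul fun x hx y hy => ?_
      rw [NNReal.coe_inv, Real.coe_toNNReal _ (by linarith), dist_eq_norm, dist_eq_norm,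
        ← div_eq_inv_mul]
      exact hcontr x hx y hy
    exact h1.continuousOn.continuousAt ((isOpen_SH _).mem_nhds hw)
  have hGd : ∀ w ∈ SH (m * η₂), HasDerivAt G (deriv α (G w))⁻¹ w := by
    intro w hw
    refine HasDerivAt.of_local_left_inverse (hGcont w hw)
      (diffAt h (SH_mono hη.le (hG1 w hw))).hasDerivAt ?_ ?_
    · intro hcon
      have := hm _ (hSC _ (hG1 w hw))
      rw [hcon, Complex.zero_re] at this
      linarith
    · filter_upwards [(isOpen_SH (m * η₂)).mem_nhds hw] with v hv using hG2 v hv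
  have hpos : 0 < m * η₂ := by positivity
  have hrealmem : ∀ x : ℝ, (x : ℂ) ∈ SH (m * η₂) := fun x => by
    show |((x : ℂ)).im| < m * η₂
    simpa using hpos
  have hGreal : ∀ x : ℝ, (G x).im = 0 := by
    intro x
    by_contra hne
    have h1 := im_sign hη h hm (hSC _ (hG1 x (hrealmem x))) hne
    rw [hG2 x (hrealmem x), Complex.ofReal_im, zero_div] at h1
    linarith
  refine ⟨G, m * η₂, m, M⁻¹, ⟨hpos, hm1, hmn, by positivity, ?_, ?_, hG2, ?_, hGreal, hcontr, ?_, ?_⟩⟩
  · intro w hw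
    exact (hGd w hw).differentiableAt.differentiableWithinAt
  · intro w hw
    exact SH_mono hη.le (hG1 w hw)
  · intro w hw
    have him : (w + 2 * Real.pi * n).im = w.im := by
      have : (w + 2 * Real.pi * n : ℂ) = w + ((2 * Real.pi * n : ℝ) : ℂ) := by push_cast; ring
      rw [this, Complex.add_im, Complex.ofReal_im, add_zero]
    have hw2 : w + 2 * Real.pi * n ∈ SH (m * η₂) := by
      show |(w + 2 * Real.pi * n).im| < m * η₂
      rw [him]
      exact hw
    refine hinj _ (hG1 _ hw2) _ ?_ ?_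
    · show |(G w + 2 * Real.pi).im| < η₂
      rw [shift_im]
      exact hG1 w hw
    · rw [hG2 _ hw2, h.per _ (SH_mono hη.le (hG1 w hw)), hG2 w hw]
  · intro w hw hw0
    have hGw := hG1 w hw
    rcases lt_trichotomy (G w).im 0 with h1 | h1 | h1
    · exfalso
      have h2 := im_sign hη h hm (hSC _ hGw) h1.ne
      rw [hG2 w hw] at h2
      have h3 : w.im / (G w).im ≤ 0 := div_nonpos_of_nonneg_of_nonpos hw0 h1.le
      linarith
    · have h2 : ((G w).re : ℂ) = G w := by
        apply Complex.ext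
        · simp
        · simp [h1]
      have h3 : w.im = 0 := by
        rw [← hG2 w hw, ← h2]
        exact h.real _
      rw [h1, h3, mul_zero]
    · have h2 : ((G w).re : ℂ) ∈ CS η₂ := by
        show |(((G w).re : ℂ)).im| ≤ η₂
        simpa using hη₂.le
      have h3 := lip hη h hM (hSC _ hGw) h2
      have h4 : G w - ((G w).re : ℂ) = (G w).im * Complex.I := by
        apply Complex.ext <;> simp
      rw [h4, norm_mul, Complex.norm_I, mul_one, Complex.norm_real, Real.norm_eq_abs,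
        abs_of_pos h1, hG2 w hw] at h3
      have h5 : w.im ≤ ‖w - α ((G w).re)‖ := by
        have h6 : (w - α ((G w).re)).im = w.im := by
          rw [Complex.sub_im, h.real, sub_zero]
        rw [← h6]
        exact Complex.im_le_norm _
      rw [← div_eq_inv_mul, div_le_iff₀ hM0, mul_comm]
      exact h5.trans h3
  · intro x
    have h1 := hGd x (hrealmem x)
    rw [h1.deriv]
    have h2 : ((G x).re : ℂ) = G x := by
      apply Complex.ext
      · simp
      · simp [hGreal x]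
    have h3 : (deriv α (G x)).im = 0 := by
      rw [← h2]
      exact deriv_real h _
    have h4 := hm _ (hSC _ (hG1 x (hrealmem x)))
    have h5 : deriv α (G x) = ((deriv α (G x)).re : ℂ) := by
      apply Complex.ext
      · simp
      · simp [h3]
    rw [h5, ← Complex.ofReal_inv, Complex.ofReal_re, Complex.ofReal_im]
    refine ⟨inv_pos.2 (by linarith), ?_, rfl⟩
    rw [one_div]
    exact inv_anti₀ (by linarith) h4

end Pool.Agent.H212.MB
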