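import Pool.Agent.H212.MB.Stm3
import Pool.Graph.R_seed8.W746.LD.Koebe

/-!
# Jobs NE and KOE: the complement of the image of a map of the class `Σ` is not empty; distances near
the boundary
-/

set_option autoImplicit false

open Filter Metric Set Topology

namespace Pool.Agent.H212.MB

open Pool.Agent.Helper265.Br Pool.Agent.W746.LD

theorem t_NE : S_NE := by
  intro φ hφ
  by_contra hne
  rw [Set.not_nonempty_iff_eq_empty, compl_empty_iff] at hne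
  have hd : ∀ w, DifferentiableAt ℂ (Function.invFunOn φ Ext) w := fun w =>
    differentiableAt_inv isOpen_Ext hφ.diff hφ.inj (by rw [hne]; trivial)
  have hmem : ∀ w, Function.invFunOn φ Ext w ∈ Ext := fun w => invFunOn_mem (by rw [hne]; trivial)
  have hn : ∀ w, 1 < ‖Function.invFunOn φ Ext w‖ := fun w => hmem w
  have hg : Differentiable ℂ (fun w => (Function.invFunOn φ Ext w)⁻¹) := fun w =>
    (hd w).inv (norm_pos_iff.1 (by linarith [hn w]))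
  have hb : Bornology.IsBounded (range (fun w => (Function.invFunOn φ Ext w)⁻¹)) := by
    rw [isBounded_iff_forall_norm_le]
    refine ⟨1, ?_⟩
    rintro _ ⟨w, rfl⟩
    rw [norm_inv]
    exact inv_le_one_of_one_le₀ (hn w).le
  have hc := hg.apply_eq_apply_of_bounded hb (φ 2) (φ 3)
  have h2 : (2 : ℂ) ∈ Ext := by simp [Ext]
  have h3 : (3 : ℂ) ∈ Ext := by simp [Ext]
  simp only [invFunOn_left hφ.inj h2, invFunOn_left hφ.inj h3] at hc
  norm_num at hc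

/-- the scaled Harnack chain -/
theorem KOE_chain {η B : ℝ} (hη : 0 < η) (hB : 0 < B) :
    ∃ M : ℝ, 1 ≤ M ∧ ∀ (φ : ℂ → ℂ) (x : ℂ) (δ : ℝ), 0 < δ → Univ φ x ((B + η) * δ) →
      ∀ a ∈ closedBall x (B * δ), ∀ w ∈ closedBall x (B * δ),
        ‖deriv φ w‖ ≤ M * ‖deriv φ a‖ ∧ ‖φ w - φ a‖ ≤ M * (δ * ‖deriv φ a‖) := by
  obtain ⟨C0, c0, K⟩ := exists_KC
  obtain ⟨M, hM, h⟩ := K.chain hη hB
  refine ⟨M, hM, ?_⟩
  intro φ x δ hδ hu a ha w hw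
  have hδ' : (δ : ℂ) ≠ 0 := by exact_mod_cast hδ.ne'
  have hmaps : ∀ t ∈ ball (0 : ℂ) (B + η), x + δ * t ∈ ball x ((B + η) * δ) := by
    intro t ht
    rw [mem_ball_zero_iff] at ht
    rw [mem_ball, dist_eq_norm, add_sub_cancel_left, norm_mul, Complex.norm_real,
      Real.norm_of_nonneg hδ.le, mul_comm]
    exact mul_lt_mul_of_pos_right ht hδ
  have hder : ∀ t ∈ ball (0 : ℂ) (B + η), HasDerivAt (fun t : ℂ => φ (x + δ * t))
      (deriv φ (x + δ * t) * δ) t := by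
    intro t ht
    have e1 : HasDerivAt φ (deriv φ (x + δ * t)) (x + δ * t) :=
      (hu.1.differentiableAt (isOpen_ball.mem_nhds (hmaps t ht))).hasDerivAt
    have e2 : HasDerivAt (fun t : ℂ => x + δ * t) (δ : ℂ) t := by
      simpa using ((hasDerivAt_id t).const_mul (δ : ℂ)).const_add x
    exact e1.comp t e2
  have hψu : Univ (fun t : ℂ => φ (x + δ * t)) 0 (B + η) := by
    refine ⟨fun t ht => (hder t ht).differentiableAt.differentiableWithinAt, ?_⟩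
    intro s hs t ht hst
    have := hu.2 (hmaps s hs) (hmaps t ht) hst
    exact mul_left_cancel₀ hδ' (add_left_cancel this)
  have hsc : ∀ y ∈ closedBall x (B * δ), (y - x) / δ ∈ closedBall (0 : ℂ) B := by
    intro y hy
    rw [mem_closedBall, dist_eq_norm] at hy
    rw [mem_closedBall_zero_iff, norm_div, Complex.norm_real, Real.norm_of_nonneg hδ.le,
      div_le_iff₀ hδ]
    exact hy
  have hsub : closedBall (0 : ℂ) B ⊆ ball 0 (B + η) := closedBall_subset_ball (by linarith)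
  have hback : ∀ y : ℂ, x + δ * ((y - x) / δ) = y := by
    intro y
    field_simp
    ring
  have key := h (fun t : ℂ => φ (x + δ * t)) 0 B hB.le le_rfl hψu _ (hsc a ha) _ (hsc w hw)
  rw [(hder _ (hsub (hsc a ha))).deriv, (hder _ (hsub (hsc w hw))).deriv] at key
  simp only [hback] at key
  rw [norm_mul, norm_mul, Complex.norm_real, Real.norm_of_nonneg hδ.le] at key
  constructor
  · have := key.1
    rw [← mul_assoc] at this
    exact le_of_mul_le_mul_right this hδ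
  · rw [mul_comm δ]
    exact key.2

/-- balls around points of `Ext` -/
theorem KOE_ball {x : ℂ} {r : ℝ} (h : r ≤ ‖x‖ - 1) : ball x r ⊆ Ext := by
  intro y hy
  rw [mem_ball, dist_eq_norm] at hy
  have h1 : ‖x‖ ≤ ‖y‖ + ‖y - x‖ := by
    have := norm_sub_norm_le x y
    rw [norm_sub_rev] at this
    linarith
  show 1 < ‖y‖
  linarith

theorem KOE_univ {φ : ℂ → ℂ} (hφ : Sig φ) {x : ℂ} {r : ℝ} (h : r ≤ ‖x‖ - 1) : Univ φ x r :=
  ⟨hφ.diff.mono (KOE_ball h), hφ.inj.mono (KOE_ball h)⟩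

/-- moving outwards by `s` -/
noncomputable def KOE_out (s : ℝ) (z : ℂ) : ℂ := z + (s : ℂ) * (z / (‖z‖ : ℂ))

theorem KOE_out_sub {s : ℝ} (hs : 0 ≤ s) {z : ℂ} (hz : z ≠ 0) : ‖KOE_out s z - z‖ = s := by
  have h0 : 0 < ‖z‖ := norm_pos_iff.2 hz
  rw [KOE_out, add_sub_cancel_left, norm_mul, norm_div, Complex.norm_real, Complex.norm_real,
    norm_norm, div_self h0.ne', mul_one, Real.norm_of_nonneg hs]

theorem KOE_out_norm {s : ℝ} (hs : 0 ≤ s) {z : ℂ} (hz : z ≠ 0) : ‖KOE_out s z‖ = ‖z‖ + s := by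
  have h0 : 0 < ‖z‖ := norm_pos_iff.2 hz
  have h1 : KOE_out s z = ((‖z‖ + s : ℝ) : ℂ) * (z / (‖z‖ : ℂ)) := by
    have : (‖z‖ : ℂ) ≠ 0 := by exact_mod_cast h0.ne'
    rw [KOE_out]
    push_cast
    field_simp
  rw [h1, norm_mul, norm_div, Complex.norm_real, Complex.norm_real,
    norm_norm, div_self h0.ne', mul_one, Real.norm_of_nonneg (by positivity)]

theorem KOE_dir {z w : ℂ} (hz : 1 ≤ ‖z‖) (hw : 1 ≤ ‖w‖) :
    ‖w / (‖w‖ : ℂ) - z / (‖z‖ : ℂ)‖ ≤ 2 * ‖w - z‖ := by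
  have hz0 : (‖z‖ : ℂ) ≠ 0 := by
    have : ‖z‖ ≠ 0 := by linarith
    exact_mod_cast this
  have hw0 : (‖w‖ : ℂ) ≠ 0 := by
    have : ‖w‖ ≠ 0 := by linarith
    exact_mod_cast this
  have e : w / (‖w‖ : ℂ) - z / (‖z‖ : ℂ) =
      (w - z) / (‖w‖ : ℂ) + (z / (‖z‖ : ℂ)) * (((‖z‖ - ‖w‖ : ℝ) : ℂ) / (‖w‖ : ℂ)) := by
    push_cast
    field_simp
    ring
  rw [e]
  refine (norm_add_le _ _).trans ?_
  rw [norm_mul, norm_div, norm_div, norm_div, Complex.norm_real, Complex.norm_real,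
    Complex.norm_real, norm_norm, norm_norm, div_self (by linarith), one_mul, Real.norm_eq_abs]
  have h1 : |‖z‖ - ‖w‖| ≤ ‖w - z‖ := by
    rw [norm_sub_rev]
    exact abs_norm_sub_norm_le z w
  have h2 : ‖w - z‖ / ‖w‖ ≤ ‖w - z‖ := div_le_self (norm_nonneg _) hw
  have h3 : |‖z‖ - ‖w‖| / ‖w‖ ≤ |‖z‖ - ‖w‖| := div_le_self (abs_nonneg _) hw
  linarith

theorem KOE_out_dist {s : ℝ} (hs : 0 ≤ s) {z w : ℂ} (hz : 1 ≤ ‖z‖) (hw : 1 ≤ ‖w‖) :
    ‖KOE_out s w - KOE_out s z‖ ≤ ‖w - z‖ * (1 + 2 * s) := by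
  have e : KOE_out s w - KOE_out s z = (w - z) + (s : ℂ) * (w / (‖w‖ : ℂ) - z / (‖z‖ : ℂ)) := by
    rw [KOE_out, KOE_out]
    ring
  rw [e]
  refine (norm_add_le _ _).trans ?_
  rw [norm_mul, Complex.norm_real, Real.norm_of_nonneg hs]
  have := mul_le_mul_of_nonneg_left (KOE_dir hz hw) hs
  nlinarith

/-- the estimate near the circle -/
theorem KOE_near {φ : ℂ → ℂ} (hφ : Sig φ) (hne : ((φ '' Ext)ᶜ).Nonempty) {c C₁ : ℝ} (hc : 0 < c)
    (hc1 : c ≤ 1) (hC : 1 ≤ C₁) : ∃ C' : ℝ, ∀ z w : ℂ, 1 < ‖z‖ → ‖z‖ - 1 ≤ 1 / (4 * C₁) →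
      ‖w - z‖ ≤ C₁ * (‖z‖ - 1) → c * (‖z‖ - 1) ≤ ‖w‖ - 1 →
        ‖φ w - φ z‖ ≤ C' * infDist (φ z) (φ '' Ext)ᶜ := by
  obtain ⟨C0, c0, K⟩ := exists_KC
  obtain ⟨M, hM, hch⟩ := KOE_chain (η := c) (B := 2 * C₁) hc (by positivity)
  refine ⟨(M + M * M) / c0, ?_⟩
  intro z w hz hzs hwz hw
  set δ : ℝ := ‖z‖ - 1 with hδ
  have hδ0 : 0 < δ := by rw [hδ]; linarith
  have hcδ : 0 < c * δ := by positivity
  have hw1 : 1 < ‖w‖ := by linarith
  have hz0 : z ≠ 0 := norm_pos_iff.1 (by linarith)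
  have hw0 : w ≠ 0 := norm_pos_iff.1 (by linarith)
  have hs : 0 ≤ 2 * C₁ * δ := by positivity
  have hCδ : 4 * C₁ * δ ≤ 1 := by
    rw [le_div_iff₀ (by positivity)] at hzs
    linarith
  have hz' := KOE_out_norm hs hz0
  have hw' := KOE_out_norm hs hw0
  have hdist : ‖KOE_out (2 * C₁ * δ) w - KOE_out (2 * C₁ * δ) z‖ ≤ 2 * C₁ * δ := by
    refine (KOE_out_dist hs hz.le hw1.le).trans ?_
    have : ‖w - z‖ * (1 + 2 * (2 * C₁ * δ)) ≤ (C₁ * δ) * 2 := by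
      apply mul_le_mul hwz _ (by positivity) (by positivity)
      linarith
    linarith
  have hcd : c * δ ≤ δ := by nlinarith
  have e1 := hch φ (KOE_out (2 * C₁ * δ) z) δ hδ0 (KOE_univ hφ (by rw [hz']; linarith)) z
    (by rw [mem_closedBall, dist_eq_norm, norm_sub_rev, KOE_out_sub hs hz0])
    (KOE_out (2 * C₁ * δ) w) (by rw [mem_closedBall, dist_eq_norm]; exact hdist)
  have e2 := hch φ (KOE_out (2 * C₁ * δ) w) δ hδ0 (KOE_univ hφ (by rw [hw']; linarith))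
    (KOE_out (2 * C₁ * δ) w) (mem_closedBall_self hs)
    w (by rw [mem_closedBall, dist_eq_norm, norm_sub_rev, KOE_out_sub hs hw0])
  have hK : c0 * (δ * ‖deriv φ z‖) ≤ infDist (φ z) (φ '' Ext)ᶜ := by
    rw [le_infDist hne]
    intro a ha
    have := K.komit φ z δ hδ0 (KOE_univ hφ le_rfl) a
      (fun y hy hya => ha ⟨y, KOE_ball (le_refl (‖z‖ - 1)) hy, hya⟩)
    rw [dist_eq_norm]
    linarith
  have hsum : ‖φ w - φ z‖ ≤ (M + M * M) * (δ * ‖deriv φ z‖) := by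
    have t1 : ‖φ w - φ z‖ ≤ ‖φ w - φ (KOE_out (2 * C₁ * δ) w)‖ +
        ‖φ (KOE_out (2 * C₁ * δ) w) - φ z‖ := norm_sub_le_norm_sub_add_norm_sub _ _ _
    have t2 : M * (δ * ‖deriv φ (KOE_out (2 * C₁ * δ) w)‖) ≤ M * (δ * (M * ‖deriv φ z‖)) := by
      have := e1.1
      gcongr
    have := e1.2
    have := e2.2
    nlinarith
  calc ‖φ w - φ z‖ ≤ (M + M * M) * (δ * ‖deriv φ z‖) := hsum
    _ = (M + M * M) / c0 * (c0 * (δ * ‖deriv φ z‖)) := by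
        have := K.pos.ne'
        field_simp
    _ ≤ (M + M * M) / c0 * infDist (φ z) (φ '' Ext)ᶜ := by
        have := K.pos
        gcongr

/-- the estimate away from the circle -/
theorem KOE_far {φ : ℂ → ℂ} (hφ : Sig φ) (hne : ((φ '' Ext)ᶜ).Nonempty)
    (hcl : IsClosed (φ '' Ext)ᶜ) {c C₁ δ₀ : ℝ} (hc : 0 < c) (hδ₀ : 0 < δ₀) (hδ₁ : δ₀ ≤ 1) (hC : 1 ≤ C₁) :
    ∃ C' : ℝ, ∀ z w : ℂ, δ₀ ≤ ‖z‖ - 1 → ‖z‖ ≤ 2 →
      ‖w - z‖ ≤ C₁ * (‖z‖ - 1) → c * (‖z‖ - 1) ≤ ‖w‖ - 1 →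
        ‖φ w - φ z‖ ≤ C' * infDist (φ z) (φ '' Ext)ᶜ := by
  have hcpt : ∀ a b : ℝ, IsCompact {z : ℂ | a ≤ ‖z‖ ∧ ‖z‖ ≤ b} := by
    intro a b
    apply Metric.isCompact_of_isClosed_isBounded
    · exact (isClosed_le continuous_const continuous_norm).inter
        (isClosed_le continuous_norm continuous_const)
    · rw [isBounded_iff_forall_norm_le]
      exact ⟨b, fun z hz => hz.2⟩
  have hA : IsCompact {z : ℂ | 1 + δ₀ ≤ ‖z‖ ∧ ‖z‖ ≤ 2} := hcpt _ _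
  have hB : IsCompact {z : ℂ | 1 + c * δ₀ ≤ ‖z‖ ∧ ‖z‖ ≤ 2 + C₁} := hcpt _ _
  have hAE : {z : ℂ | 1 + δ₀ ≤ ‖z‖ ∧ ‖z‖ ≤ 2} ⊆ Ext := fun z hz => by
    show 1 < ‖z‖
    linarith [hz.1]
  have hBE : {z : ℂ | 1 + c * δ₀ ≤ ‖z‖ ∧ ‖z‖ ≤ 2 + C₁} ⊆ Ext := fun z hz => by
    show 1 < ‖z‖
    have : 0 < c * δ₀ := by positivity
    linarith [hz.1]
  obtain ⟨MA, hMA⟩ := hA.exists_bound_of_continuousOn (hφ.diff.continuousOn.mono hAE)
  obtain ⟨MB, hMB⟩ := hB.exists_bound_of_continuousOn (hφ.diff.continuousOn.mono hBE)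
  have hcont : ContinuousOn (fun z => infDist (φ z) (φ '' Ext)ᶜ) {z : ℂ | 1 + δ₀ ≤ ‖z‖ ∧ ‖z‖ ≤ 2} :=
    (continuous_infDist_pt _).comp_continuousOn (hφ.diff.continuousOn.mono hAE)
  have hAne : {z : ℂ | 1 + δ₀ ≤ ‖z‖ ∧ ‖z‖ ≤ 2}.Nonempty := ⟨2, by
    constructor
    · simp; linarith
    · simp⟩
  obtain ⟨z₀, hz₀, hmin⟩ := hA.exists_isMinOn hAne hcont
  have hm : 0 < infDist (φ z₀) (φ '' Ext)ᶜ := by
    rw [← hcl.notMem_iff_infDist_pos hne]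
    exact fun h => h ⟨z₀, hAE hz₀, rfl⟩
  refine ⟨(MB + MA) / infDist (φ z₀) (φ '' Ext)ᶜ, ?_⟩
  intro z w hz hz2 hwz hw
  have hzA : z ∈ {z : ℂ | 1 + δ₀ ≤ ‖z‖ ∧ ‖z‖ ≤ 2} := ⟨by linarith, hz2⟩
  have hwB : w ∈ {z : ℂ | 1 + c * δ₀ ≤ ‖z‖ ∧ ‖z‖ ≤ 2 + C₁} := by
    constructor
    · have : c * δ₀ ≤ c * (‖z‖ - 1) := by gcongr
      linarith
    · have h1 : ‖w‖ ≤ ‖w - z‖ + ‖z‖ := by
        have := norm_add_le (w - z) z
        simpa using this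
      have h2 : C₁ * (‖z‖ - 1) ≤ C₁ * 1 := by
        gcongr
        linarith
      linarith
  have h1 := hMA z hzA
  have h2 := hMB w hwB
  have h3 : infDist (φ z₀) (φ '' Ext)ᶜ ≤ infDist (φ z) (φ '' Ext)ᶜ := hmin hzA
  have h4 : ‖φ w - φ z‖ ≤ MB + MA := (norm_sub_le _ _).trans (by linarith)
  have h5 : 0 ≤ MB + MA := (norm_nonneg _).trans h4
  calc ‖φ w - φ z‖ ≤ MB + MA := h4
    _ = (MB + MA) / infDist (φ z₀) (φ '' Ext)ᶜ * infDist (φ z₀) (φ '' Ext)ᶜ := by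
        field_simp
    _ ≤ (MB + MA) / infDist (φ z₀) (φ '' Ext)ᶜ * infDist (φ z) (φ '' Ext)ᶜ := by
        gcongr

theorem t_KOE (h1 : S_SIG) (h2 : S_NE) : S_KOE := by
  intro φ hφ c C hc
  have hne := h2 φ hφ
  have hcl : IsClosed (φ '' Ext)ᶜ := (h1 φ hφ).2.2.2.2.2.isClosed
  have hC₁ : 1 ≤ max C 1 := le_max_right _ _
  have hc' : 0 < min c 1 := lt_min hc one_pos
  obtain ⟨C', hC'⟩ := KOE_near hφ hne hc' (min_le_right _ _) hC₁
  have hd1 : 0 < 1 / (4 * max C 1) := by positivity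
  have hd2 : 1 / (4 * max C 1) ≤ 1 := by
    rw [div_le_one (by positivity)]
    linarith
  obtain ⟨C'', hC''⟩ := KOE_far hφ hne hcl (δ₀ := 1 / (4 * max C 1)) hc' hd1 hd2 hC₁
  refine ⟨max C' C'', ?_⟩
  intro z w hz hz2 hwz hw
  have hδ : 0 < ‖z‖ - 1 := by linarith
  have hwz' : ‖w - z‖ ≤ max C 1 * (‖z‖ - 1) := by
    refine hwz.trans ?_
    gcongr
    exact le_max_left _ _
  have hw' : min c 1 * (‖z‖ - 1) ≤ ‖w‖ - 1 := by
    refine le_trans ?_ hw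
    gcongr
    exact min_le_left _ _
  have hn : 0 ≤ infDist (φ z) (φ '' Ext)ᶜ := infDist_nonneg
  rcases le_total (‖z‖ - 1) (1 / (4 * max C 1)) with h | h
  · refine (hC' z w hz h hwz' hw').trans ?_
    gcongr
    exact le_max_left _ _
  · refine (hC'' z w h hz2 hwz' hw').trans ?_
    gcongr
    exact le_max_right _ _

end Pool.Agent.H212.MB
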