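import Pool.Agent.H212.MB.Stm

/-!
# Project MB, job LA: the length-area estimate
-/

set_option autoImplicit false

open Filter Metric Set Topology MeasureTheory
open scoped ContDiff ComplexConjugate ENNReal

namespace Pool.Agent.H212.MB

namespace LAaux

/-- the point of the circle -/
noncomputable def pt (p : ℂ) (r θ : ℝ) : ℂ := p + r * (Real.cos θ + Real.sin θ * Complex.I)

theorem continuous_pt (p : ℂ) : Continuous (fun x : ℝ × ℝ => pt p x.1 x.2) := by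
  unfold pt
  fun_prop

theorem norm_pt (p : ℂ) (r θ : ℝ) : ‖pt p r θ - p‖ = |r| := by
  unfold pt
  rw [add_sub_cancel_left, norm_mul, Complex.norm_real, Real.norm_eq_abs, Complex.ofReal_cos,
    Complex.ofReal_sin, ← Complex.exp_mul_I, Complex.norm_exp_ofReal_mul_I, mul_one]

theorem pt_arg {p w : ℂ} {r : ℝ} (hw : ‖w - p‖ = r) : pt p r (Complex.arg (w - p)) = w := by
  have h2 := Complex.norm_mul_exp_arg_mul_I (w - p)
  rw [hw, Complex.exp_mul_I] at h2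
  unfold pt
  rw [Complex.ofReal_cos, Complex.ofReal_sin, h2]
  ring

theorem hasDerivAt_pt (p : ℂ) (r θ : ℝ) :
    HasDerivAt (pt p r) (r * (-Real.sin θ + Real.cos θ * Complex.I)) θ := by
  have h2 : HasDerivAt (fun θ : ℝ => ((Real.cos θ : ℝ) : ℂ)) ((-Real.sin θ : ℝ) : ℂ) θ :=
    (Real.hasDerivAt_cos θ).ofReal_comp
  have h3 : HasDerivAt (fun θ : ℝ => ((Real.sin θ : ℝ) : ℂ)) ((Real.cos θ : ℝ) : ℂ) θ :=
    (Real.hasDerivAt_sin θ).ofReal_comp
  have h4 := ((h2.add (h3.mul_const Complex.I)).const_mul (r : ℂ)).const_add p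
  have h5 : ((-Real.sin θ : ℝ) : ℂ) = -((Real.sin θ : ℝ) : ℂ) := by push_cast; rfl
  rw [h5] at h4
  exact h4

theorem norm_deriv_pt (r θ : ℝ) :
    ‖(r : ℂ) * (-Real.sin θ + Real.cos θ * Complex.I)‖ = |r| := by
  have h1 : (-(Real.sin θ : ℂ) + Real.cos θ * Complex.I) =
      Complex.I * Complex.exp (θ * Complex.I) := by
    rw [Complex.exp_mul_I, Complex.ofReal_cos, Complex.ofReal_sin]
    linear_combination (-Complex.sin θ) * Complex.I_mul_I
  rw [h1, norm_mul, norm_mul, Complex.norm_real, Real.norm_eq_abs, Complex.norm_I,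
    Complex.norm_exp_ofReal_mul_I]
  ring

/-- the fundamental theorem of calculus with `lintegral` -/
theorem osc {γ : ℝ → ℂ} {a b : ℝ} (hab : a ≤ b) (hc : ContinuousOn γ (Icc a b)) {S : Set ℝ}
    (hS : S.Countable) (hd : ∀ θ ∈ Ioo a b \ S, DifferentiableAt ℝ γ θ) :
    ‖γ b - γ a‖ₑ ≤ ∫⁻ θ in Ioo a b, ‖deriv γ θ‖ₑ := by
  by_cases hfin : (∫⁻ θ in Ioo a b, ‖deriv γ θ‖ₑ) = ⊤
  · rw [hfin]
    exact le_top
  have hint : IntegrableOn (deriv γ) (Ioo a b) := by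
    refine ⟨(measurable_deriv γ).aestronglyMeasurable, ?_⟩
    exact lt_top_iff_ne_top.2 hfin
  have hint' : IntervalIntegrable (deriv γ) volume a b := by
    rw [intervalIntegrable_iff_integrableOn_Ioo_of_le hab]
    exact hint
  have h1 : ∫ θ in a..b, deriv γ θ = γ b - γ a :=
    MeasureTheory.integral_eq_of_hasDerivAt_off_countable_of_le γ (deriv γ) hab hS hc
      (fun θ hθ => (hd θ hθ).hasDerivAt) hint'
  rw [← h1, intervalIntegral.integral_of_le hab, integral_Ioc_eq_integral_Ioo]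
  exact enorm_integral_le_lintegral_enorm _

/-- the bad parameters -/
theorem countable_bad {p : ℂ} {r : ℝ} (hr : 0 < r) (h : p ≠ 0 ∨ r ≠ 1) :
    {θ : ℝ | ‖pt p r θ‖ = 1}.Countable := by
  by_cases hp : p = 0
  · have hr1 : r ≠ 1 := by
      rcases h with h | h
      · exact absurd hp h
      · exact h
    have : {θ : ℝ | ‖pt p r θ‖ = 1} = ∅ := by
      ext θ
      simp only [mem_ofPred_eq, mem_empty_iff_false, iff_false]
      have h1 := norm_pt p r θ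
      rw [hp, sub_zero, abs_of_pos hr] at h1
      rw [hp, h1]
      exact hr1
    rw [this]
    exact countable_empty
  · -- cos (θ - arg p) is determined
    obtain ⟨φ, hφ⟩ : ∃ φ : ℝ, φ = Complex.arg p := ⟨_, rfl⟩
    have hpn : 0 < ‖p‖ := norm_pos_iff.2 hp
    have hsq : ∀ θ : ℝ, ‖pt p r θ‖ ^ 2 = ‖p‖ ^ 2 + r ^ 2 + 2 * r * ‖p‖ * Real.cos (θ - φ) := by
      intro θ
      have h1 : p.re = ‖p‖ * Real.cos φ := by
        rw [hφ]
        exact (Complex.norm_mul_cos_arg p).symm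
      have h2 : p.im = ‖p‖ * Real.sin φ := by
        rw [hφ]
        exact (Complex.norm_mul_sin_arg p).symm
      have hre : (pt p r θ).re = p.re + r * Real.cos θ := by
        simp [pt, Complex.cos_ofReal_re, Complex.sin_ofReal_im]
      have him : (pt p r θ).im = p.im + r * Real.sin θ := by
        simp [pt, Complex.cos_ofReal_re, Complex.sin_ofReal_re, Complex.cos_ofReal_im]
      have h3 : ‖pt p r θ‖ ^ 2 = (pt p r θ).re ^ 2 + (pt p r θ).im ^ 2 := by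
        rw [← Complex.normSq_eq_norm_sq, Complex.normSq_apply]
        ring
      rw [h3, hre, him, h1, h2, Real.cos_sub]
      have h4 := Real.sin_sq_add_cos_sq θ
      have h5 := Real.sin_sq_add_cos_sq φ
      linear_combination r ^ 2 * h4 + ‖p‖ ^ 2 * h5
    rcases Set.eq_empty_or_nonempty {θ : ℝ | ‖pt p r θ‖ = 1} with h0 | ⟨θ₀, hθ₀⟩
    · rw [h0]
      exact countable_empty
    · have hsub : {θ : ℝ | ‖pt p r θ‖ = 1} ⊆
          (range fun k : ℤ => φ + (2 * k * Real.pi + (θ₀ - φ))) ∪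
          (range fun k : ℤ => φ + (2 * k * Real.pi - (θ₀ - φ))) := by
        intro θ hθ
        have e0 := hsq θ₀
        have e1 := hsq θ
        rw [mem_ofPred_eq] at hθ hθ₀
        rw [hθ₀] at e0
        rw [hθ] at e1
        have e2 : 2 * r * ‖p‖ * (Real.cos (θ₀ - φ) - Real.cos (θ - φ)) = 0 := by
          linear_combination e1 - e0
        have e3 : Real.cos (θ₀ - φ) = Real.cos (θ - φ) := by
          have h6 : (2 * r * ‖p‖) ≠ 0 := by positivity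
          have h7 := (mul_eq_zero.1 e2).resolve_left h6
          linarith
        rcases Real.cos_eq_cos_iff.1 e3 with ⟨k, hk | hk⟩
        · left
          refine ⟨k, ?_⟩
          show φ + (2 * k * Real.pi + (θ₀ - φ)) = θ
          linarith
        · right
          refine ⟨k, ?_⟩
          show φ + (2 * k * Real.pi - (θ₀ - φ)) = θ
          linarith
      exact ((countable_range _).union (countable_range _)).mono hsub

/-- the complement of a disc is connected -/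
theorem preconn (y₀ : ℂ) (c : ℝ) (hc : 0 ≤ c) : IsPreconnected {y : ℂ | c ≤ ‖y - y₀‖} := by
  have h1 : {y : ℂ | c ≤ ‖y - y₀‖} = (fun x : ℝ × ℝ => pt y₀ x.1 x.2) '' (Ici c ×ˢ univ) := by
    ext y
    constructor
    · intro hy
      exact ⟨(‖y - y₀‖, Complex.arg (y - y₀)), ⟨hy, mem_univ _⟩, pt_arg rfl⟩
    · rintro ⟨⟨R, θ⟩, ⟨hR, -⟩, rfl⟩
      show c ≤ ‖pt y₀ R θ - y₀‖
      have hR' : c ≤ R := hR
      rw [norm_pt, abs_of_nonneg (hc.trans hR')]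
      exact hR'
  rw [h1]
  exact (isPreconnected_Ici.prod isPreconnected_univ).image _ (continuous_pt y₀).continuousOn

/-- step (1) -/
theorem step1 (Q : ℂ ≃ₜ ℂ) {x a : ℂ} {r ρ : ℝ} (ha : ‖a - x‖ ≤ r) (hρ0 : 0 < ρ)
    (hρ : ρ < ‖Q.symm a - Q.symm x‖) : ∃ y₀, ‖y₀ - x‖ ≤ r ∧ ‖Q.symm y₀ - Q.symm x‖ = ρ := by
  have hr : 0 ≤ r := (norm_nonneg _).trans ha
  have h1 : IsPreconnected (closedBall x r) := (convex_closedBall x r).isPreconnected
  have h2 : ContinuousOn (fun y => ‖Q.symm y - Q.symm x‖) (closedBall x r) :=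
    (Q.symm.continuous.sub continuous_const).norm.continuousOn
  have h3 := h1.intermediate_value (mem_closedBall_self hr)
    (mem_closedBall_iff_norm.2 ha) h2
  obtain ⟨y, hy, hy'⟩ := h3 (show ρ ∈ Icc _ _ by
    refine ⟨?_, hρ.le⟩
    show ‖Q.symm x - Q.symm x‖ ≤ ρ
    rw [sub_self, norm_zero]
    exact hρ0.le)
  exact ⟨y, mem_closedBall_iff_norm.1 hy, hy'⟩

/-- step (2) -/
theorem step2 (Q : ℂ ≃ₜ ℂ) {x b y₀ : ℂ} {r ρ : ℝ} (hr : 0 < r) (hb : ‖b - x‖ = r)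
    (hρ : ‖Q.symm b - Q.symm x‖ < ρ) : ∃ y₁, r / 2 ≤ ‖y₁ - y₀‖ ∧ ‖Q.symm y₁ - Q.symm x‖ = ρ := by
  have h1 := preconn y₀ (r / 2) (by positivity)
  have h2 : ContinuousOn (fun y => ‖Q.symm y - Q.symm x‖) {y : ℂ | r / 2 ≤ ‖y - y₀‖} :=
    (Q.symm.continuous.sub continuous_const).norm.continuousOn
  -- a point inside
  obtain ⟨u, hu, hu'⟩ : ∃ u, r / 2 ≤ ‖u - y₀‖ ∧ ‖Q.symm u - Q.symm x‖ ≤ ρ := by
    by_cases hx : r / 2 ≤ ‖x - y₀‖
    · refine ⟨x, hx, ?_⟩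
      rw [sub_self, norm_zero]
      exact (norm_nonneg _).trans hρ.le
    · refine ⟨b, ?_, hρ.le⟩
      by_contra hb'
      push Not at hx hb'
      have h3 : ‖b - x‖ ≤ ‖b - y₀‖ + ‖x - y₀‖ := by
        have : b - x = (b - y₀) - (x - y₀) := by ring
        rw [this]
        exact norm_sub_le _ _
      linarith
  -- a point outside
  obtain ⟨v, hv, hv'⟩ : ∃ v, r / 2 ≤ ‖v - y₀‖ ∧ ρ ≤ ‖Q.symm v - Q.symm x‖ := by
    have h3 : IsCompact (Q '' closedBall (Q.symm x) ρ) :=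
      (isCompact_closedBall _ _).image Q.continuous
    obtain ⟨R, hR⟩ := h3.isBounded.subset_closedBall y₀
    obtain ⟨v, hvdef⟩ : ∃ v : ℂ, v = y₀ + ((max R (r / 2) + 1 : ℝ) : ℂ) := ⟨_, rfl⟩
    have hvn : ‖v - y₀‖ = max R (r / 2) + 1 := by
      rw [hvdef, add_sub_cancel_left, Complex.norm_real, Real.norm_eq_abs, abs_of_nonneg]
      have := le_max_right R (r / 2)
      linarith
    refine ⟨v, ?_, ?_⟩
    · rw [hvn]
      have := le_max_right R (r / 2)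
      linarith
    · by_contra hcon
      push Not at hcon
      have h4 : v ∈ Q '' closedBall (Q.symm x) ρ :=
        ⟨Q.symm v, mem_closedBall_iff_norm.2 hcon.le, Q.apply_symm_apply v⟩
      have h5 := mem_closedBall_iff_norm.1 (hR h4)
      have := le_max_left R (r / 2)
      linarith
  have h3 := h1.intermediate_value (f := fun y => ‖Q.symm y - Q.symm x‖)
    (show u ∈ {y : ℂ | r / 2 ≤ ‖y - y₀‖} from hu)
    (show v ∈ {y : ℂ | r / 2 ≤ ‖y - y₀‖} from hv) h2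
  obtain ⟨y, hy, hy'⟩ := h3 (show ρ ∈ Icc _ _ from ⟨hu', hv'⟩)
  exact ⟨y, hy, hy'⟩

/-- step (3), one dimensional part: `u = ‖γ - γ α‖` reaches `c` between `α` and `β`. -/
theorem step3a {γ : ℝ → ℂ} (hγ : Continuous γ) {c : ℝ} {α β : ℝ} (hαβ : α ≤ β)
    (hc : c ≤ ‖γ β - γ α‖) (hc0 : 0 < c) :
    ∃ β' ∈ Icc α β, ‖γ β' - γ α‖ = c ∧ ∀ θ ∈ Ioo α β', ‖γ θ - γ α‖ < c := by
  obtain ⟨u, hu⟩ : ∃ u : ℝ → ℝ, u = fun θ => ‖γ θ - γ α‖ := ⟨_, rfl⟩
  have huc : Continuous u := by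
    rw [hu]
    exact (hγ.sub continuous_const).norm
  have hK : IsCompact (Icc α β ∩ {θ | c ≤ u θ}) :=
    isCompact_Icc.inter_right (isClosed_le continuous_const huc)
  have hne : (Icc α β ∩ {θ | c ≤ u θ}).Nonempty :=
    ⟨β, right_mem_Icc.2 hαβ, by rw [hu]; exact hc⟩
  obtain ⟨β', ⟨hβ'1, hβ'2⟩, hmin⟩ := hK.exists_isLeast hne
  have hlt : ∀ θ ∈ Ioo α β', u θ < c := by
    intro θ hθ
    by_contra hcon
    push Not at hcon
    have := hmin ⟨⟨hθ.1.le, hθ.2.le.trans hβ'1.2⟩, hcon⟩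
    exact absurd hθ.2 (not_lt.2 this)
  have hαβ' : α < β' := by
    rcases eq_or_lt_of_le hβ'1.1 with h | h
    · exfalso
      have h2 : c ≤ u β' := hβ'2
      rw [← h, hu] at h2
      simp only [sub_self, norm_zero] at h2
      linarith
    · exact h
  refine ⟨β', hβ'1, ?_, ?_⟩
  · apply le_antisymm _ (by have := hβ'2; rw [hu] at this; exact this)
    -- by continuity
    have hmem : β' ∈ closure (Ioo α β') := by
      rw [closure_Ioo hαβ'.ne]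
      exact right_mem_Icc.2 hαβ'.le
    have hsub : Ioo α β' ⊆ {θ | u θ ≤ c} := fun θ hθ => (hlt θ hθ).le
    have h3 := (isClosed_le huc continuous_const).closure_subset_iff.2 hsub hmem
    have h4 : u β' ≤ c := h3
    rw [hu] at h4
    exact h4
  · intro θ hθ
    have := hlt θ hθ
    rw [hu] at this
    exact this


theorem step3a' {γ : ℝ → ℂ} (hγ : Continuous γ) {c : ℝ} {α β : ℝ} (hαβ : β ≤ α)
    (hc : c ≤ ‖γ β - γ α‖) (hc0 : 0 < c) :
    ∃ β' ∈ Icc β α, ‖γ β' - γ α‖ = c ∧ ∀ θ ∈ Ioo β' α, ‖γ θ - γ α‖ < c := by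
  obtain ⟨β'', h1, h2, h3⟩ := step3a (γ := fun θ => γ (-θ)) (hγ.comp continuous_neg) (c := c)
    (α := -α) (β := -β) (neg_le_neg hαβ) (by simpa using hc) hc0
  refine ⟨-β'', ⟨by linarith [h1.2], by linarith [h1.1]⟩, by simpa using h2, ?_⟩
  intro θ hθ
  have := h3 (-θ) ⟨by linarith [hθ.2], by linarith [hθ.1]⟩
  simpa using this

/-- the set of integration -/
def UU (Q : ℂ → ℂ) (x : ℂ) (r : ℝ) : Set ℂ := Off ∩ {z | ‖Q z - x‖ < 2 * r}

/-- the integrand -/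
noncomputable def HH (Q : ℂ → ℂ) (x : ℂ) (r : ℝ) (z : ℂ) : ℝ≥0∞ :=
  (UU Q x r).indicator (fun z => ‖fderiv ℝ Q z‖ₑ) z

theorem isOpen_UU {Q : ℂ → ℂ} (hQ : Continuous Q) (x : ℂ) (r : ℝ) : IsOpen (UU Q x r) :=
  isOpen_Off.inter (isOpen_lt (hQ.sub continuous_const).norm continuous_const)

theorem measurable_HH {Q : ℂ → ℂ} (hQ : Continuous Q) (x : ℂ) (r : ℝ) : Measurable (HH Q x r) :=
  (measurable_fderiv ℝ Q).enorm.indicator (isOpen_UU hQ x r).measurableSet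

theorem HH_ne_top (Q : ℂ → ℂ) (x : ℂ) (r : ℝ) (z : ℂ) : HH Q x r z ≠ ⊤ := by
  unfold HH
  by_cases hz : z ∈ UU Q x r
  · rw [indicator_of_mem hz]
    exact enorm_ne_top
  · rw [indicator_of_notMem hz]
    exact ENNReal.zero_ne_top

theorem step3b {k : ℝ} {Q : ℂ → ℂ} (hQc : Continuous Q) (hQ : QCOff k Q) {p x : ℂ} {r ρ : ℝ}
    (hρ : 0 < ρ) (hbad : p ≠ 0 ∨ ρ ≠ 1) {l m : ℝ} (hlm : l ≤ m) (hl : -Real.pi ≤ l)
    (hm : m ≤ Real.pi) (hin : ∀ θ ∈ Ioo l m, ‖Q (pt p ρ θ) - x‖ < 2 * r) :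
    ENNReal.ofReal ‖Q (pt p ρ m) - Q (pt p ρ l)‖ ≤
      ∫⁻ θ in Ioo (-Real.pi) Real.pi, ENNReal.ofReal ρ * HH Q x r (pt p ρ θ) := by
  have hS := countable_bad hρ hbad
  obtain ⟨γ, hγ⟩ : ∃ γ : ℝ → ℂ, γ = fun θ => Q (pt p ρ θ) := ⟨_, rfl⟩
  have hγc : Continuous γ := by
    rw [hγ]
    exact hQc.comp ((continuous_pt p).comp (by fun_prop : Continuous fun θ : ℝ => (ρ, θ)))
  have hder : ∀ θ, θ ∉ {θ : ℝ | ‖pt p ρ θ‖ = 1} →
      HasDerivAt γ (fderiv ℝ Q (pt p ρ θ) (ρ * (-Real.sin θ + Real.cos θ * Complex.I))) θ := by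
    intro θ hθ
    have hz : pt p ρ θ ∈ Off := hθ
    have h1 : DifferentiableAt ℝ Q (pt p ρ θ) :=
      (hQ.smooth.contDiffAt (isOpen_Off.mem_nhds hz)).differentiableAt (by norm_num)
    rw [hγ]
    exact h1.hasFDerivAt.comp_hasDerivAt θ (hasDerivAt_pt p ρ θ)
  have h1 := osc hlm hγc.continuousOn hS (fun θ hθ => (hder θ hθ.2).differentiableAt)
  have h2 : ENNReal.ofReal ‖Q (pt p ρ m) - Q (pt p ρ l)‖ = ‖γ m - γ l‖ₑ := by
    rw [hγ, ofReal_norm]
  rw [h2]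
  refine h1.trans ?_
  have h3 : ∫⁻ θ in Ioo l m, ‖deriv γ θ‖ₑ ≤
      ∫⁻ θ in Ioo l m, ENNReal.ofReal ρ * HH Q x r (pt p ρ θ) := by
    apply lintegral_mono_ae
    have hae : ∀ᵐ θ ∂(volume.restrict (Ioo l m)), θ ∉ {θ : ℝ | ‖pt p ρ θ‖ = 1} := by
      apply ae_restrict_of_ae
      exact hS.ae_notMem _
    filter_upwards [hae, ae_restrict_mem measurableSet_Ioo] with θ hθ hθ'
    have hz : pt p ρ θ ∈ UU Q x r := ⟨hθ, hin θ hθ'⟩
    unfold HH
    rw [indicator_of_mem hz, (hder θ hθ).deriv, ← ofReal_norm, ← ofReal_norm,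
      ← ENNReal.ofReal_mul hρ.le]
    apply ENNReal.ofReal_le_ofReal
    have h4 := (fderiv ℝ Q (pt p ρ θ)).le_opNorm (ρ * (-Real.sin θ + Real.cos θ * Complex.I))
    rw [norm_deriv_pt, abs_of_pos hρ] at h4
    linarith
  refine h3.trans ?_
  apply lintegral_mono_set
  exact Ioo_subset_Ioo hl hm

theorem step3 {k : ℝ} (Q : ℂ ≃ₜ ℂ) (hQ : QCOff k Q) {p x : ℂ} {r ρ : ℝ}
    (hr : 0 < r) (hρ : 0 < ρ) (hbad : p ≠ 0 ∨ ρ ≠ 1) {y₀ y₁ : ℂ} (h0 : ‖y₀ - x‖ ≤ r)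
    (h01 : r / 2 ≤ ‖y₁ - y₀‖) (hy0 : ‖Q.symm y₀ - p‖ = ρ) (hy1 : ‖Q.symm y₁ - p‖ = ρ) :
    ENNReal.ofReal (r / 2) ≤
      ∫⁻ θ in Ioo (-Real.pi) Real.pi, ENNReal.ofReal ρ * HH Q x r (pt p ρ θ) := by
  obtain ⟨γ, hγ⟩ : ∃ γ : ℝ → ℂ, γ = fun θ => Q (pt p ρ θ) := ⟨_, rfl⟩
  have hγc : Continuous γ := by
    rw [hγ]
    exact Q.continuous.comp
      ((continuous_pt p).comp (by fun_prop : Continuous fun θ : ℝ => (ρ, θ)))
  obtain ⟨α, hα⟩ : ∃ α, α = Complex.arg (Q.symm y₀ - p) := ⟨_, rfl⟩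
  obtain ⟨β, hβ⟩ : ∃ β, β = Complex.arg (Q.symm y₁ - p) := ⟨_, rfl⟩
  have hα1 : -Real.pi ≤ α := by rw [hα]; exact (Complex.neg_pi_lt_arg _).le
  have hα2 : α ≤ Real.pi := by rw [hα]; exact Complex.arg_le_pi _
  have hβ1 : -Real.pi ≤ β := by rw [hβ]; exact (Complex.neg_pi_lt_arg _).le
  have hβ2 : β ≤ Real.pi := by rw [hβ]; exact Complex.arg_le_pi _
  have eα : γ α = y₀ := by
    rw [hγ, hα]
    show Q (pt p ρ (Complex.arg (Q.symm y₀ - p))) = y₀
    rw [pt_arg hy0, Homeomorph.apply_symm_apply]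
  have eβ : γ β = y₁ := by
    rw [hγ, hβ]
    show Q (pt p ρ (Complex.arg (Q.symm y₁ - p))) = y₁
    rw [pt_arg hy1, Homeomorph.apply_symm_apply]
  have hnear : ∀ θ, ‖γ θ - γ α‖ < r / 2 → ‖Q (pt p ρ θ) - x‖ < 2 * r := by
    intro θ hθ
    rw [eα, hγ] at hθ
    have h2 : ‖Q (pt p ρ θ) - x‖ ≤ ‖Q (pt p ρ θ) - y₀‖ + ‖y₀ - x‖ := by
      have : Q (pt p ρ θ) - x = (Q (pt p ρ θ) - y₀) + (y₀ - x) := by ring
      rw [this]
      exact norm_add_le _ _
    linarith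
  have hc : r / 2 ≤ ‖γ β - γ α‖ := by rw [eα, eβ]; exact h01
  rcases le_total α β with hαβ | hαβ
  · obtain ⟨β', hb1, hb2, hb3⟩ := step3a hγc hαβ hc (by positivity)
    have h5 := step3b Q.continuous hQ hρ hbad (x := x) (r := r) hb1.1 hα1 (hb1.2.trans hβ2)
      (fun θ hθ => hnear θ (hb3 θ hθ))
    have h6 : ‖Q (pt p ρ β') - Q (pt p ρ α)‖ = r / 2 := by
      rw [hγ] at hb2
      exact hb2
    rw [h6] at h5
    exact h5
  · obtain ⟨β', hb1, hb2, hb3⟩ := step3a' hγc hαβ hc (by positivity)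
    have h5 := step3b Q.continuous hQ hρ hbad (x := x) (r := r) hb1.2 (hβ1.trans hb1.1) hα2
      (fun θ hθ => hnear θ (hb3 θ hθ))
    have h6 : ‖Q (pt p ρ α) - Q (pt p ρ β')‖ = r / 2 := by
      rw [hγ] at hb2
      rw [norm_sub_rev]
      exact hb2
    rw [h6] at h5
    exact h5

/-- step (4) -/
theorem step4 {Q : ℂ → ℂ} {p x : ℂ} {r ρ : ℝ} (hr : 0 < r) (hρ : 0 < ρ)
    (h : ENNReal.ofReal (r / 2) ≤
      ∫⁻ θ in Ioo (-Real.pi) Real.pi, ENNReal.ofReal ρ * HH Q x r (pt p ρ θ)) :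
    ENNReal.ofReal (r ^ 2 / (8 * Real.pi) * (1 / ρ)) ≤
      ∫⁻ θ in Ioo (-Real.pi) Real.pi, ENNReal.ofReal ρ * HH Q x r (pt p ρ θ) ^ 2 := by
  have hpi := Real.pi_pos
  have hpt : ∀ θ, ENNReal.ofReal ρ * HH Q x r (pt p ρ θ) ≤
      ENNReal.ofReal (2 * Real.pi * ρ / r) * (ENNReal.ofReal ρ * HH Q x r (pt p ρ θ) ^ 2) +
      ENNReal.ofReal (r / (8 * Real.pi)) := by
    intro θ
    obtain ⟨y, hy0, hy⟩ : ∃ y : ℝ, 0 ≤ y ∧ HH Q x r (pt p ρ θ) = ENNReal.ofReal y :=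
      ⟨(HH Q x r (pt p ρ θ)).toReal, ENNReal.toReal_nonneg,
        (ENNReal.ofReal_toReal (HH_ne_top _ _ _ _)).symm⟩
    rw [hy, ← ENNReal.ofReal_pow hy0, ← ENNReal.ofReal_mul hρ.le, ← ENNReal.ofReal_mul hρ.le,
      ← ENNReal.ofReal_mul (by positivity), ← ENNReal.ofReal_add (by positivity) (by positivity)]
    apply ENNReal.ofReal_le_ofReal
    have h1 : 2 * Real.pi * ρ / r * (ρ * y ^ 2) + r / (8 * Real.pi) - ρ * y =
        2 * Real.pi / r * (ρ * y - r / (4 * Real.pi)) ^ 2 := by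
      field_simp
      ring
    have h2 : 0 ≤ 2 * Real.pi / r * (ρ * y - r / (4 * Real.pi)) ^ 2 := by positivity
    linarith
  have h1 : ENNReal.ofReal (r / 2) ≤ ENNReal.ofReal (2 * Real.pi * ρ / r) *
      (∫⁻ θ in Ioo (-Real.pi) Real.pi, ENNReal.ofReal ρ * HH Q x r (pt p ρ θ) ^ 2) +
      ENNReal.ofReal (r / 4) := by
    refine h.trans ((lintegral_mono hpt).trans ?_)
    rw [lintegral_add_right _ measurable_const, lintegral_const_mul' _ _ ENNReal.ofReal_ne_top,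
      setLIntegral_const, Real.volume_Ioo, ← ENNReal.ofReal_mul (by positivity)]
    have h3 : r / (8 * Real.pi) * (Real.pi - -Real.pi) = r / 4 := by
      field_simp
      ring
    rw [h3]
  have h2 : ENNReal.ofReal (r / 2) = ENNReal.ofReal (r / 4) + ENNReal.ofReal (r / 4) := by
    rw [← ENNReal.ofReal_add (by positivity) (by positivity)]
    congr 1
    ring
  rw [h2] at h1
  have h3 := (ENNReal.add_le_add_iff_right ENNReal.ofReal_ne_top).1 h1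
  have h4 := mul_le_mul_right h3 (ENNReal.ofReal (r / (2 * Real.pi * ρ)))
  rw [← ENNReal.ofReal_mul (by positivity), ← mul_assoc, ← ENNReal.ofReal_mul (by positivity)] at h4
  have h5 : r / (2 * Real.pi * ρ) * (2 * Real.pi * ρ / r) = 1 := by
    field_simp
  have h6 : r / (2 * Real.pi * ρ) * (r / 4) = r ^ 2 / (8 * Real.pi) * (1 / ρ) := by
    field_simp
    ring
  rw [h5, h6, ENNReal.ofReal_one, one_mul] at h4
  exact h4

/-- the area estimate -/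
theorem area {Q : ℂ → ℂ} (hQ : Continuous Q) (p x : ℂ) {r s t : ℝ} (hs : 0 < s) (hst : s ≤ t)
    (h : ∀ᵐ ρ ∂(volume.restrict (Ioo s t)), ENNReal.ofReal (r ^ 2 / (8 * Real.pi) * (1 / ρ)) ≤
      ∫⁻ θ in Ioo (-Real.pi) Real.pi, ENNReal.ofReal ρ * HH Q x r (pt p ρ θ) ^ 2) :
    ENNReal.ofReal (r ^ 2 / (8 * Real.pi) * Real.log (t / s)) ≤ ∫⁻ z, HH Q x r z ^ 2 := by
  have hpi := Real.pi_pos
  have hm := measurable_HH hQ x r
  have h1 : ∫⁻ z, HH Q x r z ^ 2 = ∫⁻ x' : ℝ × ℝ in polarCoord.target,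
      ENNReal.ofReal x'.1 * HH Q x r (pt p x'.1 x'.2) ^ 2 := by
    rw [← lintegral_add_left_eq_self (fun z => HH Q x r z ^ 2) p,
      ← Complex.lintegral_comp_polarCoord_symm]
    congr 1
    funext x'
    rw [Complex.polarCoord_symm_apply, smul_eq_mul]
    rfl
  have h2 : ∫⁻ x' : ℝ × ℝ in Ioo s t ×ˢ Ioo (-Real.pi) Real.pi,
      ENNReal.ofReal x'.1 * HH Q x r (pt p x'.1 x'.2) ^ 2 ≤
      ∫⁻ x' : ℝ × ℝ in polarCoord.target, ENNReal.ofReal x'.1 * HH Q x r (pt p x'.1 x'.2) ^ 2 := by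
    apply lintegral_mono_set
    rintro ⟨u, θ⟩ ⟨hu, hθ⟩
    exact ⟨hs.trans hu.1, hθ⟩
  have h3 : ∫⁻ x' : ℝ × ℝ in Ioo s t ×ˢ Ioo (-Real.pi) Real.pi,
      ENNReal.ofReal x'.1 * HH Q x r (pt p x'.1 x'.2) ^ 2 =
      ∫⁻ ρ in Ioo s t, ∫⁻ θ in Ioo (-Real.pi) Real.pi,
        ENNReal.ofReal ρ * HH Q x r (pt p ρ θ) ^ 2 := by
    rw [Measure.volume_eq_prod, ← Measure.prod_restrict, lintegral_prod]
    apply Measurable.aemeasurable
    exact (measurable_fst.ennreal_ofReal).mul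
      ((hm.comp (continuous_pt p).measurable).pow_const 2)
  have h7 : ∫⁻ ρ in Ioo s t, ENNReal.ofReal (r ^ 2 / (8 * Real.pi) * (1 / ρ)) ≤
      ∫⁻ z, HH Q x r z ^ 2 := by
    rw [h1]
    refine le_trans ?_ h2
    rw [h3]
    exact lintegral_mono_ae h
  refine le_trans (le_of_eq ?_) h7
  have hcon : ContinuousOn (fun ρ : ℝ => r ^ 2 / (8 * Real.pi) * (1 / ρ)) (Icc s t) := by
    apply ContinuousOn.mul continuousOn_const
    apply ContinuousOn.div continuousOn_const continuousOn_id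
    intro ρ hρ
    exact (hs.trans_le hρ.1).ne'
  rw [← ofReal_integral_eq_lintegral_ofReal]
  · congr 1
    rw [← integral_Ioc_eq_integral_Ioo, ← intervalIntegral.integral_of_le hst,
      intervalIntegral.integral_const_mul, integral_one_div_of_pos hs (hs.trans_le hst)]
  · exact (hcon.integrableOn_Icc).mono_set Ioo_subset_Icc_self
  · refine (ae_restrict_iff' measurableSet_Ioo).2 (Filter.Eventually.of_forall fun ρ hρ => ?_)
    have : 0 < ρ := hs.trans hρ.1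
    show (0 : ℝ) ≤ r ^ 2 / (8 * Real.pi) * (1 / ρ)
    positivity

theorem main (hEN : S_EN) {k : ℝ} (hk0 : 0 ≤ k) (hk1 : k < 1) (Q : ℂ ≃ₜ ℂ) (hQ : QCOff k Q)
    {x a b : ℂ} (hab : ‖a - x‖ ≤ ‖b - x‖) (hb : 0 < ‖b - x‖)
    (hst : ‖Q.symm b - Q.symm x‖ < ‖Q.symm a - Q.symm x‖) :
    Real.log (‖Q.symm a - Q.symm x‖ / ‖Q.symm b - Q.symm x‖) ≤
      32 * Real.pi ^ 2 * ((1 + k) / (1 - k)) := by
  have hpi := Real.pi_pos
  obtain ⟨r, hr⟩ : ∃ r, r = ‖b - x‖ := ⟨_, rfl⟩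
  rw [← hr] at hab hb
  obtain ⟨K, hK⟩ : ∃ K, K = (1 + k) / (1 - k) := ⟨_, rfl⟩
  have hKpos : 0 ≤ K := by
    rw [hK]
    have : 0 < 1 - k := by linarith
    positivity
  have hs : 0 < ‖Q.symm b - Q.symm x‖ := by
    rw [norm_pos_iff, sub_ne_zero]
    intro h
    have h2 := Q.symm.injective h
    rw [h2, sub_self, norm_zero] at hr
    linarith
  have h1 : ∀ᵐ ρ ∂(volume.restrict (Ioo ‖Q.symm b - Q.symm x‖ ‖Q.symm a - Q.symm x‖)),
      ENNReal.ofReal (r ^ 2 / (8 * Real.pi) * (1 / ρ)) ≤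
      ∫⁻ θ in Ioo (-Real.pi) Real.pi, ENNReal.ofReal ρ * HH Q x r (pt (Q.symm x) ρ θ) ^ 2 := by
    have hae : ∀ᵐ ρ ∂(volume.restrict (Ioo ‖Q.symm b - Q.symm x‖ ‖Q.symm a - Q.symm x‖)),
        ρ ∉ ({1} : Set ℝ) := by
      apply ae_restrict_of_ae
      exact (countable_singleton (1 : ℝ)).ae_notMem _
    filter_upwards [hae, ae_restrict_mem measurableSet_Ioo] with ρ hρ1 hρ
    have hρ0 : 0 < ρ := hs.trans hρ.1
    obtain ⟨y₀, hy0, hy0'⟩ := step1 Q hab hρ0 hρ.2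
    obtain ⟨y₁, hy1, hy1'⟩ := step2 Q (y₀ := y₀) hb hr.symm hρ.1
    exact step4 hb hρ0 (step3 Q hQ hb hρ0 (Or.inr hρ1) hy0 hy1 hy0' hy1')
  have h2 := area Q.continuous (Q.symm x) x (r := r) hs hst.le h1
  have hU := (isOpen_UU Q.continuous x r).measurableSet
  have h3 : ∫⁻ z, HH Q x r z ^ 2 = ∫⁻ z in UU Q x r, ‖fderiv ℝ Q z‖ₑ ^ 2 := by
    rw [← lintegral_indicator hU]
    congr 1
    funext z
    unfold HH
    by_cases hz : z ∈ UU Q x r
    · rw [indicator_of_mem hz, indicator_of_mem hz]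
    · rw [indicator_of_notMem hz, indicator_of_notMem hz]
      simp
  have h4 := (hEN k Q (UU Q x r) hk0 hk1 Q.injective hQ hU inter_subset_left).1
  have h5 : volume (Q '' UU Q x r) ≤ ENNReal.ofReal (4 * Real.pi * r ^ 2) := by
    have h6 : Q '' UU Q x r ⊆ ball x (2 * r) := by
      rintro _ ⟨z, hz, rfl⟩
      exact mem_ball_iff_norm.2 hz.2
    refine (measure_mono h6).trans (le_of_eq ?_)
    rw [Complex.volume_ball]
    have h7 : (NNReal.pi : ℝ≥0∞) = ENNReal.ofReal Real.pi := by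
      rw [← NNReal.coe_real_pi, ENNReal.ofReal_coe_nnreal]
    rw [h7, ← ENNReal.ofReal_pow (by positivity), ← ENNReal.ofReal_mul (by positivity)]
    congr 1
    ring
  have h6 : ENNReal.ofReal (r ^ 2 / (8 * Real.pi) *
      Real.log (‖Q.symm a - Q.symm x‖ / ‖Q.symm b - Q.symm x‖)) ≤
      ENNReal.ofReal (K * (4 * Real.pi * r ^ 2)) := by
    rw [ENNReal.ofReal_mul hKpos]
    refine h2.trans ?_
    rw [h3]
    refine h4.trans ?_
    rw [← hK]
    gcongr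
  have h7 := (ENNReal.ofReal_le_ofReal_iff (by positivity)).1 h6
  rw [← hK]
  have h8 : (8 * Real.pi / r ^ 2) * (r ^ 2 / (8 * Real.pi) *
      Real.log (‖Q.symm a - Q.symm x‖ / ‖Q.symm b - Q.symm x‖)) ≤
      (8 * Real.pi / r ^ 2) * (K * (4 * Real.pi * r ^ 2)) :=
    mul_le_mul_of_nonneg_left h7 (by positivity)
  have h9 : (8 * Real.pi / r ^ 2) * (K * (4 * Real.pi * r ^ 2)) = 32 * Real.pi ^ 2 * K := by
    field_simp
    ring
  have h10 : (8 * Real.pi / r ^ 2) * (r ^ 2 / (8 * Real.pi) *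
      Real.log (‖Q.symm a - Q.symm x‖ / ‖Q.symm b - Q.symm x‖)) =
      Real.log (‖Q.symm a - Q.symm x‖ / ‖Q.symm b - Q.symm x‖) := by
    field_simp
  rw [h9, h10] at h8
  exact h8

end LAaux

/-- JOB LA -/
theorem t_LA0 (h : S_EN) : S_LA0 := by
  intro k hk0 hk1
  refine ⟨Real.exp (32 * Real.pi ^ 2 * ((1 + k) / (1 - k))), Real.exp_pos _, ?_⟩
  intro Q hQ x a b hab
  have h1 : 0 ≤ 32 * Real.pi ^ 2 * ((1 + k) / (1 - k)) := by
    have : 0 < 1 - k := by linarith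
    positivity
  have hC : 1 ≤ Real.exp (32 * Real.pi ^ 2 * ((1 + k) / (1 - k))) := Real.one_le_exp h1
  rcases eq_or_lt_of_le (norm_nonneg (b - x)) with hb | hb
  · have ha : a = x := by
      rw [← hb] at hab
      exact sub_eq_zero.1 (norm_le_zero_iff.1 hab)
    rw [ha, sub_self, norm_zero]
    positivity
  · rcases le_or_gt ‖Q.symm a - Q.symm x‖ ‖Q.symm b - Q.symm x‖ with hst | hst
    · refine hst.trans ?_
      exact le_mul_of_one_le_left (norm_nonneg _) hC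
    · have hs : 0 < ‖Q.symm b - Q.symm x‖ := by
        rw [norm_pos_iff, sub_ne_zero]
        intro h
        have h2 := Q.symm.injective h
        rw [h2, sub_self, norm_zero] at hb
        exact lt_irrefl _ hb
      have h2 := LAaux.main h hk0 hk1 Q hQ hab hb hst
      have h3 := Real.exp_le_exp.2 h2
      rw [Real.exp_log (div_pos (hs.trans hst) hs), div_le_iff₀ hs] at h3
      exact h3

end Pool.Agent.H212.MB
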