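import Pool.Agent.H212.MB.Stm2

/-!
# JOB LIFT: the lift of a Blaschke product to a strip
-/

set_option autoImplicit false

open Filter Metric Set Topology MeasureTheory
open scoped ContDiff ComplexConjugate ENNReal

namespace Pool.Agent.H212.MB

namespace LIFTaux

/-- the term of the lift which belongs to the zero `a` -/
noncomputable def bt (a w : ℂ) : ℂ :=
  Complex.log (1 - a * Complex.exp (-(Complex.I * w))) -
    Complex.log (1 - conj a * Complex.exp (Complex.I * w))

theorem slit {u : ℂ} (h : ‖u‖ < 1) : 1 - u ∈ Complex.slitPlane := by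
  left
  have h1 := Complex.re_le_norm u
  simp only [Complex.sub_re, Complex.one_re]
  linarith

theorem norm_exp_I (w : ℂ) : ‖Complex.exp (Complex.I * w)‖ = Real.exp (-w.im) := by
  rw [Complex.norm_exp]
  simp

theorem norm_exp_neg_I (w : ℂ) : ‖Complex.exp (-(Complex.I * w))‖ = Real.exp w.im := by
  rw [Complex.norm_exp]
  simp

theorem lt1 {a w : ℂ} {η : ℝ} (h : ‖a‖ * Real.exp η < 1) (hw : w ∈ SH η) :
    ‖a * Complex.exp (-(Complex.I * w))‖ < 1 := by
  rw [norm_mul, norm_exp_neg_I]
  have h0 : |w.im| < η := hw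
  have h1 : w.im < η := (abs_lt.1 h0).2
  have h2 : Real.exp w.im ≤ Real.exp η := Real.exp_le_exp.2 h1.le
  have h3 : ‖a‖ * Real.exp w.im ≤ ‖a‖ * Real.exp η := mul_le_mul_of_nonneg_left h2 (norm_nonneg _)
  linarith

theorem lt2 {a w : ℂ} {η : ℝ} (h : ‖a‖ * Real.exp η < 1) (hw : w ∈ SH η) :
    ‖conj a * Complex.exp (Complex.I * w)‖ < 1 := by
  rw [norm_mul, norm_exp_I, Complex.norm_conj]
  have h0 : |w.im| < η := hw
  have h1 : -w.im < η := by have := (abs_lt.1 h0).1; linarith
  have h2 : Real.exp (-w.im) ≤ Real.exp η := Real.exp_le_exp.2 h1.le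
  have h3 : ‖a‖ * Real.exp (-w.im) ≤ ‖a‖ * Real.exp η := mul_le_mul_of_nonneg_left h2 (norm_nonneg _)
  linarith

/-- the derivative of the term -/
theorem bt_deriv {a w : ℂ} {η : ℝ} (h : ‖a‖ * Real.exp η < 1) (hw : w ∈ SH η) :
    HasDerivAt (bt a)
      (Complex.I * (a * Complex.exp (-(Complex.I * w))) / (1 - a * Complex.exp (-(Complex.I * w))) +
        Complex.I * (conj a * Complex.exp (Complex.I * w)) / (1 - conj a * Complex.exp (Complex.I * w))) w := by
  have hs1 := slit (lt1 h hw)
  have hs2 := slit (lt2 h hw)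
  have e0 : HasDerivAt (fun w : ℂ => Complex.I * w) Complex.I w := by
    simpa using (hasDerivAt_id w).const_mul Complex.I
  have e1 : HasDerivAt (fun w : ℂ => 1 - a * Complex.exp (-(Complex.I * w)))
      (-(a * (Complex.exp (-(Complex.I * w)) * (-Complex.I)))) w :=
    ((e0.neg.cexp).const_mul a).const_sub 1
  have e2 : HasDerivAt (fun w : ℂ => 1 - conj a * Complex.exp (Complex.I * w))
      (-(conj a * (Complex.exp (Complex.I * w) * Complex.I))) w :=
    ((e0.cexp).const_mul (conj a)).const_sub 1
  have e3 := (e1.clog hs1).sub (e2.clog hs2)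
  refine e3.congr_deriv ?_
  have n1 := Complex.slitPlane_ne_zero hs1
  have n2 := Complex.slitPlane_ne_zero hs2
  field_simp
  ring

theorem bt_per (a w : ℂ) : bt a (w + 2 * Real.pi) = bt a w := by
  unfold bt
  have h1 : Complex.exp (Complex.I * (w + 2 * Real.pi)) = Complex.exp (Complex.I * w) := by
    rw [show Complex.I * (w + 2 * Real.pi) = Complex.I * w + 2 * Real.pi * Complex.I by ring]
    exact Complex.exp_periodic _
  have h2 : Complex.exp (-(Complex.I * (w + 2 * Real.pi))) = Complex.exp (-(Complex.I * w)) := by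
    rw [Complex.exp_neg, h1, Complex.exp_neg]
  rw [h1, h2]

theorem exp_bt {a w : ℂ} {η : ℝ} (h : ‖a‖ * Real.exp η < 1) (hw : w ∈ SH η) :
    Complex.exp (bt a w) = (1 - a * Complex.exp (-(Complex.I * w))) / (1 - conj a * Complex.exp (Complex.I * w)) := by
  unfold bt
  rw [Complex.exp_sub, Complex.exp_log (Complex.slitPlane_ne_zero (slit (lt1 h hw))),
    Complex.exp_log (Complex.slitPlane_ne_zero (slit (lt2 h hw)))]

theorem conj_u (a : ℂ) (x : ℝ) :
    a * Complex.exp (-(Complex.I * x)) = conj (conj a * Complex.exp (Complex.I * x)) := by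
  rw [map_mul, Complex.conj_conj, ← Complex.exp_conj]
  congr 2
  rw [map_mul, Complex.conj_I, Complex.conj_ofReal]
  ring

theorem bt_real {a : ℂ} (h : ‖a‖ < 1) (x : ℝ) : (bt a x).re = 0 := by
  have h0 : ‖a‖ * Real.exp 0 < 1 := by simpa using h
  have h2 : ‖conj a * Complex.exp (Complex.I * x)‖ < 1 := by
    rw [norm_mul, norm_exp_I, Complex.norm_conj]
    simpa using h
  have hs := slit h2
  unfold bt
  rw [conj_u]
  have h3 : (1 : ℂ) - conj (conj a * Complex.exp (Complex.I * x)) =
      conj (1 - conj a * Complex.exp (Complex.I * x)) := by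
    rw [map_sub, map_one]
  rw [h3, Complex.log_conj _ (Complex.slitPlane_arg_ne_pi hs)]
  simp

theorem half_plane {u : ℂ} (h : ‖u‖ < 1) : 0 < 1 + 2 * (u / (1 - u)).re := by
  have hs := Complex.slitPlane_ne_zero (slit h)
  have h1 : 0 < Complex.normSq (1 - u) := Complex.normSq_pos.2 hs
  have h2 : Complex.normSq u < 1 := by
    rw [Complex.normSq_eq_norm_sq]
    have := norm_nonneg u
    nlinarith
  rw [Complex.div_re]
  have h3 : 1 + 2 * (u.re * (1 - u).re / Complex.normSq (1 - u) + u.im * (1 - u).im / Complex.normSq (1 - u)) =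
      (1 - Complex.normSq u) / Complex.normSq (1 - u) := by
    field_simp
    simp only [Complex.normSq_apply, Complex.sub_re, Complex.sub_im, Complex.one_re, Complex.one_im]
    ring
  rw [h3]
  exact div_pos (by linarith) h1

theorem bt_re {a : ℂ} (x : ℝ) :
    (-(Complex.I * (Complex.I * (a * Complex.exp (-(Complex.I * x))) / (1 - a * Complex.exp (-(Complex.I * x))) +
        Complex.I * (conj a * Complex.exp (Complex.I * x)) / (1 - conj a * Complex.exp (Complex.I * x))))).re =
      2 * ((conj a * Complex.exp (Complex.I * x)) / (1 - conj a * Complex.exp (Complex.I * x))).re := by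
  rw [conj_u]
  set u := conj a * Complex.exp (Complex.I * x)
  have h1 : -(Complex.I * (Complex.I * (conj u) / (1 - conj u) + Complex.I * u / (1 - u))) =
      conj (u / (1 - u)) + u / (1 - u) := by
    rw [map_div₀, map_sub, map_one]
    have := Complex.I_mul_I
    calc -(Complex.I * (Complex.I * (conj u) / (1 - conj u) + Complex.I * u / (1 - u)))
        = -(Complex.I * Complex.I) * (conj u / (1 - conj u) + u / (1 - u)) := by ring
      _ = _ := by rw [this]; ring
  rw [h1, Complex.add_re, Complex.conj_re]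
  ring

end LIFTaux

open LIFTaux

theorem t_LIFT : S_LIFT := by
  intro n hn A
  -- the width of the strip
  have hη : ∀ᶠ η in 𝓝 (0 : ℝ), ∀ i, ‖A.a i‖ * Real.exp η < 1 := by
    rw [eventually_all]
    intro i
    have hc : Continuous (fun η : ℝ => ‖A.a i‖ * Real.exp η) := by fun_prop
    have := hc.tendsto 0
    simp only [Real.exp_zero, mul_one] at this
    exact this.eventually_lt_const (A.norm_a i)
  obtain ⟨ε, hε, hη1⟩ := Metric.eventually_nhds_iff.1 hη
  set η : ℝ := ε / 2 with hηdef
  have hη0 : 0 < η := by positivity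
  have hηi : ∀ i, ‖A.a i‖ * Real.exp η < 1 := by
    apply hη1
    rw [Real.dist_eq, sub_zero, abs_of_pos hη0]
    linarith
  -- the angle of `c`
  have hc : Complex.exp (Complex.I * (Complex.arg A.c : ℂ)) = A.c := by
    have h1 := Complex.norm_mul_exp_arg_mul_I A.c
    rw [A.norm_c] at h1
    rw [mul_comm]
    simpa using h1
  have hb : Complex.exp (Complex.I * (Complex.arg A.b : ℂ)) = A.b := by
    have h1 := Complex.norm_mul_exp_arg_mul_I A.b
    rw [A.norm_b] at h1
    rw [mul_comm]
    simpa using h1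
  have hden : ∀ w ∈ SH η, A.den (Complex.exp (Complex.I * w)) ≠ 0 := by
    intro w hw
    unfold Blaschke.den
    rw [Finset.prod_ne_zero_iff]
    intro i _
    exact Complex.slitPlane_ne_zero (slit (lt2 (hηi i) hw))
  have hcast : (n : ℂ) = ((n - 1 : ℕ) : ℂ) + 1 := by
    have : n = (n - 1) + 1 := by omega
    exact_mod_cast this
  -- the exponential of the lift
  have hexp : ∀ (m : ℤ), ∀ w ∈ SH η,
      Complex.exp (Complex.I * (((Complex.arg A.c : ℂ) - 2 * Real.pi * m) + n * w -
        Complex.I * ∑ i, bt (A.a i) w)) = A.ev (Complex.exp (Complex.I * w)) := by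
    intro m w hw
    have h1 : Complex.I * (((Complex.arg A.c : ℂ) - 2 * Real.pi * m) + n * w -
        Complex.I * ∑ i, bt (A.a i) w) =
        Complex.I * (Complex.arg A.c : ℂ) + (n : ℂ) * (Complex.I * w) + (∑ i, bt (A.a i) w) +
          ((-m : ℤ) : ℂ) * (2 * Real.pi * Complex.I) := by
      push_cast
      linear_combination -(∑ i, bt (A.a i) w) * Complex.I_mul_I
    rw [h1, Complex.exp_add, Complex.exp_int_mul_two_pi_mul_I, mul_one, Complex.exp_add, Complex.exp_add,
      hc, Complex.exp_sum]
    have h2 : Complex.exp ((n : ℂ) * (Complex.I * w)) =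
        Complex.exp (Complex.I * w) * ∏ _i : Fin (n - 1), Complex.exp (Complex.I * w) := by
      rw [Finset.prod_const, Finset.card_univ, Fintype.card_fin, hcast, add_mul, Complex.exp_add, one_mul,
        Complex.exp_nat_mul, mul_comm]
    rw [h2]
    have h3 : ∀ i, Complex.exp (bt (A.a i) w) =
        (1 - A.a i * Complex.exp (-(Complex.I * w))) / (1 - conj (A.a i) * Complex.exp (Complex.I * w)) :=
      fun i => exp_bt (hηi i) hw
    simp only [h3]
    unfold Blaschke.ev Blaschke.num Blaschke.den
    rw [Finset.prod_div_distrib]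
    have h4 : (∏ _i : Fin (n - 1), Complex.exp (Complex.I * w)) *
        ∏ i, (1 - A.a i * Complex.exp (-(Complex.I * w))) = ∏ i, (Complex.exp (Complex.I * w) - A.a i) := by
      rw [← Finset.prod_mul_distrib]
      apply Finset.prod_congr rfl
      intro i _
      have h5 : Complex.exp (Complex.I * w) * Complex.exp (-(Complex.I * w)) = 1 := by
        rw [← Complex.exp_add, add_neg_cancel, Complex.exp_zero]
      linear_combination -(A.a i) * h5
    rw [← h4]
    ring
  have hx0 : ((Complex.arg A.b : ℝ) : ℂ) ∈ SH η := by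
    simp only [SH, Set.mem_ofPred_eq, Complex.ofReal_im, abs_zero]
    exact hη0
  have hevb : A.ev A.b = A.b := by
    have h := A.fix
    rw [Finset.prod_div_distrib] at h
    unfold Blaschke.ev Blaschke.num Blaschke.den
    rw [mul_div_assoc]
    exact h
  obtain ⟨m, hm⟩ : ∃ m : ℤ, Complex.I * (((Complex.arg A.c : ℂ) - 2 * Real.pi * (0 : ℤ)) + n * (Complex.arg A.b : ℂ) -
        Complex.I * ∑ i, bt (A.a i) (Complex.arg A.b : ℂ)) =
        Complex.I * (Complex.arg A.b : ℂ) + m * (2 * Real.pi * Complex.I) := by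
    rw [← Complex.exp_eq_exp_iff_exists_int, hexp 0 _ hx0, hb, hevb]
  have hderiv : ∀ w ∈ SH η, HasDerivAt (fun w : ℂ => ((Complex.arg A.c : ℂ) - 2 * Real.pi * m) + n * w -
        Complex.I * ∑ i, bt (A.a i) w)
      (n - Complex.I * ∑ i,
        (Complex.I * (A.a i * Complex.exp (-(Complex.I * w))) / (1 - A.a i * Complex.exp (-(Complex.I * w))) +
        Complex.I * (conj (A.a i) * Complex.exp (Complex.I * w)) /
          (1 - conj (A.a i) * Complex.exp (Complex.I * w)))) w := by
    intro w hw
    have e1 : HasDerivAt (fun w : ℂ => ((Complex.arg A.c : ℂ) - 2 * Real.pi * m) + n * w) (n : ℂ) w := by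
      simpa using ((hasDerivAt_id w).const_mul (n : ℂ)).const_add ((Complex.arg A.c : ℂ) - 2 * Real.pi * m)
    have e2 : HasDerivAt (fun w : ℂ => ∑ i, bt (A.a i) w) (∑ i,
        (Complex.I * (A.a i * Complex.exp (-(Complex.I * w))) / (1 - A.a i * Complex.exp (-(Complex.I * w))) +
        Complex.I * (conj (A.a i) * Complex.exp (Complex.I * w)) /
          (1 - conj (A.a i) * Complex.exp (Complex.I * w)))) w :=
      HasDerivAt.fun_sum (fun i _ => bt_deriv (hηi i) hw)
    exact e1.sub (e2.const_mul Complex.I)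
  refine ⟨η, fun w => ((Complex.arg A.c : ℂ) - 2 * Real.pi * m) + n * w -
        Complex.I * ∑ i, bt (A.a i) w, Complex.arg A.b, ?_⟩
  refine ⟨⟨hη0, ?_, ?_, ?_, ?_⟩, ?_, ?_, hb⟩
  · intro w hw
    exact (hderiv w hw).differentiableAt.differentiableWithinAt
  · intro w hw
    simp only [bt_per]
    ring
  · intro x
    have h1 : (Complex.I * ∑ i, bt (A.a i) (x : ℂ)).im = 0 := by
      rw [Complex.mul_im, Complex.I_re, Complex.I_im, zero_mul, zero_add, one_mul, Complex.re_sum]
      exact Finset.sum_eq_zero (fun i _ => bt_real (A.norm_a i) x)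
    have h2 : (((Complex.arg A.c : ℂ) - 2 * Real.pi * m) + n * (x : ℂ)).im = 0 := by
      have : (((Complex.arg A.c : ℂ) - 2 * Real.pi * m) + n * (x : ℂ)) =
          ((Complex.arg A.c - 2 * Real.pi * m + n * x : ℝ) : ℂ) := by push_cast; ring
      rw [this, Complex.ofReal_im]
    simp only [Complex.sub_im] at h2 ⊢
    rw [h1, sub_zero]
    exact h2
  · intro x
    have hx : (x : ℂ) ∈ SH η := by
      simp only [SH, Set.mem_ofPred_eq, Complex.ofReal_im, abs_zero]
      exact hη0
    rw [(hderiv x hx).deriv]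
    have h1 : ∀ i, 0 < 1 + 2 * ((conj (A.a i) * Complex.exp (Complex.I * x)) /
        (1 - conj (A.a i) * Complex.exp (Complex.I * x))).re := by
      intro i
      exact half_plane (lt2 (hηi i) hx)
    have h2 : ((n : ℂ) - Complex.I * ∑ i,
        (Complex.I * (A.a i * Complex.exp (-(Complex.I * x))) / (1 - A.a i * Complex.exp (-(Complex.I * x))) +
        Complex.I * (conj (A.a i) * Complex.exp (Complex.I * x)) /
          (1 - conj (A.a i) * Complex.exp (Complex.I * x)))).re =
        1 + ∑ i, (1 + 2 * ((conj (A.a i) * Complex.exp (Complex.I * x)) /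
        (1 - conj (A.a i) * Complex.exp (Complex.I * x))).re) := by
      rw [sub_eq_add_neg, Complex.add_re, Complex.natCast_re, Finset.mul_sum, ← Finset.sum_neg_distrib,
        Complex.re_sum]
      simp only [bt_re]
      rw [Finset.sum_add_distrib, Finset.sum_const, Finset.card_univ, Fintype.card_fin, nsmul_eq_mul, mul_one]
      have : (n : ℝ) = ((n - 1 : ℕ) : ℝ) + 1 := by
        have : n = (n - 1) + 1 := by omega
        exact_mod_cast this
      rw [this]
      ring
    rw [h2]
    have h3 : 0 < ∑ i, (1 + 2 * ((conj (A.a i) * Complex.exp (Complex.I * x)) /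
        (1 - conj (A.a i) * Complex.exp (Complex.I * x))).re) := by
      apply Finset.sum_pos (fun i _ => h1 i)
      exact ⟨⟨0, by omega⟩, Finset.mem_univ _⟩
    linarith
  · intro w hw
    exact ⟨hden w hw, hexp m w hw⟩
  · have h1 := hm
    have h2 : Complex.I * ((((Complex.arg A.c : ℂ) - 2 * Real.pi * m) + n * (Complex.arg A.b : ℂ) -
        Complex.I * ∑ i, bt (A.a i) (Complex.arg A.b : ℂ)) - (Complex.arg A.b : ℂ)) = 0 := by
      push_cast at h1 ⊢
      linear_combination h1
    have h3 := (mul_eq_zero.1 h2).resolve_left Complex.I_ne_zero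
    exact sub_eq_zero.1 h3

end Pool.Agent.H212.MB
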