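import Pool.Agent.H212.MB.Stm3

/-!
# Project MB (helper212), job LIM: limits of links (helper225)
-/

set_option autoImplicit false

open Filter Metric Set Topology MeasureTheory Polynomial
open scoped ContDiff ComplexConjugate ENNReal

namespace Pool.Agent.H212.MB

namespace LIMaux

/-- in the exterior annulus where `T` is a semiconjugacy the relation of the links also holds -/
lemma inn_of {n : ℕ} {A : Blaschke n} {C : ℝ} {T : ℂ ≃ₜ ℂ} {g f : RMap n} {H : ℂ ≃ₜ ℂ}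
    {φ φ' : ℂ → ℂ} (h : Link A T C g f H φ φ') {ρ : ℝ} (hout : ∀ z, 1 < ‖T z‖ ↔ 1 < ‖z‖)
    (hρ : ∀ z, 1 < ‖z‖ → ‖z‖ < ρ →
      (zn n).den z ≠ 0 ∧ A.den (T z) ≠ 0 ∧ T ((zn n).ev z) = A.ev (T z))
    (hev : ∀ z : ℂ, 1 < ‖z‖ → 1 < ‖(zn n).ev z‖) {w : ℂ} (hw : 1 < ‖w‖) (hw' : ‖w‖ < ρ) :
    f.Q.eval (H (φ w)) ≠ 0 ∧ f.ev (H (φ w)) = H (g.ev (φ w)) := by
  obtain ⟨h1, h2, h3⟩ := hρ w hw hw'
  have h4 : T w ∈ Ext := (hout w).2 hw
  obtain ⟨h5, h6⟩ := h.extf.semi (T w) h4 h2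
  obtain ⟨h7, h8⟩ := h.extg.semi w hw h1
  rw [h.out w hw]
  refine ⟨h5, ?_⟩
  rw [h6, ← h3, h8, h.out _ (hev w hw)]

/-- a point in the images of the `φ i` for many `i`, with preimages bounded away from the circle, is
in the image of the limit -/
lemma mem_of_many {ι : Type} {u : Ultrafilter ι} {φ : ι → ℂ → ℂ} {Φ : ℂ → ℂ}
    (hφ : TendstoLocallyUniformlyOn φ Φ (u : Filter ι) Ext) (hΦ : ContinuousOn Φ Ext)
    (hb : ∀ᶠ i in (u : Filter ι), ∀ z, 2 ≤ ‖z‖ → ‖φ i z - z‖ ≤ 2 / ‖z‖) {ρ : ℝ} (hρ : 1 < ρ) {z : ℂ}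
    (h : ∀ᶠ i in (u : Filter ι), ∃ w : ℂ, ρ ≤ ‖w‖ ∧ φ i w = z) : z ∈ Φ '' Ext := by
  have h1 : ∀ᶠ i in (u : Filter ι), ∃ w : ℂ, (ρ ≤ ‖w‖ ∧ ‖w‖ ≤ ‖z‖ + 2) ∧ φ i w = z := by
    filter_upwards [h, hb] with i hi hbi
    obtain ⟨w, hw, hwz⟩ := hi
    refine ⟨w, ⟨hw, ?_⟩, hwz⟩
    by_contra hc
    push Not at hc
    have hz0 : 0 ≤ ‖z‖ := norm_nonneg z
    have h2 : 2 ≤ ‖w‖ := by linarith
    have h3 := hbi w h2
    rw [hwz] at h3
    have h4 : 2 / ‖w‖ ≤ 1 := by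
      rw [div_le_one (by linarith)]
      exact h2
    have h5 : ‖w‖ ≤ ‖z - w‖ + ‖z‖ := by
      have := norm_sub_norm_le w z
      rw [norm_sub_rev] at this
      linarith
    linarith
  obtain ⟨w, hw⟩ := h1.choice
  have hK : IsCompact (closedBall (0 : ℂ) (‖z‖ + 2) ∩ {w : ℂ | ρ ≤ ‖w‖}) :=
    (isCompact_closedBall _ _).inter_right (isClosed_le continuous_const continuous_norm)
  have hwK : (closedBall (0 : ℂ) (‖z‖ + 2) ∩ {w : ℂ | ρ ≤ ‖w‖}) ∈ u.map w := by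
    rw [Ultrafilter.mem_map]
    filter_upwards [hw] with i hi
    exact ⟨mem_closedBall_zero_iff.2 hi.1.2, hi.1.1⟩
  obtain ⟨w₀, hw₀, hlim⟩ := hK.ultrafilter_le_nhds' (u.map w) hwK
  have hw₀E : w₀ ∈ Ext := lt_of_lt_of_le hρ hw₀.2
  have hlim' : Tendsto w (u : Filter ι) (𝓝 w₀) := hlim
  have h2 : Tendsto w (u : Filter ι) (𝓝[Ext] w₀) := by
    rw [isOpen_Ext.nhdsWithin_eq hw₀E]
    exact hlim'
  have h3 := hφ.tendsto_comp (hΦ w₀ hw₀E) hw₀E h2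
  have h4 : Tendsto (fun i => φ i (w i)) (u : Filter ι) (𝓝 z) := by
    refine tendsto_const_nhds.congr' ?_
    filter_upwards [hw] with i hi
    exact hi.2.symm
  exact ⟨w₀, hw₀E, tendsto_nhds_unique h3 h4⟩

end LIMaux

theorem t_LIM (h1 : S_BL) (h2 : S_RTOP) (h3 : S_SIG) (h4 : S_QSLIM) (h5 : S_QFORM) (h6 : S_CPT) :
    S_LIM := by
  intro n hn A k C T hT ι u g f H φ φ' G F hL hg hf
  have hn1 : 1 ≤ n := by omega
  obtain ⟨hT2, hrt⟩ := h2 n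
  -- limits of the exterior maps
  obtain ⟨G', Φ, hGΦ, hg', hφ⟩ := h6 n hn1 (zn n) ι u g φ (hL.mono fun i hi => hi.extg)
  obtain ⟨F', Φ', hFΦ, hf', hφ'⟩ := h6 n hn1 A ι u f φ' (hL.mono fun i hi => hi.extf)
  obtain rfl : G' = G := tendsto_nhds_unique hg' hg
  obtain rfl : F' = F := tendsto_nhds_unique hf' hf
  -- the normalisation
  obtain ⟨ρ₁, hρ₁, hid, -⟩ := hT.ident
  obtain ⟨R, hR2, hRρ⟩ : ∃ R : ℝ, 2 ≤ R ∧ ρ₁ ≤ R := ⟨max 2 ρ₁, le_max_left _ _, le_max_right _ _⟩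
  have hfar : ∀ ψ : ℂ → ℂ, Sig ψ → ∀ z : ℂ, 2 ≤ ‖z‖ → ‖ψ z - z‖ ≤ 1 := by
    intro ψ hψ z hz
    refine ((h3 ψ hψ).1 z hz).trans ?_
    rw [div_le_one (by linarith)]
    exact hz
  have hnR : ‖(R : ℂ)‖ = R := by rw [Complex.norm_real, Real.norm_eq_abs, abs_of_nonneg (by linarith)]
  have hn5 : ‖((5 * R : ℝ) : ℂ)‖ = 5 * R := by
    rw [Complex.norm_real, Real.norm_eq_abs, abs_of_nonneg (by linarith)]
  have hd : ‖(R : ℂ) - ((5 * R : ℝ) : ℂ)‖ = 4 * R := by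
    rw [← Complex.ofReal_sub, Complex.norm_real, Real.norm_eq_abs,
      show R - 5 * R = -(4 * R) by ring, abs_neg, abs_of_nonneg (by linarith)]
  have hbound : ∀ ψ : ℂ → ℂ, Sig ψ → ‖ψ R‖ ≤ 5 * R + 1 ∧ ‖ψ ((5 * R : ℝ) : ℂ)‖ ≤ 5 * R + 1 ∧
      (5 * R + 1)⁻¹ ≤ ‖ψ R - ψ ((5 * R : ℝ) : ℂ)‖ := by
    intro ψ hψ
    have e1 := hfar ψ hψ R (by rw [hnR]; exact hR2)
    have e2 := hfar ψ hψ ((5 * R : ℝ) : ℂ) (by rw [hn5]; linarith)
    have e3 := norm_sub_norm_le (ψ R) R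
    have e4 := norm_sub_norm_le (ψ ((5 * R : ℝ) : ℂ)) ((5 * R : ℝ) : ℂ)
    rw [hnR] at e3
    rw [hn5] at e4
    refine ⟨by linarith, by linarith, ?_⟩
    have e5 : ‖(R : ℂ) - ((5 * R : ℝ) : ℂ)‖ ≤ ‖ψ R - ψ ((5 * R : ℝ) : ℂ)‖ + ‖ψ R - R‖ +
        ‖ψ ((5 * R : ℝ) : ℂ) - ((5 * R : ℝ) : ℂ)‖ := by
      have e6 : (R : ℂ) - ((5 * R : ℝ) : ℂ) = (ψ R - ψ ((5 * R : ℝ) : ℂ)) - (ψ R - R) +
          (ψ ((5 * R : ℝ) : ℂ) - ((5 * R : ℝ) : ℂ)) := by ring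
      rw [e6]
      refine (norm_add_le _ _).trans ?_
      gcongr
      exact norm_sub_le _ _
    rw [hd] at e5
    have e7 : (5 * R + 1)⁻¹ ≤ 1 := inv_le_one_of_one_le₀ (by linarith)
    linarith
  have hTR : ∀ x : ℂ, R ≤ ‖x‖ → T x = x := fun x hx => hid x (hRρ.trans hx)
  obtain ⟨K, hKC, hKlim, hKlim'⟩ := h4 C (5 * R + 1) (by linarith) ι u H (fun i => φ i R)
    (fun i => φ i ((5 * R : ℝ) : ℂ)) (by
      filter_upwards [hL] with i hi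
      obtain ⟨a1, a2, a3⟩ := hbound (φ i) hi.extg.sig
      obtain ⟨b1, b2, b3⟩ := hbound (φ' i) hi.extf.sig
      have c1 : H i (φ i R) = φ' i R := by
        rw [hi.out R (by show 1 < ‖(R : ℂ)‖; rw [hnR]; linarith), hTR R (by rw [hnR])]
      have c2 : H i (φ i ((5 * R : ℝ) : ℂ)) = φ' i ((5 * R : ℝ) : ℂ) := by
        rw [hi.out _ (by show 1 < ‖((5 * R : ℝ) : ℂ)‖; rw [hn5]; linarith),
          hTR _ (by rw [hn5]; linarith)]
      rw [c1, c2]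
      exact ⟨hi.wqs, a1, a2, a3, b1, b2, b3⟩)
  have hout : ∀ z ∈ Ext, K (Φ z) = Φ' (T z) := by
    intro z hz
    have hTz : T z ∈ Ext := (hT.out z).2 hz
    have e1 : Tendsto (fun i => H i (φ i z)) (u : Filter ι) (𝓝 (K (Φ z))) :=
      hKlim.tendsto_comp K.continuous.continuousAt (hφ.tendsto_at hz)
    have e2 : Tendsto (fun i => φ' i (T z)) (u : Filter ι) (𝓝 (Φ' (T z))) := hφ'.tendsto_at hTz
    refine tendsto_nhds_unique e1 (e2.congr' ?_)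
    filter_upwards [hL] with i hi
    exact (hi.out z hz).symm
  have hinn : ∀ z, z ∉ Φ '' Ext → F'.Q.eval (K z) ≠ 0 ∧ F'.ev (K z) = K (G'.ev z) := by
    intro z hz
    obtain ⟨ρ, hρ, hsemi⟩ := hT.semi
    have hsemi' : ∀ z, 1 < ‖z‖ → ‖z‖ < ρ →
        (zn n).den z ≠ 0 ∧ A.den (T z) ≠ 0 ∧ T ((zn n).ev z) = A.ev (T z) := fun z hz hz' =>
      hsemi z ((inv_lt_one_of_one_lt₀ hρ).trans hz) hz'
    have hevz : ∀ z : ℂ, 1 < ‖z‖ → 1 < ‖(zn n).ev z‖ := by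
      intro z hz
      rw [((h1 n hn1 (zn n)).2.2.2.2.2.2.2.2 z).2, norm_pow]
      exact one_lt_pow₀ hz (by omega)
    have hmany : ¬ ∀ᶠ i in (u : Filter ι), ∃ w : ℂ, ρ ≤ ‖w‖ ∧ φ i w = z := fun hc =>
      hz (LIMaux.mem_of_many hφ hGΦ.diff.continuousOn
        (hL.mono fun i hi => (h3 (φ i) hi.extg.sig).1) hρ hc)
    have hmany' : ∀ᶠ i in (u : Filter ι), ¬ ∃ w : ℂ, ρ ≤ ‖w‖ ∧ φ i w = z :=
      Ultrafilter.eventually_not.2 hmany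
    have hrel : ∀ᶠ i in (u : Filter ι), (f i).Q.eval (H i z) ≠ 0 ∧
        (f i).ev (H i z) = H i ((g i).ev z) := by
      filter_upwards [hL, hmany'] with i hi hi'
      by_cases hzi : z ∈ φ i '' Ext
      · obtain ⟨w, hw, rfl⟩ := hzi
        have hwρ : ‖w‖ < ρ := by
          by_contra hc
          exact hi' ⟨w, not_lt.1 hc, rfl⟩
        exact LIMaux.inn_of hi hT.out hsemi' hevz hw hwρ
      · exact hi.inn z hzi
    have hKz : Tendsto (fun i => H i z) (u : Filter ι) (𝓝 (K z)) :=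
      hKlim.tendsto_comp K.continuous.continuousAt tendsto_const_nhds
    have hPf := ((hrt ι u f F').2 hf (fun i => H i z) (K z) hKz)
    have hPg := ((hrt ι u g G').2 hg (fun _ => z) z tendsto_const_nhds)
    have hGQ : G'.Q = 1 := by
      have e := h5 n hn1 (zn n) G' Φ hGΦ
      rw [e.1, e.2.2.2]
    have hGev : Tendsto (fun i => (g i).ev z) (u : Filter ι) (𝓝 (G'.ev z)) := by
      unfold RMap.ev
      refine hPg.1.div hPg.2 ?_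
      rw [hGQ, eval_one]
      exact one_ne_zero
    have hKG : Tendsto (fun i => H i ((g i).ev z)) (u : Filter ι) (𝓝 (K (G'.ev z))) :=
      hKlim.tendsto_comp K.continuous.continuousAt hGev
    have heq : F'.P.eval (K z) = K (G'.ev z) * F'.Q.eval (K z) := by
      refine tendsto_nhds_unique hPf.1 ((hKG.mul hPf.2).congr' ?_)
      filter_upwards [hrel] with i hi
      rw [← hi.2]
      unfold RMap.ev
      rw [div_mul_cancel₀ _ hi.1]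
    have hQ : F'.Q.eval (K z) ≠ 0 := by
      intro h0
      rw [h0, mul_zero] at heq
      obtain ⟨a, b, hab⟩ := F'.coprime
      have e := congrArg (fun p : ℂ[X] => p.eval (K z)) hab
      simp only [eval_add, eval_mul, heq, h0, mul_zero, add_zero, eval_one] at e
      exact zero_ne_one e
    refine ⟨hQ, ?_⟩
    unfold RMap.ev at heq ⊢
    rw [heq, mul_div_assoc, div_self hQ, mul_one]
  exact ⟨K, Φ, Φ', ⟨hGΦ, hFΦ, hKC, hout, hinn⟩, hKlim, hKlim'⟩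

end Pool.Agent.H212.MB
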