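import Pool.Agent.H212.MB.Stm3

/-!
# MB project, task MATE: transport of a mating (helper484, for helper212)
-/

set_option autoImplicit false

open Filter Metric Set Topology MeasureTheory Polynomial
open scoped ContDiff ComplexConjugate ENNReal

namespace Pool.Agent.H212.MB

namespace MATEaux

theorem lift_nat {t : ℝ → ℝ} (hp : ∀ x, t (x + 2 * Real.pi) = t x + 2 * Real.pi) (k : ℕ) :
    t (2 * Real.pi * k) = t 0 + 2 * Real.pi * k := by
  induction k with
  | zero => simp
  | succ k ih =>
    have e : 2 * Real.pi * ((k + 1 : ℕ) : ℝ) = 2 * Real.pi * k + 2 * Real.pi := by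
      push_cast; ring
    rw [e, hp, ih]; ring

theorem lift_neg {t : ℝ → ℝ} (hp : ∀ x, t (x + 2 * Real.pi) = t x + 2 * Real.pi) (k : ℕ) :
    t (-(2 * Real.pi * k)) = t 0 - 2 * Real.pi * k := by
  induction k with
  | zero => simp
  | succ k ih =>
    have e : -(2 * Real.pi * (k : ℝ)) = -(2 * Real.pi * ((k + 1 : ℕ) : ℝ)) + 2 * Real.pi := by
      push_cast; ring
    rw [e, hp] at ih
    push_cast at ih ⊢
    linarith

theorem lift_surj {t : ℝ → ℝ} (hc : Continuous t) (hm : StrictMono t)
    (hp : ∀ x, t (x + 2 * Real.pi) = t x + 2 * Real.pi) : Function.Surjective t := by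
  have hpi := Real.pi_pos
  apply hc.surjective
  · apply tendsto_atTop_atTop_of_monotone hm.monotone
    intro b
    obtain ⟨k, hk⟩ := exists_nat_ge ((b - t 0) / (2 * Real.pi))
    refine ⟨2 * Real.pi * k, ?_⟩
    rw [lift_nat hp]
    rw [div_le_iff₀ (by positivity)] at hk
    linarith
  · apply tendsto_atBot_atBot_of_monotone hm.monotone
    intro b
    obtain ⟨k, hk⟩ := exists_nat_ge ((t 0 - b) / (2 * Real.pi))
    refine ⟨-(2 * Real.pi * k), ?_⟩
    rw [lift_neg hp]
    rw [div_le_iff₀ (by positivity)] at hk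
    linarith

end MATEaux

open MATEaux in
open Classical in
theorem t_MATE (h1 : S_BL) : S_MATE := by
  intro n hn A₁ A₂ B f f₂ φ ψ φ₂ h k S H hM hS hE hH hdH hin
  -- the new exterior map
  set φ' : ℂ → ℂ := fun z => if 1 ≤ ‖z‖ then H (φ (S.symm z)) else φ₂ z with hφ'
  have hSout : ∀ z, 1 < ‖S.symm z‖ ↔ 1 < ‖z‖ := by
    intro z
    have := hS.out (S.symm z)
    rw [S.apply_symm_apply] at this
    exact this.symm
  have hSinn : ∀ z, 1 ≤ ‖z‖ → 1 ≤ ‖S.symm z‖ := by
    intro z hz
    by_contra hcon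
    push Not at hcon
    have := (hS.inn (S.symm z)).2 hcon
    rw [S.apply_symm_apply] at this
    exact absurd hz (not_le.2 this)
  have hC : ∀ z, 1 ≤ ‖z‖ → φ' z = H (φ (S.symm z)) := by
    intro z hz
    simp only [hφ', hz, if_true]
  have hEx : ∀ z ∈ Ext, φ' z = φ₂ z := by
    intro z hz
    have hz' : 1 < ‖z‖ := hz
    rw [hC z hz'.le, hH _ ((hSout z).2 hz'), S.apply_symm_apply]
  obtain ⟨t, ht1, ht2, ht3, ht4⟩ := hS.lift
  have hsurj := lift_surj ht1 ht2 ht3
  set e : ℝ ≃o ℝ := ht2.orderIsoOfSurjective t hsurj with he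
  have het : ∀ x, t (e.symm x) = x := fun x => e.apply_symm_apply x
  have hper : ∀ x, e.symm (x + 2 * Real.pi) = e.symm x + 2 * Real.pi := by
    intro x
    apply ht2.injective
    rw [het, ht3, het]
  have hSsymm : ∀ x : ℝ, S.symm (Complex.exp (x * Complex.I)) =
      Complex.exp ((e.symm x : ℝ) * Complex.I) := by
    intro x
    apply S.injective
    rw [S.apply_symm_apply, ht4, het]
  have hnorm1 : ∀ x : ℝ, ‖Complex.exp (x * Complex.I)‖ = 1 := fun x => Complex.norm_exp_ofReal_mul_I x
  have hnotin : ∀ z ∈ closedBall (0 : ℂ) 1, ψ z ∉ φ '' Ext := by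
    intro z hz hmem
    rw [hM.compl] at hmem
    exact hmem ⟨z, hz, rfl⟩
  have hbl := h1 n (by omega) A₂
  refine ⟨φ', fun z => H (ψ z), fun x => h (e.symm x), ?_⟩
  refine
    { ext := ?_
      contφ := ?_
      diffψ := ?_
      contψ := ?_
      injψ := ?_
      semiψ := ?_
      compl := ?_
      conth := ?_
      monoh := ?_
      perh := ?_
      glue := ?_
      mark := ?_ }
  · refine { diff := ?_, inj := ?_, norm := ?_, semi := ?_ }
    · exact hE.diff.congr hEx
    · exact (Set.EqOn.injOn_iff (fun z hz => hEx z hz)).2 hE.inj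
    · refine Tendsto.congr' ?_ hE.norm
      have hcpt : IsCompact (closedBall (0 : ℂ) 1) := isCompact_closedBall 0 1
      filter_upwards [hcpt.compl_mem_cocompact] with z hz
      have hz' : 1 < ‖z‖ := by
        by_contra hcon
        push Not at hcon
        exact hz (mem_closedBall_zero_iff.2 hcon)
      rw [hEx z hz']
    · intro z hz hden
      obtain ⟨s1, s2⟩ := hE.semi z hz hden
      have hz' : 1 < ‖z‖ := hz
      have hev : A₂.ev z ∈ Ext := lt_of_lt_of_le hz' (hbl.2.2.2.1 z hz hden)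
      rw [hEx z hz, hEx _ hev]
      exact ⟨s1, s2⟩
  · have hc1 : ContinuousOn (fun z => H (φ (S.symm z))) CExt := by
      refine H.continuous.comp_continuousOn ?_
      refine hM.contφ.comp S.symm.continuous.continuousOn ?_
      intro z hz
      exact hSinn z hz
    exact hc1.congr (fun z hz => hC z hz)
  · exact hdH.comp hM.diffψ (fun z hz => ⟨z, hz, rfl⟩)
  · exact H.continuous.comp_continuousOn hM.contψ
  · intro x hx y hy hxy
    exact hM.injψ hx hy (H.injective hxy)
  · intro z hz
    obtain ⟨q1, q2⟩ := hin (ψ z) (hnotin z hz)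
    refine ⟨q1, ?_⟩
    rw [q2, (hM.semiψ z hz).2]
  · have e1 : φ' '' Ext = H '' (φ '' Ext) := by
      ext y
      constructor
      · rintro ⟨z, hz, rfl⟩
        have hz' : 1 < ‖z‖ := hz
        rw [hC z hz'.le]
        exact ⟨_, ⟨_, (hSout z).2 hz', rfl⟩, rfl⟩
      · rintro ⟨_, ⟨z, hz, rfl⟩, rfl⟩
        have hz' : 1 < ‖S z‖ := (hS.out z).2 hz
        refine ⟨S z, hz', ?_⟩
        rw [hC _ hz'.le, S.symm_apply_apply]
    have e2 : (fun z => H (ψ z)) '' closedBall 0 1 = H '' (ψ '' closedBall 0 1) := by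
      rw [Set.image_image]
    rw [e1, e2, hM.compl, Set.image_compl_eq H.bijective]
  · exact hM.conth.comp e.symm.continuous
  · exact hM.monoh.comp e.symm.strictMono
  · intro x
    rw [hper, hM.perh]
  · intro x
    rw [hC _ (hnorm1 x).ge, hSsymm, hM.glue]
  · rw [hC _ A₂.norm_b.ge]
    have : S.symm A₂.b = A₁.b := by
      apply S.injective
      rw [S.apply_symm_apply, hS.mark]
    rw [this, hM.mark]

end Pool.Agent.H212.MB
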