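import Pool.Agent.H212.MB.Stm
import Pool.Graph.R_pool_sql_team_seeded_3997aac3.Q264.PD.Main
import Pool.Graph.R_pool_sql_team_seeded_3997aac3.Q98.PD.FIX
import Pool.Graph.R_pool_sql_team_seeded_3997aac3.Q277.PD.LA
import Pool.Graph.R_pool_sql_team_seeded_3997aac3.Q98.PD.LB
import Pool.Graph.R_pool_sql_team_seeded_3997aac3.Q98.PD.CB
import Pool.Graph.R_pool_sql_team_seeded_3997aac3.Q98.PD.CONT
import Pool.Graph.R_pool_sql_team_seeded_3997aac3.Q153.PD.YG
import Pool.Graph.R_pool_sql_team_seeded_3997aac3.Q182.PD.Pot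

/-!
# Project MB, job MRMT: the smooth measurable Riemann mapping theorem
-/

set_option autoImplicit false

open Filter Metric Set Topology MeasureTheory
open scoped ContDiff ComplexConjugate ENNReal

namespace Pool.Agent.H212.MB

namespace MRMTaux

open Pool.Agent.Q264.PD (du dv)

theorem lam : Pool.Agent.Q264.PD.S_LAM :=
  Pool.Agent.Q264.PD.t_LAM
    (Pool.Agent.Q264.PD.t_FIX (Pool.Agent.Q264.PD.t_CONT Pool.Agent.Q153.PD.t_YG
      Pool.Agent.Q264.PD.t_CB)) Pool.Agent.Q277.PD.t_LA Pool.Agent.Q264.PD.t_LB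

/-! ### Bijectivity -/

theorem strict {f : ℂ → ℂ} (hf : ContDiff ℝ 3 f) (hi : ∀ z, Function.Injective (fderiv ℝ f z)) (z : ℂ) :
    ∃ e : ℂ ≃L[ℝ] ℂ, HasStrictFDerivAt f (e : ℂ →L[ℝ] ℂ) z := by
  let l : ℂ ≃ₗ[ℝ] ℂ := LinearEquiv.ofInjectiveEndo (fderiv ℝ f z : ℂ →ₗ[ℝ] ℂ) (hi z)
  refine ⟨l.toContinuousLinearEquiv, ?_⟩
  have h1 : ((l.toContinuousLinearEquiv : ℂ ≃L[ℝ] ℂ) : ℂ →L[ℝ] ℂ) = fderiv ℝ f z := by
    ext
    rfl
  rw [h1]
  exact hf.contDiffAt.hasStrictFDerivAt (by norm_num)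

theorem growth {f : ℂ → ℂ} (hf : ContDiff ℝ 3 f)
    (hlim : Tendsto (fun z => fderiv ℝ f z) (cocompact ℂ) (𝓝 (ContinuousLinearMap.id ℝ ℂ)))
    {δ : ℝ} (hδ : 0 < δ) :
    ∃ R₁ C : ℝ, 0 < R₁ ∧ (∀ z, R₁ ≤ ‖z‖ → ‖fderiv ℝ f z - ContinuousLinearMap.id ℝ ℂ‖ ≤ δ) ∧
      ∀ z, ‖f z - z‖ ≤ δ * ‖z‖ + C := by
  have hd : Differentiable ℝ f := hf.differentiable (by norm_num)
  have h1 : {z | ‖fderiv ℝ f z - ContinuousLinearMap.id ℝ ℂ‖ < δ} ∈ cocompact ℂ := by
    have h2 : ∀ᶠ x in cocompact ℂ, dist (fderiv ℝ f x) (ContinuousLinearMap.id ℝ ℂ) < δ :=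
      (Metric.tendsto_nhds.1 hlim) δ hδ
    filter_upwards [h2] with x hx
    rw [← dist_eq_norm]
    exact hx
  obtain ⟨r, hr⟩ := Metric.closedBall_compl_subset_of_mem_cocompact h1 (0 : ℂ)
  obtain ⟨R₁, hR₁⟩ : ∃ R₁ : ℝ, R₁ = max (r + 1) 1 := ⟨_, rfl⟩
  have hR0 : 0 < R₁ := by
    rw [hR₁]
    exact lt_of_lt_of_le one_pos (le_max_right _ _)
  have hb : ∀ z, R₁ ≤ ‖z‖ → ‖fderiv ℝ f z - ContinuousLinearMap.id ℝ ℂ‖ ≤ δ := by
    intro z hz
    have e1 : r + 1 ≤ ‖z‖ := (le_max_left _ _).trans (hR₁ ▸ hz)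
    have e3 : r < ‖z‖ := by linarith
    have e4 : ‖fderiv ℝ f z - ContinuousLinearMap.id ℝ ℂ‖ < δ := hr (by simpa using e3)
    exact e4.le
  obtain ⟨C, hC⟩ : ∃ C : ℝ, ∀ p ∈ closedBall (0 : ℂ) R₁, ‖f p - p‖ ≤ C :=
    (isCompact_closedBall (0 : ℂ) R₁).exists_bound_of_continuousOn
      (hd.continuous.sub continuous_id).continuousOn
  refine ⟨R₁, C, hR0, hb, fun z => ?_⟩
  by_cases hz : ‖z‖ ≤ R₁
  · have := hC z (by simpa using hz)
    have h3 : 0 ≤ δ * ‖z‖ := by positivity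
    linarith
  push Not at hz
  have hz0 : 0 < ‖z‖ := hR0.trans hz
  obtain ⟨p, hp⟩ : ∃ p : ℂ, p = (R₁ / ‖z‖) • z := ⟨_, rfl⟩
  have hpn : ‖p‖ = R₁ := by
    rw [hp, norm_smul, Real.norm_eq_abs, abs_of_pos (by positivity)]
    field_simp
  have hseg : ∀ x ∈ segment ℝ p z, R₁ ≤ ‖x‖ := by
    rintro x ⟨s, t, hs, ht, hst, rfl⟩
    have e1 : s • p + t • z = (s * (R₁ / ‖z‖) + t) • z := by
      rw [hp, smul_smul, add_smul]
    rw [e1, norm_smul, Real.norm_eq_abs, abs_of_nonneg (by positivity)]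
    have e2 : (s * (R₁ / ‖z‖) + t) * ‖z‖ = s * R₁ + t * ‖z‖ := by
      field_simp
    rw [e2]
    have e3 : t * R₁ ≤ t * ‖z‖ := mul_le_mul_of_nonneg_left hz.le ht
    have e4 : s * R₁ + t * R₁ = R₁ := by rw [← add_mul, hst, one_mul]
    linarith
  have h3 := (convex_segment (𝕜 := ℝ) p z).norm_image_sub_le_of_norm_fderiv_le' (𝕜 := ℝ) (f := f)
    (φ := ContinuousLinearMap.id ℝ ℂ) (C := δ) (fun x _ => hd x) (fun x hx => hb x (hseg x hx))
    (left_mem_segment ℝ p z) (right_mem_segment ℝ p z)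
  rw [ContinuousLinearMap.id_apply] at h3
  have h4 : ‖z - p‖ ≤ ‖z‖ := by
    have e1 : z - p = (1 - R₁ / ‖z‖) • z := by rw [hp, sub_smul, one_smul]
    have e2 : R₁ / ‖z‖ < 1 := (div_lt_one hz0).2 hz
    have e3 : 0 < R₁ / ‖z‖ := by positivity
    rw [e1, norm_smul, Real.norm_eq_abs, abs_of_pos (by linarith)]
    nlinarith
  have h5 := hC p (by simpa using hpn.le)
  have h6 : f z - z = (f z - f p - (z - p)) + (f p - p) := by ring
  rw [h6]
  refine (norm_add_le _ _).trans ?_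
  have h7 : δ * ‖z - p‖ ≤ δ * ‖z‖ := mul_le_mul_of_nonneg_left h4 hδ.le
  linarith

/-- Maps of the plane with injective derivative asymptotic to the identity are homeomorphisms (adapted from
the library, `Pool.Agent.Q193.PD.t_HOM`). -/
theorem hom {f : ℂ → ℂ} (hf : ContDiff ℝ 3 f) (hi : ∀ z, Function.Injective (fderiv ℝ f z))
    (hlim : Tendsto (fun z => fderiv ℝ f z) (cocompact ℂ) (𝓝 (ContinuousLinearMap.id ℝ ℂ))) :
    Function.Bijective f ∧ IsProperMap f := by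
  have hd : Differentiable ℝ f := hf.differentiable (by norm_num)
  -- proper
  have hprop : Tendsto f (cocompact ℂ) (cocompact ℂ) := by
    obtain ⟨R₁, C, -, -, h⟩ := growth hf hlim (show (0 : ℝ) < 1 / 2 by norm_num)
    rw [← Metric.cobounded_eq_cocompact, ← tendsto_norm_atTop_iff_cobounded]
    have h1 : Tendsto (fun z : ℂ => 1 / 2 * ‖z‖ + -C) (Bornology.cobounded ℂ) atTop :=
      tendsto_atTop_add_const_right _ _
        (Tendsto.const_mul_atTop (by norm_num) tendsto_norm_cobounded_atTop)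
    refine tendsto_atTop_mono (fun z => ?_) h1
    have h2 := h z
    have h3 : ‖z‖ ≤ ‖f z‖ + ‖f z - z‖ := by
      have h4 : z = f z - (f z - z) := by ring
      calc ‖z‖ = ‖f z - (f z - z)‖ := by rw [← h4]
        _ ≤ _ := norm_sub_le _ _
    linarith
  have hpm : IsProperMap f := isProperMap_iff_tendsto_cocompact.2 ⟨hd.continuous, hprop⟩
  -- open
  have hopen : IsOpenMap f := by
    rw [isOpenMap_iff_nhds_le]
    intro z
    obtain ⟨e, he⟩ := strict hf hi z
    rw [he.map_nhds_eq_of_equiv]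
  have hloc : ∀ z, ∃ U : Set ℂ, IsOpen U ∧ z ∈ U ∧ InjOn f U := by
    intro z
    obtain ⟨e, he⟩ := strict hf hi z
    refine ⟨(he.toOpenPartialHomeomorph f).source, (he.toOpenPartialHomeomorph f).open_source,
      he.mem_toOpenPartialHomeomorph_source, ?_⟩
    have := (he.toOpenPartialHomeomorph f).injOn
    rwa [he.toOpenPartialHomeomorph_coe] at this
  have hsurj : Function.Surjective f := by
    rw [← range_eq_univ]
    exact IsClopen.eq_univ ⟨hpm.isClosedMap.isClosed_range, hopen.isOpen_range⟩ (range_nonempty f)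
  -- the set of the points with one preimage
  let A : Set ℂ := {w | ∀ a b, f a = w → f b = w → a = b}
  have hAo : IsOpen A := by
    rw [isOpen_iff_mem_nhds]
    intro w hw
    obtain ⟨a, ha⟩ := hsurj w
    obtain ⟨U, hU, haU, hinj⟩ := hloc a
    have h1 : IsClosed (f '' Uᶜ) := hpm.isClosedMap _ hU.isClosed_compl
    have h2 : w ∉ f '' Uᶜ := by
      rintro ⟨b, hb, hbw⟩
      exact hb (hw a b ha hbw ▸ haU)
    filter_upwards [h1.isOpen_compl.mem_nhds h2] with w' hw' b b' hb hb'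
    have g1 : b ∈ U := by
      by_contra h
      exact hw' ⟨b, h, hb⟩
    have g2 : b' ∈ U := by
      by_contra h
      exact hw' ⟨b', h, hb'⟩
    exact hinj g1 g2 (hb.trans hb'.symm)
  have hAc : IsClosed A := by
    rw [← isOpen_compl_iff, isOpen_iff_mem_nhds]
    intro w hw
    have hw' : ∃ a b, f a = w ∧ f b = w ∧ a ≠ b := by
      by_contra h
      push Not at h
      exact hw fun a b ha hb => h a b ha hb
    obtain ⟨a, b, ha, hb, hab⟩ := hw'
    obtain ⟨U, V, hU, hV, haU, hbV, hUV⟩ := t2_separation hab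
    have h1 : f '' U ∈ 𝓝 w := by
      rw [← ha]
      exact (hopen U hU).mem_nhds (mem_image_of_mem f haU)
    have h2 : f '' V ∈ 𝓝 w := by
      rw [← hb]
      exact (hopen V hV).mem_nhds (mem_image_of_mem f hbV)
    filter_upwards [h1, h2]
    rintro _ ⟨x, hx, rfl⟩ ⟨y, hy, hxy⟩ hA
    have := hA x y rfl hxy
    subst this
    exact (disjoint_left.1 hUV) hx hy
  have hAn : A.Nonempty := by
    obtain ⟨R₂, -, hR₂, hb2, -⟩ := growth hf hlim (show (0 : ℝ) < 1 / 2 by norm_num)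
    obtain ⟨-, C, -, -, h⟩ := growth hf hlim (show (0 : ℝ) < 1 / 8 by norm_num)
    have hC0 : 0 ≤ C := by
      have := h 0
      simp only [norm_zero, mul_zero, zero_add] at this
      exact (norm_nonneg _).trans this
    refine ⟨((2 * R₂ + 8 * C + 1 : ℝ) : ℂ), ?_⟩
    intro a b ha hb
    obtain ⟨w, hw⟩ : ∃ w : ℂ, w = ((2 * R₂ + 8 * C + 1 : ℝ) : ℂ) := ⟨_, rfl⟩
    rw [← hw] at ha hb
    have hwn : ‖w‖ = 2 * R₂ + 8 * C + 1 := by
      rw [hw, Complex.norm_real, Real.norm_eq_abs, abs_of_pos (by linarith)]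
    have hclose : ∀ x, f x = w → x ∈ closedBall w (‖w‖ / 2) := by
      intro x hx
      rw [mem_closedBall, dist_eq_norm]
      have h1 := h x
      rw [hx] at h1
      have h2 : ‖x‖ ≤ ‖w‖ + ‖x - w‖ := by
        calc ‖x‖ = ‖w + (x - w)‖ := by ring_nf
          _ ≤ _ := norm_add_le _ _
      rw [norm_sub_rev] at h1
      linarith
    have hbd : ∀ x ∈ closedBall w (‖w‖ / 2), R₂ ≤ ‖x‖ := by
      intro x hx
      rw [mem_closedBall, dist_eq_norm] at hx
      have h2 : ‖w‖ ≤ ‖x‖ + ‖x - w‖ := by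
        calc ‖w‖ = ‖x - (x - w)‖ := by ring_nf
          _ ≤ _ := norm_sub_le _ _
      linarith
    have h3 := (convex_closedBall w (‖w‖ / 2)).norm_image_sub_le_of_norm_fderiv_le' (𝕜 := ℝ) (f := f)
      (φ := ContinuousLinearMap.id ℝ ℂ) (C := 1 / 2) (fun x _ => hd x) (fun x hx => hb2 x (hbd x hx))
      (hclose a ha) (hclose b hb)
    rw [ha, hb, ContinuousLinearMap.id_apply, sub_self, zero_sub, norm_neg] at h3
    have h4 : ‖b - a‖ = 0 := by
      have := norm_nonneg (b - a)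
      linarith
    exact (sub_eq_zero.1 (norm_eq_zero.1 h4)).symm
  have hA : A = univ := IsClopen.eq_univ ⟨hAc, hAo⟩ hAn
  refine ⟨⟨fun a b hab => ?_, hsurj⟩, hpm⟩
  have : f b ∈ A := by rw [hA]; trivial
  exact this a b hab rfl

/-- The behaviour at infinity. -/
theorem norm_inf {f : ℂ → ℂ} (hf : ContDiff ℝ 3 f) (hol : ∀ᶠ z in cocompact ℂ, dzb f z = 0)
    (hlim : Tendsto (fun z => fderiv ℝ f z) (cocompact ℂ) (𝓝 (ContinuousLinearMap.id ℝ ℂ))) :
    ∃ L : ℂ, Tendsto (fun z => f z - z) (cocompact ℂ) (𝓝 L) := by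
  have hd : Differentiable ℝ f := hf.differentiable (by norm_num)
  have hinv : Tendsto (fun w : ℂ => w⁻¹) (𝓝[≠] 0) (cocompact ℂ) := by
    rw [← Metric.cobounded_eq_cocompact]
    exact tendsto_inv₀_nhdsNE_zero
  -- `F w = f (1/w) - 1/w`
  have h1 : ∀ᶠ w in 𝓝[≠] (0 : ℂ), DifferentiableAt ℂ (fun w : ℂ => f w⁻¹ - w⁻¹) w := by
    filter_upwards [hinv.eventually hol, self_mem_nhdsWithin] with w hw hw0
    have hw0' : w ≠ 0 := hw0
    have e1 : DifferentiableAt ℂ (fun w : ℂ => w⁻¹) w := differentiableAt_inv hw0'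
    have e2 : DifferentiableAt ℂ f w⁻¹ := (hasDerivAt_of_dzb (hd _) hw).differentiableAt
    exact (e2.comp w e1).sub e1
  have h2 : (fun w : ℂ => (f w⁻¹ - w⁻¹) - (f (0 : ℂ)⁻¹ - (0 : ℂ)⁻¹)) =o[𝓝[≠] 0] fun w => (w - 0)⁻¹ := by
    rw [Asymptotics.isLittleO_iff]
    intro ε hε
    obtain ⟨-, C, -, -, h⟩ := growth hf hlim (show (0 : ℝ) < ε / 2 by positivity)
    obtain ⟨D, hD⟩ : ∃ D : ℝ, D = |C| + ‖f (0 : ℂ)⁻¹ - (0 : ℂ)⁻¹‖ + 1 := ⟨_, rfl⟩
    have hD0 : 0 < D := by rw [hD]; positivity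
    have e1 : ∀ᶠ w in 𝓝[≠] (0 : ℂ), ‖w‖ < ε / (2 * D) := by
      have : ball (0 : ℂ) (ε / (2 * D)) ∈ 𝓝[≠] (0 : ℂ) :=
        mem_nhdsWithin_of_mem_nhds (ball_mem_nhds _ (by positivity))
      filter_upwards [this] with w hw
      simpa using hw
    filter_upwards [e1, self_mem_nhdsWithin] with w hw hw0
    have hw0' : 0 < ‖w‖ := norm_pos_iff.2 hw0
    rw [sub_zero]
    have e2 := h w⁻¹
    have e3 : D ≤ ε / 2 * ‖w⁻¹‖ := by
      rw [norm_inv, ← div_eq_mul_inv, le_div_iff₀ hw0']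
      rw [lt_div_iff₀ (by positivity)] at hw
      linarith
    refine (norm_sub_le _ _).trans ?_
    have e4 := le_abs_self C
    linarith
  have h3 := Complex.tendsto_limUnder_of_differentiable_on_punctured_nhds_of_isLittleO h1 h2
  refine ⟨_, (h3.comp (g := fun w : ℂ => f w⁻¹ - w⁻¹) (f := fun z : ℂ => z⁻¹) ?_).congr fun z => ?_⟩
  · rw [← Metric.cobounded_eq_cocompact]
    exact tendsto_inv₀_cobounded'
  · simp

end MRMTaux

open MRMTaux Pool.Agent.Q264.PD in
theorem t_MRMT : S_MRMT := by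
  intro μ k hk1 hμ hμc hμk
  obtain ⟨k', hk'⟩ : ∃ k' : ℝ, k' = max k (1 / 2) := ⟨_, rfl⟩
  have hk0 : 0 < k' := hk' ▸ lt_of_lt_of_le (by norm_num) (le_max_right _ _)
  have hk1' : k' < 1 := by rw [hk']; exact max_lt hk1 (by norm_num)
  have hμk' : ∀ z, ‖μ z‖ ≤ k' := fun z => (hμk z).trans (hk' ▸ le_max_left _ _)
  -- the function `g = ∂μ/∂z`
  have hfd : ContDiff ℝ ∞ (fun z => fderiv ℝ μ z) := hμ.fderiv_right (by exact_mod_cast le_rfl)
  have hg : ContDiff ℝ ∞ (fun z => dz μ z) := by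
    unfold dz
    exact ((hfd.clm_apply contDiff_const).sub (contDiff_const.mul (hfd.clm_apply contDiff_const))).div_const _
  have hgc : HasCompactSupport (fun z => dz μ z) := by
    have h1 : HasCompactSupport (fun z => fderiv ℝ μ z) := hμc.fderiv ℝ
    refine h1.comp_left (g := fun L : ℂ →L[ℝ] ℂ => (L 1 - Complex.I * L Complex.I) / 2) ?_
    simp
  obtain ⟨l, hl3, hl0, hl⟩ := lam μ (fun z => dz μ z) k' hk0 hk1' hμ hμc hμk' hg hgc
  -- the potential
  have hld : ∀ z, HasFDerivAt l (fderiv ℝ l z) z := fun z =>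
    ((hl3.differentiable (by norm_num)) z).hasFDerivAt
  have hμd : ∀ z, HasFDerivAt μ (fderiv ℝ μ z) z := fun z =>
    ((hμ.differentiable (by simp)) z).hasFDerivAt
  obtain ⟨c, hc⟩ : ∃ c : ℂ → ℂ, c = fun z => Complex.exp (l z) := ⟨_, rfl⟩
  have hcd : ∀ z, HasFDerivAt c (c z • fderiv ℝ l z) z := fun z => by
    rw [hc]; exact (hld z).cexp
  have hc0 : ∀ z, c z ≠ 0 := fun z => by rw [hc]; exact Complex.exp_ne_zero _
  have hc2 : ContDiff ℝ 3 c := by rw [hc]; exact hl3.cexp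
  have hc1 : Tendsto c (cocompact ℂ) (𝓝 1) := by
    rw [hc]
    have := (Complex.continuous_exp.tendsto 0).comp hl0
    rwa [Complex.exp_zero] at this
  have hμ3 : ContDiff ℝ 3 μ := contDiff_infty.1 hμ 3
  have hPd : ∀ z, HasFDerivAt (fun z => (1 + μ z) * c z)
      ((1 + μ z) • (c z • fderiv ℝ l z) + c z • fderiv ℝ μ z) z := fun z => by
    have h1 := ((hμd z).const_add 1).mul (hcd z)
    exact h1
  have hRd : ∀ z, HasFDerivAt (fun z => Complex.I * ((1 - μ z) * c z))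
      (Complex.I • ((1 - μ z) • (c z • fderiv ℝ l z) + c z • (-fderiv ℝ μ z))) z := fun z => by
    have h1 := (((hμd z).const_sub 1).mul (hcd z)).const_mul Complex.I
    exact h1
  have hcomp : ∀ z, dv (fun z => (1 + μ z) * c z) z = du (fun z => Complex.I * ((1 - μ z) * c z)) z := by
    intro z
    unfold dv du
    rw [(hPd z).fderiv, (hRd z).fderiv]
    have h1 := hl z
    unfold dv du dz at h1
    simp only [add_apply, smul_apply, neg_apply, smul_eq_mul]
    linear_combination (-2 * Complex.I * c z) * h1 + (c z * fderiv ℝ l z Complex.I +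
      c z * μ z * fderiv ℝ l z Complex.I + c z * fderiv ℝ μ z Complex.I) * Complex.I_mul_I
  obtain ⟨f, hf3, hf⟩ := Pool.Agent.Q182.PD.t_POT (fun z => (1 + μ z) * c z)
    (fun z => Complex.I * ((1 - μ z) * c z))
    (((contDiff_const.add hμ3).mul hc2).of_le (by norm_num))
    ((contDiff_const.mul ((contDiff_const.sub hμ3).mul hc2)).of_le (by norm_num)) hcomp
  have hdz : ∀ z, dz f z = c z := by
    intro z
    have h1 := (hf z).1
    have h2 := (hf z).2
    unfold du at h1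
    unfold dv at h2
    unfold dz
    rw [h1, h2]
    linear_combination (-(1 / 2 : ℂ) * ((1 - μ z) * c z)) * Complex.I_mul_I
  have hdzb : ∀ z, dzb f z = μ z * c z := by
    intro z
    have h1 := (hf z).1
    have h2 := (hf z).2
    unfold du at h1
    unfold dv at h2
    unfold dzb
    rw [h1, h2]
    linear_combination ((1 / 2 : ℂ) * ((1 - μ z) * c z)) * Complex.I_mul_I
  have hfder : ∀ z, fderiv ℝ f z = LL (c z) (μ z * c z) := fun z => by
    rw [fderiv_eq, hdz, hdzb]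
  have hinj : ∀ z, Function.Injective (fderiv ℝ f z) := fun z => by
    rw [hfder]
    apply LL_injective
    rw [norm_mul]
    have h1 : 0 < ‖c z‖ := norm_pos_iff.2 (hc0 z)
    have h2 := hμk' z
    nlinarith
  have hμ0 : ∀ᶠ z in cocompact ℂ, μ z = 0 := by
    filter_upwards [hμc.isCompact.compl_mem_cocompact] with z hz
    exact image_eq_zero_of_notMem_tsupport hz
  have hlim : Tendsto (fun z => fderiv ℝ f z) (cocompact ℂ) (𝓝 (ContinuousLinearMap.id ℝ ℂ)) := by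
    have h1 : Tendsto (fun z => LL (c z) (0 : ℂ)) (cocompact ℂ) (𝓝 (LL 1 0)) := by
      have h2 : Continuous fun a : ℂ => LL a 0 := by
        unfold LL
        fun_prop
      exact (h2.tendsto 1).comp hc1
    have h3 : LL 1 0 = ContinuousLinearMap.id ℝ ℂ := by
      ext v
      simp
    rw [h3] at h1
    refine h1.congr' ?_
    filter_upwards [hμ0] with z hz
    rw [hfder, hz, zero_mul]
  obtain ⟨hbij, hprop⟩ := hom hf3 hinj hlim
  obtain ⟨L, hL⟩ := norm_inf hf3 (hμ0.mono fun z hz => by rw [hdzb, hz, zero_mul]) hlim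
  have hsub : ∀ z, fderiv ℝ (fun z => f z - L) z = fderiv ℝ f z := fun z => fderiv_sub_const _
  have hH : IsHomeomorph (fun z => f z - L) := by
    have h1 : IsHomeomorph f := isHomeomorph_iff_continuous_isClosedMap_bijective.2
      ⟨hprop.continuous, hprop.isClosedMap, hbij⟩
    exact (Homeomorph.subRight L).isHomeomorph.comp h1
  refine ⟨hH.homeomorph _, ?_, fun z => ?_, ?_⟩
  · exact hf3.sub contDiff_const
  · have h1 : dz (hH.homeomorph _) z = dz f z := by
      unfold dz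
      rw [← hsub z]
      rfl
    have h2 : dzb (hH.homeomorph _) z = dzb f z := by
      unfold dzb
      rw [← hsub z]
      rfl
    rw [h1, h2, hdz, hdzb]
    exact ⟨hc0 z, rfl⟩
  · have h1 := hL.sub_const L
    rw [sub_self] at h1
    refine h1.congr fun z => ?_
    change f z - z - L = (f z - L) - z
    ring

end Pool.Agent.H212.MB
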