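import Pool.Agent.H212.MB.Stm3

/-!
# MB ONTO: the boundary homeomorphism of the exterior
-/

set_option autoImplicit false

open Filter Metric Set Topology
open scoped ComplexConjugate

namespace Pool.Agent.H212.MB

namespace ONTOaux

theorem isPreconnected_Ext : IsPreconnected Ext := by
  have h1 : Ext = Complex.exp '' {z : ℂ | 0 < z.re} := by
    ext z
    constructor
    · intro hz
      have hz' : 1 < ‖z‖ := hz
      have hz0 : z ≠ 0 := by
        rintro rfl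
        simp at hz'
        linarith
      refine ⟨Complex.log z, ?_, Complex.exp_log hz0⟩
      show 0 < (Complex.log z).re
      rw [Complex.log_re]
      exact Real.log_pos hz'
    · rintro ⟨w, hw, rfl⟩
      show 1 < ‖Complex.exp w‖
      rw [Complex.norm_exp]
      exact Real.one_lt_exp_iff.2 hw
  rw [h1]
  exact ((convex_halfSpace_re_gt 0).isPreconnected).image _ Complex.continuous_exp.continuousOn

/-- the data -/
structure Dat (φ φ' η : ℂ → ℂ) (k : ℂ ≃ₜ ℂ) : Prop where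
  s : Sig φ
  s' : Sig φ'
  mt : MapsTo η Ext Ext
  eq : ∀ z ∈ Ext, k (φ z) = φ' (η z)
  bd : ∀ ζ : ℂ, ‖ζ‖ = 1 → Tendsto η (𝓝[Ext] ζ) (𝓝 ζ)

variable {φ φ' η : ℂ → ℂ} {k : ℂ ≃ₜ ℂ}

theorem injOn (d : Dat φ φ' η k) : InjOn η Ext := by
  intro z hz w hw h
  apply d.s.inj hz hw
  apply k.injective
  rw [d.eq z hz, d.eq w hw, h]

theorem contAt (h : S_SIG) (d : Dat φ φ' η k) {z : ℂ} (hz : z ∈ Ext) : ContinuousAt η z := by
  rw [ContinuousAt, _root_.tendsto_nhds]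
  intro V hV hzV
  have hVo : IsOpen (V ∩ Ext) := hV.inter isOpen_Ext
  have ho := (h φ' d.s').2.2.2.2.1 (V ∩ Ext) inter_subset_right hVo
  have hc : ContinuousAt (fun w => k (φ w)) z :=
    k.continuous.continuousAt.comp (d.s.diff.continuousOn.continuousAt (isOpen_Ext.mem_nhds hz))
  have hm : φ' '' (V ∩ Ext) ∈ 𝓝 (k (φ z)) := by
    apply ho.mem_nhds
    rw [d.eq z hz]
    exact ⟨η z, ⟨hzV, d.mt hz⟩, rfl⟩
  filter_upwards [hc hm, isOpen_Ext.mem_nhds hz] with w hw hwE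
  have hw' : k (φ w) ∈ φ' '' (V ∩ Ext) := hw
  obtain ⟨v, ⟨hvV, hvE⟩, hv⟩ := hw'
  rw [d.eq w hwE] at hv
  have := d.s'.inj hvE (d.mt hwE) hv
  show η w ∈ V
  rw [← this]
  exact hvV

theorem isOpen_image (h : S_SIG) (d : Dat φ φ' η k) : IsOpen (η '' Ext) := by
  have h1 : η '' Ext = Ext ∩ φ' ⁻¹' (k '' (φ '' Ext)) := by
    ext w
    constructor
    · rintro ⟨z, hz, rfl⟩
      exact ⟨d.mt hz, φ z, ⟨z, hz, rfl⟩, d.eq z hz⟩
    · rintro ⟨hw, y, ⟨z, hz, rfl⟩, hy⟩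
      refine ⟨z, hz, ?_⟩
      rw [d.eq z hz] at hy
      exact d.s'.inj (d.mt hz) hw hy
  rw [h1]
  refine d.s'.diff.continuousOn.isOpen_inter_preimage isOpen_Ext ?_
  exact k.isOpenMap _ ((h φ d.s).2.2.2.2.1 Ext Subset.rfl isOpen_Ext)

theorem bound_up (h : S_SIG) {φ : ℂ → ℂ} (hs : Sig φ) {w : ℂ} {R : ℝ} (hw : w ∈ Ext) (hR : ‖w‖ ≤ R) :
    ‖φ w‖ ≤ max 3 (R + 1) := by
  obtain ⟨h1, -, h3, -⟩ := h φ hs
  rcases le_or_gt ‖w‖ 2 with h2 | h2
  · exact (h3 w hw h2).trans (le_max_left _ _)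
  · refine le_trans ?_ (le_max_right _ _)
    have h4 := h1 w h2.le
    have h5 : 2 / ‖w‖ ≤ 1 := by
      rw [div_le_one (by linarith)]
      exact h2.le
    have h6 : ‖φ w‖ ≤ ‖φ w - w‖ + ‖w‖ := by
      have := norm_add_le (φ w - w) w
      simpa using this
    linarith

theorem bound_down (h : S_SIG) {φ : ℂ → ℂ} (hs : Sig φ) {w : ℂ} {M : ℝ} (hM : ‖φ w‖ ≤ M) :
    ‖w‖ ≤ max 2 (M + 1) := by
  obtain ⟨h1, -⟩ := h φ hs
  rcases le_or_gt ‖w‖ 2 with h2 | h2
  · exact h2.trans (le_max_left _ _)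
  · refine le_trans ?_ (le_max_right _ _)
    have h4 := h1 w h2.le
    have h5 : 2 / ‖w‖ ≤ 1 := by
      rw [div_le_one (by linarith)]
      exact h2.le
    have h6 : ‖w‖ ≤ ‖φ w‖ + ‖φ w - w‖ := by
      have := norm_sub_le (φ w) (φ w - w)
      simpa using this
    linarith

theorem key (h : S_SIG) (d : Dat φ φ' η k) (u : Ultrafilter ℂ) (hu : Ext ∈ u) {v : ℂ}
    (hv : Tendsto η u (𝓝 v)) :
    ∃ z : ℂ, (u : Filter ℂ) ≤ 𝓝 z ∧ ((1 < ‖z‖ ∧ v = η z) ∨ (‖z‖ = 1 ∧ v = z)) := by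
  -- `k.symm` is bounded on balls
  obtain ⟨M, hM⟩ : ∃ M : ℝ, ∀ y ∈ closedBall (0 : ℂ) (max 3 (‖v‖ + 1 + 1)), ‖k.symm y‖ ≤ M :=
    (isCompact_closedBall (0 : ℂ) (max 3 (‖v‖ + 1 + 1))).exists_bound_of_continuousOn
      k.symm.continuous.continuousOn
  have h1 : ∀ᶠ z in (u : Filter ℂ), ‖η z‖ ≤ ‖v‖ + 1 := by
    have h2 : ∀ᶠ y in 𝓝 v, ‖y‖ < ‖v‖ + 1 :=
      continuous_norm.continuousAt.eventually_lt_const (by linarith)
    filter_upwards [hv.eventually h2] with z hz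
    exact hz.le
  have h2 : ∀ᶠ z in (u : Filter ℂ), z ∈ closedBall (0 : ℂ) (max 2 (M + 1)) := by
    filter_upwards [h1, hu] with z hz hzE
    rw [mem_closedBall_zero_iff]
    apply bound_down h d.s
    have h3 := bound_up h d.s' (d.mt hzE) hz
    have h4 := hM (φ' (η z)) (mem_closedBall_zero_iff.2 h3)
    rw [← d.eq z hzE, Homeomorph.symm_apply_apply] at h4
    exact h4
  obtain ⟨z, -, hz⟩ := (isCompact_closedBall (0 : ℂ) (max 2 (M + 1))).ultrafilter_le_nhds u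
    (le_principal_iff.2 h2)
  refine ⟨z, hz, ?_⟩
  have h3 : 1 ≤ ‖z‖ := by
    have h4 : Tendsto (fun w : ℂ => ‖w‖) u (𝓝 ‖z‖) := continuous_norm.continuousAt.mono_left hz
    refine ge_of_tendsto h4 ?_
    filter_upwards [hu] with w hw
    exact le_of_lt hw
  rcases eq_or_lt_of_le h3 with h4 | h4
  · right
    refine ⟨h4.symm, ?_⟩
    have h5 : (u : Filter ℂ) ≤ 𝓝[Ext] z := le_inf hz (le_principal_iff.2 hu)
    exact tendsto_nhds_unique hv ((d.bd z h4.symm).mono_left h5)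
  · left
    refine ⟨h4, ?_⟩
    have h5 : ContinuousAt η z := contAt h d h4
    exact tendsto_nhds_unique hv (h5.tendsto.mono_left hz)

theorem surj (h : S_SIG) (d : Dat φ φ' η k) : Ext ⊆ η '' Ext := by
  refine isPreconnected_Ext.subset_of_closure_inter_subset (isOpen_image h d) ?_ ?_
  · have h2 : (2 : ℂ) ∈ Ext := by
      show 1 < ‖(2 : ℂ)‖
      simp
    exact ⟨η 2, d.mt h2, 2, h2, rfl⟩
  · rintro v ⟨hv, hvE⟩
    obtain ⟨g, hg, hgv⟩ := mem_closure_iff_ultrafilter.1 hv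
    have h1 : Ext ∈ Ultrafilter.ofComapInfPrincipal hg := Ultrafilter.ofComapInfPrincipal_mem hg
    have h2 : Ultrafilter.map η (Ultrafilter.ofComapInfPrincipal hg) = g :=
      Ultrafilter.ofComapInfPrincipal_eq_of_map hg
    have h3 : Tendsto η (Ultrafilter.ofComapInfPrincipal hg) (𝓝 v) := by
      have h4 : Filter.map η (Ultrafilter.ofComapInfPrincipal hg : Filter ℂ) = (g : Filter ℂ) := by
        rw [← Ultrafilter.coe_map, h2]
      rw [Tendsto, h4]
      exact hgv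
    obtain ⟨z, -, hz | hz⟩ := key h d _ h1 h3
    · exact ⟨z, hz.1, hz.2.symm⟩
    · exfalso
      have h5 : 1 < ‖v‖ := hvE
      rw [hz.2, hz.1] at h5
      exact lt_irrefl _ h5

end ONTOaux

open ONTOaux in
theorem t_ONTO (h : S_SIG) : S_ONTO := by
  intro φ φ' η k hs hs' hmt heq hbd
  have d : Dat φ φ' η k := ⟨hs, hs', hmt, heq, hbd⟩
  have hsurj := surj h d
  refine ⟨⟨hmt, injOn d, hsurj⟩, fun z hz => (contAt h d hz).continuousWithinAt, ?_, ?_⟩
  · intro z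
    constructor
    · rintro ⟨w, hw, hwz⟩
      obtain ⟨x, hx, rfl⟩ := hsurj hw
      refine ⟨x, hx, ?_⟩
      apply k.injective
      rw [heq x hx, hwz]
    · rintro ⟨x, hx, rfl⟩
      exact ⟨η x, hmt hx, (heq x hx).symm⟩
  · intro η' hη'
    have hmt' : MapsTo η' Ext Ext := by
      intro w hw
      obtain ⟨z, hz, rfl⟩ := hsurj hw
      rw [hη' z hz]
      exact hz
    refine ⟨hmt', ?_, ?_⟩
    · intro w hw
      obtain ⟨z, hz, rfl⟩ := hsurj hw
      rw [hη' z hz, ← heq z hz, Homeomorph.symm_apply_apply]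
    · intro ζ hζ
      rw [tendsto_iff_ultrafilter]
      intro g hg
      have hgE : Ext ∈ g := by
        have : (g : Filter ℂ) ≤ 𝓟 Ext := hg.trans inf_le_right
        exact le_principal_iff.1 this
      have hgζ : (g : Filter ℂ) ≤ 𝓝 ζ := hg.trans inf_le_left
      have h1 : Ext ∈ Ultrafilter.map η' g := by
        rw [Ultrafilter.mem_map]
        filter_upwards [hgE] with w hw
        exact hmt' hw
      have h2 : Tendsto η (Ultrafilter.map η' g : Ultrafilter ℂ) (𝓝 ζ) := by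
        rw [Ultrafilter.coe_map, tendsto_map'_iff]
        refine Tendsto.congr' ?_ (show Tendsto id (g : Filter ℂ) (𝓝 ζ) from hgζ)
        filter_upwards [hgE] with w hw
        obtain ⟨z, hz, rfl⟩ := hsurj hw
        simp only [id, Function.comp]
        rw [hη' z hz]
      obtain ⟨z, hz, hz' | hz'⟩ := key h d _ h1 h2
      · exfalso
        have h3 : 1 < ‖η z‖ := hmt hz'.1
        rw [← hz'.2, hζ] at h3
        exact lt_irrefl _ h3
      · rw [hz'.2]
        rw [Ultrafilter.coe_map] at hz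
        exact hz

end Pool.Agent.H212.MB
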