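import Pool.Agent.H212.MB.Stm3

/-!
# Behaviour at the poles
-/

set_option autoImplicit false

open Filter Metric Set Topology MeasureTheory Polynomial
open scoped ContDiff ComplexConjugate ENNReal

namespace Pool.Agent.H212.MB

namespace POLEaux

variable {n : ℕ} (A : Blaschke n) (φ : ℂ → ℂ)

/-- the pole belonging to `a i` -/
noncomputable def pl (i : Fin (n - 1)) : ℂ := (conj (A.a i))⁻¹

theorem pl_mem {i : Fin (n - 1)} (h : A.a i ≠ 0) : pl A i ∈ Ext := by
  have h1 : 0 < ‖A.a i‖ := norm_pos_iff.2 h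
  have h2 := A.norm_a i
  change 1 < ‖(conj (A.a i))⁻¹‖
  rw [norm_inv, Complex.norm_conj]
  exact (one_lt_inv₀ h1).2 h2

theorem fac (i : Fin (n - 1)) (z : ℂ) :
    1 - conj (A.a i) * z = if A.a i = 0 then 1 else -conj (A.a i) * (z - pl A i) := by
  split_ifs with h
  · simp [h]
  · have h1 : conj (A.a i) ≠ 0 := by simpa using h
    rw [pl]
    field_simp
    ring

/-- the difference quotients -/
noncomputable def dd (i : Fin (n - 1)) (z : ℂ) : ℂ := if A.a i = 0 then 1 else dslope φ (pl A i) z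

/-- their product -/
noncomputable def DD (z : ℂ) : ℂ := ∏ i, dd A φ i z

/-- the function `v` -/
noncomputable def vv (z : ℂ) : ℂ :=
  A.c⁻¹ * DD A φ z * (A.num z + A.den z * (φ (A.ev z) - A.ev z))

theorem c_ne : A.c ≠ 0 := by
  intro h
  have := A.norm_c
  rw [h, norm_zero] at this
  exact zero_ne_one this

theorem q_eval (y : ℂ) : (qpol A φ).eval y =
    A.c⁻¹ * ∏ i, (if A.a i = 0 then 1 else -conj (A.a i) * (y - φ (pl A i))) := by
  rw [qpol, eval_mul, eval_C, eval_prod]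
  congr 1
  apply Finset.prod_congr rfl
  intro i _
  split_ifs with h
  · simp
  · simp [pl]

theorem den_eq (z : ℂ) : A.den z = ∏ i, (if A.a i = 0 then 1 else -conj (A.a i) * (z - pl A i)) := by
  rw [Blaschke.den]
  exact Finset.prod_congr rfl fun i _ => fac A i z

theorem q_eval_phi (z : ℂ) : (qpol A φ).eval (φ z) = A.c⁻¹ * (A.den z * DD A φ z) := by
  rw [q_eval, den_eq, DD, ← Finset.prod_mul_distrib]
  congr 1
  apply Finset.prod_congr rfl
  intro i _
  unfold dd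
  split_ifs with h
  · simp
  · have h1 := sub_smul_dslope φ (pl A i) z
    rw [smul_eq_mul] at h1
    rw [mul_assoc, h1]

theorem q_degree (hn : 1 ≤ n) : (qpol A φ).degree < n := by
  have h1 : (qpol A φ).natDegree ≤ n - 1 := by
    unfold qpol
    refine (natDegree_C_mul_le _ _).trans ?_
    refine (natDegree_prod_le _ _).trans ?_
    have : ∀ i ∈ (Finset.univ : Finset (Fin (n - 1))),
        (if A.a i = 0 then (1 : ℂ[X]) else C (-conj (A.a i)) * (X - C (φ (conj (A.a i))⁻¹))).natDegree ≤ 1 := by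
      intro i _
      split_ifs
      · simp
      · refine (natDegree_C_mul_le _ _).trans ?_
        rw [natDegree_X_sub_C]
    refine (Finset.sum_le_sum this).trans ?_
    simp
  refine lt_of_le_of_lt degree_le_natDegree ?_
  exact_mod_cast (by omega : (qpol A φ).natDegree < n)

theorem q_zero_iff (hφ : Sig φ) {z : ℂ} (hz : z ∈ Ext) :
    (qpol A φ).eval (φ z) = 0 ↔ A.den z = 0 := by
  rw [q_eval, den_eq, mul_eq_zero, or_iff_right (inv_ne_zero (c_ne A)), Finset.prod_eq_zero_iff,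
    Finset.prod_eq_zero_iff]
  apply exists_congr
  intro i
  apply and_congr_right
  intro _
  split_ifs with h
  · simp
  · have h1 : -conj (A.a i) ≠ 0 := by simpa using h
    rw [mul_eq_zero, mul_eq_zero, or_iff_right h1, or_iff_right h1, sub_eq_zero, sub_eq_zero]
    exact ⟨fun h2 => hφ.inj hz (pl_mem A h) h2, fun h2 => by rw [h2]⟩

theorem q_zero_mem {y : ℂ} (hy : (qpol A φ).eval y = 0) : y ∈ φ '' Ext := by
  rw [q_eval, mul_eq_zero, or_iff_right (inv_ne_zero (c_ne A)), Finset.prod_eq_zero_iff] at hy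
  obtain ⟨i, _, hi⟩ := hy
  split_ifs at hi with h
  · exact absurd hi one_ne_zero
  · have h1 : -conj (A.a i) ≠ 0 := by simpa using h
    rw [mul_eq_zero, or_iff_right h1, sub_eq_zero] at hi
    exact ⟨pl A i, pl_mem A h, hi.symm⟩

theorem dd_diff (hφ : Sig φ) (i : Fin (n - 1)) : DifferentiableOn ℂ (dd A φ i) Ext := by
  unfold dd
  split_ifs with h
  · exact differentiableOn_const _
  · exact (Complex.differentiableOn_dslope (isOpen_Ext.mem_nhds (pl_mem A h))).2 hφ.diff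

theorem dd_ne (hφ : Sig φ) (hd : ∀ z ∈ Ext, deriv φ z ≠ 0) (i : Fin (n - 1)) {z : ℂ} (hz : z ∈ Ext) :
    dd A φ i z ≠ 0 := by
  unfold dd
  split_ifs with h
  · exact one_ne_zero
  · by_cases hzp : z = pl A i
    · rw [hzp, dslope_same]
      exact hd _ (pl_mem A h)
    · rw [dslope_of_ne _ hzp, slope_def_field]
      refine div_ne_zero (fun h2 => hzp ?_) (sub_ne_zero.2 hzp)
      exact hφ.inj hz (pl_mem A h) (sub_eq_zero.1 h2)

theorem DD_diff (hφ : Sig φ) : DifferentiableOn ℂ (DD A φ) Ext := by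
  unfold DD
  exact DifferentiableOn.fun_finset_prod fun i _ => dd_diff A φ hφ i

theorem DD_ne (hφ : Sig φ) (hd : ∀ z ∈ Ext, deriv φ z ≠ 0) {z : ℂ} (hz : z ∈ Ext) :
    DD A φ z ≠ 0 := Finset.prod_ne_zero_iff.2 fun i _ => dd_ne A φ hφ hd i hz

theorem num_diff : Differentiable ℂ A.num := by
  unfold Blaschke.num
  refine (differentiable_const _).mul differentiable_id |>.mul ?_
  exact Differentiable.fun_finset_prod fun i _ => differentiable_id.sub_const _

theorem den_diff : Differentiable ℂ A.den := by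
  unfold Blaschke.den
  exact Differentiable.fun_finset_prod fun i _ => (differentiable_const _).sub (differentiable_id.const_mul _)

theorem ev_diffAt {z : ℂ} (hz : A.den z ≠ 0) : DifferentiableAt ℂ A.ev z := by
  unfold Blaschke.ev
  exact (num_diff A z).div (den_diff A z) hz

theorem vv_eq {z : ℂ} (hz : A.den z ≠ 0) : vv A φ z = (qpol A φ).eval (φ z) * φ (A.ev z) := by
  rw [vv, q_eval_phi]
  have : A.den z * A.ev z = A.num z := by
    rw [Blaschke.ev]
    field_simp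
  linear_combination (-A.c⁻¹ * DD A φ z) * this

theorem vv_pole {z : ℂ} (hz : A.den z = 0) : vv A φ z = A.c⁻¹ * DD A φ z * A.num z := by
  rw [vv, hz, zero_mul, add_zero]

theorem vv_diffAt (hφ : Sig φ) (hev : ∀ z ∈ Ext, A.den z ≠ 0 → A.ev z ∈ Ext) {z : ℂ} (hz : z ∈ Ext)
    (hd : A.den z ≠ 0) : DifferentiableAt ℂ (vv A φ) z := by
  unfold vv
  have h1 : DifferentiableAt ℂ (DD A φ) z := (DD_diff A φ hφ).differentiableAt (isOpen_Ext.mem_nhds hz)
  have h2 : DifferentiableAt ℂ φ (A.ev z) := hφ.diff.differentiableAt (isOpen_Ext.mem_nhds (hev z hz hd))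
  have h3 := ev_diffAt A hd
  exact ((differentiableAt_const _).mul h1).mul
    ((num_diff A z).add ((den_diff A z).mul ((h2.comp z h3).sub h3)))

/-- `A.ev z → ∞` at a pole -/
theorem ev_tendsto {p : ℂ} (hp : A.den p = 0) (hnum : A.num p ≠ 0) (hfin : {z | A.den z = 0}.Finite) :
    Tendsto A.ev (𝓝[≠] p) (cocompact ℂ) := by
  rw [← Metric.cobounded_eq_cocompact]
  have h1 : Tendsto A.num (𝓝[≠] p) (𝓝 (A.num p)) := ((num_diff A).continuous.tendsto p).mono_left nhdsWithin_le_nhds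
  have h2 : Tendsto A.den (𝓝[≠] p) (𝓝[≠] 0) := by
    refine tendsto_nhdsWithin_iff.2 ⟨?_, ?_⟩
    · have := ((den_diff A).continuous.tendsto p).mono_left (nhdsWithin_le_nhds (s := {p}ᶜ))
      rwa [hp] at this
    · have h3 : ({z | A.den z = 0} \ {p})ᶜ ∈ 𝓝 p :=
        (hfin.subset diff_subset).isClosed.isOpen_compl.mem_nhds (by simp)
      filter_upwards [nhdsWithin_le_nhds h3, self_mem_nhdsWithin] with z hz1 hz2 hz3
      exact hz1 ⟨hz3, hz2⟩
  have h4 : Tendsto (fun z => (A.den z)⁻¹) (𝓝[≠] p) (Bornology.cobounded ℂ) :=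
    tendsto_inv₀_nhdsNE_zero.comp h2
  have h5 : ∀ z, ‖A.ev z‖ = ‖(A.den z)⁻¹‖ * ‖A.num z‖ := by
    intro z
    rw [← norm_mul, Blaschke.ev, div_eq_inv_mul]
  rw [← tendsto_norm_atTop_iff_cobounded]
  simp_rw [h5]
  exact (tendsto_norm_atTop_iff_cobounded.2 h4).atTop_mul_pos (norm_pos_iff.2 hnum) h1.norm

theorem vv_cont (hφ : Sig φ) {p : ℂ} (hpE : p ∈ Ext) (hp : A.den p = 0) (hnum : A.num p ≠ 0)
    (hfin : {z | A.den z = 0}.Finite) : ContinuousAt (vv A φ) p := by
  rw [continuousAt_iff_punctured_nhds]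
  have h1 : Tendsto (DD A φ) (𝓝[≠] p) (𝓝 (DD A φ p)) :=
    ((DD_diff A φ hφ).continuousOn.continuousAt (isOpen_Ext.mem_nhds hpE)).tendsto.mono_left nhdsWithin_le_nhds
  have h2 : Tendsto A.num (𝓝[≠] p) (𝓝 (A.num p)) :=
    ((num_diff A).continuous.tendsto p).mono_left nhdsWithin_le_nhds
  have h3 : Tendsto A.den (𝓝[≠] p) (𝓝 0) := by
    have := ((den_diff A).continuous.tendsto p).mono_left (nhdsWithin_le_nhds (s := {p}ᶜ))
    rwa [hp] at this
  have h4 : Tendsto (fun z => φ (A.ev z) - A.ev z) (𝓝[≠] p) (𝓝 0) :=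
    hφ.norm.comp (ev_tendsto A hp hnum hfin)
  have h5 := (h1.const_mul A.c⁻¹).mul (h2.add (h3.mul h4))
  rw [vv_pole A φ hp]
  unfold vv
  simpa using h5

theorem vv_diff (hφ : Sig φ) (hev : ∀ z ∈ Ext, A.den z ≠ 0 → A.ev z ∈ Ext)
    (hnum : ∀ z ∈ Ext, A.num z ≠ 0) (hfin : {z | A.den z = 0}.Finite) :
    DifferentiableOn ℂ (vv A φ) Ext := by
  intro p hpE
  apply DifferentiableAt.differentiableWithinAt
  by_cases hp : A.den p = 0
  · apply AnalyticAt.differentiableAt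
    apply Complex.analyticAt_of_differentiable_on_punctured_nhds_of_continuousAt
    · have h3 : ({z | A.den z = 0} \ {p})ᶜ ∈ 𝓝 p :=
        (hfin.subset diff_subset).isClosed.isOpen_compl.mem_nhds (by simp)
      filter_upwards [nhdsWithin_le_nhds h3, self_mem_nhdsWithin,
        nhdsWithin_le_nhds (isOpen_Ext.mem_nhds hpE)] with z hz1 hz2 hz3
      exact vv_diffAt A φ hφ hev hz3 fun h => hz1 ⟨h, hz2⟩
    · exact vv_cont A φ hφ hpE hp (hnum p hpE) hfin
  · exact vv_diffAt A φ hφ hev hpE hp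

theorem tendsto_inv_coc : Tendsto (fun z : ℂ => z⁻¹) (cocompact ℂ) (𝓝 0) := by
  rw [← Metric.cobounded_eq_cocompact]
  exact tendsto_inv₀_cobounded

theorem eventually_ne (p : ℂ) : ∀ᶠ z in cocompact ℂ, z ≠ p := by
  have := (isCompact_singleton (x := p)).compl_mem_cocompact
  filter_upwards [this] with z hz
  exact hz

theorem dd_lim (hφ : Sig φ) (i : Fin (n - 1)) : Tendsto (dd A φ i) (cocompact ℂ) (𝓝 1) := by
  unfold dd
  split_ifs with h
  · exact tendsto_const_nhds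
  · have h1 : Tendsto (fun z : ℂ => ((φ z - z) * z⁻¹ + 1 - φ (pl A i) * z⁻¹) / (1 - pl A i * z⁻¹))
        (cocompact ℂ) (𝓝 ((0 * 0 + 1 - φ (pl A i) * 0) / (1 - pl A i * 0))) := by
      refine Tendsto.div ?_ ?_ (by simp)
      · exact ((hφ.norm.mul tendsto_inv_coc).add_const 1).sub (tendsto_inv_coc.const_mul _)
      · exact tendsto_const_nhds.sub (tendsto_inv_coc.const_mul _)
    have h2 : ((0 * 0 + 1 - φ (pl A i) * 0) / (1 - pl A i * 0)) = (1 : ℂ) := by simp
    rw [h2] at h1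
    refine h1.congr' ?_
    filter_upwards [eventually_ne 0, eventually_ne (pl A i)] with z hz hz2
    rw [dslope_of_ne _ hz2, slope_def_field]
    have h3 : z - pl A i ≠ 0 := sub_ne_zero.2 hz2
    have h4 : 1 - pl A i * z⁻¹ ≠ 0 := by
      intro h5
      apply h3
      have := congrArg (fun x => x * z) h5
      simp only [sub_mul, one_mul, zero_mul, mul_assoc, inv_mul_cancel₀ hz, mul_one] at this
      exact this
    rw [div_eq_div_iff h4 h3]
    field_simp
    ring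

theorem DD_lim (hφ : Sig φ) : Tendsto (DD A φ) (cocompact ℂ) (𝓝 1) := by
  have h1 : Tendsto (DD A φ) (cocompact ℂ) (𝓝 (∏ _i : Fin (n - 1), (1 : ℂ))) := by
    unfold DD
    exact tendsto_finset_prod _ fun i _ => dd_lim A φ hφ i
  simpa using h1

theorem num_lim (hn : 1 ≤ n) : Tendsto (fun z => A.num z / z ^ n) (cocompact ℂ) (𝓝 A.c) := by
  have h1 : Tendsto (fun z : ℂ => A.c * ∏ i, (1 - A.a i * z⁻¹)) (cocompact ℂ)
      (𝓝 (A.c * ∏ i : Fin (n - 1), (1 - A.a i * 0))) :=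
    (tendsto_finset_prod _ fun i _ => tendsto_const_nhds.sub (tendsto_inv_coc.const_mul _)).const_mul _
  have h2 : A.c * ∏ i : Fin (n - 1), (1 - A.a i * 0) = A.c := by simp
  rw [h2] at h1
  refine h1.congr' ?_
  filter_upwards [eventually_ne 0] with z hz
  have h3 : ∏ i, (z - A.a i) = z ^ (n - 1) * ∏ i, (1 - A.a i * z⁻¹) := by
    have : z ^ (n - 1) = ∏ _i : Fin (n - 1), z := by simp
    rw [this, ← Finset.prod_mul_distrib]
    apply Finset.prod_congr rfl
    intro i _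
    field_simp
  have h4 : z ^ n = z * z ^ (n - 1) := by
    rw [← pow_succ']
    congr 1
    omega
  have h5 : z ^ (n - 1) ≠ 0 := pow_ne_zero _ hz
  rw [Blaschke.num, h3, h4]
  field_simp

theorem den_lim (hn : 1 ≤ n) : Tendsto (fun z => A.den z / z ^ n) (cocompact ℂ) (𝓝 0) := by
  have h1 : Tendsto (fun z : ℂ => z⁻¹ * ∏ i, (z⁻¹ - conj (A.a i))) (cocompact ℂ)
      (𝓝 (0 * ∏ i : Fin (n - 1), (0 - conj (A.a i)))) :=
    tendsto_inv_coc.mul (tendsto_finset_prod _ fun i _ => tendsto_inv_coc.sub_const _)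
  rw [zero_mul] at h1
  refine h1.congr' ?_
  filter_upwards [eventually_ne 0] with z hz
  have h3 : ∏ i, (1 - conj (A.a i) * z) = z ^ (n - 1) * ∏ i, (z⁻¹ - conj (A.a i)) := by
    have : z ^ (n - 1) = ∏ _i : Fin (n - 1), z := by simp
    rw [this, ← Finset.prod_mul_distrib]
    apply Finset.prod_congr rfl
    intro i _
    field_simp
  have h4 : z ^ n = z * z ^ (n - 1) := by
    rw [← pow_succ']
    congr 1
    omega
  have h5 : z ^ (n - 1) ≠ 0 := pow_ne_zero _ hz
  rw [Blaschke.den, h3, h4]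
  field_simp

theorem ev_lim (hb : ∀ z ∈ Ext, A.den z ≠ 0 → ‖z‖ ≤ ‖A.ev z‖) (hfin : {z | A.den z = 0}.Finite) :
    Tendsto A.ev (cocompact ℂ) (cocompact ℂ) := by
  have h0 : ∀ᶠ z in cocompact ℂ, ‖z‖ ≤ ‖A.ev z‖ := by
    have h1 := hfin.isCompact.compl_mem_cocompact
    have h2 : ∀ᶠ z in cocompact ℂ, 1 < ‖z‖ := (tendsto_norm_cocompact_atTop (E := ℂ)).eventually_gt_atTop 1
    filter_upwards [h1, h2] with z hz1 hz2
    exact hb z hz2 hz1
  have h1 : Tendsto (fun z => ‖A.ev z‖) (cocompact ℂ) atTop :=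
    tendsto_atTop_mono' _ h0 (tendsto_norm_cocompact_atTop (E := ℂ))
  nth_rewrite 2 [← Metric.cobounded_eq_cocompact]
  exact tendsto_norm_atTop_iff_cobounded.1 h1

theorem vv_lim (hn : 1 ≤ n) (hφ : Sig φ) (hb : ∀ z ∈ Ext, A.den z ≠ 0 → ‖z‖ ≤ ‖A.ev z‖)
    (hfin : {z | A.den z = 0}.Finite) : Tendsto (fun z => vv A φ z / z ^ n) (cocompact ℂ) (𝓝 1) := by
  have h1 : Tendsto (fun z => A.c⁻¹ * DD A φ z *
      (A.num z / z ^ n + A.den z / z ^ n * (φ (A.ev z) - A.ev z))) (cocompact ℂ)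
      (𝓝 (A.c⁻¹ * 1 * (A.c + 0 * 0))) :=
    ((DD_lim A φ hφ).const_mul _).mul ((num_lim A hn).add
      ((den_lim A hn).mul (hφ.norm.comp (ev_lim A hb hfin))))
  have h2 : A.c⁻¹ * 1 * (A.c + 0 * 0) = 1 := by
    simp [inv_mul_cancel₀ (c_ne A)]
  rw [h2] at h1
  refine h1.congr fun z => ?_
  rw [vv]
  ring

end POLEaux

open POLEaux in
theorem t_POLE (h1 : S_BL) (h2 : S_SIG) : S_POLE := by
  intro n hn A φ hφ
  obtain ⟨_, _, _, hb, hfin, hnum, _⟩ := h1 n hn A
  obtain ⟨_, _, _, hd, _⟩ := h2 φ hφ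
  have hev : ∀ z ∈ Ext, A.den z ≠ 0 → A.ev z ∈ Ext := fun z hz h => lt_of_lt_of_le hz (hb z hz h)
  refine ⟨q_degree A φ hn, fun z hz => q_zero_iff A φ hφ hz, fun y hy => q_zero_mem A φ hy,
    vv A φ, vv_diff A φ hφ hev hnum hfin, fun z _ h => vv_eq A φ h, fun z hz h => ?_,
    vv_lim A φ hn hφ hb hfin⟩
  rw [vv_pole A φ h]
  exact mul_ne_zero (mul_ne_zero (inv_ne_zero (c_ne A)) (DD_ne A φ hφ hd hz)) (hnum z hz)

end Pool.Agent.H212.MB
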