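import Pool.Agent.H212.MB.Stm3

/-!
# MB, POW: the change of variables `w = z ^ n` (by helper784)
-/

set_option autoImplicit false

open Filter Metric Set Topology MeasureTheory
open scoped ComplexConjugate ENNReal

namespace Pool.Agent.H212.MB

namespace POWaux

/-- the principal `n`-th root of `z ^ n` -/
noncomputable def rt (n : ℕ) (z : ℂ) : ℂ := (z ^ n) ^ ((n : ℂ)⁻¹)

theorem rt_pow {n : ℕ} (hn : 1 ≤ n) (z : ℂ) : rt n z ^ n = z ^ n := by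
  unfold rt
  rw [Complex.cpow_nat_inv_pow _ (by omega)]

theorem rt_meas (n : ℕ) : Measurable (rt n) := by
  unfold rt
  exact (measurable_id.pow_const n).pow_const _

/-- the sector of the root of unity `ζ` -/
def Sec (n : ℕ) (r₁ r₂ : ℝ) (ζ : ℂ) : Set ℂ :=
  {z : ℂ | r₁ < ‖z‖ ∧ ‖z‖ < r₂} ∩ {z | z = ζ * rt n z}

theorem meas_ann (r₁ r₂ : ℝ) : MeasurableSet {z : ℂ | r₁ < ‖z‖ ∧ ‖z‖ < r₂} :=
  (measurableSet_lt measurable_const measurable_norm).inter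
    (measurableSet_lt measurable_norm measurable_const)

theorem meas_Sec (n : ℕ) (r₁ r₂ : ℝ) (ζ : ℂ) : MeasurableSet (Sec n r₁ r₂ ζ) :=
  (meas_ann r₁ r₂).inter (measurableSet_eq_fun measurable_id ((rt_meas n).const_mul ζ))

theorem inj_Sec (n : ℕ) (r₁ r₂ : ℝ) (ζ : ℂ) : InjOn (fun z : ℂ => z ^ n) (Sec n r₁ r₂ ζ) := by
  intro z hz w hw h
  have h1 : z = ζ * rt n z := hz.2
  have h2 : w = ζ * rt n w := hw.2
  have h3 : rt n z = rt n w := by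
    unfold rt
    simp only at h
    rw [h]
  rw [h1, h2, h3]

theorem image_Sec {n : ℕ} (hn : 1 ≤ n) {r₁ r₂ : ℝ} (hr : 0 < r₁) (ζ : ℂ) :
    (fun z : ℂ => z ^ n) '' Sec n r₁ r₂ ζ ⊆ {w : ℂ | r₁ ^ n < ‖w‖ ∧ ‖w‖ < r₂ ^ n} := by
  rintro _ ⟨z, hz, rfl⟩
  have h1 : r₁ < ‖z‖ := hz.1.1
  have h2 : ‖z‖ < r₂ := hz.1.2
  simp only [mem_ofPred_eq, norm_pow]
  exact ⟨pow_lt_pow_left₀ h1 hr.le (by omega), pow_lt_pow_left₀ h2 (norm_nonneg _) (by omega)⟩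

theorem int_Sec {n : ℕ} (hn : 1 ≤ n) (g : ℂ → ℝ≥0∞) {r₁ r₂ : ℝ} (hr : 0 < r₁) (ζ : ℂ) :
    (∫⁻ z in Sec n r₁ r₂ ζ, g (z ^ n) * ‖(n : ℂ) * z ^ (n - 1)‖ₑ ^ 2) ≤
      ∫⁻ w in {w : ℂ | r₁ ^ n < ‖w‖ ∧ ‖w‖ < r₂ ^ n}, g w := by
  have hd : ∀ z : ℂ, HasDerivAt (fun z : ℂ => z ^ n) ((n : ℂ) * z ^ (n - 1)) z :=
    fun z => hasDerivAt_pow n z
  have hf : ∀ z ∈ Sec n r₁ r₂ ζ, HasFDerivWithinAt (fun z : ℂ => z ^ n)
      (fderiv ℝ (fun z : ℂ => z ^ n) z) (Sec n r₁ r₂ ζ) z := fun z _ =>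
    ((hd z).differentiableAt.restrictScalars ℝ).hasFDerivAt.hasFDerivWithinAt
  have h1 := lintegral_image_eq_lintegral_abs_det_fderiv_mul volume (meas_Sec n r₁ r₂ ζ) hf
    (inj_Sec n r₁ r₂ ζ) g
  refine le_trans (le_of_eq ?_) (lintegral_mono_set (image_Sec hn hr ζ))
  rw [h1]
  refine setLIntegral_congr_fun (meas_Sec n r₁ r₂ ζ) fun z _ => ?_
  obtain ⟨h3, h4⟩ := dz_of_hasDerivAt (hd z)
  rw [det_fderiv, h3, h4, norm_zero, zero_pow two_ne_zero, sub_zero, abs_of_nonneg (sq_nonneg _),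
    ENNReal.ofReal_pow (norm_nonneg _), ofReal_norm, mul_comm]

end POWaux

open POWaux in
theorem t_POW : S_POW := by
  intro n hn g r₁ r₂ hg hr
  set s : Finset ℂ := Polynomial.nthRootsFinset n (1 : ℂ) with hs
  set I := ∫⁻ w in {w : ℂ | r₁ ^ n < ‖w‖ ∧ ‖w‖ < r₂ ^ n}, g w with hI
  have hcov : {z : ℂ | r₁ < ‖z‖ ∧ ‖z‖ < r₂} ⊆ ⋃ ζ : s, Sec n r₁ r₂ (ζ : ℂ) := by
    intro z hz
    have hz0 : z ≠ 0 := by
      rintro rfl
      have : r₁ < ‖(0 : ℂ)‖ := hz.1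
      rw [norm_zero] at this
      linarith
    have hr0 : rt n z ≠ 0 := by
      intro h
      have := rt_pow hn z
      rw [h, zero_pow (by omega)] at this
      exact hz0 (pow_eq_zero_iff (by omega) |>.1 this.symm)
    have hζ : z / rt n z ∈ s := by
      rw [hs, Polynomial.mem_nthRootsFinset (by omega), div_pow, rt_pow hn,
        div_self (pow_ne_zero n hz0)]
    refine mem_iUnion.2 ⟨⟨z / rt n z, hζ⟩, hz, ?_⟩
    show z = z / rt n z * rt n z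
    rw [div_mul_cancel₀ _ hr0]
  calc (∫⁻ z in {z : ℂ | r₁ < ‖z‖ ∧ ‖z‖ < r₂}, g (z ^ n) * ‖(n : ℂ) * z ^ (n - 1)‖ₑ ^ 2) ≤
      ∫⁻ z in ⋃ ζ : s, Sec n r₁ r₂ (ζ : ℂ), g (z ^ n) * ‖(n : ℂ) * z ^ (n - 1)‖ₑ ^ 2 :=
        lintegral_mono_set hcov
    _ ≤ ∑' ζ : s, ∫⁻ z in Sec n r₁ r₂ (ζ : ℂ), g (z ^ n) * ‖(n : ℂ) * z ^ (n - 1)‖ₑ ^ 2 :=
        lintegral_iUnion_le _ _
    _ = ∑ ζ : s, ∫⁻ z in Sec n r₁ r₂ (ζ : ℂ), g (z ^ n) * ‖(n : ℂ) * z ^ (n - 1)‖ₑ ^ 2 :=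
        tsum_fintype _
    _ ≤ ∑ _ζ : s, I := Finset.sum_le_sum fun ζ _ => int_Sec hn g hr (ζ : ℂ)
    _ = (s.card : ℝ≥0∞) * I := by
        rw [Finset.sum_const, Finset.card_univ, Fintype.card_coe, nsmul_eq_mul]
    _ ≤ n * I := by
        have hcard : s.card ≤ n := by
          rw [hs, Polynomial.nthRootsFinset]
          exact (Multiset.toFinset_card_le _).trans (Polynomial.card_nthRoots n 1)
        exact mul_le_mul_left (by exact_mod_cast hcard) _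

end Pool.Agent.H212.MB
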