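import Pool.Agent.H212.MB.Stm3

set_option autoImplicit false

open Filter Metric Set Topology MeasureTheory Polynomial
open scoped ContDiff ComplexConjugate ENNReal

namespace Pool.Agent.H212.MB

namespace QFORMaux

theorem inv_tendsto : Tendsto (fun y : ℂ => y⁻¹) (cocompact ℂ) (𝓝 0) := by
  rw [← Metric.cobounded_eq_cocompact]
  exact tendsto_inv₀_cobounded

theorem norm_tendsto : Tendsto (fun y : ℂ => ‖y‖) (cocompact ℂ) atTop :=
  tendsto_norm_cocompact_atTop

theorem ne_zero_ev : ∀ᶠ y : ℂ in cocompact ℂ, y ≠ 0 := by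
  filter_upwards [norm_tendsto.eventually (eventually_gt_atTop 0)] with y hy
  exact norm_pos_iff.1 hy

theorem pow_div (i n : ℕ) (h : i < n) :
    Tendsto (fun y : ℂ => y ^ i / y ^ n) (cocompact ℂ) (𝓝 0) := by
  have h1 : Tendsto (fun y : ℂ => (y⁻¹) ^ (n - i)) (cocompact ℂ) (𝓝 (0 ^ (n - i))) :=
    inv_tendsto.pow _
  rw [zero_pow (by omega)] at h1
  refine h1.congr' ?_
  filter_upwards [ne_zero_ev] with y hy
  rw [inv_pow, eq_div_iff (pow_ne_zero _ hy), inv_mul_eq_iff_eq_mul₀ (pow_ne_zero _ hy), ← pow_add]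
  congr 1
  omega

/-- a monic polynomial of degree `n` behaves like `y ^ n` at infinity -/
theorem monic_div_pow {P : ℂ[X]} (hP : P.Monic) {n : ℕ} (hn : P.natDegree = n) :
    Tendsto (fun y => P.eval y / y ^ n) (cocompact ℂ) (𝓝 1) := by
  have h1 : Tendsto (fun y : ℂ => 1 + ∑ i ∈ Finset.range n, P.coeff i * (y ^ i / y ^ n))
      (cocompact ℂ) (𝓝 (1 + ∑ i ∈ Finset.range n, P.coeff i * 0)) := by
    refine tendsto_const_nhds.add (tendsto_finsetSum _ fun i hi => ?_)
    exact (pow_div i n (Finset.mem_range.1 hi)).const_mul _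
  simp only [mul_zero, Finset.sum_const_zero, add_zero] at h1
  refine h1.congr' ?_
  filter_upwards [ne_zero_ev] with y hy
  have h2 : P.eval y = y ^ n + ∑ i ∈ Finset.range n, P.coeff i * y ^ i := by
    conv_lhs => rw [hP.as_sum]
    rw [hn]
    simp [eval_finsetSum]
  rw [h2, add_div, div_self (pow_ne_zero _ hy), Finset.sum_div]
  congr 1
  exact Finset.sum_congr rfl fun i _ => by ring

theorem phi_tendsto {φ : ℂ → ℂ} (h : Tendsto (fun z => φ z - z) (cocompact ℂ) (𝓝 0)) :
    Tendsto φ (cocompact ℂ) (cocompact ℂ) := by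
  rw [← Metric.cobounded_eq_cocompact, ← tendsto_norm_atTop_iff_cobounded,
    Metric.cobounded_eq_cocompact]
  have h1 : ∀ᶠ z : ℂ in cocompact ℂ, ‖φ z - z‖ < 1 := by
    have := h.norm
    rw [norm_zero] at this
    exact this.eventually (gt_mem_nhds one_pos)
  have h2 : Tendsto (fun z : ℂ => ‖z‖ - 1) (cocompact ℂ) atTop :=
    tendsto_atTop_add_const_right _ _ norm_tendsto
  refine tendsto_atTop_mono' _ ?_ h2
  filter_upwards [h1] with z hz
  have h3 : ‖z‖ ≤ ‖φ z‖ + ‖φ z - z‖ := by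
    have := norm_sub_norm_le z (φ z)
    rw [← norm_neg (z - φ z), neg_sub] at this
    linarith
  linarith

theorem phi_div {φ : ℂ → ℂ} (h : Tendsto (fun z => φ z - z) (cocompact ℂ) (𝓝 0)) :
    Tendsto (fun z => φ z / z) (cocompact ℂ) (𝓝 1) := by
  have h1 : Tendsto (fun z => 1 + (φ z - z) * z⁻¹) (cocompact ℂ) (𝓝 (1 + 0 * 0)) :=
    tendsto_const_nhds.add (h.mul inv_tendsto)
  rw [mul_zero, add_zero] at h1
  refine h1.congr' ?_
  filter_upwards [ne_zero_ev] with z hz
  field_simp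
  ring

theorem monic_phi {P : ℂ[X]} (hP : P.Monic) {n : ℕ} (hn : P.natDegree = n) {φ : ℂ → ℂ}
    (h : Tendsto (fun z => φ z - z) (cocompact ℂ) (𝓝 0)) :
    Tendsto (fun z => P.eval (φ z) / z ^ n) (cocompact ℂ) (𝓝 1) := by
  have h1 := ((monic_div_pow hP hn).comp (phi_tendsto h)).mul ((phi_div h).pow n)
  rw [one_pow, one_mul] at h1
  refine h1.congr' ?_
  filter_upwards [ne_zero_ev, (phi_tendsto h).eventually ne_zero_ev] with z hz hz'
  simp only [Function.comp_apply]
  rw [div_pow, div_mul_div_comm, mul_comm (φ z ^ n), mul_div_mul_right _ _ (pow_ne_zero _ hz')]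

/-- a polynomial with a limit along a map tending to infinity is constant -/
theorem const_of_tendsto {r : ℂ[X]} {φ : ℂ → ℂ} (h : Tendsto φ (cocompact ℂ) (cocompact ℂ))
    {c : ℂ} (hr : Tendsto (fun z => r.eval (φ z)) (cocompact ℂ) (𝓝 c)) : r = C c := by
  have h0 : ¬ 0 < r.degree := by
    intro h0
    have h1 := r.tendsto_norm_atTop h0 (norm_tendsto.comp h)
    have h2 := hr.norm
    exact not_tendsto_nhds_of_tendsto_atTop h1 _ h2
  rw [eq_C_of_degree_le_zero (not_lt.1 h0)] at hr ⊢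
  simp only [eval_C] at hr
  rw [tendsto_nhds_unique hr tendsto_const_nhds]

theorem qpol_zn (n : ℕ) (φ : ℂ → ℂ) : qpol (zn n) φ = 1 := by
  simp [qpol, zn]

end QFORMaux

open QFORMaux

theorem t_QFORM (h1 : S_BL) (_h2 : S_SIG) (h3 : S_POLE) : S_QFORM := by
  intro n hn A f φ hext
  obtain ⟨hden0, -, -, hout, hfin, -, -, -, -⟩ := h1 n hn A
  obtain ⟨hdeg, hq0, hqW, v, hvd, hv, hvp, hvlim⟩ := h3 n hn A φ hext.sig
  set q : ℂ[X] := qpol A φ with hq
  -- the identity off the poles
  have key0 : ∀ z ∈ Ext, A.den z ≠ 0 → f.P.eval (φ z) * q.eval (φ z) = f.Q.eval (φ z) * v z := by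
    intro z hz hd
    obtain ⟨e1, e2⟩ := hext.semi z hz hd
    rw [hv z hz hd, ← e2, RMap.ev]
    field_simp
  have hφc : ContinuousOn φ Ext := hext.diff.continuousOn
  have hvc : ContinuousOn v Ext := hvd.continuousOn
  -- nonpoles near every point
  have hnp : ∀ p ∈ Ext, ∀ᶠ z in 𝓝[≠] p, z ∈ Ext ∧ A.den z ≠ 0 := by
    intro p hp
    have e1 : ∀ᶠ z in 𝓝[≠] p, z ∈ Ext := nhdsWithin_le_nhds (isOpen_Ext.mem_nhds hp)
    have e2 : ∀ᶠ z in 𝓝[≠] p, z ∉ ({z | A.den z = 0} \ {p}) := by
      have e3 : IsClosed ({z | A.den z = 0} \ {p}) := (hfin.subset sdiff_subset).isClosed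
      exact nhdsWithin_le_nhds (e3.isOpen_compl.mem_nhds (by simp))
    have e4 : ∀ᶠ z in 𝓝[≠] p, z ≠ p := eventually_mem_nhdsWithin
    filter_upwards [e1, e2, e4] with z a b c
    refine ⟨a, fun hd => b ⟨hd, c⟩⟩
  have hlim : ∀ (g : ℂ → ℂ), ContinuousOn g Ext → ∀ p ∈ Ext, Tendsto g (𝓝[≠] p) (𝓝 (g p)) := by
    intro g hg p hp
    exact (hg.continuousAt (isOpen_Ext.mem_nhds hp)).tendsto.mono_left nhdsWithin_le_nhds
  have hPc : ContinuousOn (fun z => f.P.eval (φ z)) Ext := f.P.continuous.comp_continuousOn hφc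
  have hQc : ContinuousOn (fun z => f.Q.eval (φ z)) Ext := f.Q.continuous.comp_continuousOn hφc
  have hqc : ContinuousOn (fun z => q.eval (φ z)) Ext := q.continuous.comp_continuousOn hφc
  have key : ∀ z ∈ Ext, f.P.eval (φ z) * q.eval (φ z) = f.Q.eval (φ z) * v z := by
    intro p hp
    have a1 := (hlim _ hPc p hp).mul (hlim _ hqc p hp)
    have a2 := (hlim _ hQc p hp).mul (hlim _ hvc p hp)
    refine tendsto_nhds_unique (a1.congr' ?_) a2
    filter_upwards [hnp p hp] with z hz
    exact key0 z hz.1 hz.2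
  -- zeros of `Q` in the exterior
  have hQ0 : ∀ z ∈ Ext, f.Q.eval (φ z) = 0 ↔ A.den z = 0 := by
    intro z hz
    constructor
    · intro hQ
      by_contra hd
      exact (hext.semi z hz hd).1 hQ
    · intro hd
      have e1 := key z hz
      rw [(hq0 z hz).2 hd, mul_zero] at e1
      exact (mul_eq_zero.1 e1.symm).resolve_right (hvp z hz hd)
  -- eventually nonpoles at infinity
  have hinf : ∀ᶠ z in cocompact ℂ, z ∈ Ext ∧ A.den z ≠ 0 := by
    have e1 : ∀ᶠ z : ℂ in cocompact ℂ, z ∈ Ext := norm_tendsto.eventually (eventually_gt_atTop 1)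
    have e2 : ∀ᶠ z : ℂ in cocompact ℂ, z ∉ {z | A.den z = 0} := hfin.isCompact.compl_mem_cocompact
    filter_upwards [e1, e2] with z a b
    exact ⟨a, b⟩
  obtain ⟨z0, hz0, hd0⟩ := hinf.exists
  have hqne : q ≠ 0 := by
    intro h
    apply hd0
    rw [← hq0 z0 hz0, h, eval_zero]
  have hQne : f.Q ≠ 0 := by
    intro h
    apply (hext.semi z0 hz0 hd0).1
    rw [h, eval_zero]
  -- `q` divides `Q`
  have hdvd : q ∣ f.Q := by
    rw [IsAlgClosed.dvd_iff_roots_le_roots hqne hQne, Multiset.le_iff_count]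
    intro y
    rw [count_roots, count_roots]
    by_contra hlt
    rw [not_le] at hlt
    have hy0 : q.eval y = 0 := by
      have : 0 < q.rootMultiplicity y := by omega
      exact (rootMultiplicity_pos hqne).1 this
    obtain ⟨p, hp, rfl⟩ := hqW y hy0
    have hpd : A.den p = 0 := (hq0 p hp).1 hy0
    obtain ⟨q1, e1, e2⟩ := q.exists_eq_pow_rootMultiplicity_mul_and_not_dvd hqne (φ p)
    obtain ⟨Q1, e3, e4⟩ := f.Q.exists_eq_pow_rootMultiplicity_mul_and_not_dvd hQne (φ p)
    set k := f.Q.rootMultiplicity (φ p) with hk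
    set m := q.rootMultiplicity (φ p) with hm
    have hQ1 : Q1.eval (φ p) ≠ 0 := by
      intro h
      exact e4 (dvd_iff_isRoot.2 h)
    have hid : ∀ᶠ z in 𝓝[≠] p, f.P.eval (φ z) * ((φ z - φ p) ^ (m - k) * q1.eval (φ z)) =
        Q1.eval (φ z) * v z := by
      have e5 : ∀ᶠ z in 𝓝[≠] p, z ≠ p := eventually_mem_nhdsWithin
      filter_upwards [hnp p hp, e5] with z hz hzp
      have e6 := key z hz.1
      have e7 : q.eval (φ z) = (φ z - φ p) ^ m * q1.eval (φ z) := by
        conv_lhs => rw [e1]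
        simp
      have e8 : f.Q.eval (φ z) = (φ z - φ p) ^ k * Q1.eval (φ z) := by
        conv_lhs => rw [e3]
        simp
      have e9 : φ z - φ p ≠ 0 := by
        intro h
        exact hzp (hext.inj hz.1 hp (sub_eq_zero.1 h))
      have e10 : (φ z - φ p) ^ m = (φ z - φ p) ^ k * (φ z - φ p) ^ (m - k) := by
        rw [← pow_add]
        congr 1
        omega
      rw [e7, e8, e10] at e6
      apply mul_left_cancel₀ (pow_ne_zero k e9)
      linear_combination e6
    have hq1c : ContinuousOn (fun z => q1.eval (φ z)) Ext := q1.continuous.comp_continuousOn hφc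
    have hQ1c : ContinuousOn (fun z => Q1.eval (φ z)) Ext := Q1.continuous.comp_continuousOn hφc
    have a1 := (hlim _ hPc p hp).mul
      ((((hlim _ hφc p hp).sub_const (φ p)).pow (m - k)).mul (hlim _ hq1c p hp))
    have a2 := (hlim _ hQ1c p hp).mul (hlim _ hvc p hp)
    have a3 := tendsto_nhds_unique (a1.congr' hid) a2
    rw [sub_self, zero_pow (by omega), zero_mul, mul_zero] at a3
    rcases mul_eq_zero.1 a3.symm with h | h
    · exact hQ1 h
    · exact hvp p hp hpd h
  obtain ⟨r, hr⟩ := hdvd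
  -- the quotient is one
  have hrlim : Tendsto (fun z => r.eval (φ z)) (cocompact ℂ) (𝓝 1) := by
    have a1 := (monic_phi f.monic f.natDegree hext.norm).div hvlim one_ne_zero
    rw [div_one] at a1
    refine a1.congr' ?_
    have hvne : ∀ᶠ z in cocompact ℂ, v z / z ^ n ≠ 0 := hvlim.eventually_ne one_ne_zero
    filter_upwards [hinf, ne_zero_ev, hvne] with z hz hz0 hvz
    have hvz' : v z ≠ 0 := by
      intro h
      apply hvz
      rw [h, zero_div]
    have hqz : q.eval (φ z) ≠ 0 := fun h => hz.2 ((hq0 z hz.1).1 h)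
    have e1 := key z hz.1
    rw [hr, eval_mul] at e1
    simp only [Pi.div_apply]
    rw [div_div_div_cancel_right₀ (pow_ne_zero _ hz0), div_eq_iff hvz']
    apply mul_right_cancel₀ hqz
    linear_combination e1
  have hr1 : r = 1 := by
    rw [const_of_tendsto (phi_tendsto hext.norm) hrlim, C_1]
  have hQq : f.Q = q := by rw [hr, hr1, mul_one]
  refine ⟨hQq, hQ0, ?_, qpol_zn n φ⟩
  intro y hy hy0
  rw [hQq] at hy0
  exact hy (hqW y hy0)

theorem t_FINV (h1 : S_BL) (h2 : S_QFORM) : S_FINV := by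
  intro n hn g φ hext z hz hgz
  obtain ⟨-, -, -, -, -, -, -, -, hzn⟩ := h1 n hn (zn n)
  obtain ⟨hQ, -, -, hq1⟩ := h2 n hn (zn n) g φ hext
  obtain ⟨w0, hw0, hw0'⟩ := hgz
  have hQ1 : g.Q = 1 := by rw [hQ, hq1]
  have hev : ∀ y, g.ev y = g.P.eval y := by
    intro y
    rw [RMap.ev, hQ1, eval_one, div_one]
  have hnn : n ≠ 0 := by omega
  have hw0n : w0 ≠ 0 := by
    intro h
    rw [h] at hw0
    simp only [Ext, mem_ofPred_eq, norm_zero] at hw0
    linarith
  have hprim := Complex.isPrimitiveRoot_exp n hnn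
  have hroot : ∃ α : ℂ, α ^ n = w0 := IsAlgClosed.exists_pow_nat_eq w0 (by omega)
  set S : Finset ℂ := (nthRoots n w0).toFinset with hS
  have hScard : S.card = n := by
    rw [hS, Multiset.toFinset_card_of_nodup (hprim.nthRoots_nodup hw0n), hprim.card_nthRoots,
      if_pos hroot]
  have hSmem : ∀ w ∈ S, w ^ n = w0 := by
    intro w hw
    rw [hS, Multiset.mem_toFinset, mem_nthRoots (by omega)] at hw
    exact hw
  have hSext : ∀ w ∈ S, w ∈ Ext := by
    intro w hw
    have e1 := hSmem w hw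
    by_contra h
    simp only [Ext, mem_ofPred_eq, not_lt] at h
    have e2 : ‖w0‖ ≤ 1 := by
      rw [← e1, norm_pow]
      exact pow_le_one₀ (norm_nonneg _) h
    simp only [Ext, mem_ofPred_eq] at hw0
    linarith
  set R : ℂ[X] := g.P - C (φ w0) with hR
  have hRdeg : R.natDegree = n := by
    rw [hR, natDegree_sub_C, g.natDegree]
  have hRne : R ≠ 0 := by
    intro h
    rw [h, natDegree_zero] at hRdeg
    omega
  have hRroot : ∀ y, y ∈ R.roots ↔ g.P.eval y = φ w0 := by
    intro y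
    rw [mem_roots hRne, IsRoot.def, hR, eval_sub, eval_C, sub_eq_zero]
  have hmem : ∀ w ∈ S, g.P.eval (φ w) = φ w0 := by
    intro w hw
    have e1 := (hext.semi w (hSext w hw) (by rw [(hzn w).1]; exact one_ne_zero)).2
    rw [hev, (hzn w).2, hSmem w hw] at e1
    exact e1
  have hzS : z ∉ S.image φ := by
    intro h
    obtain ⟨w, hw, rfl⟩ := Finset.mem_image.1 h
    exact hz ⟨w, hSext w hw, rfl⟩
  have hsub : insert z (S.image φ) ⊆ R.roots.toFinset := by
    intro y hy
    rw [Multiset.mem_toFinset, hRroot]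
    rcases Finset.mem_insert.1 hy with rfl | hy
    · rw [← hev, ← hw0']
    · obtain ⟨w, hw, rfl⟩ := Finset.mem_image.1 hy
      exact hmem w hw
  have hcard : (insert z (S.image φ)).card = n + 1 := by
    rw [Finset.card_insert_of_notMem hzS, Finset.card_image_of_injOn, hScard]
    intro a ha b hb hab
    exact hext.inj (hSext a ha) (hSext b hb) hab
  have h5 := Finset.card_le_card hsub
  have h6 := R.roots.toFinset_card_le
  have h7 := R.card_roots'
  omega

end Pool.Agent.H212.MB
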