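import Pool.Agent.H212.MB.Stm3
import Pool.Graph.R_seed8.Helper469.Univalent

/-!
# MP_c3607d_an, QMAP: the circle model of a mating (proof: helper671)
-/

set_option autoImplicit false

open Filter Metric Set Topology MeasureTheory Polynomial
open scoped ContDiff ComplexConjugate ENNReal

namespace Pool.Agent.H212.MB

namespace QMAPaux

/-- the point `exp (i x)` -/
noncomputable def ep (x : ℝ) : ℂ := Complex.exp (x * Complex.I)

lemma ep_norm (x : ℝ) : ‖ep x‖ = 1 := Complex.norm_exp_ofReal_mul_I x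

lemma ep_surj {z : ℂ} (hz : ‖z‖ = 1) : ∃ x : ℝ, ep x = z := by
  refine ⟨z.arg, ?_⟩
  have h := Complex.norm_mul_exp_arg_mul_I z
  rw [hz, Complex.ofReal_one, one_mul] at h
  exact h

lemma isOpen_ball01 : IsOpen (ball (0 : ℂ) 1) := isOpen_ball

section
variable {n : ℕ} {A B : Blaschke n} {f : RMap n} {φ ψ : ℂ → ℂ} {h : ℝ → ℝ} {k : ℝ}
  {TA TB : ℂ ≃ₜ ℂ}

lemma tr_le {A₁ A₂ : Blaschke n} {T : ℂ ≃ₜ ℂ} (hT : IsTr A₁ A₂ k T) (z : ℂ) :
    ‖T z‖ ≤ 1 ↔ ‖z‖ ≤ 1 := by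
  rw [← not_lt, ← not_lt, hT.out]

lemma tr_ge {A₁ A₂ : Blaschke n} {T : ℂ ≃ₜ ℂ} (hT : IsTr A₁ A₂ k T) (z : ℂ) :
    1 ≤ ‖T z‖ ↔ 1 ≤ ‖z‖ := by
  rw [← not_lt, ← not_lt, hT.inn]

lemma tr_eq {A₁ A₂ : Blaschke n} {T : ℂ ≃ₜ ℂ} (hT : IsTr A₁ A₂ k T) {z : ℂ} (hz : ‖z‖ = 1) :
    ‖T z‖ = 1 :=
  le_antisymm ((tr_le hT z).2 hz.le) ((tr_ge hT z).2 hz.ge)

/-- continuity of the values of a rational map -/
lemma ev_cont {z : ℂ} (hz : f.Q.eval z ≠ 0) : ContinuousAt f.ev z := by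
  unfold RMap.ev
  exact f.P.continuous.continuousAt.div f.Q.continuous.continuousAt hz

lemma bl_cont (C : Blaschke n) {z : ℂ} (hz : C.den z ≠ 0) : ContinuousAt C.ev z := by
  unfold Blaschke.ev
  have h1 : Continuous C.num := by
    unfold Blaschke.num
    fun_prop
  have h2 : Continuous C.den := by
    unfold Blaschke.den
    fun_prop
  exact h1.continuousAt.div h2.continuousAt hz

/-- the semiconjugacy on the unit circle -/
lemma semi_bd (h1 : S_BL) (hn : 1 ≤ n) (hd : IsMatingData A B f φ ψ h) {ζ : ℂ} (hζ : ‖ζ‖ = 1) :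
    f.Q.eval (φ ζ) ≠ 0 ∧ f.ev (φ ζ) = φ (A.ev ζ) := by
  obtain ⟨b1, -, b3, b4, -⟩ := h1 n hn A
  obtain ⟨x, hx⟩ := ep_surj hζ
  have hq : f.Q.eval (φ ζ) ≠ 0 := by
    rw [← hx]
    unfold ep
    rw [hd.glue]
    exact (hd.semiψ _ (by rw [mem_closedBall_zero_iff]; exact (ep_norm (h x)).le)).1
  refine ⟨hq, ?_⟩
  have hden : A.den ζ ≠ 0 := b1 ζ hζ.le
  have hζC : ζ ∈ CExt := hζ.ge
  have hne : (𝓝[Ext] ζ).NeBot := by
    rw [← mem_closure_iff_nhdsWithin_neBot]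
    rw [Metric.mem_closure_iff]
    intro ε hε
    refine ⟨((1 + ε / 2 : ℝ) : ℂ) * ζ, ?_, ?_⟩
    · show 1 < ‖_‖
      rw [norm_mul, hζ, mul_one, Complex.norm_real, Real.norm_of_nonneg (by positivity)]
      linarith
    · rw [dist_eq_norm]
      have e : ζ - ((1 + ε / 2 : ℝ) : ℂ) * ζ = ((-(ε / 2) : ℝ) : ℂ) * ζ := by push_cast; ring
      rw [e, norm_mul, hζ, mul_one, Complex.norm_real, norm_neg, Real.norm_of_nonneg (by positivity)]
      linarith
  have hle : 𝓝[Ext] ζ ≤ 𝓝[CExt] ζ := nhdsWithin_mono _ fun z (hz : 1 < ‖z‖) => (le_of_lt hz : 1 ≤ ‖z‖)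
  have l1 : Tendsto φ (𝓝[Ext] ζ) (𝓝 (φ ζ)) := (hd.contφ ζ hζC).mono_left hle
  have l2 : Tendsto (fun z => f.ev (φ z)) (𝓝[Ext] ζ) (𝓝 (f.ev (φ ζ))) := (ev_cont hq).tendsto.comp l1
  have hev : ∀ᶠ z in 𝓝[Ext] ζ, A.den z ≠ 0 := by
    have h2 : Continuous A.den := by
      unfold Blaschke.den
      fun_prop
    exact (h2.continuousAt.eventually_ne hden).filter_mono nhdsWithin_le_nhds
  have l3 : Tendsto A.ev (𝓝[Ext] ζ) (𝓝[CExt] (A.ev ζ)) := by
    refine tendsto_nhdsWithin_iff.2 ⟨(bl_cont A hden).tendsto.mono_left nhdsWithin_le_nhds, ?_⟩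
    filter_upwards [hev, self_mem_nhdsWithin] with z hz hzE
    have h3 := b4 z hzE hz
    have h4 : 1 < ‖z‖ := hzE
    show 1 ≤ ‖A.ev z‖
    linarith
  have l4 : Tendsto (fun z => φ (A.ev z)) (𝓝[Ext] ζ) (𝓝 (φ (A.ev ζ))) :=
    (hd.contφ (A.ev ζ) (b3 ζ hζ).ge).tendsto.comp l3
  have l5 : (fun z => f.ev (φ z)) =ᶠ[𝓝[Ext] ζ] fun z => φ (A.ev z) := by
    filter_upwards [hev, self_mem_nhdsWithin] with z hz hzE
    exact (hd.ext.semi z hzE hz).2
  exact tendsto_nhds_unique (l2.congr' l5) l4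

/-- the gluing on the unit circle -/
lemma match_circle (h1 : S_BL) (h2 : S_CIRC) (hn : 2 ≤ n) (hd : IsMatingData A B f φ ψ h)
    (hA : IsTr (zn n) A k TA) (hB : IsTr (zn n) B k TB) {ζ : ℂ} (hζ : ‖ζ‖ = 1) :
    φ (TA ζ) = ψ (TB ζ) := by
  have hn1 : 1 ≤ n := by omega
  have bA := h1 n hn1 A
  have bB := h1 n hn1 B
  have bz : ∀ z : ℂ, (zn n).ev z = z ^ n := fun z => (bA.2.2.2.2.2.2.2.2 z).2
  obtain ⟨t, tc, tm, tp, tl⟩ := hA.lift
  obtain ⟨t', tc', tm', tp', tl'⟩ := hB.lift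
  have hpow : ∀ x : ℝ, (ep x) ^ n = ep (n * x) := by
    intro x
    unfold ep
    rw [← Complex.exp_nat_mul]
    congr 1
    push_cast
    ring
  have sA : ∀ x : ℝ, TA ((ep x) ^ n) = A.ev (TA (ep x)) := by
    intro x
    obtain ⟨ρ, hρ, hs⟩ := hA.semi
    have := (hs (ep x) (by rw [ep_norm]; exact inv_lt_one_of_one_lt₀ hρ)
      (by rw [ep_norm]; exact hρ)).2.2
    rw [bz] at this
    exact this
  have sB : ∀ x : ℝ, TB ((ep x) ^ n) = B.ev (TB (ep x)) := by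
    intro x
    obtain ⟨ρ, hρ, hs⟩ := hB.semi
    have := (hs (ep x) (by rw [ep_norm]; exact inv_lt_one_of_one_lt₀ hρ)
      (by rw [ep_norm]; exact hρ)).2.2
    rw [bz] at this
    exact this
  have tl2 : ∀ x, TA (ep x) = ep (t x) := tl
  have tl2' : ∀ x, TB (ep x) = ep (t' x) := tl'
  have glue : ∀ x, φ (ep x) = ψ (ep (h x)) := hd.glue
  have cb : ∀ x, ep x ∈ closedBall (0 : ℂ) 1 := fun x => by
    rw [mem_closedBall_zero_iff, ep_norm]
  have key := h2 n hn B.ev (fun x => h (t x)) t' (hd.conth.comp tc) (hd.monoh.comp tm)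
    (fun x => by rw [tp, hd.perh]) tc' tm' tp' (fun x => ?_) (fun x => ?_) ?_
  · obtain ⟨x, rfl⟩ := ep_surj hζ
    have h3 : ep (h (t x)) = ep (t' x) := key x
    rw [tl2, tl2', glue, h3]
  · show ep (h (t (n * x))) = B.ev (ep (h (t x)))
    have hBn : B.ev (ep (h (t x))) ∈ closedBall (0 : ℂ) 1 := by
      rw [mem_closedBall_zero_iff]
      exact (bB.2.2.1 _ (ep_norm _)).le
    apply hd.injψ (cb _) hBn
    rw [← glue, ← tl2, ← hpow, sA, tl2, ← (semi_bd h1 hn1 hd (ep_norm (t x))).2, glue]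
    exact (hd.semiψ _ (cb _)).2
  · show ep (t' (n * x)) = B.ev (ep (t' x))
    rw [← tl2', ← tl2', ← hpow, sB]
  · show ep (h (t 0)) = ep (t' 0)
    apply hd.injψ (cb _) (cb _)
    have e1 : ep 0 = 1 := by simp [ep]
    have hb : (zn n).b = 1 := rfl
    have m1 := hA.mark
    have m2 := hB.mark
    rw [hb, ← e1] at m1 m2
    rw [← glue, ← tl2, ← tl2', m1, m2]
    exact hd.mark

/-- the map -/
noncomputable def Qf (φ ψ : ℂ → ℂ) (TA TB : ℂ ≃ₜ ℂ) (z : ℂ) : ℂ :=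
  if ‖z‖ ≤ 1 then ψ (TB z) else φ (TA z)

end

end QMAPaux

open QMAPaux in
theorem t_QMAP (h1 : S_BL) (h2 : S_CIRC) : S_QMAP := by
  intro n hn A B f φ ψ h k TA TB hd hA hB
  have hn1 : 1 ≤ n := by omega
  have bz : ∀ z : ℂ, (zn n).ev z = z ^ n := fun z => ((h1 n hn1 A).2.2.2.2.2.2.2.2 z).2
  have hm : ∀ ζ : ℂ, ‖ζ‖ = 1 → φ (TA ζ) = ψ (TB ζ) := fun ζ hζ =>
    match_circle h1 h2 hn hd hA hB hζ
  have q1 : ∀ z, ‖z‖ ≤ 1 → Qf φ ψ TA TB z = ψ (TB z) := fun z hz => if_pos hz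
  have q2 : ∀ z, 1 < ‖z‖ → Qf φ ψ TA TB z = φ (TA z) := fun z hz => if_neg (not_le.2 hz)
  have q3 : ∀ z, 1 ≤ ‖z‖ → Qf φ ψ TA TB z = φ (TA z) := fun z hz => by
    rcases hz.lt_or_eq with h | h
    · exact q2 z h
    · rw [q1 z h.ge, hm z h.symm]
  have hcont : Continuous (Qf φ ψ TA TB) := by
    unfold Qf
    refine continuous_if_le continuous_norm continuous_const ?_ ?_ fun z hz => (hm z hz).symm
    · refine hd.contψ.comp TB.continuous.continuousOn fun z hz => ?_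
      rw [mem_closedBall_zero_iff]
      exact (tr_le hB z).2 hz
    · exact hd.contφ.comp TA.continuous.continuousOn fun z hz => (tr_ge hA z).2 hz
  have hinj : Function.Injective (Qf φ ψ TA TB) := by
    have hmix : ∀ z w, ‖z‖ ≤ 1 → 1 < ‖w‖ → Qf φ ψ TA TB z ≠ Qf φ ψ TA TB w := by
      intro z w hz hw he
      rw [q1 z hz, q2 w hw] at he
      have h3 : φ (TA w) ∈ φ '' Ext := ⟨TA w, (hA.out w).2 hw, rfl⟩
      rw [hd.compl] at h3
      exact h3 ⟨TB z, by rw [mem_closedBall_zero_iff]; exact (tr_le hB z).2 hz, he⟩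
    intro z w he
    rcases le_or_gt ‖z‖ 1 with hz | hz <;> rcases le_or_gt ‖w‖ 1 with hw | hw
    · rw [q1 z hz, q1 w hw] at he
      exact TB.injective (hd.injψ (by rw [mem_closedBall_zero_iff]; exact (tr_le hB z).2 hz)
        (by rw [mem_closedBall_zero_iff]; exact (tr_le hB w).2 hw) he)
    · exact absurd he (hmix z w hz hw)
    · exact absurd he.symm (hmix w z hw hz)
    · rw [q2 z hz, q2 w hw] at he
      exact TA.injective (hd.ext.inj ((hA.out z).2 hz) ((hA.out w).2 hw) he)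
  have hsurj : Function.Surjective (Qf φ ψ TA TB) := by
    intro y
    by_cases hy : y ∈ φ '' Ext
    · obtain ⟨w, hw, rfl⟩ := hy
      refine ⟨TA.symm w, ?_⟩
      have h3 : 1 < ‖TA.symm w‖ := by
        rw [← hA.out, TA.apply_symm_apply]
        exact hw
      rw [q2 _ h3, TA.apply_symm_apply]
    · rw [hd.compl, mem_compl_iff, not_not] at hy
      obtain ⟨w, hw, rfl⟩ := hy
      refine ⟨TB.symm w, ?_⟩
      have h3 : ‖TB.symm w‖ ≤ 1 := by
        rw [← tr_le hB, TB.apply_symm_apply]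
        rw [mem_closedBall_zero_iff] at hw
        exact hw
      rw [q1 _ h3, TB.apply_symm_apply]
  have hlim : Tendsto (fun z => Qf φ ψ TA TB z - z) (cocompact ℂ) (𝓝 0) := by
    obtain ⟨ρ, hρ, hid, -⟩ := hA.ident
    refine hd.ext.norm.congr' ?_
    rw [← Metric.cobounded_eq_cocompact]
    filter_upwards [(Metric.hasBasis_cobounded_compl_closedBall (0 : ℂ)).mem_of_mem (i := ρ) trivial]
      with z hz
    rw [mem_compl_iff, mem_closedBall_zero_iff, not_le] at hz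
    rw [q2 z (hρ.trans hz), hid z hz.le]
  have hproper : Tendsto (Qf φ ψ TA TB) (cocompact ℂ) (cocompact ℂ) := by
    rw [← Metric.cobounded_eq_cocompact, ← tendsto_norm_atTop_iff_cobounded]
    have h3 : ∀ᶠ z in Bornology.cobounded ℂ, ‖z‖ - 1 ≤ ‖Qf φ ψ TA TB z‖ := by
      rw [← Metric.cobounded_eq_cocompact] at hlim
      have h4 := (Metric.tendsto_nhds.1 hlim) 1 one_pos
      filter_upwards [h4] with z hz
      rw [dist_zero_right] at hz
      have h5 := norm_sub_norm_le z (z - Qf φ ψ TA TB z)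
      rw [sub_sub_cancel, norm_sub_rev z] at h5
      linarith
    refine tendsto_atTop_mono' _ h3 ?_
    exact tendsto_atTop_add_const_right _ (-1) tendsto_norm_cobounded_atTop
  let e : ℂ ≃ ℂ := Equiv.ofBijective _ ⟨hinj, hsurj⟩
  have hclosed : IsClosedMap e :=
    (isProperMap_iff_tendsto_cocompact.2 ⟨hcont, hproper⟩).isClosedMap
  let Q : ℂ ≃ₜ ℂ := e.toHomeomorphOfContinuousClosed hcont hclosed
  have hQ : ∀ z, Q z = Qf φ ψ TA TB z := fun z => rfl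
  -- local description
  have hloc : ∀ z ∈ Off, ∃ (g : ℂ → ℂ) (T : ℂ ≃ₜ ℂ) (U : Set ℂ), IsOpen U ∧ T z ∈ U ∧
      DifferentiableOn ℂ g U ∧ InjOn g U ∧ (Q : ℂ → ℂ) =ᶠ[𝓝 z] g ∘ T ∧
      ContDiffOn ℝ ∞ T Off ∧ dz T z ≠ 0 ∧ ‖dzb T z‖ ≤ k * ‖dz T z‖ := by
    intro z hz
    rcases lt_or_gt_of_ne (show ‖z‖ ≠ 1 from hz) with h3 | h3
    · refine ⟨ψ, TB, ball 0 1, isOpen_ball, ?_, hd.diffψ, hd.injψ.mono ball_subset_closedBall, ?_,
        hB.smooth, hB.nd z hz, hB.dil z hz⟩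
      · rw [mem_ball_zero_iff]
        exact (hB.inn z).2 h3
      · filter_upwards [(isOpen_lt continuous_norm continuous_const).mem_nhds h3] with w hw
        rw [hQ, q1 w (le_of_lt hw)]
        rfl
    · refine ⟨φ, TA, Ext, isOpen_Ext, (hA.out z).2 h3, hd.ext.diff, hd.ext.inj, ?_,
        hA.smooth, hA.nd z hz, hA.dil z hz⟩
      filter_upwards [(isOpen_lt continuous_const continuous_norm).mem_nhds h3] with w hw
      rw [hQ, q2 w hw]
      rfl
  refine ⟨Q, fun z hz => q3 z hz, fun z hz => q1 z (by rw [mem_closedBall_zero_iff] at hz; exact hz),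
    ⟨?_, ?_, ?_⟩, hlim, ?_⟩
  · intro z hz
    obtain ⟨g, T, U, hU, hTz, hg, -, heq, hT, -, -⟩ := hloc z hz
    have h3 : ContDiffAt ℝ 2 (g ∘ T) z := by
      have h4 : ContDiffAt ℝ 2 g (T z) :=
        ((hg.analyticAt (hU.mem_nhds hTz)).contDiffAt (n := 2)).restrict_scalars ℝ
      have h5 : ContDiffAt ℝ 2 T z := ((hT z hz).contDiffAt (isOpen_Off.mem_nhds hz)).of_le
        (WithTop.coe_le_coe.2 le_top)
      exact h4.comp z h5
    exact (h3.congr_of_eventuallyEq heq).contDiffWithinAt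
  · intro z hz
    obtain ⟨g, T, U, hU, hTz, hg, hgi, heq, hT, hnd, hdil⟩ := hloc z hz
    rw [(dz_congr heq).1]
    have h3 : HasDerivAt g (deriv g (T z)) (T z) :=
      (hg.differentiableAt (hU.mem_nhds hTz)).hasDerivAt
    have h4 : DifferentiableAt ℝ T z :=
      (hT.differentiableOn (by simp)).differentiableAt (isOpen_Off.mem_nhds hz)
    rw [(dz_comp_left h3 h4).1]
    exact mul_ne_zero (Pool.Agent.Helper469.Univalent.deriv_ne_zero_of_injOn hU hg hgi hTz) hnd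
  · intro z hz
    obtain ⟨g, T, U, hU, hTz, hg, hgi, heq, hT, hnd, hdil⟩ := hloc z hz
    rw [(dz_congr heq).1, (dz_congr heq).2]
    have h3 : HasDerivAt g (deriv g (T z)) (T z) :=
      (hg.differentiableAt (hU.mem_nhds hTz)).hasDerivAt
    have h4 : DifferentiableAt ℝ T z :=
      (hT.differentiableOn (by simp)).differentiableAt (isOpen_Off.mem_nhds hz)
    rw [(dz_comp_left h3 h4).1, (dz_comp_left h3 h4).2, norm_mul, norm_mul]
    have := mul_le_mul_of_nonneg_left hdil (norm_nonneg (deriv g (T z)))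
    linarith
  · obtain ⟨ρ₁, hρ₁, s1⟩ := hA.semi
    obtain ⟨ρ₂, hρ₂, s2⟩ := hB.semi
    refine ⟨min ρ₁ ρ₂, lt_min hρ₁ hρ₂, fun z hz1 hz2 => ?_⟩
    have hρ : 0 < min ρ₁ ρ₂ := lt_min (by linarith) (by linarith)
    rcases le_or_gt ‖z‖ 1 with hz | hz
    · have hz' : TB z ∈ closedBall (0 : ℂ) 1 := by
        rw [mem_closedBall_zero_iff]
        exact (tr_le hB z).2 hz
      have h3 := s2 z (lt_of_le_of_lt (inv_anti₀ hρ (min_le_right _ _)) hz1)
        (hz2.trans_le (min_le_right _ _))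
      have h4 := hd.semiψ _ hz'
      rw [hQ, hQ, q1 z hz, q1 (z ^ n) (by rw [norm_pow]; exact pow_le_one₀ (norm_nonneg _) hz)]
      refine ⟨h4.1, ?_⟩
      rw [h4.2, ← h3.2.2, bz]
    · have h3 := s1 z (lt_of_le_of_lt (inv_anti₀ hρ (min_le_left _ _)) hz1)
        (hz2.trans_le (min_le_left _ _))
      have h4 := hd.ext.semi _ ((hA.out z).2 hz) h3.2.1
      rw [hQ, hQ, q2 z hz, q2 (z ^ n) (by rw [norm_pow]; exact one_lt_pow₀ hz (by omega))]
      refine ⟨h4.1, ?_⟩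
      rw [h4.2, ← h3.2.2, bz]

end Pool.Agent.H212.MB
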