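import Pool.Agent.H212.MB.Stm

/-!
# Job QSLIM: compactness of weakly quasisymmetric homeomorphisms, along an ultrafilter
-/

set_option autoImplicit false

open Filter Metric Set Topology MeasureTheory
open scoped ContDiff ComplexConjugate ENNReal

namespace Pool.Agent.H212.MB

namespace QSLIMaux

/-- the normalised weakly quasisymmetric maps -/
def Nrm (C R₀ : ℝ) (h : ℂ → ℂ) (p q : ℂ) : Prop :=
  WQS C h ∧ ‖p‖ ≤ R₀ ∧ ‖q‖ ≤ R₀ ∧ R₀⁻¹ ≤ ‖p - q‖ ∧ ‖h p‖ ≤ R₀ ∧ ‖h q‖ ≤ R₀ ∧ R₀⁻¹ ≤ ‖h p - h q‖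

theorem bound (h1 : S_RATIO) (C R₀ R : ℝ) (hR₀ : 0 < R₀) :
    ∃ B : ℝ, 0 < B ∧ ∀ (h : ℂ → ℂ) (p q : ℂ), Nrm C R₀ h p q → ∀ z : ℂ, ‖z‖ ≤ R → ‖h z‖ ≤ B := by
  obtain ⟨C', hC', hk⟩ := h1 C ((R + R₀) * R₀)
  refine ⟨C' * (2 * R₀) + R₀, by positivity, ?_⟩
  intro h p q ⟨hW, hp, hq, hpq, hhp, hhq, _⟩ z hz
  have hz0 : 0 ≤ R := (norm_nonneg z).trans hz
  have e1 : ‖z - p‖ ≤ R + R₀ := (norm_sub_le _ _).trans (add_le_add hz hp)
  have e2 : ‖z - p‖ ≤ (R + R₀) * R₀ * ‖q - p‖ := by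
    have : 1 ≤ R₀ * ‖q - p‖ := by
      rw [norm_sub_rev]
      calc (1 : ℝ) = R₀ * R₀⁻¹ := by field_simp
        _ ≤ R₀ * ‖p - q‖ := by gcongr
    calc ‖z - p‖ ≤ (R + R₀) * 1 := by linarith
      _ ≤ (R + R₀) * (R₀ * ‖q - p‖) := by gcongr
      _ = _ := by ring
  have e3 := hk h hW p z q e2
  have e4 : ‖h q - h p‖ ≤ 2 * R₀ := (norm_sub_le _ _).trans (by linarith)
  have e5 : ‖h z‖ ≤ ‖h z - h p‖ + ‖h p‖ := by
    have := norm_add_le (h z - h p) (h p)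
    simpa using this
  calc ‖h z‖ ≤ ‖h z - h p‖ + ‖h p‖ := e5
    _ ≤ C' * ‖h q - h p‖ + R₀ := by gcongr
    _ ≤ C' * (2 * R₀) + R₀ := by gcongr

theorem equi (h1 : S_RATIO) (h2 : S_SMALL) (C R₀ R ε : ℝ) (hR₀ : 0 < R₀) (hε : 0 < ε) :
    ∃ δ : ℝ, 0 < δ ∧ ∀ (h : ℂ → ℂ) (p q : ℂ), Nrm C R₀ h p q → ∀ x y : ℂ, ‖x‖ ≤ R → ‖y - x‖ ≤ δ →
      ‖h y - h x‖ ≤ ε := by
  obtain ⟨B, hB, hb⟩ := bound h1 C R₀ (R + 1) hR₀
  obtain ⟨δ, hδ, hk⟩ := h2 C (ε / (2 * B)) (by positivity)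
  refine ⟨δ, hδ, ?_⟩
  intro h p q hN x y hx hy
  have e1 := hk h hN.1 x (x + 1) y (by simpa using hy)
  have e2 : ‖h (x + 1)‖ ≤ B := hb h p q hN _ ((norm_add_le _ _).trans (by simpa using hx))
  have e3 : ‖h x‖ ≤ B := hb h p q hN _ (by linarith)
  have e4 : ‖h (x + 1) - h x‖ ≤ 2 * B := (norm_sub_le _ _).trans (by linarith)
  calc ‖h y - h x‖ ≤ ε / (2 * B) * ‖h (x + 1) - h x‖ := e1
    _ ≤ ε / (2 * B) * (2 * B) := by gcongr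
    _ = ε := by field_simp

theorem limit {ι : Type} (u : Ultrafilter ι) (F : ι → ℂ → ℂ)
    (hb : ∀ R : ℝ, ∃ B : ℝ, ∀ᶠ i in (u : Filter ι), ∀ z : ℂ, ‖z‖ ≤ R → ‖F i z‖ ≤ B)
    (he : ∀ R ε : ℝ, 0 < ε → ∃ δ : ℝ, 0 < δ ∧ ∀ᶠ i in (u : Filter ι), ∀ x y : ℂ, ‖x‖ ≤ R →
      ‖y - x‖ ≤ δ → ‖F i y - F i x‖ ≤ ε) :
    ∃ K : ℂ → ℂ, Continuous K ∧ (∀ z, Tendsto (fun i => F i z) (u : Filter ι) (𝓝 (K z))) ∧
      TendstoLocallyUniformly F K (u : Filter ι) := by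
  have hpt : ∀ z : ℂ, ∃ w : ℂ, Tendsto (fun i => F i z) (u : Filter ι) (𝓝 w) := by
    intro z
    obtain ⟨B, hB⟩ := hb ‖z‖
    have hc : IsCompact (closedBall (0 : ℂ) B) := isCompact_closedBall 0 B
    have hle : ((u.map (fun i => F i z) : Ultrafilter ℂ) : Filter ℂ) ≤ 𝓟 (closedBall (0 : ℂ) B) := by
      rw [le_principal_iff]
      rw [Ultrafilter.coe_map, mem_map]
      filter_upwards [hB] with i hi
      simpa using hi z le_rfl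
    obtain ⟨w, _, hw⟩ := hc.ultrafilter_le_nhds _ hle
    exact ⟨w, hw⟩
  choose K hK using hpt
  have hKe : ∀ R ε : ℝ, 0 < ε → ∃ δ : ℝ, 0 < δ ∧ (∀ᶠ i in (u : Filter ι), ∀ x y : ℂ, ‖x‖ ≤ R →
      ‖y - x‖ ≤ δ → ‖F i y - F i x‖ ≤ ε) ∧ ∀ x y : ℂ, ‖x‖ ≤ R → ‖y - x‖ ≤ δ → ‖K y - K x‖ ≤ ε := by
    intro R ε hε
    obtain ⟨δ, hδ, h⟩ := he R ε hε
    refine ⟨δ, hδ, h, ?_⟩
    intro x y hx hy
    refine le_of_tendsto (((hK y).sub (hK x)).norm) ?_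
    filter_upwards [h] with i hi
    exact hi x y hx hy
  refine ⟨K, ?_, hK, ?_⟩
  · rw [Metric.continuous_iff]
    intro x ε hε
    obtain ⟨δ, hδ, _, h⟩ := hKe ‖x‖ (ε / 2) (by positivity)
    refine ⟨δ, hδ, ?_⟩
    intro y hy
    rw [dist_eq_norm] at hy ⊢
    have := h x y le_rfl hy.le
    linarith
  · rw [Metric.tendstoLocallyUniformly_iff]
    intro ε hε x
    obtain ⟨δ, hδ, h, h'⟩ := hKe ‖x‖ (ε / 4) (by positivity)
    refine ⟨closedBall x δ, closedBall_mem_nhds x hδ, ?_⟩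
    have hx := (Metric.tendsto_nhds.1 (hK x)) (ε / 4) (by positivity)
    filter_upwards [h, hx] with i hi hxi y hy
    rw [mem_closedBall, dist_eq_norm] at hy
    have e1 := hi x y le_rfl hy
    have e2 := h' x y le_rfl hy
    rw [dist_eq_norm] at hxi ⊢
    have e3 : K y - F i y = (K y - K x) - (F i x - K x) - (F i y - F i x) := by ring
    rw [e3]
    calc ‖(K y - K x) - (F i x - K x) - (F i y - F i x)‖
        ≤ ‖(K y - K x) - (F i x - K x)‖ + ‖F i y - F i x‖ := norm_sub_le _ _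
      _ ≤ ‖K y - K x‖ + ‖F i x - K x‖ + ‖F i y - F i x‖ := by gcongr; exact norm_sub_le _ _
      _ < ε := by linarith

theorem limit' (h1 : S_RATIO) (h2 : S_SMALL) (C R₀ : ℝ) (hR₀ : 0 < R₀) {ι : Type} (u : Ultrafilter ι)
    (F : ι → ℂ → ℂ) (p q : ι → ℂ) (hN : ∀ᶠ i in (u : Filter ι), Nrm C R₀ (F i) (p i) (q i)) :
    ∃ K : ℂ → ℂ, Continuous K ∧ (∀ z, Tendsto (fun i => F i z) (u : Filter ι) (𝓝 (K z))) ∧
      TendstoLocallyUniformly F K (u : Filter ι) := by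
  refine limit u F ?_ ?_
  · intro R
    obtain ⟨B, _, hB⟩ := bound h1 C R₀ R hR₀
    refine ⟨B, ?_⟩
    filter_upwards [hN] with i hi
    exact hB _ _ _ hi
  · intro R ε hε
    obtain ⟨δ, hδ, h⟩ := equi h1 h2 C R₀ R ε hR₀ hε
    refine ⟨δ, hδ, ?_⟩
    filter_upwards [hN] with i hi
    exact h _ _ _ hi

end QSLIMaux

open QSLIMaux in
theorem t_QSLIM (h1 : S_RATIO) (h2 : S_SMALL) (h3 : S_INV) : S_QSLIM := by
  intro C R₀ hR₀ ι u H p q hH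
  obtain ⟨C', hC', hinv⟩ := h3 C
  have hN : ∀ᶠ i in (u : Filter ι), Nrm C R₀ (fun z => H i z) (p i) (q i) := by
    filter_upwards [hH] with i hi
    exact hi
  have hN' : ∀ᶠ i in (u : Filter ι), Nrm C' R₀ (fun z => (H i).symm z) (H i (p i)) (H i (q i)) := by
    filter_upwards [hH] with i hi
    obtain ⟨a1, a2, a3, a4, a5, a6, a7⟩ := hi
    refine ⟨?_, a5, a6, a7, ?_, ?_, ?_⟩
    · exact hinv (H i).toEquiv a1
    · simpa using a2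
    · simpa using a3
    · simpa using a4
  obtain ⟨K, hKc, hK, hKu⟩ := limit' h1 h2 C R₀ hR₀ u _ p q hN
  obtain ⟨L, hLc, hL, hLu⟩ := limit' h1 h2 C' R₀ hR₀ u _ _ _ hN'
  have hLK : ∀ z, L (K z) = z := by
    intro z
    have e := hLu.tendsto_comp (hLc.continuousAt) (hK z)
    simp only [Homeomorph.symm_apply_apply] at e
    exact tendsto_nhds_unique e tendsto_const_nhds
  have hKL : ∀ z, K (L z) = z := by
    intro z
    have e := hKu.tendsto_comp (hKc.continuousAt) (hL z)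
    simp only [Homeomorph.apply_symm_apply] at e
    exact tendsto_nhds_unique e tendsto_const_nhds
  refine ⟨⟨⟨K, L, hLK, hKL⟩, hKc, hLc⟩, ?_, hKu, hLu⟩
  intro x a b hab
  refine le_of_tendsto_of_tendsto (((hK a).sub (hK x)).norm) ((((hK b).sub (hK x)).norm).const_mul C) ?_
  filter_upwards [hN] with i hi
  exact hi.1 x a b hab

end Pool.Agent.H212.MB
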