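import Pool.Agent.H212.MB.T_RATa

/-!
# JOB RAT: welding gives a rational map
-/

set_option autoImplicit false

open Filter Metric Set Topology MeasureTheory Polynomial
open scoped ContDiff ComplexConjugate ENNReal

namespace Pool.Agent.H212.MB

open RATaux in
theorem t_RAT (h1 : S_BL) (_h2 : S_SIG) (h3 : S_POLE) (h4 : S_POW) (h5 : S_EN) (h6 : S_REM)
    (_h7 : S_TRALG) : S_RAT := by
  intro n hn A B φ ψ k TA TB Q hk0 hk1 hTA hTB hφd hψd hQφ hQψ hQinf
  have hn1 : 1 ≤ n := by omega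
  have hn0 : n ≠ 0 := by omega
  obtain ⟨hAden, hAev, -, hAext, -, -, -, -, hzn⟩ := h1 n hn1 A
  obtain ⟨hBden, hBev, -, -, -, -, -, -, -⟩ := h1 n hn1 B
  -- the two maps in terms of `Q`
  have hφ : ∀ w, 1 ≤ ‖w‖ → φ w = Q (TA.symm w) := by
    intro w hw
    rw [hQφ _ ((symm_cout hTA w).2 hw), TA.apply_symm_apply]
  have hψ : ∀ w, ‖w‖ ≤ 1 → ψ w = Q (TB.symm w) := by
    intro w hw
    rw [hQψ _ (by rw [mem_closedBall_zero_iff]; exact (symm_cinn hTB w).2 hw),
      TB.apply_symm_apply]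
  have hφi : InjOn φ Ext := by
    intro w hw w' hw' h
    rw [hφ w (le_of_lt hw), hφ w' (le_of_lt hw')] at h
    exact TA.symm.injective (Q.injective h)
  have hψi : InjOn ψ (closedBall 0 1) := by
    intro w hw w' hw' h
    rw [mem_closedBall_zero_iff] at hw hw'
    rw [hψ w hw, hψ w' hw'] at h
    exact TB.symm.injective (Q.injective h)
  have hψi' : InjOn ψ (ball 0 1) := hψi.mono ball_subset_closedBall
  have hφc : ContinuousOn φ CExt :=
    ((Q.continuous.comp TA.symm.continuous).continuousOn).congr fun w hw => hφ w hw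
  have hψc : ContinuousOn ψ (closedBall 0 1) :=
    ((Q.continuous.comp TB.symm.continuous).continuousOn).congr fun w hw =>
      hψ w (mem_closedBall_zero_iff.1 hw)
  -- infinity
  have hbig : ∀ r : ℝ, ∀ᶠ z : ℂ in cocompact ℂ, r ≤ ‖z‖ := fun r =>
    (tendsto_norm_cocompact_atTop (E := ℂ)).eventually_ge_atTop r
  obtain ⟨ρ₀, hρ₀, hTAid, -⟩ := hTA.ident
  have hφQ : ∀ᶠ z : ℂ in cocompact ℂ, φ z = Q z := by
    filter_upwards [hbig ρ₀] with z hz
    rw [hφ z (by linarith)]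
    congr 1
    rw [Homeomorph.symm_apply_eq]
    exact (hTAid z hz).symm
  have hφinf : Tendsto (fun z => φ z - z) (cocompact ℂ) (𝓝 0) := by
    refine hQinf.congr' ?_
    filter_upwards [hφQ] with z hz
    rw [hz]
  have hSig : Sig φ := ⟨hφd, hφi, hφinf⟩
  obtain ⟨hqdeg, hq0, hqz, v, hvd, hv, hv0, hvinf⟩ := h3 n hn1 A φ hSig
  set q : ℂ[X] := qpol A φ with hq
  -- the function `V`
  set V : ℂ → ℂ := fun y => if 1 < ‖Q.symm y‖ then v (TA (Q.symm y)) else
    q.eval y * ψ (B.ev (TB (Q.symm y))) with hV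
  have hVout : ∀ y, 1 < ‖Q.symm y‖ → V y = v (TA (Q.symm y)) := fun y hy => by
    rw [hV]; exact if_pos hy
  have hVin : ∀ y, ‖Q.symm y‖ ≤ 1 → V y = q.eval y * ψ (B.ev (TB (Q.symm y))) := fun y hy => by
    rw [hV]; exact if_neg (not_lt.2 hy)
  have hVφ : ∀ w ∈ Ext, V (φ w) = v w := by
    intro w hw
    have h8 : Q.symm (φ w) = TA.symm w := by
      rw [hφ w (le_of_lt hw), Q.symm_apply_apply]
    rw [hVout _ (by rw [h8]; exact (symm_out hTA w).2 hw), h8, TA.apply_symm_apply]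
  have hVψ : ∀ w, ‖w‖ ≤ 1 → V (ψ w) = q.eval (ψ w) * ψ (B.ev w) := by
    intro w hw
    have h8 : Q.symm (ψ w) = TB.symm w := by
      rw [hψ w hw, Q.symm_apply_apply]
    rw [hVin _ (by rw [h8]; exact (symm_cinn hTB w).2 hw), h8, TB.apply_symm_apply]
  -- near the circle
  obtain ⟨ρA, hρA, hsA⟩ := hTA.semi
  obtain ⟨ρB, hρB, hsB⟩ := hTB.semi
  set ρ := min ρA ρB with hρdef
  have hρ : 1 < ρ := lt_min hρA hρB
  have hVQ : ∀ z : ℂ, ρ⁻¹ < ‖z‖ → ‖z‖ < ρ → V (Q z) = q.eval (Q z) * Q (z ^ n) := by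
    intro z hz1 hz2
    have hiA : ρA⁻¹ ≤ ρ⁻¹ := inv_anti₀ (by linarith) (min_le_left _ _)
    have hiB : ρB⁻¹ ≤ ρ⁻¹ := inv_anti₀ (by linarith) (min_le_right _ _)
    by_cases hz : 1 < ‖z‖
    · obtain ⟨-, h8, h9⟩ := hsA z (by linarith) (lt_of_lt_of_le hz2 (min_le_left _ _))
      have hT : TA z ∈ Ext := (hTA.out z).2 hz
      have h10 : φ (TA z) = Q z := (hQφ z (le_of_lt hz)).symm
      rw [(hzn z).2] at h9
      have h11 : 1 ≤ ‖z ^ n‖ := by
        rw [norm_pow]; exact one_le_pow₀ hz.le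
      rw [← h10, hVφ _ hT, hv _ hT h8, ← h9, ← hQφ (z ^ n) h11]
    · rw [not_lt] at hz
      obtain ⟨-, h8, h9⟩ := hsB z (by linarith) (lt_of_lt_of_le hz2 (min_le_right _ _))
      have hT : ‖TB z‖ ≤ 1 := (cinn hTB z).2 hz
      have h10 : ψ (TB z) = Q z := (hQψ z (mem_closedBall_zero_iff.2 hz)).symm
      rw [(hzn z).2] at h9
      have h11 : ‖z ^ n‖ ≤ 1 := by
        rw [norm_pow]; exact pow_le_one₀ (norm_nonneg _) hz
      rw [← h10, hVψ _ hT, ← h9, ← hQψ (z ^ n) (mem_closedBall_zero_iff.2 h11)]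
  -- holomorphy
  have hBevd : ∀ w : ℂ, ‖w‖ ≤ 1 → DifferentiableAt ℂ B.ev w := by
    intro w hw
    have hnum : DifferentiableAt ℂ B.num w := by
      unfold Blaschke.num
      fun_prop
    have hden : DifferentiableAt ℂ B.den w := by
      unfold Blaschke.den
      fun_prop
    exact hnum.div hden (hBden w hw)
  have hgd : ∀ y, 1 < ‖Q.symm y‖ → DifferentiableAt ℂ (fun y => TA (Q.symm y)) y := by
    intro y hy
    refine inv_deriv isOpen_Ext hφd hφi (TA.continuous.comp Q.symm.continuous)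
      ((hTA.out _).2 hy) ?_
    intro y' hy'
    have h8 : 1 < ‖Q.symm y'‖ := (hTA.out _).1 hy'
    show φ (TA (Q.symm y')) = y'
    rw [← hQφ _ (le_of_lt h8), Q.apply_symm_apply]
  have hgd' : ∀ y, ‖Q.symm y‖ < 1 → DifferentiableAt ℂ (fun y => TB (Q.symm y)) y := by
    intro y hy
    refine inv_deriv isOpen_ball hψd hψi' (TB.continuous.comp Q.symm.continuous)
      (mem_ball_zero_iff.2 ((hTB.inn _).2 hy)) ?_
    intro y' hy'
    have h8 : ‖Q.symm y'‖ < 1 := (hTB.inn _).1 (mem_ball_zero_iff.1 hy')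
    show ψ (TB (Q.symm y')) = y'
    rw [← hQψ _ (mem_closedBall_zero_iff.2 h8.le), Q.apply_symm_apply]
  have hVdo : ∀ y, 1 < ‖Q.symm y‖ → DifferentiableAt ℂ V y := by
    intro y hy
    have h8 : V =ᶠ[𝓝 y] fun y => v (TA (Q.symm y)) := by
      have : {y | 1 < ‖Q.symm y‖} ∈ 𝓝 y :=
        (isOpen_lt continuous_const (Q.symm.continuous.norm)).mem_nhds hy
      filter_upwards [this] with y' hy'
      exact hVout y' hy'
    refine DifferentiableAt.congr_of_eventuallyEq ?_ h8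
    have h9 : DifferentiableAt ℂ v (TA (Q.symm y)) :=
      hvd.differentiableAt (isOpen_Ext.mem_nhds ((hTA.out _).2 hy))
    exact h9.comp y (hgd y hy)
  have hVdi : ∀ y, ‖Q.symm y‖ < 1 → DifferentiableAt ℂ V y := by
    intro y hy
    have h8 : V =ᶠ[𝓝 y] fun y => q.eval y * ψ (B.ev (TB (Q.symm y))) := by
      have : {y | ‖Q.symm y‖ < 1} ∈ 𝓝 y :=
        (isOpen_lt (Q.symm.continuous.norm) continuous_const).mem_nhds hy
      filter_upwards [this] with y' hy'
      exact hVin y' (le_of_lt hy')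
    refine DifferentiableAt.congr_of_eventuallyEq ?_ h8
    have h9 : ‖TB (Q.symm y)‖ < 1 := (hTB.inn _).2 hy
    have h10 : ‖B.ev (TB (Q.symm y))‖ < 1 := lt_of_le_of_lt (hBev _ h9.le) h9
    have h11 : DifferentiableAt ℂ ψ (B.ev (TB (Q.symm y))) :=
      hψd.differentiableAt (isOpen_ball.mem_nhds (mem_ball_zero_iff.2 h10))
    have h12 : DifferentiableAt ℂ (fun y => B.ev (TB (Q.symm y))) y :=
      DifferentiableAt.comp (g := B.ev) y (hBevd _ h9.le) (hgd' y hy)
    have h13 : DifferentiableAt ℂ (fun y => ψ (B.ev (TB (Q.symm y)))) y :=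
      DifferentiableAt.comp (g := ψ) y h11 h12
    exact q.differentiable.differentiableAt.mul h13
  have hVd : DifferentiableOn ℂ V (Q '' {z | ‖z‖ = 1})ᶜ := by
    intro y hy
    have h8 : ‖Q.symm y‖ ≠ 1 := by
      intro h9
      exact hy ⟨Q.symm y, h9, Q.apply_symm_apply y⟩
    rcases lt_or_gt_of_ne h8 with h9 | h9
    · exact (hVdi y h9).differentiableWithinAt
    · exact (hVdo y h9).differentiableWithinAt
  -- continuity
  have hann : IsOpen {z : ℂ | ρ⁻¹ < ‖z‖ ∧ ‖z‖ < ρ} :=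
    (isOpen_lt continuous_const continuous_norm).inter (isOpen_lt continuous_norm continuous_const)
  have hρi : ρ⁻¹ < 1 := inv_lt_one_of_one_lt₀ hρ
  have hVc : Continuous V := by
    rw [continuous_iff_continuousAt]
    intro y
    rcases lt_trichotomy ‖Q.symm y‖ 1 with h9 | h9 | h9
    · exact (hVdi y h9).continuousAt
    · have h10 : V =ᶠ[𝓝 y] fun y => q.eval y * Q (Q.symm y ^ n) := by
        have : {y | Q.symm y ∈ {z : ℂ | ρ⁻¹ < ‖z‖ ∧ ‖z‖ < ρ}} ∈ 𝓝 y := by
          refine (hann.preimage Q.symm.continuous).mem_nhds ?_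
          show ρ⁻¹ < ‖Q.symm y‖ ∧ ‖Q.symm y‖ < ρ
          rw [h9]
          exact ⟨hρi, hρ⟩
        filter_upwards [this] with y' hy'
        have h11 := hVQ (Q.symm y') hy'.1 hy'.2
        rw [Q.apply_symm_apply] at h11
        exact h11
      refine ContinuousAt.congr ?_ h10.symm
      exact (q.continuous.mul (Q.continuous.comp (Q.symm.continuous.pow n))).continuousAt
    · exact (hVdo y h9).continuousAt
  -- growth
  have hginf : Tendsto (fun y => TA (Q.symm y)) (cocompact ℂ) (cocompact ℂ) :=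
    (TA.isClosedEmbedding.tendsto_cocompact).comp (Q.symm.isClosedEmbedding.tendsto_cocompact)
  have hQsout : ∀ᶠ y : ℂ in cocompact ℂ, 1 < ‖Q.symm y‖ := by
    have h8 := (Q.symm.isClosedEmbedding.tendsto_cocompact).eventually (hbig 2)
    filter_upwards [h8] with y hy
    linarith
  have hne0 : ∀ᶠ y : ℂ in cocompact ℂ, y ≠ 0 := by
    filter_upwards [hbig 1] with y hy
    rintro rfl
    simp at hy
    linarith
  have hyg : Tendsto (fun y : ℂ => TA (Q.symm y) / y) (cocompact ℂ) (𝓝 1) := by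
    have h8 : Tendsto (fun y : ℂ => φ (TA (Q.symm y)) - TA (Q.symm y)) (cocompact ℂ) (𝓝 0) :=
      hφinf.comp hginf
    have h9 : Tendsto (fun y : ℂ => y⁻¹) (cocompact ℂ) (𝓝 0) := by
      rw [← Metric.cobounded_eq_cocompact]
      exact Filter.tendsto_inv₀_cobounded
    have h10 := (tendsto_const_nhds (x := (1 : ℂ))).sub (h8.mul h9)
    rw [mul_zero, sub_zero] at h10
    refine h10.congr' ?_
    filter_upwards [hQsout, hne0] with y hy hy0
    rw [← hQφ _ (le_of_lt hy), Q.apply_symm_apply]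
    field_simp
    ring
  have hVinf : Tendsto (fun y => V y / y ^ n) (cocompact ℂ) (𝓝 1) := by
    have h8 := (hvinf.comp hginf).mul (hyg.pow n)
    rw [one_pow, mul_one] at h8
    refine h8.congr' ?_
    have h9 := hginf.eventually hne0
    filter_upwards [hQsout, hne0, h9] with y hy hy0 hy1
    rw [Function.comp_apply, hVout y hy, div_pow]
    have : TA (Q.symm y) ^ n ≠ 0 := pow_ne_zero _ hy1
    field_simp
  -- the polynomial
  obtain ⟨R, hR0, hR⟩ : ∃ R : ℝ, 0 < R ∧ ∀ y, R < ‖y‖ → y ∉ Q '' {z : ℂ | ‖z‖ = 1} := by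
    have hc : IsCompact (Q '' {z : ℂ | ‖z‖ = 1}) := by
      have : {z : ℂ | ‖z‖ = 1} = sphere 0 1 := by
        ext z; simp
      rw [this]
      exact (isCompact_sphere 0 1).image Q.continuous
    obtain ⟨R, hR⟩ := hc.isBounded.exists_norm_le
    refine ⟨max R 1, lt_max_of_lt_right one_pos, fun y hy hy' => ?_⟩
    have := hR y hy'
    have := le_max_left R 1
    linarith
  obtain ⟨P, hPdeg, hPn, hPinf⟩ := poly_part n V R 1 hR0 (hVd.mono fun y hy => hR y hy) hVinf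
  have hPle : P.natDegree ≤ n := natDegree_le_of_degree_le hPdeg
  have hPmonic : P.Monic := monic_of_natDegree_le_of_coeff_eq_one n hPle hPn
  have hPnat : P.natDegree = n := by
    refine le_antisymm hPle (le_natDegree_of_ne_zero ?_)
    rw [hPn]
    exact one_ne_zero
  -- quasiconformality of `Q`
  have hQC : ∀ z ∈ Off, ContDiffAt ℝ 2 Q z ∧ dz Q z ≠ 0 ∧ ‖dzb Q z‖ ≤ k * ‖dz Q z‖ := by
    intro z hz
    have hzO : Off ∈ 𝓝 z := isOpen_Off.mem_nhds hz
    rcases lt_or_gt_of_ne hz with h9 | h9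
    · refine qc_comp isOpen_ball hψd hψi' (T := TB) (mem_ball_zero_iff.2 ((hTB.inn z).2 h9))
        (hTB.smooth.contDiffAt hzO) (hTB.nd z hz) (hTB.dil z hz) ?_
      have : {z : ℂ | ‖z‖ < 1} ∈ 𝓝 z := (isOpen_lt continuous_norm continuous_const).mem_nhds h9
      filter_upwards [this] with z' hz'
      exact hQψ z' (mem_closedBall_zero_iff.2 (le_of_lt hz'))
    · refine qc_comp isOpen_Ext hφd hφi (T := TA) ((hTA.out z).2 h9)
        (hTA.smooth.contDiffAt hzO) (hTA.nd z hz) (hTA.dil z hz) ?_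
      filter_upwards [isOpen_Ext.mem_nhds h9] with z' hz'
      have h10 : 1 < ‖z'‖ := hz'
      exact hQφ z' h10.le
  have hQCOff : QCOff k Q := ⟨fun z hz => (hQC z hz).1.contDiffWithinAt, fun z hz => (hQC z hz).2.1,
    fun z hz => (hQC z hz).2.2⟩
  -- removability
  have hVP : ∀ y, V y - P.eval y = 0 := by
    obtain ⟨ρ', hρ'1, hρ'2⟩ := exists_between hρ
    have hρ'i : ρ⁻¹ < ρ'⁻¹ := inv_strictAnti₀ (by linarith) hρ'2
    refine h6 k ρ' Q (fun y => V y - P.eval y) hk1 hρ'1 hQCOff (hVc.sub P.continuous) hPinf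
      (hVd.sub P.differentiable.differentiableOn) ?_
    set M : ℂ → ℝ := fun z => ‖q.eval (Q z)‖ + ‖Q (z ^ n)‖ * ‖(derivative q).eval (Q z)‖ +
      ‖(derivative P).eval (Q z)‖ with hM
    have hMc : Continuous M := by
      have c1 : Continuous fun z => Q (z ^ n) := Q.continuous.comp (continuous_pow n)
      have c2 : ∀ p : ℂ[X], Continuous fun z => p.eval (Q z) := fun p =>
        p.continuous.comp Q.continuous
      exact ((c2 q).norm.add (c1.norm.mul (c2 _).norm)).add (c2 _).norm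
    obtain ⟨C, hC⟩ := (isCompact_closedBall (0 : ℂ) ρ').bddAbove_image hMc.continuousOn
    refine energy h4 h5 hk0 hk1 hn1 Q hQCOff hρ'1 _ C ?_
    intro z hz1 hz2 hz3
    have h8 : ((fun y => V y - P.eval y) ∘ Q) =ᶠ[𝓝 z]
        fun z => q.eval (Q z) * Q (z ^ n) - P.eval (Q z) := by
      filter_upwards [hann.mem_nhds (⟨by linarith, by linarith⟩ : ρ⁻¹ < ‖z‖ ∧ ‖z‖ < ρ)] with w hw
      show V (Q w) - P.eval (Q w) = _
      rw [hVQ w hw.1 hw.2]
    rw [h8.fderiv_eq]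
    have hz' : z ^ n ∈ Off := by
      show ‖z ^ n‖ ≠ 1
      rw [norm_pow]
      intro h9
      exact hz1 ((pow_eq_one_iff_of_nonneg (norm_nonneg z) hn0).1 h9)
    refine (deriv_bound (n := n) Q q P ((hQC z hz1).1.differentiableAt (by norm_num))
      ((hQC _ hz').1.differentiableAt (by norm_num))).trans ?_
    refine mul_le_mul_of_nonneg_right ?_ (by positivity)
    exact hC ⟨z, mem_closedBall_zero_iff.2 hz3.le, rfl⟩
  have hVP' : ∀ y, P.eval y = V y := fun y => (sub_eq_zero.1 (hVP y)).symm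
  have hPφ : ∀ w ∈ Ext, P.eval (φ w) = v w := fun w hw => by rw [hVP', hVφ w hw]
  have hPψ : ∀ w, ‖w‖ ≤ 1 → P.eval (ψ w) = q.eval (ψ w) * ψ (B.ev w) := fun w hw => by
    rw [hVP', hVψ w hw]
  -- the complement
  have hcompl : φ '' Ext = (ψ '' closedBall 0 1)ᶜ := by
    ext y
    constructor
    · rintro ⟨w, hw, rfl⟩ ⟨w', hw', h8⟩
      rw [mem_closedBall_zero_iff] at hw'
      rw [hφ w (le_of_lt hw), hψ w' hw'] at h8
      have h9 := Q.injective h8
      have h10 : 1 < ‖TA.symm w‖ := (symm_out hTA w).2 hw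
      have h11 : ‖TB.symm w'‖ ≤ 1 := (symm_cinn hTB w').2 hw'
      rw [h9] at h11
      linarith
    · intro hy
      have h8 : 1 < ‖Q.symm y‖ := by
        by_contra h9
        rw [not_lt] at h9
        apply hy
        refine ⟨TB (Q.symm y), mem_closedBall_zero_iff.2 ((cinn hTB _).2 h9), ?_⟩
        rw [← hQψ _ (mem_closedBall_zero_iff.2 h9), Q.apply_symm_apply]
      refine ⟨TA (Q.symm y), (hTA.out _).2 h8, ?_⟩
      rw [← hQφ _ (le_of_lt h8), Q.apply_symm_apply]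
  have hqψ : ∀ w, ‖w‖ ≤ 1 → q.eval (ψ w) ≠ 0 := by
    intro w hw h8
    have h9 := hqz _ h8
    rw [hcompl] at h9
    exact h9 ⟨w, mem_closedBall_zero_iff.2 hw, rfl⟩
  have hcop : IsCoprime P q := by
    rw [Polynomial.isCoprime_iff_aeval_ne_zero_of_isAlgClosed ℂ ℂ]
    intro y
    rw [coe_aeval_eq_eval]
    by_contra h8
    push Not at h8
    obtain ⟨p, hp, rfl⟩ := hqz y h8.2
    have h9 := (hq0 p hp).1 h8.2
    have h10 := hPφ p hp
    rw [h8.1] at h10
    exact hv0 p hp h9 h10.symm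
  -- the lift
  obtain ⟨t, htc, htm, htp, ht⟩ := hTA.lift
  obtain ⟨t', htc', htm', htp', ht'⟩ := hTB.lift
  obtain ⟨h, hhc, hhm, hhp, hh⟩ := lift_comp htc htm htp htc' htm' htp'
  have hmark : φ A.b = ψ B.b := by
    have e1 : TA 1 = A.b := hTA.mark
    have e2 : TB 1 = B.b := hTB.mark
    rw [← e1, ← e2, ← hQφ 1 (by simp [CExt]), ← hQψ 1 (by simp)]
  refine ⟨⟨P, q, hPmonic, hPnat, hqdeg, hcop⟩, h, ?_⟩
  refine ⟨⟨hφd, hφi, hφinf, ?_⟩, hφc, hψd, hψc, hψi, ?_, hcompl, hhc, hhm, hhp, ?_, hmark⟩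
  · intro z hz hz0
    have h8 : q.eval (φ z) ≠ 0 := fun h9 => hz0 ((hq0 z hz).1 h9)
    refine ⟨h8, ?_⟩
    show P.eval (φ z) / q.eval (φ z) = φ (A.ev z)
    rw [hPφ z hz, hv z hz hz0, mul_div_cancel_left₀ _ h8]
  · intro z hz
    rw [mem_closedBall_zero_iff] at hz
    refine ⟨hqψ z hz, ?_⟩
    show P.eval (ψ z) / q.eval (ψ z) = ψ (B.ev z)
    rw [hPψ z hz, mul_div_cancel_left₀ _ (hqψ z hz)]
  · intro x
    obtain ⟨s, hs, hs'⟩ := hh x
    have hn1 : ‖Complex.exp (s * Complex.I)‖ = 1 := Complex.norm_exp_ofReal_mul_I s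
    rw [hs', ← hs, ← ht, ← ht', ← hQφ _ (le_of_eq hn1.symm),
      ← hQψ _ (mem_closedBall_zero_iff.2 (le_of_eq hn1))]

end Pool.Agent.H212.MB
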