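import Pool.Agent.H212.MB.Stm3
import Pool.Graph.R_pool_sql_team_5be1d20b.H19.Univ

/-!
# Project MB, job REL (by helper286)
-/

set_option autoImplicit false

open Filter Metric Set Topology MeasureTheory Polynomial
open scoped ContDiff ComplexConjugate ENNReal

namespace Pool.Agent.H212.MB

namespace RELaux

/-- a function given through an injective holomorphic chart is holomorphic -/
theorem hol {ψ F G : ℂ → ℂ} {U : Set ℂ} (hU : IsOpen U) (hψ : DifferentiableOn ℂ ψ U)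
    (hinj : InjOn ψ U) (hG : DifferentiableOn ℂ G U) (h : ∀ z ∈ U, F (ψ z) = G z) :
    DifferentiableOn ℂ F (ψ '' U) := by
  rintro _ ⟨z, hz, rfl⟩
  have hopen := Pool.Agent.H19.isOpen_image_of_injOn hU hψ hinj
  have h1 := Pool.Agent.H19.hasDerivAt_inverse hU hψ hinj hz
  have h2 : Function.invFunOn ψ U (ψ z) = z := Pool.Agent.H19.invFunOn_apply hinj hz
  have h3 : DifferentiableAt ℂ G (Function.invFunOn ψ U (ψ z)) := by
    rw [h2]; exact hG.differentiableAt (hU.mem_nhds hz)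
  have h4 : DifferentiableAt ℂ (G ∘ Function.invFunOn ψ U) (ψ z) :=
    h3.comp (ψ z) h1.differentiableAt
  have h5 : F =ᶠ[𝓝 (ψ z)] (G ∘ Function.invFunOn ψ U) := by
    filter_upwards [hopen.mem_nhds ⟨z, hz, rfl⟩] with y hy
    have := h _ (Pool.Agent.H19.invFunOn_mem hy)
    rw [Pool.Agent.H19.f_invFunOn hy] at this
    exact this
  exact (h4.congr_of_eventuallyEq h5).differentiableWithinAt

theorem surj_h {h : ℝ → ℝ} (hc : Continuous h) (hm : StrictMono h)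
    (hp : ∀ x, h (x + 2 * Real.pi) = h x + 2 * Real.pi) : Function.Surjective h := by
  have h1 : ∀ k : ℕ, h (k * (2 * Real.pi)) = h 0 + k * (2 * Real.pi) := by
    intro k
    induction k with
    | zero => simp
    | succ k ih =>
      have e : ((k + 1 : ℕ) : ℝ) * (2 * Real.pi) = k * (2 * Real.pi) + 2 * Real.pi := by
        push_cast; ring
      rw [e, hp, ih]; ring
  have h2 : ∀ k : ℕ, h (-(k * (2 * Real.pi))) = h 0 - k * (2 * Real.pi) := by
    intro k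
    induction k with
    | zero => simp
    | succ k ih =>
      have e := hp (-(((k + 1 : ℕ) : ℝ) * (2 * Real.pi)))
      have e' : -(((k + 1 : ℕ) : ℝ) * (2 * Real.pi)) + 2 * Real.pi = -(k * (2 * Real.pi)) := by
        push_cast; ring
      rw [e', ih] at e
      push_cast at e ⊢
      linarith
  have hpi := Real.two_pi_pos
  refine hc.surjective ?_ ?_
  · refine tendsto_atTop_atTop_of_monotone hm.monotone fun b => ?_
    obtain ⟨k, hk⟩ := exists_nat_ge ((b - h 0) / (2 * Real.pi))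
    refine ⟨k * (2 * Real.pi), ?_⟩
    rw [h1]
    rw [div_le_iff₀ hpi] at hk
    linarith
  · refine tendsto_atBot_atBot_of_monotone hm.monotone fun b => ?_
    obtain ⟨k, hk⟩ := exists_nat_ge ((h 0 - b) / (2 * Real.pi))
    refine ⟨-(k * (2 * Real.pi)), ?_⟩
    rw [h2]
    rw [div_le_iff₀ hpi] at hk
    linarith

section

variable {n : ℕ} {A B : Blaschke n} {f : RMap n} {φ ψ : ℂ → ℂ} {h : ℝ → ℝ}

theorem injb (hM : IsMatingData A B f φ ψ h) : InjOn ψ (ball 0 1) :=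
  hM.injψ.mono ball_subset_closedBall

theorem compl_eq (hM : IsMatingData A B f φ ψ h) : (φ '' Ext)ᶜ = ψ '' closedBall 0 1 := by
  rw [hM.compl, compl_compl]

theorem int_eq (hM : IsMatingData A B f φ ψ h) : interior (φ '' Ext)ᶜ = ψ '' ball 0 1 := by
  apply subset_antisymm
  · intro z hz
    have hz' : z ∈ ψ '' closedBall 0 1 := by
      rw [← compl_eq hM]; exact interior_subset hz
    obtain ⟨w, hw, rfl⟩ := hz'
    rw [mem_closedBall_zero_iff] at hw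
    rcases hw.lt_or_eq with hlt | heq
    · exact ⟨w, by rwa [mem_ball_zero_iff], rfl⟩
    · exfalso
      obtain ⟨x, hx⟩ := surj_h hM.conth hM.monoh hM.perh (Complex.arg w)
      have hwe : Complex.exp (h x * Complex.I) = w := by
        rw [hx]
        have := Complex.norm_mul_exp_arg_mul_I w
        rw [heq] at this
        simpa using this
      have hg := hM.glue x
      rw [hwe] at hg
      have hnorm : ‖Complex.exp (x * Complex.I)‖ = 1 := Complex.norm_exp_ofReal_mul_I x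
      have hc : Tendsto (fun r : ℝ => (r : ℂ) * Complex.exp (x * Complex.I)) (𝓝[>] 1)
          (𝓝[CExt] (Complex.exp (x * Complex.I))) := by
        rw [tendsto_nhdsWithin_iff]
        constructor
        · have h1 : Continuous fun r : ℝ => (r : ℂ) * Complex.exp (x * Complex.I) := by fun_prop
          have h2 := h1.tendsto 1
          simp only [Complex.ofReal_one, one_mul] at h2
          exact h2.mono_left nhdsWithin_le_nhds
        · filter_upwards [self_mem_nhdsWithin] with r hr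
          show 1 ≤ ‖(r : ℂ) * Complex.exp (x * Complex.I)‖
          rw [norm_mul, hnorm, Complex.norm_real, mul_one]
          exact (le_of_lt hr).trans (le_abs_self r)
      have hmem : Complex.exp (x * Complex.I) ∈ CExt := by
        show 1 ≤ ‖_‖
        rw [hnorm]
      have hlim := (hM.contφ _ hmem).tendsto.comp hc
      rw [hg] at hlim
      have hev := hlim.eventually (isOpen_interior.mem_nhds hz)
      obtain ⟨r, hr1, hr2⟩ := (hev.and self_mem_nhdsWithin).exists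
      refine interior_subset hr1 ⟨_, ?_, rfl⟩
      show 1 < ‖(r : ℂ) * Complex.exp (x * Complex.I)‖
      rw [norm_mul, hnorm, Complex.norm_real, mul_one]
      exact lt_of_lt_of_le hr2 (le_abs_self r)
  · apply interior_maximal
    · rw [compl_eq hM]
      exact image_mono ball_subset_closedBall
    · exact Pool.Agent.H19.isOpen_image_of_injOn isOpen_ball hM.diffψ (injb hM)

end

/-! ### displacement -/

theorem tend_symm {H : ℂ ≃ₜ ℂ} (h : Tendsto (fun z => H z - z) (cocompact ℂ) (𝓝 0)) :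
    Tendsto (fun z => H.symm z - z) (cocompact ℂ) (𝓝 0) := by
  have h1 : Tendsto H.symm (cocompact ℂ) (cocompact ℂ) := H.symm.isClosedEmbedding.tendsto_cocompact
  have h2 := (h.comp h1).neg
  rw [neg_zero] at h2
  refine h2.congr fun z => ?_
  simp

theorem tend_trans {H H' : ℂ ≃ₜ ℂ} (h : Tendsto (fun z => H z - z) (cocompact ℂ) (𝓝 0))
    (h' : Tendsto (fun z => H' z - z) (cocompact ℂ) (𝓝 0)) :
    Tendsto (fun z => (H.trans H') z - z) (cocompact ℂ) (𝓝 0) := by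
  have h1 : Tendsto H (cocompact ℂ) (cocompact ℂ) := H.isClosedEmbedding.tendsto_cocompact
  have h2 := (h'.comp h1).add h
  rw [add_zero] at h2
  refine h2.congr fun z => ?_
  simp

/-! ### surgery -/

/-- the data of a surgery from `g` to `f` -/
structure Pk {n : ℕ} (A B : Blaschke n) (T : ℂ ≃ₜ ℂ) (C : ℝ) (g f : RMap n) (H : ℂ ≃ₜ ℂ)
    (φ ψ φ₂ ψ₂ : ℂ → ℂ) (h h₂ : ℝ → ℝ) : Prop where
  dg : IsMatingData (zn n) B g φ ψ h
  df : IsMatingData A B f φ₂ ψ₂ h₂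
  wqs : WQS C H
  tend : Tendsto (fun z => H z - z) (cocompact ℂ) (𝓝 0)
  out : ∀ z ∈ Ext, H (φ z) = φ₂ (T z)
  inn : ∀ z ∈ closedBall (0 : ℂ) 1, H (ψ z) = ψ₂ z

section

variable {n : ℕ} {A B : Blaschke n} {T : ℂ ≃ₜ ℂ} {C : ℝ} {g f : RMap n} {H : ℂ ≃ₜ ℂ}
    {φ ψ φ₂ ψ₂ : ℂ → ℂ} {h h₂ : ℝ → ℝ}

theorem Pk.link (h1 : S_BL) (hn : 1 ≤ n) (P : Pk A B T C g f H φ ψ φ₂ ψ₂ h h₂) :
    Link A T C g f H φ φ₂ where
  extg := P.dg.ext
  extf := P.df.ext
  wqs := P.wqs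
  out := P.out
  inn := by
    intro z hz
    have hz' : z ∈ ψ '' closedBall 0 1 := by
      rw [← compl_eq P.dg]; exact hz
    obtain ⟨w, hw, rfl⟩ := hz'
    have hw' : B.ev w ∈ closedBall (0 : ℂ) 1 := by
      rw [mem_closedBall_zero_iff] at hw ⊢
      exact ((h1 n hn B).2.1 w hw).trans hw
    have e1 := P.df.semiψ w hw
    have e2 := P.dg.semiψ w hw
    rw [P.inn w hw, e2.2, P.inn _ hw']
    exact e1

theorem Pk.holo (P : Pk A B T C g f H φ ψ φ₂ ψ₂ h h₂) :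
    DifferentiableOn ℂ H (interior (φ '' Ext)ᶜ) := by
  rw [int_eq P.dg]
  exact hol isOpen_ball P.dg.diffψ (injb P.dg) P.df.diffψ
    fun z hz => P.inn z (ball_subset_closedBall hz)

theorem Pk.holo_symm (P : Pk A B T C g f H φ ψ φ₂ ψ₂ h h₂) :
    DifferentiableOn ℂ H.symm (interior (φ₂ '' Ext)ᶜ) := by
  rw [int_eq P.df]
  refine hol isOpen_ball P.df.diffψ (injb P.df) P.dg.diffψ fun z hz => ?_
  rw [← P.inn z (ball_subset_closedBall hz), H.symm_apply_apply]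

end

/-- existence of the surgery data -/
theorem exists_Pk (h3 : S_TRALG) (h6 : S_UNIQ) {n : ℕ} (hn : 2 ≤ n) {A : Blaschke n} {k C : ℝ}
    (hk0 : 0 ≤ k) {T : ℂ ≃ₜ ℂ} (hT : IsTr (zn n) A k T)
    (hC : ∀ n : ℕ, 2 ≤ n → ∀ (A₁ A₂ B₁ B₂ : Blaschke n) (f : RMap n)
      (φ ψ : ℂ → ℂ) (h : ℝ → ℝ) (S S' : ℂ ≃ₜ ℂ), IsMatingData A₁ B₁ f φ ψ h → IsTr A₁ A₂ k S →
      IsTr B₁ B₂ k S' → ∃ (H : ℂ ≃ₜ ℂ) (φ₂ ψ₂ : ℂ → ℂ) (f₂ : RMap n) (h₂ : ℝ → ℝ), WQS C H ∧
      Tendsto (fun z => H z - z) (cocompact ℂ) (𝓝 0) ∧ (∀ z ∈ CExt, H (φ z) = φ₂ (S z)) ∧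
      (∀ z ∈ closedBall (0 : ℂ) 1, H (ψ z) = ψ₂ (S' z)) ∧ IsMatingData A₂ B₂ f₂ φ₂ ψ₂ h₂)
    {g f : RMap n} (hR : Rel A g f) :
    ∃ (B : Blaschke n) (H : ℂ ≃ₜ ℂ) (φ ψ φ₂ ψ₂ : ℂ → ℂ) (h h₂ : ℝ → ℝ),
      Pk A B T C g f H φ ψ φ₂ ψ₂ h h₂ := by
  obtain ⟨B, ⟨φ, ψ, h, hg⟩, hf⟩ := hR
  obtain ⟨H, φ₂, ψ₂, f₂, h₂, c1, c2, c3, c4, c5⟩ := hC n hn (zn n) A B B g φ ψ h T
    (Homeomorph.refl ℂ) hg hT ((h3 n (by omega)).1 B k hk0)
  have e : f = f₂ := h6 n hn A B f f₂ hf ⟨φ₂, ψ₂, h₂, c5⟩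
  subst e
  exact ⟨B, H, φ, ψ, φ₂, ψ₂, h, h₂, hg, c5, c1, c2,
    fun z hz => c3 z (show (1 : ℝ) ≤ ‖z‖ from le_of_lt (show (1 : ℝ) < ‖z‖ from hz)),
    fun z hz => c4 z hz⟩

/-- the basic mating -/
noncomputable def pw (n : ℕ) (hn : 1 ≤ n) : RMap n where
  P := X ^ n
  Q := 1
  monic := monic_X_pow n
  natDegree := natDegree_X_pow n
  degree_lt := by
    rw [degree_one]
    exact_mod_cast hn
  coprime := isCoprime_one_right

theorem mating_pw (h1 : S_BL) (n : ℕ) (hn : 1 ≤ n) : IsMating (zn n) (zn n) (pw n hn) := by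
  have hz := (h1 n hn (zn n)).2.2.2.2.2.2.2.2
  have hev : ∀ z : ℂ, (pw n hn).Q.eval z ≠ 0 ∧ (pw n hn).ev z = (zn n).ev z := by
    intro z
    refine ⟨by simp [pw], ?_⟩
    rw [(hz z).2]
    simp [pw, RMap.ev]
  refine ⟨id, id, id, ?_⟩
  refine ⟨⟨differentiableOn_id, injOn_id _, ?_, fun z _ _ => hev z⟩, continuousOn_id,
    differentiableOn_id, continuousOn_id, injOn_id _, fun z _ => hev z, ?_, continuous_id,
    strictMono_id, fun x => rfl, fun x => rfl, rfl⟩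
  · simp
  · rw [image_id, image_id]
    ext z
    simp [Ext]

theorem tr_mono {n : ℕ} {A₁ A₂ : Blaschke n} {k k' : ℝ} {T : ℂ ≃ₜ ℂ} (h : IsTr A₁ A₂ k T)
    (hk : k ≤ k') : IsTr A₁ A₂ k' T :=
  { h with dil := fun z hz => (h.dil z hz).trans (mul_le_mul_of_nonneg_right hk (norm_nonneg _)) }

end RELaux

open RELaux in
/-- **REL** -/
theorem t_REL (h1 : S_BL) (h2 : S_TR) (h3 : S_TRALG) (h4 : S_SURG) (h5 : S_UNIQK) (h6 : S_UNIQ)
    (h7 : S_DET) (h8 : S_EXTU) : S_REL := by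
  intro n hn A
  have hn1 : 1 ≤ n := by omega
  have hE : ∀ A B : Blaschke n, ∃ f, IsMating A B f := by
    intro A B
    obtain ⟨kA, TA, kA0, kA1, hA⟩ := h2 n hn A
    obtain ⟨kB, TB, kB0, kB1, hB⟩ := h2 n hn B
    obtain ⟨C, hC⟩ := h4 (max kA kB) (le_max_of_le_left kA0) (max_lt kA1 kB1)
    obtain ⟨φ, ψ, h, hM⟩ := mating_pw h1 n hn1
    obtain ⟨H, φ₂, ψ₂, f₂, h₂, -, -, -, -, c5⟩ := hC n hn (zn n) A (zn n) B _ φ ψ h TA TB hM
      (tr_mono hA (le_max_left _ _)) (tr_mono hB (le_max_right _ _))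
    exact ⟨f₂, φ₂, ψ₂, h₂, c5⟩
  obtain ⟨k, T, hk0, hk1, hT⟩ := h2 n hn A
  obtain ⟨C, hC⟩ := h4 k hk0 hk1
  refine ⟨hE A, ?_, ?_, ?_, ?_, k, C, T, hk0, hk1, hT, ?_⟩
  · rintro g ⟨B, hB⟩
    obtain ⟨f, hf⟩ := hE A B
    exact ⟨f, B, hB, hf⟩
  · rintro f ⟨B, hB⟩
    obtain ⟨g, hg⟩ := hE (zn n) B
    exact ⟨g, B, hg, hB⟩
  · intro g f f' hR hR'
    obtain ⟨B, H, φ, ψ, φ₂, ψ₂, h, h₂, P⟩ := exists_Pk h3 h6 hn hk0 hT hC hR
    obtain ⟨B', H', φ', ψ', φ₂', ψ₂', h', h₂', P'⟩ := exists_Pk h3 h6 hn hk0 hT hC hR'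
    have hφ : EqOn φ φ' Ext := h8 n hn (zn n) g φ φ' P.dg.ext P'.dg.ext
    have hK1 : ∀ w ∈ Ext, (H.symm.trans H') (φ₂ w) = φ₂' w := by
      intro w hw
      have hv : T.symm w ∈ Ext := by
        show 1 < ‖T.symm w‖
        rw [← hT.out, T.apply_symm_apply]; exact hw
      have e1 := P.out _ hv
      have e2 := P'.out _ hv
      rw [T.apply_symm_apply] at e1 e2
      rw [← e1, ← e2, ← hφ hv]
      simp
    have hK2 : DifferentiableOn ℂ (H.symm.trans H') (φ₂ '' Ext) :=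
      hol isOpen_Ext P.df.ext.diff P.df.ext.inj P'.df.ext.diff hK1
    have himg : φ '' Ext = φ' '' Ext := image_congr hφ
    have hK3 : DifferentiableOn ℂ (H.symm.trans H') (ψ₂ '' ball 0 1) := by
      refine hol (G := fun w => H' (ψ w)) isOpen_ball P.df.diffψ (injb P.df) ?_ ?_
      · have hd := P'.holo
        rw [← himg, int_eq P.dg] at hd
        exact hd.comp P.dg.diffψ (fun w hw => ⟨w, hw, rfl⟩)
      · intro w hw
        rw [← P.inn w (ball_subset_closedBall hw)]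
        simp
    have hK4 := tend_trans (tend_symm P.tend) P'.tend
    have hid := h5 n hn A B f φ₂ ψ₂ h₂ (H.symm.trans H') P.df hK2 hK3 hK4
    refine h7 n hn1 A f f' φ₂ φ₂' P.df.ext P'.df.ext fun w hw => ?_
    rw [← hK1 w hw, hid]
  · intro g g' f hR hR'
    obtain ⟨B, H, φ, ψ, φ₂, ψ₂, h, h₂, P⟩ := exists_Pk h3 h6 hn hk0 hT hC hR
    obtain ⟨B', H', φ', ψ', φ₂', ψ₂', h', h₂', P'⟩ := exists_Pk h3 h6 hn hk0 hT hC hR'
    have hφ : EqOn φ₂ φ₂' Ext := h8 n hn A f φ₂ φ₂' P.df.ext P'.df.ext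
    have hK1 : ∀ w ∈ Ext, (H.trans H'.symm) (φ w) = φ' w := by
      intro w hw
      have hv : T w ∈ Ext := (hT.out w).2 hw
      have e1 := P.out _ hw
      have e2 := P'.out _ hw
      have e3 : (H.trans H'.symm) (φ w) = H'.symm (H (φ w)) := rfl
      rw [e3, e1, hφ hv, ← e2, H'.symm_apply_apply]
    have hK2 : DifferentiableOn ℂ (H.trans H'.symm) (φ '' Ext) :=
      hol isOpen_Ext P.dg.ext.diff P.dg.ext.inj P'.dg.ext.diff hK1
    have himg : φ₂ '' Ext = φ₂' '' Ext := image_congr hφ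
    have hK3 : DifferentiableOn ℂ (H.trans H'.symm) (ψ '' ball 0 1) := by
      refine hol (G := fun w => H'.symm (ψ₂ w)) isOpen_ball P.dg.diffψ (injb P.dg) ?_ ?_
      · have hd := P'.holo_symm
        rw [← himg, int_eq P.df] at hd
        exact hd.comp P.df.diffψ (fun w hw => ⟨w, hw, rfl⟩)
      · intro w hw
        rw [← P.inn w (ball_subset_closedBall hw)]
        rfl
    have hK4 := tend_trans P.tend (tend_symm P'.tend)
    have hid := h5 n hn (zn n) B g φ ψ h (H.trans H'.symm) P.dg hK2 hK3 hK4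
    refine h7 n hn1 (zn n) g g' φ φ' P.dg.ext P'.dg.ext fun w hw => ?_
    rw [← hK1 w hw, hid]
  · intro g f hR
    obtain ⟨B, H, φ, ψ, φ₂, ψ₂, h, h₂, P⟩ := exists_Pk h3 h6 hn hk0 hT hC hR
    exact ⟨H, φ, φ₂, P.link h1 hn1, P.holo⟩

end Pool.Agent.H212.MB
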