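import Pool.Agent.H212.MB.Stm

/-!
# Removability of the circle for Beltrami equations
-/

set_option autoImplicit false

open Filter Metric Set Topology MeasureTheory
open scoped ContDiff ComplexConjugate ENNReal

namespace Pool.Agent.H212.MB

namespace REMaux

/-- decay of the derivative at infinity -/
theorem decay {V : ℂ → ℂ} {R₀ : ℝ} (hR : 0 < R₀) (hV : ∀ y, R₀ < ‖y‖ → DifferentiableAt ℂ V y)
    (h0 : Tendsto V (cocompact ℂ) (𝓝 0)) :
    ∃ R c : ℝ, R₀ < R ∧ 0 ≤ c ∧ ∀ y, R ≤ ‖y‖ → ‖deriv V y‖ ≤ c / ‖y‖ ^ 2 := by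
  classical
  set g : ℂ → ℂ := fun w => if w = 0 then 0 else V w⁻¹ with hg
  have hg0 : ∀ w, w ≠ 0 → g =ᶠ[𝓝 w] fun w => V w⁻¹ := by
    intro w hw
    filter_upwards [isOpen_ne.mem_nhds hw] with x hx
    simp only [hg]
    rw [if_neg hx]
  have hdiff : ∀ w, w ≠ 0 → ‖w‖ < R₀⁻¹ → DifferentiableAt ℂ g w := by
    intro w hw hw1
    have h1 : DifferentiableAt ℂ (fun w => V w⁻¹) w := by
      have h2 : DifferentiableAt ℂ V w⁻¹ := by
        apply hV
        rw [norm_inv]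
        exact (lt_inv_comm₀ (norm_pos_iff.2 hw) hR).1 hw1
      exact h2.comp w (differentiableAt_inv hw)
    exact h1.congr_of_eventuallyEq (hg0 w hw)
  have hcont : ContinuousAt g 0 := by
    rw [continuousAt_iff_punctured_nhds]
    have h1 : Tendsto (fun w : ℂ => V w⁻¹) (𝓝[≠] 0) (𝓝 0) := by
      refine h0.comp ?_
      rw [← Metric.cobounded_eq_cocompact]
      exact tendsto_inv₀_nhdsNE_zero
    have h2 : g 0 = 0 := by simp [hg]
    rw [h2]
    refine h1.congr' ?_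
    filter_upwards [self_mem_nhdsWithin] with w hw
    have hw' : w ≠ 0 := hw
    simp only [hg]
    rw [if_neg hw']
  have han : AnalyticAt ℂ g 0 := by
    apply Complex.analyticAt_of_differentiable_on_punctured_nhds_of_continuousAt _ hcont
    have h1 : ball (0 : ℂ) R₀⁻¹ ∈ 𝓝[≠] (0 : ℂ) :=
      mem_nhdsWithin_of_mem_nhds (ball_mem_nhds _ (inv_pos.2 hR))
    filter_upwards [h1, self_mem_nhdsWithin] with w hw hw1
    exact hdiff w hw1 (by simpa using hw)
  have hdc : ContinuousAt (deriv g) 0 := han.deriv.continuousAt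
  obtain ⟨δ, hδ, hδ1⟩ := Metric.continuousAt_iff.1 hdc 1 one_pos
  refine ⟨max (R₀ + 1) (δ⁻¹ + 1), ‖deriv g 0‖ + 1, ?_, by positivity, fun y hy => ?_⟩
  · exact lt_of_lt_of_le (by linarith) (le_max_left _ _)
  · have hy1 : R₀ < ‖y‖ := lt_of_lt_of_le (lt_of_lt_of_le (by linarith) (le_max_left _ _)) hy
    have hy2 : δ⁻¹ < ‖y‖ := lt_of_lt_of_le (lt_of_lt_of_le (by linarith) (le_max_right _ _)) hy
    have hy0 : 0 < ‖y‖ := hR.trans hy1
    have hyn : y ≠ 0 := norm_pos_iff.1 hy0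
    have hw : y⁻¹ ≠ 0 := inv_ne_zero hyn
    have hwn : ‖y⁻¹‖ < R₀⁻¹ := by
      rw [norm_inv]
      exact inv_strictAnti₀ hR hy1
    have hwd : ‖y⁻¹‖ < δ := by
      rw [norm_inv]
      exact (inv_lt_comm₀ hδ hy0).1 hy2
    have hVg : V =ᶠ[𝓝 y] fun x => g x⁻¹ := by
      filter_upwards [isOpen_ne.mem_nhds hyn] with x hx
      simp only [hg]
      rw [if_neg (inv_ne_zero hx), inv_inv]
    have hd : HasDerivAt V (deriv g y⁻¹ * (-(y ^ 2)⁻¹)) y := by
      have h1 := (hdiff _ hw hwn).hasDerivAt.comp y (hasDerivAt_inv hyn)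
      exact h1.congr_of_eventuallyEq hVg
    rw [hd.deriv, norm_mul, norm_neg, norm_inv, norm_pow, div_eq_mul_inv]
    have h2 := hδ1 (x := y⁻¹) (by simpa using hwd)
    rw [dist_eq_norm] at h2
    have h3 : ‖deriv g y⁻¹‖ ≤ ‖deriv g 0‖ + 1 := by
      have := norm_sub_norm_le (deriv g y⁻¹) (deriv g 0)
      linarith
    gcongr

theorem bound {V : ℂ → ℂ} {S W : Set ℂ} (hS : IsClosed S) (hW : IsOpen W) (hSW : S ⊆ W)
    (hWc : IsCompact Wᶜ) (hV : DifferentiableOn ℂ V W) (h0 : Tendsto V (cocompact ℂ) (𝓝 0)) :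
    (∫⁻ w in S, ‖deriv V w‖ₑ ^ 2) < ⊤ := by
  obtain ⟨R₁, hR₁⟩ := hWc.isBounded.subset_closedBall 0
  have hR₀ : 0 < max R₁ 1 := lt_of_lt_of_le one_pos (le_max_right _ _)
  obtain ⟨R, c, hR, hc, hdec⟩ := decay (V := V) hR₀ (fun y hy => by
    have hyW : y ∈ W := by
      by_contra h
      have h1 := hR₁ h
      rw [mem_closedBall_zero_iff] at h1
      have h2 := le_max_left R₁ 1
      linarith
    exact (hV y hyW).differentiableAt (hW.mem_nhds hyW)) h0
  have hR1 : 1 < R := lt_of_le_of_lt (le_max_right _ _) hR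
  have hdc : ContinuousOn (deriv V) W := (hV.deriv hW).continuousOn
  have hcomp : IsCompact (S ∩ closedBall 0 R) := (isCompact_closedBall _ _).inter_left hS
  obtain ⟨M, hM⟩ := hcomp.exists_bound_of_continuousOn (hdc.mono (inter_subset_left.trans hSW))
  set C : ℝ := M ^ 2 * (1 + R) ^ 4 + 16 * c ^ 2 with hC
  have hbd : ∀ y ∈ S, ‖deriv V y‖ ^ 2 ≤ C * (1 + ‖y‖) ^ (-4 : ℝ) := by
    intro y hy
    have hpos : 0 < (1 + ‖y‖) := by positivity
    have hrp : (1 + ‖y‖) ^ (-4 : ℝ) = ((1 + ‖y‖) ^ 4)⁻¹ := by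
      rw [Real.rpow_neg hpos.le]
      norm_cast
    rw [hrp, ← div_eq_mul_inv, le_div_iff₀ (by positivity)]
    rcases le_or_gt ‖y‖ R with h | h
    · have h1 := hM y ⟨hy, by simpa using h⟩
      have h2 : ‖deriv V y‖ ^ 2 ≤ M ^ 2 := by gcongr
      have h3 : (1 + ‖y‖) ^ 4 ≤ (1 + R) ^ 4 := by gcongr
      calc ‖deriv V y‖ ^ 2 * (1 + ‖y‖) ^ 4 ≤ M ^ 2 * (1 + R) ^ 4 := by gcongr
        _ ≤ C := by rw [hC]; nlinarith [sq_nonneg c]
    · have h1 := hdec y h.le
      have hy0 : 0 < ‖y‖ := by linarith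
      have h2 : 1 + ‖y‖ ≤ 2 * ‖y‖ := by linarith
      calc ‖deriv V y‖ ^ 2 * (1 + ‖y‖) ^ 4 ≤ (c / ‖y‖ ^ 2) ^ 2 * (2 * ‖y‖) ^ 4 := by gcongr
        _ = 16 * c ^ 2 := by field_simp; ring
        _ ≤ C := by rw [hC]; nlinarith [mul_nonneg (sq_nonneg M) (by positivity : (0:ℝ) ≤ (1 + R) ^ 4)]
  have hC0 : 0 ≤ C := by rw [hC]; positivity
  have hfin : (∫⁻ x : ℂ, ENNReal.ofReal ((1 + ‖x‖) ^ (-4 : ℝ))) < ⊤ :=
    finite_integral_one_add_norm (by rw [Complex.finrank_real_complex]; norm_num)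
  calc (∫⁻ w in S, ‖deriv V w‖ₑ ^ 2)
      ≤ ∫⁻ w in S, ENNReal.ofReal C * ENNReal.ofReal ((1 + ‖w‖) ^ (-4 : ℝ)) := by
        refine setLIntegral_mono' hS.measurableSet fun y hy => ?_
        rw [← ENNReal.ofReal_mul hC0, ← ofReal_norm, ← ENNReal.ofReal_pow (norm_nonneg _)]
        exact ENNReal.ofReal_le_ofReal (hbd y hy)
    _ ≤ ∫⁻ w, ENNReal.ofReal C * ENNReal.ofReal ((1 + ‖w‖) ^ (-4 : ℝ)) :=
        setLIntegral_le_lintegral _ _
    _ = ENNReal.ofReal C * ∫⁻ w : ℂ, ENNReal.ofReal ((1 + ‖w‖) ^ (-4 : ℝ)) := by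
        rw [lintegral_const_mul]
        fun_prop
    _ < ⊤ := ENNReal.mul_lt_top ENNReal.ofReal_lt_top hfin

/-- a continuous function which tends to zero at infinity, with derivative zero off the circle -/
theorem const_zero {D : ℂ → ℂ} (hD : Continuous D) (h0 : Tendsto D (cocompact ℂ) (𝓝 0))
    (hd : ∀ z ∈ Off, HasFDerivAt D (0 : ℂ →L[ℝ] ℂ) z) (z : ℂ) : D z = 0 := by
  -- outside of the disc
  have h1 : ∀ z, 1 < ‖z‖ → D z = 0 := by
    intro z hz
    set f : ℝ → ℂ := fun t => D ((t : ℂ) * z) with hf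
    have hz0 : z ≠ 0 := by
      rintro rfl
      simp at hz
      linarith
    have hmul : ∀ t : ℝ, HasDerivAt (fun t : ℝ => (t : ℂ) * z) z t := fun t => by
      have := (Complex.ofRealCLM.hasDerivAt (x := t)).mul_const z
      simpa using this
    have hder : ∀ t : ℝ, 1 ≤ t → HasDerivAt f 0 t := by
      intro t ht
      have h2 : (t : ℂ) * z ∈ Off := by
        apply Ext_subset_Off
        show 1 < ‖(t : ℂ) * z‖
        rw [norm_mul, Complex.norm_real, Real.norm_of_nonneg (by linarith)]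
        nlinarith
      have h3 := (hd _ h2).comp_hasDerivAt t (hmul t)
      rw [ContinuousLinearMap.zero_apply] at h3
      exact h3
    have hconst : ∀ t : ℝ, 1 ≤ t → f t = f 1 := by
      intro t ht
      apply constant_of_has_deriv_right_zero (a := 1) (b := t)
      · intro s hs
        exact (hder s hs.1).continuousAt.continuousWithinAt
      · intro s hs
        exact (hder s hs.1).hasDerivWithinAt
      · exact ⟨ht, le_rfl⟩
    have hlim : Tendsto f atTop (𝓝 0) := by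
      refine h0.comp ?_
      rw [← Metric.cobounded_eq_cocompact]
      rw [← tendsto_norm_atTop_iff_cobounded]
      have h3 : Tendsto (fun t : ℝ => t * ‖z‖) atTop atTop :=
        tendsto_id.atTop_mul_const (by linarith)
      refine h3.congr' ?_
      filter_upwards [eventually_ge_atTop 0] with t ht
      rw [norm_mul, Complex.norm_real, Real.norm_of_nonneg ht]
    have hlim2 : Tendsto f atTop (𝓝 (f 1)) := by
      refine tendsto_const_nhds.congr' ?_
      filter_upwards [eventually_ge_atTop 1] with t ht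
      exact (hconst t ht).symm
    have := tendsto_nhds_unique hlim2 hlim
    simpa [hf] using this
  -- inside
  have h2 : ∀ z ∈ ball (0 : ℂ) 1, D z = D 0 := by
    intro z hz
    have hdf : DifferentiableOn ℝ D (ball 0 1) := fun x hx =>
      (hd x (ball_subset_Off hx)).differentiableAt.differentiableWithinAt
    exact isOpen_ball.is_const_of_fderiv_eq_zero (convex_ball (0 : ℂ) 1).isPreconnected hdf
      (fun x hx => (hd x (ball_subset_Off hx)).fderiv) hz (mem_ball_self one_pos)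
  have h3 : ∀ z : ℂ, ‖z‖ = 1 → D z = 0 := by
    intro z hz
    have h4 : Tendsto (fun n : ℕ => (((1 + 1 / ((n : ℝ) + 1) : ℝ)) : ℂ) * z) atTop (𝓝 z) := by
      have h5 : Tendsto (fun n : ℕ => (1 + 1 / ((n : ℝ) + 1) : ℝ)) atTop (𝓝 (1 + 0)) :=
        tendsto_const_nhds.add tendsto_one_div_add_atTop_nhds_zero_nat
      have h6 := ((Complex.continuous_ofReal.tendsto _).comp h5).mul_const z
      rw [add_zero, Complex.ofReal_one, one_mul] at h6
      exact h6
    have hz1 : ∀ n : ℕ, D ((((1 + 1 / ((n : ℝ) + 1) : ℝ)) : ℂ) * z) = 0 := by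
      intro n
      apply h1
      rw [norm_mul, hz, mul_one, Complex.norm_real, Real.norm_of_nonneg (by positivity)]
      have : (0 : ℝ) < 1 / ((n : ℝ) + 1) := by positivity
      linarith
    have hc := (hD.tendsto z).comp h4
    refine tendsto_nhds_unique hc ?_
    refine tendsto_const_nhds.congr fun n => ?_
    exact (hz1 n).symm
  have h4 : D 0 = 0 := by
    have h5 : Tendsto (fun n : ℕ => (((1 - 1 / ((n : ℝ) + 1) : ℝ)) : ℂ)) atTop (𝓝 1) := by
      have h5 : Tendsto (fun n : ℕ => (1 - 1 / ((n : ℝ) + 1) : ℝ)) atTop (𝓝 (1 - 0)) :=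
        tendsto_const_nhds.sub tendsto_one_div_add_atTop_nhds_zero_nat
      have h6 := (Complex.continuous_ofReal.tendsto _).comp h5
      rw [sub_zero, Complex.ofReal_one] at h6
      exact h6
    have hz1 : ∀ n : ℕ, D (((1 - 1 / ((n : ℝ) + 1) : ℝ)) : ℂ) = D 0 := by
      intro n
      apply h2
      have h6 : (0 : ℝ) < 1 / ((n : ℝ) + 1) := by positivity
      have h7 : (1 : ℝ) / ((n : ℝ) + 1) ≤ 1 := by
        rw [div_le_one (by positivity)]
        have : (0 : ℝ) ≤ n := Nat.cast_nonneg n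
        linarith
      rw [mem_ball_zero_iff, Complex.norm_real, Real.norm_of_nonneg (by linarith)]
      linarith
    have hc := (hD.tendsto 1).comp h5
    rw [h3 1 (by simp)] at hc
    refine tendsto_nhds_unique ?_ hc
    refine tendsto_const_nhds.congr fun n => ?_
    exact (hz1 n).symm
  rcases lt_trichotomy ‖z‖ 1 with h | h | h
  · rw [h2 z (by simpa using h), h4]
  · exact h3 z h
  · exact h1 z h

end REMaux

/-- **REM.** -/
theorem t_REM (h1 : S_REM0) (h2 : S_EN) : S_REM := by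
  intro k ρ Q V hk hρ hQ hV hV0 hVd hfin
  -- the constant
  set k' : ℝ := max k 0 with hk'
  have hk'0 : 0 ≤ k' := le_max_right _ _
  have hk'1 : k' < 1 := max_lt hk one_pos
  have hQ' : QCOff k' Q := ⟨hQ.smooth, hQ.nd, fun z hz => (hQ.dil z hz).trans
    (mul_le_mul_of_nonneg_right (le_max_left _ _) (norm_nonneg _))⟩
  have hcirc : IsCompact {z : ℂ | ‖z‖ = 1} := by
    have : {z : ℂ | ‖z‖ = 1} = sphere 0 1 := by ext z; simp
    rw [this]
    exact isCompact_sphere _ _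
  set W : Set ℂ := (Q '' {z | ‖z‖ = 1})ᶜ with hW
  have hWo : IsOpen W := (hcirc.image Q.continuous).isClosed.isOpen_compl
  have hmaps : MapsTo Q Off W := by
    rintro z hz ⟨y, hy, hyz⟩
    rw [Q.injective hyz] at hy
    exact hz hy
  set D : ℂ → ℂ := V ∘ Q with hD
  have hDc : Continuous D := hV.comp Q.continuous
  have hD0 : Tendsto D (cocompact ℂ) (𝓝 0) := by
    refine hV0.comp ?_
    exact Q.isClosedEmbedding.tendsto_cocompact
  have hVsm : ContDiffOn ℝ 2 V W := (hVd.contDiffOn hWo).restrict_scalars ℝ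
  have hDs : ContDiffOn ℝ 2 D Off := hVsm.comp hQ.smooth hmaps
  -- energy
  have hener : (∫⁻ z in Off, ‖fderiv ℝ D z‖ₑ ^ 2) < ⊤ := by
    set U : Set ℂ := {z | ‖z‖ ≤ ρ⁻¹ ∨ ρ ≤ ‖z‖} with hU
    have hUc : IsClosed U := by
      apply IsClosed.union
      · exact isClosed_le continuous_norm continuous_const
      · exact isClosed_le continuous_const continuous_norm
    have hρ0 : ρ⁻¹ < 1 := inv_lt_one_of_one_lt₀ hρ
    have hUO : U ⊆ Off := by
      rintro z (hz | hz)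
      · exact ne_of_lt (lt_of_le_of_lt hz hρ0)
      · exact ne_of_gt (lt_of_lt_of_le hρ hz)
    have hsub : Off ⊆ {z : ℂ | ‖z‖ ≠ 1 ∧ ρ⁻¹ < ‖z‖ ∧ ‖z‖ < ρ} ∪ U := by
      intro z hz
      by_cases h : ‖z‖ ≤ ρ⁻¹ ∨ ρ ≤ ‖z‖
      · exact Or.inr h
      · push Not at h
        exact Or.inl ⟨hz, h.1, h.2⟩
    have hDz : ∀ z ∈ U, DifferentiableAt ℂ V (Q z) := fun z hz =>
      (hVd _ (hmaps (hUO hz))).differentiableAt (hWo.mem_nhds (hmaps (hUO hz)))
    have hen := (h2 k' Q U hk'0 hk'1 Q.injective hQ' hUc.measurableSet hUO).2 V hDz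
    have hb := REMaux.bound (V := V) (S := Q '' U) (W := W) (Q.isClosedMap U hUc) hWo
      (by rintro _ ⟨z, hz, rfl⟩; exact hmaps (hUO hz))
      (by rw [hW, compl_compl]; exact hcirc.image Q.continuous) hVd hV0
    calc (∫⁻ z in Off, ‖fderiv ℝ D z‖ₑ ^ 2)
        ≤ ∫⁻ z in {z : ℂ | ‖z‖ ≠ 1 ∧ ρ⁻¹ < ‖z‖ ∧ ‖z‖ < ρ} ∪ U, ‖fderiv ℝ D z‖ₑ ^ 2 :=
          lintegral_mono_set hsub
      _ ≤ (∫⁻ z in {z : ℂ | ‖z‖ ≠ 1 ∧ ρ⁻¹ < ‖z‖ ∧ ‖z‖ < ρ}, ‖fderiv ℝ D z‖ₑ ^ 2) +
            ∫⁻ z in U, ‖fderiv ℝ D z‖ₑ ^ 2 := lintegral_union_le _ _ _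
      _ < ⊤ := ENNReal.add_lt_top.2 ⟨hfin, lt_of_le_of_lt hen
          (ENNReal.mul_lt_top ENNReal.ofReal_lt_top hb)⟩
  -- the derivatives
  have hQd : ∀ z ∈ Off, DifferentiableAt ℝ Q z := fun z hz =>
    (hQ.smooth.differentiableOn (by norm_num) z hz).differentiableAt (isOpen_Off.mem_nhds hz)
  have hder : ∀ z ∈ Off, dz D z = deriv V (Q z) * dz Q z ∧ dzb D z = deriv V (Q z) * dzb Q z :=
    fun z hz => dz_comp_left ((hVd _ (hmaps hz)).differentiableAt
      (hWo.mem_nhds (hmaps hz))).hasDerivAt (hQd z hz)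
  have hdil : ∀ z ∈ Off, ‖dzb D z‖ ≤ k' * ‖dz D z‖ := by
    intro z hz
    rw [(hder z hz).1, (hder z hz).2, norm_mul, norm_mul]
    have := hQ'.dil z hz
    calc ‖deriv V (Q z)‖ * ‖dzb Q z‖ ≤ ‖deriv V (Q z)‖ * (k' * ‖dz Q z‖) := by gcongr
      _ = k' * (‖deriv V (Q z)‖ * ‖dz Q z‖) := by ring
  have hfc : ContinuousOn (fun z => fderiv ℝ D z) Off :=
    hDs.continuousOn_fderiv_of_isOpen isOpen_Off (by norm_num)
  have hdzc : ContinuousOn (dz D) Off := by
    have e1 : ContinuousOn (fun z => fderiv ℝ D z 1) Off := hfc.clm_apply continuousOn_const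
    have e2 : ContinuousOn (fun z => fderiv ℝ D z Complex.I) Off :=
      hfc.clm_apply continuousOn_const
    exact (e1.sub (continuousOn_const.mul e2)).div_const _
  have hdzbc : ContinuousOn (dzb D) Off := by
    have e1 : ContinuousOn (fun z => fderiv ℝ D z 1) Off := hfc.clm_apply continuousOn_const
    have e2 : ContinuousOn (fun z => fderiv ℝ D z Complex.I) Off :=
      hfc.clm_apply continuousOn_const
    exact (e1.add (continuousOn_const.mul e2)).div_const _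
  set J : ℂ → ℝ := fun z => ‖dz D z‖ ^ 2 - ‖dzb D z‖ ^ 2 with hJ
  have hJc : ContinuousOn J Off := (hdzc.norm.pow 2).sub (hdzbc.norm.pow 2)
  have hJlow : ∀ z ∈ Off, (1 - k' ^ 2) * ‖dz D z‖ ^ 2 ≤ J z := by
    intro z hz
    have h3 := hdil z hz
    have h4 : ‖dzb D z‖ ^ 2 ≤ (k' * ‖dz D z‖) ^ 2 := by gcongr
    simp only [hJ]
    nlinarith
  have hk2 : 0 < 1 - k' ^ 2 := by nlinarith
  have hJ0 : ∀ z ∈ Off, 0 ≤ J z := fun z hz => (by positivity : (0:ℝ) ≤ _).trans (hJlow z hz)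
  have hJup : ∀ z ∈ Off, ‖J z‖ₑ ≤ ‖fderiv ℝ D z‖ₑ ^ 2 := by
    intro z hz
    rw [← ofReal_norm, ← ofReal_norm, ← ENNReal.ofReal_pow (norm_nonneg _)]
    apply ENNReal.ofReal_le_ofReal
    rw [Real.norm_of_nonneg (hJ0 z hz)]
    have h3 := norm_dz_le D z
    have h4 : ‖dz D z‖ ^ 2 ≤ ‖fderiv ℝ D z‖ ^ 2 := by gcongr
    simp only [hJ]
    nlinarith [sq_nonneg ‖dzb D z‖]
  have hJi : IntegrableOn J Off := by
    refine ⟨hJc.aestronglyMeasurable isOpen_Off.measurableSet, ?_⟩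
    refine lt_of_le_of_lt ?_ hener
    exact setLIntegral_mono' isOpen_Off.measurableSet hJup
  have hJz : ∀ z ∈ Off, J z = 0 := by
    have h3 := h1 D hDc hD0 hDs hener
    have h4 : J =ᵐ[volume.restrict Off] 0 :=
      (setIntegral_eq_zero_iff_of_nonneg_ae
        ((ae_restrict_iff' isOpen_Off.measurableSet).2 (Eventually.of_forall hJ0)) hJi).1 h3
    exact Measure.eqOn_open_of_ae_eq h4 isOpen_Off hJc continuousOn_const
  have hdzz : ∀ z ∈ Off, dz D z = 0 ∧ dzb D z = 0 := by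
    intro z hz
    have h3 := hJlow z hz
    rw [hJz z hz] at h3
    have h4 : dz D z = 0 := by
      have h5 : ‖dz D z‖ ^ 2 ≤ 0 := by nlinarith [sq_nonneg ‖dz D z‖]
      have h6 : ‖dz D z‖ = 0 := by nlinarith [sq_nonneg ‖dz D z‖, norm_nonneg (dz D z)]
      exact norm_eq_zero.1 h6
    refine ⟨h4, ?_⟩
    have h5 := hdil z hz
    rw [h4, norm_zero, mul_zero] at h5
    exact norm_le_zero_iff.1 h5
  have hzero : ∀ z, D z = 0 := by
    apply REMaux.const_zero hDc hD0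
    intro z hz
    have hd : DifferentiableAt ℝ D z :=
      (hDs.differentiableOn (by norm_num) z hz).differentiableAt (isOpen_Off.mem_nhds hz)
    have h3 := hd.hasFDerivAt
    rw [fderiv_eq, (hdzz z hz).1, (hdzz z hz).2] at h3
    have h4 : LL 0 0 = 0 := by
      ext v
      simp
    rwa [h4] at h3
  intro y
  have := hzero (Q.symm y)
  simpa [hD] using this

end Pool.Agent.H212.MB
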