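import Pool.Agent.H212.MB.Stm

/-!
# MP_c3607d_an, REM0: the integral of the Jacobian vanishes (proof: helper671)

Fourier series on the circles `|z| = r`: with the Fourier coefficients `c n r` of `θ ↦ D (r e^{iθ})` one has
`∫ ‖dz D‖² = ∑ n, ∫ (π/2) r ‖c' + (n/r) c‖² dr`, `∫ ‖dzb D‖² = ∑ n, ∫ (π/2) r ‖c' - (n/r) c‖² dr`, and the
difference of the `n`-th terms is `π n ∫ (‖c‖²)' dr = 0`.
-/

set_option autoImplicit false

open Filter Metric Set Topology MeasureTheory
open scoped ContDiff ComplexConjugate ENNReal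

namespace Pool.Agent.H212.MB

namespace REM0aux

/-- `exp (i θ)` -/
noncomputable def ex (θ : ℝ) : ℂ := Complex.exp (θ * Complex.I)

lemma ex_norm (θ : ℝ) : ‖ex θ‖ = 1 := Complex.norm_exp_ofReal_mul_I θ

lemma ex_cont : Continuous ex := by
  unfold ex
  fun_prop

lemma ex_deriv (θ : ℝ) : HasDerivAt ex (Complex.I * ex θ) θ := by
  have h1 : HasDerivAt (fun x : ℝ => (x : ℂ) * Complex.I) (1 * Complex.I) θ :=
    (Complex.ofRealCLM.hasDerivAt (x := θ)).mul_const Complex.I
  have h2 := h1.cexp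
  rw [one_mul] at h2
  rw [mul_comm]
  exact h2

/-- Fourier coefficients on `[-π, π]` -/
noncomputable def cf (g : ℝ → ℂ) (n : ℤ) : ℂ :=
  (1 / (2 * Real.pi) : ℝ) • ∫ θ in (-Real.pi)..Real.pi, Complex.exp (-(n * θ * Complex.I)) * g θ

lemma pi_lt : -Real.pi < Real.pi := by linarith [Real.pi_pos]

lemma cf_eq (g : ℝ → ℂ) (n : ℤ) : fourierCoeffOn pi_lt g n = cf g n := by
  rw [fourierCoeffOn_eq_integral, cf]
  have h1 : Real.pi - -Real.pi = 2 * Real.pi := by ring
  congr 1
  · rw [h1]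
  · apply intervalIntegral.integral_congr
    intro x _
    simp only [smul_eq_mul]
    congr 1
    rw [fourier_coe_apply]
    congr 1
    push_cast
    have h2 : (Real.pi : ℂ) ≠ 0 := by exact_mod_cast Real.pi_ne_zero
    field_simp
    ring

lemma ek_cont (n : ℤ) : Continuous fun θ : ℝ => Complex.exp (-(n * θ * Complex.I)) := by fun_prop

lemma ek_norm (n : ℤ) (θ : ℝ) : ‖Complex.exp (-(n * θ * Complex.I))‖ = 1 := by
  have : -((n : ℂ) * θ * Complex.I) = ((-(n * θ) : ℝ) : ℂ) * Complex.I := by push_cast; ring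
  rw [this]
  exact Complex.norm_exp_ofReal_mul_I _

lemma cf_add {g h : ℝ → ℂ} (hg : Continuous g) (hh : Continuous h) (n : ℤ) :
    cf (fun θ => g θ + h θ) n = cf g n + cf h n := by
  unfold cf
  have h1 := intervalIntegral.integral_add (μ := volume) (a := -Real.pi) (b := Real.pi)
    (f := fun θ => Complex.exp (-(n * θ * Complex.I)) * g θ)
    (g := fun θ => Complex.exp (-(n * θ * Complex.I)) * h θ)
    (((ek_cont n).mul hg).intervalIntegrable _ _) (((ek_cont n).mul hh).intervalIntegrable _ _)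
  rw [← smul_add, ← h1]
  congr 2
  funext θ
  ring

lemma cf_mul (a : ℂ) (g : ℝ → ℂ) (n : ℤ) : cf (fun θ => a * g θ) n = a * cf g n := by
  unfold cf
  rw [mul_smul_comm, ← intervalIntegral.integral_const_mul]
  congr 2
  funext θ
  ring

/-- integration by parts -/
lemma cf_deriv {g g' : ℝ → ℂ} (h : ∀ θ, HasDerivAt g (g' θ) θ) (hg' : Continuous g')
    (hper : g Real.pi = g (-Real.pi)) (n : ℤ) : cf g' n = Complex.I * n * cf g n := by
  have hg : Continuous g := continuous_iff_continuousAt.2 fun θ => (h θ).continuousAt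
  have h1 : ∀ θ : ℝ, HasDerivAt (fun θ : ℝ => Complex.exp (-(n * θ * Complex.I)))
      (-(n * Complex.I) * Complex.exp (-(n * θ * Complex.I))) θ := by
    intro θ
    have h2 : HasDerivAt (fun x : ℝ => -((n : ℂ) * x * Complex.I)) (-(n * 1 * Complex.I)) θ :=
      (((Complex.ofRealCLM.hasDerivAt (x := θ)).const_mul (n : ℂ)).mul_const Complex.I).neg
    have h3 := h2.cexp
    rw [mul_one] at h3
    rw [mul_comm]
    exact h3
  have h2 : ∫ θ in (-Real.pi)..Real.pi, ((-(n * Complex.I) * Complex.exp (-(n * θ * Complex.I))) *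
      g θ + Complex.exp (-(n * θ * Complex.I)) * g' θ) = 0 := by
    rw [intervalIntegral.integral_eq_sub_of_hasDerivAt (fun θ _ => (h1 θ).mul (h θ))]
    · simp only [Pi.mul_apply]
      rw [hper]
      have h3 : Complex.exp (-(n * (Real.pi : ℝ) * Complex.I)) =
          Complex.exp (-(n * ((-Real.pi : ℝ) : ℂ) * Complex.I)) := by
        rw [Complex.exp_eq_exp_iff_exists_int]
        refine ⟨-n, ?_⟩
        push_cast
        ring
      rw [h3]
      ring
    · apply Continuous.intervalIntegrable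
      have := ek_cont n
      fun_prop
  rw [intervalIntegral.integral_add] at h2
  · have h3 : ∫ θ in (-Real.pi)..Real.pi, (-(n * Complex.I) * Complex.exp (-(n * θ * Complex.I))) *
        g θ = -(n * Complex.I) * ∫ θ in (-Real.pi)..Real.pi,
          Complex.exp (-(n * θ * Complex.I)) * g θ := by
      rw [← intervalIntegral.integral_const_mul]
      congr 1
      funext θ
      ring
    rw [h3] at h2
    unfold cf
    have h4 : ∫ θ in (-Real.pi)..Real.pi, Complex.exp (-(n * θ * Complex.I)) * g' θ =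
        Complex.I * n * ∫ θ in (-Real.pi)..Real.pi, Complex.exp (-(n * θ * Complex.I)) * g θ := by
      linear_combination h2
    rw [h4, mul_smul_comm]
  · apply Continuous.intervalIntegrable
    have := ek_cont n
    fun_prop
  · exact ((ek_cont n).mul hg').intervalIntegrable _ _

/-- Parseval -/
lemma parseval {g : ℝ → ℂ} (hg : Continuous g) :
    HasSum (fun n => ‖cf g n‖ ^ 2) ((2 * Real.pi)⁻¹ * ∫ θ in Ioo (-Real.pi) Real.pi, ‖g θ‖ ^ 2) := by
  have h1 : MemLp g 2 (volume.restrict (Ioc (-Real.pi) Real.pi)) := by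
    obtain ⟨C, hC⟩ := (isCompact_Icc (a := -Real.pi) (b := Real.pi)).exists_bound_of_continuousOn
      hg.continuousOn
    refine MemLp.of_bound hg.aestronglyMeasurable C ?_
    rw [ae_restrict_iff' measurableSet_Ioc]
    exact Eventually.of_forall fun x hx => hC x (Ioc_subset_Icc_self hx)
  have h2 := hasSum_sq_fourierCoeffOn pi_lt h1
  rw [show Real.pi - -Real.pi = 2 * Real.pi by ring, smul_eq_mul,
    intervalIntegral.integral_of_le pi_lt.le, integral_Ioc_eq_integral_Ioo] at h2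
  simp only [cf_eq] at h2
  exact h2

section
variable {D : ℂ → ℂ}

/-- the coefficients on the circle of radius `r` -/
noncomputable def c (D : ℂ → ℂ) (n : ℤ) (r : ℝ) : ℂ := cf (fun θ => D (r * ex θ)) n

lemma norm_re {r : ℝ} (hr : 0 ≤ r) (θ : ℝ) : ‖(r : ℂ) * ex θ‖ = r := by
  rw [norm_mul, ex_norm, mul_one, Complex.norm_real, Real.norm_of_nonneg hr]

lemma c_cont (hD : Continuous D) (n : ℤ) : Continuous (c D n) := by
  have h : Continuous fun r : ℝ =>
      ∫ θ in (-Real.pi)..Real.pi, Complex.exp (-(n * θ * Complex.I)) * D (r * ex θ) := by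
    apply intervalIntegral.continuous_parametric_intervalIntegral_of_continuous'
    have := ex_cont
    unfold Function.uncurry
    fun_prop
  exact h.const_smul (1 / (2 * Real.pi) : ℝ)

lemma c_norm_le {n : ℤ} {r : ℝ} {ε : ℝ} (h : ∀ θ, ‖D (r * ex θ)‖ ≤ ε) : ‖c D n r‖ ≤ ε := by
  unfold c cf
  rw [norm_smul, Real.norm_of_nonneg (by have := Real.pi_pos; positivity)]
  have h1 : ‖∫ θ in (-Real.pi)..Real.pi, Complex.exp (-(n * θ * Complex.I)) * D (r * ex θ)‖ ≤
      ε * |Real.pi - -Real.pi| := by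
    apply intervalIntegral.norm_integral_le_of_norm_le_const
    intro x _
    rw [norm_mul, ek_norm, one_mul]
    exact h x
  have h2 : |Real.pi - -Real.pi| = 2 * Real.pi := by
    rw [show Real.pi - -Real.pi = 2 * Real.pi by ring, abs_of_pos (by have := Real.pi_pos; positivity)]
  rw [h2] at h1
  have hp := Real.pi_pos
  rw [div_mul_eq_mul_div, one_mul, div_le_iff₀ (by positivity)]
  exact h1

lemma c_tendsto (hlim : Tendsto D (cocompact ℂ) (𝓝 0)) (n : ℤ) :
    Tendsto (c D n) atTop (𝓝 0) := by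
  rw [Metric.tendsto_nhds]
  intro ε hε
  have h1 := (Metric.tendsto_nhds.1 hlim) (ε / 2) (by positivity)
  rw [← Metric.cobounded_eq_cocompact, (Metric.hasBasis_cobounded_compl_closedBall (0 : ℂ)).eventually_iff] at h1
  obtain ⟨R, -, hR⟩ := h1
  filter_upwards [eventually_gt_atTop (max R 0)] with r hr
  rw [dist_zero_right]
  refine lt_of_le_of_lt (c_norm_le (ε := ε / 2) fun θ => ?_) (by linarith)
  have h2 := hR (x := (r : ℂ) * ex θ) (by
    rw [mem_compl_iff, mem_closedBall_zero_iff, norm_re ((le_max_right R 0).trans hr.le)]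
    exact not_le.2 ((le_max_left R 0).trans_lt hr))
  rw [dist_zero_right] at h2
  exact h2.le

lemma c_zero {n : ℤ} (hn : n ≠ 0) : c D n 0 = 0 := by
  have h1 : c D n 0 = cf (fun _ => D 0) n := by
    unfold c
    simp
  have h2 := cf_deriv (g := fun _ => D 0) (g' := fun _ => 0) (fun θ => hasDerivAt_const _ _)
    continuous_const rfl n
  have h3 : cf (fun _ => (0 : ℂ)) n = 0 := by
    unfold cf
    simp
  rw [h3] at h2
  rw [h1]
  rcases mul_eq_zero.1 h2.symm with h | h
  · rcases mul_eq_zero.1 h with h | h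
    · exact absurd h Complex.I_ne_zero
    · exact absurd (by exact_mod_cast h) hn
  · exact h

lemma mem_Off {r : ℝ} (hr : 0 < r) (hr1 : r ≠ 1) (θ : ℝ) : (r : ℂ) * ex θ ∈ Off := by
  show ‖(r : ℂ) * ex θ‖ ≠ 1
  rw [norm_re hr.le]
  exact hr1

lemma fd_cont (hC : ContDiffOn ℝ 2 D Off) : ContinuousOn (fderiv ℝ D) Off :=
  hC.continuousOn_fderiv_of_isOpen isOpen_Off (by norm_num)

lemma fd_cont_circle (hC : ContDiffOn ℝ 2 D Off) {r : ℝ} (hr : 0 < r) (hr1 : r ≠ 1) :
    Continuous fun θ => fderiv ℝ D (r * ex θ) :=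
  (fd_cont hC).comp_continuous (continuous_const.mul ex_cont) fun θ => mem_Off hr hr1 θ

lemma D_diff (hC : ContDiffOn ℝ 2 D Off) {z : ℂ} (hz : z ∈ Off) : DifferentiableAt ℝ D z :=
  (hC.differentiableOn (by norm_num)).differentiableAt (isOpen_Off.mem_nhds hz)

/-- the angular derivative -/
lemma D_theta (hC : ContDiffOn ℝ 2 D Off) {r : ℝ} (hr : 0 < r) (hr1 : r ≠ 1) (θ : ℝ) :
    HasDerivAt (fun θ => D (r * ex θ)) (fderiv ℝ D (r * ex θ) (r * (Complex.I * ex θ))) θ :=
  (D_diff hC (mem_Off hr hr1 θ)).hasFDerivAt.comp_hasDerivAt θ ((ex_deriv θ).const_mul (r : ℂ))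

/-- the radial derivative -/
lemma D_r (hC : ContDiffOn ℝ 2 D Off) {r : ℝ} (hr : 0 < r) (hr1 : r ≠ 1) (θ : ℝ) :
    HasDerivAt (fun r : ℝ => D (r * ex θ)) (fderiv ℝ D (r * ex θ) (ex θ)) r := by
  have h1 : HasDerivAt (fun r : ℝ => (r : ℂ) * ex θ) (1 * ex θ) r :=
    (Complex.ofRealCLM.hasDerivAt (x := r)).mul_const (ex θ)
  rw [one_mul] at h1
  exact (D_diff hC (mem_Off hr hr1 θ)).hasFDerivAt.comp_hasDerivAt r h1

lemma c_deriv (hD : Continuous D) (hC : ContDiffOn ℝ 2 D Off) {r : ℝ} (hr : 0 < r) (hr1 : r ≠ 1)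
    (n : ℤ) : HasDerivAt (c D n) (cf (fun θ => fderiv ℝ D (r * ex θ) (ex θ)) n) r := by
  -- a compact annulus
  obtain ⟨δ, hδ, hδ0, hδ1⟩ : ∃ δ : ℝ, 0 < δ ∧ δ < r ∧ δ < |r - 1| := by
    have h1 : 0 < |r - 1| := abs_pos.2 (sub_ne_zero.2 hr1)
    exact ⟨min r |r - 1| / 2, by positivity, by
      have := min_le_left r |r - 1|; linarith, by have := min_le_right r |r - 1|; linarith⟩
  have hsub : ∀ x ∈ Icc (r - δ) (r + δ), 0 < x ∧ x ≠ 1 := by
    intro x hx
    refine ⟨by linarith [hx.1], fun h => ?_⟩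
    have : |r - 1| ≤ δ := by
      rw [abs_le, ← h]
      constructor <;> linarith [hx.1, hx.2]
    linarith
  obtain ⟨C, hCb⟩ := ((isCompact_Icc (a := r - δ) (b := r + δ)).prod
    (isCompact_Icc (a := -Real.pi) (b := Real.pi))).exists_bound_of_continuousOn
    (f := fun q : ℝ × ℝ => fderiv ℝ D (q.1 * ex q.2)) (by
      refine (fd_cont hC).comp ?_ ?_
      · have := ex_cont
        fun_prop
      · rintro ⟨x, θ⟩ ⟨hx, -⟩
        exact mem_Off (hsub x hx).1 (hsub x hx).2 θ)
  have hder := intervalIntegral.hasDerivAt_integral_of_dominated_loc_of_deriv_le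
    (μ := volume) (a := -Real.pi) (b := Real.pi)
    (F := fun (x : ℝ) (θ : ℝ) => Complex.exp (-(n * θ * Complex.I)) * D (x * ex θ))
    (F' := fun (x : ℝ) (θ : ℝ) => Complex.exp (-(n * θ * Complex.I)) *
      fderiv ℝ D (x * ex θ) (ex θ)) (x₀ := r) (s := ball r δ) (bound := fun _ => C)
    (ball_mem_nhds r hδ) ?_ ?_ ?_ ?_ ?_ ?_
  · exact hder.2.const_smul (1 / (2 * Real.pi) : ℝ)
  · refine Eventually.of_forall fun x => Continuous.aestronglyMeasurable ?_
    have := ex_cont
    have := ek_cont n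
    fun_prop
  · apply Continuous.intervalIntegrable
    have := ex_cont
    have := ek_cont n
    fun_prop
  · exact ((ek_cont n).mul ((fd_cont_circle hC hr hr1).clm_apply ex_cont)).aestronglyMeasurable
  · refine Eventually.of_forall fun θ hθ x hx => ?_
    rw [norm_mul, ek_norm, one_mul]
    rw [uIoc_of_le pi_lt.le] at hθ
    have h1 := hCb (x, θ) ⟨by
      rw [mem_ball, Real.dist_eq, abs_lt] at hx
      constructor <;> linarith, Ioc_subset_Icc_self hθ⟩
    refine ((fderiv ℝ D (x * ex θ)).le_opNorm (ex θ)).trans ?_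
    rw [ex_norm, mul_one]
    exact h1
  · exact continuous_const.intervalIntegrable _ _
  · refine Eventually.of_forall fun θ _ x hx => ?_
    rw [mem_ball, Real.dist_eq, abs_lt] at hx
    have h2 := hsub x ⟨by linarith, by linarith⟩
    exact (D_r hC h2.1 h2.2 θ).const_mul _

/-- the coefficients of `2 dz D e^{iθ}` and `2 dzb D e^{-iθ}` -/
lemma cf_dz (hD : Continuous D) (hC : ContDiffOn ℝ 2 D Off) {r : ℝ} (hr : 0 < r) (hr1 : r ≠ 1)
    (n : ℤ) :
    cf (fun θ => 2 * dz D (r * ex θ) * ex θ) n = deriv (c D n) r + ((n : ℝ) / r) • c D n r ∧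
    cf (fun θ => 2 * dzb D (r * ex θ) * conj (ex θ)) n =
      deriv (c D n) r - ((n : ℝ) / r) • c D n r := by
  have h1 : Continuous fun θ => fderiv ℝ D (r * ex θ) (ex θ) :=
    (fd_cont_circle hC hr hr1).clm_apply ex_cont
  have h2 : Continuous fun θ => fderiv ℝ D (r * ex θ) (r * (Complex.I * ex θ)) :=
    (fd_cont_circle hC hr hr1).clm_apply (by have := ex_cont; fun_prop)
  have hper : D (r * ex Real.pi) = D (r * ex (-Real.pi)) := by
    congr 2
    unfold ex
    rw [Complex.exp_eq_exp_iff_exists_int]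
    refine ⟨1, ?_⟩
    push_cast
    ring
  have h3 := cf_deriv (D_theta hC hr hr1) h2 hper n
  have h4 := (c_deriv hD hC hr hr1 n).deriv
  have hr0 : (r : ℂ) ≠ 0 := by exact_mod_cast hr.ne'
  have e1 : (fun θ => 2 * dz D (r * ex θ) * ex θ) = fun θ => fderiv ℝ D (r * ex θ) (ex θ) +
      (-(Complex.I / r)) * fderiv ℝ D (r * ex θ) (r * (Complex.I * ex θ)) := by
    funext θ
    rw [fderiv_apply, fderiv_apply]
    simp only [map_mul, Complex.conj_I, Complex.conj_ofReal]
    field_simp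
    ring_nf
    rw [Complex.I_sq]
    ring
  have e2 : (fun θ => 2 * dzb D (r * ex θ) * conj (ex θ)) = fun θ =>
      fderiv ℝ D (r * ex θ) (ex θ) +
      (Complex.I / r) * fderiv ℝ D (r * ex θ) (r * (Complex.I * ex θ)) := by
    funext θ
    rw [fderiv_apply, fderiv_apply]
    simp only [map_mul, Complex.conj_I, Complex.conj_ofReal]
    field_simp
    ring_nf
    rw [Complex.I_sq]
    ring
  have e3 : ∀ x : ℂ, ((n : ℝ) / r) • x = (n : ℂ) / r * x := by
    intro x
    rw [Complex.real_smul]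
    push_cast
    ring
  constructor
  · rw [e1, cf_add h1 (h := fun θ => -(Complex.I / (r : ℂ)) *
      fderiv ℝ D (r * ex θ) (r * (Complex.I * ex θ))) (continuous_const.mul h2), cf_mul, h3, h4, e3]
    unfold c
    have : -(Complex.I / (r : ℂ)) * (Complex.I * n * cf (fun θ => D (r * ex θ)) n) =
        -(Complex.I * Complex.I) * ((n : ℂ) / r * cf (fun θ => D (r * ex θ)) n) := by ring
    rw [this, Complex.I_mul_I]
    ring
  · rw [e2, cf_add h1 (h := fun θ => (Complex.I / (r : ℂ)) *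
      fderiv ℝ D (r * ex θ) (r * (Complex.I * ex θ))) (continuous_const.mul h2), cf_mul, h3, h4, e3]
    unfold c
    have : (Complex.I / (r : ℂ)) * (Complex.I * n * cf (fun θ => D (r * ex θ)) n) =
        (Complex.I * Complex.I) * ((n : ℂ) / r * cf (fun θ => D (r * ex θ)) n) := by ring
    rw [this, Complex.I_mul_I]
    ring

lemma circ {g : ℝ → ℂ} (hg : Continuous g) {r : ℝ} (hr : 0 < r) :
    ENNReal.ofReal r * ∫⁻ θ in Ioo (-Real.pi) Real.pi, ENNReal.ofReal (‖g θ‖ ^ 2 / 4) =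
      ∑' n : ℤ, ENNReal.ofReal (Real.pi / 2 * r * ‖cf g n‖ ^ 2) := by
  have h1 := parseval hg
  have h2 := h1.mul_left (Real.pi / 2 * r)
  have hp := Real.pi_pos
  rw [← ENNReal.ofReal_tsum_of_nonneg (fun n => by positivity) h2.summable, h2.tsum_eq]
  have h3 : IntegrableOn (fun θ => ‖g θ‖ ^ 2 / 4) (Ioo (-Real.pi) Real.pi) := by
    apply (Continuous.integrableOn_Icc (by fun_prop)).mono_set Ioo_subset_Icc_self
  rw [← ofReal_integral_eq_lintegral_ofReal h3 (Eventually.of_forall fun θ => by positivity),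
    ← ENNReal.ofReal_mul hr.le, integral_div]
  congr 1
  field_simp
  ring

lemma total {u : ℂ → ℝ} (hu : Measurable u) : ∫⁻ z in Off, ENNReal.ofReal (u z) =
    ∫⁻ r in Ioi (0 : ℝ), ENNReal.ofReal r *
      ∫⁻ θ in Ioo (-Real.pi) Real.pi, ENNReal.ofReal (u (r * ex θ)) := by
  have h0 : (volume : Measure ℂ).restrict Off = volume := by
    apply Measure.restrict_eq_self_of_ae_mem
    have h : (volume : Measure ℂ) (sphere 0 1) = 0 := Measure.addHaar_sphere _ _ _
    have h2 := compl_mem_ae_iff.2 h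
    filter_upwards [h2] with z hz h3
    exact hz (by rw [mem_sphere_zero_iff_norm]; exact h3)
  have h1 := Complex.lintegral_comp_polarCoord_symm (fun z => ENNReal.ofReal (u z))
  have hm : Measurable fun p : ℝ × ℝ => ENNReal.ofReal (u (p.1 * ex p.2)) := by
    have : Measurable fun p : ℝ × ℝ => (p.1 : ℂ) * ex p.2 :=
      (by have := ex_cont; fun_prop : Continuous fun p : ℝ × ℝ => (p.1 : ℂ) * ex p.2).measurable
    exact (hu.comp this).ennreal_ofReal
  have h2 : (fun p : ℝ × ℝ => ENNReal.ofReal p.1 • ENNReal.ofReal (u (Complex.polarCoord.symm p))) =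
      fun p : ℝ × ℝ => ENNReal.ofReal p.1 * ENNReal.ofReal (u (p.1 * ex p.2)) := by
    funext p
    rw [smul_eq_mul, Complex.polarCoord_symm_apply]
    unfold ex
    rw [Complex.exp_mul_I, Complex.ofReal_cos, Complex.ofReal_sin]
  rw [h0, ← h1, h2, polarCoord_target, Measure.volume_eq_prod, ← Measure.prod_restrict,
    lintegral_prod _ (by fun_prop)]
  congr 1
  funext r
  have hm' : Measurable fun θ : ℝ => ENNReal.ofReal (u (r * ex θ)) :=
    hm.comp (measurable_const.prodMk measurable_id : Measurable fun θ : ℝ => (r, θ))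
  exact lintegral_const_mul (μ := (volume : Measure ℝ).restrict (Ioo (-Real.pi) Real.pi))
    (ENNReal.ofReal r) hm'

lemma dz_meas : Measurable (dz D) := by
  unfold dz
  exact ((measurable_fderiv_apply_const ℝ D 1).sub
    ((measurable_fderiv_apply_const ℝ D Complex.I).const_mul _)).div_const _

lemma dzb_meas : Measurable (dzb D) := by
  unfold dzb
  exact ((measurable_fderiv_apply_const ℝ D 1).add
    ((measurable_fderiv_apply_const ℝ D Complex.I).const_mul _)).div_const _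

lemma dz_circ_cont (hC : ContDiffOn ℝ 2 D Off) {r : ℝ} (hr : 0 < r) (hr1 : r ≠ 1) :
    Continuous (fun θ => dz D (r * ex θ)) ∧ Continuous (fun θ => dzb D (r * ex θ)) := by
  have h1 := (fd_cont_circle hC hr hr1).clm_apply (continuous_const (y := (1 : ℂ)))
  have h2 := (fd_cont_circle hC hr hr1).clm_apply (continuous_const (y := Complex.I))
  unfold dz dzb
  constructor
  · fun_prop
  · fun_prop

/-- the terms of the series -/
noncomputable def Pt (D : ℂ → ℂ) (s : ℝ) (n : ℤ) (r : ℝ) : ℝ :=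
  Real.pi / 2 * r * ‖deriv (c D n) r + (s * ((n : ℝ) / r)) • c D n r‖ ^ 2

lemma Pt_meas (hD : Continuous D) (s : ℝ) (n : ℤ) : Measurable (Pt D s n) := by
  have h1 := measurable_deriv (c D n)
  have h2 := (c_cont hD n).measurable
  unfold Pt
  fun_prop

lemma series (hD : Continuous D) {u : ℂ → ℝ} (hu : Measurable u)
    {s : ℝ} (g : ℝ → ℝ → ℂ) (hg : ∀ r, 0 < r → r ≠ 1 → Continuous (g r))
    (hgu : ∀ r θ, ‖g r θ‖ ^ 2 / 4 = u (r * ex θ))
    (hcf : ∀ r n, 0 < r → r ≠ 1 → cf (g r) n =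
      deriv (c D n) r + (s * ((n : ℝ) / r)) • c D n r) :
    ∫⁻ z in Off, ENNReal.ofReal (u z) =
      ∑' n : ℤ, ∫⁻ r in Ioi (0 : ℝ), ENNReal.ofReal (Pt D s n r) := by
  rw [total hu, ← lintegral_tsum fun n => ((Pt_meas hD s n).ennreal_ofReal).aemeasurable]
  apply lintegral_congr_ae
  have h1 : ∀ᵐ r : ℝ ∂(volume.restrict (Ioi 0)), r ≠ 1 :=
    ae_restrict_of_ae (compl_mem_ae_iff.2 (measure_singleton 1))
  filter_upwards [h1, ae_restrict_mem measurableSet_Ioi] with r hr1 hr
  have h2 := circ (hg r hr hr1) hr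
  simp only [hgu] at h2
  rw [h2]
  congr 1
  funext n
  rw [hcf r n hr hr1]
  rfl

lemma series_dz (hD : Continuous D) (hC : ContDiffOn ℝ 2 D Off) :
    ∫⁻ z in Off, ENNReal.ofReal (‖dz D z‖ ^ 2) =
      ∑' n : ℤ, ∫⁻ r in Ioi (0 : ℝ), ENNReal.ofReal (Pt D 1 n r) := by
  refine series hD (dz_meas.norm.pow_const 2) (fun r θ => 2 * dz D (r * ex θ) * ex θ)
    (fun r hr hr1 => ?_) (fun r θ => ?_) (fun r n hr hr1 => ?_)
  · exact ((dz_circ_cont hC hr hr1).1.const_mul 2).mul ex_cont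
  · rw [norm_mul, norm_mul, ex_norm, Complex.norm_ofNat]
    ring
  · rw [(cf_dz hD hC hr hr1 n).1, one_mul]

lemma series_dzb (hD : Continuous D) (hC : ContDiffOn ℝ 2 D Off) :
    ∫⁻ z in Off, ENNReal.ofReal (‖dzb D z‖ ^ 2) =
      ∑' n : ℤ, ∫⁻ r in Ioi (0 : ℝ), ENNReal.ofReal (Pt D (-1) n r) := by
  refine series hD (dzb_meas.norm.pow_const 2) (fun r θ => 2 * dzb D (r * ex θ) * conj (ex θ))
    (fun r hr hr1 => ?_) (fun r θ => ?_) (fun r n hr hr1 => ?_)
  · exact ((dz_circ_cont hC hr hr1).2.const_mul 2).mul (Complex.continuous_conj.comp ex_cont)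
  · rw [norm_mul, norm_mul, Complex.norm_conj, ex_norm, Complex.norm_ofNat]
    ring
  · rw [(cf_dz hD hC hr hr1 n).2, sub_eq_add_neg, neg_one_mul, neg_smul]

/-- the `n`-th terms agree -/
lemma term_eq (hD : Continuous D) (hlim : Tendsto D (cocompact ℂ) (𝓝 0))
    (hC : ContDiffOn ℝ 2 D Off) (n : ℤ)
    (h1 : ∫⁻ r in Ioi (0 : ℝ), ENNReal.ofReal (Pt D 1 n r) ≠ ⊤)
    (h2 : ∫⁻ r in Ioi (0 : ℝ), ENNReal.ofReal (Pt D (-1) n r) ≠ ⊤) :
    ∫⁻ r in Ioi (0 : ℝ), ENNReal.ofReal (Pt D 1 n r) =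
      ∫⁻ r in Ioi (0 : ℝ), ENNReal.ofReal (Pt D (-1) n r) := by
  rcases eq_or_ne n 0 with rfl | hn
  · simp [Pt]
  have hp := Real.pi_pos
  have hpos : ∀ s, 0 ≤ᵐ[volume.restrict (Ioi (0 : ℝ))] Pt D s n := by
    intro s
    filter_upwards [ae_restrict_mem measurableSet_Ioi] with r hr
    have : (0 : ℝ) < r := hr
    simp only [Pt, Pi.zero_apply]
    positivity
  have hint : ∀ s, ∫⁻ r in Ioi (0 : ℝ), ENNReal.ofReal (Pt D s n r) ≠ ⊤ →
      IntegrableOn (Pt D s n) (Ioi (0 : ℝ)) := by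
    intro s hs
    refine ⟨(Pt_meas hD s n).aestronglyMeasurable, ?_⟩
    rw [hasFiniteIntegral_iff_ofReal (hpos s)]
    exact lt_top_iff_ne_top.2 hs
  have hi1 := hint 1 h1
  have hi2 := hint (-1) h2
  rw [← ofReal_integral_eq_lintegral_ofReal hi1 (hpos 1),
    ← ofReal_integral_eq_lintegral_ofReal hi2 (hpos (-1))]
  congr 1
  -- the derivative of `‖c‖²`
  obtain ⟨f, hf⟩ : ∃ f : ℝ → ℝ, f = fun r => ‖c D n r‖ ^ 2 := ⟨_, rfl⟩
  obtain ⟨f', hf'⟩ : ∃ f' : ℝ → ℝ, f' = fun r => 2 * inner ℝ (c D n r) (deriv (c D n) r) :=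
    ⟨_, rfl⟩
  have hfc : Continuous f := by
    rw [hf]
    exact ((c_cont hD n).norm.pow 2)
  have hfd : ∀ r, 0 < r → r ≠ 1 → HasDerivAt f (f' r) r := by
    intro r hr hr1
    rw [hf, hf']
    have h3 := c_deriv hD hC hr hr1 n
    have h4 : HasDerivAt (c D n) (deriv (c D n) r) r := by rw [h3.deriv]; exact h3
    exact h4.norm_sq
  have hdiff : ∀ r ∈ Ioi (0 : ℝ), Pt D 1 n r - Pt D (-1) n r = (Real.pi * n) * f' r := by
    intro r hr
    have hr0 : (0 : ℝ) < r := hr
    rw [hf']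
    simp only [Pt]
    have e1 := norm_add_sq_real (deriv (c D n) r) ((((n : ℝ) / r)) • c D n r)
    have e2 := norm_sub_sq_real (deriv (c D n) r) ((((n : ℝ) / r)) • c D n r)
    rw [inner_smul_right, real_inner_comm] at e1 e2
    rw [one_mul, neg_one_mul, neg_smul, ← sub_eq_add_neg, e1, e2]
    field_simp
    ring
  have hf'int : IntegrableOn f' (Ioi (0 : ℝ)) := by
    have h3 := (hi1.sub hi2).const_mul ((Real.pi * n)⁻¹)
    refine IntegrableOn.congr_fun h3 (fun r hr => ?_) measurableSet_Ioi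
    simp only [Pi.sub_apply]
    rw [hdiff r hr]
    have : (n : ℝ) ≠ 0 := by exact_mod_cast hn
    field_simp
  have hf0 : f 0 = 0 := by
    rw [hf]
    simp only
    rw [c_zero hn]
    simp
  have hflim : Tendsto f atTop (𝓝 0) := by
    have h3 := ((c_tendsto hlim n).norm).pow 2
    rw [norm_zero, zero_pow two_ne_zero] at h3
    rw [hf]
    exact h3
  have e1 : ∫ r in Ioi (1 : ℝ), f' r = 0 - f 1 :=
    integral_Ioi_of_hasDerivAt_of_tendsto hfc.continuousAt.continuousWithinAt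
      (fun r hr => hfd r (lt_trans one_pos hr) (ne_of_gt hr))
      (hf'int.mono_set (Ioi_subset_Ioi zero_le_one)) hflim
  have e2 : ∫ r in (0 : ℝ)..1, f' r = f 1 - f 0 := by
    apply intervalIntegral.integral_eq_sub_of_hasDerivAt_of_le zero_le_one hfc.continuousOn
      (fun r hr => hfd r hr.1 (ne_of_lt hr.2))
    rw [intervalIntegrable_iff_integrableOn_Ioc_of_le zero_le_one]
    exact hf'int.mono_set Ioc_subset_Ioi_self
  have e3 : ∫ r in Ioi (0 : ℝ), f' r = 0 := by
    rw [← Ioc_union_Ioi_eq_Ioi (zero_le_one' ℝ), setIntegral_union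
      (Ioc_disjoint_Ioi le_rfl) measurableSet_Ioi
      (hf'int.mono_set Ioc_subset_Ioi_self) (hf'int.mono_set (Ioi_subset_Ioi zero_le_one)), e1,
      ← intervalIntegral.integral_of_le zero_le_one, e2, hf0]
    ring
  have e4 : ∫ r in Ioi (0 : ℝ), (Pt D 1 n r - Pt D (-1) n r) = 0 := by
    rw [setIntegral_congr_fun measurableSet_Ioi hdiff, integral_const_mul, e3, mul_zero]
  rw [integral_sub hi1 hi2] at e4
  linarith

end

end REM0aux

open REM0aux in
theorem t_REM0 : S_REM0 := by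
  intro D hD hlim hC hE
  have hle : ∀ u : ℂ → ℂ, (∀ z, ‖u z‖ ≤ ‖fderiv ℝ D z‖) →
      ∫⁻ z in Off, ENNReal.ofReal (‖u z‖ ^ 2) < ⊤ := by
    intro u hu
    refine lt_of_le_of_lt (lintegral_mono fun z => ?_) hE
    rw [ENNReal.ofReal_pow (norm_nonneg _), ofReal_norm]
    exact pow_le_pow_left' (enorm_le_iff_norm_le.2 (hu z)) 2
  have h1 := hle (dz D) (norm_dz_le D)
  have h2 := hle (dzb D) (norm_dzb_le D)
  have h3 := series_dz hD hC
  have h4 := series_dzb hD hC
  have h5 : ∫⁻ z in Off, ENNReal.ofReal (‖dz D z‖ ^ 2) =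
      ∫⁻ z in Off, ENNReal.ofReal (‖dzb D z‖ ^ 2) := by
    rw [h3, h4]
    congr 1
    funext n
    refine term_eq hD hlim hC n ?_ ?_
    · exact ENNReal.ne_top_of_tsum_ne_top (by rw [← h3]; exact h1.ne) n
    · exact ENNReal.ne_top_of_tsum_ne_top (by rw [← h4]; exact h2.ne) n
  have hi : ∀ u : ℂ → ℂ, Measurable u → ∫⁻ z in Off, ENNReal.ofReal (‖u z‖ ^ 2) < ⊤ →
      IntegrableOn (fun z => ‖u z‖ ^ 2) Off := by
    intro u hu hfin
    refine ⟨(hu.norm.pow_const 2).aestronglyMeasurable, ?_⟩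
    rw [hasFiniteIntegral_iff_ofReal (Eventually.of_forall fun z => by positivity)]
    exact hfin
  rw [integral_sub (hi _ dz_meas h1) (hi _ dzb_meas h2),
    integral_eq_lintegral_of_nonneg_ae (Eventually.of_forall fun z => by positivity)
      (dz_meas.norm.pow_const 2).aestronglyMeasurable,
    integral_eq_lintegral_of_nonneg_ae (Eventually.of_forall fun z => by positivity)
      (dzb_meas.norm.pow_const 2).aestronglyMeasurable, h5, sub_self]

end Pool.Agent.H212.MB
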