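import Pool.Agent.H212.MB.Stm3

set_option autoImplicit false

open Filter Metric Set Topology MeasureTheory Polynomial
open scoped ContDiff ComplexConjugate ENNReal

namespace Pool.Agent.H212.MB

theorem RTOP_ext {n : ℕ} {f f' : RMap n} (hP : f.P = f'.P) (hQ : f.Q = f'.Q) : f = f' := by
  cases f; cases f'
  simp only at hP hQ
  subst hP; subst hQ
  rfl

theorem RTOP_inj {n : ℕ} : Function.Injective (RMap.coeffs : RMap n → (ℕ → ℂ) × (ℕ → ℂ)) := by
  intro f f' h
  have h1 : (fun i => f.P.coeff i) = fun i => f'.P.coeff i := congrArg Prod.fst h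
  have h2 : (fun i => f.Q.coeff i) = fun i => f'.Q.coeff i := congrArg Prod.snd h
  exact RTOP_ext (Polynomial.ext fun i => congrFun h1 i) (Polynomial.ext fun i => congrFun h2 i)

theorem RTOP_tendsto {n : ℕ} {ι : Type} {l : Filter ι} {f : ι → RMap n} {F : RMap n} :
    Tendsto f l (𝓝 F) ↔ (∀ j, Tendsto (fun i => (f i).P.coeff j) l (𝓝 (F.P.coeff j))) ∧
      ∀ j, Tendsto (fun i => (f i).Q.coeff j) l (𝓝 (F.Q.coeff j)) := by
  rw [nhds_induced, tendsto_comap_iff, Prod.tendsto_iff, tendsto_pi_nhds, tendsto_pi_nhds]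
  rfl

theorem RTOP_evalP {n : ℕ} (f : RMap n) (x : ℂ) :
    f.P.eval x = ∑ i ∈ Finset.range (n + 1), f.P.coeff i * x ^ i :=
  Polynomial.eval_eq_sum_range' (by rw [f.natDegree]; exact Nat.lt_succ_self n) x

theorem RTOP_evalQ {n : ℕ} (f : RMap n) (x : ℂ) :
    f.Q.eval x = ∑ i ∈ Finset.range (n + 1), f.Q.coeff i * x ^ i := by
  refine Polynomial.eval_eq_sum_range' ?_ x
  have h1 : f.Q.natDegree ≤ n := Polynomial.natDegree_le_of_degree_le f.degree_lt.le
  omega

theorem t_RTOP : S_RTOP := by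
  intro n
  refine ⟨T2Space.of_injective_continuous RTOP_inj continuous_induced_dom, ?_⟩
  intro ι l f F
  refine ⟨RTOP_tendsto, ?_⟩
  intro hf z x hz
  obtain ⟨h1, h2⟩ := RTOP_tendsto.1 hf
  constructor
  · simp only [RTOP_evalP]
    exact tendsto_finsetSum _ fun i _ => (h1 i).mul (hz.pow i)
  · simp only [RTOP_evalQ]
    exact tendsto_finsetSum _ fun i _ => (h2 i).mul (hz.pow i)

theorem RTOP_Ext_infinite : Ext.Infinite := by
  have h : (Set.range fun k : ℕ => ((k : ℂ) + 2)) ⊆ Ext := by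
    rintro _ ⟨k, rfl⟩
    have h1 : ((k : ℂ) + 2) = ((k + 2 : ℕ) : ℂ) := by push_cast; ring
    show 1 < ‖(k : ℂ) + 2‖
    rw [h1, Complex.norm_natCast]
    exact_mod_cast (by omega : 1 < k + 2)
  refine (Set.infinite_range_of_injective ?_).mono h
  intro a b hab
  have : (a : ℂ) = b := add_right_cancel hab
  exact_mod_cast this

theorem t_DET (h : S_BL) : S_DET := by
  intro n hn A f f' φ φ' hf hf' heq
  obtain ⟨-, -, -, h4, h5, -⟩ := h n hn A
  have hinf : (φ '' (Ext \ {z | A.den z = 0})).Infinite := by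
    refine (RTOP_Ext_infinite.diff h5).image ?_
    exact hf.inj.mono Set.diff_subset
  have hpoly : f.P * f'.Q = f'.P * f.Q := by
    apply Polynomial.eq_of_infinite_eval_eq
    refine hinf.mono ?_
    rintro w ⟨z, ⟨hz, hden⟩, rfl⟩
    have hden' : A.den z ≠ 0 := hden
    have hev : A.ev z ∈ Ext := lt_of_lt_of_le (show 1 < ‖z‖ from hz) (h4 z hz hden')
    obtain ⟨a1, a2⟩ := hf.semi z hz hden'
    obtain ⟨b1, b2⟩ := hf'.semi z hz hden'
    rw [← heq hz, ← heq hev] at b2
    rw [← heq hz] at b1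
    have h3 : f.ev (φ z) = f'.ev (φ z) := a2.trans b2.symm
    unfold RMap.ev at h3
    rw [div_eq_div_iff a1 b1] at h3
    show (f.P * f'.Q).eval (φ z) = (f'.P * f.Q).eval (φ z)
    rw [Polynomial.eval_mul, Polynomial.eval_mul]
    exact h3
  have hdvd : f.P ∣ f'.P := by
    refine f.coprime.dvd_of_dvd_mul_right ?_
    rw [← hpoly]
    exact dvd_mul_right _ _
  have hP : f'.P = f.P := by
    apply Polynomial.eq_of_monic_of_dvd_of_natDegree_le f.monic f'.monic hdvd
    rw [f.natDegree, f'.natDegree]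
  have hQ : f'.Q = f.Q := by
    rw [hP] at hpoly
    exact mul_left_cancel₀ f.monic.ne_zero hpoly
  exact RTOP_ext hP.symm hQ.symm

end Pool.Agent.H212.MB
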