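import Pool.Agent.H212.MB.Stm
import Pool.Graph.R_pool_sql_team_seeded_ab47071d.TH325.BVM.A
import Pool.Graph.R_seed8.Helper240.ZFM.ConvA

/-!
# JOB SIG: basic facts on the class `Σ`
-/

set_option autoImplicit false

open Filter Metric Set Topology

namespace Pool.Agent.H212.MB

namespace SIGaux

theorem isOpen_Ext : IsOpen Ext := isOpen_lt continuous_const continuous_norm

theorem conn {r : ℝ} (hr : 0 < r) : IsPreconnected {y : ℂ | r < ‖y‖} := by
  have h : {y : ℂ | r < ‖y‖} = Complex.exp '' {z | Real.log r < z.re} := by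
    ext y
    constructor
    · intro hy
      have hy' : r < ‖y‖ := hy
      have hy0 : y ≠ 0 := by
        rintro rfl
        rw [norm_zero] at hy'
        linarith
      refine ⟨Complex.log y, ?_, Complex.exp_log hy0⟩
      show Real.log r < (Complex.log y).re
      rw [Complex.log_re]
      exact Real.log_lt_log hr hy'
    · rintro ⟨z, hz, rfl⟩
      show r < ‖Complex.exp z‖
      rw [Complex.norm_exp]
      exact (Real.log_lt_iff_lt_exp hr).1 hz
  rw [h]
  exact ((convex_halfSpace_re_gt _).isPreconnected).image _ Complex.continuous_exp.continuousOn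

theorem ext_conn : IsPreconnected Ext := conn one_pos

theorem bd {φ : ℂ → ℂ} (h : Sig φ) {z : ℂ} (hz : 2 ≤ ‖z‖) : ‖φ z - z‖ ≤ 2 / ‖z‖ := by
  set r := ‖z‖ with hr
  have hr1 : 0 < r - 1 := by linarith
  have hder : ∀ w ∈ Ext, ‖deriv φ w - 1‖ ≤ 1 / (‖w‖ ^ 2 - 1) := fun w hw =>
    Pool.Agent.TH325.BVM.deriv_sub_one h.diff h.inj
      ⟨0, by rw [Metric.cobounded_eq_cocompact]; exact h.norm⟩ hw
  have hext : ∀ t : ℝ, 1 ≤ t → (t : ℂ) * z ∈ Ext := by
    intro t ht
    show 1 < ‖(t : ℂ) * z‖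
    rw [norm_mul, Complex.norm_real, Real.norm_of_nonneg (by linarith)]
    nlinarith
  have hd : ∀ t : ℝ, 1 ≤ t → HasDerivAt (fun t : ℝ => (φ ((t : ℂ) * z) - (t : ℂ) * z) - (φ z - z))
      ((deriv φ ((t : ℂ) * z) - 1) * z) t := by
    intro t ht
    have h1 : HasDerivAt (fun t : ℝ => (t : ℂ) * z) (1 * z) t :=
      (Complex.ofRealCLM.hasDerivAt (x := t)).mul_const z
    have h2 : HasDerivAt φ (deriv φ ((t : ℂ) * z)) ((t : ℂ) * z) :=
      ((h.diff _ (hext t ht)).differentiableAt (isOpen_Ext.mem_nhds (hext t ht))).hasDerivAt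
    have h3 := ((h2.comp t h1).sub h1).sub_const (φ z - z)
    refine h3.congr_deriv ?_
    ring
  have key : ∀ T : ℝ, 1 ≤ T → ‖(φ ((T : ℂ) * z) - (T : ℂ) * z) - (φ z - z)‖ ≤ 1 / (r - 1) := by
    intro T hT
    have hB : ∀ t : ℝ, 1 ≤ t → HasDerivAt (fun t : ℝ => 1 / (r - 1) - (t * r - 1)⁻¹)
        (r / (t * r - 1) ^ 2) t := by
      intro t ht
      have h0 : t * r - 1 ≠ 0 := by nlinarith
      have h1 : HasDerivAt (fun t : ℝ => t * r - 1) (1 * r) t :=
        ((hasDerivAt_id t).mul_const r).sub_const 1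
      have h2 := (h1.inv h0).const_sub (1 / (r - 1))
      refine h2.congr_deriv ?_
      ring
    have := image_norm_le_of_norm_deriv_right_le_deriv_boundary' (a := 1) (b := T)
      (f := fun t : ℝ => (φ ((t : ℂ) * z) - (t : ℂ) * z) - (φ z - z))
      (f' := fun t => (deriv φ ((t : ℂ) * z) - 1) * z)
      (fun t ht => (hd t ht.1).continuousAt.continuousWithinAt)
      (fun t ht => (hd t ht.1).hasDerivWithinAt)
      (B := fun t : ℝ => 1 / (r - 1) - (t * r - 1)⁻¹) (B' := fun t => r / (t * r - 1) ^ 2)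
      (by simp)
      (fun t ht => (hB t ht.1).continuousAt.continuousWithinAt)
      (fun t ht => (hB t ht.1).hasDerivWithinAt)
      (by
        intro t ht
        have h1 := hder _ (hext t ht.1)
        have h2 : ‖(t : ℂ) * z‖ = t * r := by
          rw [norm_mul, Complex.norm_real, Real.norm_of_nonneg (by linarith [ht.1])]
        rw [h2] at h1
        rw [norm_mul, ← hr]
        have h3 : 1 < t * r := by nlinarith [ht.1]
        have h4 : 1 / ((t * r) ^ 2 - 1) ≤ 1 / (t * r - 1) ^ 2 := by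
          apply one_div_le_one_div_of_le
          · have : 0 < t * r - 1 := by linarith
            positivity
          · nlinarith
        calc ‖deriv φ ((t : ℂ) * z) - 1‖ * r ≤ 1 / (t * r - 1) ^ 2 * r := by
              apply mul_le_mul_of_nonneg_right (h1.trans h4) (by linarith)
          _ = r / (t * r - 1) ^ 2 := by ring)
      (right_mem_Icc.2 hT)
    refine this.trans ?_
    have h3 : 0 < T * r - 1 := by nlinarith
    have h4 : 0 < (T * r - 1)⁻¹ := inv_pos.2 h3
    show 1 / (r - 1) - (T * r - 1)⁻¹ ≤ 1 / (r - 1)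
    linarith
  have hlim : Tendsto (fun T : ℝ => ‖(φ ((T : ℂ) * z) - (T : ℂ) * z) - (φ z - z)‖) atTop
      (𝓝 ‖0 - (φ z - z)‖) := by
    have h1 : Tendsto (fun T : ℝ => (T : ℂ) * z) atTop (cocompact ℂ) := by
      rw [← Metric.cobounded_eq_cocompact, ← tendsto_norm_atTop_iff_cobounded]
      have h2 : Tendsto (fun T : ℝ => T * r) atTop atTop :=
        tendsto_id.atTop_mul_const (by linarith)
      refine h2.congr' ?_
      filter_upwards [eventually_ge_atTop 0] with T hT
      rw [norm_mul, Complex.norm_real, Real.norm_of_nonneg hT]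
    exact ((h.norm.comp h1).sub_const (φ z - z)).norm
  have h5 : ‖0 - (φ z - z)‖ ≤ 1 / (r - 1) := by
    refine le_of_tendsto hlim ?_
    filter_upwards [eventually_ge_atTop 1] with T hT
    exact key T hT
  rw [zero_sub, norm_neg] at h5
  refine h5.trans ?_
  rw [div_le_div_iff₀ hr1 (by linarith)]
  linarith

theorem openmap {φ : ℂ → ℂ} (h : Sig φ) : ∀ U ⊆ Ext, IsOpen U → IsOpen (φ '' U) := by
  have h1 : AnalyticOnNhd ℂ φ Ext := h.diff.analyticOnNhd isOpen_Ext
  rcases h1.is_constant_or_isOpen ext_conn with h2 | h2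
  · exfalso
    obtain ⟨w, hw⟩ := h2
    have m2 : (2 : ℂ) ∈ Ext := by
      show 1 < ‖(2 : ℂ)‖
      norm_num
    have m3 : (3 : ℂ) ∈ Ext := by
      show 1 < ‖(3 : ℂ)‖
      norm_num
    have h3 := h.inj m2 m3 ((hw 2 m2).trans (hw 3 m3).symm)
    norm_num at h3
  · exact h2

theorem norm_ge {φ : ℂ → ℂ} (h : Sig φ) {z : ℂ} (hz : 2 ≤ ‖z‖) :
    ‖z‖ - 1 ≤ ‖φ z‖ ∧ ‖φ z‖ ≤ ‖z‖ + 1 := by
  have h1 := bd h hz
  have h2 : 2 / ‖z‖ ≤ 1 := by
    rw [div_le_one (by linarith)]
    exact hz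
  have h3 := norm_sub_norm_le z (φ z)
  have h4 := norm_sub_norm_le (φ z) z
  rw [norm_sub_rev z (φ z)] at h3
  constructor <;> linarith

theorem surj {φ : ℂ → ℂ} (h : Sig φ) : {y : ℂ | 3 < ‖y‖} ⊆ φ '' {z | 2 < ‖z‖} := by
  have hsub : {z : ℂ | 2 < ‖z‖} ⊆ Ext := fun z hz => by
    show 1 < ‖z‖
    have : 2 < ‖z‖ := hz
    linarith
  have hopen : IsOpen {z : ℂ | 2 < ‖z‖} := isOpen_lt continuous_const continuous_norm
  refine (conn (by norm_num : (0 : ℝ) < 3)).subset_of_closure_inter_subset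
    (openmap h _ hsub hopen) ?_ ?_
  · have h5 : ‖(5 : ℂ)‖ = 5 := by norm_num
    refine ⟨φ 5, ?_, ⟨5, ?_, rfl⟩⟩
    · have := (norm_ge h (z := 5) (by rw [h5]; norm_num)).1
      rw [h5] at this
      show 3 < ‖φ 5‖
      linarith
    · show 2 < ‖(5 : ℂ)‖
      rw [h5]
      norm_num
  · rintro y ⟨hy, hy3⟩
    have hy3' : 3 < ‖y‖ := hy3
    set K : Set ℂ := closedBall 0 (‖y‖ + 2) ∩ {z | 2 ≤ ‖z‖} with hK
    have hKc : IsCompact K :=
      (isCompact_closedBall _ _).inter_right (isClosed_le continuous_const continuous_norm)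
    have hKE : K ⊆ Ext := fun z hz => by
      show 1 < ‖z‖
      have : 2 ≤ ‖z‖ := hz.2
      linarith
    have hcl : IsClosed (φ '' K) := (hKc.image_of_continuousOn
      (h.diff.continuousOn.mono hKE)).isClosed
    have hyK : y ∈ φ '' K := by
      rw [← hcl.closure_eq]
      rw [_root_.mem_closure_iff] at hy ⊢
      intro o ho hyo
      obtain ⟨x, hx, z, hz, rfl⟩ := hy (o ∩ ball y 1) (ho.inter isOpen_ball)
        ⟨hyo, mem_ball_self one_pos⟩
      have hz' : 2 < ‖z‖ := hz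
      refine ⟨φ z, hx.1, z, ⟨?_, hz'.le⟩, rfl⟩
      rw [mem_closedBall_zero_iff]
      have h1 := (norm_ge h hz'.le).1
      have h2 := hx.2
      rw [mem_ball, dist_eq_norm] at h2
      have h3 := norm_sub_norm_le (φ z) y
      linarith
    obtain ⟨z, hz, rfl⟩ := hyK
    refine ⟨z, ?_, rfl⟩
    have h2 : 2 ≤ ‖z‖ := hz.2
    rcases h2.lt_or_eq with h3 | h3
    · exact h3
    · exfalso
      have := (norm_ge h h2).2
      rw [← h3] at this
      linarith

end SIGaux

theorem t_SIG : S_SIG := by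
  intro φ h
  refine ⟨fun z hz => SIGaux.bd h hz, ?_, ?_, ?_, SIGaux.openmap h, ?_⟩
  · intro y hy
    obtain ⟨z, hz, hzy⟩ := SIGaux.surj h hy
    exact ⟨z, hz, hzy⟩
  · intro z hz hz2
    by_contra hne
    push Not at hne
    obtain ⟨z', hz', hzz⟩ := SIGaux.surj h (show φ z ∈ {y : ℂ | 3 < ‖y‖} from hne)
    have hz'' : 2 < ‖z'‖ := hz'
    have h1 : z' = z := h.inj (by show 1 < ‖z'‖; linarith) hz hzz
    rw [h1] at hz''
    linarith
  · intro z hz
    exact Pool.Agent.Helper405.Conv.deriv_ne_zero_of_injOn SIGaux.isOpen_Ext h.diff h.inj hz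
  · have h1 : IsClosed (φ '' Ext)ᶜ := (SIGaux.openmap h Ext subset_rfl SIGaux.isOpen_Ext).isClosed_compl
    refine (isCompact_closedBall (0 : ℂ) 3).of_isClosed_subset h1 ?_
    intro y hy
    rw [mem_closedBall_zero_iff]
    by_contra hne
    push Not at hne
    obtain ⟨z, hz, hzy⟩ := SIGaux.surj h (show y ∈ {y : ℂ | 3 < ‖y‖} from hne)
    refine hy ⟨z, ?_, hzy⟩
    have : 2 < ‖z‖ := hz
    show 1 < ‖z‖
    linarith

end Pool.Agent.H212.MB
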