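import Pool.Agent.H212.MB.Stm
import Pool.Graph.R_seed8.Helper240.ZFM.Riem

/-!
# Compactness of the class `Σ` (SIGLIM)
-/

set_option autoImplicit false

open Filter Metric Set Topology MeasureTheory
open scoped ContDiff ComplexConjugate

namespace Pool.Agent.H212.MB

namespace SIGLIMaux

open Pool.Agent.Helper405.Riemann

theorem sig_id : Sig (fun z => z) :=
  ⟨differentiableOn_id, fun _ _ _ _ h => h, by simp⟩

theorem ext_preconnected : IsPreconnected Ext := by
  have h1 : Ext = Complex.exp '' {z : ℂ | 0 < z.re} := by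
    ext z
    constructor
    · intro hz
      have hz' : 1 < ‖z‖ := hz
      have hz0 : z ≠ 0 := by
        intro h
        rw [h, norm_zero] at hz'
        linarith
      refine ⟨Complex.log z, ?_, Complex.exp_log hz0⟩
      show 0 < (Complex.log z).re
      rw [Complex.log_re]
      exact Real.log_pos hz'
    · rintro ⟨w, hw, rfl⟩
      have hw' : 0 < w.re := hw
      show 1 < ‖Complex.exp w‖
      rw [Complex.norm_exp]
      exact Real.one_lt_exp_iff.2 hw'
  rw [h1]
  have h2 : Convex ℝ {z : ℂ | 0 < z.re} := convex_halfSpace_re_gt 0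
  exact h2.isPreconnected.image _ Complex.continuous_exp.continuousOn

theorem sig_bound (h : S_SIG) {φ : ℂ → ℂ} (hφ : Sig φ) {z : ℂ} (hz : z ∈ Ext) :
    ‖φ z‖ ≤ 3 + ‖z‖ := by
  obtain ⟨h1, -, h3, -⟩ := h φ hφ
  rcases le_total ‖z‖ 2 with hz2 | hz2
  · have := h3 z hz hz2
    have := norm_nonneg z
    linarith
  · have h4 := h1 z hz2
    have h5 : 2 / ‖z‖ ≤ 1 := by
      rw [div_le_one (by linarith)]
      exact hz2
    have h6 : φ z = (φ z - z) + z := by ring
    rw [h6]
    refine (norm_add_le _ _).trans ?_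
    linarith

/-- the case in which all functions are in the class -/
theorem siglim_all (h : S_SIG) (ι : Type) (u : Ultrafilter ι) (φ : ι → ℂ → ℂ)
    (hφ : ∀ i, Sig (φ i)) :
    ∃ Φ : ℂ → ℂ, Sig Φ ∧ TendstoLocallyUniformlyOn φ Φ (u : Filter ι) Ext := by
  classical
  have hpt : ∀ z ∈ Ext, ∃ y : ℂ, Tendsto (fun i => φ i z) u (𝓝 y) := by
    intro z hz
    have hcomp : IsCompact (closedBall (0 : ℂ) (3 + ‖z‖)) := isCompact_closedBall _ _
    have hmem : (Ultrafilter.map (fun i => φ i z) u : Filter ℂ) ≤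
        𝓟 (closedBall (0 : ℂ) (3 + ‖z‖)) := by
      rw [le_principal_iff]
      show (fun i => φ i z) ⁻¹' (closedBall (0 : ℂ) (3 + ‖z‖)) ∈ (u : Filter ι)
      apply Filter.univ_mem'
      intro i
      show φ i z ∈ closedBall (0 : ℂ) (3 + ‖z‖)
      rw [mem_closedBall_zero_iff]
      exact sig_bound h (hφ i) hz
    obtain ⟨y, _, hy⟩ := hcomp.ultrafilter_le_nhds _ hmem
    exact ⟨y, hy⟩
  choose! f hf using hpt
  -- locally uniform convergence
  have key : ∀ (V : Set ℂ), IsOpen V → ∀ (F : ι → ℂ → ℂ) (g : ℂ → ℂ) (K : ℝ),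
      (∀ i, DifferentiableOn ℂ (F i) V) → (∀ i, ∀ z ∈ V, ‖F i z‖ ≤ K + ‖z‖) →
      (∀ z ∈ V, Tendsto (fun i => F i z) u (𝓝 (g z))) →
      TendstoLocallyUniformlyOn F g (u : Filter ι) V := by
    intro V hV F g K hd hb hp
    rw [Metric.tendstoLocallyUniformlyOn_iff]
    intro ε hε x hx
    set V' := V ∩ ball 0 (‖x‖ + 1) with hV'
    have hVo : IsOpen V' := hV.inter isOpen_ball
    have hxV : x ∈ V' := ⟨hx, by rw [mem_ball_zero_iff]; linarith⟩
    have h1 : TendstoLocallyUniformlyOn F g (u : Filter ι) V' := by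
      refine tlu_of_pointwise (M := K + (‖x‖ + 1)) hVo (fun i => (hd i).mono inter_subset_left) ?_ ?_
      · intro i z hz
        have h2 := hb i z hz.1
        have h3 := mem_ball_zero_iff.1 hz.2
        linarith
      · intro z hz
        exact hp z hz.1
    rw [Metric.tendstoLocallyUniformlyOn_iff] at h1
    obtain ⟨t, ht, h2⟩ := h1 ε hε x hxV
    refine ⟨t, ?_, h2⟩
    rw [hVo.nhdsWithin_eq hxV] at ht
    exact mem_nhdsWithin_of_mem_nhds ht
  have hExt : IsOpen Ext := isOpen_Ext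
  have hd : ∀ i, DifferentiableOn ℂ (φ i) Ext := fun i => (hφ i).diff
  have htlu : TendstoLocallyUniformlyOn φ f (u : Filter ι) Ext :=
    key Ext hExt φ f 3 hd (fun i z hz => sig_bound h (hφ i) hz) hf
  have hfd : DifferentiableOn ℂ f Ext := htlu.differentiableOn (Eventually.of_forall hd) hExt
  have hana : AnalyticOnNhd ℂ f Ext := hfd.analyticOnNhd hExt
  -- behaviour at infinity
  have hinf : ∀ z, 2 ≤ ‖z‖ → ‖f z - z‖ ≤ 2 / ‖z‖ := by
    intro z hz
    have hzE : z ∈ Ext := lt_of_lt_of_le one_lt_two hz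
    have h1 : Tendsto (fun i => ‖φ i z - z‖) (u : Filter ι) (𝓝 ‖f z - z‖) :=
      ((hf z hzE).sub_const z).norm
    exact le_of_tendsto h1 (Eventually.of_forall fun i => (h (φ i) (hφ i)).1 z hz)
  have hnorm : Tendsto (fun z => f z - z) (cocompact ℂ) (𝓝 0) := by
    have h1 : Tendsto (fun z : ℂ => 2 / ‖z‖) (cocompact ℂ) (𝓝 0) :=
      tendsto_const_nhds.div_atTop (tendsto_norm_cocompact_atTop)
    refine squeeze_zero_norm' ?_ h1
    filter_upwards [(tendsto_norm_cocompact_atTop (E := ℂ)).eventually_ge_atTop 2] with z hz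
    exact hinf z hz
  refine ⟨f, ⟨hfd, ?_, hnorm⟩, htlu⟩
  intro z hz w hw hzw
  by_contra hne
  have hV : IsOpen (Ext \ {w}) := hExt.sdiff isClosed_singleton
  have hzV : z ∈ Ext \ {w} := ⟨hz, hne⟩
  have htlu' : TendstoLocallyUniformlyOn (fun i x => φ i x - φ i w) (fun x => f x - f w)
      (u : Filter ι) (Ext \ {w}) := by
    refine key _ hV _ _ (3 + (3 + ‖w‖)) (fun i => ((hd i).mono sdiff_subset).sub_const _) ?_ ?_
    · intro i x hx
      have h1 := sig_bound h (hφ i) hx.1
      have h2 := sig_bound h (hφ i) hw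
      have h3 := norm_sub_le (φ i x) (φ i w)
      linarith
    · intro x hx
      exact (hf x hx.1).sub (hf w hw)
  have hev := hurwitz (l := (u : Filter ι)) hV (F := fun i x => φ i x - φ i w)
    (f := fun x => f x - f w)
    (fun i => ((hd i).mono sdiff_subset).sub_const _) htlu'
    (fun i x hx h0 => hx.2 ((hφ i).inj hx.1 hw (by linear_combination h0))) hzV
    (by simp [hzw])
  have hana'' : AnalyticOnNhd ℂ (fun x => f x - f w) Ext := hana.sub analyticOnNhd_const
  have heq := hana''.eqOn_zero_of_preconnected_of_eventuallyEq_zero ext_preconnected hz hev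
  -- the function would be constant
  set R : ℝ := ‖f w‖ + 3 with hR
  have hR3 : 3 ≤ R := by have := norm_nonneg (f w); linarith
  have hRn : ‖((R : ℝ) : ℂ)‖ = R := by
    rw [Complex.norm_real, Real.norm_eq_abs, abs_of_pos (by linarith)]
  have hRE : (R : ℂ) ∈ Ext := by
    show 1 < ‖(R : ℂ)‖
    rw [hRn]; linarith
  have h1 := heq hRE
  simp only [Pi.zero_apply] at h1
  have h2 : f (R : ℂ) = f w := by linear_combination h1
  have h3 := hinf (R : ℂ) (by rw [hRn]; linarith)
  rw [h2, hRn] at h3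
  have h4 : R - ‖f w‖ ≤ ‖f w - (R : ℂ)‖ := by
    have := norm_sub_norm_le (R : ℂ) (f w)
    rw [hRn, norm_sub_rev] at this
    exact this
  have h5 : 2 / R ≤ 1 := by
    rw [div_le_one (by linarith)]
    linarith
  linarith

end SIGLIMaux

open SIGLIMaux in
theorem t_SIGLIM (h : S_SIG) : S_SIGLIM := by
  classical
  intro ι u φ hφ
  obtain ⟨Φ, hΦ, ht⟩ := siglim_all h ι u (fun i => if Sig (φ i) then φ i else fun z => z)
    (fun i => by
      by_cases hi : Sig (φ i)
      · rw [if_pos hi]; exact hi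
      · rw [if_neg hi]; exact sig_id)
  refine ⟨Φ, hΦ, ?_⟩
  rw [Metric.tendstoLocallyUniformlyOn_iff] at ht ⊢
  intro ε hε x hx
  obtain ⟨t, ht1, ht2⟩ := ht ε hε x hx
  refine ⟨t, ht1, ?_⟩
  filter_upwards [ht2, hφ] with i hi hs y hy
  have := hi y hy
  rwa [if_pos hs] at this

end Pool.Agent.H212.MB
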