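import Pool.Agent.H212.MB.Stm3

set_option autoImplicit false

open Filter Metric Set Topology MeasureTheory Polynomial
open scoped ContDiff ComplexConjugate ENNReal

namespace Pool.Agent.H212.MB

namespace STABaux

/-- the image of a ball is open -/
theorem open_im {ψ : ℂ → ℂ} (hd : DifferentiableOn ℂ ψ (ball 0 1)) (hi : InjOn ψ (closedBall 0 1))
    {r : ℝ} (hr : r ≤ 1) : IsOpen (ψ '' ball 0 r) := by
  have ha : AnalyticOnNhd ℂ ψ (ball 0 1) := hd.analyticOnNhd isOpen_ball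
  rcases ha.is_constant_or_isOpen (convex_ball (0 : ℂ) 1).isPreconnected with ⟨w, hw⟩ | h
  · exfalso
    have h0 : (0 : ℂ) ∈ ball (0 : ℂ) 1 := by simp
    have h1 : (1 / 2 : ℂ) ∈ ball (0 : ℂ) 1 := by
      rw [mem_ball_zero_iff]; norm_num
    have := hi (ball_subset_closedBall h0) (ball_subset_closedBall h1) ((hw _ h0).trans (hw _ h1).symm)
    norm_num at this
  · exact h _ (ball_subset_ball hr) isOpen_ball

/-- the set `L` is in the image of a smaller disc -/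
theorem small {ψ : ℂ → ℂ} (hc : ContinuousOn ψ (closedBall 0 1)) (hi : InjOn ψ (closedBall 0 1))
    {L : Set ℂ} (hL : IsCompact L) (hLs : L ⊆ ψ '' ball 0 1) :
    ∃ r : ℝ, 0 < r ∧ r < 1 ∧ L ⊆ ψ '' closedBall 0 r := by
  set M : Set ℂ := closedBall 0 1 ∩ ψ ⁻¹' L with hM
  have hMc : IsCompact M :=
    (isCompact_closedBall (0 : ℂ) 1).of_isClosed_subset
      (hc.preimage_isClosed_of_isClosed isClosed_closedBall hL.isClosed) inter_subset_left
  have hMb : M ⊆ ball 0 1 := by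
    rintro z ⟨hz, hzL⟩
    obtain ⟨w, hw, hwz⟩ := hLs hzL
    have := hi (ball_subset_closedBall hw) hz hwz
    rw [← this]; exact hw
  rcases M.eq_empty_or_nonempty with he | hne
  · refine ⟨1 / 2, by norm_num, by norm_num, ?_⟩
    intro x hx
    obtain ⟨w, hw, rfl⟩ := hLs hx
    have : w ∈ M := ⟨ball_subset_closedBall hw, hx⟩
    rw [he] at this
    exact absurd this (notMem_empty _)
  · obtain ⟨z0, hz0, hmax⟩ := hMc.exists_isMaxOn hne continuous_norm.continuousOn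
    have h1 : ‖z0‖ < 1 := by simpa using hMb hz0
    refine ⟨max ‖z0‖ (1 / 2), by positivity, max_lt h1 (by norm_num), ?_⟩
    intro x hx
    obtain ⟨w, hw, rfl⟩ := hLs hx
    refine ⟨w, ?_, rfl⟩
    rw [mem_closedBall_zero_iff]
    exact (hmax ⟨ball_subset_closedBall hw, hx⟩).trans (le_max_left _ _)

/-- uniformity along a filter -/
theorem unif (h2 : S_RTOP) {n : ℕ} {ι : Type} {l : Filter ι} {F : ι → RMap n} {f : RMap n}
    (hF : Tendsto F l (𝓝 f)) {X O : Set ℂ} (hX : IsCompact X) (hO : IsOpen O)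
    (hQ : ∀ x ∈ X, f.Q.eval x ≠ 0) (hev : ∀ x ∈ X, f.ev x ∈ O) :
    ∀ᶠ i in l, ∀ x ∈ X, (F i).Q.eval x ≠ 0 ∧ (F i).ev x ∈ O := by
  by_contra hcon
  rw [not_eventually] at hcon
  have hne : (l ⊓ 𝓟 {i | ¬ ∀ x ∈ X, (F i).Q.eval x ≠ 0 ∧ (F i).ev x ∈ O}).NeBot :=
    frequently_mem_iff_neBot.1 hcon
  set u := Ultrafilter.of (l ⊓ 𝓟 {i | ¬ ∀ x ∈ X, (F i).Q.eval x ≠ 0 ∧ (F i).ev x ∈ O}) with hu
  have hul : (u : Filter ι) ≤ l := (Ultrafilter.of_le _).trans inf_le_left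
  have hub : ∀ᶠ i in (u : Filter ι), ¬ ∀ x ∈ X, (F i).Q.eval x ≠ 0 ∧ (F i).ev x ∈ O :=
    (Ultrafilter.of_le _).trans inf_le_right (mem_principal_self _)
  have hch : ∀ i, ∃ x : ℂ, (¬ ∀ x ∈ X, (F i).Q.eval x ≠ 0 ∧ (F i).ev x ∈ O) →
      x ∈ X ∧ ¬ ((F i).Q.eval x ≠ 0 ∧ (F i).ev x ∈ O) := by
    intro i
    by_cases h : ∀ x ∈ X, (F i).Q.eval x ≠ 0 ∧ (F i).ev x ∈ O
    · exact ⟨0, fun h' => absurd h h'⟩
    · push Not at h
      obtain ⟨x, hx, hx2⟩ := h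
      refine ⟨x, fun _ => ⟨hx, ?_⟩⟩
      rintro ⟨h3, h4⟩
      exact hx2 h3 h4
  choose z hz using hch
  have hzX : ∀ᶠ i in (u : Filter ι), z i ∈ X := hub.mono fun i hi => (hz i hi).1
  obtain ⟨x, hxX, hx⟩ := hX.ultrafilter_le_nhds (u.map z) (by
    rw [le_principal_iff]; exact hzX)
  have hzx : Tendsto z u (𝓝 x) := hx
  obtain ⟨hP', hQ'⟩ := ((h2 n).2 ι u F f).2 (hF.mono_left hul) z x hzx
  have hev' : Tendsto (fun i => (F i).ev (z i)) u (𝓝 (f.ev x)) := hP'.div hQ' (hQ x hxX)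
  have e1 : ∀ᶠ i in (u : Filter ι), (F i).Q.eval (z i) ≠ 0 := hQ'.eventually_ne (hQ x hxX)
  have e2 : ∀ᶠ i in (u : Filter ι), (F i).ev (z i) ∈ O := hev' (hO.mem_nhds (hev x hxX))
  have : ∀ᶠ i in (u : Filter ι), False := by
    filter_upwards [e1, e2, hub] with i a1 a2 a3
    exact (hz i a3).2 ⟨a1, a2⟩
  exact u.neBot.ne (eventually_false_iff_eq_bot.1 this)

/-- the forward orbit of a point of the exterior tends to infinity -/
theorem escape (h1 : S_BL) (h3 : S_QFORM) {n : ℕ} (hn : 2 ≤ n) {A : Blaschke n} {f : RMap n}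
    {φ : ℂ → ℂ} (he : IsExt A f φ) {X : Set ℂ} (hX : Bornology.IsBounded X)
    (hQ : ∀ x ∈ X, f.Q.eval x ≠ 0 ∧ f.ev x ∈ X) : Disjoint X (φ '' Ext) := by
  rw [Set.disjoint_left]
  rintro x hxX ⟨w, hw, rfl⟩
  obtain ⟨-, -, -, -, -, -, -, hexp, -⟩ := h1 n (by omega) A
  obtain ⟨q, hq1, hq⟩ := (hexp hn).2 ‖w‖ hw
  have hqf := (h3 n (by omega) A f φ he).2.1
  have hind : ∀ j : ℕ, ∃ v : ℂ, q ^ j * ‖w‖ ≤ ‖v‖ ∧ φ v ∈ X := by
    intro j
    induction j with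
    | zero => exact ⟨w, by simp, hxX⟩
    | succ j ih =>
      obtain ⟨v, hv, hvX⟩ := ih
      have hw0 : 0 ≤ ‖w‖ := norm_nonneg _
      have hwv : ‖w‖ ≤ ‖v‖ := by
        refine le_trans ?_ hv
        have : 1 ≤ q ^ j := one_le_pow₀ hq1.le
        nlinarith
      have hvE : v ∈ Ext := lt_of_lt_of_le hw hwv
      have hden : A.den v ≠ 0 := fun h => (hQ _ hvX).1 ((hqf v hvE).2 h)
      refine ⟨A.ev v, ?_, ?_⟩
      · have := hq v hwv hden
        rw [pow_succ]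
        calc q ^ j * q * ‖w‖ = q * (q ^ j * ‖w‖) := by ring
          _ ≤ q * ‖v‖ := by gcongr
          _ ≤ _ := this
      · rw [← (he.semi v hvE hden).2]
        exact (hQ _ hvX).2
  -- `φ v - v → 0`
  have hn1 := he.norm
  have hev : ∀ᶠ v in cocompact ℂ, ‖φ v - v‖ < 1 := by
    have := hn1 (ball_mem_nhds 0 one_pos)
    filter_upwards [this] with v hv
    simpa using hv
  rw [← Metric.cobounded_eq_cocompact, ← comap_norm_atTop] at hev
  obtain ⟨R, hR⟩ := (eventually_atTop.1 (eventually_comap.1 hev))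
  obtain ⟨M, hM⟩ := hX.exists_norm_le
  have hwp : 0 < ‖w‖ := lt_trans one_pos hw
  obtain ⟨j, hj⟩ := pow_unbounded_of_one_lt ((max R (M + 2)) / ‖w‖) hq1
  rw [div_lt_iff₀ hwp] at hj
  obtain ⟨v, hv, hvX⟩ := hind j
  have h4 : max R (M + 2) < ‖v‖ := lt_of_lt_of_le hj hv
  have h5 := hR ‖v‖ ((le_max_left _ _).trans h4.le) v rfl
  have h6 : M + 2 < ‖v‖ := lt_of_le_of_lt (le_max_right _ _) h4
  have h7 := hM _ hvX
  have h8 : ‖v‖ ≤ ‖φ v‖ + ‖φ v - v‖ := by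
    have := norm_sub_le (φ v) (φ v - v)
    simpa using this
  linarith

end STABaux

open STABaux in
theorem t_STAB (h1 : S_BL) (h2 : S_RTOP) (h3 : S_QFORM) : S_STAB := by
  intro n hn A B f φ ψ h hm ι l F Φ L hF hE hL hLs
  obtain ⟨r, hr0, hr1, hLr⟩ := small hm.contψ hm.injψ hL hLs
  obtain ⟨-, -, -, -, -, -, -, hexp, -⟩ := h1 n (by omega) B
  obtain ⟨q, hq1, hq⟩ := (hexp hn).1 r hr1
  set X := ψ '' closedBall 0 r with hX
  set O := ψ '' ball 0 r with hO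
  have hsub : closedBall (0 : ℂ) r ⊆ closedBall 0 1 := closedBall_subset_closedBall hr1.le
  have hXc : IsCompact X :=
    (isCompact_closedBall (0 : ℂ) r).image_of_continuousOn (hm.contψ.mono hsub)
  have hOo : IsOpen O := open_im hm.diffψ hm.injψ hr1.le
  have hOX : O ⊆ X := image_mono ball_subset_closedBall
  have hQX : ∀ x ∈ X, f.Q.eval x ≠ 0 := by
    rintro x ⟨z, hz, rfl⟩
    exact (hm.semiψ z (hsub hz)).1
  have hevX : ∀ x ∈ X, f.ev x ∈ O := by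
    rintro x ⟨z, hz, rfl⟩
    rw [(hm.semiψ z (hsub hz)).2]
    refine ⟨B.ev z, ?_, rfl⟩
    rw [mem_closedBall_zero_iff] at hz
    rw [mem_ball_zero_iff]
    have := hq z hz
    rcases (norm_nonneg z).eq_or_lt with h0 | h0
    · rw [← h0, mul_zero] at this
      linarith
    · have : q * ‖z‖ < 1 * ‖z‖ := by gcongr
      linarith
  filter_upwards [unif h2 hF hXc hOo hQX hevX, hE] with i hi hEi
  exact (escape h1 h3 hn hEi hXc.isBounded fun x hx => ⟨(hi x hx).1, hOX (hi x hx).2⟩).mono_left hLr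

end Pool.Agent.H212.MB
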