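import Pool.Agent.H212.MB.Stm3
import Pool.Graph.R_seed8.Helper114.MontelSol

/-!
# Project MB, job SURGA: the quasiconformal map of the surgery
-/

set_option autoImplicit false

open Filter Metric Set Topology MeasureTheory
open scoped ContDiff ComplexConjugate ENNReal

namespace Pool.Agent.H212.MB

namespace SURGAaux

/-! ### The cutoff -/

/-- the cutoff -/
noncomputable def chi (j : ℕ) (z : ℂ) : ℝ :=
  Real.smoothTransition (((j : ℝ) + 1) * (‖z‖ ^ 2 - 1) ^ 2 - 1)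

theorem chi_smooth (j : ℕ) : ContDiff ℝ ∞ (chi j) := by
  unfold chi
  exact Real.smoothTransition.contDiff.comp
    ((contDiff_const.mul (((contDiff_norm_sq ℝ).sub contDiff_const).pow 2)).sub contDiff_const)

theorem chi_nonneg (j : ℕ) (z : ℂ) : 0 ≤ chi j z := Real.smoothTransition.nonneg _

theorem chi_le_one (j : ℕ) (z : ℂ) : chi j z ≤ 1 := Real.smoothTransition.le_one _

theorem chi_zero {j : ℕ} {z : ℂ} (h : ((j : ℝ) + 1) * (‖z‖ ^ 2 - 1) ^ 2 ≤ 1) : chi j z = 0 :=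
  Real.smoothTransition.zero_of_nonpos (by linarith)

theorem chi_one {j : ℕ} {z : ℂ} (h : 2 ≤ ((j : ℝ) + 1) * (‖z‖ ^ 2 - 1) ^ 2) : chi j z = 1 :=
  Real.smoothTransition.one_of_one_le (by linarith)

/-- the coefficient in the coordinate of the piece -/
noncomputable def mm (j : ℕ) (φ S : ℂ → ℂ) (z : ℂ) : ℂ :=
  (chi j z : ℂ) * dzb S z * (dz S z)⁻¹ * deriv φ z * (conj (deriv φ z))⁻¹

theorem norm_mm_le {k : ℝ} {j : ℕ} {φ S : ℂ → ℂ} {z : ℂ} (hd : dz S z ≠ 0)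
    (h : ‖dzb S z‖ ≤ k * ‖dz S z‖) (hφ : deriv φ z ≠ 0) : ‖mm j φ S z‖ ≤ k := by
  have h1 : 0 < ‖dz S z‖ := norm_pos_iff.2 hd
  have h2 : 0 < ‖deriv φ z‖ := norm_pos_iff.2 hφ
  unfold mm
  rw [norm_mul, norm_mul, norm_mul, norm_mul, norm_inv, norm_inv, Complex.norm_conj,
    mul_assoc _ ‖deriv φ z‖ _, mul_inv_cancel₀ h2.ne', mul_one, Complex.norm_real,
    Real.norm_of_nonneg (chi_nonneg j z), ← div_eq_mul_inv, div_le_iff₀ h1]
  calc chi j z * ‖dzb S z‖ ≤ 1 * ‖dzb S z‖ :=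
        mul_le_mul_of_nonneg_right (chi_le_one j z) (norm_nonneg _)
    _ ≤ k * ‖dz S z‖ := by rw [one_mul]; exact h

/-- a piece of the surgery -/
structure Piece (k : ℝ) (D A : Set ℂ) (φ : ℂ → ℂ) (S : ℂ ≃ₜ ℂ) : Prop where
  isOpen : IsOpen D
  off : D ⊆ Off
  diff : DifferentiableOn ℂ φ D
  inj : InjOn φ D
  smooth : ContDiffOn ℝ ∞ S Off
  nd : ∀ z ∈ Off, dz S z ≠ 0
  dil : ∀ z ∈ Off, ‖dzb S z‖ ≤ k * ‖dz S z‖
  cpt : IsCompact A
  sub : A ∩ Off ⊆ D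
  zero : ∀ z ∈ D, z ∉ A → dzb S z = 0

namespace Piece

variable {k : ℝ} {D A : Set ℂ} {φ : ℂ → ℂ} {S : ℂ ≃ₜ ℂ} (h : Piece k D A φ S)
include h

theorem dne {z : ℂ} (hz : z ∈ D) : deriv φ z ≠ 0 :=
  Pool.Agent.Helper114.Montel.deriv_ne_zero_of_injOn h.isOpen φ h.diff h.inj hz

theorem strict {z : ℂ} (hz : z ∈ D) : HasStrictDerivAt φ (deriv φ z) z :=
  (h.diff.analyticAt (h.isOpen.mem_nhds hz)).hasStrictDerivAt

theorem image_mem {z : ℂ} {V : Set ℂ} (hz : z ∈ D) (hV : V ∈ 𝓝 z) : φ '' V ∈ 𝓝 (φ z) := by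
  rw [← (h.strict hz).map_nhds_eq (h.dne hz)]
  exact image_mem_map hV

theorem isOpen_image : IsOpen (φ '' D) := by
  rw [isOpen_iff_mem_nhds]
  rintro _ ⟨z, hz, rfl⟩
  exact h.image_mem hz (h.isOpen.mem_nhds hz)

theorem inv_diff : DifferentiableOn ℂ (Function.invFunOn φ D) (φ '' D) := by
  rintro _ ⟨z, hz, rfl⟩
  have h1 : Function.invFunOn φ D (φ z) = z := h.inj.leftInvOn_invFunOn hz
  have hc : ContinuousAt (Function.invFunOn φ D) (φ z) := by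
    unfold ContinuousAt
    rw [h1]
    intro V hV
    rw [mem_map]
    have h2 := h.image_mem hz (inter_mem hV (h.isOpen.mem_nhds hz))
    filter_upwards [h2]
    rintro _ ⟨x, hx, rfl⟩
    rw [mem_preimage, h.inj.leftInvOn_invFunOn hx.2]
    exact hx.1
  have hd := h.strict hz
  rw [← h1] at hd
  have h3 : ∀ᶠ y in 𝓝 (φ z), φ (Function.invFunOn φ D y) = y := by
    filter_upwards [h.isOpen_image.mem_nhds (mem_image_of_mem φ hz)] with y hy
    exact Function.invFunOn_eq hy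
  have h4 := hd.hasDerivAt.of_local_left_inverse hc (by rw [h1]; exact h.dne hz) h3
  exact h4.differentiableAt.differentiableWithinAt

theorem inv_smooth : ContDiffOn ℝ ∞ (Function.invFunOn φ D) (φ '' D) :=
  (h.inv_diff.contDiffOn h.isOpen_image).restrict_scalars ℝ

theorem mm_smooth (j : ℕ) : ContDiffOn ℝ ∞ (mm j φ S) D := by
  have h1 : ContDiffOn ℝ ∞ (fun z => fderiv ℝ S z) D :=
    (h.smooth.mono h.off).fderiv_of_isOpen h.isOpen (by exact_mod_cast le_rfl)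
  have h2 : ContDiffOn ℝ ∞ (fun z => dz S z) D := by
    unfold dz
    exact ((h1.clm_apply contDiffOn_const).sub
      (contDiffOn_const.mul (h1.clm_apply contDiffOn_const))).div_const _
  have h3 : ContDiffOn ℝ ∞ (fun z => dzb S z) D := by
    unfold dzb
    exact ((h1.clm_apply contDiffOn_const).add
      (contDiffOn_const.mul (h1.clm_apply contDiffOn_const))).div_const _
  have h4 : ContDiffOn ℝ ∞ (fun z => deriv φ z) D :=
    ((h.diff.deriv h.isOpen).contDiffOn h.isOpen).restrict_scalars ℝ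
  have h5 : ContDiffOn ℝ ∞ (fun z => conj (deriv φ z)) D :=
    Complex.conjCLE.contDiff.comp_contDiffOn h4
  have h6 : ContDiffOn ℝ ∞ (fun z => ((chi j z : ℝ) : ℂ)) D :=
    (Complex.ofRealCLM.contDiff.comp (chi_smooth j)).contDiffOn
  unfold mm
  exact (((h6.mul h3).mul (h2.inv fun z hz => h.nd z (h.off hz))).mul h4).mul
    (h5.inv fun z hz => by
      rw [Ne, map_eq_zero]
      exact h.dne hz)

/-- the support -/
theorem cptK (j : ℕ) : IsCompact (A ∩ {z : ℂ | 1 ≤ ((j : ℝ) + 1) * (‖z‖ ^ 2 - 1) ^ 2}) :=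
  h.cpt.inter_right (isClosed_le continuous_const (by fun_prop))

theorem subK (j : ℕ) : A ∩ {z : ℂ | 1 ≤ ((j : ℝ) + 1) * (‖z‖ ^ 2 - 1) ^ 2} ⊆ D := by
  rintro z ⟨hz, hz'⟩
  apply h.sub
  refine ⟨hz, fun h1 => ?_⟩
  rw [mem_ofPred_eq, h1] at hz'
  norm_num at hz'

theorem mm_zero (j : ℕ) {z : ℂ} (hz : z ∈ D)
    (hz' : z ∉ A ∩ {z : ℂ | 1 ≤ ((j : ℝ) + 1) * (‖z‖ ^ 2 - 1) ^ 2}) : mm j φ S z = 0 := by
  unfold mm
  by_cases hA : z ∈ A
  · have h1 : ¬ 1 ≤ ((j : ℝ) + 1) * (‖z‖ ^ 2 - 1) ^ 2 := fun h2 => hz' ⟨hA, h2⟩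
    rw [chi_zero (not_le.1 h1).le]
    simp
  · rw [h.zero z hz hA]
    simp

/-- the coefficient in the plane -/
theorem mu_ex (hk0 : 0 ≤ k) (j : ℕ) : ∃ μ : ℂ → ℂ, ContDiff ℝ ∞ μ ∧ HasCompactSupport μ ∧
    (∀ w, ‖μ w‖ ≤ k) ∧ (∀ w, w ∉ φ '' (A ∩ D) → μ w = 0) ∧ ∀ z ∈ D, μ (φ z) = mm j φ S z := by
  classical
  obtain ⟨K, hK⟩ : ∃ K : Set ℂ, K = A ∩ {z : ℂ | 1 ≤ ((j : ℝ) + 1) * (‖z‖ ^ 2 - 1) ^ 2} := ⟨_, rfl⟩
  have hKc : IsCompact K := hK ▸ h.cptK j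
  have hKD : K ⊆ D := hK ▸ h.subK j
  have hKA : K ⊆ A ∩ D := fun z hz => ⟨by rw [hK] at hz; exact hz.1, hKD hz⟩
  have hKz : ∀ z ∈ D, z ∉ K → mm j φ S z = 0 := fun z hz hz' => h.mm_zero j hz (hK ▸ hz')
  have hKi : IsCompact (φ '' K) := hKc.image_of_continuousOn (h.diff.continuousOn.mono hKD)
  have hleft : ∀ z ∈ D, Function.invFunOn φ D (φ z) = z := fun z hz => h.inj.leftInvOn_invFunOn hz
  obtain ⟨μ, hμ⟩ : ∃ μ : ℂ → ℂ, μ = fun w =>
    if w ∈ φ '' D then mm j φ S (Function.invFunOn φ D w) else 0 := ⟨_, rfl⟩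
  have hin : ∀ z ∈ D, μ (φ z) = mm j φ S z := by
    intro z hz
    rw [hμ]
    change (if φ z ∈ φ '' D then _ else _) = _
    rw [if_pos (mem_image_of_mem φ hz), hleft z hz]
  have hout : ∀ w, w ∉ φ '' K → μ w = 0 := by
    intro w hw
    by_cases hwD : w ∈ φ '' D
    · obtain ⟨z, hz, rfl⟩ := hwD
      rw [hin z hz]
      exact hKz z hz fun hzK => hw (mem_image_of_mem φ hzK)
    · rw [hμ]
      exact if_neg hwD
  refine ⟨μ, ?_, HasCompactSupport.intro hKi hout, fun w => ?_, fun w hw => ?_, hin⟩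
  · rw [contDiff_iff_contDiffAt]
    intro w
    by_cases hwD : w ∈ φ '' D
    · have h1 : ContDiffOn ℝ ∞ (fun w => mm j φ S (Function.invFunOn φ D w)) (φ '' D) := by
        refine (h.mm_smooth j).comp h.inv_smooth ?_
        rintro _ ⟨z, hz, rfl⟩
        rw [hleft z hz]
        exact hz
      refine (h1.contDiffAt (h.isOpen_image.mem_nhds hwD)).congr_of_eventuallyEq ?_
      filter_upwards [h.isOpen_image.mem_nhds hwD] with y hy
      rw [hμ]
      exact if_pos hy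
    · have h1 : w ∉ φ '' K := fun h2 => hwD (image_mono hKD h2)
      refine (contDiffAt_const (c := (0 : ℂ))).congr_of_eventuallyEq ?_
      filter_upwards [hKi.isClosed.isOpen_compl.mem_nhds h1] with y hy
      exact hout y hy
  · by_cases hwD : w ∈ φ '' D
    · obtain ⟨z, hz, rfl⟩ := hwD
      rw [hin z hz]
      exact norm_mm_le (h.nd z (h.off hz)) (h.dil z (h.off hz)) (h.dne hz)
    · rw [hout w fun h2 => hwD (image_mono hKD h2), norm_zero]
      exact hk0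
  · exact hout w fun h2 => hw (image_mono hKA h2)

/-- the map in the coordinate of the piece is holomorphic -/
theorem hol (hk1 : k < 1) {j : ℕ} {μ H : ℂ → ℂ} (hH : Differentiable ℝ H)
    (hb : ∀ w, dzb H w = μ w * dz H w) {z : ℂ} (hz : z ∈ D) (hχ : chi j z = 1)
    (hμ : μ (φ z) = mm j φ S z) : DifferentiableAt ℂ (fun w => H (φ (S.symm w))) (S z) := by
  have hzO := h.off hz
  have hlt : ‖dzb S z‖ < ‖dz S z‖ := norm_dzb_lt hk1 (h.nd z hzO) (h.dil z hzO)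
  have hSd : DifferentiableAt ℝ S z :=
    ((h.smooth.contDiffAt (isOpen_Off.mem_nhds hzO)).differentiableAt (by simp))
  have hS1 : HasFDerivAt S ((LLe hlt : ℂ ≃L[ℝ] ℂ) : ℂ →L[ℝ] ℂ) (S.symm (S z)) := by
    rw [LLe_coe, S.symm_apply_apply]
    exact hasFDerivAt_LL hSd
  have hS2 : HasFDerivAt S.symm (((LLe hlt).symm : ℂ ≃L[ℝ] ℂ) : ℂ →L[ℝ] ℂ) (S z) :=
    HasFDerivAt.of_local_left_inverse S.symm.continuous.continuousAt hS1
      (Eventually.of_forall fun y => S.apply_symm_apply y)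
  have hφ : HasDerivAt φ (deriv φ z) z := (h.strict hz).hasDerivAt
  obtain ⟨hG1, hG2⟩ := dz_comp_right (hH (φ z)) hφ
  have hGd : DifferentiableAt ℝ (H ∘ φ) z :=
    (hH (φ z)).comp z (hφ.differentiableAt.restrictScalars ℝ)
  have hα : dz S z ≠ 0 := h.nd z hzO
  have hφ0 : conj (deriv φ z) ≠ 0 := by
    rw [Ne, map_eq_zero]
    exact h.dne hz
  have hG3 : dzb (H ∘ φ) z = dzb S z * (dz S z)⁻¹ * dz (H ∘ φ) z := by
    rw [hG2, hG1, hb, hμ]
    unfold mm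
    rw [hχ]
    field_simp
    push_cast
    ring
  have hG : HasFDerivAt (H ∘ φ) (LL (dz (H ∘ φ) z) (dzb (H ∘ φ) z)) (S.symm (S z)) := by
    rw [S.symm_apply_apply]
    exact hasFDerivAt_LL hGd
  have hF := hG.comp (S z) hS2
  have hL : (LL (dz (H ∘ φ) z) (dzb (H ∘ φ) z)).comp
      (((LLe hlt).symm : ℂ ≃L[ℝ] ℂ) : ℂ →L[ℝ] ℂ) = LL (dz (H ∘ φ) z * (dz S z)⁻¹) 0 := by
    apply ContinuousLinearMap.ext
    intro v
    obtain ⟨w, rfl⟩ := (LLe hlt).surjective v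
    rw [ContinuousLinearMap.comp_apply]
    have e1 : (((LLe hlt).symm : ℂ ≃L[ℝ] ℂ) : ℂ →L[ℝ] ℂ) (LLe hlt w) = w :=
      (LLe hlt).symm_apply_apply w
    rw [e1, LL_apply, LL_apply, LLe_apply, hG3]
    field_simp
    ring
  rw [hL] at hF
  have h5 := hasDerivAt_of_dzb hF.differentiableAt (dz_of hF).2
  exact h5.differentiableAt

/-- the limit is holomorphic in the coordinate of the piece -/
theorem hol_lim (hk1 : k < 1) (μ : ℕ → ℂ → ℂ) (H : ℕ → ℂ ≃ₜ ℂ) (hH : ∀ j, Differentiable ℝ (H j))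
    (hb : ∀ j w, dzb (H j) w = μ j w * dz (H j) w) (hμ : ∀ j, ∀ z ∈ D, μ j (φ z) = mm j φ S z)
    (L : ℂ ≃ₜ ℂ) (hL : TendstoLocallyUniformly (fun j z => H j z) (fun z => L z)
      (hyperfilter ℕ : Filter ℕ)) : DifferentiableOn ℂ (fun w => L (φ (S.symm w))) (S '' D) := by
  rintro _ ⟨z₀, hz₀, rfl⟩
  obtain ⟨δ, hδ⟩ : ∃ δ : ℝ, δ = (‖z₀‖ ^ 2 - 1) ^ 2 := ⟨_, rfl⟩
  have hδ0 : 0 < δ := by
    have h1 : ‖z₀‖ ≠ 1 := h.off hz₀
    have h2 : ‖z₀‖ ^ 2 - 1 ≠ 0 := by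
      intro h3
      have h4 : (‖z₀‖ - 1) * (‖z₀‖ + 1) = 0 := by linear_combination h3
      rcases mul_eq_zero.1 h4 with h5 | h5
      · exact h1 (by linarith)
      · have := norm_nonneg z₀
        linarith
    rw [hδ]
    positivity
  obtain ⟨V, hV⟩ : ∃ V : Set ℂ, V = D ∩ {z : ℂ | δ / 2 < (‖z‖ ^ 2 - 1) ^ 2} := ⟨_, rfl⟩
  have hVo : IsOpen V := by
    rw [hV]
    exact h.isOpen.inter (isOpen_lt continuous_const (by fun_prop))
  have hVz : z₀ ∈ V := by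
    rw [hV]
    refine ⟨hz₀, ?_⟩
    rw [mem_ofPred_eq, ← hδ]
    linarith
  have hΩ : IsOpen (S '' V) := S.isOpenMap V hVo
  have hloc : TendstoLocallyUniformlyOn (fun j w => H j (φ (S.symm w))) (fun w => L (φ (S.symm w)))
      (hyperfilter ℕ : Filter ℕ) (S '' V) := by
    have h1 := hL.tendstoLocallyUniformlyOn (s := univ)
    refine h1.comp (fun w => φ (S.symm w)) (mapsTo_univ _ _) ?_
    refine h.diff.continuousOn.comp S.symm.continuous.continuousOn ?_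
    rintro _ ⟨z, hz, rfl⟩
    rw [S.symm_apply_apply]
    rw [hV] at hz
    exact hz.1
  have hev : ∀ᶠ j in (hyperfilter ℕ : Filter ℕ),
      DifferentiableOn ℂ (fun w => H j (φ (S.symm w))) (S '' V) := by
    have h1 : ∀ᶠ j : ℕ in atTop, 4 / δ ≤ (j : ℝ) :=
      tendsto_natCast_atTop_atTop.eventually_ge_atTop _
    have h2 : (hyperfilter ℕ : Filter ℕ) ≤ atTop := by
      rw [← Nat.cofinite_eq_atTop]
      exact hyperfilter_le_cofinite
    filter_upwards [h2 h1] with j hj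
    rintro _ ⟨z, hz, rfl⟩
    rw [hV] at hz
    have hz2 : δ / 2 < (‖z‖ ^ 2 - 1) ^ 2 := hz.2
    have hχ : chi j z = 1 := by
      apply chi_one
      have h3 : 4 ≤ (j : ℝ) * δ := by
        rwa [div_le_iff₀ hδ0] at hj
      nlinarith
    exact (h.hol hk1 (hH j) (hb j) hz.1 hχ (hμ j z hz.1)).differentiableWithinAt
  have h3 := hloc.differentiableOn hev hΩ
  exact ((h3 _ (mem_image_of_mem _ hVz)).differentiableAt
    (hΩ.mem_nhds (mem_image_of_mem _ hVz))).differentiableWithinAt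

end Piece

/-- Normalisation at infinity. -/
theorem at_inf (hSIG : S_SIG) {H : ℂ → ℂ} (hH : Differentiable ℝ H) (hi : Function.Injective H)
    {R : ℝ} (hR : 1 ≤ R) (hb : ∀ w, R < ‖w‖ → dzb H w = 0)
    (hn : Tendsto (fun z => H z - z) (cocompact ℂ) (𝓝 0)) (z : ℂ) (hz : 2 * R ≤ ‖z‖) :
    ‖H z - z‖ ≤ 2 * R ^ 2 / ‖z‖ := by
  have hR0 : 0 < R := by linarith
  have hRC : (R : ℂ) ≠ 0 := by exact_mod_cast hR0.ne'
  have hsig : Sig (fun z => H (R * z) / R) := by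
    refine ⟨?_, ?_, ?_⟩
    · intro w hw
      have h1 : R < ‖(R : ℂ) * w‖ := by
        rw [norm_mul, Complex.norm_real, Real.norm_of_nonneg hR0.le]
        have : 1 < ‖w‖ := hw
        nlinarith
      have h2 : DifferentiableAt ℂ H (R * w) := (hasDerivAt_of_dzb (hH _) (hb _ h1)).differentiableAt
      exact ((h2.comp w (differentiableAt_id.const_mul (R : ℂ))).div_const _).differentiableWithinAt
    · intro a _ b _ hab
      have h1 : H (R * a) = H (R * b) := by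
        have := hab
        simp only [div_left_inj' hRC] at this
        exact this
      exact mul_left_cancel₀ hRC (hi h1)
    · have h1 : Tendsto (fun z : ℂ => (R : ℂ) * z) (cocompact ℂ) (cocompact ℂ) :=
        (Homeomorph.mulLeft₀ (R : ℂ) hRC).isClosedEmbedding.tendsto_cocompact
      have h2 := (hn.comp h1).div_const (R : ℂ)
      rw [zero_div] at h2
      refine h2.congr fun w => ?_
      simp only [Function.comp_apply]
      field_simp
  have h1 := (hSIG _ hsig).1 (z / R) (by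
    rw [norm_div, Complex.norm_real, Real.norm_of_nonneg hR0.le, le_div_iff₀ hR0]
    exact hz)
  rw [mul_div_cancel₀ _ hRC, norm_div, Complex.norm_real, Real.norm_of_nonneg hR0.le,
    ← sub_div, norm_div, Complex.norm_real, Real.norm_of_nonneg hR0.le] at h1
  have hz0 : 0 < ‖z‖ := by linarith
  rw [div_le_iff₀ hR0] at h1
  refine h1.trans (le_of_eq ?_)
  field_simp

/-- the piece of the exterior -/
theorem piece_ext {n : ℕ} {A₁ A₂ : Blaschke n} {k : ℝ} {S : ℂ ≃ₜ ℂ} {φ : ℂ → ℂ}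
    (hφ : DifferentiableOn ℂ φ Ext) (hi : InjOn φ Ext) (hS : IsTr A₁ A₂ k S) :
    ∃ ρ : ℝ, Piece k Ext {z | 1 ≤ ‖z‖ ∧ ‖z‖ ≤ ρ} φ S := by
  obtain ⟨ρ, hρ1, hρ2, -⟩ := hS.ident
  refine ⟨ρ, isOpen_Ext, Ext_subset_Off, hφ, hi, hS.smooth, hS.nd, hS.dil, ?_, ?_, ?_⟩
  · refine (isCompact_closedBall (0 : ℂ) ρ).of_isClosed_subset
      ((isClosed_le continuous_const continuous_norm).inter
        (isClosed_le continuous_norm continuous_const)) ?_
    rintro z ⟨-, hz⟩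
    simpa using hz
  · rintro z ⟨⟨h1, -⟩, h2⟩
    exact lt_of_le_of_ne h1 (Ne.symm h2)
  · intro z hz hz'
    have h1 : ρ < ‖z‖ := by
      by_contra h2
      exact hz' ⟨le_of_lt hz, not_lt.1 h2⟩
    have h3 : (S : ℂ → ℂ) =ᶠ[𝓝 z] fun z => z := by
      filter_upwards [(isOpen_lt continuous_const continuous_norm).mem_nhds h1] with y hy
      exact hρ2 y (le_of_lt hy)
    rw [(dz_congr h3).2]
    exact (dz_of_hasDerivAt (hasDerivAt_id z)).2

/-- the piece of the disc -/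
theorem piece_ball {n : ℕ} {A₁ A₂ : Blaschke n} {k : ℝ} {S : ℂ ≃ₜ ℂ} {ψ : ℂ → ℂ}
    (hψ : DifferentiableOn ℂ ψ (ball 0 1)) (hi : InjOn ψ (ball 0 1)) (hS : IsTr A₁ A₂ k S) :
    Piece k (ball 0 1) (closedBall 0 1) ψ S := by
  refine ⟨isOpen_ball, ball_subset_Off, hψ, hi, hS.smooth, hS.nd, hS.dil,
    isCompact_closedBall _ _, ?_, fun z hz hz' => absurd (ball_subset_closedBall hz) hz'⟩
  rintro z ⟨h1, h2⟩
  rw [mem_closedBall_zero_iff] at h1
  rw [mem_ball_zero_iff]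
  exact lt_of_le_of_ne h1 h2

end SURGAaux

open SURGAaux in
theorem t_SURGA (h1 : S_QSLIM) (h2 : S_LA) (h3 : S_MRMT) (h4 : S_SIG) : S_SURGA := by
  intro k hk0 hk1
  obtain ⟨C, hC0, hC⟩ := h2 k hk0 hk1
  refine ⟨C, ?_⟩
  intro n A₁ A₂ B₁ B₂ f φ ψ h S S' hM hS hS'
  have hψi : InjOn ψ (ball 0 1) := hM.injψ.mono ball_subset_closedBall
  obtain ⟨ρ, hP⟩ := piece_ext hM.ext.diff hM.ext.inj hS
  have hP' := piece_ball hM.diffψ hψi hS'
  obtain ⟨A, hA⟩ : ∃ A : Set ℂ, A = {z : ℂ | 1 ≤ ‖z‖ ∧ ‖z‖ ≤ ρ} := ⟨_, rfl⟩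
  rw [← hA] at hP
  -- the coefficients
  choose μ₁ hμ₁ using fun j => hP.mu_ex hk0 j
  choose μ₂ hμ₂ using fun j => hP'.mu_ex hk0 j
  have hdis : ∀ w, w ∈ φ '' Ext → w ∉ ψ '' closedBall 0 1 := fun w hw => by
    rw [hM.compl] at hw
    exact hw
  have hz1 : ∀ j w, w ∉ φ '' Ext → μ₁ j w = 0 := fun j w hw =>
    (hμ₁ j).2.2.2.1 w fun h => hw (image_mono inter_subset_right h)
  have hz2 : ∀ j w, w ∈ φ '' Ext → μ₂ j w = 0 := fun j w hw =>
    (hμ₂ j).2.2.2.1 w fun h => hdis w hw (image_mono inter_subset_left h)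
  have hbd : ∀ j w, ‖μ₁ j w + μ₂ j w‖ ≤ k := by
    intro j w
    by_cases hw : w ∈ φ '' Ext
    · rw [hz2 j w hw, add_zero]
      exact (hμ₁ j).2.2.1 w
    · rw [hz1 j w hw, zero_add]
      exact (hμ₂ j).2.2.1 w
  choose H hH3 hHb hHn using fun j => h3 (fun w => μ₁ j w + μ₂ j w) k hk1
    ((hμ₁ j).1.add (hμ₂ j).1) ((hμ₁ j).2.1.add (hμ₂ j).2.1) (hbd j)
  have hHd : ∀ j, Differentiable ℝ (H j) := fun j => (hH3 j).differentiable (by norm_num)
  have hqc : ∀ j, QCOff k (H j) := fun j => by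
    refine ⟨((hH3 j).of_le (by norm_num)).contDiffOn, fun z _ => (hHb j z).1, fun z _ => ?_⟩
    rw [(hHb j z).2, norm_mul]
    exact mul_le_mul_of_nonneg_right (hbd j z) (norm_nonneg _)
  -- a bound for the supports
  obtain ⟨R, hR1, hR⟩ : ∃ R : ℝ, 1 ≤ R ∧ ∀ j w, R < ‖w‖ → μ₁ j w + μ₂ j w = 0 := by
    have e1 : IsCompact (φ '' A) := by
      refine hP.cpt.image_of_continuousOn (hM.contφ.mono ?_)
      rw [hA]
      exact fun z hz => hz.1
    have e2 : IsCompact (ψ '' closedBall 0 1) :=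
      (isCompact_closedBall _ _).image_of_continuousOn hM.contψ
    obtain ⟨R₁, hR₁⟩ := e1.isBounded.exists_norm_le
    obtain ⟨R₂, hR₂⟩ := e2.isBounded.exists_norm_le
    refine ⟨max 1 (max R₁ R₂), le_max_left _ _, fun j w hw => ?_⟩
    have e3 : R₁ < ‖w‖ := lt_of_le_of_lt ((le_max_left _ _).trans (le_max_right _ _)) hw
    have e4 : R₂ < ‖w‖ := lt_of_le_of_lt ((le_max_right _ _).trans (le_max_right _ _)) hw
    rw [(hμ₁ j).2.2.2.1 w fun h => absurd (hR₁ w (image_mono inter_subset_left h)) (not_le.2 e3),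
      (hμ₂ j).2.2.2.1 w fun h => absurd (hR₂ w (image_mono inter_subset_left h)) (not_le.2 e4),
      add_zero]
  have hR0 : 0 < R := by linarith
  have hnear : ∀ j z, 2 * R ≤ ‖z‖ → ‖H j z - z‖ ≤ 2 * R ^ 2 / ‖z‖ := fun j =>
    at_inf h4 (hHd j) (H j).injective hR1 (fun w hw => by rw [(hHb j w).2, hR j w hw, zero_mul])
      (hHn j)
  -- the limit
  have hn2 : ‖((2 * R : ℝ) : ℂ)‖ = 2 * R := by
    rw [Complex.norm_real, Real.norm_of_nonneg (by positivity)]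
  have hn8 : ‖((8 * R : ℝ) : ℂ)‖ = 8 * R := by
    rw [Complex.norm_real, Real.norm_of_nonneg (by positivity)]
  have hn6 : ‖((2 * R : ℝ) : ℂ) - ((8 * R : ℝ) : ℂ)‖ = 6 * R := by
    rw [← Complex.ofReal_sub, Complex.norm_real, Real.norm_eq_abs, abs_of_neg (by linarith)]
    ring
  have hinv : (9 * R)⁻¹ ≤ 1 := inv_le_one_of_one_le₀ (by linarith)
  obtain ⟨L, hL1, hL2, -⟩ := h1 C (9 * R) (by positivity) ℕ (hyperfilter ℕ) H
    (fun _ => ((2 * R : ℝ) : ℂ)) (fun _ => ((8 * R : ℝ) : ℂ)) (Eventually.of_forall fun j => by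
      have e1 := hnear j ((2 * R : ℝ) : ℂ) hn2.ge
      have e2 := hnear j ((8 * R : ℝ) : ℂ) (by rw [hn8]; linarith)
      rw [hn2, show 2 * R ^ 2 / (2 * R) = R by field_simp] at e1
      rw [hn8, show 2 * R ^ 2 / (8 * R) = R / 4 by field_simp; norm_num] at e2
      have e3 : ‖H j ((2 * R : ℝ) : ℂ)‖ ≤ ‖H j ((2 * R : ℝ) : ℂ) - ((2 * R : ℝ) : ℂ)‖ +
          ‖((2 * R : ℝ) : ℂ)‖ := by
        have := norm_add_le (H j ((2 * R : ℝ) : ℂ) - ((2 * R : ℝ) : ℂ)) ((2 * R : ℝ) : ℂ)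
        rwa [sub_add_cancel] at this
      have e4 : ‖H j ((8 * R : ℝ) : ℂ)‖ ≤ ‖H j ((8 * R : ℝ) : ℂ) - ((8 * R : ℝ) : ℂ)‖ +
          ‖((8 * R : ℝ) : ℂ)‖ := by
        have := norm_add_le (H j ((8 * R : ℝ) : ℂ) - ((8 * R : ℝ) : ℂ)) ((8 * R : ℝ) : ℂ)
        rwa [sub_add_cancel] at this
      have e5 : ‖((2 * R : ℝ) : ℂ) - ((8 * R : ℝ) : ℂ)‖ ≤
          ‖H j ((2 * R : ℝ) : ℂ) - H j ((8 * R : ℝ) : ℂ)‖ +
          ‖H j ((2 * R : ℝ) : ℂ) - ((2 * R : ℝ) : ℂ)‖ +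
          ‖H j ((8 * R : ℝ) : ℂ) - ((8 * R : ℝ) : ℂ)‖ := by
        have e6 : ((2 * R : ℝ) : ℂ) - ((8 * R : ℝ) : ℂ) =
            (H j ((2 * R : ℝ) : ℂ) - H j ((8 * R : ℝ) : ℂ)) -
            (H j ((2 * R : ℝ) : ℂ) - ((2 * R : ℝ) : ℂ)) +
            (H j ((8 * R : ℝ) : ℂ) - ((8 * R : ℝ) : ℂ)) := by ring
        rw [e6]
        refine (norm_add_le _ _).trans ?_
        gcongr
        exact norm_sub_le _ _
      rw [hn2] at e3
      rw [hn8] at e4
      rw [hn6] at e5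
      refine ⟨(hC _ (hqc j)).1, ?_, ?_, ?_, ?_, ?_, ?_⟩
      · rw [hn2]; linarith
      · rw [hn8]; linarith
      · rw [hn6]; linarith
      · linarith
      · linarith
      · linarith)
  have hLz : ∀ z, 2 * R ≤ ‖z‖ → ‖L z - z‖ ≤ 2 * R ^ 2 / ‖z‖ := by
    intro z hz
    have e1 : Tendsto (fun j => H j z) (hyperfilter ℕ : Filter ℕ) (𝓝 (L z)) :=
      hL2.tendstoLocallyUniformlyOn.tendsto_at (mem_univ z)
    have e2 := (e1.sub_const z).norm
    exact le_of_tendsto e2 (Eventually.of_forall fun j => hnear j z hz)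
  refine ⟨L, fun w => L (φ (S.symm w)), fun w => L (ψ (S'.symm w)), hL1, ?_, ?_, ?_, ?_, ?_⟩
  · rw [tendsto_zero_iff_norm_tendsto_zero]
    have e1 : Tendsto (fun z : ℂ => 2 * R ^ 2 / ‖z‖) (cocompact ℂ) (𝓝 0) :=
      tendsto_norm_cocompact_atTop.const_div_atTop _
    refine tendsto_of_tendsto_of_tendsto_of_le_of_le' tendsto_const_nhds e1
      (Eventually.of_forall fun z => norm_nonneg _) ?_
    filter_upwards [tendsto_norm_cocompact_atTop.eventually_ge_atTop (2 * R)] with z hz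
    exact hLz z hz
  · have e1 := hP.hol_lim hk1 (fun j w => μ₁ j w + μ₂ j w) H hHd (fun j w => (hHb j w).2)
      (fun j z hz => by
        rw [hz2 j _ (mem_image_of_mem φ hz), add_zero]
        exact (hμ₁ j).2.2.2.2 z hz) L hL2
    refine e1.mono fun w hw => ⟨S.symm w, ?_, S.apply_symm_apply w⟩
    change 1 < ‖S.symm w‖
    rw [← hS.out, S.apply_symm_apply]
    exact hw
  · intro z _
    change L (φ z) = L (φ (S.symm (S z)))
    rw [S.symm_apply_apply]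
  · have e1 := hP'.hol_lim hk1 (fun j w => μ₁ j w + μ₂ j w) H hHd (fun j w => (hHb j w).2)
      (fun j z hz => by
        rw [hz1 j _ fun h => hdis _ h (mem_image_of_mem ψ (ball_subset_closedBall hz)), zero_add]
        exact (hμ₂ j).2.2.2.2 z hz) L hL2
    refine e1.mono fun w hw => ⟨S'.symm w, ?_, S'.apply_symm_apply w⟩
    rw [mem_ball_zero_iff, ← hS'.inn, S'.apply_symm_apply]
    rwa [mem_ball_zero_iff] at hw
  · intro z _
    change L (ψ z) = L (ψ (S'.symm (S' z)))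
    rw [S'.symm_apply_apply]

end Pool.Agent.H212.MB
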