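import Pool.Agent.H212.MB.Stm2

/-!
# TRALG: identity, inverse and composition of transition maps (helper249)
-/

set_option autoImplicit false

open Filter Metric Set Topology MeasureTheory
open scoped ContDiff ComplexConjugate

namespace Pool.Agent.H212.MB

namespace TRALGaux

/-- neighbourhoods of the circle contain rings -/
theorem ring_subset {O : Set ℂ} (hO : IsOpen O) (h : ∀ z : ℂ, ‖z‖ = 1 → z ∈ O) :
    ∃ ρ : ℝ, 1 < ρ ∧ ∀ z : ℂ, ρ⁻¹ < ‖z‖ → ‖z‖ < ρ → z ∈ O := by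
  have hsub : sphere (0 : ℂ) 1 ⊆ O := fun z hz => h z (mem_sphere_zero_iff_norm.1 hz)
  obtain ⟨δ, hδ, hδ'⟩ := (isCompact_sphere (0 : ℂ) 1).exists_thickening_subset_open hO hsub
  refine ⟨1 + min δ 1, by have := lt_min hδ one_pos; linarith, fun z h1 h2 => ?_⟩
  apply hδ'
  have hm : 0 < min δ 1 := lt_min hδ one_pos
  have h3 : 1 - min δ 1 ≤ (1 + min δ 1)⁻¹ := by
    rw [← one_div, le_div_iff₀ (by linarith)]
    nlinarith
  have hz0 : 0 < ‖z‖ := lt_trans (by positivity) h1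
  rw [mem_thickening_iff]
  refine ⟨((‖z‖⁻¹ : ℝ) : ℂ) * z, ?_, ?_⟩
  · rw [mem_sphere_zero_iff_norm, norm_mul, Complex.norm_real, norm_inv, norm_norm,
      inv_mul_cancel₀ hz0.ne']
  · rw [dist_eq_norm]
    have h4 : z - ((‖z‖⁻¹ : ℝ) : ℂ) * z = ((1 - ‖z‖⁻¹ : ℝ) : ℂ) * z := by
      push_cast
      ring
    rw [h4, norm_mul, Complex.norm_real, Real.norm_eq_abs]
    have h5 : |1 - ‖z‖⁻¹| * ‖z‖ = |‖z‖ - 1| := by
      rw [← abs_of_pos hz0, ← abs_mul, abs_of_pos hz0, sub_mul, inv_mul_cancel₀ hz0.ne', one_mul]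
    rw [h5, abs_lt]
    have h6 := min_le_left δ (1 : ℝ)
    constructor <;> linarith

/-- a continuous map which preserves the circle maps points near the circle to points near the
circle -/
theorem near {f : ℂ → ℂ} (hf : Continuous f) (h : ∀ z : ℂ, ‖z‖ = 1 → ‖f z‖ = 1) {ρ : ℝ}
    (hρ : 1 < ρ) : ∃ ρ' : ℝ, 1 < ρ' ∧ ∀ z : ℂ, ρ'⁻¹ < ‖z‖ → ‖z‖ < ρ' → ρ⁻¹ < ‖f z‖ ∧ ‖f z‖ < ρ := by
  have hO : IsOpen {z : ℂ | ρ⁻¹ < ‖f z‖ ∧ ‖f z‖ < ρ} :=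
    (isOpen_lt continuous_const hf.norm).inter (isOpen_lt hf.norm continuous_const)
  refine ring_subset hO fun z hz => ?_
  show ρ⁻¹ < ‖f z‖ ∧ ‖f z‖ < ρ
  rw [h z hz]
  exact ⟨inv_lt_one_of_one_lt₀ hρ, hρ⟩

theorem den_ne {n : ℕ} (A : Blaschke n) : ∃ ρ : ℝ, 1 < ρ ∧ ∀ z : ℂ, ‖z‖ < ρ → A.den z ≠ 0 := by
  have h1 : ∀ᶠ ρ : ℝ in 𝓝[>] 1, ∀ i, ρ * ‖A.a i‖ < 1 := by
    rw [eventually_all]
    intro i
    have h2 : Tendsto (fun ρ : ℝ => ρ * ‖A.a i‖) (𝓝[>] 1) (𝓝 (1 * ‖A.a i‖)) :=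
      ((continuous_id.mul continuous_const).tendsto 1).mono_left nhdsWithin_le_nhds
    refine h2.eventually_lt_const ?_
    rw [one_mul]
    exact A.norm_a i
  obtain ⟨ρ, h2, h3⟩ := (h1.and self_mem_nhdsWithin).exists
  refine ⟨ρ, h3, fun z hz => ?_⟩
  unfold Blaschke.den
  rw [Finset.prod_ne_zero_iff]
  intro i _ h0
  have h4 : ‖conj (A.a i) * z‖ = 1 := by
    rw [← sub_eq_zero.1 h0, norm_one]
  rw [norm_mul, Complex.norm_conj] at h4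
  have h5 : ‖A.a i‖ * ‖z‖ ≤ ρ * ‖A.a i‖ := by
    rw [mul_comm ρ]
    gcongr
  linarith [h2 i]

/-- lifts of circle homeomorphisms are onto -/
theorem lift_inv {t : ℝ → ℝ} (hc : Continuous t) (hm : StrictMono t)
    (hp : ∀ x, t (x + 2 * Real.pi) = t x + 2 * Real.pi) :
    ∃ s : ℝ → ℝ, Continuous s ∧ StrictMono s ∧ (∀ x, s (x + 2 * Real.pi) = s x + 2 * Real.pi) ∧
      ∀ x, t (s x) = x := by
  have hpi := Real.pi_pos
  have hn : ∀ (n : ℤ) (x : ℝ), t (x + n * (2 * Real.pi)) = t x + n * (2 * Real.pi) := by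
    intro n
    induction n using Int.induction_on with
    | zero => intro x; simp
    | succ n ih =>
      intro x
      have h1 := hp (x + n * (2 * Real.pi))
      have h2 := ih x
      push_cast at h2 ⊢
      rw [show x + ((n : ℝ) + 1) * (2 * Real.pi) = x + n * (2 * Real.pi) + 2 * Real.pi by ring,
        h1, h2]
      ring
    | pred n ih =>
      intro x
      have h1 := hp (x + (-(n : ℝ) - 1) * (2 * Real.pi))
      have h2 := ih x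
      push_cast at h2 ⊢
      rw [show x + (-(n : ℝ) - 1) * (2 * Real.pi) + 2 * Real.pi = x + -(n : ℝ) * (2 * Real.pi) by
        ring, h2] at h1
      linarith
  have hb : ∀ x, t 0 + (x - 2 * Real.pi) ≤ t x ∧ t x ≤ t 0 + (x + 2 * Real.pi) := by
    intro x
    have h0 := hn ⌊x / (2 * Real.pi)⌋ 0
    have h1 := hn (⌊x / (2 * Real.pi)⌋ + 1) 0
    have h2 := Int.floor_le (x / (2 * Real.pi))
    have h3 := Int.lt_floor_add_one (x / (2 * Real.pi))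
    rw [le_div_iff₀ (by positivity)] at h2
    rw [div_lt_iff₀ (by positivity)] at h3
    have h4 : t (0 + ⌊x / (2 * Real.pi)⌋ * (2 * Real.pi)) ≤ t x := hm.monotone (by linarith)
    have h5 : t x ≤ t (0 + ((⌊x / (2 * Real.pi)⌋ + 1 : ℤ) : ℝ) * (2 * Real.pi)) :=
      hm.monotone (by push_cast; linarith)
    rw [h0] at h4
    rw [h1] at h5
    push_cast at h5
    constructor <;> linarith
  have htop : Tendsto t atTop atTop := by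
    refine tendsto_atTop_mono (fun x => (hb x).1) ?_
    exact tendsto_atTop_add_const_left _ _ (tendsto_atTop_add_const_right _ _ tendsto_id)
  have hbot : Tendsto t atBot atBot := by
    refine tendsto_atBot_mono (fun x => (hb x).2) ?_
    exact tendsto_atBot_add_const_left _ _ (tendsto_atBot_add_const_right _ _ tendsto_id)
  have hsurj : Function.Surjective t := hc.surjective htop hbot
  obtain ⟨e, he⟩ : ∃ e : ℝ ≃o ℝ, ∀ x, e x = t x :=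
    ⟨hm.orderIsoOfSurjective t hsurj, fun x => rfl⟩
  have hts : ∀ x, t (e.symm x) = x := fun x => by rw [← he, e.apply_symm_apply]
  refine ⟨e.symm, e.symm.continuous, e.symm.strictMono, fun x => ?_, hts⟩
  apply hm.injective
  rw [hts, hp, hts]

/-- points on the circle -/
theorem norm_eq {T : ℂ → ℂ} (h1 : ∀ z, 1 < ‖T z‖ ↔ 1 < ‖z‖) (h2 : ∀ z, ‖T z‖ < 1 ↔ ‖z‖ < 1)
    (z : ℂ) : ‖T z‖ = 1 ↔ ‖z‖ = 1 := by
  have a := h1 z
  have b := h2 z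
  constructor
  · intro h
    by_contra hne
    rcases lt_or_gt_of_ne hne with h3 | h3
    · have := b.2 h3
      linarith
    · have := a.2 h3
      linarith
  · intro h
    by_contra hne
    rcases lt_or_gt_of_ne hne with h3 | h3
    · have := b.1 h3
      linarith
    · have := a.1 h3
      linarith

theorem off_iff {T : ℂ → ℂ} (h1 : ∀ z, 1 < ‖T z‖ ↔ 1 < ‖z‖) (h2 : ∀ z, ‖T z‖ < 1 ↔ ‖z‖ < 1)
    (z : ℂ) : T z ∈ Off ↔ z ∈ Off := not_congr (norm_eq h1 h2 z)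

theorem det_id (a1 b1 a2 b2 : ℂ) :
    ‖a2 * a1 + b2 * conj b1‖ ^ 2 - ‖a2 * b1 + b2 * conj a1‖ ^ 2 =
      (‖a1‖ ^ 2 - ‖b1‖ ^ 2) * (‖a2‖ ^ 2 - ‖b2‖ ^ 2) := by
  simp only [← Complex.normSq_eq_norm_sq, Complex.normSq_apply, Complex.add_re, Complex.add_im,
    Complex.mul_re, Complex.mul_im, Complex.conj_re, Complex.conj_im]
  ring

theorem dil_comp {k1 k2 : ℝ} (h1 : 0 ≤ k1) (h1' : k1 < 1) (h2 : 0 ≤ k2) (h2' : k2 < 1)
    {a1 b1 a2 b2 : ℂ} (ha1 : a1 ≠ 0) (ha2 : a2 ≠ 0) (hb1 : ‖b1‖ ≤ k1 * ‖a1‖)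
    (hb2 : ‖b2‖ ≤ k2 * ‖a2‖) :
    a2 * a1 + b2 * conj b1 ≠ 0 ∧ ‖a2 * b1 + b2 * conj a1‖ ≤
      √(1 - (1 - k1 ^ 2) * (1 - k2 ^ 2) / 4) * ‖a2 * a1 + b2 * conj b1‖ := by
  have p1 : 0 < ‖a1‖ := norm_pos_iff.2 ha1
  have p2 : 0 < ‖a2‖ := norm_pos_iff.2 ha2
  have p12 : 0 < ‖a1‖ * ‖a2‖ := mul_pos p1 p2
  have q12 : ‖b2‖ * ‖b1‖ ≤ k1 * k2 * (‖a1‖ * ‖a2‖) := by
    calc ‖b2‖ * ‖b1‖ ≤ (k2 * ‖a2‖) * (k1 * ‖a1‖) :=
          mul_le_mul hb2 hb1 (norm_nonneg _) (by positivity)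
      _ = k1 * k2 * (‖a1‖ * ‖a2‖) := by ring
  have hk12 : k1 * k2 < 1 := by nlinarith
  have hk12' : 0 ≤ k1 * k2 := mul_nonneg h1 h2
  have hlow : (1 - k1 * k2) * (‖a1‖ * ‖a2‖) ≤ ‖a2 * a1 + b2 * conj b1‖ := by
    have h := norm_sub_le_norm_add (a2 * a1) (b2 * conj b1)
    rw [norm_mul, norm_mul, Complex.norm_conj] at h
    nlinarith
  have hup : ‖a2 * a1 + b2 * conj b1‖ ≤ 2 * (‖a1‖ * ‖a2‖) := by
    have h := norm_add_le (a2 * a1) (b2 * conj b1)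
    rw [norm_mul, norm_mul, Complex.norm_conj] at h
    nlinarith
  have hpos : 0 < ‖a2 * a1 + b2 * conj b1‖ := lt_of_lt_of_le (by nlinarith) hlow
  refine ⟨norm_pos_iff.1 hpos, ?_⟩
  have hd := det_id a1 b1 a2 b2
  have e1 : (1 - k1 ^ 2) * ‖a1‖ ^ 2 ≤ ‖a1‖ ^ 2 - ‖b1‖ ^ 2 := by
    have : ‖b1‖ ^ 2 ≤ (k1 * ‖a1‖) ^ 2 := pow_le_pow_left₀ (norm_nonneg _) hb1 2
    nlinarith
  have e2 : (1 - k2 ^ 2) * ‖a2‖ ^ 2 ≤ ‖a2‖ ^ 2 - ‖b2‖ ^ 2 := by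
    have : ‖b2‖ ^ 2 ≤ (k2 * ‖a2‖) ^ 2 := pow_le_pow_left₀ (norm_nonneg _) hb2 2
    nlinarith
  have f1 : 0 < 1 - k1 ^ 2 := by nlinarith
  have f2 : 0 < 1 - k2 ^ 2 := by nlinarith
  have f1' : 1 - k1 ^ 2 ≤ 1 := by nlinarith [sq_nonneg k1]
  have f2' : 1 - k2 ^ 2 ≤ 1 := by nlinarith [sq_nonneg k2]
  have e3 : ((1 - k1 ^ 2) * ‖a1‖ ^ 2) * ((1 - k2 ^ 2) * ‖a2‖ ^ 2) ≤
      (‖a1‖ ^ 2 - ‖b1‖ ^ 2) * (‖a2‖ ^ 2 - ‖b2‖ ^ 2) :=
    mul_le_mul e1 e2 (by positivity) (le_trans (by positivity) e1)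
  have e4 : ‖a2 * a1 + b2 * conj b1‖ ^ 2 ≤ (2 * (‖a1‖ * ‖a2‖)) ^ 2 :=
    pow_le_pow_left₀ (norm_nonneg _) hup 2
  have e5 : (1 - k1 ^ 2) * (1 - k2 ^ 2) / 4 * ‖a2 * a1 + b2 * conj b1‖ ^ 2 ≤
      (1 - k1 ^ 2) * (1 - k2 ^ 2) / 4 * (2 * (‖a1‖ * ‖a2‖)) ^ 2 :=
    mul_le_mul_of_nonneg_left e4 (by positivity)
  have e6 : ‖a2 * b1 + b2 * conj a1‖ ^ 2 ≤
      (1 - (1 - k1 ^ 2) * (1 - k2 ^ 2) / 4) * ‖a2 * a1 + b2 * conj b1‖ ^ 2 := by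
    have e7 : (1 - k1 ^ 2) * (1 - k2 ^ 2) / 4 * (2 * (‖a1‖ * ‖a2‖)) ^ 2 =
      ((1 - k1 ^ 2) * ‖a1‖ ^ 2) * ((1 - k2 ^ 2) * ‖a2‖ ^ 2) := by ring
    nlinarith
  have e8 : 0 ≤ 1 - (1 - k1 ^ 2) * (1 - k2 ^ 2) / 4 := by nlinarith
  calc ‖a2 * b1 + b2 * conj a1‖ = √(‖a2 * b1 + b2 * conj a1‖ ^ 2) :=
        (Real.sqrt_sq (norm_nonneg _)).symm
    _ ≤ √((1 - (1 - k1 ^ 2) * (1 - k2 ^ 2) / 4) * ‖a2 * a1 + b2 * conj b1‖ ^ 2) :=
        Real.sqrt_le_sqrt e6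
    _ = √(1 - (1 - k1 ^ 2) * (1 - k2 ^ 2) / 4) * ‖a2 * a1 + b2 * conj b1‖ := by
        rw [Real.sqrt_mul e8, Real.sqrt_sq (norm_nonneg _)]

theorem idt {n : ℕ} (A : Blaschke n) (k : ℝ) (hk : 0 ≤ k) : IsTr A A k (Homeomorph.refl ℂ) := by
  have hid : ∀ z : ℂ, dz (Homeomorph.refl ℂ) z = 1 ∧ dzb (Homeomorph.refl ℂ) z = 0 := fun z =>
    dz_of_hasDerivAt (hasDerivAt_id z)
  obtain ⟨ρ, hρ, hden⟩ := den_ne A
  refine ⟨fun z => Iff.rfl, fun z => Iff.rfl, contDiffOn_id, fun z _ => ?_, fun z _ => ?_,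
    ⟨2, by norm_num, fun z _ => rfl, fun z _ => rfl⟩, ⟨ρ, hρ, fun z _ hz => ?_⟩, rfl,
    ⟨fun x => x, continuous_id, strictMono_id, fun x => rfl, fun x => rfl⟩⟩
  · rw [(hid z).1]
    exact one_ne_zero
  · rw [(hid z).2, norm_zero]
    positivity
  · exact ⟨hden z hz, hden z hz, rfl⟩

theorem inv {n : ℕ} (A₁ A₂ : Blaschke n) (k : ℝ) (T : ℂ ≃ₜ ℂ) (hk : k < 1) (h : IsTr A₁ A₂ k T) :
    IsTr A₂ A₁ k T.symm := by
  have hout : ∀ z, 1 < ‖T.symm z‖ ↔ 1 < ‖z‖ := fun z => by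
    have := h.out (T.symm z)
    rw [T.apply_symm_apply] at this
    exact this.symm
  have hinn : ∀ z, ‖T.symm z‖ < 1 ↔ ‖z‖ < 1 := fun z => by
    have := h.inn (T.symm z)
    rw [T.apply_symm_apply] at this
    exact this.symm
  have hoff : ∀ z, T.symm z ∈ Off ↔ z ∈ Off := off_iff hout hinn
  have hTat : ∀ z ∈ Off, ContDiffAt ℝ ∞ T z := fun z hz => h.smooth.contDiffAt (isOpen_Off.mem_nhds hz)
  have hSat : ∀ z ∈ Off, ContDiffAt ℝ ∞ T.symm z := by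
    intro z hz
    have hw : T.symm z ∈ Off := (hoff z).2 hz
    have hlt : ‖dzb T (T.symm z)‖ < ‖dz T (T.symm z)‖ := norm_dzb_lt hk (h.nd _ hw) (h.dil _ hw)
    have hd : HasFDerivAt T ((LLe hlt : ℂ ≃L[ℝ] ℂ) : ℂ →L[ℝ] ℂ) (T.symm z) := by
      rw [LLe_coe]
      exact hasFDerivAt_LL ((hTat _ hw).differentiableAt (by simp))
    exact T.toOpenPartialHomeomorph.contDiffAt_symm (mem_univ z) hd (hTat _ hw)
  have hcomp : ∀ z ∈ Off, dz T (T.symm z) * dz T.symm z + dzb T (T.symm z) * conj (dzb T.symm z) = 1 ∧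
      dz T (T.symm z) * dzb T.symm z + dzb T (T.symm z) * conj (dz T.symm z) = 0 := by
    intro z hz
    have hw : T.symm z ∈ Off := (hoff z).2 hz
    have h1 := dz_comp (f := T.symm) (g := T) (z := z) ((hTat _ hw).differentiableAt (by simp))
      ((hSat z hz).differentiableAt (by simp))
    have h2 : (T : ℂ → ℂ) ∘ T.symm = id := T.self_comp_symm
    have h3 := dz_of_hasDerivAt (hasDerivAt_id z)
    rw [h2] at h1
    exact ⟨h1.1.symm.trans h3.1, h1.2.symm.trans h3.2⟩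
  refine ⟨hout, hinn, fun z hz => (hSat z hz).contDiffWithinAt, fun z hz => ?_, fun z hz => ?_,
    ?_, ?_, ?_, ?_⟩
  · intro h0
    have hw : T.symm z ∈ Off := (hoff z).2 hz
    obtain ⟨c1, c2⟩ := hcomp z hz
    rw [h0, map_zero, mul_zero, add_zero] at c2
    have c3 := (mul_eq_zero.1 c2).resolve_left (h.nd _ hw)
    rw [h0, c3, map_zero, mul_zero, mul_zero, add_zero] at c1
    exact zero_ne_one c1
  · have hw : T.symm z ∈ Off := (hoff z).2 hz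
    obtain ⟨c1, c2⟩ := hcomp z hz
    have c3 : ‖dz T (T.symm z)‖ * ‖dzb T.symm z‖ = ‖dzb T (T.symm z)‖ * ‖dz T.symm z‖ := by
      rw [← norm_mul, eq_neg_of_add_eq_zero_left c2, norm_neg, norm_mul, Complex.norm_conj]
    have c4 : 0 < ‖dz T (T.symm z)‖ := norm_pos_iff.2 (h.nd _ hw)
    have c5 := mul_le_mul_of_nonneg_right (h.dil _ hw) (norm_nonneg (dz T.symm z))
    refine le_of_mul_le_mul_left ?_ c4
    rw [c3]
    refine c5.trans (le_of_eq ?_)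
    ring
  · obtain ⟨ρ, h1, h2, h3⟩ := h.ident
    refine ⟨ρ, h1, fun z hz => ?_, fun z hz => ?_⟩
    · rw [Homeomorph.symm_apply_eq, h2 z hz]
    · rw [Homeomorph.symm_apply_eq, h3 z hz]
  · obtain ⟨ρ, h1, h2⟩ := h.semi
    obtain ⟨ρ', h3, h4⟩ := near T.symm.continuous (fun z hz => (norm_eq hout hinn z).2 hz) h1
    refine ⟨ρ', h3, fun z hz hz' => ?_⟩
    obtain ⟨h5, h6⟩ := h4 z hz hz'
    obtain ⟨h7, h8, h9⟩ := h2 (T.symm z) h5 h6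
    rw [T.apply_symm_apply] at h8 h9
    refine ⟨h8, h7, ?_⟩
    rw [Homeomorph.symm_apply_eq, h9]
  · rw [Homeomorph.symm_apply_eq, h.mark]
  · obtain ⟨t, h1, h2, h3, h4⟩ := h.lift
    obtain ⟨s, s1, s2, s3, s4⟩ := lift_inv h1 h2 h3
    refine ⟨s, s1, s2, s3, fun x => ?_⟩
    rw [Homeomorph.symm_apply_eq, h4, s4]

theorem cmp {n : ℕ} {k₁ k₂ : ℝ} (a1 : 0 ≤ k₁) (a2 : k₁ < 1) (a3 : 0 ≤ k₂) (a4 : k₂ < 1)
    (A₀ A₁ A₂ : Blaschke n) (T₁ T₂ : ℂ ≃ₜ ℂ) (h1 : IsTr A₀ A₁ k₁ T₁) (h2 : IsTr A₁ A₂ k₂ T₂) :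
    IsTr A₀ A₂ (√(1 - (1 - k₁ ^ 2) * (1 - k₂ ^ 2) / 4)) (T₁.trans T₂) := by
  have hoff1 := off_iff h1.out h1.inn
  have hd : ∀ z ∈ Off, dz (T₁.trans T₂) z =
        dz T₂ (T₁ z) * dz T₁ z + dzb T₂ (T₁ z) * conj (dzb T₁ z) ∧
      dzb (T₁.trans T₂) z = dz T₂ (T₁ z) * dzb T₁ z + dzb T₂ (T₁ z) * conj (dz T₁ z) := by
    intro z hz
    exact dz_comp (f := T₁) (g := T₂)
      ((h2.smooth.contDiffAt (isOpen_Off.mem_nhds ((hoff1 z).2 hz))).differentiableAt (by simp))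
      ((h1.smooth.contDiffAt (isOpen_Off.mem_nhds hz)).differentiableAt (by simp))
  have hkey : ∀ z ∈ Off, _ := fun z hz =>
    dil_comp a1 a2 a3 a4 (h1.nd z hz) (h2.nd _ ((hoff1 z).2 hz)) (h1.dil z hz)
      (h2.dil _ ((hoff1 z).2 hz))
  refine ⟨fun z => (h2.out (T₁ z)).trans (h1.out z), fun z => (h2.inn (T₁ z)).trans (h1.inn z),
    ?_, fun z hz => ?_, fun z hz => ?_, ?_, ?_, ?_, ?_⟩
  · exact h2.smooth.comp h1.smooth fun z hz => (hoff1 z).2 hz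
  · rw [(hd z hz).1]
    exact (hkey z hz).1
  · rw [(hd z hz).1, (hd z hz).2]
    exact (hkey z hz).2
  · obtain ⟨ρ, b1, b2, b3⟩ := h1.ident
    obtain ⟨ρ', c1, c2, c3⟩ := h2.ident
    refine ⟨max ρ ρ', lt_max_of_lt_left b1, fun z hz => ?_, fun z hz => ?_⟩
    · show T₂ (T₁ z) = z
      rw [b2 z ((le_max_left _ _).trans hz), c2 z ((le_max_right _ _).trans hz)]
    · show T₂ (T₁ z) = z
      rw [b3 z (hz.trans (inv_anti₀ (by linarith) (le_max_left _ _))),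
        c3 z (hz.trans (inv_anti₀ (by linarith) (le_max_right _ _)))]
  · obtain ⟨ρ, b1, b2⟩ := h1.semi
    obtain ⟨ρ', c1, c2⟩ := h2.semi
    obtain ⟨ρ'', d1, d2⟩ := near T₁.continuous (fun z hz => (norm_eq h1.out h1.inn z).2 hz) c1
    refine ⟨min ρ ρ'', lt_min b1 d1, fun z hz hz' => ?_⟩
    have hm : 0 < min ρ ρ'' := lt_trans one_pos (lt_min b1 d1)
    obtain ⟨e1, e2, e3⟩ := b2 z (lt_of_le_of_lt (inv_anti₀ hm (min_le_left _ _)) hz)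
      (lt_of_lt_of_le hz' (min_le_left _ _))
    obtain ⟨f1, f2⟩ := d2 z (lt_of_le_of_lt (inv_anti₀ hm (min_le_right _ _)) hz)
      (lt_of_lt_of_le hz' (min_le_right _ _))
    obtain ⟨g1, g2, g3⟩ := c2 (T₁ z) f1 f2
    refine ⟨e1, g2, ?_⟩
    show T₂ (T₁ (A₀.ev z)) = A₂.ev (T₂ (T₁ z))
    rw [e3, g3]
  · show T₂ (T₁ A₀.b) = A₂.b
    rw [h1.mark, h2.mark]
  · obtain ⟨t, b1, b2, b3, b4⟩ := h1.lift
    obtain ⟨s, c1, c2, c3, c4⟩ := h2.lift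
    refine ⟨s ∘ t, c1.comp b1, c2.comp b2, fun x => ?_, fun x => ?_⟩
    · show s (t (x + 2 * Real.pi)) = s (t x) + 2 * Real.pi
      rw [b3, c3]
    · show T₂ (T₁ (Complex.exp (x * Complex.I))) = _
      rw [b4, c4]
      rfl

end TRALGaux

/-- **TRALG** -/
theorem t_TRALG : S_TRALG := by
  intro n _
  refine ⟨TRALGaux.idt, TRALGaux.inv, fun k₁ k₂ a1 a2 a3 a4 =>
    ⟨√(1 - (1 - k₁ ^ 2) * (1 - k₂ ^ 2) / 4), Real.sqrt_nonneg _, ?_, ?_⟩⟩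
  · have f1 : 0 < 1 - k₁ ^ 2 := by nlinarith
    have f2 : 0 < 1 - k₂ ^ 2 := by nlinarith
    have f3 : 0 < (1 - k₁ ^ 2) * (1 - k₂ ^ 2) := mul_pos f1 f2
    rw [← Real.sqrt_one]
    exact Real.sqrt_lt_sqrt (by nlinarith) (by linarith)
  · intro A₀ A₁ A₂ T₁ T₂ h1 h2
    exact TRALGaux.cmp a1 a2 a3 a4 A₀ A₁ A₂ T₁ T₂ h1 h2

end Pool.Agent.H212.MB
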