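import Pool.Agent.H212.MB.Stm3

/-!
# Project MB: transfer of the relation of quasiconformal conjugacy along links
-/

set_option autoImplicit false

open Filter Metric Set Topology MeasureTheory Polynomial
open scoped ContDiff ComplexConjugate ENNReal

namespace Pool.Agent.H212.MB

namespace TRANSaux

theorem T_ext {n : ℕ} {A₁ A₂ : Blaschke n} {k : ℝ} {T : ℂ ≃ₜ ℂ} (hT : IsTr A₁ A₂ k T) {z : ℂ}
    (hz : z ∈ Ext) : T z ∈ Ext := (hT.out z).2 hz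

theorem T_symm_ext {n : ℕ} {A₁ A₂ : Blaschke n} {k : ℝ} {T : ℂ ≃ₜ ℂ} (hT : IsTr A₁ A₂ k T) {z : ℂ}
    (hz : z ∈ Ext) : T.symm z ∈ Ext := by
  apply (hT.out _).1
  rw [T.apply_symm_apply]
  exact hz

theorem T_circle {n : ℕ} {A₁ A₂ : Blaschke n} {k : ℝ} {T : ℂ ≃ₜ ℂ} (hT : IsTr A₁ A₂ k T) {z : ℂ}
    (hz : ‖z‖ = 1) : ‖T z‖ = 1 := by
  have h1 : ¬ 1 < ‖T z‖ := fun h => by
    have := (hT.out z).1 h
    linarith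
  have h2 : ¬ ‖T z‖ < 1 := fun h => by
    have := (hT.inn z).1 h
    linarith
  linarith [not_lt.1 h1, not_lt.1 h2]

/-- the link maps the complement of the filled Julia set to the basin -/
theorem link_mem {n : ℕ} {A : Blaschke n} {k C : ℝ} {T : ℂ ≃ₜ ℂ} (hT : IsTr (zn n) A k T)
    {g f : RMap n} {H : ℂ ≃ₜ ℂ} {φ φ' : ℂ → ℂ} (L : Link A T C g f H φ φ') (z : ℂ) :
    H z ∈ φ' '' Ext ↔ z ∈ φ '' Ext := by
  constructor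
  · rintro ⟨w, hw, hwz⟩
    refine ⟨T.symm w, T_symm_ext hT hw, ?_⟩
    apply H.injective
    rw [L.out _ (T_symm_ext hT hw), T.apply_symm_apply, hwz]
  · rintro ⟨w, hw, rfl⟩
    exact ⟨T w, T_ext hT hw, (L.out w hw).symm⟩

theorem link_symm {n : ℕ} {A : Blaschke n} {k C : ℝ} {T : ℂ ≃ₜ ℂ} (hT : IsTr (zn n) A k T)
    {g f : RMap n} {H : ℂ ≃ₜ ℂ} {φ φ' : ℂ → ℂ} (L : Link A T C g f H φ φ') {w : ℂ} (hw : w ∈ Ext) :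
    H.symm (φ' w) = φ (T.symm w) := by
  apply H.injective
  rw [H.apply_symm_apply, L.out _ (T_symm_ext hT hw), T.apply_symm_apply]

theorem ev_ext {n : ℕ} (hn : 1 ≤ n) (h1 : S_BL) {A : Blaschke n} {w : ℂ} (hw : w ∈ Ext) (hd : A.den w ≠ 0) :
    A.ev w ∈ Ext := by
  have h := (h1 n hn A).2.2.2.1 w hw hd
  exact lt_of_lt_of_le hw h

/-- the conjugacy in the exterior coordinates commutes with `A` -/
theorem eta_semi {n : ℕ} (hn : 1 ≤ n) (h1 : S_BL) (h4 : S_QFORM) {A : Blaschke n} {f f₁ : RMap n}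
    {φ φ₁ η : ℂ → ℂ} {m : ℂ ≃ₜ ℂ} (hf : IsExt A f φ) (hf₁ : IsExt A f₁ φ₁)
    (hc : ∀ z, (f₁.Q.eval (m z) = 0 ↔ f.Q.eval z = 0) ∧ (f.Q.eval z ≠ 0 → f₁.ev (m z) = m (f.ev z)))
    (hη : MapsTo η Ext Ext) (hm : ∀ z ∈ Ext, m (φ z) = φ₁ (η z)) {w : ℂ} (hw : w ∈ Ext) (hd : A.den w ≠ 0) :
    A.den (η w) ≠ 0 ∧ η (A.ev w) = A.ev (η w) := by
  obtain ⟨hq, hs⟩ := hf.semi w hw hd
  have hAw := ev_ext hn h1 hw hd
  have hq₁ : f₁.Q.eval (φ₁ (η w)) ≠ 0 := by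
    rw [← hm w hw]
    intro h
    exact hq ((hc _).1.1 h)
  have hd₁ : A.den (η w) ≠ 0 := by
    intro h
    exact hq₁ (((h4 n hn A f₁ φ₁ hf₁).2.1 _ (hη hw)).2 h)
  refine ⟨hd₁, ?_⟩
  obtain ⟨_, hs₁⟩ := hf₁.semi (η w) (hη hw) hd₁
  apply hf₁.inj (hη hAw) (ev_ext hn h1 (hη hw) hd₁)
  rw [← hs₁, ← hm _ hAw, ← hs, ← hm w hw]
  exact ((hc _).2 hq).symm

/-- a map with the boundary values `ζ ↦ ζ` is close to the circle near the circle -/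
theorem near_circle {η : ℂ → ℂ} (hb : ∀ ζ : ℂ, ‖ζ‖ = 1 → Tendsto η (𝓝[Ext] ζ) (𝓝 ζ)) {ρ : ℝ} (hρ : 1 < ρ) :
    ∃ ρ' : ℝ, 1 < ρ' ∧ ρ' ≤ ρ ∧ ∀ z : ℂ, 1 < ‖z‖ → ‖z‖ < ρ' → ‖η z‖ < ρ := by
  have h1 : {z : ℂ | z ∈ Ext → ‖η z‖ < ρ} ∈ 𝓝ˢ (sphere (0 : ℂ) 1) := by
    rw [mem_nhdsSet_iff_forall]
    intro ζ hζ
    rw [mem_sphere_zero_iff_norm] at hζ
    have h2 : ∀ᶠ z in 𝓝[Ext] ζ, ‖η z‖ < ρ := by
      have h3 : Tendsto (fun z => ‖η z‖) (𝓝[Ext] ζ) (𝓝 ‖ζ‖) := (hb ζ hζ).norm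
      rw [hζ] at h3
      exact h3.eventually (gt_mem_nhds hρ)
    rw [eventually_nhdsWithin_iff] at h2
    exact h2
  obtain ⟨ε, hε, hsub⟩ := (hasBasis_nhdsSet_thickening (isCompact_sphere (0 : ℂ) 1)).mem_iff.1 h1
  refine ⟨min ρ (1 + ε), lt_min hρ (by linarith), min_le_left _ _, fun z hz1 hz2 => ?_⟩
  have hz3 : ‖z‖ < 1 + ε := lt_of_lt_of_le hz2 (min_le_right _ _)
  have h0 : ‖z‖ ≠ 0 := by positivity
  have h4 : z ∈ Metric.thickening ε (sphere (0 : ℂ) 1) := by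
    rw [Metric.mem_thickening_iff]
    refine ⟨((‖z‖⁻¹ : ℝ) : ℂ) * z, ?_, ?_⟩
    · rw [mem_sphere_zero_iff_norm, norm_mul, Complex.norm_real, norm_inv, norm_norm]
      exact inv_mul_cancel₀ h0
    · rw [dist_eq_norm]
      have h5 : z - ((‖z‖⁻¹ : ℝ) : ℂ) * z = ((1 - ‖z‖⁻¹ : ℝ) : ℂ) * z := by
        push_cast
        ring
      rw [h5, norm_mul, Complex.norm_real, Real.norm_eq_abs, abs_of_nonneg]
      · rw [sub_mul, inv_mul_cancel₀ h0]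
        linarith
      · rw [sub_nonneg]
        exact inv_le_one_of_one_le₀ hz1.le
  exact hsub h4 hz1

/-- boundary values of the conjugate by `T` -/
theorem bdry_conj {n : ℕ} {A₁ A₂ : Blaschke n} {k : ℝ} {T : ℂ ≃ₜ ℂ} (hT : IsTr A₁ A₂ k T) {η : ℂ → ℂ}
    (hb : ∀ ζ : ℂ, ‖ζ‖ = 1 → Tendsto η (𝓝[Ext] ζ) (𝓝 ζ)) (ζ : ℂ) (hζ : ‖ζ‖ = 1) :
    Tendsto (fun z => T.symm (η (T z))) (𝓝[Ext] ζ) (𝓝 ζ) := by
  have h1 : Tendsto T (𝓝[Ext] ζ) (𝓝[Ext] (T ζ)) := by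
    apply tendsto_nhdsWithin_of_tendsto_nhds_of_eventually_within
    · exact T.continuous.continuousAt.mono_left nhdsWithin_le_nhds
    · exact eventually_nhdsWithin_of_forall fun z hz => T_ext hT hz
  have h2 : Tendsto (fun z => η (T z)) (𝓝[Ext] ζ) (𝓝 (T ζ)) := (hb (T ζ) (T_circle hT hζ)).comp h1
  have h3 : Tendsto (fun z => T.symm (η (T z))) (𝓝[Ext] ζ) (𝓝 (T.symm (T ζ))) :=
    (T.symm.continuous.tendsto _).comp h2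
  rwa [T.symm_apply_apply] at h3

theorem qc_trans (h3 : S_COMP) {k k' : ℂ → ℂ} (h : IsQC k) (h' : IsQC k') : IsQC (k' ∘ k) := by
  obtain ⟨C, hC⟩ := h
  obtain ⟨C', hC'⟩ := h'
  obtain ⟨C'', _, hC''⟩ := h3 C C'
  exact ⟨C'', hC'' k k' hC hC'⟩

theorem qc_symm (h2 : S_INV) {k : ℂ ≃ₜ ℂ} (h : IsQC k) : IsQC k.symm := by
  obtain ⟨C, hC⟩ := h
  obtain ⟨C', _, hC'⟩ := h2 C
  exact ⟨C', hC' k.toEquiv hC⟩

/-- the value at a point of the exterior -/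
theorem zn_ev {n : ℕ} (h1 : S_BL) (hn : 1 ≤ n) (z : ℂ) : (zn n).ev z = z ^ n ∧ (zn n).den z = 1 := by
  have h := (h1 n hn (zn n)).2.2.2.2.2.2.2.2 z
  exact ⟨h.2, h.1⟩

theorem conj_back (h1 : S_BL) (h2 : S_INV) (h3 : S_COMP) (h4 : S_QFORM) (h5 : S_EXTU) (h6 : S_FINV)
    (h7 : S_ONTO) (h8 : S_GLUE) {n : ℕ} (hn : 2 ≤ n) {A : Blaschke n} {k C : ℝ} {T : ℂ ≃ₜ ℂ}
    (hT : IsTr (zn n) A k T) {g f g₁ f₁ : RMap n} {H H₁ : ℂ ≃ₜ ℂ} {φ φ' φ₁ φ₁' : ℂ → ℂ}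
    (L : Link A T C g f H φ φ') (L₁ : Link A T C g₁ f₁ H₁ φ₁ φ₁') (hc : QCConj A f f₁) :
    QCConj (zn n) g g₁ := by
  have hn1 : 1 ≤ n := by omega
  obtain ⟨m, ψ, ψ₁, η, hqc, hψ, hψ₁, hconj, hη, hm, hb⟩ := hc
  have e := h5 n hn A f ψ φ' hψ L.extf
  have e₁ := h5 n hn A f₁ ψ₁ φ₁' hψ₁ L₁.extf
  have hm' : ∀ z ∈ Ext, m (φ' z) = φ₁' (η z) := fun z hz => by
    rw [← e hz, hm z hz, e₁ (hη hz)]
  -- the map `M`
  set M : ℂ ≃ₜ ℂ := (H.trans m).trans H₁.symm with hMdef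
  have hM : ∀ z, M z = H₁.symm (m (H z)) := fun z => rfl
  have hMqc : IsQC M := by
    have a1 : IsQC (m ∘ H) := qc_trans h3 ⟨C, L.wqs⟩ hqc
    have a2 : IsQC H₁.symm := qc_symm h2 ⟨C, L₁.wqs⟩
    have a3 : IsQC (H₁.symm ∘ (m ∘ H)) := qc_trans h3 a1 a2
    exact a3
  set ηM : ℂ → ℂ := fun z => T.symm (η (T z)) with hηM
  have hMη : MapsTo ηM Ext Ext := fun z hz => T_symm_ext hT (hη (T_ext hT hz))
  have hMφ : ∀ z ∈ Ext, M (φ z) = φ₁ (ηM z) := fun z hz => by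
    rw [hM, L.out z hz, hm' _ (T_ext hT hz), link_symm hT L₁ (hη (T_ext hT hz))]
  have hMb : ∀ ζ : ℂ, ‖ζ‖ = 1 → Tendsto ηM (𝓝[Ext] ζ) (𝓝 ζ) := bdry_conj hT hb
  obtain ⟨ρ, hρ, hsemi⟩ := hT.semi
  obtain ⟨ρ', hρ'1, hρ', hnear⟩ := near_circle hMb hρ
  have hMsemi : ∀ z : ℂ, 1 < ‖z‖ → ‖z‖ < ρ' → ηM (z ^ n) = ηM z ^ n := fun z hz1 hz2 => by
    have hρi : ρ⁻¹ < 1 := inv_lt_one_of_one_lt₀ hρ
    obtain ⟨_, hd, hs⟩ := hsemi z (by linarith) (by linarith)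
    have hzE : z ∈ Ext := hz1
    have huE : ηM z ∈ Ext := hMη hzE
    have hu1 : 1 < ‖ηM z‖ := huE
    obtain ⟨_, hd', hs'⟩ := hsemi (ηM z) (by linarith) (hnear z hz1 hz2)
    rw [(zn_ev h1 hn1 _).1] at hs hs'
    obtain ⟨_, he⟩ := eta_semi hn1 h1 h4 L.extf L₁.extf hconj hη hm' (T_ext hT hzE) hd
    have a1 : T (ηM z) = η (T z) := by rw [hηM]; exact T.apply_symm_apply _
    apply T.injective
    rw [hs', a1]
    show T (T.symm (η (T (z ^ n)))) = _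
    rw [T.apply_symm_apply, hs, he]
  obtain ⟨Θ, hΘqc, hΘ, hΘK⟩ := h8 n hn φ φ₁ ηM M ρ' L.extg.sig L₁.extg.sig hMqc hρ'1 hMη hMφ hMsemi hMb
  have hQ : g.Q = 1 := by
    have h := h4 n hn1 (zn n) g φ L.extg
    rw [h.1, h.2.2.2]
  have hQ₁ : g₁.Q = 1 := by
    have h := h4 n hn1 (zn n) g₁ φ₁ L₁.extg
    rw [h.1, h.2.2.2]
  have hznE : ∀ w ∈ Ext, (zn n).ev w ∈ Ext := fun w hw =>
    ev_ext hn1 h1 hw (by rw [(zn_ev h1 hn1 w).2]; exact one_ne_zero)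
  refine ⟨Θ, φ, φ₁, id, hΘqc, L.extg, L₁.extg, fun z => ⟨?_, fun _ => ?_⟩, fun z hz => hz, hΘ, fun ζ _ => ?_⟩
  · rw [hQ, hQ₁]
    simp
  · by_cases hz : z ∈ φ '' Ext
    · obtain ⟨w, hw, rfl⟩ := hz
      have hd : (zn n).den w ≠ 0 := by rw [(zn_ev h1 hn1 w).2]; exact one_ne_zero
      rw [hΘ w hw, (L₁.extg.semi w hw hd).2, (L.extg.semi w hw hd).2, hΘ _ (hznE w hw)]
    · have hgz : g.ev z ∉ φ '' Ext := h6 n hn1 g φ L.extg z hz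
      rw [hΘK z hz, hΘK _ hgz]
      have b1 : H z ∉ φ' '' Ext := fun h => hz ((link_mem hT L z).1 h)
      have b2 : m (H z) ∉ φ₁' '' Ext := fun h =>
        b1 (((h7 φ' φ₁' η m L.extf.sig L₁.extf.sig hη hm' hb).2.2.1 _).1 h)
      have b3 : M z ∉ φ₁ '' Ext := fun h => by
        apply b2
        have := (link_mem hT L₁ (M z)).2 h
        rwa [hM, H₁.apply_symm_apply] at this
      obtain ⟨_, c1⟩ := L₁.inn _ b3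
      obtain ⟨c2, c3⟩ := L.inn z hz
      rw [hM, H₁.apply_symm_apply] at c1
      rw [(hconj (H z)).2 c2, c3] at c1
      rw [hM, hM, c1, H₁.symm_apply_apply]
  · exact tendsto_id.mono_left nhdsWithin_le_nhds

theorem conj_forth (h1 : S_BL) (h2 : S_INV) (h3 : S_COMP) (h4 : S_QFORM) (h5 : S_EXTU) (h6 : S_FINV)
    (h7 : S_ONTO) (h8 : S_GLUE) {n : ℕ} (hn : 2 ≤ n) {A : Blaschke n} {k C : ℝ} {T : ℂ ≃ₜ ℂ}
    (hT : IsTr (zn n) A k T) {g f g₁ f₁ : RMap n} {H H₁ : ℂ ≃ₜ ℂ} {φ φ' φ₁ φ₁' : ℂ → ℂ}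
    (L : Link A T C g f H φ φ') (L₁ : Link A T C g₁ f₁ H₁ φ₁ φ₁') (hc : QCConj (zn n) g g₁) :
    QCConj A f f₁ := by
  have hn1 : 1 ≤ n := by omega
  obtain ⟨m, ψ, ψ₁, η, hqc, hψ, hψ₁, hconj, hη, hm, hb⟩ := hc
  have e := h5 n hn (zn n) g ψ φ hψ L.extg
  have e₁ := h5 n hn (zn n) g₁ ψ₁ φ₁ hψ₁ L₁.extg
  have hm' : ∀ z ∈ Ext, m (φ z) = φ₁ (η z) := fun z hz => by
    rw [← e hz, hm z hz, e₁ (hη hz)]
  have hsemi : ∀ z : ℂ, 1 < ‖z‖ → ‖z‖ < 2 → η (z ^ n) = η z ^ n := fun z hz1 _ => by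
    have hd : (zn n).den z ≠ 0 := by rw [(zn_ev h1 hn1 z).2]; exact one_ne_zero
    have h := (eta_semi hn1 h1 h4 L.extg L₁.extg hconj hη hm' hz1 hd).2
    rwa [(zn_ev h1 hn1 _).1, (zn_ev h1 hn1 _).1] at h
  obtain ⟨Θ, hΘqc, hΘ, hΘK⟩ := h8 n hn φ φ₁ η m 2 L.extg.sig L₁.extg.sig hqc one_lt_two hη hm' hsemi hb
  set K : ℂ ≃ₜ ℂ := (H.symm.trans Θ).trans H₁ with hKdef
  have hK : ∀ z, K z = H₁ (Θ (H.symm z)) := fun z => rfl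
  have hKqc : IsQC K := by
    have a1 : IsQC (Θ ∘ H.symm) := qc_trans h3 (qc_symm h2 ⟨C, L.wqs⟩) hΘqc
    have a2 : IsQC H₁ := ⟨C, L₁.wqs⟩
    have a3 : IsQC (H₁ ∘ (Θ ∘ H.symm)) := qc_trans h3 a1 a2
    exact a3
  have hKφ : ∀ w ∈ Ext, K (φ' w) = φ₁' w := fun w hw => by
    have hw' := T_symm_ext hT hw
    rw [hK, link_symm hT L hw, hΘ _ hw', L₁.out _ hw', T.apply_symm_apply]
  have hQ : ∀ z, g.Q.eval z ≠ 0 := by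
    intro z
    have h := h4 n hn1 (zn n) g φ L.extg
    rw [h.1, h.2.2.2]
    simp
  have hF := h4 n hn1 A f φ' L.extf
  have hF₁ := h4 n hn1 A f₁ φ₁' L₁.extf
  refine ⟨K, φ', φ₁', id, hKqc, L.extf, L₁.extf, fun x => ?_, fun z hz => hz, hKφ, fun ζ _ => ?_⟩
  · by_cases hx : x ∈ φ' '' Ext
    · obtain ⟨w, hw, rfl⟩ := hx
      rw [hKφ w hw]
      refine ⟨by rw [hF.2.1 w hw, hF₁.2.1 w hw], fun hq => ?_⟩
      have hd : A.den w ≠ 0 := fun h => hq ((hF.2.1 w hw).2 h)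
      rw [(L₁.extf.semi w hw hd).2, (L.extf.semi w hw hd).2, hKφ _ (ev_ext hn1 h1 hw hd)]
    · obtain ⟨z, rfl⟩ := H.surjective x
      have hz : z ∉ φ '' Ext := fun h => hx ((link_mem hT L z).2 h)
      have hgz : g.ev z ∉ φ '' Ext := h6 n hn1 g φ L.extg z hz
      have b1 : m z ∉ φ₁ '' Ext := fun h =>
        hz (((h7 φ φ₁ η m L.extg.sig L₁.extg.sig hη hm' hb).2.2.1 _).1 h)
      obtain ⟨c1, c2⟩ := L.inn z hz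
      obtain ⟨c3, c4⟩ := L₁.inn (m z) b1
      have c5 : K (H z) = H₁ (m z) := by rw [hK, H.symm_apply_apply, hΘK z hz]
      rw [c5]
      refine ⟨⟨fun h => absurd h c3, fun h => absurd h c1⟩, fun _ => ?_⟩
      rw [c4, c2, (hconj z).2 (hQ z), hK, H.symm_apply_apply, hΘK _ hgz]
  · exact tendsto_id.mono_left nhdsWithin_le_nhds

end TRANSaux

open TRANSaux in
/-- Transfer of the relation. -/
theorem t_TRANS (h1 : S_BL) (h2 : S_INV) (h3 : S_COMP) (h4 : S_QFORM) (h5 : S_EXTU) (h6 : S_FINV)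
    (h7 : S_ONTO) (h8 : S_GLUE) : S_TRANS := by
  intro n hn A k C T hT g f g₁ f₁ H H₁ φ φ' φ₁ φ₁' L L₁
  exact ⟨conj_forth h1 h2 h3 h4 h5 h6 h7 h8 hn hT L L₁, conj_back h1 h2 h3 h4 h5 h6 h7 h8 hn hT L L₁⟩

end Pool.Agent.H212.MB
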