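import Pool.Agent.H212.MB.Stm3

/-! Jobs UNIQK and UNIQ (helper52). -/

set_option autoImplicit false

open Filter Metric Set Topology MeasureTheory
open scoped ContDiff ComplexConjugate ENNReal

namespace Pool.Agent.H212.MB

namespace UNIQaux

/-- the derivative of a homeomorphism does not vanish where it is holomorphic -/
theorem deriv_ne (K : ℂ ≃ₜ ℂ) {U : Set ℂ} (hU : IsOpen U) (hK : DifferentiableOn ℂ K U) {z : ℂ}
    (hz : z ∈ U) : deriv K z ≠ 0 := by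
  intro h0
  have hKz : ∀ w ∈ U, HasDerivAt K (deriv K w) w := fun w hw =>
    (hK.differentiableAt (hU.mem_nhds hw)).hasDerivAt
  have han : AnalyticAt ℂ (deriv K) z := (hK.analyticAt (hU.mem_nhds hz)).deriv
  rcases han.eventually_eq_zero_or_eventually_ne_zero with h | h
  · obtain ⟨r, hr, hball⟩ := Metric.eventually_nhds_iff_ball.1 (h.and (hU.mem_nhds hz))
    have hd : DifferentiableOn ℂ K (ball z r) := hK.mono fun w hw => (hball w hw).2
    have hw : z + (r / 2 : ℝ) ∈ ball z r := by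
      rw [mem_ball_iff_norm, add_sub_cancel_left, Complex.norm_real, Real.norm_eq_abs,
        abs_of_pos (by positivity)]
      linarith
    have := isOpen_ball.is_const_of_deriv_eq_zero (convex_ball z r).isPreconnected hd
      (fun w hw => (hball w hw).1) (mem_ball_self hr) hw
    have h2 := K.injective this
    have h3 : ((r / 2 : ℝ) : ℂ) = 0 := by linear_combination -h2
    rw [Complex.ofReal_eq_zero] at h3
    linarith
  · -- the inverse is holomorphic in a punctured neighbourhood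
    have hinv : ∀ w ∈ U, deriv K w ≠ 0 → HasDerivAt K.symm (deriv K w)⁻¹ (K w) := by
      intro w hw hne
      refine HasDerivAt.of_local_left_inverse (f := K) K.symm.continuous.continuousAt ?_ hne
        (Eventually.of_forall fun y => K.apply_symm_apply y)
      rw [K.symm_apply_apply]
      exact hKz w hw
    have h1 : ∀ᶠ w in 𝓝[≠] z, DifferentiableAt ℂ K.symm (K w) := by
      filter_upwards [h, mem_nhdsWithin_of_mem_nhds (hU.mem_nhds hz)] with w hw hwU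
      exact (hinv w hwU hw).differentiableAt
    have h2 : ∀ᶠ y in 𝓝[≠] (K z), DifferentiableAt ℂ K.symm y := by
      have ht : Tendsto K.symm (𝓝[≠] (K z)) (𝓝[≠] z) := by
        refine tendsto_nhdsWithin_iff.2 ⟨?_, ?_⟩
        · have := (K.symm.continuous.tendsto (K z)).mono_left
            (nhdsWithin_le_nhds (s := {K z}ᶜ))
          rwa [K.symm_apply_apply] at this
        · filter_upwards [self_mem_nhdsWithin] with y hy hy'
          apply hy
          rw [mem_singleton_iff] at hy' ⊢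
          rw [← hy', K.apply_symm_apply]
      have := ht.eventually h1
      simpa only [K.apply_symm_apply] using this
    have h3 : DifferentiableAt ℂ K.symm (K z) :=
      (Complex.analyticAt_of_differentiable_on_punctured_nhds_of_continuousAt h2
        K.symm.continuous.continuousAt).differentiableAt
    have h4 : HasDerivAt (fun w => K.symm (K w)) (deriv K.symm (K z) * deriv K z) z :=
      h3.hasDerivAt.comp z (hKz z hz)
    have h5 : HasDerivAt (fun w => K.symm (K w)) 1 z := by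
      simp only [K.symm_apply_apply]
      exact hasDerivAt_id z
    have h6 := h4.unique h5
    rw [h0, mul_zero] at h6
    exact zero_ne_one h6

theorem IsTr_mono {n : ℕ} {A₁ A₂ : Blaschke n} {k k' : ℝ} {T : ℂ ≃ₜ ℂ} (h : IsTr A₁ A₂ k T)
    (hk : k ≤ k') : IsTr A₁ A₂ k' T where
  out := h.out
  inn := h.inn
  smooth := h.smooth
  nd := h.nd
  dil z hz := (h.dil z hz).trans (mul_le_mul_of_nonneg_right hk (norm_nonneg _))
  ident := h.ident
  semi := h.semi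
  mark := h.mark
  lift := h.lift

theorem TR_two (h : S_TR) {n : ℕ} (hn : 2 ≤ n) (A B : Blaschke n) :
    ∃ (k : ℝ) (TA TB : ℂ ≃ₜ ℂ), 0 ≤ k ∧ k < 1 ∧ IsTr (zn n) A k TA ∧ IsTr (zn n) B k TB := by
  obtain ⟨k₁, TA, h1, h2, h3⟩ := h n hn A
  obtain ⟨k₂, TB, h4, h5, h6⟩ := h n hn B
  exact ⟨max k₁ k₂, TA, TB, h1.trans (le_max_left _ _), max_lt h2 h5,
    IsTr_mono h3 (le_max_left _ _), IsTr_mono h6 (le_max_right _ _)⟩

/-- image of an invariant set -/
theorem image_eq {Q T : ℂ ≃ₜ ℂ} {φ : ℂ → ℂ} {S : Set ℂ} (hT : ∀ z, T z ∈ S ↔ z ∈ S)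
    (hQ : ∀ z ∈ S, Q z = φ (T z)) : φ '' S = Q '' S := by
  ext y
  constructor
  · rintro ⟨z, hz, rfl⟩
    have h1 : T.symm z ∈ S := by
      rw [← hT, T.apply_symm_apply]; exact hz
    exact ⟨T.symm z, h1, by rw [hQ _ h1, T.apply_symm_apply]⟩
  · rintro ⟨z, hz, rfl⟩
    exact ⟨T z, (hT z).2 hz, (hQ z hz).symm⟩

theorem isOpen_image {Q T : ℂ ≃ₜ ℂ} {φ : ℂ → ℂ} {S : Set ℂ} (hS : IsOpen S)
    (hT : ∀ z, T z ∈ S ↔ z ∈ S) (hQ : ∀ z ∈ S, Q z = φ (T z)) : IsOpen (φ '' S) := by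
  rw [image_eq hT hQ]
  exact Q.isOpenMap S hS

theorem mem_Ext_iff {n : ℕ} {A₁ A₂ : Blaschke n} {k : ℝ} {T : ℂ ≃ₜ ℂ} (h : IsTr A₁ A₂ k T) (z : ℂ) :
    T z ∈ Ext ↔ z ∈ Ext := h.out z

theorem mem_ball_iff' {n : ℕ} {A₁ A₂ : Blaschke n} {k : ℝ} {T : ℂ ≃ₜ ℂ} (h : IsTr A₁ A₂ k T)
    (z : ℂ) : T z ∈ ball (0 : ℂ) 1 ↔ z ∈ ball (0 : ℂ) 1 := by
  rw [mem_ball_zero_iff, mem_ball_zero_iff]
  exact h.inn z

/-- finite energy on bounded sets -/
theorem energy (hEN : S_EN) {k : ℝ} (hk0 : 0 ≤ k) (hk1 : k < 1) (Q : ℂ ≃ₜ ℂ) (hQ : QCOff k Q)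
    {U : Set ℂ} (hU : MeasurableSet U) (hU1 : U ⊆ Off) (hU2 : U ⊆ closedBall 0 2) :
    (∫⁻ z in U, ‖fderiv ℝ Q z‖ₑ ^ 2) < ⊤ := by
  have h1 := (hEN k Q U hk0 hk1 Q.injective hQ hU hU1).1
  refine h1.trans_lt ?_
  refine ENNReal.mul_lt_top ENNReal.ofReal_lt_top ?_
  have hc : IsCompact (Q '' closedBall 0 2) := (isCompact_closedBall 0 2).image Q.continuous
  exact (measure_mono (image_mono hU2)).trans_lt hc.measure_lt_top

theorem Ext_sub_CExt {z : ℂ} (hz : z ∈ Ext) : z ∈ CExt := by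
  have h : 1 < ‖z‖ := hz
  show 1 ≤ ‖z‖
  exact h.le

theorem enorm_sub_sq (a b : ℂ →L[ℝ] ℂ) : ‖a - b‖ₑ ^ 2 ≤ 2 * ‖a‖ₑ ^ 2 + 2 * ‖b‖ₑ ^ 2 := by
  have h1 : ‖a - b‖ ^ 2 ≤ 2 * ‖a‖ ^ 2 + 2 * ‖b‖ ^ 2 := by
    have h2 := norm_sub_le a b
    have h3 : ‖a - b‖ ^ 2 ≤ (‖a‖ + ‖b‖) ^ 2 := pow_le_pow_left₀ (norm_nonneg _) h2 2
    nlinarith [sq_nonneg (‖a‖ - ‖b‖)]
  have e : ∀ x : ℂ →L[ℝ] ℂ, ‖x‖ₑ ^ 2 = ENNReal.ofReal (‖x‖ ^ 2) := fun x => by
    rw [ENNReal.ofReal_pow (norm_nonneg _), ofReal_norm]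
  rw [e, e, e, show (2 : ℝ≥0∞) = ENNReal.ofReal 2 by simp, ← ENNReal.ofReal_mul (by norm_num),
    ← ENNReal.ofReal_mul (by norm_num), ← ENNReal.ofReal_add (by positivity) (by positivity)]
  exact ENNReal.ofReal_le_ofReal h1

end UNIQaux

open UNIQaux

theorem t_UNIQK (h1 : S_EN) (h2 : S_REM) (h3 : S_TR) (h4 : S_QMAP) : S_UNIQK := by
  intro n hn A B f φ ψ h K hm hK1 hK2 hK3
  obtain ⟨k, TA, TB, hk0, hk1, hTA, hTB⟩ := TR_two h3 hn A B
  obtain ⟨Q, hQ1, hQ2, hQ, hQ3, -⟩ := h4 n hn A B f φ ψ h k TA TB hm hTA hTB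
  have hQE : ∀ z ∈ Ext, Q z = φ (TA z) := fun z hz => hQ1 z (Ext_sub_CExt hz)
  have hQB : ∀ z ∈ ball (0 : ℂ) 1, Q z = ψ (TB z) := fun z hz => hQ2 z (ball_subset_closedBall hz)
  have oE : IsOpen (φ '' Ext) := isOpen_image isOpen_Ext (mem_Ext_iff hTA) hQE
  have oB : IsOpen (ψ '' ball 0 1) := isOpen_image isOpen_ball (mem_ball_iff' hTB) hQB
  set O : Set ℂ := φ '' Ext ∪ ψ '' ball 0 1 with hO
  have oO : IsOpen O := oE.union oB
  have hKO : DifferentiableOn ℂ K O := by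
    intro y hy
    rcases hy with hy | hy
    · exact ((hK1 y hy).differentiableAt (oE.mem_nhds hy)).differentiableWithinAt
    · exact ((hK2 y hy).differentiableAt (oB.mem_nhds hy)).differentiableWithinAt
  have hQO : ∀ z ∈ Off, Q z ∈ O := by
    intro z hz
    rw [Off_eq] at hz
    rcases hz with hz | hz
    · exact Or.inl ⟨TA z, (mem_Ext_iff hTA z).2 hz, (hQE z hz).symm⟩
    · exact Or.inr ⟨TB z, (mem_ball_iff' hTB z).2 hz, (hQB z hz).symm⟩
  have hKd : ∀ y ∈ O, HasDerivAt K (deriv K y) y := fun y hy =>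
    (hKO.differentiableAt (oO.mem_nhds hy)).hasDerivAt
  have hQd : ∀ z ∈ Off, DifferentiableAt ℝ Q z := fun z hz =>
    ((hQ.smooth z hz).contDiffAt (isOpen_Off.mem_nhds hz)).differentiableAt (by norm_num)
  -- `K ∘ Q` is quasiconformal off the circle
  have hKQ : QCOff k (Q.trans K) := by
    have e : (Q.trans K : ℂ → ℂ) = K ∘ Q := rfl
    rw [e]
    refine ⟨?_, fun z hz => ?_, fun z hz => ?_⟩
    · have hKs : ContDiffOn ℝ 2 K O := (hKO.contDiffOn oO).restrict_scalars ℝ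
      exact hKs.comp hQ.smooth hQO
    · rw [(dz_comp_left (hKd _ (hQO z hz)) (hQd z hz)).1]
      exact mul_ne_zero (deriv_ne K oO hKO (hQO z hz)) (hQ.nd z hz)
    · obtain ⟨e1, e2⟩ := dz_comp_left (hKd _ (hQO z hz)) (hQd z hz)
      rw [e1, e2, norm_mul, norm_mul]
      calc ‖deriv K (Q z)‖ * ‖dzb Q z‖ ≤ ‖deriv K (Q z)‖ * (k * ‖dz Q z‖) :=
            mul_le_mul_of_nonneg_left (hQ.dil z hz) (norm_nonneg _)
        _ = k * (‖deriv K (Q z)‖ * ‖dz Q z‖) := by ring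
  have hV := h2 k 2 Q (fun z => K z - z) hk1 (by norm_num) hQ (K.continuous.sub continuous_id) hK3
    ?_ ?_
  · intro z
    exact sub_eq_zero.1 (hV z)
  · intro y hy
    have hyO : y ∈ O := by
      have h5 : Q.symm y ∈ Off := by
        intro h6
        exact hy ⟨Q.symm y, h6, Q.apply_symm_apply y⟩
      have := hQO _ h5
      rwa [Q.apply_symm_apply] at this
    exact ((hKd y hyO).differentiableAt.sub differentiableAt_id).differentiableWithinAt
  · set U : Set ℂ := {z : ℂ | ‖z‖ ≠ 1 ∧ (2 : ℝ)⁻¹ < ‖z‖ ∧ ‖z‖ < 2} with hU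
    have hUm : MeasurableSet U := by
      have o : IsOpen U := (isOpen_ne_fun continuous_norm continuous_const).inter
        ((isOpen_lt continuous_const continuous_norm).inter
          (isOpen_lt continuous_norm continuous_const))
      exact o.measurableSet
    have hUO : U ⊆ Off := fun z hz => hz.1
    have hUB : U ⊆ closedBall 0 2 := fun z hz => by
      rw [mem_closedBall_zero_iff]; exact hz.2.2.le
    have f1 := energy h1 hk0 hk1 Q hQ hUm hUO hUB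
    have f2 := energy h1 hk0 hk1 (Q.trans K) hKQ hUm hUO hUB
    have hle : ∀ z ∈ U, ‖fderiv ℝ ((fun z => K z - z) ∘ Q) z‖ₑ ^ 2 ≤
        2 * ‖fderiv ℝ (Q.trans K) z‖ₑ ^ 2 + 2 * ‖fderiv ℝ Q z‖ₑ ^ 2 := by
      intro z hz
      have e : fderiv ℝ ((fun z => K z - z) ∘ Q) z = fderiv ℝ (Q.trans K) z - fderiv ℝ Q z := by
        have g1 : DifferentiableAt ℝ (Q.trans K) z :=
          ((hKQ.smooth z (hUO hz)).contDiffAt (isOpen_Off.mem_nhds (hUO hz))).differentiableAt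
            (by norm_num)
        exact (g1.hasFDerivAt.sub (hQd z (hUO hz)).hasFDerivAt).fderiv
      rw [e]
      exact enorm_sub_sq _ _
    have m1 : Measurable fun z => 2 * ‖fderiv ℝ (Q.trans K) z‖ₑ ^ 2 :=
      ((measurable_fderiv ℝ (Q.trans K)).enorm.pow_const 2).const_mul 2
    have m2 : Measurable fun z => ‖fderiv ℝ (Q.trans K) z‖ₑ ^ 2 :=
      (measurable_fderiv ℝ (Q.trans K)).enorm.pow_const 2
    have m3 : Measurable fun z => ‖fderiv ℝ Q z‖ₑ ^ 2 :=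
      (measurable_fderiv ℝ Q).enorm.pow_const 2
    calc (∫⁻ z in U, ‖fderiv ℝ ((fun z => K z - z) ∘ Q) z‖ₑ ^ 2)
        ≤ ∫⁻ z in U, (2 * ‖fderiv ℝ (Q.trans K) z‖ₑ ^ 2 + 2 * ‖fderiv ℝ Q z‖ₑ ^ 2) :=
          setLIntegral_mono' hUm hle
      _ = 2 * (∫⁻ z in U, ‖fderiv ℝ (Q.trans K) z‖ₑ ^ 2) +
          2 * (∫⁻ z in U, ‖fderiv ℝ Q z‖ₑ ^ 2) := by
          rw [lintegral_add_left m1, lintegral_const_mul _ m2, lintegral_const_mul _ m3]
      _ < ⊤ := ENNReal.add_lt_top.2 ⟨ENNReal.mul_lt_top (by norm_num) f2,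
          ENNReal.mul_lt_top (by norm_num) f1⟩

namespace UNIQaux

/-- transport by two models with the same transition map -/
theorem diff_K {Q Q' T : ℂ ≃ₜ ℂ} {φ φ' : ℂ → ℂ} {S : Set ℂ} (hS : IsOpen S)
    (hT : ∀ z, T z ∈ S ↔ z ∈ S) (hQ : ∀ z ∈ S, Q z = φ (T z)) (hQ' : ∀ z ∈ S, Q' z = φ' (T z))
    (hφ : DifferentiableOn ℂ φ S) (hφ' : DifferentiableOn ℂ φ' S)
    (hTd : ∀ z ∈ S, DifferentiableAt ℝ T z) (hnd : ∀ z ∈ S, dz Q z ≠ 0) :
    DifferentiableOn ℂ (Q.symm.trans Q') (φ '' S) := by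
  have oS : IsOpen (φ '' S) := isOpen_image hS hT hQ
  rintro y hy
  rw [image_eq hT hQ] at hy
  obtain ⟨w, hw, rfl⟩ := hy
  have hTw : T w ∈ S := (hT w).2 hw
  have hφd : HasDerivAt φ (deriv φ (T w)) (T w) :=
    (hφ.differentiableAt (hS.mem_nhds hTw)).hasDerivAt
  have hd : deriv φ (T w) ≠ 0 := by
    intro h0
    apply hnd w hw
    have e1 : (Q : ℂ → ℂ) =ᶠ[𝓝 w] φ ∘ T := by
      filter_upwards [hS.mem_nhds hw] with z hz
      exact hQ z hz
    rw [(dz_congr e1).1, (dz_comp_left hφd (hTd w hw)).1, h0, zero_mul]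
  set g : ℂ → ℂ := fun y => T (Q.symm y) with hg
  have hgy : g (Q w) = T w := by rw [hg]; simp only [Q.symm_apply_apply]
  have hSy : ∀ᶠ y in 𝓝 (Q w), Q.symm y ∈ S := by
    refine (Q.symm.continuous.tendsto (Q w)).eventually ?_
    rw [Q.symm_apply_apply]
    exact hS.mem_nhds hw
  have hgd : HasDerivAt g (deriv φ (T w))⁻¹ (Q w) := by
    refine HasDerivAt.of_local_left_inverse (f := φ) ?_ (by rw [hgy]; exact hφd) hd ?_
    · exact (T.continuous.comp Q.symm.continuous).continuousAt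
    · filter_upwards [hSy] with y hy
      rw [hg]
      simp only
      rw [← hQ _ hy, Q.apply_symm_apply]
  have hK : (Q.symm.trans Q' : ℂ → ℂ) =ᶠ[𝓝 (Q w)] φ' ∘ g := by
    filter_upwards [hSy] with y hy
    exact hQ' _ hy
  have h6 : DifferentiableAt ℂ (φ' ∘ g) (Q w) := by
    refine DifferentiableAt.comp (Q w) ?_ hgd.differentiableAt
    rw [hgy]
    exact hφ'.differentiableAt (hS.mem_nhds hTw)
  exact (hK.differentiableAt_iff.2 h6).differentiableWithinAt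

end UNIQaux

theorem t_UNIQ (h1 : S_TR) (h2 : S_QMAP) (h3 : S_UNIQK) (h4 : S_DET) : S_UNIQ := by
  rintro n hn A B f f' ⟨φ, ψ, h, hm⟩ ⟨φ', ψ', h', hm'⟩
  obtain ⟨k, TA, TB, hk0, hk1, hTA, hTB⟩ := TR_two h1 hn A B
  obtain ⟨Q, hQ1, hQ2, hQ, hQ3, -⟩ := h2 n hn A B f φ ψ h k TA TB hm hTA hTB
  obtain ⟨Q', hQ1', hQ2', hQ', hQ3', -⟩ := h2 n hn A B f' φ' ψ' h' k TA TB hm' hTA hTB
  have hTAd : ∀ z ∈ Off, DifferentiableAt ℝ TA z := fun z hz =>
    ((hTA.smooth z hz).contDiffAt (isOpen_Off.mem_nhds hz)).differentiableAt (by simp)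
  have hTBd : ∀ z ∈ Off, DifferentiableAt ℝ TB z := fun z hz =>
    ((hTB.smooth z hz).contDiffAt (isOpen_Off.mem_nhds hz)).differentiableAt (by simp)
  have hE : ∀ z ∈ Ext, z ∈ CExt := fun z hz => Ext_sub_CExt hz
  have hB : ∀ z ∈ ball (0 : ℂ) 1, z ∈ closedBall (0 : ℂ) 1 := fun z hz => ball_subset_closedBall hz
  have hK := h3 n hn A B f φ ψ h (Q.symm.trans Q') hm
    (diff_K isOpen_Ext (mem_Ext_iff hTA) (fun z hz => hQ1 z (hE z hz)) (fun z hz => hQ1' z (hE z hz))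
      hm.ext.diff hm'.ext.diff (fun z hz => hTAd z (Ext_subset_Off hz))
      (fun z hz => hQ.nd z (Ext_subset_Off hz)))
    (diff_K isOpen_ball (mem_ball_iff' hTB) (fun z hz => hQ2 z (hB z hz))
      (fun z hz => hQ2' z (hB z hz)) hm.diffψ hm'.diffψ (fun z hz => hTBd z (ball_subset_Off hz))
      (fun z hz => hQ.nd z (ball_subset_Off hz))) ?_
  · refine h4 n (by omega) A f f' φ φ' hm.ext hm'.ext fun z hz => ?_
    have hw : TA.symm z ∈ Ext := by
      rw [← mem_Ext_iff hTA, TA.apply_symm_apply]; exact hz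
    have e1 : Q (TA.symm z) = φ z := by rw [hQ1 _ (hE _ hw), TA.apply_symm_apply]
    have e2 : Q' (TA.symm z) = φ' z := by rw [hQ1' _ (hE _ hw), TA.apply_symm_apply]
    have e3 := hK (φ z)
    rw [← e1] at e3
    have e4 : (Q.symm.trans Q') (Q (TA.symm z)) = Q' (TA.symm z) := by
      show Q' (Q.symm (Q (TA.symm z))) = _
      rw [Q.symm_apply_apply]
    rw [e4, e2, e1] at e3
    exact e3.symm
  · have ht : Tendsto Q.symm (cocompact ℂ) (cocompact ℂ) := Q.symm.isClosedEmbedding.tendsto_cocompact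
    have h5 := (hQ3'.comp ht).sub (hQ3.comp ht)
    rw [sub_zero] at h5
    refine h5.congr fun z => ?_
    show (Q' (Q.symm z) - Q.symm z) - (Q (Q.symm z) - Q.symm z) = Q' (Q.symm z) - z
    rw [Q.apply_symm_apply]
    ring

end Pool.Agent.H212.MB
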