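import Pool.Agent.H212.MB.T_QS1
import Pool.Agent.H212.MB.T_QSLIM
import Pool.Agent.H212.MB.T_EN
import Pool.Agent.H212.MB.T_LA
import Pool.Agent.H212.MB.T_MRMT
import Pool.Agent.H212.MB.T_REM0
import Pool.Agent.H212.MB.T_REM
import Pool.Agent.H212.MB.T_SIG
import Pool.Agent.H212.MB.T_SIGLIM
import Pool.Agent.H212.MB.T_LIFT
import Pool.Agent.H212.MB.T_INVB
import Pool.Agent.H212.MB.T_FUND
import Pool.Agent.H212.MB.T_HALF
import Pool.Agent.H212.MB.T_PROP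
import Pool.Agent.H212.MB.T_DISC
import Pool.Agent.H212.MB.T_TRALG
import Pool.Agent.H212.MB.T_BL
import Pool.Agent.H212.MB.T_RTOP
import Pool.Agent.H212.MB.T_POLE
import Pool.Agent.H212.MB.T_QFORM
import Pool.Agent.H212.MB.T_EXTU
import Pool.Agent.H212.MB.T_CPT
import Pool.Agent.H212.MB.T_CIRC
import Pool.Agent.H212.MB.T_QMAP
import Pool.Agent.H212.MB.T_POW
import Pool.Agent.H212.MB.T_RAT
import Pool.Agent.H212.MB.T_SURGA
import Pool.Agent.H212.MB.T_SURG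
import Pool.Agent.H212.MB.T_UNIQ
import Pool.Agent.H212.MB.T_MATE
import Pool.Agent.H212.MB.T_STAB
import Pool.Agent.H212.MB.T_LIM
import Pool.Agent.H212.MB.T_REL
import Pool.Agent.H212.MB.T_CLOS
import Pool.Agent.H212.MB.T_ONTO
import Pool.Agent.H212.MB.T_DISP
import Pool.Agent.H212.MB.T_KOE
import Pool.Agent.H212.MB.T_GQS
import Pool.Agent.H212.MB.T_GLUE
import Pool.Agent.H212.MB.T_EQV
import Pool.Agent.H212.MB.T_TRANS
import Pool.Agent.H212.MB.T_ASM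
import Pool.Agent.H212.MB.T_FINAL

/-!
# Boundaries of spaces of matings with Blaschke products: assembly of all the parts
-/

namespace Pool.Agent.H212.MB

theorem hLA : S_LA := la_of (t_LA0 t_EN) t_INV
theorem hQSLIM : S_QSLIM := t_QSLIM t_RATIO t_SMALL t_INV
theorem hREM : S_REM := t_REM t_REM0 t_EN
theorem hSIGLIM : S_SIGLIM := t_SIGLIM t_SIG
theorem hTR : S_TR := tr_of t_LIFT t_INVB (t_FUND t_STEP) t_HALF (t_DISC t_PROP)
theorem hDET : S_DET := t_DET t_BL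
theorem hPOLE : S_POLE := t_POLE t_BL t_SIG
theorem hQFORM : S_QFORM := t_QFORM t_BL t_SIG hPOLE
theorem hFINV : S_FINV := t_FINV t_BL hQFORM
theorem hEXTU : S_EXTU := t_EXTU t_BL t_SIG hQFORM
theorem hCPT : S_CPT := t_CPT t_BL t_SIG hSIGLIM t_RTOP hPOLE hQFORM
theorem hQMAP : S_QMAP := t_QMAP t_BL t_CIRC
theorem hRAT : S_RAT := t_RAT t_BL t_SIG hPOLE t_POW t_EN hREM t_TRALG
theorem hSURGA : S_SURGA := t_SURGA hQSLIM hLA t_MRMT t_SIG
theorem hSURG : S_SURG := t_SURG hSURGA hQMAP hRAT hTR t_TRALG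
theorem hUNIQK : S_UNIQK := t_UNIQK t_EN hREM hTR hQMAP
theorem hUNIQ : S_UNIQ := t_UNIQ hTR hQMAP hUNIQK hDET
theorem hMATE : S_MATE := t_MATE t_BL
theorem hSTAB : S_STAB := t_STAB t_BL t_RTOP hQFORM
theorem hLIM : S_LIM := t_LIM t_BL t_RTOP t_SIG hQSLIM hQFORM hCPT
theorem hREL : S_REL := t_REL t_BL hTR t_TRALG hSURG hUNIQK hUNIQ hDET hEXTU
theorem hCLOS : S_CLOS := t_CLOS t_RTOP hEXTU hCPT t_TRALG hMATE hSTAB hLIM hREL
theorem hONTO : S_ONTO := t_ONTO t_SIG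
theorem hKOE : S_KOE := t_KOE t_SIG t_NE
theorem hGQS : S_GQS := t_GQS t_RATIO t_INV
theorem hGLUE : S_GLUE := t_GLUE t_SIG t_NE hONTO t_DISP hKOE hGQS
theorem hEQV : S_EQV := t_EQV t_BL t_INV t_COMP hQFORM hEXTU hONTO
theorem hTRANS : S_TRANS := t_TRANS t_BL t_INV t_COMP hQFORM hEXTU hFINV hONTO hGLUE

/-- the answer, all parts assembled -/
theorem final : Final := t_FINAL t_RTOP hUNIQ hREL hCLOS hEQV hTRANS t_ASM

end Pool.Agent.H212.MB
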