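import Pool.Agent.H212.MB.Defs

/-!
# The derivatives `∂/∂z` and `∂/∂z̄`, basic facts
-/

set_option autoImplicit false

open Filter Metric Set Topology MeasureTheory
open scoped ContDiff ComplexConjugate

namespace Pool.Agent.H212.MB

/-- the derivative `∂f/∂z` -/
noncomputable def dz (f : ℂ → ℂ) (z : ℂ) : ℂ :=
  (fderiv ℝ f z 1 - Complex.I * fderiv ℝ f z Complex.I) / 2

/-- the derivative `∂f/∂z̄` -/
noncomputable def dzb (f : ℂ → ℂ) (z : ℂ) : ℂ :=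
  (fderiv ℝ f z 1 + Complex.I * fderiv ℝ f z Complex.I) / 2

/-- the real linear map `v ↦ α v + β conj v` -/
noncomputable def LL (α β : ℂ) : ℂ →L[ℝ] ℂ :=
  α • (ContinuousLinearMap.id ℝ ℂ) + β • (Complex.conjCLE : ℂ →L[ℝ] ℂ)

@[simp] theorem LL_apply (α β v : ℂ) : LL α β v = α * v + β * conj v := by
  simp [LL]

theorem clm_eq (L : ℂ →L[ℝ] ℂ) :
    L = LL ((L 1 - Complex.I * L Complex.I) / 2) ((L 1 + Complex.I * L Complex.I) / 2) := by
  apply ContinuousLinearMap.ext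
  intro v
  have h1 : v = v.re • (1 : ℂ) + v.im • Complex.I := by
    apply Complex.ext <;> simp
  have h4 : L v = v.re • L 1 + v.im • L Complex.I := by
    conv_lhs => rw [h1]
    rw [map_add, map_smul, map_smul]
  rw [h4, LL_apply]
  have h5 : v = (v.re : ℂ) + v.im * Complex.I := (Complex.re_add_im v).symm
  have h6 : conj v = (v.re : ℂ) - v.im * Complex.I := by
    apply Complex.ext <;> simp
  have h7 : ∀ a b : ℂ, a * v + b * conj v =
      a * ((v.re : ℂ) + v.im * Complex.I) + b * ((v.re : ℂ) - v.im * Complex.I) := by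
    intro a b
    rw [h6, ← h5]
  rw [h7]
  simp only [Complex.real_smul]
  linear_combination ((v.im : ℂ) * L Complex.I) * Complex.I_mul_I

theorem fderiv_eq (f : ℂ → ℂ) (z : ℂ) : fderiv ℝ f z = LL (dz f z) (dzb f z) := clm_eq _

theorem fderiv_apply (f : ℂ → ℂ) (z v : ℂ) : fderiv ℝ f z v = dz f z * v + dzb f z * conj v := by
  rw [fderiv_eq, LL_apply]

theorem LL_inj {α β α' β' : ℂ} (h : LL α β = LL α' β') : α = α' ∧ β = β' := by
  have h1 := congrArg (fun L : ℂ →L[ℝ] ℂ => L 1) h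
  have h2 := congrArg (fun L : ℂ →L[ℝ] ℂ => L Complex.I) h
  simp at h1 h2
  have h3 : α - α' + (β - β') = 0 := by linear_combination h1
  have h4 : (α - α') - (β - β') = 0 := by
    have : Complex.I * ((α - α') - (β - β')) = 0 := by linear_combination h2
    exact (mul_eq_zero.1 this).resolve_left Complex.I_ne_zero
  constructor
  · linear_combination (1 / 2 : ℂ) * h3 + (1 / 2 : ℂ) * h4
  · linear_combination (1 / 2 : ℂ) * h3 - (1 / 2 : ℂ) * h4

theorem dz_of {f : ℂ → ℂ} {z α β : ℂ} (h : HasFDerivAt f (LL α β) z) : dz f z = α ∧ dzb f z = β := by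
  apply LL_inj
  rw [← fderiv_eq]
  exact h.fderiv

theorem hasFDerivAt_LL {f : ℂ → ℂ} {z : ℂ} (h : DifferentiableAt ℝ f z) :
    HasFDerivAt f (LL (dz f z) (dzb f z)) z := by
  rw [← fderiv_eq]
  exact h.hasFDerivAt

theorem norm_LL_le (α β : ℂ) : ‖LL α β‖ ≤ ‖α‖ + ‖β‖ := by
  apply ContinuousLinearMap.opNorm_le_bound _ (by positivity)
  intro v
  rw [LL_apply]
  refine (norm_add_le _ _).trans ?_
  rw [norm_mul, norm_mul, Complex.norm_conj]
  linarith [add_mul ‖α‖ ‖β‖ ‖v‖]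

theorem norm_fderiv_le (f : ℂ → ℂ) (z : ℂ) : ‖fderiv ℝ f z‖ ≤ ‖dz f z‖ + ‖dzb f z‖ := by
  rw [fderiv_eq]
  exact norm_LL_le _ _

theorem norm_dz_le (f : ℂ → ℂ) (z : ℂ) : ‖dz f z‖ ≤ ‖fderiv ℝ f z‖ := by
  have h1 : ‖fderiv ℝ f z 1‖ ≤ ‖fderiv ℝ f z‖ := by
    simpa using (fderiv ℝ f z).le_opNorm 1
  have h2 : ‖fderiv ℝ f z Complex.I‖ ≤ ‖fderiv ℝ f z‖ := by
    simpa using (fderiv ℝ f z).le_opNorm Complex.I
  rw [dz, norm_div, Complex.norm_ofNat]
  have h3 := norm_sub_le (fderiv ℝ f z 1) (Complex.I * fderiv ℝ f z Complex.I)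
  rw [norm_mul, Complex.norm_I, one_mul] at h3
  linarith

theorem norm_dzb_le (f : ℂ → ℂ) (z : ℂ) : ‖dzb f z‖ ≤ ‖fderiv ℝ f z‖ := by
  have h1 : ‖fderiv ℝ f z 1‖ ≤ ‖fderiv ℝ f z‖ := by
    simpa using (fderiv ℝ f z).le_opNorm 1
  have h2 : ‖fderiv ℝ f z Complex.I‖ ≤ ‖fderiv ℝ f z‖ := by
    simpa using (fderiv ℝ f z).le_opNorm Complex.I
  rw [dzb, norm_div, Complex.norm_ofNat]
  have h3 := norm_add_le (fderiv ℝ f z 1) (Complex.I * fderiv ℝ f z Complex.I)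
  rw [norm_mul, Complex.norm_I, one_mul] at h3
  linarith

/-- the determinant of `v ↦ α v + β conj v` -/
theorem det_LL (α β : ℂ) : (LL α β).det = ‖α‖ ^ 2 - ‖β‖ ^ 2 := by
  have h1 : (LL α β).det = LinearMap.det ((LL α β : ℂ →L[ℝ] ℂ) : ℂ →ₗ[ℝ] ℂ) := rfl
  rw [h1, ← LinearMap.det_toMatrix Complex.basisOneI, Matrix.det_fin_two]
  simp only [LinearMap.toMatrix_apply, ContinuousLinearMap.coe_coe, LL_apply,
    Complex.coe_basisOneI, Complex.coe_basisOneI_repr, Matrix.cons_val_zero, Matrix.cons_val_one]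
  rw [← Complex.normSq_eq_norm_sq, ← Complex.normSq_eq_norm_sq, Complex.normSq_apply,
    Complex.normSq_apply]
  simp
  ring

theorem det_fderiv (f : ℂ → ℂ) (z : ℂ) : (fderiv ℝ f z).det = ‖dz f z‖ ^ 2 - ‖dzb f z‖ ^ 2 := by
  rw [fderiv_eq, det_LL]

/-- holomorphic functions have `∂/∂z̄ = 0` -/
theorem dz_of_hasDerivAt {f : ℂ → ℂ} {z d : ℂ} (h : HasDerivAt f d z) : dz f z = d ∧ dzb f z = 0 := by
  apply dz_of
  have h1 := h.hasFDerivAt.restrictScalars ℝ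
  have h2 : LL d 0 = ContinuousLinearMap.restrictScalars ℝ (ContinuousLinearMap.toSpanSingleton ℂ d) := by
    apply ContinuousLinearMap.ext
    intro v
    simp [mul_comm]
  rw [h2]
  exact h1

/-- a real differentiable function with `∂f/∂z̄ = 0` is holomorphic -/
theorem hasDerivAt_of_dzb {f : ℂ → ℂ} {z : ℂ} (h : DifferentiableAt ℝ f z) (h0 : dzb f z = 0) :
    HasDerivAt f (dz f z) z := by
  have h1 := hasFDerivAt_LL h
  rw [h0] at h1
  rw [hasDerivAt_iff_hasFDerivAt]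
  rw [hasFDerivAt_iff_isLittleO_nhds_zero] at h1 ⊢
  refine h1.congr (fun v => ?_) (fun v => rfl)
  simp [mul_comm]

/-- the chain rule in general -/
theorem dz_comp {f g : ℂ → ℂ} {z : ℂ} (hg : DifferentiableAt ℝ g (f z)) (hf : DifferentiableAt ℝ f z) :
    dz (g ∘ f) z = dz g (f z) * dz f z + dzb g (f z) * conj (dzb f z) ∧
    dzb (g ∘ f) z = dz g (f z) * dzb f z + dzb g (f z) * conj (dz f z) := by
  apply dz_of
  have h1 := (hasFDerivAt_LL hg).comp z (hasFDerivAt_LL hf)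
  have h2 : LL (dz g (f z) * dz f z + dzb g (f z) * conj (dzb f z))
      (dz g (f z) * dzb f z + dzb g (f z) * conj (dz f z)) =
      (LL (dz g (f z)) (dzb g (f z))).comp (LL (dz f z) (dzb f z)) := by
    apply ContinuousLinearMap.ext
    intro v
    simp
    ring
  rw [h2]
  exact h1

/-- composition with a holomorphic function on the left -/
theorem dz_comp_left {f g : ℂ → ℂ} {z d : ℂ} (hg : HasDerivAt g d (f z)) (hf : DifferentiableAt ℝ f z) :
    dz (g ∘ f) z = d * dz f z ∧ dzb (g ∘ f) z = d * dzb f z := by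
  obtain ⟨h1, h2⟩ := dz_of_hasDerivAt hg
  obtain ⟨h3, h4⟩ := dz_comp (hg.differentiableAt.restrictScalars ℝ) hf
  rw [h3, h4, h1, h2]
  simp

/-- composition with a holomorphic function on the right -/
theorem dz_comp_right {f g : ℂ → ℂ} {z d : ℂ} (hg : DifferentiableAt ℝ g (f z)) (hf : HasDerivAt f d z) :
    dz (g ∘ f) z = dz g (f z) * d ∧ dzb (g ∘ f) z = dzb g (f z) * conj d := by
  obtain ⟨h1, h2⟩ := dz_of_hasDerivAt hf
  obtain ⟨h3, h4⟩ := dz_comp hg (hf.differentiableAt.restrictScalars ℝ)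
  rw [h3, h4, h1, h2]
  simp

theorem dz_congr {f g : ℂ → ℂ} {z : ℂ} (h : f =ᶠ[𝓝 z] g) : dz f z = dz g z ∧ dzb f z = dzb g z := by
  unfold dz dzb
  rw [h.fderiv_eq]
  exact ⟨rfl, rfl⟩

/-- `v ↦ α v + β conj v` is injective if `|β| < |α|` -/
theorem LL_injective {α β : ℂ} (h : ‖β‖ < ‖α‖) : Function.Injective (LL α β) := by
  rw [injective_iff_map_eq_zero]
  intro v hv
  rw [LL_apply] at hv
  have h1 : ‖α * v‖ = ‖β * conj v‖ := by
    rw [eq_neg_of_add_eq_zero_left hv, norm_neg]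
  rw [norm_mul, norm_mul, Complex.norm_conj] at h1
  by_contra h0
  have h2 : 0 < ‖v‖ := norm_pos_iff.2 h0
  have h3 : ‖β‖ * ‖v‖ < ‖α‖ * ‖v‖ := mul_lt_mul_of_pos_right h h2
  linarith

/-- `v ↦ α v + β conj v` as an equivalence if `|β| < |α|` -/
noncomputable def LLe {α β : ℂ} (h : ‖β‖ < ‖α‖) : ℂ ≃L[ℝ] ℂ :=
  (LinearEquiv.ofInjectiveEndo (LL α β : ℂ →ₗ[ℝ] ℂ) (LL_injective h)).toContinuousLinearEquiv

theorem LLe_coe {α β : ℂ} (h : ‖β‖ < ‖α‖) : ((LLe h : ℂ ≃L[ℝ] ℂ) : ℂ →L[ℝ] ℂ) = LL α β := by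
  ext
  rfl

theorem LLe_apply {α β : ℂ} (h : ‖β‖ < ‖α‖) (v : ℂ) : LLe h v = α * v + β * conj v := by
  rw [← LL_apply]
  rfl

/-- the Jacobian controls the norm of the derivative -/
theorem sq_norm_le_det {k : ℝ} (hk1 : k < 1) {f : ℂ → ℂ} {z : ℂ} (h : ‖dzb f z‖ ≤ k * ‖dz f z‖) :
    ‖fderiv ℝ f z‖ ^ 2 ≤ (1 + k) / (1 - k) * (fderiv ℝ f z).det := by
  have h0 : 0 < 1 - k := by linarith
  have h1 := norm_fderiv_le f z
  have h2 : 0 ≤ ‖fderiv ℝ f z‖ := norm_nonneg _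
  have ha : 0 ≤ ‖dz f z‖ := norm_nonneg _
  have hb : 0 ≤ ‖dzb f z‖ := norm_nonneg _
  rw [det_fderiv]
  have h3 : ‖fderiv ℝ f z‖ ^ 2 ≤ (‖dz f z‖ + ‖dzb f z‖) ^ 2 := by gcongr
  refine h3.trans ?_
  rw [div_mul_eq_mul_div, le_div_iff₀ h0]
  have h4 : 0 ≤ (k * ‖dz f z‖ - ‖dzb f z‖) * (‖dz f z‖ + ‖dzb f z‖) :=
    mul_nonneg (by linarith) (by positivity)
  nlinarith [h4]

theorem norm_dzb_lt {k : ℝ} (hk1 : k < 1) {f : ℂ → ℂ} {z : ℂ} (h0 : dz f z ≠ 0)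
    (h : ‖dzb f z‖ ≤ k * ‖dz f z‖) : ‖dzb f z‖ < ‖dz f z‖ := by
  have h1 : 0 < ‖dz f z‖ := norm_pos_iff.2 h0
  nlinarith

/-- the complement of the unit circle -/
def Off : Set ℂ := {z | ‖z‖ ≠ 1}

theorem isOpen_Off : IsOpen Off := isOpen_ne_fun continuous_norm continuous_const

theorem isOpen_Ext : IsOpen Ext := isOpen_lt continuous_const continuous_norm

theorem Ext_subset_Off : Ext ⊆ Off := fun _ hz => ne_of_gt hz

theorem ball_subset_Off : ball (0 : ℂ) 1 ⊆ Off := fun z hz => by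
  rw [mem_ball_zero_iff] at hz
  exact ne_of_lt hz

theorem Off_eq : Off = Ext ∪ ball 0 1 := by
  ext z
  simp only [Off, Ext, mem_ofPred_eq, mem_union, mem_ball_zero_iff]
  constructor
  · intro h
    rcases lt_or_gt_of_ne h with h | h
    · exact Or.inr h
    · exact Or.inl h
  · rintro (h | h)
    · exact ne_of_gt h
    · exact ne_of_lt h

/-- `Q` is twice continuously differentiable off the unit circle, with `∂Q/∂z ≠ 0` and with
dilatation at most `k` there. -/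
structure QCOff (k : ℝ) (Q : ℂ → ℂ) : Prop where
  smooth : ContDiffOn ℝ 2 Q Off
  nd : ∀ z ∈ Off, dz Q z ≠ 0
  dil : ∀ z ∈ Off, ‖dzb Q z‖ ≤ k * ‖dz Q z‖

/-- the class `Σ` -/
structure Sig (φ : ℂ → ℂ) : Prop where
  diff : DifferentiableOn ℂ φ Ext
  inj : InjOn φ Ext
  norm : Tendsto (fun z => φ z - z) (cocompact ℂ) (𝓝 0)

theorem IsExt.sig {n : ℕ} {A : Blaschke n} {f : RMap n} {φ : ℂ → ℂ} (h : IsExt A f φ) : Sig φ :=
  ⟨h.diff, h.inj, h.norm⟩

end Pool.Agent.H212.MB
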