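import Mathlib

/-!
# Matings of Blaschke products and the boundaries of the spaces `B(A)`: definitions

`Ext` is the exterior of the closed unit disc.  Rational maps `f` of degree `n` with `f ∞ = ∞` are
represented by their numerator and denominator.  The Blaschke product `A` acts on `Ext ∪ {∞}`,
the Blaschke product `B` acts on the closed unit disc.
-/

set_option autoImplicit false

open Filter Metric Set Topology Polynomial
open scoped ContDiff ComplexConjugate

namespace Pool.Agent.H212.MB

/-- the exterior of the closed unit disc -/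
def Ext : Set ℂ := {z | 1 < ‖z‖}

/-- the complement of the open unit disc -/
def CExt : Set ℂ := {z | 1 ≤ ‖z‖}

/-- A finite Blaschke product of degree `n` which fixes `0`,
`z ↦ c z ∏ i, (z - a i) / (1 - conj (a i) z)`, with a distinguished fixed point `b` on the unit
circle. -/
structure Blaschke (n : ℕ) where
  c : ℂ
  a : Fin (n - 1) → ℂ
  b : ℂ
  norm_c : ‖c‖ = 1
  norm_a : ∀ i, ‖a i‖ < 1
  norm_b : ‖b‖ = 1
  fix : c * b * ∏ i, ((b - a i) / (1 - conj (a i) * b)) = b

namespace Blaschke

variable {n : ℕ} (A : Blaschke n)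

/-- the numerator -/
noncomputable def num (z : ℂ) : ℂ := A.c * z * ∏ i, (z - A.a i)

/-- the denominator; its zeros are the poles of the Blaschke product in the plane -/
noncomputable def den (z : ℂ) : ℂ := ∏ i, (1 - conj (A.a i) * z)

/-- the Blaschke product as a function on the plane (to be used where `A.den z ≠ 0`) -/
noncomputable def ev (z : ℂ) : ℂ := A.num z / A.den z

end Blaschke

/-- the Blaschke product `z ^ n` with the fixed point `1` -/
noncomputable def zn (n : ℕ) : Blaschke n where
  c := 1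
  a := fun _ => 0
  b := 1
  norm_c := by simp
  norm_a := by simp
  norm_b := by simp
  fix := by simp

/-- Rational maps of degree `n` with `f ∞ = ∞`: `f = P / Q` with `P` monic of degree `n`, `Q` of
degree less than `n`, and `P`, `Q` coprime. -/
structure RMap (n : ℕ) where
  P : ℂ[X]
  Q : ℂ[X]
  monic : P.Monic
  natDegree : P.natDegree = n
  degree_lt : Q.degree < n
  coprime : IsCoprime P Q

namespace RMap

variable {n : ℕ}

/-- the value of the rational map at a point which is not a pole (`Q z ≠ 0`) -/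
noncomputable def ev (f : RMap n) (z : ℂ) : ℂ := f.P.eval z / f.Q.eval z

/-- the pair of the coefficient sequences -/
noncomputable def coeffs (f : RMap n) : (ℕ → ℂ) × (ℕ → ℂ) := (fun i => f.P.coeff i, fun i => f.Q.coeff i)

/-- the topology of the space of rational maps: convergence of the coefficients -/
noncomputable instance : TopologicalSpace (RMap n) := TopologicalSpace.induced coeffs inferInstance

end RMap

/-- `φ` is the normalised Riemann map of the immediate basin of infinity of `f`, and it conjugates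
the Blaschke product `A` on `Ext ∪ {∞}` to `f`. -/
structure IsExt {n : ℕ} (A : Blaschke n) (f : RMap n) (φ : ℂ → ℂ) : Prop where
  diff : DifferentiableOn ℂ φ Ext
  inj : InjOn φ Ext
  norm : Tendsto (fun z => φ z - z) (cocompact ℂ) (𝓝 0)
  semi : ∀ z ∈ Ext, A.den z ≠ 0 → f.Q.eval (φ z) ≠ 0 ∧ f.ev (φ z) = φ (A.ev z)

/-- `f` is the mating of `A` and `B`, with the conformal maps `φ` of the exterior (where `A` acts)
and `ψ` of the disc (where `B` acts), glued along the circle with the orientation preserving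
homeomorphism `exp (i x) ↦ exp (i h x)`. -/
structure IsMatingData {n : ℕ} (A B : Blaschke n) (f : RMap n) (φ ψ : ℂ → ℂ) (h : ℝ → ℝ) : Prop where
  ext : IsExt A f φ
  contφ : ContinuousOn φ CExt
  diffψ : DifferentiableOn ℂ ψ (ball 0 1)
  contψ : ContinuousOn ψ (closedBall 0 1)
  injψ : InjOn ψ (closedBall 0 1)
  semiψ : ∀ z ∈ closedBall (0 : ℂ) 1, f.Q.eval (ψ z) ≠ 0 ∧ f.ev (ψ z) = ψ (B.ev z)
  compl : φ '' Ext = (ψ '' closedBall 0 1)ᶜ
  conth : Continuous h
  monoh : StrictMono h
  perh : ∀ x, h (x + 2 * Real.pi) = h x + 2 * Real.pi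
  glue : ∀ x : ℝ, φ (Complex.exp (x * Complex.I)) = ψ (Complex.exp (h x * Complex.I))
  mark : φ A.b = ψ B.b

/-- `f` is the mating `f(A, B)` of the marked Blaschke products `A` and `B`. -/
def IsMating {n : ℕ} (A B : Blaschke n) (f : RMap n) : Prop :=
  ∃ (φ ψ : ℂ → ℂ) (h : ℝ → ℝ), IsMatingData A B f φ ψ h

/-- the space `B(A)` of the matings `f(A, B)` with `A` fixed -/
def BB {n : ℕ} (A : Blaschke n) : Set (RMap n) := {f | ∃ B : Blaschke n, IsMating A B f}

/-- the boundary of `B(A)` in the space of rational maps -/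
def bd {n : ℕ} (A : Blaschke n) : Set (RMap n) := closure (BB A) \ BB A

/-- weak quasisymmetry with constant `C` -/
def WQS (C : ℝ) (k : ℂ → ℂ) : Prop :=
  ∀ x a b : ℂ, ‖a - x‖ ≤ ‖b - x‖ → ‖k a - k x‖ ≤ C * ‖k b - k x‖

/-- Quasiconformality of a homeomorphism of the plane: for homeomorphisms of the plane weak
quasisymmetry is equivalent to quasiconformality (up to orientation). -/
def IsQC (k : ℂ → ℂ) : Prop := ∃ C : ℝ, WQS C k

/-- `f` and `f'` (with the same `A` at infinity) are quasiconformally conjugate, by a quasiconformal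
homeomorphism `k` of the sphere which fixes `∞` and respects the marking: in the coordinates `φ`,
`φ'` of the basins of infinity the conjugacy `k` becomes a homeomorphism `η` of `Ext`, which has
the boundary values `ζ ↦ ζ` on the unit circle.  (The boundary values always commute with `A`;
they are the identity iff `k` preserves the orientation and the distinguished fixed point `b`.) -/
def QCConj {n : ℕ} (A : Blaschke n) (f f' : RMap n) : Prop :=
  ∃ (k : ℂ ≃ₜ ℂ) (φ φ' η : ℂ → ℂ), IsQC k ∧ IsExt A f φ ∧ IsExt A f' φ' ∧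
    (∀ z, (f'.Q.eval (k z) = 0 ↔ f.Q.eval z = 0) ∧ (f.Q.eval z ≠ 0 → f'.ev (k z) = k (f.ev z))) ∧
    MapsTo η Ext Ext ∧ (∀ z ∈ Ext, k (φ z) = φ' (η z)) ∧
    ∀ ζ : ℂ, ‖ζ‖ = 1 → Tendsto η (𝓝[Ext] ζ) (𝓝 ζ)

/-- the relation on the boundary of `B(A)` -/
def bdRel {n : ℕ} (A : Blaschke n) (f f' : bd A) : Prop := QCConj A f f'

/-- the relation on the closure of `B(A)`: equality on `B(A)`, quasiconformal conjugacy on the
boundary -/
def clRel {n : ℕ} (A : Blaschke n) (f f' : closure (BB A)) : Prop :=
  f = f' ∨ ((f : RMap n) ∈ bd A ∧ (f' : RMap n) ∈ bd A ∧ QCConj A f f')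

/-- the space `∂(A)` with the quotient topology -/
abbrev BdQ {n : ℕ} (A : Blaschke n) : Type := Quot (bdRel A)

/-- the space `B(A) ⊔ ∂(A)` with the quotient topology of the closure -/
abbrev ClQ {n : ℕ} (A : Blaschke n) : Type := Quot (clRel A)

/-- the class of a point of `B(A)` in `B(A) ⊔ ∂(A)` -/
def ofB {n : ℕ} (A : Blaschke n) (f : BB A) : ClQ A := Quot.mk _ ⟨f, subset_closure f.2⟩

/-- the class of a point of the boundary in `B(A) ⊔ ∂(A)` -/
def ofBd {n : ℕ} (A : Blaschke n) (f : bd A) : ClQ A := Quot.mk _ ⟨f, f.2.1⟩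

/-- the answer -/
def Final : Prop :=
  ∀ (n : ℕ), 1 < n → ∀ A : Blaschke n,
    (∀ B : Blaschke n, ∃! f : RMap n, IsMating A B f) ∧ Equivalence (bdRel A) ∧
    Equivalence (clRel A) ∧ IsCompact (closure (BB A)) ∧
    ∃ (F : BB (zn n) ≃ₜ BB A) (Φ : BdQ (zn n) ≃ₜ BdQ A) (Ψ : ClQ (zn n) ≃ₜ ClQ A),
      (∀ (g : BB (zn n)) (B : Blaschke n), IsMating (zn n) B g → IsMating A B (F g)) ∧
      (∀ g : BB (zn n), Ψ (ofB (zn n) g) = ofB A (F g)) ∧
      ∀ (g : bd (zn n)) (f : bd A), Φ (Quot.mk _ g) = Quot.mk _ f → Ψ (ofBd (zn n) g) = ofBd A f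

end Pool.Agent.H212.MB
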