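import Pool.Agent.H212.MB.Basic

/-!
# Project MB (MP_c3607d_an): statements of the jobs, with proofs

A job `X` proves `theorem t_X : S_X` (or from the hypotheses named in its docstring).
The first part is plane analysis: quasisymmetric maps, length-area, the smooth measurable Riemann
mapping theorem, removability of the circle, the class `Σ`.  The second part constructs the
quasiconformal transition maps between Blaschke products.
-/

set_option autoImplicit false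

open Filter Metric Set Topology MeasureTheory
open scoped ContDiff ComplexConjugate ENNReal

namespace Pool.Agent.H212.MB

/-! ## A. Weakly quasisymmetric maps -/

/-- JOB QS1 (four statements).  `S_RATIO`: chain argument.  If `‖b - x‖ = r > 0` and `‖a - x‖ ≤ M r`, let `N = ⌈M⌉₊ + 1`
and `z_i = x + (i / N) (a - x)`, `i = 0, …, N`: consecutive distances are `≤ r`.  `‖k z_1 - k x‖ ≤ C ‖k b - k x‖` and
`‖k z_{i+1} - k z_i‖ ≤ C ‖k z_{i-1} - k z_i‖` (WQS at the centre `z_i`: `‖z_{i+1} - z_i‖ = ‖z_{i-1} - z_i‖`), so with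
`C₁ = max C 1` each step is `≤ C₁^{i+1} ‖k b - k x‖`, and `C' = N * C₁ ^ N` works. -/
def S_RATIO : Prop := ∀ C M : ℝ, ∃ C' : ℝ, 0 < C' ∧ ∀ k : ℂ → ℂ, WQS C k → ∀ x a b : ℂ,
  ‖a - x‖ ≤ M * ‖b - x‖ → ‖k a - k x‖ ≤ C' * ‖k b - k x‖

/-- `S_SMALL`: packing.  Let `C₁ = max C 1`, `s = ‖a - x‖ > 0`, `p_i = x + 3^{-i} (a - x)` for `i < N`, `‖b - x‖ ≤ 3^{-N} s`.
(1) `‖k p_i - k x‖ ≤ C₁ ‖k a - k x‖`.  (2) for `i < j`: `‖x - p_j‖ ≤ ‖p_i - p_j‖`, so `‖k x - k p_j‖ ≤ C₁ ‖k p_i - k p_j‖`.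
(3) `‖k b - k x‖ ≤ C₁ ‖k p_j - k x‖`.  So with `D = ‖k b - k x‖`, `R = ‖k a - k x‖` the `N` points `k p_i` are in the disc
of centre `k x` and radius `C₁ R` and have distances `≥ D / C₁²`.  Comparing areas of disjoint discs of radius
`D / (2 C₁²)` (or by a pigeonhole argument with squares) `N D² ≤ 16 C₁⁶ R² * const`, so `D ≤ const C₁³ R / √N ≤ ε R` for
`N` large; `δ = 3^{-N}`. -/
def S_SMALL : Prop := ∀ C ε : ℝ, 0 < ε → ∃ δ : ℝ, 0 < δ ∧ ∀ k : ℂ → ℂ, WQS C k → ∀ x a b : ℂ,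
  ‖b - x‖ ≤ δ * ‖a - x‖ → ‖k b - k x‖ ≤ ε * ‖k a - k x‖

/-- `S_INV` (from `S_SMALL` with `ε = 1/2`): if `‖k a - k x‖ ≤ ‖k b - k x‖` then `‖a - x‖ ≤ δ⁻¹ ‖b - x‖`: otherwise
`‖b - x‖ ≤ δ ‖a - x‖`, so `‖k b - k x‖ ≤ ½ ‖k a - k x‖ ≤ ½ ‖k b - k x‖`, so `k b = k x = k a`. -/
def S_INV : Prop := ∀ C : ℝ, ∃ C' : ℝ, 0 < C' ∧ ∀ k : ℂ ≃ ℂ, WQS C k → WQS C' k.symm

/-- `S_COMP`, from `S_RATIO`. -/
def S_COMP : Prop := ∀ C C' : ℝ, ∃ C'' : ℝ, 0 < C'' ∧ ∀ k k' : ℂ → ℂ, WQS C k → WQS C' k' →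
  WQS C'' (k' ∘ k)

/-- JOB QSLIM (uses `S_RATIO`, `S_SMALL`, `S_INV`).  Compactness of weakly quasisymmetric homeomorphisms, along an
ultrafilter.  Proof.  Let `0 < R₀` as in the statement.  (1) Local bounds: for `‖z‖ ≤ R`,
`‖z - p i‖ ≤ (R + R₀) R₀ ‖q i - p i‖`, so by `S_RATIO` `‖H z - H p‖ ≤ C' ‖H q - H p‖ ≤ 2 C' R₀`.
(2) Equicontinuity: for `‖x‖ ≤ R` let `a = x + 1`; `‖H a - H x‖ ≤ B(R)` by (1), so by `S_SMALL`
`‖y - x‖ ≤ δ → ‖H y - H x‖ ≤ ε B(R)`.  (3) The maps `(H i).symm` are WQS with the constant of `S_INV`, and satisfy the same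
normalisation with the points `H p`, `H q` (`R₀` replaced by `2 R₀`), so (1), (2) hold for them.  (4) Pointwise limits
along the ultrafilter exist (bounded functions into a proper space: `Ultrafilter` on a compact ball), call them `K`, `L`;
equicontinuity gives `TendstoLocallyUniformly` and continuity.  (5) `L (K z) = z`: `(H i).symm (H i z) = z` and
`H i z → K z`, locally uniform convergence of `(H i).symm` to the continuous `L`.  Similarly `K (L w) = w`.  (6) `WQS C K`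
by pointwise limits. -/
def S_QSLIM : Prop := ∀ C R₀ : ℝ, 0 < R₀ → ∀ (ι : Type) (u : Ultrafilter ι) (H : ι → ℂ ≃ₜ ℂ) (p q : ι → ℂ),
  (∀ᶠ i in (u : Filter ι), WQS C (H i) ∧ ‖p i‖ ≤ R₀ ∧ ‖q i‖ ≤ R₀ ∧ R₀⁻¹ ≤ ‖p i - q i‖ ∧ ‖H i (p i)‖ ≤ R₀ ∧
    ‖H i (q i)‖ ≤ R₀ ∧ R₀⁻¹ ≤ ‖H i (p i) - H i (q i)‖) →
  ∃ K : ℂ ≃ₜ ℂ, WQS C K ∧
    TendstoLocallyUniformly (fun i z => H i z) (fun z => K z) (u : Filter ι) ∧
    TendstoLocallyUniformly (fun i z => (H i).symm z) (fun z => K.symm z) (u : Filter ι)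

/-! ## B. Length and area -/

/-- JOB EN.  Energy and area.  Proof: `‖fderiv‖² ≤ (1 + k) / (1 - k) * det` (`sq_norm_le_det`), `det > 0`, and the change of
variables formula `MeasureTheory.lintegral_abs_det_fderiv_eq_addHaar_image` on the measurable set `U` (`Q` is
differentiable at the points of the open set `Off`).  Also the second statement, for a holomorphic function `V` on
`Q '' U`: `‖fderiv (V ∘ Q)‖ ≤ ‖V' (Q z)‖ ‖fderiv Q z‖` and `MeasureTheory.lintegral_image_eq_lintegral_abs_det_fderiv_mul`. -/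
def S_EN : Prop := ∀ (k : ℝ) (Q : ℂ → ℂ) (U : Set ℂ), 0 ≤ k → k < 1 → Function.Injective Q → QCOff k Q →
  MeasurableSet U → U ⊆ Off →
    (∫⁻ z in U, ‖fderiv ℝ Q z‖ₑ ^ 2) ≤ ENNReal.ofReal ((1 + k) / (1 - k)) * volume (Q '' U) ∧
    ∀ V : ℂ → ℂ, (∀ z ∈ U, DifferentiableAt ℂ V (Q z)) →
      (∫⁻ z in U, ‖fderiv ℝ (V ∘ Q) z‖ₑ ^ 2) ≤
        ENNReal.ofReal ((1 + k) / (1 - k)) * ∫⁻ w in Q '' U, ‖deriv V w‖ₑ ^ 2

/-- JOB LA (uses `S_EN`).  The length-area estimate: `Q.symm` is weakly quasisymmetric with a constant which depends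
only on `k` (`C = exp (32 π² K)`, `K = (1 + k) / (1 - k)`, or any other explicit value).  Proof.  Let `G = Q.symm`, let
`‖a - x‖ ≤ ‖b - x‖ = r` with `r > 0`, `s = ‖G b - G x‖ > 0`, `t = ‖G a - G x‖`.  Assume `s < t`; we bound `log (t / s)`.
Let `s < ρ < t`, and `ρ ≠ 1` if `G x = 0`; let `γ(θ) = Q (G x + ρ exp(iθ))`, a continuous closed curve, `C²` except at
the at most two `θ` (mod `2π`) with `‖G x + ρ exp(iθ)‖ = 1`, where `‖γ'(θ)‖ ≤ ρ ‖fderiv ℝ Q (G x + ρ exp(iθ))‖`.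
(1) There is `y₀ ∈ range γ` with `‖y₀ - x‖ ≤ r`: `‖G y - G x‖` takes a value `0` at `y = x` and `t > ρ` at `y = a` on the
segment `[x, a] ⊆ closedBall x r`.  (2) There is `y₁ ∈ range γ` with `‖y₁ - y₀‖ ≥ r / 2`: otherwise the connected set
`W = {y | r / 2 ≤ ‖y - y₀‖}` does not meet `range γ`, so `‖G y - G x‖ ≠ ρ` on `W`; `W` contains `x` or `b` (since
`‖x - b‖ = r`), where `‖G y - G x‖ ≤ s < ρ`, and `W` is unbounded, `G` proper, so `‖G y - G x‖ > ρ` somewhere on `W`, a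
contradiction.  (3) So `r / 2 ≤ ∫ ‖γ'(θ)‖ 1[‖γ(θ) - x‖ < 2 r] dθ` over a period: go from a parameter with `γ = y₀` to the
first parameter with `‖γ - y₀‖ = r / 2`; in between `‖γ - x‖ < 3 r / 2` (fundamental theorem of calculus for continuous
functions differentiable off a finite set; if the integral is infinite there is nothing to prove; all integrals are
`lintegral`s).  (4) Cauchy-Schwarz: `r² / 4 ≤ 2 π ∫ ‖γ'‖² 1 dθ ≤ 2 π ρ² ∫ ‖fderiv Q‖² 1[‖Q - x‖ < 2 r] dθ`.  Divide by `ρ`,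
integrate over `ρ ∈ (s, t)` and use polar coordinates about `G x` (`Complex.lintegral_comp_polarCoord_symm`):
`(r² / 4) log (t / s) ≤ 2 π ∫_{Q⁻¹ (ball x (2r)) \ circle} ‖fderiv Q‖² ≤ 2 π K * area (ball x (2 r)) = 8 π² K r²`, by
`S_EN`.  (The library has a similar argument: Pool/Graph/R_pool_sql_team_seeded_3997aac3/Q185/PD/CIRC.lean.) -/
def S_LA0 : Prop := ∀ k : ℝ, 0 ≤ k → k < 1 → ∃ C : ℝ, 0 < C ∧ ∀ Q : ℂ ≃ₜ ℂ, QCOff k Q → WQS C Q.symm

/-! ## C. The smooth measurable Riemann mapping theorem -/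

/-- JOB MRMT.  The library has almost everything: project PD of the run 3997aac3 (Pool/Graph/R_pool_sql_team_seeded_3997aac3):
`Q264/PD/Stm.lean` (statements with proofs), `t_LAM` in `Q264/PD/Main.lean` from `t_FIX` (Q98/PD/FIX.lean), `t_LA`
(Q277/PD/LA.lean), `t_LB` (Q98/PD/LB.lean), `t_CB`, `t_CONT` (Q98), `t_YG` (Q153), `t_POT` (Q182/PD/Pot.lean).  Proof.  Let
`g = ∂μ/∂z`, `l` from `S_LAM` (`l_z̄ = μ l_z + μ_z`, `l` is `C³`, `l → 0` at infinity; for `μ` with bound `k ≤ 0` take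
`k = 1/2`), `c = exp l`, `P = (1 + μ) c`, `R = i (1 - μ) c`.  The equation for `l` says `P_v = R_u` (`u, v` real and imaginary
part), so by `S_POT` there is a `C³` function `f` with `f_u = P`, `f_v = R`, that is `dz f = c ≠ 0`, `dzb f = μ c`.  `μ = 0`
outside of a ball, `c → 1` at infinity.  `f` is a homeomorphism of the plane: adapt `t_HOM` (Q193/PD/HOM.lean, there
`f_u = Q c`, `f_v = i c` with a real function `Q`; here the derivative is `h ↦ c (h + μ conj h)`, injective as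
`‖μ‖ ≤ k < 1`); inverse continuous as `f` is proper (or open).  Normalisation: near infinity `f` is holomorphic with
`f' → 1`, so `f(z) = z + const + o(1)`: `f' = 1 + a / z + O(1 / z²)` (`f'(1/w)` has a removable singularity at `0`) and
`a = 0` since the integral of `f'` over a large circle vanishes; so `f(z) - z` has derivative `O(1 / z²)` and a limit at
infinity.  (Or: `1 / (f(1/w) - f(z₀))` is holomorphic near `0`, has a removable singularity with value `0` and derivative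
`1`, so `f(1/w) = 1/w + const + O(w)`.)  Subtract the constant. -/
def S_MRMT : Prop := ∀ (μ : ℂ → ℂ) (k : ℝ), k < 1 → ContDiff ℝ ∞ μ → HasCompactSupport μ → (∀ z, ‖μ z‖ ≤ k) →
  ∃ H : ℂ ≃ₜ ℂ, ContDiff ℝ 3 H ∧ (∀ z, dz H z ≠ 0 ∧ dzb H z = μ z * dz H z) ∧
    Tendsto (fun z => H z - z) (cocompact ℂ) (𝓝 0)

/-! ## D. Removability of the circle -/

/-- JOB REM0.  The null Lagrangian.  Proof.  `D` is continuous on the plane, `C²` off the circle, has finite energy, and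
tends to `0` at infinity.  Let (in polar coordinates, `g(r, θ) = D (r exp(iθ))`) for `r ≠ 1`:
`Φ(r) = ∫_0^{2π} Im (conj g g_θ) dθ`.  Then `Φ' = 2 ∫ Im (conj g_r g_θ) dθ` (differentiate under the integral, integrate
by parts in `θ`), and `Im (conj g_r g_θ) = r * Jac D`, `Jac D = ‖dz D‖² - ‖dzb D‖²`.  So
`2 ∫_{r₁ < ‖z‖ < r₂} Jac D = Φ(r₂) - Φ(r₁)` if `[r₁, r₂]` does not contain `1`.  `Φ(r) → 0` as `r → 0`.
With `e(r) = ∫ |g_θ|² dθ`: `∫ e(r) / r dr < ∞`, so `e(r) → 0` along a sequence `r → ∞`, and there `|Φ| ≤ sup |g| (2π e)^{1/2} → 0`.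
Near the circle: `Φ(1+s) - Φ(1-s) = ∫ Im (conj (g₊ - g₋) ∂θ g₊) + ∫ Im (conj g₋ ∂θ (g₊ - g₋))`, integrate the second by
parts: absolute value `≤ ‖g₊ - g₋‖₂ (‖∂θ g₊‖₂ + ‖∂θ g₋‖₂)`.  `|g₊ - g₋| ≤ ∫_{1-s}^{1+s} |g_r| dr` (continuity at the circle),
so `‖g₊ - g₋‖₂² ≤ 2 s E(s)` with `E(s)` the energy of the annulus `(1-s, 1+s)` (up to a constant), `E(s) → 0`; and
`∫_0 (e(1+s) + e(1-s)) ds < ∞`, so `s (e(1+s) + e(1-s)) ≤ 1` for a sequence `s → 0`; the product tends to `0`.  Sum: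
`2 ∫ Jac D = 0`.  (Alternative proof: `fderiv D` is the distributional derivative; mollify.  Any proof is fine.) -/
def S_REM0 : Prop := ∀ D : ℂ → ℂ, Continuous D → Tendsto D (cocompact ℂ) (𝓝 0) → ContDiffOn ℝ 2 D Off →
  (∫⁻ z in Off, ‖fderiv ℝ D z‖ₑ ^ 2) < ⊤ → ∫ z in Off, (‖dz D z‖ ^ 2 - ‖dzb D z‖ ^ 2) = 0

/-- JOB REM (uses `S_REM0`, `S_EN`).  Proof.  `D = V ∘ Q`.  It is `C²` off the circle (`V` is holomorphic at `Q z`), and
continuous.  Finite energy: near the circle by hypothesis.  `V → 0` at infinity and `V` is holomorphic outside of the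
compact set `Q (circle)`, so `‖deriv V y‖ ≤ c / ‖y‖²` for large `y` (Cauchy's estimate for `w ↦ V (1 / w)`, which has a
removable singularity at `0`), and `deriv V` is bounded on compact subsets of the complement of `Q (circle)`; so
`∫ ‖deriv V‖² < ∞` over the sets `Q '' {‖z‖ ≤ ρ⁻¹}` (compact) and `Q '' {ρ ≤ ‖z‖}`; use the second part of `S_EN`.
`dz D = V'(Q) dz Q`, `dzb D = V'(Q) dzb Q` (`dz_comp_left`), so `‖dzb D‖² ≤ k² ‖dz D‖²` off the circle (`0 ≤ k` wlog), and with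
`S_REM0`: `(1 - k²) ∫ ‖dz D‖² ≤ 0`, so `dz D = 0`, `dzb D = 0` off the circle (continuity), `D` is locally constant
off the circle, `0` outside of the closed disc (it tends to `0`), so `0` on the circle and in the disc (continuity).
`Q` is surjective. -/
def S_REM : Prop := ∀ (k ρ : ℝ) (Q : ℂ ≃ₜ ℂ) (V : ℂ → ℂ), k < 1 → 1 < ρ → QCOff k Q → Continuous V →
  Tendsto V (cocompact ℂ) (𝓝 0) → DifferentiableOn ℂ V (Q '' {z | ‖z‖ = 1})ᶜ →
  (∫⁻ z in {z : ℂ | ‖z‖ ≠ 1 ∧ ρ⁻¹ < ‖z‖ ∧ ‖z‖ < ρ}, ‖fderiv ℝ (V ∘ Q) z‖ₑ ^ 2) < ⊤ → ∀ y, V y = 0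

/-! ## E. The class `Σ` -/

/-- JOB SIG.  Proof.  (1) The library has `‖φ' z - 1‖ ≤ 1 / (‖z‖² - 1)` (theorem `deriv_sub_one` in
Pool/Graph/R_pool_sql_team_seeded_ab47071d/TH325/BVM/A.lean); integrate along the ray from `z` to infinity:
`‖φ z - z‖ ≤ ∫_{‖z‖}^∞ ds / (s² - 1) = ½ log ((‖z‖ + 1) / (‖z‖ - 1)) ≤ 1 / (‖z‖ - 1) ≤ 2 / ‖z‖`.  (2) Let
`E = {y | 3 < ‖y‖} ∩ φ '' {z | 2 < ‖z‖}`.  It is open (open mapping), not empty, and closed in the connected set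
`{y | 3 < ‖y‖}`: if `φ (z_j) → y` with `‖z_j‖ > 2` then the `z_j` are bounded; a limit point `z` has `φ z = y`, and `‖z‖ = 2`
would give `‖y‖ ≤ 2 + 1`.  (3) If `1 < ‖z‖ ≤ 2` and `‖φ z‖ > 3` then by (2) `φ z = φ z'` with `‖z'‖ > 2`, contradicting
injectivity.  (4) `φ` is an open map; the image is open, so the complement is closed, bounded by (2). -/
def S_SIG : Prop := ∀ φ : ℂ → ℂ, Sig φ → (∀ z, 2 ≤ ‖z‖ → ‖φ z - z‖ ≤ 2 / ‖z‖) ∧
  (∀ y, 3 < ‖y‖ → ∃ z, 2 < ‖z‖ ∧ φ z = y) ∧ (∀ z ∈ Ext, ‖z‖ ≤ 2 → ‖φ z‖ ≤ 3) ∧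
  (∀ z ∈ Ext, deriv φ z ≠ 0) ∧ (∀ U ⊆ Ext, IsOpen U → IsOpen (φ '' U)) ∧ IsCompact (φ '' Ext)ᶜ

/-- JOB SIGLIM (uses `S_SIG`).  Compactness of the class `Σ`, along an ultrafilter.  Proof: `S_SIG` (1), (3) give local
bounds (`‖φ z‖ ≤ 3 + ‖z‖`), so pointwise limits exist along the ultrafilter and the convergence is locally uniform
(Montel; library: `ZFM.tlu_of_pointwise` in Pool/Graph/R_seed8/Helper240/ZFM/Riem.lean, or `montel` in
Pool/Graph/R_seed8/Helper114/MontelSol.lean); `‖Φ z - z‖ ≤ 2 / ‖z‖` for `‖z‖ ≥ 2`, so `Φ z - z → 0`, `Φ` is not constant,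
so it is injective (Hurwitz, same files; also `limit_comp` in Riem.lean). -/
def S_SIGLIM : Prop := ∀ (ι : Type) (u : Ultrafilter ι) (φ : ι → ℂ → ℂ), (∀ᶠ i in (u : Filter ι), Sig (φ i)) →
  ∃ Φ : ℂ → ℂ, Sig Φ ∧ TendstoLocallyUniformlyOn φ Φ (u : Filter ι) Ext

end Pool.Agent.H212.MB
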