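import Pool.Agent.H212.MB.Basic

/-!
# Project MB (MP_c3607d_an), second part: the transition maps between Blaschke products

Goal: `S_TR`: for every marked Blaschke product `A` of degree `n ≥ 2` there is a homeomorphism `T` of the plane,
smooth off the unit circle, symmetric under reflection, with bounded dilatation, equal to the identity near `0` and near
infinity, with `T (z ^ n) = A (T z)` near the unit circle.  It is constructed in the coordinate `w`, `z = exp (i w)`,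
`0 < im w`, for the inside of the disc.
-/

set_option autoImplicit false

open Filter Metric Set Topology MeasureTheory
open scoped ContDiff ComplexConjugate ENNReal

namespace Pool.Agent.H212.MB

/-- `T` is a (smooth, quasiconformal) transition map from `A₁` to `A₂`, of dilatation at most `k`. -/
structure IsTr {n : ℕ} (A₁ A₂ : Blaschke n) (k : ℝ) (T : ℂ ≃ₜ ℂ) : Prop where
  out : ∀ z, 1 < ‖T z‖ ↔ 1 < ‖z‖
  inn : ∀ z, ‖T z‖ < 1 ↔ ‖z‖ < 1
  smooth : ContDiffOn ℝ ∞ T Off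
  nd : ∀ z ∈ Off, dz T z ≠ 0
  dil : ∀ z ∈ Off, ‖dzb T z‖ ≤ k * ‖dz T z‖
  ident : ∃ ρ : ℝ, 1 < ρ ∧ (∀ z, ρ ≤ ‖z‖ → T z = z) ∧ ∀ z, ‖z‖ ≤ ρ⁻¹ → T z = z
  semi : ∃ ρ : ℝ, 1 < ρ ∧ ∀ z, ρ⁻¹ < ‖z‖ → ‖z‖ < ρ →
    A₁.den z ≠ 0 ∧ A₂.den (T z) ≠ 0 ∧ T (A₁.ev z) = A₂.ev (T z)
  mark : T A₁.b = A₂.b
  lift : ∃ t : ℝ → ℝ, Continuous t ∧ StrictMono t ∧ (∀ x, t (x + 2 * Real.pi) = t x + 2 * Real.pi) ∧
    ∀ x : ℝ, T (Complex.exp (x * Complex.I)) = Complex.exp (t x * Complex.I)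

/-- the horizontal strip -/
def SH (η : ℝ) : Set ℂ := {w | |w.im| < η}

/-- `α` is a lift of a Blaschke product to a strip, in the coordinate `z = exp (i w)`. -/
structure Lift (n : ℕ) (η₀ : ℝ) (α : ℂ → ℂ) : Prop where
  pos : 0 < η₀
  diff : DifferentiableOn ℂ α (SH η₀)
  per : ∀ w ∈ SH η₀, α (w + 2 * Real.pi) = α w + 2 * Real.pi * n
  real : ∀ x : ℝ, (α x).im = 0
  expd : ∀ x : ℝ, 1 < (deriv α x).re

/-- `α` is a lift of the marked Blaschke product `A`. -/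
structure LiftOf {n : ℕ} (A : Blaschke n) (η₀ : ℝ) (α : ℂ → ℂ) (x₀ : ℝ) : Prop where
  lift : Lift n η₀ α
  ev : ∀ w ∈ SH η₀, A.den (Complex.exp (Complex.I * w)) ≠ 0 ∧
    Complex.exp (Complex.I * α w) = A.ev (Complex.exp (Complex.I * w))
  fix : α x₀ = x₀
  mark : Complex.exp (Complex.I * x₀) = A.b

/-- JOB LIFT.  Proof.  `A.ev (exp (i w)) = c exp (i n w) ∏ (1 - a_i exp (-i w)) / (1 - conj a_i exp (i w))`.  Let `c = exp (i γ)`
and `α(w) = γ + n w - i ∑_i [log (1 - a_i exp (-i w)) - log (1 - conj a_i exp (i w))]` with the principal logarithm, on the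
strip where `‖a_i‖ exp |im w| < 1` for all `i` (`1 - u` is in the slit plane for `‖u‖ < 1`).  On the real axis the two
logarithms are conjugate to each other, so `α` is real, and `α'(x) = n + 2 ∑ re (u_i / (1 - u_i))`, `u_i = conj a_i exp (i x)`,
so `α'(x) = 1 + ∑_i (1 + 2 re (u_i / (1 - u_i))) = 1 + ∑_i (1 - ‖u_i‖²) / ‖1 - u_i‖² > 1`, as there are `n - 1 ≥ 1` terms.
(`deriv α x` is the complex derivative at the real point `x`.)  Choose `x₀` with `exp (i x₀) = b`.  Since `A.ev b = b` we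
have `α x₀ = x₀ + 2 π m`; replace `γ` by `γ - 2 π m`. -/
def S_LIFT : Prop := ∀ n : ℕ, 2 ≤ n → ∀ A : Blaschke n, ∃ (η₀ : ℝ) (α : ℂ → ℂ) (x₀ : ℝ), LiftOf A η₀ α x₀

/-- `G` is the inverse branch of `α` near the real axis. -/
structure InvBr (n : ℕ) (η₀ : ℝ) (α G : ℂ → ℂ) (η₁ m c : ℝ) : Prop where
  pos : 0 < η₁
  m1 : 1 < m
  mn : m < n
  cpos : 0 < c
  diff : DifferentiableOn ℂ G (SH η₁)
  maps : ∀ w ∈ SH η₁, G w ∈ SH η₀
  inv : ∀ w ∈ SH η₁, α (G w) = w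
  per : ∀ w ∈ SH η₁, G (w + 2 * Real.pi * n) = G w + 2 * Real.pi
  real : ∀ x : ℝ, (G x).im = 0
  contr : ∀ w ∈ SH η₁, ∀ w' ∈ SH η₁, ‖G w - G w'‖ ≤ ‖w - w'‖ / m
  im_ge : ∀ w ∈ SH η₁, 0 ≤ w.im → c * w.im ≤ (G w).im
  der : ∀ x : ℝ, 0 < (deriv G x).re ∧ (deriv G x).re ≤ 1 / m ∧ (deriv G x).im = 0

/-- JOB INVB.  Proof.  `α'` is `2 π`-periodic and real on the real axis (`α` is real there), so `α' ≥ m₀ > 1` on the real axis.
Choose `1 < m < min m₀ n` and `0 < η₂ < η₀` with `re α' ≥ m` and `‖α'‖ ≤ M` on the closed strip `|im w| ≤ η₂` (uniform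
continuity, compactness, periodicity).  (1) `‖α w - α w'‖ ≥ re ((α w - α w') / (w - w')) ‖w - w'‖ ≥ m ‖w - w'‖` on the closed
strip (integrate `α'` along the segment).  (2) `im α(x + i y) = ∫_0^y re α'(x + i s) ds`, so it has the sign of `y` and
`m |y| ≤ |im α(x + i y)| ≤ M |y|`.  (3) `α` maps `SH η₂` onto a set which contains `SH (m η₂)`: let
`E = α '' SH η₂ ∩ SH (m η₂)`, open, not empty, closed in the connected set `SH (m η₂)` (if `α w_j → v` then `w_j` is a Cauchy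
sequence by (1), the limit `w` has `|im w| ≤ η₂`, and `|im w| = η₂` would give `|im v| ≥ m η₂` by (2)).  Put `η₁ = m η₂`, `G` the
inverse function `SH η₁ → SH η₂`.  It is holomorphic (inverse of an injective holomorphic map), contracting by (1),
`G (w + 2 π n) = G w + 2 π` by injectivity, real on the real axis (`α` maps the real axis onto the real axis),
`im G w ≥ im w / M` for `im w ≥ 0` by (2), `G' = 1 / α'(G)`. -/
def S_INVB : Prop := ∀ n : ℕ, 2 ≤ n → ∀ (η₀ : ℝ) (α : ℂ → ℂ), Lift n η₀ α →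
  ∃ (G : ℂ → ℂ) (η₁ m c : ℝ), InvBr n η₀ α G η₁ m c

/-- JOB STEP.  A smooth step with controlled slope: `a < b`, `1 < κ (b - a)`.  Proof: `s(t) = c ∫_a^t χ(u) du` with a smooth
`χ`, `0 ≤ χ ≤ 1`, `χ = 0` outside of `[a, b]`, `χ = 1` on `[a + δ, b - δ]` (for example a product of two
`Real.smoothTransition`s), `c = 1 / ∫ χ ≤ 1 / (b - a - 2 δ) ≤ κ`. -/
def S_STEP : Prop := ∀ a b κ : ℝ, a < b → 1 < κ * (b - a) → ∃ s : ℝ → ℝ, ContDiff ℝ ∞ s ∧
  (∀ t, t ≤ a → s t = 0) ∧ (∀ t, b ≤ t → s t = 1) ∧ (∀ t, 0 ≤ s t ∧ s t ≤ 1) ∧ ∀ t, 0 ≤ deriv s t ∧ deriv s t ≤ κ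

/-- `T₁` is a transition map on the fundamental domain and above. -/
structure Fund (n : ℕ) (G : ℂ → ℂ) (η₁ η θ k C : ℝ) (T₁ : ℂ → ℂ) : Prop where
  ηpos : 0 < η
  θpos : 0 < θ
  θ1 : θ < 1
  k0 : 0 ≤ k
  k1 : k < 1
  small : n * η < η₁
  smooth : ContDiffOn ℝ ∞ T₁ {w | θ * η < w.im}
  per : ∀ w : ℂ, θ * η < w.im → T₁ (w + 2 * Real.pi) = T₁ w + 2 * Real.pi
  top : ∀ w : ℂ, θ * (n * η) < w.im → T₁ w = w
  bot : ∀ w : ℂ, θ * η < w.im → w.im ≤ η → T₁ w = G (n * w)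
  imp : ∀ w : ℂ, θ * η < w.im → 0 < (T₁ w).im
  iml : ∀ w : ℂ, θ * η < w.im → w.im ≤ n * η → (T₁ w).im < η₁
  nd : ∀ w : ℂ, θ * η < w.im → dz T₁ w ≠ 0
  dil : ∀ w : ℂ, θ * η < w.im → ‖dzb T₁ w‖ ≤ k * ‖dz T₁ w‖
  bdd : ∀ w : ℂ, θ * η < w.im → ‖T₁ w - w‖ ≤ C

/-- JOB FUND (uses `S_STEP`).  The map on the fundamental domain.  Proof.  Write `w = x + i y`, `L̂(w) = G(n w)` (holomorphic
for `|im w| < η₁ / n`), `L(x) = G(n x)` real, `L'(x) = n G'(n x) ∈ (0, n / m]`, `L(x + 2π) = L(x) + 2π`, `λ = log L'` (smooth,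
`2π`-periodic, bounded, `λ ≤ Λ = log (n / m)`, `0 < Λ < log n`).  All the following numbers do not depend on `η`: choose
`0 < a₀ < a < b' < b'' < log n` with `b' - a > Λ`, and by `S_STEP` smooth steps `σ₁` (from `0` at `a₀` to `1` at `a`), `s` (from
`0` at `a` to `1` at `b'` with `0 ≤ s' ≤ κ`, where `κ (b' - a) > 1` and `κ Λ < 1`), `σ₃` (from `0` at `b'` to `1` at `b''`).
Let `t = log (y / η)`, `Y₀ = y exp ((1 - s(t)) λ(x))`, `X₀ = (1 - σ₃(t)) L(x) + σ₃(t) x`, `T₀ = X₀ + i Y₀`,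
`T₁ = T₀ + (1 - σ₁(t)) (L̂(w) - L(x) - i y L'(x))` (the last term is `0` for `t ≥ a`, so it is defined for all `y`, and for
`t ≤ a₀` we get `T₁ = L̂(w)`), `θ = exp (max (b'' - log n) (-1))` or any `θ < 1` with `log θ ≥ b'' - log n`.  For `t ≥ b''`:
`T₁ = x + i y = w`.
(A) `t ≥ a`: `T₁ = T₀`.  For `a ≤ t ≤ b'` `X₀ = L(x)`, so the Jacobian is `L'(x) ∂Y₀/∂y`,
`∂Y₀/∂y = exp ((1-s) λ) (1 - s'(t) λ(x)) ≥ exp ((1-s) λ) (1 - κ Λ)` (if `λ(x) < 0` the second factor is `≥ 1`), positive.  For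
`b' ≤ t` `Y₀ = y` and the Jacobian is `∂X₀/∂x = (1-σ₃) L'(x) + σ₃ > 0`.  Positive Jacobian means `‖dzb‖ < ‖dz‖`; by
compactness (periodicity in `x`, and `t ∈ [a, log n]`, identity above) `‖dzb‖ ≤ k ‖dz‖` with `k < 1`.
(B) `log θ ≤ t ≤ a`, where `Y₀ = y L'(x)`, `X₀ = L(x)`: with `Δ(w) = L̂(w) - L(x) - i y L'(x)` we have `T₁ = L̂ - σ₁(t) Δ`.
`Δ = O(y²)` and its derivative is `O(y)` (Taylor expansion of `L̂` at the real point `x`: `Δ` is smooth, vanishes with its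
first derivatives on the real axis, periodic), and `|∂/∂y σ₁(log (y / η))| ≤ sup |σ₁'| / y`.  So `DT₁ = DL̂ + O(y)`, `DL̂` is
multiplication by `L̂'(w) = L'(x) + O(y)`, `|L'(x)| ≥ c₁ > 0`.  So for small `η` `dz T₁ ≠ 0` and `‖dzb T₁‖ ≤ ½ ‖dz T₁‖` here.
`im T₁ > 0`: in (A) clear, in (B) `im T₁ = y L'(x) + O(y²)`.  `im T₁ ≤ n η (n / m + 1) < η₁` for small `η`.  `T₁ w - w` is
periodic and bounded on `θη < y ≤ nη` (all the functions extend continuously to the closed region), zero above. -/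
def S_FUND : Prop := ∀ n : ℕ, 2 ≤ n → ∀ (η₀ : ℝ) (α G : ℂ → ℂ) (η₁ m c : ℝ), InvBr n η₀ α G η₁ m c →
  ∃ (η θ k C : ℝ) (T₁ : ℂ → ℂ), Fund n G η₁ η θ k C T₁

/-- `T` is a transition map of the upper half plane, with the boundary values `h`. -/
structure Half (n : ℕ) (η₀ : ℝ) (α : ℂ → ℂ) (η k : ℝ) (T : ℂ → ℂ) (h : ℝ → ℝ) : Prop where
  ηpos : 0 < η
  k0 : 0 ≤ k
  k1 : k < 1
  smooth : ContDiffOn ℝ ∞ T {w | 0 < w.im}
  per : ∀ w : ℂ, 0 < w.im → T (w + 2 * Real.pi) = T w + 2 * Real.pi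
  top : ∀ w : ℂ, n * η ≤ w.im → T w = w
  imp : ∀ w : ℂ, 0 < w.im → 0 < (T w).im
  nd : ∀ w : ℂ, 0 < w.im → dz T w ≠ 0
  dil : ∀ w : ℂ, 0 < w.im → ‖dzb T w‖ ≤ k * ‖dz T w‖
  semi : ∀ w : ℂ, 0 < w.im → w.im < η → T w ∈ SH η₀ ∧ T (n * w) = α (T w)
  proper : ∀ ε : ℝ, 0 < ε → ∃ δ : ℝ, 0 < δ ∧ ∀ w : ℂ, ε ≤ w.im → δ ≤ (T w).im
  high : ∃ Y : ℝ, ∀ w : ℂ, 0 < w.im → Y ≤ (T w).im → n * η ≤ w.im
  bdry : ∀ ε : ℝ, 0 < ε → ∃ δ : ℝ, 0 < δ ∧ ∀ w : ℂ, 0 < w.im → w.im < δ → ‖T w - h w.re‖ < ε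
  conth : Continuous h
  monoh : StrictMono h
  perh : ∀ x, h (x + 2 * Real.pi) = h x + 2 * Real.pi
  semih : ∀ x : ℝ, (h (n * x) : ℂ) = α (h x)

/-- JOB HALF.  Proof.  Define `T w = T₁ w` if `θ η < im w`, and `T w = G^[j] (T₁ (n ^ j w))` if `0 < im w ≤ θ η`, where `j` is the
least natural number with `n ^ j im w > θ η` (then `n ^ j im w ≤ n θ η`).  (1) For `θη < im w ≤ η` we have
`n im w > θ (n η)`, so `T₁ (n w) = n w` and `T₁ w = G (n w) = G (T₁ (n w))`.  So `T w = G (T (n w))` for all `0 < im w < η`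
(case `im w > θη`: just shown, `T (n w) = T₁ (n w)`; case `im w ≤ θη`: the definition), and `T (n w) ∈ SH η₁`: by `iml`
if `n im w > θ η` (`n im w < n η`), otherwise `T (n w)` is in the image of `G`, `im` decreases: all the points
`G^[i] (…)` have imaginary part in `(0, η₁)`.  Hence `α (T w) = T (n w)`.  (2) Smooth: on `{im w > θη}` `T = T₁`; near a point
with `im w ≤ θη`, `T` is locally `G^[j] ∘ T₁ ∘ (n^j ·)` (if `n^j im w > θη` with `j` least, the same holds nearby or, when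
`n^(j-1) im w = θη` exactly, for nearby points `j - 1` may be least, and then `T₁ v = G (T₁ (n v))` with `v = n^(j-1) w`
by (1) shows that the formula is the same).  `dz`, `dzb` by the chain rules `dz_comp_left`, `dz_comp_right`; `G' ≠ 0`
as `G` is injective (`inv`) holomorphic.  Alternatively prove by induction on `j` that on `{θ η / n^j < im w}` everything
holds, using `T w = G (T (n w))`.  (3) `h`: `h_j(x) = G^[j] (n^j x)` (real): `|h_{j+1}(x) - h_j(x)| ≤ m^{-j} sup |G(n v) - v|`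
(`v` real; `G(n v) - v` is periodic), so `h_j` converges uniformly to a continuous `h` with `h(x + 2π) = h(x) + 2π`,
`h(x) = G(h(n x))`, so `α (h x) = h (n x)`.  `h` is monotone (`G` is increasing on the real axis) and injective: if
`h x = h x'` then `h (n^j x) = h (n^j x')` for all `j` by applying `α`, but `h(v) - v` is bounded.  (4) Boundary:
`‖T v - v‖ ≤ C₁` for `θη < im v`, `‖h(re v) - v‖ ≤ C₁` for `θη < im v ≤ n θη`; for `im w ≤ θη` with `j` as in the definition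
`‖T w - h (re w)‖ = ‖G^[j] (T₁ (n^j w)) - G^[j] (h (n^j re w))‖ ≤ m^{-j} 2 C₁`.  (5) `im T w ≥ c^j * (positive lower bound of im T₁
on θη < im ≤ nθη`, which exists by periodicity and the continuity of `T₁` up to... use `bot`: for `im v ≤ η`
`im T₁ v = im G(n v) ≥ c n im v`, and compactness for `η ≤ im v ≤ nη``)`: this gives `proper` (for `im w ≥ nη`, `T w = w`).
(6) `high`: for `0 < im w < n η`, `im T w < η₁`; take `Y = η₁`. -/
def S_HALF : Prop := ∀ n : ℕ, 2 ≤ n → ∀ (η₀ : ℝ) (α G : ℂ → ℂ) (η₁ m c : ℝ), InvBr n η₀ α G η₁ m c →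
  ∀ (η θ k C : ℝ) (T₁ : ℂ → ℂ), Fund n G η₁ η θ k C T₁ → ∃ (T : ℂ → ℂ) (h : ℝ → ℝ), Half n η₀ α η k T h

/-- JOB PROP.  A proper local homeomorphism of the disc with a point which has exactly one preimage is a bijection.
Proof: as in `t_HOM` of Pool/Graph/R_pool_sql_team_seeded_3997aac3/Q193/PD/HOM.lean: the image is open and closed in the
disc; the set of the points with exactly one preimage is open and closed. -/
def S_PROP : Prop := ∀ f : ℂ → ℂ, MapsTo f (ball 0 1) (ball 0 1) → ContinuousOn f (ball 0 1) →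
  (∀ U ⊆ ball (0 : ℂ) 1, IsOpen U → IsOpen (f '' U)) →
  (∀ z ∈ ball (0 : ℂ) 1, ∃ U ∈ 𝓝 z, InjOn f U) →
  (∀ r : ℝ, r < 1 → ∃ r' : ℝ, r' < 1 ∧ ∀ z ∈ ball (0 : ℂ) 1, ‖f z‖ ≤ r → ‖z‖ ≤ r') →
  (∃ y ∈ ball (0 : ℂ) 1, ∃! z, z ∈ ball (0 : ℂ) 1 ∧ f z = y) → BijOn f (ball 0 1) (ball 0 1)

/-- JOB DISC (uses `S_PROP`).  Proof.  On the punctured disc let `F(z) = exp (i T(w))` for `z = exp (i w)`, `im w > 0` (for
example `w = -i log z`; well defined by periodicity), `F(0) = 0`; `F(z) = z` for `‖z‖ ≤ exp (-nη)`.  `F` is smooth on the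
open disc with `dz F ≠ 0`, `‖dzb F‖ ≤ k ‖dz F‖` (chain rules with local branches of the logarithm).  So it is a local
homeomorphism (inverse function theorem, `LLe`), it is proper (`bdry`: if `im w` is small then so is `im T w`), and a point close to `0` has exactly one
preimage (`high`: `‖F z‖ ≤ exp (-Y)` implies `‖z‖ ≤ exp (-nη)` and then `F z = z`).  By `S_PROP` `F` is a bijection of the
open disc.  On the circle let `F(exp (i x)) = exp (i h(x))`, a homeomorphism of the circle; `F` is continuous on the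
closed disc by `bdry`.  For `‖z‖ > 1` let `F(z) = 1 / conj (F (1 / conj z))` (for `z` outside of a large ball this is `z`).
`F` is continuous and bijective, the identity near infinity, so it is a homeomorphism of the plane.  `semi`: for
`exp (-η) < ‖z‖ < 1`: `F(z^n) = exp (i T(n w)) = exp (i α(T w)) = A.ev (exp (i T w)) = A.ev (F z)`; on the circle the same with
`h` (`semih`; real points are in `SH η₀`), outside by `A.ev (1 / conj z) = 1 / conj (A.ev z)`, and with `0 < 1 - conj a_i z`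
the points `z`, `1/conj z` with `A.den ≠ 0`: near the circle also `A.num ≠ 0`; choose the `ρ` of `semi` small enough.
`(zn n).ev z = z ^ n`, `(zn n).den z = 1`.  `mark`: `F(1) = exp (i h(0))`, `α(h 0) = h 0`, and `x ↦ α(x) - x` is strictly increasing
on the real axis, so `h 0 = x₀`. -/
def S_DISC : Prop := ∀ n : ℕ, 2 ≤ n → ∀ (A : Blaschke n) (η₀ : ℝ) (α : ℂ → ℂ) (x₀ : ℝ), LiftOf A η₀ α x₀ →
  ∀ (η k : ℝ) (T : ℂ → ℂ) (h : ℝ → ℝ), Half n η₀ α η k T h → ∃ F : ℂ ≃ₜ ℂ, IsTr (zn n) A k F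

/-- The transition maps (from `S_LIFT`, `S_INVB`, `S_FUND`, `S_HALF`, `S_DISC`). -/
def S_TR : Prop := ∀ n : ℕ, 2 ≤ n → ∀ A : Blaschke n, ∃ (k : ℝ) (T : ℂ ≃ₜ ℂ), 0 ≤ k ∧ k < 1 ∧ IsTr (zn n) A k T

/-- JOB TRALG.  Identity, inverse and composition of transition maps.  Proof.  Inverse: `T.symm` is smooth off the circle
(inverse function theorem, e.g. `OpenPartialHomeomorph.contDiffAt_symm` or `ContDiffAt.toOpenPartialHomeomorph`, with `LLe`);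
if `DT = LL α β` then `DT⁻¹ = LL (conj α / J) (-β / J)`, `J = ‖α‖² - ‖β‖²`.  `semi` for the inverse: if `z` is close to the
circle then so is `T.symm z` (compactness, uniform continuity).  Composition: `dz_comp`; the coefficient `μ` of
`T₂ ∘ T₁` satisfies `|μ| ≤ (k₁ + k₂) / (1 + k₁ k₂) < 1`.  Identity: `A.den ≠ 0` near the circle, since
`‖conj (a i) z‖ < 1` there. -/
def S_TRALG : Prop := ∀ n : ℕ, 1 ≤ n →
  (∀ (A : Blaschke n) (k : ℝ), 0 ≤ k → IsTr A A k (Homeomorph.refl ℂ)) ∧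
  (∀ (A₁ A₂ : Blaschke n) (k : ℝ) (T : ℂ ≃ₜ ℂ), k < 1 → IsTr A₁ A₂ k T → IsTr A₂ A₁ k T.symm) ∧
  ∀ (k₁ k₂ : ℝ), 0 ≤ k₁ → k₁ < 1 → 0 ≤ k₂ → k₂ < 1 → ∃ k : ℝ, 0 ≤ k ∧ k < 1 ∧
    ∀ (A₀ A₁ A₂ : Blaschke n) (T₁ T₂ : ℂ ≃ₜ ℂ), IsTr A₀ A₁ k₁ T₁ → IsTr A₁ A₂ k₂ T₂ → IsTr A₀ A₂ k (T₁.trans T₂)

theorem tr_of (h1 : S_LIFT) (h2 : S_INVB) (h3 : S_FUND) (h4 : S_HALF) (h5 : S_DISC) : S_TR := by
  intro n hn A
  obtain ⟨η₀, α, x₀, hα⟩ := h1 n hn A
  obtain ⟨G, η₁, m, c, hG⟩ := h2 n hn η₀ α hα.lift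
  obtain ⟨η, θ, k, C, T₁, hT₁⟩ := h3 n hn η₀ α G η₁ m c hG
  obtain ⟨T, h, hT⟩ := h4 n hn η₀ α G η₁ m c hG η θ k C T₁ hT₁
  obtain ⟨F, hF⟩ := h5 n hn A η₀ α x₀ hα η k T h hT
  exact ⟨k, F, hT.k0, hT.k1, hF⟩

end Pool.Agent.H212.MB
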