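import Pool.Agent.H212.MB.Stm
import Pool.Agent.H212.MB.Stm2

/-!
# Project MB (MP_c3607d_an), third part: rational maps, surgery, limits, gluing, assembly

Idea of the whole proof.  Let `T` be a transition map from `z ^ n` to `A`.  If `g = f(z^n, B)` and `f = f(A, B)` then there is
a homeomorphism `H` of the plane with `H ∘ φ_g = φ_f ∘ T` on the exterior, `H ∘ g = f ∘ H` on `K(g)`, holomorphic in the
interior of `K(g)`, quasiconformal with a constant which does not depend on `B` (surgery).  Let `E` be the closure of the set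
of all such pairs `(g, f)`.  The homeomorphisms `H` have limits, so every pair `(g, f)` of `E` is linked by such an `H`
(except for holomorphy), `g` is in `B(z^n)` iff `f` is in `B(A)`, and `E` is compatible with the relation of quasiconformal
conjugacy on the two boundaries; so `E` is the graph of a homeomorphism of the quotient spaces.
-/

set_option autoImplicit false

open Filter Metric Set Topology MeasureTheory Polynomial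
open scoped ContDiff ComplexConjugate ENNReal

namespace Pool.Agent.H212.MB

/-! ## F. Blaschke products and rational maps -/

/-- JOB BL (basic facts on Blaschke products).  Proof: `‖(z - a) / (1 - conj a z)‖` is `< 1`, `= 1`, `> 1` for `‖z‖ < 1`,
`= 1`, `> 1`; for `‖z‖ ≤ r < 1` it is `≤ (r + ‖a‖) / (1 + r ‖a‖) < 1`; the exterior by the reflection
`A.ev (1 / conj z) = 1 / conj (A.ev z)`, or directly. -/
def S_BL : Prop := ∀ n : ℕ, 1 ≤ n → ∀ A : Blaschke n,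
  (∀ z : ℂ, ‖z‖ ≤ 1 → A.den z ≠ 0) ∧ (∀ z : ℂ, ‖z‖ ≤ 1 → ‖A.ev z‖ ≤ ‖z‖) ∧ (∀ z : ℂ, ‖z‖ = 1 → ‖A.ev z‖ = 1) ∧
  (∀ z ∈ Ext, A.den z ≠ 0 → ‖z‖ ≤ ‖A.ev z‖) ∧ {z | A.den z = 0}.Finite ∧ (∀ z ∈ Ext, A.num z ≠ 0) ∧
  (∀ z : ℂ, z ≠ 0 → A.den z ≠ 0 → A.num z ≠ 0 → A.den (conj z)⁻¹ ≠ 0 ∧ A.ev (conj z)⁻¹ = (conj (A.ev z))⁻¹) ∧
  (2 ≤ n → (∀ r : ℝ, r < 1 → ∃ q : ℝ, q < 1 ∧ ∀ z : ℂ, ‖z‖ ≤ r → ‖A.ev z‖ ≤ q * ‖z‖) ∧
    ∀ r : ℝ, 1 < r → ∃ q : ℝ, 1 < q ∧ ∀ z : ℂ, r ≤ ‖z‖ → A.den z ≠ 0 → q * ‖z‖ ≤ ‖A.ev z‖) ∧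
  (∀ z : ℂ, (zn n).den z = 1 ∧ (zn n).ev z = z ^ n)

/-- JOB RTOP (the topology of the space of rational maps).  Proof: `RMap.coeffs` is injective, so the induced topology is
Hausdorff; `P = ∑ i ∈ range (n + 1), coeff`, the same for `Q`. -/
def S_RTOP : Prop := ∀ n : ℕ, T2Space (RMap n) ∧
  ∀ (ι : Type) (l : Filter ι) (f : ι → RMap n) (F : RMap n),
    (Tendsto f l (𝓝 F) ↔ (∀ j, Tendsto (fun i => (f i).P.coeff j) l (𝓝 (F.P.coeff j))) ∧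
      ∀ j, Tendsto (fun i => (f i).Q.coeff j) l (𝓝 (F.Q.coeff j))) ∧
    (Tendsto f l (𝓝 F) → ∀ (z : ι → ℂ) (x : ℂ), Tendsto z l (𝓝 x) →
      Tendsto (fun i => (f i).P.eval (z i)) l (𝓝 (F.P.eval x)) ∧
      Tendsto (fun i => (f i).Q.eval (z i)) l (𝓝 (F.Q.eval x)))

/-- JOB DET (uses `S_BL`; a rational map is determined by its exterior map).  Proof: `P Q' = P' Q` at the infinitely many points `φ z`,
`z ∈ Ext`, `A.den z ≠ 0`, so as polynomials; `P`, `P'` monic of the same degree and coprimality give `P = P'`, `Q = Q'`. -/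
def S_DET : Prop := ∀ n : ℕ, 1 ≤ n → ∀ (A : Blaschke n) (f f' : RMap n) (φ φ' : ℂ → ℂ), IsExt A f φ →
  IsExt A f' φ' → EqOn φ φ' Ext → f = f'

/-- the denominator of a rational map with exterior map `φ`: `c⁻¹ ∏ (-conj a_i) (X - φ(1 / conj a_i))` over the `i` with
`a_i ≠ 0` -/
noncomputable def qpol {n : ℕ} (A : Blaschke n) (φ : ℂ → ℂ) : ℂ[X] :=
  C A.c⁻¹ * ∏ i, (if A.a i = 0 then 1 else C (-conj (A.a i)) * (X - C (φ (conj (A.a i))⁻¹)))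

/-- JOB POLE (uses `S_BL`, `S_SIG`).  Behaviour at the poles.  Proof.  `qpol A φ` has degree `#{i | a_i ≠ 0} ≤ n - 1` and its
zeros are the `φ(p)`, `p ∈ Ext` a zero of `A.den`.  For `z ∈ Ext` not a pole `A.ev z ∈ Ext`.  Near a pole `p ∈ Ext`:
`qpol(φ z) / A.den z` is `c⁻¹` times a product of difference quotients `(φ z - φ p_i) / (z - p_i)`, which extend to holomorphic
functions on `Ext` without zeros (`φ` injective, `φ' ≠ 0`; use `dslope`); and `A.den z * φ(A.ev z) = A.num z +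
A.den z * (φ(A.ev z) - A.ev z)`, where the last term tends to `0` at `p` (`A.ev z → ∞`, `φ(w) - w → 0`), so it tends to
`A.num p ≠ 0`.  So `qpol(φ z) φ(A.ev z)`, holomorphic off the finitely many poles, has a finite nonzero limit at every pole:
the singularities are removable.  At infinity `qpol(φ z) / A.den z → c⁻¹`, `A.den z φ(A.ev z) / z ^ n → c` (`A.num z / z^n → c`,
`A.den z / z^n → 0`). -/
def S_POLE : Prop := ∀ n : ℕ, 1 ≤ n → ∀ (A : Blaschke n) (φ : ℂ → ℂ), Sig φ →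
  (qpol A φ).degree < n ∧ (∀ z ∈ Ext, (qpol A φ).eval (φ z) = 0 ↔ A.den z = 0) ∧
  (∀ y, (qpol A φ).eval y = 0 → y ∈ φ '' Ext) ∧
  ∃ v : ℂ → ℂ, DifferentiableOn ℂ v Ext ∧
    (∀ z ∈ Ext, A.den z ≠ 0 → v z = (qpol A φ).eval (φ z) * φ (A.ev z)) ∧
    (∀ z ∈ Ext, A.den z = 0 → v z ≠ 0) ∧ Tendsto (fun z => v z / z ^ n) (cocompact ℂ) (𝓝 1)

/-- JOB QFORM (uses `S_BL`, `S_SIG`, `S_POLE`).  Proof.  With `v` from `S_POLE`: `Q(φ z) v z = P(φ z) qpol(φ z)` on `Ext` (off the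
poles by `IsExt.semi`, at the poles by continuity).  If `qpol` vanishes at `y₁ = φ p` to the order `m`, then so does `Q`
(`v p ≠ 0`; compare orders of vanishing at `p` or at `y₁`, `φ` is locally biholomorphic), so `qpol ∣ Q`.  As `z → ∞`:
`v z / z^n → 1`, `P(φ z) / z^n → 1`, so `Q(y) / qpol(y) → 1` as `y → ∞`, so the quotient polynomial is `1`.  For `z ^ n`: no poles,
`qpol = 1`. -/
def S_QFORM : Prop := ∀ n : ℕ, 1 ≤ n → ∀ (A : Blaschke n) (f : RMap n) (φ : ℂ → ℂ), IsExt A f φ →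
  f.Q = qpol A φ ∧ (∀ z ∈ Ext, f.Q.eval (φ z) = 0 ↔ A.den z = 0) ∧ (∀ y, y ∉ φ '' Ext → f.Q.eval y ≠ 0) ∧
  qpol (zn n) φ = 1

/-- JOB EXTU (uses `S_BL`, `S_SIG`, `S_QFORM`).  The exterior map is unique.  Proof.  Let `d = n - deg Q ≥ 1`.  As `y → ∞`
`f(y) = c y^d (1 + O(1/y))`, `f'(y) = c d y^(d-1) (1 + O(1/y))` with `|c| = ∏_{a_i ≠ 0} 1/|a_i|`; if `d = 1` then all the
`a_i ≠ 0`, so `|c| > 1` (there is at least one `i`, as `n ≥ 2`).  So there are `R` and `λ > 1` with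
`‖f y - f y'‖ ≥ λ ‖y - y'‖` for `‖y‖, ‖y'‖ ≥ R`, `‖y - y'‖ ≤ 1` (integrate `f'` along the segment, on which
`f' = c d y^(d-1) (1 + small)`).  Let `‖z‖` be large, `z_j = A.ev^[j] z` (`‖z_j‖ ≥ ‖z‖`, never a pole for `‖z‖` large), then
`‖φ z_j - φ' z_j‖ ≤ 4 / ‖z_j‖ ≤ 1` (`S_SIG`) and `f (φ z_j) = φ z_{j+1}`, so `‖φ z - φ' z‖ ≤ λ^{-j} ‖φ z_j - φ' z_j‖ → 0`.  So
`φ = φ'` near infinity, and on `Ext` by the identity theorem (`Ext` is connected). -/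
def S_EXTU : Prop := ∀ n : ℕ, 2 ≤ n → ∀ (A : Blaschke n) (f : RMap n) (φ φ' : ℂ → ℂ), IsExt A f φ → IsExt A f φ' →
  EqOn φ φ' Ext

/-- JOB CPT (uses `S_BL`, `S_SIG`, `S_SIGLIM`, `S_RTOP`, `S_POLE`, `S_QFORM`).  Compactness.  Proof.  `φ i → Φ` by `S_SIGLIM`.
`(f i).Q = qpol A (φ i)` converges (coefficientwise) to `qpol A Φ =: Q` (the poles are fixed points of `Ext`).  The zeros of
`(f i).P` are bounded: there is `R` (depending on `A`) with: if `‖z‖ ≥ R` then `A.den z ≠ 0` and `‖A.ev z‖ ≥ 4`, so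
`‖φ i (A.ev z)‖ ≥ 2`; if `‖y‖ ≥ R + 3` then `y = φ i z` with `‖z‖ ≥ R` (`S_SIG`) and `(f i).P.eval y = Q.eval y * φ i (A.ev z) ≠ 0`.
So the coefficients of the monic polynomials `(f i).P` are bounded (e.g. `Polynomial.coeff_le_of_roots_le`), so they converge
along the ultrafilter; let `P` be the monic polynomial of degree `n` with the limit coefficients.  In the limit
`Q(Φ z) Φ(A.ev z) = P(Φ z)` for `z ∈ Ext` not a pole, so `P(Φ z) = v z` on `Ext` with the `v` of `S_POLE` for `Φ` (continuity at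
the poles); at a common zero `Φ p` of `P` and `Q` we would have `v p = 0`, but `p` is a pole, `v p ≠ 0`.  So `P`, `Q` are coprime
and `F = (P, Q)` is the limit (`S_RTOP`), `IsExt A F Φ`. -/
def S_CPT : Prop := ∀ n : ℕ, 1 ≤ n → ∀ (A : Blaschke n) (ι : Type) (u : Ultrafilter ι) (f : ι → RMap n) (φ : ι → ℂ → ℂ),
  (∀ᶠ i in (u : Filter ι), IsExt A (f i) (φ i)) → ∃ (F : RMap n) (Φ : ℂ → ℂ), IsExt A F Φ ∧
    Tendsto f u (𝓝 F) ∧ TendstoLocallyUniformlyOn φ Φ (u : Filter ι) Ext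

/-- JOB FINV (uses `S_BL`, `S_QFORM`).  Forward invariance of the filled Julia set of a polynomial.  Proof.  Suppose
`g.ev z = φ v`, `v ∈ Ext`.  `g.Q = 1`.  The polynomial `g.P - C (φ v)` of degree `n` has the `n` distinct roots `φ w`, `w ^ n = v`
(`g.ev (φ w) = φ (w ^ n)`), so `z` is one of them. -/
def S_FINV : Prop := ∀ n : ℕ, 1 ≤ n → ∀ (g : RMap n) (φ : ℂ → ℂ), IsExt (zn n) g φ →
  ∀ z, z ∉ φ '' Ext → g.ev z ∉ φ '' Ext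

/-! ## G. Matings -/

/-- JOB CIRC.  Uniqueness of the conjugacy on the circle.  Proof.  `s`, `s'` are homeomorphisms of the line.  Replace `s'` by
`s' - 2 π j` so that `s' 0 = s 0`.  `γ = s ∘ (n ·) ∘ s⁻¹` and `γ' = s' ∘ (n ·) ∘ s'⁻¹` are continuous with
`exp (i γ(y)) = B (exp (i y)) = exp (i γ'(y))`, so `γ - γ'` is constant (continuous with values in `2πℤ`), and it vanishes at
`y = s 0`.  So `u = s⁻¹ ∘ s'` satisfies `u (n x) = n u x`, and `u x - x` is periodic, bounded, so `u x = x`. -/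
def S_CIRC : Prop := ∀ n : ℕ, 2 ≤ n → ∀ (B : ℂ → ℂ) (s s' : ℝ → ℝ), Continuous s → StrictMono s →
  (∀ x, s (x + 2 * Real.pi) = s x + 2 * Real.pi) → Continuous s' → StrictMono s' →
  (∀ x, s' (x + 2 * Real.pi) = s' x + 2 * Real.pi) →
  (∀ x : ℝ, Complex.exp (s (n * x) * Complex.I) = B (Complex.exp (s x * Complex.I))) →
  (∀ x : ℝ, Complex.exp (s' (n * x) * Complex.I) = B (Complex.exp (s' x * Complex.I))) →
  Complex.exp (s 0 * Complex.I) = Complex.exp (s' 0 * Complex.I) →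
    ∀ x : ℝ, Complex.exp (s x * Complex.I) = Complex.exp (s' x * Complex.I)

/-- JOB QMAP (uses `S_BL`, `S_CIRC`).  The circle model of a mating.  Proof.  Define `Q = φ ∘ TA` on `CExt` and `Q = ψ ∘ TB` on the
closed disc.  On the circle: with the lifts `t`, `t'` of `TA`, `TB`: `φ (TA (exp (i x))) = ψ (exp (i h (t x)))`, and `s = h ∘ t`,
`s' = t'` satisfy the hypotheses of `S_CIRC` with `B = B.ev`: for `s`: `ψ (exp (i h (t (n x)))) = φ (TA (exp (i n x))) =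
φ (A.ev (TA (exp (i x)))) = f.ev (φ (TA (exp (i x))))` (by continuity from the exterior: `f.ev (φ z) = φ (A.ev z)` also holds for
`‖z‖ = 1`, where `f.Q.eval (φ z) ≠ 0` by `semiψ`) `= f.ev (ψ (exp (i s x))) = ψ (B.ev (exp (i s x)))`, and `ψ` is injective; for
`s'` it is `semi` of `TB`; at `0`: `φ (TA 1) = φ A.b = ψ B.b = ψ (TB 1)` and `ψ` is injective.  So `Q` is well defined, continuous
(two closed sets), bijective (`compl`), `Q z - z → 0` (`TA = id` near infinity), so it is a homeomorphism.  `QCOff`: chain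
rules, `φ' ≠ 0`, `ψ' ≠ 0` (injective holomorphic).  The last statement from the two `semi`s. -/
def S_QMAP : Prop := ∀ n : ℕ, 2 ≤ n → ∀ (A B : Blaschke n) (f : RMap n) (φ ψ : ℂ → ℂ) (h : ℝ → ℝ) (k : ℝ)
  (TA TB : ℂ ≃ₜ ℂ), IsMatingData A B f φ ψ h → IsTr (zn n) A k TA → IsTr (zn n) B k TB →
    ∃ Q : ℂ ≃ₜ ℂ, (∀ z ∈ CExt, Q z = φ (TA z)) ∧ (∀ z ∈ closedBall (0 : ℂ) 1, Q z = ψ (TB z)) ∧ QCOff k Q ∧
      Tendsto (fun z => Q z - z) (cocompact ℂ) (𝓝 0) ∧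
      ∃ ρ : ℝ, 1 < ρ ∧ ∀ z, ρ⁻¹ < ‖z‖ → ‖z‖ < ρ → f.Q.eval (Q z) ≠ 0 ∧ f.ev (Q z) = Q (z ^ n)

/-- JOB POW.  The change of variables `w = z ^ n`.  Proof: polar coordinates (`θ ↦ n θ`, periodicity; `s = r ^ n`), or the `n`
sectors on which `z ↦ z ^ n` is injective. -/
def S_POW : Prop := ∀ n : ℕ, 1 ≤ n → ∀ (g : ℂ → ℝ≥0∞) (r₁ r₂ : ℝ), Measurable g → 0 < r₁ →
  (∫⁻ z in {z : ℂ | r₁ < ‖z‖ ∧ ‖z‖ < r₂}, g (z ^ n) * ‖(n : ℂ) * z ^ (n - 1)‖ₑ ^ 2) ≤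
    n * ∫⁻ w in {w : ℂ | r₁ ^ n < ‖w‖ ∧ ‖w‖ < r₂ ^ n}, g w

/-- JOB RAT (uses `S_BL`, `S_SIG`, `S_POLE`, `S_POW`, `S_EN`, `S_REM`, `S_TRALG`).  Welding gives a rational map.  Proof.  `Sig φ` holds
(`φ = Q ∘ TA.symm` on `CExt`).  Let `q = qpol A φ`, `v` from `S_POLE`.  Define `V (φ z) = v z` for `z ∈ Ext` and
`V (ψ z) = q (ψ z) * ψ (B.ev z)` for `‖z‖ ≤ 1` (the images are complementary as `Q` is a bijection).  For `z` in an annulus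
`ρ⁻¹ < ‖z‖ < ρ`: `V (Q z) = q (Q z) * Q (z ^ n)` (both cases, from `semi` of `TA`, `TB`).  So `V` is continuous, and it is
holomorphic off `Q (circle)`.  Polynomial part: `x ^ n V (1 / x)` is holomorphic and bounded near `0` (`V y / y^n → 1`), so by
Taylor's formula there is a monic polynomial `P` of degree `n` with `V y - P y → 0` as `y → ∞`.  Apply `S_REM` to `V - P`: on the
annulus `(V - P) ∘ Q = (q ∘ Q) (Q (z^n)) - P ∘ Q`, whose derivative is bounded by `const (‖fderiv Q z‖ + ‖fderiv Q (z^n)‖ n ‖z‖^(n-1))`,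
square integrable near the circle by `S_EN` (bounded area) and `S_POW`.  So `V = P`.  `P`, `q` have no common zero (a zero of `q`
is `φ p`, `p` a pole in `Ext`, and `P (φ p) = v p ≠ 0`).  `f = (P, q)`.  `h = t' ∘ t⁻¹` with the lifts of `TA`, `TB`.  `mark`:
`φ A.b = φ (TA 1) = Q 1 = ψ (TB 1) = ψ B.b`.  All the fields of `IsMatingData` follow. -/
def S_RAT : Prop := ∀ n : ℕ, 2 ≤ n → ∀ (A B : Blaschke n) (φ ψ : ℂ → ℂ) (k : ℝ) (TA TB Q : ℂ ≃ₜ ℂ), 0 ≤ k → k < 1 →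
  IsTr (zn n) A k TA → IsTr (zn n) B k TB → DifferentiableOn ℂ φ Ext → DifferentiableOn ℂ ψ (ball 0 1) →
  (∀ z ∈ CExt, Q z = φ (TA z)) → (∀ z ∈ closedBall (0 : ℂ) 1, Q z = ψ (TB z)) →
  Tendsto (fun z => Q z - z) (cocompact ℂ) (𝓝 0) →
    ∃ (f : RMap n) (h : ℝ → ℝ), IsMatingData A B f φ ψ h

/-- JOB SURGA (uses `S_QSLIM`, `S_LA`, `S_MRMT`, `S_SIG`).  The quasiconformal map of the surgery.  Proof.  On the open set
`φ '' Ext` let `a = S ∘ φ⁻¹`, on `ψ '' ball 0 1` let `a = S' ∘ ψ⁻¹`; `a` is smooth, `dz a ≠ 0`, `μ = dzb a / dz a`, `‖μ‖ ≤ k`; `μ = 0` on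
the rest `J`.  `μ` vanishes outside of a ball of radius `R₁` (`S = id` near infinity).  For `j ≥ 1` let `μ_j = χ_j μ` with a
cutoff `χ_j (φ z) = β (j (‖z‖ - 1))`, `χ_j (ψ z) = β (j (1 - ‖z‖))`, `χ_j = 0` on `J`, `β = 0` on `(-∞, 1]`, `1` on `[2, ∞)`,
smooth: `μ_j` is smooth (it vanishes near `J`: the complement of the closed set
`φ '' {1 + 1/j ≤ ‖z‖} ∪ ψ '' {‖z‖ ≤ 1 - 1/j}` is a neighbourhood of `J`).  `H_j` from `S_MRMT`; `QCOff k H_j`, so `WQS C H_j` with `C`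
from `S_LA`.  `H_j` is holomorphic and injective for `‖z‖ > R₁`, so (`S_SIG`, rescaled) `‖H_j z - z‖ ≤ 2 R₁² / ‖z‖` for
`‖z‖ ≥ 2 R₁`; so `S_QSLIM` applies with `p = 2 R₁`, `q = 8 R₁`, along `Filter.hyperfilter ℕ`; let `H` be the limit;
`‖H z - z‖ ≤ 2 R₁² / ‖z‖`.  `φ₂ = H ∘ φ ∘ S⁻¹` on `CExt`, `ψ₂ = H ∘ ψ ∘ S'⁻¹` on the closed disc.  On the open set
`S '' {1 + 2/j < ‖z‖}` the map `H_j ∘ φ ∘ S⁻¹ = H_j ∘ a⁻¹` is holomorphic: at `z`, `D H_j = (dz H_j / dz a) • Da` as both have the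
Beltrami coefficient `μ`.  Every compact subset of `Ext` is in this set for large `j`, and `H_j ∘ φ ∘ S⁻¹ → φ₂` locally
uniformly, so `φ₂` is holomorphic on `Ext` (`TendstoLocallyUniformlyOn.differentiableOn`).  The same for `ψ₂`. -/
def S_SURGA : Prop := ∀ k : ℝ, 0 ≤ k → k < 1 → ∃ C : ℝ, ∀ (n : ℕ) (A₁ A₂ B₁ B₂ : Blaschke n) (f : RMap n) (φ ψ : ℂ → ℂ)
  (h : ℝ → ℝ) (S S' : ℂ ≃ₜ ℂ), IsMatingData A₁ B₁ f φ ψ h → IsTr A₁ A₂ k S → IsTr B₁ B₂ k S' →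
    ∃ (H : ℂ ≃ₜ ℂ) (φ₂ ψ₂ : ℂ → ℂ), WQS C H ∧ Tendsto (fun z => H z - z) (cocompact ℂ) (𝓝 0) ∧
      DifferentiableOn ℂ φ₂ Ext ∧ (∀ z ∈ CExt, H (φ z) = φ₂ (S z)) ∧ DifferentiableOn ℂ ψ₂ (ball 0 1) ∧
      ∀ z ∈ closedBall (0 : ℂ) 1, H (ψ z) = ψ₂ (S' z)

/-- both a quasiconformal homeomorphism off the circle and its inverse are weakly quasisymmetric
(from `S_LA0`, `S_INV`) -/
def S_LA : Prop := ∀ k : ℝ, 0 ≤ k → k < 1 → ∃ C : ℝ, 0 < C ∧ ∀ Q : ℂ ≃ₜ ℂ, QCOff k Q → WQS C Q ∧ WQS C Q.symm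

/-- JOB SURG (uses `S_SURGA`, `S_QMAP`, `S_RAT`, `S_TR`, `S_TRALG`).  Surgery.  Proof.  `H`, `φ₂`, `ψ₂` from `S_SURGA`.  Take `TA`, `TB`
from `S_TR` for `A₁`, `B₁`, `Q₁` from `S_QMAP`, and apply `S_RAT` to `Q₁.trans H`, with the transition maps `TA.trans S`,
`TB.trans S'` (`S_TRALG`; `IsTr` is monotone in `k`): `H (Q₁ z) = H (φ (TA z)) = φ₂ (S (TA z))`. -/
def S_SURG : Prop := ∀ k : ℝ, 0 ≤ k → k < 1 → ∃ C : ℝ, ∀ n : ℕ, 2 ≤ n → ∀ (A₁ A₂ B₁ B₂ : Blaschke n) (f : RMap n)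
  (φ ψ : ℂ → ℂ) (h : ℝ → ℝ) (S S' : ℂ ≃ₜ ℂ), IsMatingData A₁ B₁ f φ ψ h → IsTr A₁ A₂ k S → IsTr B₁ B₂ k S' →
    ∃ (H : ℂ ≃ₜ ℂ) (φ₂ ψ₂ : ℂ → ℂ) (f₂ : RMap n) (h₂ : ℝ → ℝ), WQS C H ∧
      Tendsto (fun z => H z - z) (cocompact ℂ) (𝓝 0) ∧ (∀ z ∈ CExt, H (φ z) = φ₂ (S z)) ∧
      (∀ z ∈ closedBall (0 : ℂ) 1, H (ψ z) = ψ₂ (S' z)) ∧ IsMatingData A₂ B₂ f₂ φ₂ ψ₂ h₂

/-- JOB UNIQK (uses `S_EN`, `S_REM`, `S_TR`, `S_QMAP`).  The Julia set of a mating is removable for homeomorphisms.  Proof.  `Q` from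
`S_QMAP`; `K ∘ Q` is again `QCOff k`: `K` is holomorphic at `Q z` for `z` off the circle, with `K' ≠ 0` (injective).  Apply `S_REM`
to `V = K - id`: `V ∘ Q = K ∘ Q - Q`, both have finite energy on `ρ⁻¹ < ‖z‖ < ρ`, `‖z‖ ≠ 1` by `S_EN` (the images are bounded).
So `V = 0`. -/
def S_UNIQK : Prop := ∀ n : ℕ, 2 ≤ n → ∀ (A B : Blaschke n) (f : RMap n) (φ ψ : ℂ → ℂ) (h : ℝ → ℝ) (K : ℂ ≃ₜ ℂ),
  IsMatingData A B f φ ψ h → DifferentiableOn ℂ K (φ '' Ext) → DifferentiableOn ℂ K (ψ '' ball 0 1) →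
  Tendsto (fun z => K z - z) (cocompact ℂ) (𝓝 0) → ∀ z, K z = z

/-- JOB UNIQ (uses `S_TR`, `S_QMAP`, `S_UNIQK`, `S_DET`).  The mating is unique.  Proof.  `Q`, `Q'` from `S_QMAP` for `f`, `f'` with the same
`TA`, `TB`; `K = Q.symm.trans Q'` satisfies `K (φ z) = φ' z` on `CExt` and `K (ψ z) = ψ' z` on the closed disc; `S_UNIQK`, so
`φ = φ'`, `S_DET`. -/
def S_UNIQ : Prop := ∀ n : ℕ, 2 ≤ n → ∀ (A B : Blaschke n) (f f' : RMap n), IsMating A B f → IsMating A B f' → f = f'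

/-- JOB MATE (uses `S_BL`).  Transport of a mating.  Proof.  `ψ₂ = H ∘ ψ`, `φ₂' = H ∘ φ ∘ S.symm` on `CExt` (equal to `φ₂` on `Ext`; replace `φ₂` by
the function equal to `φ₂` on `Ext` and to `φ₂'` on the circle: `IsExt` does not change, since `A.ev z ∈ Ext` for `z ∈ Ext`
(`S_BL`); `cocompact`: it is unchanged off a compact set), `h₂ = h ∘ t⁻¹` with the lift `t` of `S`.
`semiψ`: `ψ z ∉ φ '' Ext`, so `f₂.ev (H (ψ z)) = H (f.ev (ψ z)) = H (ψ (B.ev z))`. -/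
def S_MATE : Prop := ∀ n : ℕ, 2 ≤ n → ∀ (A₁ A₂ B : Blaschke n) (f f₂ : RMap n) (φ ψ φ₂ : ℂ → ℂ) (h : ℝ → ℝ) (k : ℝ)
  (S H : ℂ ≃ₜ ℂ), IsMatingData A₁ B f φ ψ h → IsTr A₁ A₂ k S → IsExt A₂ f₂ φ₂ →
  (∀ z ∈ Ext, H (φ z) = φ₂ (S z)) → DifferentiableOn ℂ H (ψ '' ball 0 1) →
  (∀ z, z ∉ φ '' Ext → f₂.Q.eval (H z) ≠ 0 ∧ f₂.ev (H z) = H (f.ev z)) → IsMating A₂ B f₂

/-- JOB STAB (uses `S_BL`, `S_RTOP`, `S_QFORM`).  Stability of the inner basin.  Proof.  `ψ⁻¹ (L)` is contained in a closed disc of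
radius `r < 1`; let `X = ψ '' closedBall 0 r`, compact; `f.Q ≠ 0` on `X` and `f.ev '' X ⊆ ψ '' closedBall 0 (q r) ⊆ interior X`
(`q < 1`, `S_BL`; `ψ '' ball 0 r` is open).  `(f i).Q → f.Q`, `(f i).P → f.P` uniformly on `X`, so eventually `(f i).Q ≠ 0` on `X` and
`(f i).ev` maps `X` into `X`.  Suppose `w ∈ Ext`, `φ i w ∈ X`.  Then, by induction, `w_j = A.ev^[j] w ∈ Ext`, `φ i w_j ∈ X`,
`A.den w_j ≠ 0` (otherwise `(f i).Q.eval (φ i w_j) = 0`, `S_QFORM`).  By `S_BL` `‖w_{j+1}‖ ≥ q ‖w_j‖` with `q > 1` depending on `‖w‖`, so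
`w_j → ∞`, `φ i w_j → ∞`, a contradiction. -/
def S_STAB : Prop := ∀ n : ℕ, 2 ≤ n → ∀ (A B : Blaschke n) (f : RMap n) (φ ψ : ℂ → ℂ) (h : ℝ → ℝ),
  IsMatingData A B f φ ψ h → ∀ (ι : Type) (l : Filter ι) (F : ι → RMap n) (Φ : ι → ℂ → ℂ) (L : Set ℂ),
    Tendsto F l (𝓝 f) → (∀ᶠ i in l, IsExt A (F i) (Φ i)) → IsCompact L → L ⊆ ψ '' ball 0 1 →
    ∀ᶠ i in l, Disjoint L (Φ i '' Ext)

/-! ## H. Links -/

/-- `H` links the polynomial `g` and the rational map `f`. -/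
structure Link {n : ℕ} (A : Blaschke n) (T : ℂ ≃ₜ ℂ) (C : ℝ) (g f : RMap n) (H : ℂ ≃ₜ ℂ) (φ φ' : ℂ → ℂ) : Prop where
  extg : IsExt (zn n) g φ
  extf : IsExt A f φ'
  wqs : WQS C H
  out : ∀ z ∈ Ext, H (φ z) = φ' (T z)
  inn : ∀ z, z ∉ φ '' Ext → f.Q.eval (H z) ≠ 0 ∧ f.ev (H z) = H (g.ev z)

/-- JOB LIM (uses `S_BL`, `S_RTOP`, `S_SIG`, `S_QSLIM`, `S_QFORM`, `S_CPT`).  Limits of links.  Proof.  By `S_CPT` and uniqueness of limits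
(`RMap n` is Hausdorff) `φ i → Φ`, `φ' i → Φ'` locally uniformly on `Ext`, `IsExt (zn n) G Φ`, `IsExt A F Φ'`.  Let
`T = id` for `‖z‖ ≥ R`, `R ≥ 2`.  `H i (φ i z) = φ' i z` for `‖z‖ ≥ R`, `‖φ i z - z‖ ≤ 1`, `‖φ' i z - z‖ ≤ 1` (`S_SIG`), so `S_QSLIM` applies
with `p i = φ i R`, `q i = φ i (5 R)`; let `K` be the limit.  `out`: pass to the limit.  `inn`: let `ρ` be from `IsTr.semi`.  (a) If
`z = φ i w` with `1 < ‖w‖ < ρ` then `(f i).ev (H i z) = (f i).ev (φ' i (T w)) = φ' i (A.ev (T w)) = φ' i (T (w ^ n)) =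
H i (φ i (w ^ n)) = H i ((g i).ev z)`, with `(f i).Q ≠ 0`.  (b) If `z ∉ Φ '' Ext` then eventually `z ∉ φ i '' {ρ' ≤ ‖w‖}` for a fixed
`1 < ρ' < ρ`: otherwise `z = φ i w_i` for `u`-many `i`, `w_i` bounded, `w_i → w` along `u`, `‖w‖ ≥ ρ'`, `Φ w = z`.  So for `z ∉ Φ '' Ext`
eventually `(f i).Q.eval (H i z) * H i ((g i).ev z) = (f i).P.eval (H i z)`; in the limit (`S_RTOP`, `(g i).Q = 1`, `G.Q = 1`)
`F.Q.eval (K z) * K (G.ev z) = F.P.eval (K z)`, and by coprimality `F.Q.eval (K z) ≠ 0`. -/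
def S_LIM : Prop := ∀ n : ℕ, 2 ≤ n → ∀ (A : Blaschke n) (k C : ℝ) (T : ℂ ≃ₜ ℂ), IsTr (zn n) A k T →
  ∀ (ι : Type) (u : Ultrafilter ι) (g f : ι → RMap n) (H : ι → ℂ ≃ₜ ℂ) (φ φ' : ι → ℂ → ℂ) (G F : RMap n),
    (∀ᶠ i in (u : Filter ι), Link A T C (g i) (f i) (H i) (φ i) (φ' i)) → Tendsto g u (𝓝 G) → Tendsto f u (𝓝 F) →
    ∃ (K : ℂ ≃ₜ ℂ) (Φ Φ' : ℂ → ℂ), Link A T C G F K Φ Φ' ∧
      TendstoLocallyUniformly (fun i z => H i z) (fun z => K z) (u : Filter ι) ∧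
      TendstoLocallyUniformly (fun i z => (H i).symm z) (fun z => K.symm z) (u : Filter ι)

/-- `g = f(z^n, B)` and `f = f(A, B)` for the same `B` -/
def Rel {n : ℕ} (A : Blaschke n) (g f : RMap n) : Prop := ∃ B : Blaschke n, IsMating (zn n) B g ∧ IsMating A B f

/-- JOB REL (uses `S_BL`, `S_TR`, `S_TRALG`, `S_SURG`, `S_UNIQK`, `S_UNIQ`, `S_DET`, `S_EXTU`).  Proof.  Fix `k`, `T` from `S_TR` for `A` and `C` from
`S_SURG`.  (E) Existence of all matings: `X ^ n` is the mating of `zn n` and `zn n` (`φ = ψ = id`, `h = id`); surgery with the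
transition maps of `A` and of `B` (with a common `k`).  (L) Let `IsMatingData (zn n) B g φ ψ h`.  Surgery with `S = T`,
`S' = Homeomorph.refl` gives `H`, `f₂` with `IsMating A B f₂`, `H ∘ φ = φ₂ ∘ T`, `H ∘ ψ = ψ₂`; this is a link (`inn`: `z = ψ w`,
`f₂.ev (H z) = f₂.ev (ψ₂ w) = ψ₂ (B.ev w) = H (ψ (B.ev w)) = H (g.ev z)`), `H = ψ₂ ∘ ψ⁻¹` is holomorphic on `ψ '' ball 0 1`,
which is the interior of `(φ '' Ext)ᶜ` (points `ψ ζ`, `‖ζ‖ = 1`, are limits of points of `φ '' Ext` by `glue`).  If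
`IsMating A B f` then `f = f₂` (`S_UNIQ`).  So every pair with `Rel A g f` is linked, and every `g ∈ BB (zn n)` has an `f`.
(S) For `f ∈ BB A` surgery with `T.symm` gives a `g`.  (U) If `Rel A g f`, `Rel A g f'` then with the links `H`, `H'` let
`K = H.symm.trans H'`: `K ∘ φ_f = φ_f'` on `Ext`, `K` is holomorphic on the interior of the complement of `φ_f '' Ext`,
`K z - z → 0` (for large `z`, `K z = φ_f' (φ_f⁻¹ z)`), so `K = id` by `S_UNIQK` and `f = f'` by `S_DET` (the exterior map in the mating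
data of `f` and in the link agree by `S_EXTU`).  Similarly `g` is determined by `f` (`K = H.trans H'.symm`). -/
def S_REL : Prop := ∀ n : ℕ, 2 ≤ n → ∀ A : Blaschke n, (∀ B : Blaschke n, ∃ f, IsMating A B f) ∧
  (∀ g ∈ BB (zn n), ∃ f, Rel A g f) ∧ (∀ f ∈ BB A, ∃ g, Rel A g f) ∧
  (∀ g f f', Rel A g f → Rel A g f' → f = f') ∧ (∀ g g' f, Rel A g f → Rel A g' f → g = g') ∧
  ∃ (k C : ℝ) (T : ℂ ≃ₜ ℂ), 0 ≤ k ∧ k < 1 ∧ IsTr (zn n) A k T ∧ ∀ g f, Rel A g f →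
    ∃ (H : ℂ ≃ₜ ℂ) (φ φ' : ℂ → ℂ), Link A T C g f H φ φ' ∧ DifferentiableOn ℂ H (interior (φ '' Ext)ᶜ)

/-- the closure of the graph -/
def EE {n : ℕ} (A : Blaschke n) : Set (RMap n × RMap n) := closure {p | Rel A p.1 p.2}

/-- JOB CLOS (uses `S_RTOP`, `S_EXTU`, `S_CPT`, `S_TRALG`, `S_MATE`, `S_STAB`, `S_LIM`, `S_REL`).  Proof.  (0) `X_A = {f | ∃ φ, IsExt A f φ}` is
compact (`S_CPT`, `isCompact_iff_ultrafilter_le_nhds`) and contains `BB A`, so `closure (BB A)` is compact and so is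
`EE A ⊆ X_{zn} ×ˢ X_A`.  (1) Links: a point of the closure is a limit along an ultrafilter `u` on `RMap n × RMap n`
(`mem_closure_iff_ultrafilter`); choose the links of `S_REL` and apply `S_LIM`.  (2) Totality: let `g ∈ closure (BB (zn n))`, `u` an
ultrafilter on `RMap n` converging to `g` with `BB (zn n) ∈ u`, choose `f_g` with `Rel A g f_g`; by `S_CPT` `f_g → F` along `u`, so
`(g, F) ∈ EE A`.  The same for `f`.  (3) Let `(g, f) ∈ EE A`, `IsMatingData (zn n) B g φ ψ h`.  In (1) `K` is holomorphic on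
`ψ '' ball 0 1`: for a closed disc `D ⊆ ψ '' ball 0 1`, by `S_STAB` eventually `D` is disjoint from `φ i '' Ext`, so `H i` is
holomorphic in the interior of `D`, and so is the limit `K`.  `S_MATE` (with `S = T`, `H = K`; `Φ = φ` on `Ext` by `S_EXTU`) gives
`IsMating A B f`.  (4) Let `IsMatingData A B f φ ψ h`.  `H i` maps `(φ i '' Ext)ᶜ` onto `(φ' i '' Ext)ᶜ` and so the interiors, and
`(H i).symm` is holomorphic on the interior of the second set (inverse of an injective holomorphic map); with `S_STAB` for `f`,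
`K.symm` is holomorphic on `ψ '' ball 0 1`; `S_MATE` with `S = T.symm`, `H = K.symm`: `IsMating (zn n) B g`
(`g.Q = 1`, `K.symm (f.ev x) = g.ev (K.symm x)` for `x ∉ φ '' Ext` from `Link.inn` at `K.symm x`). -/
def S_CLOS : Prop := ∀ n : ℕ, 2 ≤ n → ∀ A : Blaschke n, IsCompact (EE A) ∧ IsCompact (closure (BB A)) ∧
  (∀ f ∈ closure (BB A), ∃ φ, IsExt A f φ) ∧
  (∀ g f, (g, f) ∈ EE A → g ∈ closure (BB (zn n)) ∧ f ∈ closure (BB A)) ∧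
  (∀ g ∈ closure (BB (zn n)), ∃ f, (g, f) ∈ EE A) ∧ (∀ f ∈ closure (BB A), ∃ g, (g, f) ∈ EE A) ∧
  (∀ g f, (g, f) ∈ EE A → g ∈ BB (zn n) → Rel A g f) ∧ (∀ g f, (g, f) ∈ EE A → f ∈ BB A → Rel A g f) ∧
  ∃ (k C : ℝ) (T : ℂ ≃ₜ ℂ), 0 ≤ k ∧ k < 1 ∧ IsTr (zn n) A k T ∧ ∀ g f, (g, f) ∈ EE A →
    ∃ (H : ℂ ≃ₜ ℂ) (φ φ' : ℂ → ℂ), Link A T C g f H φ φ'

/-! ## I. Gluing -/

/-- JOB ONTO (uses `S_SIG`).  Proof.  `η` is continuous and injective (`η = φ'⁻¹ ∘ k ∘ φ`), and open.  `η '' Ext` is open, not empty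
and closed in the connected set `Ext`: if `η z_j → v ∈ Ext` then the `z_j` are bounded (`k (φ z_j) = φ' (η z_j)` is bounded) and do
not accumulate on the circle (there `η z_j` would tend to the circle), so a limit point `z ∈ Ext` has `η z = v`.  The second
statement: the complements correspond. -/
def S_ONTO : Prop := ∀ (φ φ' η : ℂ → ℂ) (k : ℂ ≃ₜ ℂ), Sig φ → Sig φ' → MapsTo η Ext Ext →
  (∀ z ∈ Ext, k (φ z) = φ' (η z)) → (∀ ζ : ℂ, ‖ζ‖ = 1 → Tendsto η (𝓝[Ext] ζ) (𝓝 ζ)) →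
    BijOn η Ext Ext ∧ ContinuousOn η Ext ∧ (∀ z, k z ∈ φ' '' Ext ↔ z ∈ φ '' Ext) ∧
    ∀ η' : ℂ → ℂ, (∀ z ∈ Ext, η' (η z) = z) → MapsTo η' Ext Ext ∧ (∀ z ∈ Ext, k.symm (φ' z) = φ (η' z)) ∧
      ∀ ζ : ℂ, ‖ζ‖ = 1 → Tendsto η' (𝓝[Ext] ζ) (𝓝 ζ)

/-- JOB DISP.  Bounded displacement.  Proof.  By compactness of the circle `η z / z → 1` as `‖z‖ → 1`, `z ∈ Ext`, uniformly.  Let
`ℓ(z) = log (η z / z)` for `1 < ‖z‖ < ρ₁` where `‖η z / z - 1‖ < 1/2`, continuous, `ℓ → 0` at the circle.  For `z` close to the circle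
`exp (ℓ (z^n)) = exp (n ℓ z)` and both logarithms are small, so `ℓ(z^n) = n ℓ(z)` for `1 < ‖z‖ < ρ₂`.  Let `C₁` be the maximum
of `‖ℓ‖` on a fundamental annulus `ρ₃ ≤ ‖z‖ ≤ ρ₃ ^ n`, `ρ₃ ^ n < ρ₂`.  For `1 < ‖z‖ < ρ₃` take `j` with `z ^ (n^j)` in it:
`‖ℓ z‖ = n^{-j} ‖ℓ (z^(n^j))‖ ≤ C₁ n^{-j} ≤ C₂ log ‖z‖`.  So `‖η z - z‖ = ‖z‖ ‖exp (ℓ z) - 1‖ ≤ C₃ (‖z‖ - 1)`.  Similarly
`log ‖η (z^n)‖ = n log ‖η z‖`, and on the fundamental annulus `log ‖η z‖ ≥ c₁ > 0` (compactness), so `log ‖η z‖ ≥ c₂ log ‖z‖`. -/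
def S_DISP : Prop := ∀ n : ℕ, 2 ≤ n → ∀ (η : ℂ → ℂ) (ρ : ℝ), 1 < ρ → MapsTo η Ext Ext → ContinuousOn η Ext →
  (∀ z : ℂ, 1 < ‖z‖ → ‖z‖ < ρ → η (z ^ n) = η z ^ n) → (∀ ζ : ℂ, ‖ζ‖ = 1 → Tendsto η (𝓝[Ext] ζ) (𝓝 ζ)) →
    ∃ ρ' c C : ℝ, 1 < ρ' ∧ 0 < c ∧ ∀ z : ℂ, 1 < ‖z‖ → ‖z‖ < ρ' →
      ‖η z - z‖ ≤ C * (‖z‖ - 1) ∧ c * (‖z‖ - 1) ≤ ‖η z‖ - 1

/-- JOB NE.  Proof: otherwise the inverse function `ℂ → Ext` of `φ` would be entire and its reciprocal bounded, so constant. -/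
def S_NE : Prop := ∀ φ : ℂ → ℂ, Sig φ → ((φ '' Ext)ᶜ).Nonempty

/-- JOB KOE (uses `S_SIG`, `S_NE`).  Distances near the boundary.  Proof.  Koebe: `‖φ' z‖ (‖z‖ - 1) ≤ 4 infDist (φ z) K` and the distortion
theorem on the discs `ball z (‖z‖ - 1)` (library: Pool/Graph/R_seed8/W746/LD/Koebe.lean, `KC.chain`; Koebe quarter:
Pool/Graph/R_seed8/Helper240/ZFM/Q2b.lean `koebe_quarter`).  With `w_i = z + (i / N)(w - z)`: all the points of the segment have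
`‖w_i‖ - 1`... the segment may leave `Ext`; use instead the path in logarithmic coordinates, `w_i = z exp ((i/N) log (w / z))`,
for `z` close to the circle (`w / z` is close to `1`): `‖w_i‖ - 1 ≥ c' (‖z‖ - 1)`, `‖w_{i+1} - w_i‖ ≤ ½ (‖w_i‖ - 1)` for `N` large
depending on `c`, `C` only, so `‖φ w - φ z‖ ≤ C'' ‖φ' z‖ (‖z‖ - 1) ≤ C' infDist (φ z) K`.  For `‖z‖ ≥ ρ'' > 1` fixed, `‖z‖ ≤ 2`: then
`infDist (φ z) K` is bounded below (Koebe or compactness) and `‖φ w - φ z‖` is bounded above (`w` is in a fixed compact subset of `Ext`).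
(The constant may depend on `φ`.) -/
def S_KOE : Prop := ∀ φ : ℂ → ℂ, Sig φ → ∀ c C : ℝ, 0 < c → ∃ C' : ℝ, ∀ z w : ℂ, 1 < ‖z‖ → ‖z‖ ≤ 2 →
  ‖w - z‖ ≤ C * (‖z‖ - 1) → c * (‖z‖ - 1) ≤ ‖w‖ - 1 → ‖φ w - φ z‖ ≤ C' * infDist (φ z) (φ '' Ext)ᶜ

/-- JOB GQS (uses `S_RATIO`, `S_INV`).  Quasisymmetry of the glued map.  Proof.  Let `N = M.symm ∘ Θ`, `d(z) = infDist z K`.  We show that
there is `C` with `‖Θ a - Θ x‖ ≤ C ‖Θ b - Θ x‖` if `‖a - x‖ ≤ ‖b - x‖ = r`.  (I) `r ≥ 4 C₂ + 1`: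
`‖Θ b - Θ x‖ ≥ r - 2 C₂ ≥ r / 2`, `‖Θ a - Θ x‖ ≤ r + 2 C₂ ≤ 2 r`.  (II) `x ∉ K`, `r ≤ d(x) / 10`: Koebe distortion for `Θ` on
`ball x (d x)` (`Θ` is injective and holomorphic there).  (III) `r ≤ 4 C₂ + 1` and `d(x) < 10 r`: all of `x, a, b` are in a fixed
ball of radius `R` (`K` is bounded); let `C₀` be the constant of the hypothesis for this `R` (and for `N x`, ... which are in a
larger fixed ball).  Upper bound: `‖N x - N a‖ ≤ r + C₀ d(x) + C₀ d(a) ≤ C₃ r`.  Lower bound: `‖N x - N b‖ ≥ c₃ r`: if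
`C₀ (d x + d b) ≤ r / 2` clear.  Otherwise for one of the two points, `p`, and the other `q`, `d(p) ≥ ε r`, `ε = 1 / (4 C₀ + 1)`, while
`d(p) ≤ 11 r`; `‖p - q‖ = r ≥ d(p) / 11`.  `Θ` is univalent on `ball p (d p)`, `q` is not in `ball p (d(p) / 11)`, so by Koebe's
quarter theorem `‖Θ p - Θ q‖ ≥ ‖Θ' p‖ d(p) / 44`, and `‖Θ' p‖ d(p) ≥ infDist (Θ p) K'` (quarter theorem for the inverse:
`infDist (Θ p) K' ≤ 4 ‖Θ' p‖ d(p)`; any constants).  Let `y ∈ K'` be a nearest point to `Θ p`: `‖Θ p - y‖ ≤ C₄ ‖Θ p - Θ q‖`, so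
(`M.symm` is WQS by `S_INV`, `S_RATIO`) `‖N p - M.symm y‖ ≤ C₅ ‖N p - N q‖`, and `M.symm y ∈ K`, so
`‖N p - M.symm y‖ ≥ d(N p) ≥ d(p) / (1 + C₀)` (as `‖p - N p‖ = ‖N.symm (N p) - N p‖ ≤ C₀ d(N p)`).  So
`‖N p - N q‖ ≥ c₃ r`.  Conclusion: `‖N a - N x‖ ≤ (C₃ / c₃) ‖N b - N x‖` and `Θ = M ∘ N`, `S_RATIO` for `M`. -/
def S_GQS : Prop := ∀ (K K' : Set ℂ) (M Θ : ℂ ≃ₜ ℂ) (C₂ : ℝ), IsCompact K → K.Nonempty → M '' K = K' → IsQC M →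
  (∀ z ∈ K, Θ z = M z) → DifferentiableOn ℂ Θ Kᶜ → (∀ z, ‖Θ z - z‖ ≤ C₂) →
  (∀ R : ℝ, ∃ C₀ : ℝ, ∀ z : ℂ, ‖z‖ ≤ R → ‖M.symm (Θ z) - z‖ ≤ C₀ * infDist z K ∧
    ‖Θ.symm (M z) - z‖ ≤ C₀ * infDist z K) → IsQC Θ

/-- JOB GLUE (uses `S_SIG`, `S_NE`, `S_ONTO`, `S_DISP`, `S_KOE`, `S_GQS`).  Gluing.  Proof.  `K = (φ '' Ext)ᶜ`, `K' = (φ' '' Ext)ᶜ`, `M '' K = K'`
(`S_ONTO`).  Let `Θ = M` on `K`, `Θ (φ z) = φ' z` on `Ext`: a bijection.  `M.symm (Θ (φ z)) = M.symm (φ' z) = φ (η' z)` with the inverse `η'`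
of `η`, and `Θ.symm (M (φ z)) = φ (η z)`.  By `S_DISP` for `η` and for `η'` (which satisfies the same hypotheses) and `S_KOE` we get
`‖φ (η z) - φ z‖, ‖φ (η' z) - φ z‖ ≤ C infDist (φ z) K` for `1 < ‖z‖ < ρ'`; for `ρ' ≤ ‖z‖ ≤ R` it holds by compactness.  So
`N = M.symm ∘ Θ` and its inverse are continuous at the points of `K` (where they are the identity), and on `Kᶜ`; so `Θ` is a
homeomorphism.  `‖Θ z - z‖` is bounded (`‖φ z - z‖`, `‖φ' z - z‖` are bounded on `Ext` by `S_SIG`, `K` compact).  `K` is not empty: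
otherwise `φ⁻¹ : ℂ → Ext` would be entire, `1 / φ⁻¹` bounded, so constant.  `S_GQS`. -/
def S_GLUE : Prop := ∀ n : ℕ, 2 ≤ n → ∀ (φ φ' η : ℂ → ℂ) (M : ℂ ≃ₜ ℂ) (ρ : ℝ), Sig φ → Sig φ' → IsQC M → 1 < ρ →
  MapsTo η Ext Ext → (∀ z ∈ Ext, M (φ z) = φ' (η z)) →
  (∀ z : ℂ, 1 < ‖z‖ → ‖z‖ < ρ → η (z ^ n) = η z ^ n) → (∀ ζ : ℂ, ‖ζ‖ = 1 → Tendsto η (𝓝[Ext] ζ) (𝓝 ζ)) →
    ∃ Θ : ℂ ≃ₜ ℂ, IsQC Θ ∧ (∀ z ∈ Ext, Θ (φ z) = φ' z) ∧ ∀ z, z ∉ φ '' Ext → Θ z = M z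

/-- JOB EQV (uses `S_BL`, `S_INV`, `S_COMP`, `S_QFORM`, `S_EXTU`, `S_ONTO`).  Quasiconformal conjugacy is an equivalence relation.  Proof.
Reflexive: `k = id`.  Symmetric: `k.symm`, the inverse of `η` (`S_ONTO`).  Transitive: compose; the exterior maps of the middle map
agree on `Ext` by `S_EXTU`. -/
def S_EQV : Prop := ∀ n : ℕ, 2 ≤ n → ∀ A : Blaschke n, (∀ f φ, IsExt A f φ → QCConj A f f) ∧
  (∀ f f', QCConj A f f' → QCConj A f' f) ∧ ∀ f f' f'', QCConj A f f' → QCConj A f' f'' → QCConj A f f''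

/-- JOB TRANS (uses `S_BL`, `S_INV`, `S_COMP`, `S_QFORM`, `S_EXTU`, `S_FINV`, `S_ONTO`, `S_GLUE`).  Transfer of the relation.  Proof.
Let `H`, `H₁` be the two links, `φ, φ'` and `φ₁, φ₁'` the exterior maps, `K(g) = (φ '' Ext)ᶜ` etc.; `H` maps `K(g)` onto `K(f)`.
(⇐) Let `k` conjugate `f` to `f₁`, with `η` (exterior maps of `f`, `f₁` as in the links by `S_EXTU`).  `M = H₁⁻¹ ∘ k ∘ H`:
`M (φ z) = H₁⁻¹ (k (φ' (T z))) = H₁⁻¹ (φ₁' (η (T z))) = φ₁ (T⁻¹ (η (T z)))`, so `η_M = T⁻¹ ∘ η ∘ T`, which has the boundary values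
`ζ ↦ ζ` (`T` is a homeomorphism preserving the circle and `Ext`).  `η (A.ev w) = A.ev (η w)` for `w ∈ Ext`, `A.den w ≠ 0`:
`φ₁' (η (A.ev w)) = k (φ' (A.ev w)) = k (f.ev (φ' w)) = f₁.ev (k (φ' w)) = f₁.ev (φ₁' (η w)) = φ₁' (A.ev (η w))` (`A.den (η w) ≠ 0` by the
correspondence of the poles and `S_QFORM`).  So near the circle `η_M (z^n) = T⁻¹ (η (A.ev (T z))) = T⁻¹ (A.ev (η (T z))) = (η_M z)^n`
(`IsTr.semi` at `z` and at `η_M z`, which is near the circle).  `S_GLUE` gives `Θ`, `Θ (φ z) = φ₁ z`, `Θ = M` on `K(g)`.  `Θ` conjugates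
`g` to `g₁`: `g.Q = g₁.Q = 1`; on `φ '' Ext` clear; for `z ∈ K(g)`: `M z ∈ K(g₁)`, and
`H₁ (M (g.ev z)) = k (H (g.ev z)) = k (f.ev (H z)) = f₁.ev (k (H z)) = f₁.ev (H₁ (M z)) = H₁ (g₁.ev (M z))` (the links), so
`M (g.ev z) = g₁.ev (M z)`, and `g.ev z ∈ K(g)` by `S_FINV`, so `Θ (g.ev z) = g₁.ev (Θ z)`.  Here `η = id`.
(⇒) Let `m` conjugate `g` to `g₁`, with `η`; `η (z ^ n) = η z ^ n` on `Ext`.  `S_GLUE` gives `Θ`, `Θ (φ z) = φ₁ z`, `Θ = m` on `K(g)`.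
`k = H₁ ∘ Θ ∘ H⁻¹`: `k (φ' w) = H₁ (Θ (φ (T⁻¹ w))) = H₁ (φ₁ (T⁻¹ w)) = φ₁' w` for `w ∈ Ext`.  So on `φ' '' Ext` it conjugates
(and the poles correspond, `S_QFORM`); on `K(f)`: `x = H z`, `k (f.ev x) = H₁ (Θ (g.ev z)) = H₁ (g₁.ev (Θ z)) = f₁.ev (H₁ (Θ z)) =
f₁.ev (k x)` (`Θ (g.ev z) = m (g.ev z) = g₁.ev (m z)`, `Θ z = m z ∈ K(g₁)`); there are no poles in `K(f)`. -/
def S_TRANS : Prop := ∀ n : ℕ, 2 ≤ n → ∀ (A : Blaschke n) (k C : ℝ) (T : ℂ ≃ₜ ℂ), IsTr (zn n) A k T →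
  ∀ (g f g₁ f₁ : RMap n) (H H₁ : ℂ ≃ₜ ℂ) (φ φ' φ₁ φ₁' : ℂ → ℂ), Link A T C g f H φ φ' → Link A T C g₁ f₁ H₁ φ₁ φ₁' →
    (QCConj (zn n) g g₁ ↔ QCConj A f f₁)

/-! ## J. Assembly -/

/-- JOB ASM.  Proof.  `Φ` is well defined and bijective by the hypotheses.  Continuity: let `S ⊆ Quot s` be closed; its preimage
in `Y₀` is `Y₀ ∩ S'` with `S'` closed in `Y`.  The preimage of `S` in `X₀` is `{x ∈ X₀ | ∃ y ∈ S', (x, y) ∈ E}`, the trace on `X₀` of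
the projection of the compact set `E ∩ (univ ×ˢ S')`, which is closed.  The same for the inverse. -/
def S_ASM : Prop := ∀ (X Y : Type) [TopologicalSpace X] [TopologicalSpace Y] [T2Space X] [T2Space Y] (E : Set (X × Y))
  (X₀ : Set X) (Y₀ : Set Y) (r : X₀ → X₀ → Prop) (s : Y₀ → Y₀ → Prop), IsCompact E →
  (∀ p ∈ E, (p.1 ∈ X₀ ↔ p.2 ∈ Y₀)) → (∀ x ∈ X₀, ∃ y, (x, y) ∈ E) → (∀ y ∈ Y₀, ∃ x, (x, y) ∈ E) →
  Equivalence r → Equivalence s →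
  (∀ (x x' : X₀) (y y' : Y₀), ((x : X), (y : Y)) ∈ E → ((x' : X), (y' : Y)) ∈ E → (r x x' ↔ s y y')) →
    ∃ Φ : Quot r ≃ₜ Quot s, ∀ (x : X₀) (y : Y₀), ((x : X), (y : Y)) ∈ E → Φ (Quot.mk r x) = Quot.mk s y

/-- JOB FINAL: `theorem t_FINAL (h1 : S_RTOP) (h2 : S_UNIQ) (h3 : S_REL) (h4 : S_CLOS) (h5 : S_EQV) (h6 : S_TRANS) (h7 : S_ASM) : Final`.
Proof.  `S_ASM` with `E = EE A` three times: (i) `X₀ = BB (zn n)`, `Y₀ = BB A`, `r`, `s` equality (`Quot Eq` is homeomorphic to the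
space): by `S_CLOS` `(g, f) ∈ EE A` with `g ∈ BB` or `f ∈ BB` implies `Rel A g f`; `S_REL` says that `Rel` is the graph of a
bijection.  (ii) `X₀ = bd (zn n)`, `Y₀ = bd A`, `bdRel`, by `S_TRANS` and the links of `S_CLOS`.  (iii) the closures, `clRel`.
Compatibility: (i) with (iii) and (ii) with (iii) since all are given by `EE A` (every class contains a pair of `EE A`). -/
def S_FINAL : Prop := Final

theorem la_of (h1 : S_LA0) (h2 : S_INV) : S_LA := by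
  intro k hk0 hk1
  obtain ⟨C, hC0, hC⟩ := h1 k hk0 hk1
  obtain ⟨C', hC'0, hC'⟩ := h2 C
  refine ⟨max C C', lt_max_of_lt_left hC0, fun Q hQ => ⟨?_, ?_⟩⟩
  · have h := hC' Q.symm.toEquiv (hC Q hQ)
    intro x a b hab
    refine (h x a b hab).trans ?_
    exact mul_le_mul_of_nonneg_right (le_max_right _ _) (norm_nonneg _)
  · intro x a b hab
    refine (hC Q hQ x a b hab).trans ?_
    exact mul_le_mul_of_nonneg_right (le_max_left _ _) (norm_nonneg _)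

end Pool.Agent.H212.MB
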