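import Pool.Agent.H212.MB.Stm3

/-!
# Job ASM: homeomorphism of quotients from a compact relation
-/

set_option autoImplicit false

open Filter Metric Set Topology MeasureTheory Polynomial
open scoped ContDiff ComplexConjugate ENNReal

namespace Pool.Agent.H212.MB

namespace ASMaux

theorem cont {X Y : Type} [TopologicalSpace X] [TopologicalSpace Y] [T2Space X] (E : Set (X × Y))
    (X₀ : Set X) (Y₀ : Set Y) (r : X₀ → X₀ → Prop) (s : Y₀ → Y₀ → Prop) (hE : IsCompact E)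
    (hXY : ∀ p ∈ E, (p.1 ∈ X₀ ↔ p.2 ∈ Y₀)) (hX : ∀ x ∈ X₀, ∃ y, (x, y) ∈ E)
    (F : Quot r → Quot s)
    (hF : ∀ (x : X₀) (y : Y₀), ((x : X), (y : Y)) ∈ E → F (Quot.mk r x) = Quot.mk s y) :
    Continuous F := by
  have hmk : Continuous (Quot.mk s : Y₀ → Quot s) := continuous_quot_mk
  rw [(isQuotientMap_quot_mk (X := X₀) (r := r)).continuous_iff, continuous_iff_isClosed]
  intro S hS
  obtain ⟨S', hS', hSS'⟩ := isClosed_induced_iff.1 (hS.preimage hmk)
  have hc : IsCompact (Prod.fst '' (E ∩ (Prod.snd ⁻¹' S'))) :=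
    (hE.inter_right (hS'.preimage continuous_snd)).image continuous_fst
  refine isClosed_induced_iff.2 ⟨_, hc.isClosed, ?_⟩
  ext x
  constructor
  · rintro ⟨⟨x', y⟩, ⟨hxy, hy⟩, hx'⟩
    simp only at hx'
    subst hx'
    have hy0 : y ∈ Y₀ := (hXY _ hxy).1 x.2
    have h1 : (⟨y, hy0⟩ : Y₀) ∈ Quot.mk s ⁻¹' S := by
      rw [← hSS']; exact hy
    have h2 := hF x ⟨y, hy0⟩ hxy
    simp only [mem_preimage, Function.comp_apply, h2]
    exact h1
  · intro hx
    obtain ⟨y, hy⟩ := hX x x.2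
    have hy0 : y ∈ Y₀ := (hXY _ hy).1 x.2
    have h2 := hF x ⟨y, hy0⟩ hy
    simp only [mem_preimage, Function.comp_apply, h2] at hx
    have h1 : (⟨y, hy0⟩ : Y₀) ∈ Quot.mk s ⁻¹' S := hx
    rw [← hSS'] at h1
    exact ⟨(x, y), ⟨hy, h1⟩, rfl⟩

end ASMaux

theorem t_ASM : S_ASM := by
  intro X Y _ _ _ _ E X₀ Y₀ r s hE hXY hX hY hr hs hrs
  have hX' : ∀ x : X₀, ∃ y : Y₀, ((x : X), (y : Y)) ∈ E := by
    intro x
    obtain ⟨y, hy⟩ := hX x x.2
    exact ⟨⟨y, (hXY _ hy).1 x.2⟩, hy⟩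
  have hY' : ∀ y : Y₀, ∃ x : X₀, ((x : X), (y : Y)) ∈ E := by
    intro y
    obtain ⟨x, hx⟩ := hY y y.2
    exact ⟨⟨x, (hXY _ hx).2 y.2⟩, hx⟩
  choose fy hfy using hX'
  choose fx hfx using hY'
  let F : Quot r → Quot s := Quot.lift (fun x => Quot.mk s (fy x))
    (fun x x' h => Quot.sound ((hrs x x' _ _ (hfy x) (hfy x')).1 h))
  let G : Quot s → Quot r := Quot.lift (fun y => Quot.mk r (fx y))
    (fun y y' h => Quot.sound ((hrs _ _ y y' (hfx y) (hfx y')).2 h))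
  have hF : ∀ (x : X₀) (y : Y₀), ((x : X), (y : Y)) ∈ E → F (Quot.mk r x) = Quot.mk s y := by
    intro x y hxy
    exact Quot.sound ((hrs x x _ _ (hfy x) hxy).1 (hr.refl x))
  have hG : ∀ (x : X₀) (y : Y₀), ((x : X), (y : Y)) ∈ E → G (Quot.mk s y) = Quot.mk r x := by
    intro x y hxy
    exact Quot.sound ((hrs _ _ y y (hfx y) hxy).2 (hs.refl y))
  have hGF : ∀ q, G (F q) = q := by
    intro q
    induction q using Quot.ind with
    | mk x => rw [hF x (fy x) (hfy x), hG x (fy x) (hfy x)]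
  have hFG : ∀ q, F (G q) = q := by
    intro q
    induction q using Quot.ind with
    | mk y => rw [hG (fx y) y (hfx y), hF (fx y) y (hfx y)]
  have hcF : Continuous F := ASMaux.cont E X₀ Y₀ r s hE hXY hX F hF
  have hcG : Continuous G := by
    refine ASMaux.cont (Prod.swap '' E) Y₀ X₀ s r (hE.image continuous_swap) ?_ ?_ G ?_
    · rintro _ ⟨p, hp, rfl⟩
      exact (hXY p hp).symm
    · intro y hy
      obtain ⟨x, hx⟩ := hY y hy
      exact ⟨x, (x, y), hx, rfl⟩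
    · rintro y x ⟨⟨a, b⟩, hp, h⟩
      simp only [Prod.swap_prod_mk, Prod.mk.injEq] at h
      obtain ⟨h1, h2⟩ := h
      subst h1
      subst h2
      exact hG x y hp
  exact ⟨⟨⟨F, G, hGF, hFG⟩, hcF, hcG⟩, hF⟩

end Pool.Agent.H212.MB
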