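import Pool.Agent.H212.MB.Stm2

/-!
# JOB PROP (by helper738): proper local homeomorphisms of the disc
-/

set_option autoImplicit false

open Complex Filter Metric Set Topology

namespace Pool.Agent.H212.MB

namespace PROPaux

/-- the unit disc -/
abbrev B : Set ℂ := ball (0 : ℂ) 1

theorem compact_le {r : ℝ} (hr : r < 1) : IsCompact {z : B | ‖(z : ℂ)‖ ≤ r} := by
  rw [Subtype.isCompact_iff]
  have : (Subtype.val '' {z : B | ‖(z : ℂ)‖ ≤ r}) = closedBall (0 : ℂ) r := by
    ext z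
    constructor
    · rintro ⟨w, hw, rfl⟩
      rw [mem_closedBall, dist_zero_right]
      exact hw
    · intro hz
      rw [mem_closedBall, dist_zero_right] at hz
      exact ⟨⟨z, by rw [mem_ball, dist_zero_right]; linarith⟩, hz, rfl⟩
  rw [this]
  exact isCompact_closedBall _ _

theorem exists_r {K : Set B} (hK : IsCompact K) : ∃ r : ℝ, r < 1 ∧ ∀ z ∈ K, ‖(z : ℂ)‖ ≤ r := by
  rcases K.eq_empty_or_nonempty with rfl | hne
  · exact ⟨0, one_pos, fun z hz => absurd hz (notMem_empty z)⟩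
  · obtain ⟨z, hz, hm⟩ := hK.exists_isMaxOn hne
      (f := fun z : B => ‖(z : ℂ)‖) (continuous_norm.comp continuous_subtype_val).continuousOn
    refine ⟨‖(z : ℂ)‖, ?_, fun w hw => hm hw⟩
    have := z.2
    rwa [mem_ball, dist_zero_right] at this

end PROPaux

open PROPaux

/-- **JOB PROP** -/
theorem t_PROP : S_PROP := by
  intro f hmap hcont hop hlocf hprop huniq
  let g : B → B := hmap.restrict f B B
  have hgv : ∀ z : B, ((g z : B) : ℂ) = f z := fun z => rfl
  have hg : Continuous g := hcont.mapsToRestrict hmap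
  have hBo : IsOpen (B : Set ℂ) := isOpen_ball
  haveI : PreconnectedSpace B := by
    rw [← isPreconnected_iff_preconnectedSpace]
    exact (convex_ball (0 : ℂ) 1).isPreconnected
  haveI : LocallyCompactSpace B := hBo.locallyCompactSpace
  have hpm : IsProperMap g := by
    rw [isProperMap_iff_isCompact_preimage]
    refine ⟨hg, fun K hK => ?_⟩
    obtain ⟨r, hr, hKr⟩ := exists_r hK
    obtain ⟨r', hr', hrr⟩ := hprop r hr
    refine (compact_le hr').of_isClosed_subset (hK.isClosed.preimage hg) ?_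
    intro z hz
    exact hrr z z.2 (hKr _ hz)
  have hopen : IsOpenMap g := by
    intro U hU
    have h1 : IsOpen (Subtype.val '' U : Set ℂ) := hBo.isOpenMap_subtype_val U hU
    have h2 : (Subtype.val '' U : Set ℂ) ⊆ ball (0 : ℂ) 1 := by
      rintro _ ⟨z, -, rfl⟩
      exact z.2
    have h3 := hop _ h2 h1
    have h4 : g '' U = Subtype.val ⁻¹' (f '' (Subtype.val '' U)) := by
      ext w
      constructor
      · rintro ⟨z, hz, rfl⟩
        exact ⟨z, ⟨z, hz, rfl⟩, rfl⟩
      · rintro ⟨_, ⟨z, hz, rfl⟩, h⟩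
        exact ⟨z, hz, Subtype.ext h⟩
    rw [h4]
    exact h3.preimage continuous_subtype_val
  have hloc : ∀ z : B, ∃ U : Set B, IsOpen U ∧ z ∈ U ∧ InjOn g U := by
    intro z
    obtain ⟨U, hU, hinj⟩ := hlocf z z.2
    refine ⟨Subtype.val ⁻¹' (interior U), isOpen_interior.preimage continuous_subtype_val,
      mem_interior_iff_mem_nhds.2 hU, ?_⟩
    intro a ha b hb hab
    exact Subtype.ext (hinj (interior_subset ha) (interior_subset hb) (congrArg Subtype.val hab))
  obtain ⟨y, hyB, z₀, ⟨hz₀B, hz₀⟩, hz₀u⟩ := huniq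
  have hsurj : Function.Surjective g := by
    rw [← range_eq_univ]
    exact IsClopen.eq_univ ⟨hpm.isClosedMap.isClosed_range, hopen.isOpen_range⟩
      ⟨_, ⟨⟨z₀, hz₀B⟩, rfl⟩⟩
  -- the set of the points with one preimage
  let A : Set B := {w | ∀ a b, g a = w → g b = w → a = b}
  have hAo : IsOpen A := by
    rw [isOpen_iff_mem_nhds]
    intro w hw
    obtain ⟨a, ha⟩ := hsurj w
    obtain ⟨U, hU, haU, hinj⟩ := hloc a
    have h1 : IsClosed (g '' Uᶜ) := hpm.isClosedMap _ hU.isClosed_compl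
    have h2 : w ∉ g '' Uᶜ := by
      rintro ⟨b, hb, hbw⟩
      exact hb (hw a b ha hbw ▸ haU)
    filter_upwards [h1.isOpen_compl.mem_nhds h2] with w' hw' b b' hb hb'
    have g1 : b ∈ U := by
      by_contra h
      exact hw' ⟨b, h, hb⟩
    have g2 : b' ∈ U := by
      by_contra h
      exact hw' ⟨b', h, hb'⟩
    exact hinj g1 g2 (hb.trans hb'.symm)
  have hAc : IsClosed A := by
    rw [← isOpen_compl_iff, isOpen_iff_mem_nhds]
    intro w hw
    have hw' : ∃ a b, g a = w ∧ g b = w ∧ a ≠ b := by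
      by_contra h
      push Not at h
      exact hw fun a b ha hb => h a b ha hb
    obtain ⟨a, b, ha, hb, hab⟩ := hw'
    obtain ⟨U, V, hU, hV, haU, hbV, hUV⟩ := t2_separation hab
    have h1 : g '' U ∈ 𝓝 w := by
      rw [← ha]
      exact (hopen U hU).mem_nhds (mem_image_of_mem g haU)
    have h2 : g '' V ∈ 𝓝 w := by
      rw [← hb]
      exact (hopen V hV).mem_nhds (mem_image_of_mem g hbV)
    filter_upwards [h1, h2]
    rintro _ ⟨x, hx, rfl⟩ ⟨y, hy, hxy⟩ hA
    have := hA x y rfl hxy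
    subst this
    exact (disjoint_left.1 hUV) hx hy
  have hAn : A.Nonempty := by
    refine ⟨⟨y, hyB⟩, ?_⟩
    intro a b ha hb
    have e1 : (a : ℂ) = z₀ := hz₀u _ ⟨a.2, congrArg Subtype.val ha⟩
    have e2 : (b : ℂ) = z₀ := hz₀u _ ⟨b.2, congrArg Subtype.val hb⟩
    exact Subtype.ext (e1.trans e2.symm)
  have hA : A = univ := IsClopen.eq_univ ⟨hAc, hAo⟩ hAn
  refine ⟨hmap, ?_, ?_⟩
  · intro a ha b hb hab
    have h1 : g ⟨b, hb⟩ ∈ A := by rw [hA]; trivial
    have h2 := h1 ⟨a, ha⟩ ⟨b, hb⟩ (Subtype.ext hab) rfl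
    exact congrArg Subtype.val h2
  · intro w hw
    obtain ⟨z, hz⟩ := hsurj ⟨w, hw⟩
    exact ⟨z, z.2, congrArg Subtype.val hz⟩

end Pool.Agent.H212.MB
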