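import Pool.Agent.H212.MB.Stm

set_option autoImplicit false

open Filter Metric Set Topology MeasureTheory
open scoped ContDiff ComplexConjugate ENNReal

namespace Pool.Agent.H212.MB

namespace QS1aux

theorem wqs_max {C : ℝ} {k : ℂ → ℂ} (h : WQS C k) : WQS (max C 1) k := fun x a b hab =>
  (h x a b hab).trans (mul_le_mul_of_nonneg_right (le_max_left _ _) (norm_nonneg _))

end QS1aux

open QS1aux

theorem t_RATIO : S_RATIO := by
  intro C M
  set C₁ : ℝ := max C 1
  have h1 : 1 ≤ C₁ := le_max_right _ _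
  set N : ℕ := ⌈M⌉₊ + 1
  have hN0 : (0 : ℝ) < N := by positivity
  have hMN : M ≤ N := (Nat.le_ceil M).trans (by exact_mod_cast Nat.le_succ _)
  refine ⟨N * C₁ ^ N, by positivity, fun k hk x a b hab => ?_⟩
  have hk1 := wqs_max hk
  set z : ℕ → ℂ := fun i => x + ((i : ℝ) / N : ℝ) • (a - x) with hz
  have hz0 : z 0 = x := by simp [hz]
  have hzN : z N = a := by simp [hz, div_self hN0.ne']
  have hstep : ∀ i, ‖z (i + 1) - z i‖ = ‖a - x‖ / N := by
    intro i
    have e : z (i + 1) - z i = ((1 : ℝ) / N) • (a - x) := by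
      simp only [hz]
      rw [add_sub_add_left_eq_sub, ← sub_smul]
      congr 1
      push_cast
      ring
    rw [e, norm_smul, Real.norm_of_nonneg (by positivity)]
    ring
  set D := ‖k b - k x‖
  have hind : ∀ i, ‖k (z (i + 1)) - k (z i)‖ ≤ C₁ ^ (i + 1) * D := by
    intro i
    induction i with
    | zero =>
      have h2 : ‖z 1 - x‖ ≤ ‖b - x‖ := by
        have := hstep 0
        rw [hz0] at this
        rw [this, div_le_iff₀ hN0]
        refine hab.trans ?_
        rw [mul_comm]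
        exact mul_le_mul_of_nonneg_left hMN (norm_nonneg _)
      have h3 := hk1 x (z 1) b h2
      rw [hz0]
      simpa using h3
    | succ i ih =>
      have h2 : ‖z (i + 2) - z (i + 1)‖ ≤ ‖z i - z (i + 1)‖ := by
        rw [norm_sub_rev (z i), hstep, hstep]
      have h3 := hk1 _ _ _ h2
      rw [norm_sub_rev (k (z i))] at h3
      calc ‖k (z (i + 2)) - k (z (i + 1))‖ ≤ C₁ * ‖k (z (i + 1)) - k (z i)‖ := h3
        _ ≤ C₁ * (C₁ ^ (i + 1) * D) := mul_le_mul_of_nonneg_left ih (by positivity)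
        _ = C₁ ^ (i + 1 + 1) * D := by ring
  have hD : 0 ≤ D := norm_nonneg _
  have hsum : ∀ i ≤ N, ‖k (z i) - k x‖ ≤ i * (C₁ ^ N * D) := by
    intro i
    induction i with
    | zero => intro _; simp [hz0]
    | succ i ih =>
      intro hi
      have h2 := ih (by omega)
      have h3 : C₁ ^ (i + 1) * D ≤ C₁ ^ N * D :=
        mul_le_mul_of_nonneg_right (pow_le_pow_right₀ h1 hi) hD
      have h4 := norm_sub_le_norm_sub_add_norm_sub (k (z (i + 1))) (k (z i)) (k x)
      push_cast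
      linarith [hind i]
  have := hsum N le_rfl
  rw [hzN] at this
  linarith

theorem t_SMALL : S_SMALL := by
  intro C ε hε
  set C₁ : ℝ := max C 1
  have h1 : 1 ≤ C₁ := le_max_right _ _
  have hC0 : 0 < C₁ := by positivity
  set K : ℝ := C₁ ^ 3 / ε
  obtain ⟨t, ht, hcov⟩ := Metric.totallyBounded_iff.1
    (isCompact_closedBall (0 : ℂ) K).totallyBounded (1 / 2) (by norm_num)
  set T := ht.toFinset
  set N : ℕ := T.card + 1
  refine ⟨(1 / 3) ^ N, by positivity, fun k hk x a b hab => ?_⟩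
  have hk1 := wqs_max hk
  by_contra hcon
  push Not at hcon
  set D := ‖k b - k x‖
  set R := ‖k a - k x‖
  have hR : 0 ≤ R := norm_nonneg _
  have hD : 0 < D := (mul_nonneg hε.le hR).trans_lt hcon
  set s := ‖a - x‖
  have hs : 0 ≤ s := norm_nonneg _
  set p : ℕ → ℂ := fun i => x + ((1 / 3 : ℝ) ^ i) • (a - x) with hp
  have hpx : ∀ i, ‖p i - x‖ = (1 / 3) ^ i * s := by
    intro i
    simp only [hp, add_sub_cancel_left]
    rw [norm_smul, Real.norm_of_nonneg (by positivity)]
  have hpp : ∀ i j, ‖p i - p j‖ = |(1 / 3 : ℝ) ^ i - (1 / 3) ^ j| * s := by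
    intro i j
    simp only [hp]
    rw [add_sub_add_left_eq_sub, ← sub_smul, norm_smul, Real.norm_eq_abs]
  have hle1 : ∀ i, ‖k (p i) - k x‖ ≤ C₁ * R := by
    intro i
    refine hk1 x (p i) a ?_
    rw [hpx]
    exact mul_le_of_le_one_left hs (pow_le_one₀ (by norm_num) (by norm_num))
  have hge : ∀ i j, i < j → j < N → D ≤ C₁ ^ 2 * ‖k (p i) - k (p j)‖ := by
    intro i j hij hj
    have h2 : ‖x - p j‖ ≤ ‖p i - p j‖ := by
      rw [norm_sub_rev, hpx, hpp]
      refine mul_le_mul_of_nonneg_right ?_ hs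
      have h3 : (1 / 3 : ℝ) ^ (j - 1) ≤ (1 / 3) ^ i :=
        pow_le_pow_of_le_one (by norm_num) (by norm_num) (by omega)
      have h4 : (1 / 3 : ℝ) ^ j = (1 / 3) ^ (j - 1) * (1 / 3) := by
        rw [← pow_succ]; congr 1; omega
      have h5 : (0 : ℝ) < (1 / 3) ^ (j - 1) := by positivity
      rw [abs_of_nonneg (by rw [h4]; linarith)]
      rw [h4]; linarith
    have h3 := hk1 (p j) x (p i) h2
    have h4 : ‖b - x‖ ≤ ‖p j - x‖ := by
      rw [hpx]
      refine hab.trans (mul_le_mul_of_nonneg_right ?_ hs)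
      exact pow_le_pow_of_le_one (by norm_num) (by norm_num) hj.le
    have h5 := hk1 x b (p j) h4
    rw [norm_sub_rev (k (p j)) (k x)] at h5
    calc D ≤ C₁ * ‖k x - k (p j)‖ := h5
      _ ≤ C₁ * (C₁ * ‖k (p i) - k (p j)‖) := mul_le_mul_of_nonneg_left h3 hC0.le
      _ = C₁ ^ 2 * ‖k (p i) - k (p j)‖ := by ring
  -- rescaled points
  set q : ℕ → ℂ := fun i => (C₁ ^ 2 / D : ℝ) • (k (p i) - k x) with hq
  have hqb : ∀ i, q i ∈ closedBall (0 : ℂ) K := by
    intro i
    rw [mem_closedBall_zero_iff]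
    simp only [hq]
    rw [norm_smul, Real.norm_of_nonneg (by positivity)]
    calc C₁ ^ 2 / D * ‖k (p i) - k x‖ ≤ C₁ ^ 2 / D * (C₁ * R) :=
          mul_le_mul_of_nonneg_left (hle1 i) (by positivity)
      _ ≤ C₁ ^ 2 / D * (C₁ * (D / ε)) := by
          refine mul_le_mul_of_nonneg_left (mul_le_mul_of_nonneg_left ?_ hC0.le) (by positivity)
          rw [le_div_iff₀ hε]; linarith
      _ = K := by
          simp only [K]
          field_simp
  have hqs : ∀ i j, i < j → j < N → 1 ≤ ‖q i - q j‖ := by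
    intro i j hij hj
    have e : q i - q j = (C₁ ^ 2 / D : ℝ) • (k (p i) - k (p j)) := by
      simp only [hq]
      rw [← smul_sub]; congr 1; ring
    rw [e, norm_smul, Real.norm_of_nonneg (by positivity), div_mul_eq_mul_div, le_div_iff₀ hD]
    have := hge i j hij hj
    linarith
  have hch : ∀ i : ℕ, ∃ y ∈ T, dist (q i) y < 1 / 2 := by
    intro i
    obtain ⟨y, hy, hy'⟩ := mem_iUnion₂.1 (hcov (hqb i))
    exact ⟨y, ht.mem_toFinset.2 hy, hy'⟩
  choose y hyT hyd using hch
  obtain ⟨i, hi, j, hj, hij, hyy⟩ := Finset.exists_ne_map_eq_of_card_lt_of_maps_to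
    (s := Finset.range N) (t := T) (by simp [N]) (f := y) (fun i _ => hyT i)
  have hlt : ‖q i - q j‖ < 1 := by
    rw [← dist_eq_norm]
    have h2 := hyd i
    have h3 := hyd j
    rw [← hyy] at h3
    have h4 := dist_triangle_right (q i) (q j) (y i)
    linarith
  rw [Finset.mem_range] at hi hj
  rcases lt_or_gt_of_ne hij with h | h
  · exact absurd hlt (not_lt.2 (hqs i j h hj))
  · rw [norm_sub_rev] at hlt
    exact absurd hlt (not_lt.2 (hqs j i h hi))

theorem t_INV : S_INV := by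
  intro C
  obtain ⟨δ, hδ, h⟩ := t_SMALL C (1 / 2) (by norm_num)
  refine ⟨δ⁻¹, by positivity, fun k hk x a b hab => ?_⟩
  set x' := k.symm x
  set a' := k.symm a
  set b' := k.symm b
  have ex : k x' = x := k.apply_symm_apply x
  have ea : k a' = a := k.apply_symm_apply a
  have eb : k b' = b := k.apply_symm_apply b
  by_contra hcon
  push Not at hcon
  have h2 : ‖b' - x'‖ ≤ δ * ‖a' - x'‖ := by
    rw [inv_mul_eq_div, div_lt_iff₀ hδ] at hcon
    linarith
  have h3 := h k hk x' a' b' h2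
  rw [ea, ex, eb] at h3
  have h4 : ‖a - x‖ ≤ 0 := by linarith [norm_nonneg (a - x)]
  have h5 : a = x := sub_eq_zero.1 (norm_le_zero_iff.1 h4)
  have h6 : a' = x' := by simp only [a', x', h5]
  rw [h6, sub_self, norm_zero] at hcon
  have : 0 ≤ δ⁻¹ * ‖b' - x'‖ := by positivity
  linarith

theorem t_COMP : S_COMP := by
  intro C C'
  obtain ⟨C'', h, h'⟩ := t_RATIO C' C
  exact ⟨C'', h, fun k k' hk hk' x a b hab => h' k' hk' _ _ _ (hk x a b hab)⟩

end Pool.Agent.H212.MB
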