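import Pool.Agent.H212.MB.Stm3
import Pool.Graph.R_seed8.Helper523.LL.Univ

/-!
# JOB RAT: auxiliary lemmas
-/

set_option autoImplicit false

open Filter Metric Set Topology MeasureTheory Polynomial
open scoped ContDiff ComplexConjugate ENNReal

namespace Pool.Agent.H212.MB

namespace RATaux

/-! ## 1. The polynomial part at infinity -/

theorem poly_part (n : ℕ) : ∀ (V : ℂ → ℂ) (R : ℝ) (c : ℂ), 0 < R →
    DifferentiableOn ℂ V {y | R < ‖y‖} → Tendsto (fun y => V y / y ^ n) (cocompact ℂ) (𝓝 c) →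
    ∃ P : ℂ[X], P.degree ≤ n ∧ P.coeff n = c ∧
      Tendsto (fun y => V y - P.eval y) (cocompact ℂ) (𝓝 0) := by
  induction n with
  | zero =>
    intro V R c _ _ h
    refine ⟨C c, degree_C_le, by simp, ?_⟩
    have h1 := h.sub_const c
    rw [sub_self] at h1
    refine h1.congr fun y => ?_
    simp
  | succ n ih =>
    intro V R c hR hV h
    have hinv : Tendsto (fun x : ℂ => x⁻¹) (𝓝[≠] 0) (cocompact ℂ) := by
      rw [← Metric.cobounded_eq_cocompact]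
      exact Filter.tendsto_inv₀_nhdsNE_zero
    have hinv' : Tendsto (fun x : ℂ => x⁻¹) (cocompact ℂ) (𝓝[≠] 0) := by
      rw [← Metric.cobounded_eq_cocompact]
      exact Filter.tendsto_inv₀_cobounded'
    set U : ℂ → ℂ := fun x => if x = 0 then c else x ^ (n + 1) * V x⁻¹ with hU
    have hU0 : U 0 = c := by simp [hU]
    have hUx : ∀ x, x ≠ 0 → U x = x ^ (n + 1) * V x⁻¹ := fun x hx => by simp [hU, hx]
    have hUlim : Tendsto U (𝓝[≠] 0) (𝓝 c) := by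
      refine (h.comp hinv).congr' ?_
      filter_upwards [self_mem_nhdsWithin] with x hx
      have hx' : x ≠ 0 := hx
      rw [Function.comp_apply, hUx x hx', inv_pow, div_inv_eq_mul, mul_comm]
    have hUc : ContinuousAt U 0 := by
      rw [continuousAt_iff_punctured_nhds, hU0]
      exact hUlim
    have hUd : DifferentiableOn ℂ U (ball 0 R⁻¹ \ {0}) := by
      intro x hx
      have hx0 : x ≠ 0 := hx.2
      have hxn : R < ‖x⁻¹‖ := by
        have := hx.1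
        rw [mem_ball_zero_iff] at this
        rw [norm_inv, lt_inv_comm₀ hR (norm_pos_iff.2 hx0)]
        exact this
      have h1 : DifferentiableAt ℂ V x⁻¹ :=
        (hV x⁻¹ hxn).differentiableAt ((isOpen_lt continuous_const continuous_norm).mem_nhds hxn)
      have h2 : DifferentiableAt ℂ (fun x => x ^ (n + 1) * V x⁻¹) x :=
        (differentiableAt_id.pow _).mul (h1.comp x (differentiableAt_inv hx0))
      refine (h2.congr_of_eventuallyEq ?_).differentiableWithinAt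
      filter_upwards [isOpen_ne.mem_nhds hx0] with y hy
      exact hUx y hy
    have hUd' := (Complex.differentiableOn_compl_singleton_and_continuousAt_iff
      (ball_mem_nhds (0 : ℂ) (inv_pos.2 hR))).1 ⟨hUd, hUc⟩
    have hD : HasDerivAt U (deriv U 0) 0 :=
      (hUd'.differentiableAt (ball_mem_nhds (0 : ℂ) (inv_pos.2 hR))).hasDerivAt
    have hs := hasDerivAt_iff_tendsto_slope.1 hD
    obtain ⟨P, hP1, hP2, hP3⟩ := ih (fun y => V y - c * y ^ (n + 1)) R (deriv U 0) hR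
      (hV.sub (by fun_prop)) (by
        refine (hs.comp hinv').congr' ?_
        have h3 : ∀ᶠ y : ℂ in cocompact ℂ, y ≠ 0 := by
          have := (isCompact_singleton (x := (0 : ℂ))).compl_mem_cocompact
          filter_upwards [this] with y hy
          exact hy
        filter_upwards [h3] with y hy
        rw [Function.comp_apply, slope_def_field, hU0, hUx _ (inv_ne_zero hy), inv_inv, sub_zero,
          inv_pow, div_inv_eq_mul, eq_div_iff (pow_ne_zero _ hy)]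
        have h4 : (y ^ (n + 1))⁻¹ * y ^ (n + 1) = 1 := inv_mul_cancel₀ (pow_ne_zero _ hy)
        linear_combination (V y) * h4)
    refine ⟨P + C c * X ^ (n + 1), ?_, ?_, ?_⟩
    · refine (degree_add_le _ _).trans (max_le ?_ ?_)
      · refine hP1.trans ?_
        exact_mod_cast Nat.le_succ n
      · exact degree_C_mul_X_pow_le _ _
    · rw [coeff_add, coeff_C_mul, coeff_X_pow, if_pos rfl, mul_one,
        coeff_eq_zero_of_degree_lt, zero_add]
      exact lt_of_le_of_lt hP1 (by exact_mod_cast Nat.lt_succ_self n)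
    · refine hP3.congr fun y => ?_
      rw [eval_add, eval_mul, eval_C, eval_pow, eval_X]
      ring

/-! ## 2. Transition maps -/

section tr

variable {n : ℕ} {A₁ A₂ : Blaschke n} {k : ℝ} {T : ℂ ≃ₜ ℂ}

theorem symm_out (h : IsTr A₁ A₂ k T) (w : ℂ) : 1 < ‖T.symm w‖ ↔ 1 < ‖w‖ := by
  rw [← h.out, T.apply_symm_apply]

theorem symm_inn (h : IsTr A₁ A₂ k T) (w : ℂ) : ‖T.symm w‖ < 1 ↔ ‖w‖ < 1 := by
  rw [← h.inn, T.apply_symm_apply]

theorem cout (h : IsTr A₁ A₂ k T) (w : ℂ) : 1 ≤ ‖T w‖ ↔ 1 ≤ ‖w‖ := by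
  rw [← not_lt, h.inn, not_lt]

theorem cinn (h : IsTr A₁ A₂ k T) (w : ℂ) : ‖T w‖ ≤ 1 ↔ ‖w‖ ≤ 1 := by
  rw [← not_lt, h.out, not_lt]

theorem symm_cout (h : IsTr A₁ A₂ k T) (w : ℂ) : 1 ≤ ‖T.symm w‖ ↔ 1 ≤ ‖w‖ := by
  rw [← not_lt, symm_inn h, not_lt]

theorem symm_cinn (h : IsTr A₁ A₂ k T) (w : ℂ) : ‖T.symm w‖ ≤ 1 ↔ ‖w‖ ≤ 1 := by
  rw [← not_lt, symm_out h, not_lt]

end tr

/-! ## 3. Lifts -/

theorem lift_surj {t : ℝ → ℝ} (hc : Continuous t) (hm : StrictMono t)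
    (hp : ∀ x, t (x + 2 * Real.pi) = t x + 2 * Real.pi) : Function.Surjective t := by
  have h1 : ∀ m : ℕ, t (m * (2 * Real.pi)) = t 0 + m * (2 * Real.pi) := by
    intro m
    induction m with
    | zero => simp
    | succ m ih =>
      have e : ((m + 1 : ℕ) : ℝ) * (2 * Real.pi) = m * (2 * Real.pi) + 2 * Real.pi := by
        push_cast; ring
      rw [e, hp, ih]
      ring
  have h2 : ∀ m : ℕ, t (-(m * (2 * Real.pi))) = t 0 - m * (2 * Real.pi) := by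
    intro m
    induction m with
    | zero => simp
    | succ m ih =>
      have e : -(((m + 1 : ℕ) : ℝ) * (2 * Real.pi)) + 2 * Real.pi = -(m * (2 * Real.pi)) := by
        push_cast; ring
      have h3 := hp (-(((m + 1 : ℕ) : ℝ) * (2 * Real.pi)))
      rw [e, ih] at h3
      push_cast at h3 ⊢
      linarith
  have hpi := Real.pi_gt_three
  refine hc.surjective ?_ ?_
  · refine tendsto_atTop_atTop_of_monotone hm.monotone fun b => ?_
    obtain ⟨m, hm'⟩ := exists_nat_ge (b - t 0)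
    refine ⟨m * (2 * Real.pi), ?_⟩
    rw [h1]
    have : (m : ℝ) ≤ m * (2 * Real.pi) := by
      have : (0 : ℝ) ≤ m := Nat.cast_nonneg m
      nlinarith
    linarith
  · refine tendsto_atBot_atBot_of_monotone hm.monotone fun b => ?_
    obtain ⟨m, hm'⟩ := exists_nat_ge (t 0 - b)
    refine ⟨-(m * (2 * Real.pi)), ?_⟩
    rw [h2]
    have : (m : ℝ) ≤ m * (2 * Real.pi) := by
      have : (0 : ℝ) ≤ m := Nat.cast_nonneg m
      nlinarith
    linarith

theorem lift_comp {t t' : ℝ → ℝ} (hc : Continuous t) (hm : StrictMono t)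
    (hp : ∀ x, t (x + 2 * Real.pi) = t x + 2 * Real.pi) (hc' : Continuous t')
    (hm' : StrictMono t') (hp' : ∀ x, t' (x + 2 * Real.pi) = t' x + 2 * Real.pi) :
    ∃ h : ℝ → ℝ, Continuous h ∧ StrictMono h ∧ (∀ x, h (x + 2 * Real.pi) = h x + 2 * Real.pi) ∧
      ∀ x, ∃ s, t s = x ∧ h x = t' s := by
  set e : ℝ ≃o ℝ := hm.orderIsoOfSurjective t (lift_surj hc hm hp) with he
  have het : ∀ x, t (e.symm x) = x := fun x => e.apply_symm_apply x
  refine ⟨fun x => t' (e.symm x), hc'.comp e.symm.continuous, hm'.comp e.symm.strictMono, ?_, ?_⟩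
  · intro x
    have h1 : e.symm (x + 2 * Real.pi) = e.symm x + 2 * Real.pi := by
      apply hm.injective
      rw [het, hp, het]
    show t' (e.symm (x + 2 * Real.pi)) = t' (e.symm x) + 2 * Real.pi
    rw [h1, hp']
  · intro x
    exact ⟨e.symm x, het x, rfl⟩

/-! ## 4. Inverse functions -/

theorem inv_deriv {F G : ℂ → ℂ} {U : Set ℂ} (hU : IsOpen U) (hF : DifferentiableOn ℂ F U)
    (hinj : InjOn F U) (hG : Continuous G) {y : ℂ} (hy : G y ∈ U)
    (hFG : ∀ y, G y ∈ U → F (G y) = y) : DifferentiableAt ℂ G y := by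
  have h1 := Pool.Agent.Helper523.LL.deriv_ne_zero_of_injOn hU hF hinj hy
  have h2 : HasDerivAt F (deriv F (G y)) (G y) := (hF.differentiableAt (hU.mem_nhds hy)).hasDerivAt
  have h3 : ∀ᶠ y' in 𝓝 y, F (G y') = y' := by
    filter_upwards [hG.continuousAt.preimage_mem_nhds (hU.mem_nhds hy)] with y' hy'
    exact hFG y' hy'
  exact (h2.of_local_left_inverse hG.continuousAt h1 h3).differentiableAt

/-- the chain rule for the quasiconformality off the circle -/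
theorem qc_comp {F T Q : ℂ → ℂ} {k : ℝ} {U : Set ℂ} (hU : IsOpen U) (hF : DifferentiableOn ℂ F U)
    (hinj : InjOn F U) {z : ℂ} (hz : T z ∈ U) (hT : ContDiffAt ℝ ∞ T z) (hnd : dz T z ≠ 0)
    (hdil : ‖dzb T z‖ ≤ k * ‖dz T z‖) (hQ : Q =ᶠ[𝓝 z] F ∘ T) :
    ContDiffAt ℝ 2 Q z ∧ dz Q z ≠ 0 ∧ ‖dzb Q z‖ ≤ k * ‖dz Q z‖ := by
  have h1 := Pool.Agent.Helper523.LL.deriv_ne_zero_of_injOn hU hF hinj hz
  have h2 : HasDerivAt F (deriv F (T z)) (T z) := (hF.differentiableAt (hU.mem_nhds hz)).hasDerivAt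
  have hTd : DifferentiableAt ℝ T z := hT.differentiableAt (by simp)
  obtain ⟨h3, h4⟩ := dz_comp_left h2 hTd
  obtain ⟨h5, h6⟩ := dz_congr hQ
  refine ⟨?_, ?_, ?_⟩
  · have h7 : ContDiffAt ℂ 2 F (T z) := (hF.contDiffOn hU).contDiffAt (hU.mem_nhds hz)
    have h8 : ContDiffAt ℝ 2 T z := hT.of_le ENat.LEInfty.out
    exact ((h7.restrict_scalars ℝ).comp z h8).congr_of_eventuallyEq hQ
  · rw [h5, h3]
    exact mul_ne_zero h1 hnd
  · rw [h5, h6, h3, h4, norm_mul, norm_mul]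
    calc ‖deriv F (T z)‖ * ‖dzb T z‖ ≤ ‖deriv F (T z)‖ * (k * ‖dz T z‖) :=
          mul_le_mul_of_nonneg_left hdil (norm_nonneg _)
      _ = _ := by ring

/-! ## 5. Energy -/

theorem Off_ae : Off =ᵐ[volume] (univ : Set ℂ) := by
  rw [ae_eq_univ]
  have h : Offᶜ = sphere (0 : ℂ) 1 := by
    ext z
    simp [Off]
  rw [h]
  exact Measure.addHaar_sphere _ _ _

theorem energy_ball (h5 : S_EN) {k : ℝ} (hk0 : 0 ≤ k) (hk1 : k < 1) (Q : ℂ ≃ₜ ℂ) (hQ : QCOff k Q)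
    (r : ℝ) : (∫⁻ w in {w : ℂ | ‖w‖ < r}, ‖fderiv ℝ Q w‖ₑ ^ 2) < ⊤ := by
  have hm : MeasurableSet {w : ℂ | ‖w‖ < r} := measurableSet_lt continuous_norm.measurable measurable_const
  have h1 : ({w : ℂ | ‖w‖ < r} ∩ Off : Set ℂ) =ᵐ[volume] {w : ℂ | ‖w‖ < r} :=
    inter_ae_eq_left_of_ae_eq_univ Off_ae
  rw [← setLIntegral_congr h1]
  refine ((h5 k Q _ hk0 hk1 Q.injective hQ (hm.inter isOpen_Off.measurableSet)
    inter_subset_right).1).trans_lt ?_
  refine ENNReal.mul_lt_top ENNReal.ofReal_lt_top ?_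
  refine (measure_mono (t := Q '' closedBall 0 r) ?_).trans_lt
    ((isCompact_closedBall 0 r).image Q.continuous).measure_lt_top
  refine image_mono fun z hz => ?_
  rw [mem_closedBall_zero_iff]
  exact le_of_lt hz.1

theorem energy (h4 : S_POW) (h5 : S_EN) {k : ℝ} (hk0 : 0 ≤ k) (hk1 : k < 1) {n : ℕ} (hn : 1 ≤ n)
    (Q : ℂ ≃ₜ ℂ) (hQ : QCOff k Q) {ρ : ℝ} (hρ : 1 < ρ) (D : ℂ → ℂ) (C : ℝ)
    (hD : ∀ z : ℂ, ‖z‖ ≠ 1 → ρ⁻¹ < ‖z‖ → ‖z‖ < ρ →
      ‖fderiv ℝ D z‖ ≤ C * (‖fderiv ℝ Q z‖ + ‖fderiv ℝ Q (z ^ n)‖ * ‖(n : ℂ) * z ^ (n - 1)‖)) :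
    (∫⁻ z in {z : ℂ | ‖z‖ ≠ 1 ∧ ρ⁻¹ < ‖z‖ ∧ ‖z‖ < ρ}, ‖fderiv ℝ D z‖ₑ ^ 2) < ⊤ := by
  have hρ0 : 0 < ρ⁻¹ := inv_pos.2 (by linarith)
  have hms : MeasurableSet {z : ℂ | ‖z‖ ≠ 1 ∧ ρ⁻¹ < ‖z‖ ∧ ‖z‖ < ρ} := by
    refine MeasurableSet.inter (isOpen_Off.measurableSet) (MeasurableSet.inter ?_ ?_)
    · exact measurableSet_lt measurable_const continuous_norm.measurable
    · exact measurableSet_lt continuous_norm.measurable measurable_const
  have hgm : Measurable fun w : ℂ => ‖fderiv ℝ Q w‖ₑ ^ 2 :=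
    (measurable_fderiv ℝ Q).enorm.pow_const 2
  have hb : ∀ z ∈ {z : ℂ | ‖z‖ ≠ 1 ∧ ρ⁻¹ < ‖z‖ ∧ ‖z‖ < ρ}, ‖fderiv ℝ D z‖ₑ ^ 2 ≤
      ENNReal.ofReal (2 * C ^ 2) * (‖fderiv ℝ Q z‖ₑ ^ 2 +
        ‖fderiv ℝ Q (z ^ n)‖ₑ ^ 2 * ‖(n : ℂ) * z ^ (n - 1)‖ₑ ^ 2) := by
    rintro z ⟨h1, h2, h3⟩
    have h4 := hD z h1 h2 h3
    simp only [← ofReal_norm]
    set x := ‖fderiv ℝ D z‖
    set a := ‖fderiv ℝ Q z‖
    set b := ‖fderiv ℝ Q (z ^ n)‖
    set m := ‖(n : ℂ) * z ^ (n - 1)‖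
    have hx : 0 ≤ x := norm_nonneg _
    have ha : 0 ≤ a := norm_nonneg _
    have hb : 0 ≤ b := norm_nonneg _
    have hm : 0 ≤ m := norm_nonneg _
    rw [← ENNReal.ofReal_pow hx, ← ENNReal.ofReal_pow ha, ← ENNReal.ofReal_pow hb,
      ← ENNReal.ofReal_pow hm, ← ENNReal.ofReal_mul (by positivity),
      ← ENNReal.ofReal_add (by positivity) (by positivity), ← ENNReal.ofReal_mul (by positivity)]
    refine ENNReal.ofReal_le_ofReal ?_
    have h6 : x ^ 2 ≤ (C * (a + b * m)) ^ 2 := by gcongr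
    refine h6.trans ?_
    have h7 : 0 ≤ C ^ 2 * (a - b * m) ^ 2 := by positivity
    nlinarith [h7]
  refine (setLIntegral_mono' hms hb).trans_lt ?_
  rw [lintegral_const_mul' _ _ ENNReal.ofReal_ne_top]
  refine ENNReal.mul_lt_top ENNReal.ofReal_lt_top ?_
  rw [lintegral_add_left hgm]
  refine ENNReal.add_lt_top.2 ⟨?_, ?_⟩
  · refine (lintegral_mono_set ?_).trans_lt (energy_ball h5 hk0 hk1 Q hQ ρ)
    rintro z ⟨-, -, h⟩
    exact h
  · refine (lintegral_mono_set (t := {z : ℂ | ρ⁻¹ < ‖z‖ ∧ ‖z‖ < ρ}) ?_).trans_lt ?_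
    · rintro z ⟨-, h1, h2⟩
      exact ⟨h1, h2⟩
    · refine (h4 n hn _ ρ⁻¹ ρ hgm hρ0).trans_lt ?_
      refine ENNReal.mul_lt_top (ENNReal.natCast_lt_top n) ?_
      refine (lintegral_mono_set ?_).trans_lt (energy_ball h5 hk0 hk1 Q hQ (ρ ^ n))
      rintro z ⟨-, h⟩
      exact h

/-- the derivative of `q(Q z) Q(z ^ n) - P(Q z)` -/
theorem deriv_bound {n : ℕ} (Q : ℂ → ℂ) (q P : ℂ[X]) {z : ℂ} (h1 : DifferentiableAt ℝ Q z)
    (h2 : DifferentiableAt ℝ Q (z ^ n)) :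
    ‖fderiv ℝ (fun z => q.eval (Q z) * Q (z ^ n) - P.eval (Q z)) z‖ ≤
      (‖q.eval (Q z)‖ + ‖Q (z ^ n)‖ * ‖(derivative q).eval (Q z)‖ + ‖(derivative P).eval (Q z)‖) *
        (‖fderiv ℝ Q z‖ + ‖fderiv ℝ Q (z ^ n)‖ * ‖(n : ℂ) * z ^ (n - 1)‖) := by
  have hpe : ∀ p : ℂ[X], HasFDerivAt (fun z => p.eval (Q z))
      ((derivative p).eval (Q z) • fderiv ℝ Q z) z := by
    intro p
    have h3 := ((p.hasDerivAt (Q z)).hasFDerivAt.restrictScalars ℝ).comp z h1.hasFDerivAt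
    refine h3.congr_fderiv ?_
    ext v
    simp [mul_comm]
  have hpw : HasFDerivAt (fun z : ℂ => Q (z ^ n))
      ((fderiv ℝ Q (z ^ n)).comp (((n : ℂ) * z ^ (n - 1)) • (ContinuousLinearMap.id ℝ ℂ))) z := by
    have h3 := h2.hasFDerivAt.comp z ((hasDerivAt_pow n z).hasFDerivAt.restrictScalars ℝ)
    refine h3.congr_fderiv ?_
    ext v
    simp [mul_comm]
  have h5 := ((hpe q).mul hpw).sub (hpe P)
  rw [show fderiv ℝ (fun z => q.eval (Q z) * Q (z ^ n) - P.eval (Q z)) z = _ from h5.fderiv]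
  set a := ‖fderiv ℝ Q z‖
  set b := ‖fderiv ℝ Q (z ^ n)‖
  set m := ‖(n : ℂ) * z ^ (n - 1)‖
  have ha : 0 ≤ a := norm_nonneg _
  have hb : 0 ≤ b := norm_nonneg _
  have hm : 0 ≤ m := norm_nonneg _
  have h6 : ‖(fderiv ℝ Q (z ^ n)).comp (((n : ℂ) * z ^ (n - 1)) • (ContinuousLinearMap.id ℝ ℂ))‖ ≤
      b * m := by
    refine (ContinuousLinearMap.opNorm_comp_le _ _).trans ?_
    refine mul_le_mul_of_nonneg_left ?_ hb
    rw [norm_smul]
    exact mul_le_of_le_one_right hm ContinuousLinearMap.norm_id_le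
  have h7 : ‖q.eval (Q z) • ((fderiv ℝ Q (z ^ n)).comp
      (((n : ℂ) * z ^ (n - 1)) • (ContinuousLinearMap.id ℝ ℂ)))‖ ≤ ‖q.eval (Q z)‖ * (b * m) := by
    rw [norm_smul]
    exact mul_le_mul_of_nonneg_left h6 (norm_nonneg _)
  refine (norm_sub_le _ _).trans ?_
  refine (add_le_add (norm_add_le _ _) le_rfl).trans ?_
  rw [norm_smul, norm_smul, norm_smul, norm_smul]
  have e1 := mul_le_mul_of_nonneg_left h6 (norm_nonneg (q.eval (Q z)))
  have e2 : 0 ≤ ‖q.eval (Q z)‖ * a := by positivity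
  have e3 : 0 ≤ ‖Q (z ^ n)‖ * ‖(derivative q).eval (Q z)‖ * (b * m) := by positivity
  have e4 : 0 ≤ ‖(derivative P).eval (Q z)‖ * (b * m) := by positivity
  nlinarith [e1, e2, e3, e4]

end RATaux

end Pool.Agent.H212.MB
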