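import Mathlib
import Pool.Agent.H212.MB.Stm
import Pool.Agent.H212.MB.Stm2
import Pool.Agent.H212.MB.Stm3

set_option autoImplicit false

open Filter Metric Set Topology MeasureTheory Polynomial
open scoped ContDiff ComplexConjugate ENNReal

namespace Pool.Agent.H212.MB

theorem SURG_mono {n : ℕ} {A₁ A₂ : Blaschke n} {k k' : ℝ} {T : ℂ ≃ₜ ℂ} (h : IsTr A₁ A₂ k T)
    (hk : k ≤ k') : IsTr A₁ A₂ k' T :=
  { out := h.out
    inn := h.inn
    smooth := h.smooth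
    nd := h.nd
    dil := fun z hz => (h.dil z hz).trans (mul_le_mul_of_nonneg_right hk (norm_nonneg _))
    ident := h.ident
    semi := h.semi
    mark := h.mark
    lift := h.lift }

theorem t_SURG (h1 : S_SURGA) (h2 : S_QMAP) (h3 : S_RAT) (h4 : S_TR) (h5 : S_TRALG) : S_SURG := by
  intro k hk0 hk1
  obtain ⟨C, hC⟩ := h1 k hk0 hk1
  refine ⟨C, ?_⟩
  intro n hn A₁ A₂ B₁ B₂ f φ ψ h S S' hM hS hS'
  obtain ⟨H, φ₂, ψ₂, hH, hH0, hφ₂, hφS, hψ₂, hψS⟩ := hC n A₁ A₂ B₁ B₂ f φ ψ h S S' hM hS hS'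
  obtain ⟨kA, TA, hkA0, hkA1, hTA⟩ := h4 n hn A₁
  obtain ⟨kB, TB, hkB0, hkB1, hTB⟩ := h4 n hn B₁
  have hTA' := SURG_mono hTA (le_max_left kA kB)
  have hTB' := SURG_mono hTB (le_max_right kA kB)
  obtain ⟨Q, hQ1, hQ2, -, hQ4, -⟩ := h2 n hn A₁ B₁ f φ ψ h (max kA kB) TA TB hM hTA' hTB'
  obtain ⟨k', hk'0, hk'1, hcomp⟩ := (h5 n (by omega)).2.2 (max kA kB) k (le_max_of_le_left hkA0)
    (max_lt hkA1 hkB1) hk0 hk1
  have hA := hcomp (zn n) A₁ A₂ TA S hTA' hS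
  have hB := hcomp (zn n) B₁ B₂ TB S' hTB' hS'
  have hQH : Tendsto (fun z => (Q.trans H) z - z) (cocompact ℂ) (𝓝 0) := by
    have e1 : Tendsto (fun z => H (Q z) - Q z) (cocompact ℂ) (𝓝 0) :=
      hH0.comp Q.isClosedEmbedding.tendsto_cocompact
    have e2 := e1.add hQ4
    rw [add_zero] at e2
    refine e2.congr fun z => ?_
    rw [Homeomorph.trans_apply]
    ring
  obtain ⟨f₂, h₂, hM₂⟩ := h3 n hn A₂ B₂ φ₂ ψ₂ k' (TA.trans S) (TB.trans S') (Q.trans H) hk'0 hk'1 hA hB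
    hφ₂ hψ₂ (fun z hz => by
      rw [Homeomorph.trans_apply, Homeomorph.trans_apply, hQ1 z hz]
      apply hφS
      have hz' : 1 ≤ ‖z‖ := hz
      show 1 ≤ ‖TA z‖
      by_contra hc
      rw [not_le, hTA.inn] at hc
      linarith) (fun z hz => by
      rw [Homeomorph.trans_apply, Homeomorph.trans_apply, hQ2 z hz]
      apply hψS
      rw [mem_closedBall_zero_iff] at hz ⊢
      by_contra hc
      rw [not_le, hTB.out] at hc
      linarith) hQH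
  exact ⟨H, φ₂, ψ₂, f₂, h₂, hH, hH0, hφS, hψS, hM₂⟩

end Pool.Agent.H212.MB
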